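import Mathlib

/-!
# The alpha lemma (statement)

Words over `ZMod q`.  The word `P` is split after every letter `1`; the blocks go alternately to
the two children, all letters minus `1`.
-/

set_option autoImplicit false

namespace R4.Al

variable {q : ℕ}

/-- The child of a word: the flag says whether this child is the active one. -/
def kid : Bool → List (ZMod q) → List (ZMod q)
  | _, [] => []
  | true, c :: w => (c - 1) :: kid (decide (c ≠ 1)) w
  | false, c :: w => kid (decide (c = 1)) w

/-- The descendant at the vertex `u`. -/
def kidL : List Bool → List (ZMod q) → List (ZMod q)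
  | [], w => w
  | b :: u, w => kidL u (kid b w)

/-- Bounded discrepancy. -/
def Bal (C : ℕ) (w : List (ZMod q)) : Prop :=
  ∀ F : List (ZMod q), F <:+: w → ∀ a b, F.count a ≤ F.count b + C

/-- All descendants of depth at most `k` have bounded discrepancy. -/
def Good (C k : ℕ) (w : List (ZMod q)) : Prop :=
  ∀ u : List Bool, u.length ≤ k → Bal C (kidL u w)

/-- The alpha lemma. -/
def AlphaLemma (q : ℕ) : Prop :=
  ∀ (C : ℕ) (ε : ℝ), 0 < ε → ∃ (k : ℕ) (K : ℝ), ∀ n : ℕ,
    (Set.ncard {w : List (ZMod q) | w.length ≤ n ∧ Good C k w} : ℝ) ≤ K * Real.exp (ε * n)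

end R4.Al
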