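import Pool.Agent.Work.MP_e3f5d9_al.AL0

/-!
# The alpha lemma: interface between the combinatorial and the asymptotic part

The combinatorial part proves `AlComb q`, the asymptotic part `AlComb q → AlphaLemma q`.
-/

set_option autoImplicit false

namespace R4.Al

variable {q : ℕ} [NeZero q]

/-- Words. -/
abbrev Wd (q : ℕ) := List (ZMod q)

/-- Labels (count vectors). -/
abbrev Lb (q : ℕ) := ZMod q → ℕ

/-- The count vector of a word. -/
def cv (w : Wd q) : Lb q := fun a => w.count a

/-- The steps of a word: all pairs (label of the prefix, next letter). -/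
def stp (w : Wd q) : Finset (Lb q × ZMod q) :=
  (Finset.range w.length).image fun i => (cv (w.take i), w.getD i 0)

/-- The steps of a set of words. -/
def steps (S : Finset (Wd q)) : Finset (Lb q × ZMod q) := S.biUnion stp

/-- The labels at which the letter `a` is read. -/
def rd (w : Wd q) (a : ZMod q) : Finset (Lb q) :=
  ((stp w).filter fun s => s.2 = a).image Prod.fst

/-- The fibre: all `kid b w`, `w ∈ S`, such that the other child of `w` is `v`. -/
def fib (b : Bool) (S : Finset (Wd q)) (v : Wd q) : Finset (Wd q) :=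
  (S.filter fun w => kid (!b) w = v).image (kid b)

/-- The combinatorial part of the alpha lemma. -/
structure AlComb (q : ℕ) [NeZero q] : Prop where
  /-- A word is determined by its two children. -/
  inj : ∀ w w' : Wd q, (∀ b, kid b w = kid b w') → w = w'
  /-- The children have half the length. -/
  len : ∀ C : ℕ, ∃ c₁ : ℕ, ∀ (w : Wd q) (b : Bool), Good C 1 w →
    2 * (kid b w).length ≤ w.length + c₁
  /-- The number of steps is linear. -/
  lin : ∀ C : ℕ, ∃ D : ℕ, ∀ (n : ℕ) (S : Finset (Wd q)), (∀ w ∈ S, w.length ≤ n ∧ Good C 0 w) →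
    (steps S).card ≤ D * (n + 1)
  /-- A word is determined by the labels of its readings. -/
  rcv : ∀ w w' : Wd q, (∀ a, rd w a = rd w' a) → w = w'
  /-- The steps of two fibres are disjoint parts of the steps of `S` (up to the embeddings). -/
  two : ∀ (S : Finset (Wd q)) (u v : Wd q),
    (steps (fib true S v)).card + (steps (fib false S u)).card ≤ (steps S).card
  /-- The readings of `a + 1` in `w` from the readings of `0` and `a` in the children. -/
  par : ∀ (w w' : Wd q) (a : ZMod q), (∀ b, rd (kid b w) 0 = rd (kid b w') 0) →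
    (∀ b, rd (kid b w) a = rd (kid b w') a) → rd w (a + 1) = rd w' (a + 1)
  /-- Translates: if the intersections `fib b S v ∩ fib b S v₁`, `v ∈ T`, have almost as many steps
  as possible, then the `v ∈ T` have few different readings of `0`. -/
  tra : ∀ (b : Bool) (C : ℕ) (ε : ℝ), 0 < ε → ∃ δ K : ℝ, 0 < δ ∧ ∀ (n t : ℕ) (S T : Finset (Wd q))
    (v₁ u₀ : Wd q), (∀ w ∈ S, w.length ≤ n ∧ Good C 1 w) →
    (∀ v ∈ T, (fib b S v ∩ fib b S v₁).Nonempty ∧
      (steps S).card ≤ (steps (fib b S v ∩ fib b S v₁)).card + (steps (fib (!b) S u₀)).card + t) →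
    (t : ℝ) ≤ δ * n → (((T.image fun v => rd v 0).card : ℕ) : ℝ) ≤ K * Real.exp (ε * n)

end R4.Al
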