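import Pool.Agent.Work.MP_e3f5d9_al.P1

/-!
# Interface of the general theorem: the marks of the centres

A letter `i ≠ o` is a *centre* (`Ctr`) if `{i}` is not a cut.  The pair calculus does not see the
centres; what is missing is the *mark word* `mk i`: the visits at the star of `i` (classes
`cl E i x`: the letters in the direction of `x`, sides of cuts which do not contain `i`) with the
parity of the number of letters `i` read before.  All statements below were checked by computer
(StarBasics: all 1424 data of at most 9 letters; LiftStep, Cont, Cnt: random words).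

Notation: `j = nxt^[e] i`; `adr i e = [side (nxt^[e-1] i), …, side i]`; when the root reads `j`, the
node `x` of depth `e` reads `i` iff it stands at `adr i e`.  A visit `(b, u)` of `P` at `j` is *owned
by `x`* (for `i`, `e`) if `ev u x = adr i e`, i.e. `x = ev u.reverse (adr i e)`.  `stpL i e b` is the
class at `i` of the class `b` at `j` (empty: `b` is *unpopulated*).

## The blocks

* `VispBasics`: calculus of visits with prefixes (induction on the word).
* `StarBasics` (from `Full`): the family `E` is laminar and separating, every cut is `nm (lp s B)` with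
  `B ∈ E` (last arrow of a path, `Mixing.mix`), `∅ ∉ E` (`lp s ∅ = ∅`, so all cuts would be empty).
  `nxt`: if `{nxt i} ∈ E` then `lp (side i) {nxt i} = {i}` (`inj`).  `step`, `cl_eq`: write `t = side i`,
  `j = nxt i`.  The sets `lp t B` (`B` a class at `j` inside of `cap j`) and `(lp t (cap j))ᶜ` are sides
  (`closed`) and a partition of `{i}ᶜ`; every side which does not contain `i` lies in one class at `i`.
  Conversely let `Q` be a class at `i`, `Q = lp s A'` or `(lp s A')ᶜ` with `A' ∈ E`.  `s = t`, `Q = lp t A'`: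
  `j ∉ A'`, so `A'` lies in one class at `j`; `Q = (lp t A')ᶜ`: `cap j ⊆ A'`; `s ≠ t`: `Q = lp s A'` lies in
  `(lp t (cap j))ᶜ`, the other case contains `i`.  `last`: `nm {c} = nm (lp s A')`; `lp s A' = {c}`: then
  `s = side c`, `nxt c ∈ A'`, `cap ⊆ A'`; `lp s A' = {c}ᶜ`: then `s ≠ side c` (otherwise `lp` of `{o}ᶜ` is
  everything, `∅ ∈ E`) and `c` is the only letter of its side.  `per`: by `cl_eq` the number of classes
  at `i` is at most the number of classes at `nxt i`, with equality only if no class is lost.
* `LiftP`: `LiftNear` with prefixes, same automaton induction (an owned visit `(b, u)` of the parent is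
  the visit `(b, sec a u)` of the child: all letters of the visit before the first one that is seen
  are silent; unowned visits are read in the class `none`).
* `LiftStep` (from `LiftP`, `StarBasics`, `VispBasics`, `NodeBasics`): `A = cap (nxt i)`, `c x` the class of
  `x ∈ A`, `x ≠ nxt i`, if it is populated (`VispBasics.filter`), relabel by `cl_eq` (`VispBasics.map`).
* `LiftPath`: iterate; `secL (b :: x) P = secL x (sec b P)`, `Near k l l' → Near k (l.filterMap f)
  (l'.filterMap f)`, `Near k l l' → Near k' l' l'' → Near (k + k') l l''`.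
* `NodeFactor`: factors of perfect nodes are perfect nodes (`UTBasics.factor`, `ut_factor`; all
  conditions of `Perf` are inherited by factors).
* `Own`: the owners are known.  Induction on `e`.  `e = 0`: the word of visits at `j` is determined by
  its filters to two classes, which are `S.K X Y` (`X`, `Y` sides; `VispBasics`, `VisBasics.filter/same`).
  `e + 1`: `j1 = nxt^[e] i`, `t = side j1`; the owner of `(b, u)` is `a :: ev (sec a u).reverse (adr i e)`
  with `a = t xor parity of o in u`, known by `TkDet`.  If the class `b` is populated in one step, then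
  `(stp j1 b, sec a u)` is a visit of `sec a P` at `j1`, up to two at each end (`LiftStep`), and its owner is
  read off the known feature of `sec a P` (`KnownCalc.down`).  If it is not populated, then it is inside
  of `cap j`, the next visit `(b', u')` is owned by `a`, too, and `sec a u' = sec a u ++ j1 … j1`, so the
  owner is that of the next visit, or (last visit) of `sec a P`: finite information.
* `Blk`: `c` is not a centre, `i = nxt c` is one, `A = cap i`, `lp (side c) A = {c}`.  Between two visits of `Q`
  outside of `A` there is a complete run of `A`; it contains a letter `i` (`Clean`), which the owner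
  reads as `c`, in a run of `c` of its own (second part of `Clean`); that run is complete unless it is the
  first or the last one of the child, hence of odd length (`rclean` for `{c}` or `{o}ᶜ`).  The first run
  of `A` that is owned by the child `a` comes early: before it, `a` reads no letter `c`, use `tight` and
  `size_kid` for factors (`NodeFactor`).
* `Bound`: `size F ≤ 2 ^ s * size (secL x F) + c` (`size_kid` for factors, `NodeFactor`), and
  `size ≤ 1` without letters `o`.
* `Far`: if not, `size F ≤ C`.  With `j = nxt^[D] z`: `secL (adr z D) (j :: F ++ [j]) = z :: secL (adr z D) F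
  ++ [z]` (a letter `j` is read at `adr z D` as `z` and does not move it), so `MKD.mkd_far` (helper34) gives
  `2 ^ m ≤ runs {o}ᶜ F + 1` for `n0 + m * (n0 + 1) ≤ D`: contradiction for large `D`.
* `Cont` (pure, all words): state `sg pos Z`: for `Z` a class at `nxt^[p] i` (`p = pos.length`), or the point
  itself (`Z = {nxt^[p] i}`) or empty, `sg [] Z = Z`,
  `sg (a :: pos) Z = sg pos (if a = side j1 then stp j1 Z else (lp (side j1) (cap (nxt j1)))ᶜ)`, `j1 =
  nxt^[p-1] i`.  (A) a letter of `Z` read at `pos` is read in `sg pos Z`; (B) for `pos ≠ adr` `sg pos Z` does not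
  depend on `Z`; (C) reading a letter of `Z` changes `pos` but not `sg pos Z`.  Invariant while no owned
  visit is an exit: `o ∉ sg pos Z`.
* `Cnt` (pure): between two consecutive visits the letters `j` are read after the letters of the first
  visit, at the same position of `x` as at the start of the second visit.
* `MkDet`: `z` periodic, `z = nxt^[s] (nxt c)`.  Take `D` a large multiple of the period.  For `P`, `P'` with
  the same `κ` (visits at `z` with the owners of depth `D` for `z` and of depth `s` for `i0 = nxt c`), the same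
  marks of all descendants of depth `D` except `w0 = 0…0` and the same finite information, let
  `δ k` be the difference of the increments of the number of letters `z` (mod 2) before the `k`-th
  visit, `Δ w k = ∑ l ≤ k, ow l = w, δ l`, `Γ x k = ∑ l ≤ k, ox l = x, δ l` (`Cnt`).  `LiftPath` (all
  classes are populated, `per`): `Δ w k = 0` if `ow k = w ≠ w0`.  An *exit* of `x` is a visit owned by `x`
  with `o ∈ stpL i0 s b`; `LiftPath` and `Blk`: `Γ x k = 0` at the exits of `x`.  `Far`, `Cont`: between two
  visits that are owned by `w0` and by `x` there is an exit of `x`.  So `δ = 0` (`abs` below).  Finite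
  information: the ends of the lists in `Near`, the values at the end of `P`.
  `abs`: if `Δ w0` changes at `k` then `ow k = w0`, and `Γ (ox k)` changes at `k`, so it is not `0` at `k-1` or at
  `k`; between `k` and the last exit before (next exit after) there is another change, at `k'`, `ow k' =
  w0`, `ox k' = ox k`: contradiction to the exit between `k'` and `k`.
* `MkPer` (from `Omit`, `Own`, `MkDet`): the marks of the periodic centres of this orbit are known.
* `MkDown`: the marks at `nxt i` and the owners give the marks at `i` (`Cnt`, `LiftStep`, `KnownCalc.kid`).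
* `MkFin`: let `W'` be the word without the maximal runs of even length of centres (`List.splitBy`).  For
  sides `X`, `Y` the pair word of `W'` is that of `W` up to the ends (`rclean`: no complete run of a side
  vanishes); for a centre `i` the star word of `W'`, with `i` as a class, is determined by `mk i W` (two
  consecutive equal visits are separated by an odd number of letters `i`).  Glue (as `PairRules.glue`):
  all pairs of letters of `W'` are known, `W'` has no equal neighbours apart from runs of leaves, which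
  are odd, up to the ends.  So `ev W = ev W'` is known.
-/

set_option autoImplicit false

open Finset

namespace R4.Mk

open R4

section words

variable {L β : Type} [DecidableEq β]

/-- The visits with the words read before them. -/
def visp (c : L → Option β) : Option β → List L → List L → List (β × List L)
  | _, _, [] => []
  | p, u, x :: w => match c x with
    | none => visp c none (u ++ [x]) w
    | some b => if p = some b then visp c (some b) (u ++ [x]) w
        else (b, u) :: visp c (some b) (u ++ [x]) w

end words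

section cuts

variable {L : Type} [Fintype L] [DecidableEq L]

/-- The smallest cut that contains `i`. -/
def cap (E : Finset (Finset L)) (i : L) : Finset L := univ.filter fun x => ∀ A ∈ E, i ∈ A → x ∈ A

/-- The class of `x` at `i`: the letters in the same direction as `x`. -/
def cl (E : Finset (Finset L)) (i x : L) : Finset L :=
  univ.filter fun y => ∃ A ∈ E, (x ∈ A ∧ y ∈ A ∧ i ∉ A) ∨ (x ∉ A ∧ y ∉ A ∧ i ∈ A)

/-- The class function of the star of `i`. -/
def st (E : Finset (Finset L)) (i x : L) : Option (Finset L) := if x = i then none else some (cl E i x)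

variable (D : KS L)

/-- The centres. -/
def Ctr (E : Finset (Finset L)) (i : L) : Prop := i ≠ D.o ∧ ({i} : Finset L) ∉ E

/-- Transport of a class at `nxt i` to `i`. -/
def stp (i : L) (Z : Finset L) : Finset L :=
  if D.o ∈ Z then (D.lp (D.side i) Zᶜ)ᶜ else D.lp (D.side i) Z

/-- Transport of a class at `nxt^[e] i` to `i`. -/
def stpL (i : L) : ℕ → Finset L → Finset L
  | 0, Z => Z
  | e + 1, Z => stpL i e (stp D (D.nxt^[e] i) Z)

/-- The address of `i`, seen from `nxt^[e] i`. -/
def adr (i : L) : ℕ → List Bool
  | 0 => []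
  | e + 1 => D.side (D.nxt^[e] i) :: adr i e

/-- The visits at `nxt^[e] i` with their owners of depth `e`. -/
noncomputable def own (E : Finset (Finset L)) (i : L) (e : ℕ) (P : List L) :
    List (Finset L × List Bool) :=
  (visp (st E (D.nxt^[e] i)) none [] P).map fun z => (z.1, D.ev z.2.reverse (adr D i e))

/-- The visits at `i` with the marks. -/
def mk (E : Finset (Finset L)) (i : L) (P : List L) : List (Finset L × Bool) :=
  (visp (st E i) none [] P).map fun z => (z.1, decide (Odd (z.2.count i)))

end cuts

/-! ### The blocks -/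

variable {L : Type} [Fintype L] [DecidableEq L]

/-- MK1. -/
structure VispBasics (L : Type) [DecidableEq L] : Prop where
  fst : ∀ {β : Type} [DecidableEq β] (c : L → Option β) p (u W : List L),
    (visp c p u W).map Prod.fst = vis c p W
  tk : ∀ {β : Type} [DecidableEq β] (o : L) (c : L → Option β) p q (W : List L),
    tk o c p q W = (visp c p [] W).map fun z => (z.1, xor q (decide (Odd (z.2.count o))))
  filter : ∀ {β : Type} [DecidableEq β] (c : L → Option β) (p : β → Bool) (W : List L),
    visp (fun x => (c x).filter p) none [] W = (visp c none [] W).filter fun z => p z.1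
  map : ∀ {β γ : Type} [DecidableEq β] [DecidableEq γ] (g : β → γ) (c : L → Option β) (W : List L),
    (∀ x y b b', c x = some b → c y = some b' → g b = g b' → b = b') →
    visp (fun x => (c x).map g) none [] W = (visp c none [] W).map fun z => (g z.1, z.2)
  mem : ∀ {β : Type} [DecidableEq β] (c : L → Option β) (W : List L), ∀ z ∈ visp c none [] W,
    ∃ x v, W = z.2 ++ x :: v ∧ c x = some z.1
  first : ∀ {β : Type} [DecidableEq β] (c : L → Option β) (W : List L) (z : β × List L) V,
    visp c none [] W = z :: V → ∀ x ∈ z.2, c x = none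
  next : ∀ {β : Type} [DecidableEq β] (c : L → Option β) (W : List L) (z z' : β × List L) V1 V2,
    visp c none [] W = V1 ++ z :: z' :: V2 → ∃ R G : List L, R ≠ [] ∧ z'.2 = z.2 ++ R ++ G ∧
      (∀ x ∈ R, c x = some z.1) ∧ (∀ x ∈ G, c x = none) ∧ (G = [] → z'.1 ≠ z.1)
  last : ∀ {β : Type} [DecidableEq β] (c : L → Option β) (W : List L) (z : β × List L) V1,
    visp c none [] W = V1 ++ [z] → ∃ R G : List L, R ≠ [] ∧ W = z.2 ++ R ++ G ∧
      (∀ x ∈ R, c x = some z.1) ∧ (∀ x ∈ G, c x = none)

/-- MK2. -/
structure StarBasics (D : KS L) (E : Finset (Finset L)) : Prop where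
  cap_mem : ∀ i, i ≠ D.o → cap E i ∈ E ∧ i ∈ cap E i
  self : ∀ i x, x ≠ i → x ∈ cl E i x ∧ i ∉ cl E i x
  eqv : ∀ i x y, x ≠ i → y ∈ cl E i x → cl E i y = cl E i x
  side : ∀ i x, x ≠ i → D.Side E (cl E i x)
  out : ∀ i, i ≠ D.o → cl E i D.o = (cap E i)ᶜ
  inn : ∀ i x, i ≠ D.o → x ≠ i → x ∈ cap E i → cl E i x ∈ E ∧ cl E i x ⊆ cap E i
  sub : ∀ i, i ≠ D.o → ∀ X, D.Side E X → i ∉ X → ∀ x ∈ X, X ⊆ cl E i x
  nxt : ∀ i, Ctr D E i → Ctr D E (D.nxt i)
  step : ∀ i, Ctr D E i → ∀ x, x ≠ D.nxt i → stp D i (cl E (D.nxt i) x) = ∅ ∨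
    ∃ y, y ≠ i ∧ stp D i (cl E (D.nxt i) x) = cl E i y
  cl_eq : ∀ i, Ctr D E i → ∀ y, y ≠ i →
    cl E i y = stp D i (cl E (D.nxt i) (if D.side y = D.side i then D.nxt y else D.o))
  last : ∀ c, ¬ Ctr D E c → Ctr D E (D.nxt c) → D.lp (D.side c) (cap E (D.nxt c)) = {c}
  per : ∀ i, Ctr D E i → ∀ n, 0 < n → D.nxt^[n] i = i → ∀ x, x ≠ D.nxt i →
    (stp D i (cl E (D.nxt i) x)).Nonempty

/-- MK3. The lift with prefixes. -/
def LiftP (S : Setup L) : Prop :=
  ∀ {β : Type} [DecidableEq β] (A : Finset L) (t : Bool) (c : L → Option β) (P : List L),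
    S.D.o ∉ A → (∀ x, x ∉ A → c x = none) → S.D.Clean A t P →
    (∀ b, (cset c b).Nonempty → S.D.Clean (cset c b) t P) → ∀ a : Bool,
    Near 2 (visp (S.kcl t A c) none [] (S.D.sec a P))
      (((visp (glR A c) none [] P).filter fun z =>
        xor a (decide (Odd (z.2.count S.D.o))) == t).map fun z => (z.1, S.D.sec a z.2))

/-- MK4a. The lift of the star of a centre, one step. -/
def LiftStep (S : Setup L) : Prop := ∀ i, Ctr S.D S.E i → ∀ P ∈ S.N 0, ∀ a : Bool,
  Near 2 (visp (st S.E i) none [] (S.D.sec a P))
    ((visp (st S.E (S.D.nxt i)) none [] P).filterMap fun z =>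
      if xor a (decide (Odd (z.2.count S.D.o))) = S.D.side i ∧ (stp S.D i z.1).Nonempty
      then some (stp S.D i z.1, S.D.sec a z.2) else none)

/-- MK4b. The lift of the star of a centre. -/
def LiftPath (S : Setup L) : Prop := ∀ i, Ctr S.D S.E i → ∀ e, ∃ k, ∀ P ∈ S.N e,
  ∀ x : List Bool, x.length = e →
  Near k (visp (st S.E i) none [] (S.D.secL x P))
    ((visp (st S.E (S.D.nxt^[e] i)) none [] P).filterMap fun z =>
      if S.D.ev z.2 x = adr S.D i e ∧ (stpL S.D i e z.1).Nonempty
      then some (stpL S.D i e z.1, S.D.secL x z.2) else none)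

/-- MK5. -/
def NodeFactor (S : Setup L) : Prop := ∀ k, ∀ W ∈ S.N k, ∀ W', W' <:+: W → W' ∈ S.N k

/-- All pairs of disjoint sides are known. -/
def AllK (S : Setup L) : Prop :=
  ∀ X Y, S.D.Side S.E X → S.D.Side S.E Y → Disjoint X Y → S.K X Y

/-- MK6. The owners are known. -/
def Own (S : Setup L) : Prop := AllK S → ∀ i, Ctr S.D S.E i → ∀ e, S.Known (own S.D S.E i e)

/-- MK7. Between two visits outside of `cap (nxt c)` there is an odd number of letters `nxt c`. -/
def Blk (S : Setup L) : Prop := ∀ c, ¬ Ctr S.D S.E c → Ctr S.D S.E (S.D.nxt c) →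
  ∃ k e : ℕ, ∀ Q ∈ S.N k, ∃ a m b : List Bool,
    (((visp (st S.E (S.D.nxt c)) none [] Q).filter fun z => S.D.o ∈ z.1).map
      fun z => decide (Odd (z.2.count (S.D.nxt c)))) = a ++ m ++ b ∧
    a.length ≤ e ∧ b.length ≤ e ∧ m.IsChain (· ≠ ·)

/-- MK8a. -/
def Bound (S : Setup L) : Prop := ∀ s, ∃ k C : ℕ, ∀ F ∈ S.N k, ∀ x : List Bool, x.length = s →
  S.D.o ∉ S.D.secL x F → S.D.size F ≤ C

/-- MK8b. -/
def Far (S : Setup L) : Prop := ∀ z, z ≠ S.D.o → ∀ s, ∃ k D0 : ℕ, ∀ D, D0 ≤ D → ∀ F ∈ S.N k,
  S.D.ev F (adr S.D z D) = adr S.D z D → (∃ i ∈ S.D.secL (adr S.D z D) F, i ≠ z) →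
  ∀ x : List Bool, x.length = s → S.D.o ∈ S.D.secL x F

/-- MK9. -/
def Cont (D : KS L) (E : Finset (Finset L)) : Prop := ∀ i, Ctr D E i →
  ∀ (s : ℕ) (x : List Bool) (P : List L), x.length = s → ∀ V1 V2 V3 y y' F,
    visp (st E (D.nxt^[s] i)) none [] P = V1 ++ y :: V2 ++ y' :: V3 → y'.2 = y.2 ++ F →
    D.ev y.2 x = adr D i s → D.ev y'.2 x = adr D i s → D.o ∈ D.secL (adr D i s) F →
    ∃ v ∈ y :: V2, D.ev v.2 x = adr D i s ∧ D.o ∈ stpL D i s v.1

/-- MK10. -/
structure Cnt (D : KS L) (E : Finset (Finset L)) : Prop where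
  first : ∀ i (x : List Bool) (P : List L) y V,
    visp (st E (D.nxt^[x.length] i)) none [] P = y :: V → (D.secL x y.2).count i =
      if D.ev y.2 x = adr D i x.length then y.2.count (D.nxt^[x.length] i) else 0
  next : ∀ i (x : List Bool) (P : List L) y y' V1 V2,
    visp (st E (D.nxt^[x.length] i)) none [] P = V1 ++ y :: y' :: V2 →
    (D.secL x y'.2).count i +
      (if D.ev y'.2 x = adr D i x.length then y.2.count (D.nxt^[x.length] i) else 0) =
    (D.secL x y.2).count i +
      (if D.ev y'.2 x = adr D i x.length then y'.2.count (D.nxt^[x.length] i) else 0)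

/-- MK11a. -/
def Abs : Prop := ∀ {W X : Type} [Fintype W] [Fintype X] [DecidableEq W] [DecidableEq X]
  (m : ℕ) (ow : ℕ → W) (ox : ℕ → X) (ex : ℕ → Prop) (δ : ℕ → ZMod 2) (w0 : W) (a0 b0 : ℕ),
  (∀ k, k < m → ow k ≠ w0 → ∑ l ∈ range (k + 1) with ow l = ow k, δ l = 0) →
  (∀ k, k < m → ex k → ∑ l ∈ range (k + 1) with ox l = ox k, δ l = 0) →
  (∀ x, ∑ l ∈ range m with ox l = x, δ l = 0) →
  (ow b0 = w0 ∨ m ≤ a0) →
  (∀ k, k < m → ow k = w0 → (k < a0 ∨ b0 ≤ k) → ∑ l ∈ range (k + 1) with ow l = w0, δ l = 0) →
  (∀ k' k, a0 ≤ k' → k' < k → k ≤ b0 → k < m → ow k' = w0 → ow k = w0 → ox k' = ox k →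
    ∃ j, k' ≤ j ∧ j < k ∧ ox j = ox k ∧ ex j) →
  ∀ k, k < m → δ k = 0

/-- MK11b. -/
def MkDet (S : Setup L) : Prop := ∀ c s n, ¬ Ctr S.D S.E c →
  Ctr S.D S.E (S.D.nxt c) → 0 < n → S.D.nxt^[n] (S.D.nxt^[s] (S.D.nxt c)) = S.D.nxt^[s] (S.D.nxt c) →
  ∃ d, 0 < d ∧ S.D.nxt^[d] (S.D.nxt^[s] (S.D.nxt c)) = S.D.nxt^[s] (S.D.nxt c) ∧
  ∃ k, Det (S.N k) (fun P => ((own S.D S.E (S.D.nxt^[s] (S.D.nxt c)) d P,
      own S.D S.E (S.D.nxt c) s P),
      fun x : {x : List Bool // x.length = d ∧ x ≠ List.replicate d false} =>
        mk S.E (S.D.nxt^[s] (S.D.nxt c)) (S.D.secL x.1 P)))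
    (mk S.E (S.D.nxt^[s] (S.D.nxt c)))

/-- MK12a. -/
def MkPer (S : Setup L) : Prop := AllK S → ∀ c s n, ¬ Ctr S.D S.E c →
  Ctr S.D S.E (S.D.nxt c) → 0 < n → S.D.nxt^[n] (S.D.nxt^[s] (S.D.nxt c)) = S.D.nxt^[s] (S.D.nxt c) →
  S.Known (mk S.E (S.D.nxt^[s] (S.D.nxt c)))

/-- MK12b. -/
def MkDown (S : Setup L) : Prop := AllK S → ∀ i, Ctr S.D S.E i →
  S.Known (mk S.E (S.D.nxt i)) → S.Known (mk S.E i)

/-- MK12c. The marks of all centres are known. -/
def MkAll (S : Setup L) : Prop := (∀ i, ∃ n, S.D.nxt^[n] S.D.o = i) → AllK S →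
  ∀ i, Ctr S.D S.E i → S.Known (mk S.E i)

/-- MK13. The end. -/
def MkFin (S : Setup L) : Prop := AllK S → (∀ i, Ctr S.D S.E i → S.Known (mk S.E i)) →
  S.Known S.D.ev

/-- MK14. All together. -/
def MarksThm (S : Setup L) : Prop := (∀ i, ∃ n, S.D.nxt^[n] S.D.o = i) → AllK S →
  S.Known S.D.ev

theorem marks_of {S : Setup L} (h1 : MkAll S) (h2 : MkFin S) : MarksThm S :=
  fun ho hK => h2 hK (h1 ho hK)

end R4.Mk
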