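import Pool.Agent.Work.MP_e3f5d9_al.PRaS
import Pool.Agent.Work.MP_e3f5d9_al.MK0
import Pool.Agent.Work.MP_e3f5d9_al_h92.C7

/-!
# ASM: assembly of the general theorem

`allK`: all pairs of disjoint sides are known (soundness and completeness of the pair calculus).
`sub_of`: full class of cuts, orbit of `o` everything, `side o = true`: subexponential growth, from
`RLPerf` (PB6) and the marks (MK14).
-/

set_option autoImplicit false

open Finset

namespace R4

variable {L : Type} [Fintype L] [DecidableEq L]

/-- All pairs of disjoint sides are known. -/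
theorem allK (S : Setup L) (ho : S.D.side S.D.o = true) : Mk.AllK S := by
  have hs : Soundness S := soundness S
  obtain ⟨h1, h2⟩ := complete S.full ho S.K hs
  have key : ∀ X ∈ S.E, ∀ Y, S.D.Side S.E Y → Disjoint X Y → S.K X Y := by
    intro X hX Y hY hXY
    have hXs : S.D.Side S.E X := by
      unfold KS.Side KS.nm
      rw [if_neg (S.full.norm X hX)]
      exact hX
    unfold KS.Side KS.nm at hY
    by_cases hoY : S.D.o ∈ Y
    · rw [if_pos hoY] at hY
      have hsub : X ⊆ Yᶜ := by
        intro x hx
        rw [mem_compl]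
        exact Finset.disjoint_left.1 hXY hx
      rcases eq_or_ssubset_of_subset hsub with he | hlt
      · have hm : S.D.Mono S.E X Xᶜ := KS.Mono.triv _ hXs
        have hYX : Xᶜ = Y := by rw [he, compl_compl]
        rw [hYX] at hm
        refine hs.mono _ _ hm hXs ?_
        unfold KS.Side KS.nm
        rw [if_pos hoY]
        exact hY
      · have h := h2 X hX Yᶜ hY hlt
        rwa [compl_compl] at h
    · rw [if_neg hoY] at hY
      exact h1 X hX Y hY hXY
  intro X Y hX hY hXY
  by_cases hoX : S.D.o ∈ X
  · have hoY : S.D.o ∉ Y := fun h => (Finset.disjoint_left.1 hXY hoX) h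
    have hY' := hY
    unfold KS.Side KS.nm at hY'
    rw [if_neg hoY] at hY'
    exact hs.symm _ _ hXY.symm (key Y hY' X hX hXY.symm)
  · have hX' := hX
    unfold KS.Side KS.nm at hX'
    rw [if_neg hoX] at hX'
    exact key X hX' Y hY hXY

/-- Subexponential growth. -/
theorem sub_of (D : KS L) (E : Finset (Finset L)) (hE : D.Full E) (ho : D.side D.o = true)
    (horb : ∀ i, ∃ n, D.nxt^[n] D.o = i) (hR : RLPerf D)
    (hM : ∀ S : Setup L, S.D = D → Mk.MarksThm S) : SubexpGam D := by
  obtain ⟨n0, hn0, hmix⟩ := hE.mix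
  obtain ⟨d, hd, h⟩ := hR E hE n0 ⟨hn0, hmix⟩
  apply h
  exact hM ⟨D, E, n0, 2 ^ (n0 + 2), d, hE, ⟨hn0, hmix⟩, hd⟩ rfl horb (allK _ ho)

end R4
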