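import Pool.Agent.Work.MP_e3f5d9_al.Interface

/-!
# B1: basics on words and sections
-/

set_option autoImplicit false

open Finset

namespace R4

namespace B1Aux

variable {L : Type} [Fintype L] [DecidableEq L] (D : KS L)

lemma pre_eq (b : Bool) (j i : L) : D.pre b j = some i ↔ D.nxt i = j ∧ D.side i = b := by
  classical
  unfold KS.pre
  by_cases h : ∃ i, D.nxt i = j ∧ D.side i = b
  · rw [dif_pos h]
    constructor
    · intro e
      have e' : h.choose = i := Option.some.inj e
      rw [← e']
      exact h.choose_spec
    · rintro ⟨h1, h2⟩
      have h3 := h.choose_spec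
      exact congrArg some (D.inj _ _ (h3.1.trans h1.symm) (h3.2.trans h2.symm))
  · rw [dif_neg h]
    constructor
    · intro e
      exact absurd e (by simp)
    · intro h1
      exact absurd ⟨i, h1⟩ h

@[simp] lemma act_nil (i : L) : D.act i [] = [] := by
  rw [KS.act]

lemma act_o (b : Bool) (x : List Bool) : D.act D.o (b :: x) = (!b) :: x := by
  rw [KS.act]
  simp

lemma act_none {j : L} {b : Bool} (hj : j ≠ D.o) (hp : D.pre b j = none) (x : List Bool) :
    D.act j (b :: x) = b :: x := by
  rw [KS.act]
  rw [if_neg hj, hp]

lemma act_some {j i : L} {b : Bool} (hj : j ≠ D.o) (hp : D.pre b j = some i) (x : List Bool) :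
    D.act j (b :: x) = b :: D.act i x := by
  rw [KS.act]
  rw [if_neg hj, hp]

lemma sec_nil (b : Bool) : D.sec b [] = [] := by
  rw [KS.sec]

lemma sec_o (b : Bool) (w : List L) : D.sec b (D.o :: w) = D.sec (!b) w := by
  rw [KS.sec]
  simp

lemma sec_none {j : L} {b : Bool} (hj : j ≠ D.o) (hp : D.pre b j = none) (w : List L) :
    D.sec b (j :: w) = D.sec b w := by
  rw [KS.sec]
  rw [if_neg hj, hp]

lemma sec_some {j i : L} {b : Bool} (hj : j ≠ D.o) (hp : D.pre b j = some i) (w : List L) :
    D.sec b (j :: w) = i :: D.sec b w := by
  rw [KS.sec]
  rw [if_neg hj, hp]

lemma act_length : ∀ (x : List Bool) (i : L), (D.act i x).length = x.length := by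
  intro x
  induction x with
  | nil => intro i; simp
  | cons b x ih =>
    intro i
    by_cases hi : i = D.o
    · subst hi
      rw [act_o]
      simp
    · cases hp : D.pre b i with
      | none => rw [act_none D hi hp]
      | some k =>
        rw [act_some D hi hp]
        simp [ih]

lemma act_act : ∀ (x : List Bool) (i : L), D.act i (D.act i x) = x := by
  intro x
  induction x with
  | nil => intro i; simp
  | cons b x ih =>
    intro i
    by_cases hi : i = D.o
    · subst hi
      rw [act_o, act_o]
      simp
    · cases hp : D.pre b i with
      | none => rw [act_none D hi hp, act_none D hi hp]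
      | some k => rw [act_some D hi hp, act_some D hi hp, ih]

lemma ev_nil (x : List Bool) : D.ev [] x = x := by
  rw [KS.ev]

lemma ev_cons' (i : L) (w : List L) (x : List Bool) : D.ev (i :: w) x = D.ev w (D.act i x) := by
  rw [KS.ev]

lemma ev_append : ∀ (w w' : List L) (x : List Bool), D.ev (w ++ w') x = D.ev w' (D.ev w x) := by
  intro w
  induction w with
  | nil => intro w' x; rw [ev_nil]; rfl
  | cons i w ih =>
    intro w' x
    rw [List.cons_append, ev_cons', ev_cons', ih]

lemma ev_length : ∀ (w : List L) (x : List Bool), (D.ev w x).length = x.length := by
  intro w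
  induction w with
  | nil => intro x; rw [ev_nil]
  | cons i w ih => intro x; rw [ev_cons', ih, act_length]

lemma odd_succ (b : Bool) (n : ℕ) :
    xor (!b) (decide (Odd n)) = xor b (decide (Odd (n + 1))) := by
  by_cases h : Odd n
  · have h' : ¬ Odd (n + 1) := by
      intro h2
      rw [Nat.odd_add_one] at h2
      exact h2 h
    rw [decide_eq_true h, decide_eq_false h']
    cases b <;> rfl
  · have h' : Odd (n + 1) := by
      rw [Nat.odd_add_one]
      exact h
    rw [decide_eq_false h, decide_eq_true h']
    cases b <;> rfl

lemma ev_cons : ∀ (w : List L) (b : Bool) (x : List Bool),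
    D.ev w (b :: x) = (xor b (decide (Odd (w.count D.o)))) :: D.ev (D.sec b w) x := by
  intro w
  induction w with
  | nil =>
    intro b x
    rw [sec_nil, ev_nil, ev_nil]
    simp
  | cons j w ih =>
    intro b x
    rw [ev_cons']
    by_cases hj : j = D.o
    · subst hj
      rw [act_o, ih, sec_o, List.count_cons_self, odd_succ]
    · rw [List.count_cons_of_ne hj]
      cases hp : D.pre b j with
      | none => rw [act_none D hj hp, ih, sec_none D hj hp]
      | some k => rw [act_some D hj hp, ih, sec_some D hj hp, ev_cons']

lemma ev_reverse : ∀ (w : List L) (x : List Bool), D.ev w.reverse (D.ev w x) = x := by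
  intro w
  induction w with
  | nil => intro x; rw [List.reverse_nil, ev_nil, ev_nil]
  | cons i w ih =>
    intro x
    rw [List.reverse_cons, ev_append, ev_cons' D i w x, ih, ev_cons', ev_nil, act_act]

omit [Fintype L] in
lemma red_chain : ∀ w : List L, (red w).IsChain (· ≠ ·) := by
  intro w
  induction w with
  | nil => simp [red]
  | cons x w ih =>
    rw [red]
    cases h : red w with
    | nil => simp
    | cons y t =>
      rw [h] at ih
      dsimp only
      by_cases hxy : x = y
      · rw [if_pos hxy]
        exact ih.tail
      · rw [if_neg hxy]
        exact List.IsChain.cons_cons hxy ih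

omit [Fintype L] in
lemma red_cons_congr (x : L) (u v : List L) (h : red u = red v) : red (x :: u) = red (x :: v) := by
  rw [red, red, h]

omit [Fintype L] in
lemma red_cons_cons (x : L) (v : List L) : red (x :: x :: v) = red v := by
  have hch := red_chain v
  rw [red, red]
  cases h : red v with
  | nil => simp
  | cons y t =>
    dsimp only
    by_cases hxy : x = y
    · subst hxy
      rw [if_pos rfl]
      rw [h] at hch
      cases t with
      | nil => rfl
      | cons z t' =>
        dsimp only
        rw [if_neg]
        simp only [List.isChain_cons_cons] at hch
        exact hch.1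
    · rw [if_neg hxy]
      dsimp only
      rw [if_pos rfl]

omit [Fintype L] in
lemma red_red : ∀ w : List L, red (red w) = red w := by
  intro w
  induction w with
  | nil => rfl
  | cons x w ih =>
    have hch := red_chain (x :: w)
    rw [red] at hch ⊢
    cases h : red w with
    | nil => rfl
    | cons y t =>
      rw [h] at ih
      dsimp only
      by_cases hxy : x = y
      · rw [if_pos hxy]
        have hch' := red_chain w
        rw [h] at hch'
        rw [red] at ih
        cases ht : red t with
        | nil =>
          rw [ht] at ih
          dsimp only at ih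
          have : t = [] := by
            have := congrArg List.length ih
            simp at this
            exact this
          rw [this]
        | cons z t' =>
          rw [ht] at ih
          dsimp only at ih
          by_cases hyz : y = z
          · rw [if_pos hyz] at ih
            subst hyz
            rw [ih] at ht
            have h3 := red_chain t
            rw [ht] at h3
            simp only [List.isChain_cons_cons] at h3
            exact absurd rfl h3.1
          · rw [if_neg hyz] at ih
            exact List.cons_injective ih
      · rw [if_neg hxy]
        rw [red, ih]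
        dsimp only
        rw [if_neg hxy]

lemma ev_red : ∀ w : List L, D.ev (red w) = D.ev w := by
  intro w
  induction w with
  | nil => rfl
  | cons x w ih =>
    funext z
    rw [ev_cons', ← ih, red]
    cases h : red w with
    | nil => rw [ev_cons']
    | cons y t =>
      dsimp only
      by_cases hxy : x = y
      · rw [if_pos hxy, ev_cons', hxy, act_act]
      · rw [if_neg hxy, ev_cons']

lemma sec_append : ∀ (w w' : List L) (b : Bool), D.sec b (w ++ w') =
    D.sec b w ++ D.sec (xor b (decide (Odd (w.count D.o)))) w' := by
  intro w
  induction w with
  | nil => intro w' b; rw [sec_nil]; simp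
  | cons j w ih =>
    intro w' b
    rw [List.cons_append]
    by_cases hj : j = D.o
    · subst hj
      rw [sec_o, sec_o, ih, List.count_cons_self, odd_succ]
    · rw [List.count_cons_of_ne hj]
      cases hp : D.pre b j with
      | none => rw [sec_none D hj hp, sec_none D hj hp, ih]
      | some k => rw [sec_some D hj hp, sec_some D hj hp, ih, List.cons_append]

lemma red_sec_cons_congr (b : Bool) (x : L) (u v : List L)
    (h : ∀ b, red (D.sec b u) = red (D.sec b v)) :
    red (D.sec b (x :: u)) = red (D.sec b (x :: v)) := by
  by_cases hx : x = D.o
  · subst hx
    rw [sec_o, sec_o, h]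
  · cases hp : D.pre b x with
    | none => rw [sec_none D hx hp, sec_none D hx hp, h]
    | some k =>
      rw [sec_some D hx hp, sec_some D hx hp]
      exact red_cons_congr _ _ _ (h b)

lemma red_sec_cons_cons (b : Bool) (x : L) (v : List L) :
    red (D.sec b (x :: x :: v)) = red (D.sec b v) := by
  by_cases hx : x = D.o
  · subst hx
    rw [sec_o, sec_o, Bool.not_not]
  · cases hp : D.pre b x with
    | none => rw [sec_none D hx hp, sec_none D hx hp]
    | some k =>
      rw [sec_some D hx hp, sec_some D hx hp]
      exact red_cons_cons _ _

lemma red_sec : ∀ (w : List L) (b : Bool), red (D.sec b (red w)) = red (D.sec b w) := by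
  intro w
  induction w with
  | nil => intro b; rfl
  | cons x w ih =>
    intro b
    rw [← red_sec_cons_congr D b x (red w) w ih]
    rw [red]
    cases h : red w with
    | nil => rfl
    | cons y t =>
      dsimp only
      by_cases hxy : x = y
      · rw [if_pos hxy, hxy, red_sec_cons_cons]
      · rw [if_neg hxy]

lemma count_sec_aux : ∀ (w : List L) (i : L) (b : Bool),
    (D.sec b w).count i + (D.sec (!b) w).count i = w.count (D.nxt i) := by
  intro w i
  induction w with
  | nil => intro b; rw [sec_nil, sec_nil]; simp
  | cons j w ih =>
    intro b
    by_cases hj : j = D.o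
    · subst hj
      rw [sec_o, sec_o, ih (!b), List.count_cons_of_ne (D.nxt_ne i).symm]
    · have key : ∀ b : Bool, (D.sec b (j :: w)).count i =
          (if D.nxt i = j ∧ D.side i = b then 1 else 0) + (D.sec b w).count i := by
        intro b
        cases hp : D.pre b j with
        | none =>
          rw [sec_none D hj hp, if_neg, zero_add]
          intro h
          rw [(pre_eq D b j i).2 h] at hp
          exact absurd hp (by simp)
        | some k =>
          rw [sec_some D hj hp]
          by_cases hki : k = i
          · subst hki
            rw [List.count_cons_self, if_pos ((pre_eq D b j k).1 hp), add_comm]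
          · rw [List.count_cons_of_ne hki, if_neg, zero_add]
            intro h
            rw [(pre_eq D b j i).2 h] at hp
            exact hki (Option.some.inj hp).symm
      rw [key, key, List.count_cons, ← ih b]
      by_cases h : D.nxt i = j
      · cases hb : D.side i <;> cases b <;> simp [h] <;> omega
      · simp [h, Ne.symm h]

end B1Aux

open B1Aux

theorem b1 {L : Type} [Fintype L] [DecidableEq L] (D : KS L) : Basics D where
  pre_eq := pre_eq D
  act_length := fun i x => act_length D x i
  act_act := fun i x => act_act D x i
  ev_append := ev_append D
  ev_length := ev_length D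
  ev_cons := ev_cons D
  ev_reverse := ev_reverse D
  ev_red := ev_red D
  sec_append := fun b w w' => sec_append D w w' b
  red_sec := fun b w => red_sec D w b
  count_sec := fun w i => count_sec_aux D w i false

end R4
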