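import Pool.Agent.Work.MP_e3f5d9_al.Interface

/-!
# R4, block B10: growth of the group
-/

set_option autoImplicit false

open Finset

namespace R4

namespace B10Aux

/-! ### Lists over a finite set -/

lemma finite_lists {G : Type} [Group G] (S : Finset G) (n : ℕ) :
    {g : G | ∃ l : List G, l.length ≤ n ∧ (∀ x ∈ l, x ∈ S ∨ x⁻¹ ∈ S) ∧ l.prod = g}.Finite := by
  classical
  let T : Finset G := S ∪ S.image (fun x => x⁻¹)
  have hT : ∀ x : G, (x ∈ S ∨ x⁻¹ ∈ S) → x ∈ T := by
    intro x hx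
    rcases hx with hx | hx
    · exact Finset.mem_union_left _ hx
    · exact Finset.mem_union_right _ (Finset.mem_image.2 ⟨x⁻¹, hx, inv_inv x⟩)
  have hfin : {l : List T | l.length ≤ n}.Finite := List.finite_length_le T n
  refine (hfin.image (fun l : List T => (l.map Subtype.val).prod)).subset ?_
  rintro g ⟨l, hl, hS, rfl⟩
  refine ⟨l.attach.map (fun x => ⟨x.1, hT x.1 (hS x.1 x.2)⟩), ?_, ?_⟩
  · simpa using hl
  · simp [List.map_map, Function.comp_def]

lemma ball_finite {G : Type} [Group G] (S : Finset G) (n : ℕ) :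
    Finite {g : G // ∃ l : List G, l.length ≤ n ∧ (∀ x ∈ l, x ∈ S ∨ x⁻¹ ∈ S) ∧ l.prod = g} :=
  (finite_lists S n).to_subtype

variable {L : Type} [Fintype L] [DecidableEq L] (D : KS L)

lemma gam_finite (n : ℕ) :
    Finite {g : List Bool → List Bool // ∃ w : List L, w.length ≤ n ∧ D.ev w = g} := by
  have hfin : {l : List L | l.length ≤ n}.Finite := List.finite_length_le L n
  refine Set.Finite.to_subtype ((hfin.image (fun l => D.ev l)).subset ?_)
  rintro g ⟨w, hw, rfl⟩
  exact ⟨w, hw, rfl⟩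

/-! ### Letters as elements of the group -/

/-- The letter `i` as a permutation. -/
noncomputable def perm (h : Basics D) (i : L) : Equiv.Perm (List Bool) where
  toFun := D.act i
  invFun := D.act i
  left_inv := h.act_act i
  right_inv := h.act_act i

/-- The letter `i` as an element of the group. -/
noncomputable def gen (h : Basics D) (i : L) : D.grp :=
  ⟨perm D h i, Subgroup.subset_closure ⟨i, fun _ => rfl⟩⟩

lemma gen_apply (h : Basics D) (i : L) (x : List Bool) :
    ((gen D h i : D.grp) : Equiv.Perm (List Bool)) x = D.act i x := rfl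

open Classical in
/-- The set of the letters generates. -/
lemma closure_gen (h : Basics D) :
    Subgroup.closure ((Finset.univ.image (gen D h) : Finset D.grp) : Set D.grp) = ⊤ := by
  rw [eq_top_iff]
  rintro ⟨g, hg⟩ -
  have key : ∀ g : Equiv.Perm (List Bool), ∀ hg : g ∈ D.grp,
      (⟨g, hg⟩ : D.grp) ∈
        Subgroup.closure ((Finset.univ.image (gen D h) : Finset D.grp) : Set D.grp) := by
    intro g hg
    induction hg using Subgroup.closure_induction with
    | mem x hx =>
      obtain ⟨i, hi⟩ := hx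
      apply Subgroup.subset_closure
      simp only [Finset.coe_image, Finset.coe_univ, Set.image_univ, Set.mem_range]
      refine ⟨i, ?_⟩
      apply Subtype.ext
      apply Equiv.ext
      intro y
      rw [gen_apply]
      exact (hi y).symm
    | one => exact Subgroup.one_mem _
    | mul x y hx hy ihx ihy => exact Subgroup.mul_mem _ ihx ihy
    | inv x hx ihx => exact Subgroup.inv_mem _ ihx
  exact key g hg

/-- Words of letters in terms of a generating set. -/
lemma word_to_list (h : Basics D) (S : Finset D.grp)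
    (hS : Subgroup.closure (S : Set D.grp) = ⊤) :
    ∃ K : ℕ, ∀ w : List L, ∃ l : List D.grp, l.length ≤ K * w.length ∧
      (∀ x ∈ l, x ∈ S ∨ x⁻¹ ∈ S) ∧
      ∀ x, ((l.prod : D.grp) : Equiv.Perm (List Bool)) x = D.ev w x := by
  have h1 : ∀ i : L, ∃ l : List D.grp, (∀ x ∈ l, x ∈ S ∨ x⁻¹ ∈ S) ∧ l.prod = gen D h i := by
    intro i
    have : gen D h i ∈ (Subgroup.closure (S : Set D.grp)).toSubmonoid := by rw [hS]; trivial
    rw [Subgroup.closure_toSubmonoid] at this
    obtain ⟨l, hl, hl'⟩ := Submonoid.exists_list_of_mem_closure this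
    refine ⟨l, fun x hx => ?_, hl'⟩
    have := hl x hx
    simpa using this
  choose li hli hli' using h1
  refine ⟨∑ i, (li i).length, ?_⟩
  intro w
  induction w with
  | nil => exact ⟨[], by simp, by simp, fun x => by simp [KS.ev]⟩
  | cons i w ih =>
    obtain ⟨l, hl1, hl2, hl3⟩ := ih
    refine ⟨l ++ li i, ?_, ?_, ?_⟩
    · have : (li i).length ≤ ∑ j, (li j).length :=
        Finset.single_le_sum (f := fun j => (li j).length) (fun _ _ => Nat.zero_le _)
          (Finset.mem_univ i)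
      simp only [List.length_append, List.length_cons]
      nlinarith
    · intro x hx
      rcases List.mem_append.1 hx with hx | hx
      · exact hl2 x hx
      · exact hli i x hx
    · intro x
      rw [List.prod_append, hli' i]
      simp only [Subgroup.coe_mul, Equiv.Perm.coe_mul, Function.comp_apply]
      rw [gen_apply, hl3]
      rfl

/-- Every element of the group is a word. -/
lemma exists_word (h : Basics D) (g : D.grp) :
    ∃ w : List L, ∀ x, D.ev w x = (g : Equiv.Perm (List Bool)) x := by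
  obtain ⟨g, hg⟩ := g
  induction hg using Subgroup.closure_induction with
  | mem x hx =>
    obtain ⟨i, hi⟩ := hx
    exact ⟨[i], fun y => by simp [KS.ev, hi]⟩
  | one => exact ⟨[], fun y => by simp [KS.ev]⟩
  | mul x y hx hy ihx ihy =>
    obtain ⟨wx, hwx⟩ := ihx
    obtain ⟨wy, hwy⟩ := ihy
    refine ⟨wy ++ wx, fun z => ?_⟩
    rw [h.ev_append]
    simp only at hwx hwy
    rw [hwy, hwx]
    rfl
  | inv x hx ihx =>
    obtain ⟨wx, hwx⟩ := ihx
    refine ⟨wx.reverse, fun z => ?_⟩
    simp only at hwx ⊢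
    have := h.ev_reverse wx (x⁻¹ z)
    rw [hwx] at this
    simpa using this

/-- Products of generators in terms of words of letters. -/
lemma list_to_word (h : Basics D) (S : Finset D.grp) :
    ∃ K : ℕ, ∀ l : List D.grp, (∀ x ∈ l, x ∈ S ∨ x⁻¹ ∈ S) →
      ∃ w : List L, w.length ≤ K * l.length ∧
      ∀ x, D.ev w x = ((l.prod : D.grp) : Equiv.Perm (List Bool)) x := by
  choose W hW using exists_word D h
  let K : ℕ := ∑ s ∈ S, ((W s).length + (W s⁻¹).length)
  have hK : ∀ s : D.grp, (s ∈ S ∨ s⁻¹ ∈ S) → (W s).length ≤ K := by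
    intro s hs
    rcases hs with hs | hs
    · have : (W s).length + (W s⁻¹).length ≤ K :=
        Finset.single_le_sum (f := fun s => (W s).length + (W s⁻¹).length)
          (fun _ _ => Nat.zero_le _) hs
      omega
    · have : (W s⁻¹).length + (W s⁻¹⁻¹).length ≤ K :=
        Finset.single_le_sum (f := fun s => (W s).length + (W s⁻¹).length)
          (fun _ _ => Nat.zero_le _) hs
      rw [inv_inv] at this
      omega
  refine ⟨K, ?_⟩
  intro l
  induction l with
  | nil => intro _; exact ⟨[], by simp, fun x => by simp [KS.ev]⟩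
  | cons s l ih =>
    intro hl
    obtain ⟨w, hw1, hw2⟩ := ih (fun x hx => hl x (List.mem_cons_of_mem _ hx))
    refine ⟨w ++ W s, ?_, ?_⟩
    · have := hK s (hl s List.mem_cons_self)
      simp only [List.length_append, List.length_cons]
      nlinarith
    · intro x
      rw [h.ev_append, hw2, hW, List.prod_cons]
      rfl

lemma gam_le_ball (h : Basics D) (S : Finset D.grp)
    (hS : Subgroup.closure (S : Set D.grp) = ⊤) :
    ∃ K : ℕ, 0 < K ∧ ∀ n, D.gam n ≤ ballSize S (K * n) := by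
  obtain ⟨K, hK⟩ := word_to_list D h S hS
  refine ⟨K + 1, Nat.succ_pos _, fun n => ?_⟩
  have := ball_finite S ((K + 1) * n)
  have hex : ∀ g : {g : List Bool → List Bool // ∃ w : List L, w.length ≤ n ∧ D.ev w = g},
      ∃ γ : {γ : D.grp // ∃ l : List D.grp, l.length ≤ (K + 1) * n ∧
        (∀ x ∈ l, x ∈ S ∨ x⁻¹ ∈ S) ∧ l.prod = γ},
        ∀ x, ((γ.1 : D.grp) : Equiv.Perm (List Bool)) x = g.1 x := by
    rintro ⟨g, w, hw, rfl⟩
    obtain ⟨l, hl1, hl2, hl3⟩ := hK w
    refine ⟨⟨l.prod, l, ?_, hl2, rfl⟩, hl3⟩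
    calc l.length ≤ K * w.length := hl1
      _ ≤ (K + 1) * n := Nat.mul_le_mul (Nat.le_succ K) hw
  choose F hF using hex
  refine Nat.card_le_card_of_injective F ?_
  intro g g' hgg
  apply Subtype.ext
  funext x
  rw [← hF g x, ← hF g' x, hgg]

lemma ball_le_gam (h : Basics D) (S : Finset D.grp) :
    ∃ K : ℕ, 0 < K ∧ ∀ n, ballSize S n ≤ D.gam (K * n) := by
  obtain ⟨K, hK⟩ := list_to_word D h S
  refine ⟨K + 1, Nat.succ_pos _, fun n => ?_⟩
  have := gam_finite D ((K + 1) * n)
  have hex : ∀ γ : {γ : D.grp // ∃ l : List D.grp, l.length ≤ n ∧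
        (∀ x ∈ l, x ∈ S ∨ x⁻¹ ∈ S) ∧ l.prod = γ},
      ∃ g : {g : List Bool → List Bool // ∃ w : List L, w.length ≤ (K + 1) * n ∧ D.ev w = g},
        ∀ x, g.1 x = ((γ.1 : D.grp) : Equiv.Perm (List Bool)) x := by
    rintro ⟨γ, l, hl1, hl2, rfl⟩
    obtain ⟨w, hw1, hw2⟩ := hK l hl2
    refine ⟨⟨D.ev w, w, ?_, rfl⟩, hw2⟩
    calc w.length ≤ K * l.length := hw1
      _ ≤ (K + 1) * n := Nat.mul_le_mul (Nat.le_succ K) hl1
  choose F hF using hex
  refine Nat.card_le_card_of_injective F ?_
  intro g g' hgg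
  apply Subtype.ext
  apply Subtype.ext
  apply Equiv.ext
  intro x
  rw [← hF g x, ← hF g' x, hgg]

lemma gam_mono : Monotone D.gam := by
  intro m n hmn
  have := gam_finite D n
  refine Nat.card_le_card_of_injective
    (fun g : {g : List Bool → List Bool // ∃ w : List L, w.length ≤ m ∧ D.ev w = g} =>
      (⟨g.1, by obtain ⟨w, hw, hw'⟩ := g.2; exact ⟨w, hw.trans hmn, hw'⟩⟩ :
        {g : List Bool → List Bool // ∃ w : List L, w.length ≤ n ∧ D.ev w = g})) ?_
  intro g g' hgg
  apply Subtype.ext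
  simpa using hgg

lemma ball_mono {G : Type} [Group G] (S : Finset G) : Monotone (ballSize S) := by
  intro m n hmn
  have := ball_finite S n
  refine Nat.card_le_card_of_injective
    (fun g : {g : G // ∃ l : List G, l.length ≤ m ∧ (∀ x ∈ l, x ∈ S ∨ x⁻¹ ∈ S) ∧ l.prod = g} =>
      (⟨g.1, by obtain ⟨w, hw, hw'⟩ := g.2; exact ⟨w, hw.trans hmn, hw'⟩⟩ :
        {g : G // ∃ l : List G, l.length ≤ n ∧ (∀ x ∈ l, x ∈ S ∨ x⁻¹ ∈ S) ∧ l.prod = g})) ?_
  intro g g' hgg
  apply Subtype.ext
  simpa using hgg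

lemma superpoly_of (f g : ℕ → ℕ) (K : ℕ) (hK : 0 < K) (hg : Monotone g)
    (hfg : ∀ n, f n ≤ g (K * n)) (hf : Superpoly f) : Superpoly g := by
  intro d
  obtain ⟨n₀, hn₀⟩ := hf (2 * d)
  refine ⟨max (K * n₀) (4 * K * K), ?_⟩
  intro n hn
  have h1 : K * n₀ ≤ n := le_trans (le_max_left _ _) hn
  have h2 : 4 * K * K ≤ n := le_trans (le_max_right _ _) hn
  have h3 : n₀ ≤ n / K := (Nat.le_div_iff_mul_le hK).2 (by rw [mul_comm]; exact h1)
  have h4 : n ≤ (n / K) ^ 2 := by
    have h5 : n < K * (n / K + 1) := by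
      have := Nat.lt_mul_div_succ n hK
      simpa using this
    have h6 : 4 * K ≤ n / K := (Nat.le_div_iff_mul_le hK).2 h2
    nlinarith
  calc n ^ d ≤ ((n / K) ^ 2) ^ d := Nat.pow_le_pow_left h4 d
    _ = (n / K) ^ (2 * d) := by rw [pow_mul]
    _ ≤ f (n / K) := hn₀ _ h3
    _ ≤ g (K * (n / K)) := hfg _
    _ ≤ g n := hg (Nat.mul_div_le n K)

lemma subexp_of (f g : ℕ → ℕ) (K : ℕ) (hK : 0 < K)
    (hfg : ∀ n, g n ≤ f (K * n))
    (hf : ∀ δ : ℝ, 0 < δ → ∃ C : ℝ, ∀ n : ℕ, (f n : ℝ) ≤ C * Real.exp (δ * n)) : Subexp g := by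
  intro b hb
  have hlog : 0 < Real.log b := Real.log_pos hb
  have hK' : (0 : ℝ) < K := by exact_mod_cast hK
  obtain ⟨C, hC⟩ := hf (Real.log b / (2 * K)) (by positivity)
  -- choose n large so that C ≤ exp (log b / 2 * n)
  have htend : Filter.Tendsto (fun n : ℕ => Real.exp (Real.log b / 2 * n)) Filter.atTop
      Filter.atTop := by
    apply Real.tendsto_exp_atTop.comp
    apply Filter.Tendsto.const_mul_atTop (by positivity)
    exact tendsto_natCast_atTop_atTop
  obtain ⟨n₀, hn₀⟩ := Filter.eventually_atTop.1 (htend.eventually_ge_atTop C)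
  refine ⟨n₀, fun n hn => ?_⟩
  have h1 : (g n : ℝ) ≤ f (K * n) := by exact_mod_cast hfg n
  have h2 := hC (K * n)
  have h3 : Real.log b / (2 * K) * ((K * n : ℕ) : ℝ) = Real.log b / 2 * n := by
    push_cast
    field_simp
  rw [h3] at h2
  have h4 := hn₀ n hn
  have h5 : b ^ n = Real.exp (Real.log b / 2 * n) * Real.exp (Real.log b / 2 * n) := by
    rw [← Real.exp_add]
    have : Real.log b / 2 * n + Real.log b / 2 * n = n * Real.log b := by ring
    rw [this, Real.exp_nat_mul, Real.exp_log (by linarith)]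
  rw [h5]
  calc (g n : ℝ) ≤ f (K * n) := h1
    _ ≤ C * Real.exp (Real.log b / 2 * n) := h2
    _ ≤ Real.exp (Real.log b / 2 * n) * Real.exp (Real.log b / 2 * n) :=
        mul_le_mul_of_nonneg_right h4 (Real.exp_pos _).le

end B10Aux

open B10Aux in
/-- B10. -/
theorem b10 {L : Type} [Fintype L] [DecidableEq L] (D : KS L) (h : Basics D) :
    GroupGrowth D := by
  classical
  intro hsub hsup
  refine ⟨⟨_, closure_gen D h⟩, ?_⟩
  intro S hS
  refine ⟨?_, ?_⟩
  · obtain ⟨K, hK, hKn⟩ := gam_le_ball D h S hS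
    exact superpoly_of _ _ K hK (ball_mono S) hKn hsup
  · obtain ⟨K, hK, hKn⟩ := ball_le_gam D h S
    exact subexp_of _ _ K hK hKn hsub

end R4
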