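import Pool.Agent.Work.MP_e3f5d9_al.Interface

/-!
# B11: the system of a kneading datum
-/

set_option autoImplicit false

open Finset

namespace R4

namespace B11Aux

/-- The sides of the last letters of both words differ. -/
lemma side_ne (v w : List Bool) (h : Valid v w) (i j : Fin (v.length + w.length))
    (hi : i.1 + 1 = v.length + w.length) (hj : j.1 + 1 = v.length) :
    ksSide v w i ≠ ksSide v w j := by
  obtain ⟨hv, hw, hne⟩ := h
  have hvl : 0 < v.length := List.length_pos_iff.2 hv
  have hwl : 0 < w.length := List.length_pos_iff.2 hw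
  unfold ksSide
  rw [List.get_eq_getElem, List.get_eq_getElem]
  rw [List.getLast?_eq_getElem?, List.getLast?_eq_getElem?] at hne
  intro he
  apply hne
  have h1 : (v ++ w)[i.1]'(by rw [List.length_append]; exact i.2) = w[w.length - 1]'(by omega) := by
    rw [List.getElem_append_right (by omega)]
    congr 1
    omega
  have h2 : (v ++ w)[j.1]'(by rw [List.length_append]; exact j.2) = v[v.length - 1]'(by omega) := by
    rw [List.getElem_append_left (by omega)]
    congr 1
    omega
  rw [List.getElem?_eq_getElem (by omega), List.getElem?_eq_getElem (by omega)]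
  rw [← h1, ← h2]
  exact congrArg some he.symm

lemma nxt_val (v w : List Bool) (h : Valid v w) (i : Fin (v.length + w.length)) :
    (ksNxt v w i).1 = if i.1 + 1 < v.length + w.length then i.1 + 1 else v.length := by
  have hwl : 0 < w.length := List.length_pos_iff.2 h.2.1
  unfold ksNxt
  by_cases h1 : i.1 + 1 < v.length + w.length
  · rw [dif_pos h1, if_pos h1]
  · rw [dif_neg h1, if_neg h1, dif_pos (by omega)]

end B11Aux

open B11Aux

theorem b11 : KneadingSystem := by
  intro v w h
  have hvl : 0 < v.length := List.length_pos_iff.2 h.1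
  have hwl : 0 < w.length := List.length_pos_iff.2 h.2.1
  refine ⟨⟨⟨0, by omega⟩, ksNxt v w, ksSide v w, ?_, ?_, ?_⟩, rfl, rfl, rfl⟩
  · intro i hi
    have h1 := nxt_val v w h i
    rw [hi] at h1
    dsimp only at h1
    split_ifs at h1 <;> omega
  · intro i j hij hs
    have h1 := nxt_val v w h i
    have h2 := nxt_val v w h j
    rw [hij, h2] at h1
    have hi2 := i.2
    have hj2 := j.2
    apply Fin.ext
    split_ifs at h1 with h3 h4 h4
    · omega
    · exact absurd hs (side_ne v w h i j (by omega) (by omega))
    · exact absurd hs.symm (side_ne v w h j i (by omega) (by omega))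
    · omega
  · intro j hj
    have hj0 : j.1 ≠ 0 := by
      intro h0
      apply hj
      exact Fin.ext h0
    have hj2 := j.2
    refine ⟨⟨j.1 - 1, by omega⟩, ?_⟩
    apply Fin.ext
    rw [nxt_val v w h]
    dsimp only
    rw [if_pos (by omega)]
    omega

end R4
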