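import Pool.Agent.Work.MP_e3f5d9_al.Interface

/-!
# Block B12: a checker for the hypotheses of the stage 0 theorem

A subset of the letters `0, ..., m - 1` is written as a list of `m` Booleans.
-/

set_option autoImplicit false

open Finset

namespace R4

namespace Chk

/-- A subset of the letters as a list of Booleans. -/
abbrev BS := List Bool

/-- Membership. -/
def mem (A : BS) (i : ℕ) : Bool := A.getD i false

/-- Subset with a given membership function. -/
def mk (m : ℕ) (f : ℕ → Bool) : BS := (List.range m).map f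

lemma mem_mk (m : ℕ) (f : ℕ → Bool) (i : ℕ) (hi : i < m) : mem (mk m f) i = f i := by
  simp [mem, mk, hi]

/-- The finite set of letters described by a list of Booleans. -/
def toF (m : ℕ) (A : BS) : Finset (Fin m) := univ.filter fun i => mem A i.1 = true

lemma mem_toF {m : ℕ} {A : BS} {i : Fin m} : i ∈ toF m A ↔ mem A i.1 = true := by
  simp [toF]

lemma toF_mk {m : ℕ} (f : ℕ → Bool) : toF m (mk m f) = univ.filter fun i => f i.1 = true := by
  ext i
  rw [mem_toF, mem_mk m f i.1 i.2]
  simp

/-- Complement. -/
def compl (m : ℕ) (A : BS) : BS := mk m fun i => !(mem A i)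

lemma toF_compl {m : ℕ} (A : BS) : toF m (compl m A) = (toF m A)ᶜ := by
  ext i
  rw [compl, toF_mk, mem_compl, mem_toF]
  simp

/-- The successor of a letter of the datum `(v, w)`. -/
def nx (k m : ℕ) (i : ℕ) : ℕ := if i + 1 < m then i + 1 else k

/-- The cut of the letters on the side `s` whose image lies in `A`. -/
def lpB (k m : ℕ) (vw : List Bool) (s : Bool) (A : BS) : BS :=
  mk m fun i => (vw.getD i false == s) && mem A (nx k m i)

/-- Normalisation. -/
def nmB (m : ℕ) (A : BS) : BS := if mem A 0 then compl m A else A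

/-- Disjointness. -/
def disj (m : ℕ) (A B : BS) : Bool := (List.range m).all fun i => !(mem A i && mem B i)

/-- Inclusion. -/
def subB (m : ℕ) (A B : BS) : Bool := (List.range m).all fun i => !(mem A i) || mem B i

/-- Singletons. -/
def single (m : ℕ) (i : ℕ) : BS := mk m fun j => j == i

section

variable {k m : ℕ} {vw : List Bool} {D : KS (Fin m)}

/-- The system `D` is the system with the sides `vw` and the map `nx k m`. -/
structure Std (k m : ℕ) (vw : List Bool) (D : KS (Fin m)) : Prop where
  o : D.o.1 = 0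
  nxt : ∀ i, (D.nxt i).1 = nx k m i.1
  side : ∀ i, D.side i = vw.getD i.1 false

lemma toF_lpB (h : Std k m vw D) (s : Bool) (A : BS) :
    toF m (lpB k m vw s A) = D.lp s (toF m A) := by
  ext i
  rw [lpB, toF_mk, KS.lp, mem_filter, mem_filter, mem_toF, h.nxt, h.side]
  simp

lemma toF_nmB (h : Std k m vw D) (A : BS) : toF m (nmB m A) = D.nm (toF m A) := by
  unfold nmB KS.nm
  have : D.o ∈ toF m A ↔ mem A 0 = true := by rw [mem_toF, h.o]
  by_cases h0 : mem A 0 = true
  · rw [if_pos h0, if_pos (this.2 h0), toF_compl]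
  · rw [if_neg h0, if_neg (fun hh => h0 (this.1 hh))]

lemma toF_single_o (h : Std k m vw D) : toF m (single m 0) = {D.o} := by
  ext i
  rw [single, toF_mk, mem_filter, mem_singleton]
  constructor
  · intro hh
    apply Fin.ext
    rw [h.o]
    simpa using hh.2
  · rintro rfl
    simp [h.o]

lemma toF_single (i : Fin m) : toF m (single m i.1) = {i} := by
  ext j
  rw [single, toF_mk, mem_filter, mem_singleton]
  constructor
  · intro hh
    apply Fin.ext
    simpa using hh.2
  · rintro rfl
    simp

lemma disj_toF {A B : BS} (h : disj m A B = true) : Disjoint (toF m A) (toF m B) := by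
  rw [Finset.disjoint_left]
  intro i hi hj
  rw [mem_toF] at hi hj
  have := List.all_eq_true.1 h i.1 (List.mem_range.2 i.2)
  simp [hi, hj] at this

lemma sub_toF {A B : BS} (h : subB m A B = true) : toF m A ⊆ toF m B := by
  intro i hi
  rw [mem_toF] at hi ⊢
  have := List.all_eq_true.1 h i.1 (List.mem_range.2 i.2)
  simpa [hi] using this

/-- The class of cuts of a list. -/
def toE (m : ℕ) (E : List BS) : Finset (Finset (Fin m)) := (E.map (toF m)).toFinset

lemma mem_toE {E : List BS} {A : BS} (h : A ∈ E) : toF m A ∈ toE m E := by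
  simp only [toE, List.mem_toFinset, List.mem_map]
  exact ⟨A, h, rfl⟩

lemma mem_toE_iff {E : List BS} {A : Finset (Fin m)} :
    A ∈ toE m E ↔ ∃ B ∈ E, toF m B = A := by
  simp [toE]

/-! ### Mixing -/

/-- One step of the graph of cuts. -/
def stepE (k m : ℕ) (vw : List Bool) (E : List BS) (S : List BS) : List BS :=
  E.filter fun B => S.any fun A =>
    (nmB m (lpB k m vw false A) == B) || (nmB m (lpB k m vw true A) == B)

/-- Iterated steps. -/
def stepsE (k m : ℕ) (vw : List Bool) (E : List BS) : ℕ → List BS → List BS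
  | 0, S => S
  | n + 1, S => stepsE k m vw E n (stepE k m vw E S)

lemma stepE_sound (h : Std k m vw D) {E S : List BS} (hS : ∀ A ∈ S, A ∈ E) {B : BS}
    (hB : B ∈ stepE k m vw E S) : ∃ A ∈ S, D.Arrow (toE m E) (toF m A) (toF m B) := by
  unfold stepE at hB
  rw [List.mem_filter, List.any_eq_true] at hB
  obtain ⟨hBE, A, hA, hAB⟩ := hB
  refine ⟨A, hA, mem_toE (hS A hA), mem_toE hBE, ?_⟩
  rw [Bool.or_eq_true, beq_iff_eq, beq_iff_eq] at hAB
  rcases hAB with hAB | hAB
  · exact ⟨false, by rw [← toF_lpB h, ← toF_nmB h, hAB]⟩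
  · exact ⟨true, by rw [← toF_lpB h, ← toF_nmB h, hAB]⟩

lemma stepsE_sound (h : Std k m vw D) {E : List BS} : ∀ (n : ℕ) (S : List BS),
    (∀ A ∈ S, A ∈ E) → ∀ B ∈ stepsE k m vw E n S,
      ∃ A ∈ S, D.Path (toE m E) n (toF m A) (toF m B) := by
  intro n
  induction n with
  | zero =>
    intro S hS B hB
    exact ⟨B, hB, mem_toE (hS B hB), rfl⟩
  | succ n ih =>
    intro S hS B hB
    have hS' : ∀ A ∈ stepE k m vw E S, A ∈ E := fun A hA => (List.mem_filter.1 hA).1
    obtain ⟨C, hC, hP⟩ := ih _ hS' B hB
    obtain ⟨A, hA, hAr⟩ := stepE_sound h hS hC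
    exact ⟨A, hA, toF m C, hAr, hP⟩

/-- The mixing test. -/
def mixB (k m : ℕ) (vw : List Bool) (E : List BS) (n : ℕ) : Bool :=
  (0 < n) && (E.all fun A => !(mem A 0)) && (E.contains (compl m (single m 0))) &&
    (E.all fun A => E.all fun B => (stepsE k m vw E n [A]).contains B)

lemma mix_sound (h : Std k m vw D) {E : List BS} {n : ℕ} (hm : mixB k m vw E n = true) :
    D.Mixing (toE m E) := by
  unfold mixB at hm
  simp only [Bool.and_eq_true, decide_eq_true_eq, List.all_eq_true, List.contains_iff_mem] at hm
  obtain ⟨⟨⟨hn, h0⟩, hb⟩, hmix⟩ := hm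
  refine ⟨?_, ?_, n, hn, ?_⟩
  · intro A hA hoA
    obtain ⟨B, hB, rfl⟩ := mem_toE_iff.1 hA
    rw [mem_toF, h.o] at hoA
    have := h0 B hB
    rw [hoA] at this
    simp at this
  · have := mem_toE (m := m) hb
    rwa [toF_compl, toF_single_o h] at this
  · intro A hA B hB
    obtain ⟨A', hA', rfl⟩ := mem_toE_iff.1 hA
    obtain ⟨B', hB', rfl⟩ := mem_toE_iff.1 hB
    obtain ⟨C, hC, hP⟩ := stepsE_sound h (E := E) n [A']
      (by intro X hX; rw [List.mem_singleton] at hX; rw [hX]; exact hA') B' (hmix A' hA' B' hB')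
    rw [List.mem_singleton] at hC
    rw [hC] at hP
    exact hP

/-! ### The closure -/

/-- Steps of a derivation. -/
inductive Step
  | triv (X : BS)
  | symm (X Y : BS)
  | image (s : Bool) (Y Y' : BS)
  | lift (s : Bool) (Y Y' : BS)
  | glue (X Y Z : BS)
  | typeB (s : Bool) (Y Y' : BS)

/-- Side of a cut. -/
def sideB (m : ℕ) (E : List BS) (X : BS) : Bool := E.contains (nmB m X)

lemma side_sound (h : Std k m vw D) {E : List BS} {X : BS} (hX : sideB m E X = true) :
    D.Side (toE m E) (toF m X) := by
  unfold sideB at hX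
  rw [List.contains_iff_mem] at hX
  have := mem_toE (m := m) hX
  rwa [toF_nmB h] at this

/-- Check one step of a derivation. -/
def okStep (k m : ℕ) (vw : List Bool) (E : List BS) (K : List (BS × BS)) : Step → Bool
  | .triv X => sideB m E X
  | .symm X Y => K.contains (X, Y)
  | .image s Y Y' => mem Y 0 && disj m Y Y' &&
      K.contains (compl m (lpB k m vw s (compl m Y)), lpB k m vw s Y')
  | .lift s Y Y' => mem Y 0 && disj m Y Y' && sideB m E Y && sideB m E Y' &&
      sideB m E (compl m (lpB k m vw s (compl m Y))) && sideB m E (lpB k m vw s Y') &&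
      K.contains (Y, Y')
  | .glue X Y Z => sideB m E Y && subB m X (compl m Y) && subB m Z Y && K.contains (X, Y) &&
      K.contains (compl m Y, Z)
  | .typeB s Y Y' => !(mem Y 0) && !(mem Y' 0) && disj m Y Y' && sideB m E Y && sideB m E Y' &&
      sideB m E (lpB k m vw s Y) && sideB m E (lpB k m vw s Y') &&
      K.contains (single m 0, Y) && K.contains (single m 0, Y') && K.contains (Y, Y')

/-- The conclusion of a step. -/
def conc (k m : ℕ) (vw : List Bool) : Step → BS × BS
  | .triv X => (X, compl m X)
  | .symm X Y => (Y, X)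
  | .image _ Y Y' => (Y, Y')
  | .lift s Y Y' => (compl m (lpB k m vw s (compl m Y)), lpB k m vw s Y')
  | .glue X _ Z => (X, Z)
  | .typeB s Y Y' => (lpB k m vw s Y, lpB k m vw s Y')

lemma step_sound (h : Std k m vw D) {E : List BS} {K : List (BS × BS)}
    (hK : ∀ p ∈ K, D.Mono (toE m E) (toF m p.1) (toF m p.2)) (t : Step)
    (ht : okStep k m vw E K t = true) :
    D.Mono (toE m E) (toF m (conc k m vw t).1) (toF m (conc k m vw t).2) := by
  have hmem : ∀ {A : BS}, mem A 0 = true → D.o ∈ toF m A := by
    intro A hA; rw [mem_toF, h.o]; exact hA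
  have hnmem : ∀ {A : BS}, mem A 0 = false → D.o ∉ toF m A := by
    intro A hA; rw [mem_toF, h.o, hA]; simp
  cases t with
  | triv X =>
    have := side_sound h (X := X) ht
    simp only [conc, toF_compl]
    exact KS.Mono.triv _ this
  | symm X Y =>
    simp only [okStep, List.contains_iff_mem] at ht
    exact KS.Mono.symm _ _ (hK _ ht)
  | image s Y Y' =>
    simp only [okStep, Bool.and_eq_true, List.contains_iff_mem] at ht
    obtain ⟨⟨h1, h2⟩, h3⟩ := ht
    have h4 := hK _ h3
    simp only [toF_compl, toF_lpB h] at h4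
    exact KS.Mono.image s _ _ (hmem h1) (disj_toF h2) h4
  | lift s Y Y' =>
    simp only [okStep, Bool.and_eq_true, List.contains_iff_mem] at ht
    obtain ⟨⟨⟨⟨⟨⟨h1, h2⟩, h3⟩, h4⟩, h5⟩, h6⟩, h7⟩ := ht
    have g5 := side_sound h h5
    have g6 := side_sound h h6
    simp only [toF_compl, toF_lpB h] at g5 g6
    simp only [conc, toF_compl, toF_lpB h]
    exact KS.Mono.lift s _ _ (hmem h1) (disj_toF h2) (side_sound h h3) (side_sound h h4) g5 g6
      (hK _ h7)
  | glue X Y Z =>
    simp only [okStep, Bool.and_eq_true, List.contains_iff_mem] at ht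
    obtain ⟨⟨⟨⟨h1, h2⟩, h3⟩, h4⟩, h5⟩ := ht
    have g2 := sub_toF (m := m) h2
    have g5 := hK _ h5
    simp only [toF_compl] at g2 g5
    exact KS.Mono.glue _ _ _ (side_sound h h1) g2 (sub_toF h3) (hK _ h4) g5
  | typeB s Y Y' =>
    simp only [okStep, Bool.and_eq_true, List.contains_iff_mem, Bool.not_eq_true'] at ht
    obtain ⟨⟨⟨⟨⟨⟨⟨⟨⟨h1, h2⟩, h3⟩, h4⟩, h5⟩, h6⟩, h7⟩, h8⟩, h9⟩, h10⟩ := ht
    have g6 := side_sound h h6
    have g7 := side_sound h h7
    have g8 := hK _ h8
    have g9 := hK _ h9
    simp only [toF_lpB h] at g6 g7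
    simp only [toF_single_o h] at g8 g9
    simp only [conc, toF_lpB h]
    exact KS.Mono.typeB s _ _ (hnmem h1) (hnmem h2) (disj_toF h3) (side_sound h h4)
      (side_sound h h5) g6 g7 g8 g9 (hK _ h10)

/-- Run a derivation. -/
def run (k m : ℕ) (vw : List Bool) (E : List BS) : List (BS × BS) → List Step →
    Option (List (BS × BS))
  | K, [] => some K
  | K, t :: ts => if okStep k m vw E K t then run k m vw E (conc k m vw t :: K) ts else none

lemma run_sound (h : Std k m vw D) {E : List BS} : ∀ (ts : List Step) (K K' : List (BS × BS)),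
    (∀ p ∈ K, D.Mono (toE m E) (toF m p.1) (toF m p.2)) → run k m vw E K ts = some K' →
    ∀ p ∈ K', D.Mono (toE m E) (toF m p.1) (toF m p.2) := by
  intro ts
  induction ts with
  | nil =>
    intro K K' hK hr
    simp only [run, Option.some.injEq] at hr
    subst hr
    exact hK
  | cons t ts ih =>
    intro K K' hK hr
    unfold run at hr
    split_ifs at hr with ht
    refine ih _ K' ?_ hr
    intro p hp
    rcases List.mem_cons.1 hp with rfl | hp
    · exact step_sound h hK t ht
    · exact hK p hp

/-- The test for the closure: all pairs (o, i) have been derived, all letters are leaves. -/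
def rigB (k m : ℕ) (vw : List Bool) (E : List BS) (n : ℕ) (ts : List Step) : Bool :=
  mixB k m vw E n && ((List.range m).all fun i => i == 0 || E.contains (single m i)) &&
    (match run k m vw E [] ts with
      | none => false
      | some K => (List.range m).all fun i => i == 0 || K.contains (single m 0, single m i))

lemma rig_sound (h : Std k m vw D) {E : List BS} {n : ℕ} {ts : List Step}
    (hr : rigB k m vw E n ts = true) : D.Rigid (toE m E) := by
  unfold rigB at hr
  simp only [Bool.and_eq_true] at hr
  obtain ⟨⟨h1, h2⟩, h3⟩ := hr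
  have hne : ∀ i : Fin m, i ≠ D.o → (i.1 == 0) = false := by
    intro i hi
    rw [beq_eq_false_iff_ne]
    intro h0
    exact hi (Fin.ext (by rw [h.o, h0]))
  refine { toMixing := mix_sound h h1, leaf := ?_, mono := ?_ }
  · intro i hi
    have := List.all_eq_true.1 h2 i.1 (List.mem_range.2 i.2)
    rw [hne i hi, Bool.false_or, List.contains_iff_mem] at this
    have := mem_toE (m := m) this
    rwa [toF_single] at this
  · intro i hi
    split at h3
    · simp at h3
    · rename_i K hK
      have := List.all_eq_true.1 h3 i.1 (List.mem_range.2 i.2)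
      rw [hne i hi, Bool.false_or, List.contains_iff_mem] at this
      have := run_sound h ts [] K (by simp) hK _ this
      simpa only [toF_single_o h, toF_single] using this

/-! ### Pairs of finite order -/

/-- One round of the closure for pairs of finite order. -/
def foStep (k m : ℕ) (vw : List Bool) (K : List (ℕ × ℕ)) (i j : ℕ) : Bool :=
  (i == j) || K.contains (j, i) ||
    ((i == 0) && !(j == 0) && ((List.range m).all fun a => (List.range m).all fun b =>
      !(nx k m a == j) || !(nx k m b == j) || (a == b))) ||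
    (!(i == 0) && !(j == 0) && ((List.range m).all fun a => (List.range m).all fun b =>
      !(nx k m a == i) || !(nx k m b == j) || !(vw.getD a false == vw.getD b false) ||
        K.contains (a, b)))

/-- All pairs found in the rounds up to `n`. -/
def foK (k m : ℕ) (vw : List Bool) : ℕ → List (ℕ × ℕ)
  | 0 => []
  | n + 1 => ((List.range m) ×ˢ (List.range m)).filter fun p => foStep k m vw (foK k m vw n) p.1 p.2

lemma fo_sound (h : Std k m vw D) : ∀ (n : ℕ) (i j : Fin m), (i.1, j.1) ∈ foK k m vw n →
    D.FO i j := by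
  intro n
  induction n with
  | zero => intro i j hij; simp [foK] at hij
  | succ n ih =>
    intro i j hij
    unfold foK at hij
    rw [List.mem_filter] at hij
    have hs := hij.2
    unfold foStep at hs
    simp only [Bool.or_eq_true, beq_iff_eq, Bool.and_eq_true, List.contains_iff_mem,
      List.all_eq_true, List.mem_range, Bool.not_eq_true', beq_eq_false_iff_ne, ne_eq] at hs
    have ho : ∀ {i : Fin m}, i.1 = 0 → i = D.o := fun hi => Fin.ext (by rw [h.o, hi])
    have ho' : ∀ {i : Fin m}, ¬ i.1 = 0 → i ≠ D.o := by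
      intro i hi h'; rw [h'] at hi; exact hi h.o
    rcases hs with ((hs | hs) | ⟨⟨hs1, hs2⟩, hs3⟩) | ⟨⟨hs1, hs2⟩, hs3⟩
    · have : i = j := Fin.ext hs
      rw [this]; exact KS.FO.refl j
    · exact KS.FO.symm _ _ (ih j i hs)
    · rw [ho hs1]
      refine KS.FO.base j (ho' hs2) ?_
      intro a b ha hb
      have ha' : nx k m a.1 = j.1 := by rw [← h.nxt, ha]
      have hb' : nx k m b.1 = j.1 := by rw [← h.nxt, hb]
      rcases hs3 a.1 a.2 b.1 b.2 with (h1 | h1) | h1
      · exact absurd ha' h1
      · exact absurd hb' h1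
      · exact Fin.ext h1
    · refine KS.FO.step i j (ho' hs1) (ho' hs2) ?_
      intro a b ha hb hab
      have ha' : nx k m a.1 = i.1 := by rw [← h.nxt, ha]
      have hb' : nx k m b.1 = j.1 := by rw [← h.nxt, hb]
      have hab' : vw.getD a.1 false = vw.getD b.1 false := by rw [← h.side, ← h.side, hab]
      rcases hs3 a.1 a.2 b.1 b.2 with ((h1 | h1) | h1) | h1
      · exact absurd ha' h1
      · exact absurd hb' h1
      · exact absurd hab' h1
      · exact ih a b h1

/-- The test for the colliding letters. -/
def colB (k m : ℕ) (vw : List Bool) (n : ℕ) : Bool :=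
  (List.range m).all fun a => (List.range m).all fun b =>
    (a == b) || !(nx k m a == nx k m b) || (foK k m vw n).contains (a, b)

lemma col_sound (h : Std k m vw D) {n : ℕ} (hc : colB k m vw n = true) :
    ∀ p q, p ≠ q → D.nxt p = D.nxt q → D.FO p q := by
  intro p q hpq hn
  unfold colB at hc
  have := List.all_eq_true.1 (List.all_eq_true.1 hc p.1 (List.mem_range.2 p.2)) q.1
    (List.mem_range.2 q.2)
  simp only [Bool.or_eq_true, beq_iff_eq, Bool.not_eq_true', beq_eq_false_iff_ne, ne_eq,
    List.contains_iff_mem] at this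
  rcases this with (h1 | h1) | h1
  · exact absurd (Fin.ext h1) hpq
  · exact absurd (by rw [← h.nxt, ← h.nxt, hn]) h1
  · exact fo_sound h n p q h1

end

/-- The full test for the kneading datum `(v, w)`. -/
def test (v w : List Bool) (E : List BS) (n : ℕ) (ts : List Step) (r : ℕ) : Bool :=
  rigB v.length (v.length + w.length) (v ++ w) E n ts &&
    colB v.length (v.length + w.length) (v ++ w) r

lemma std_of {v w : List Bool} {D : KS (Fin (v.length + w.length))} (hv : Valid v w)
    (h0 : D.o.1 = 0) (hn : D.nxt = ksNxt v w) (hs : D.side = ksSide v w) :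
    Std v.length (v.length + w.length) (v ++ w) D := by
  have hw : 0 < w.length := List.length_pos_iff.2 hv.2.1
  refine ⟨h0, ?_, ?_⟩
  · intro i
    rw [hn]
    unfold ksNxt nx
    by_cases h : i.1 + 1 < v.length + w.length
    · simp [h]
    · have h' : v.length < v.length + w.length := by omega
      simp [h, hw]
  · intro i
    rw [hs]
    unfold ksSide
    have hi : i.1 < (v ++ w).length := by rw [List.length_append]; exact i.2
    rw [List.getD_eq_getElem _ _ hi]
    rfl

/-- The checker is sound. -/
theorem test_sound {v w : List Bool} (hv : Valid v w) {E : List BS} {n : ℕ} {ts : List Step}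
    {r : ℕ} (ht : test v w E n ts r = true) {D : KS (Fin (v.length + w.length))}
    (h0 : D.o.1 = 0) (hn : D.nxt = ksNxt v w) (hs : D.side = ksSide v w) :
    (∃ E, D.Rigid E) ∧ ∀ p q, p ≠ q → D.nxt p = D.nxt q → D.FO p q := by
  unfold test at ht
  rw [Bool.and_eq_true] at ht
  have h := std_of hv h0 hn hs
  exact ⟨⟨_, rig_sound h ht.1⟩, col_sound h ht.2⟩

end Chk

end R4
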