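import Pool.Agent.Work.MP_e3f5d9_al.B12Fam

/-!
# Block B12, part 3: the families as kneading data, and concrete examples
-/

set_option autoImplicit false

open Finset

namespace R4

/-- The hypotheses of the stage 0 theorem for the datum `(v, w)`. -/
def Stage0 (v w : List Bool) : Prop :=
  Valid v w ∧ ∀ D : KS (Fin (v.length + w.length)), D.o.1 = 0 → D.nxt = ksNxt v w →
    D.side = ksSide v w →
    (∃ E, D.Rigid E) ∧ ∀ p q, p ≠ q → D.nxt p = D.nxt q → D.FO p q

namespace Ex

open Fam

/-- The second word of the first family: `0^a 1 0^b`. -/
def w1 (a b : ℕ) : List Bool := List.replicate a false ++ true :: List.replicate b false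

/-- The first word of the second family: `1 0^k 1`. -/
def v2 (k : ℕ) : List Bool := true :: (List.replicate k false ++ [true])

lemma stage0_of_test {v w : List Bool} (hv : Valid v w) {E : List Chk.BS} {n : ℕ}
    {ts : List Chk.Step} {r : ℕ} (ht : Chk.test v w E n ts r = true) : Stage0 v w :=
  ⟨hv, fun _ h0 hn hs => Chk.test_sound hv ht h0 hn hs⟩

lemma length_w1 (a b : ℕ) : (w1 a b).length = a + b + 1 := by
  simp [w1]; omega

lemma length_v2 (k : ℕ) : (v2 k).length = k + 2 := by
  simp [v2]

lemma getD_w1 (a b i : ℕ) : ([true] ++ w1 a b).getD i false = decide (i = 0 ∨ i = a + 1) := by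
  rcases i with _ | i
  · simp
  · have e : ([true] ++ w1 a b).getD (i + 1) false = (w1 a b).getD i false := rfl
    rw [e]
    unfold w1
    by_cases h1 : i < a
    · rw [List.getD_append _ _ _ _ (by simpa using h1)]
      have h2 : ¬ (i + 1 = 0 ∨ i + 1 = a + 1) := by omega
      rw [decide_eq_false h2]
      simp [h1]
    · rw [List.getD_append_right _ _ _ _ (by simpa using h1), List.length_replicate]
      rcases h3 : i - a with _ | j
      · have h2 : (i + 1 = 0 ∨ i + 1 = a + 1) := by omega
        rw [decide_eq_true h2]
        rfl
      · have h2 : ¬ (i + 1 = 0 ∨ i + 1 = a + 1) := by omega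
        rw [decide_eq_false h2]
        show (List.replicate b false).getD j false = false
        by_cases h4 : j < b
        · simp [h4]
        · rw [List.getD_eq_default]
          simpa using h4

lemma getD_v2 (k i : ℕ) : (v2 k ++ [false]).getD i false = decide (i = 0 ∨ i = k + 1) := by
  have e : v2 k ++ [false] = [true] ++ w1 k 1 := by
    simp [v2, w1]
  rw [e, getD_w1]

lemma valid_one (a b : ℕ) (hb : 1 ≤ b) : Valid [true] (w1 a b) := by
  refine ⟨by simp, by simp [w1], ?_⟩
  obtain ⟨c, rfl⟩ : ∃ c, b = c + 1 := ⟨b - 1, by omega⟩
  have : w1 a (c + 1) = (List.replicate a false ++ true :: List.replicate c false) ++ [false] := by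
    simp [w1, List.replicate_succ']
  rw [this, List.getLast?_concat]
  simp

lemma valid_two (k : ℕ) : Valid (v2 k) [false] := by
  refine ⟨by simp [v2], by simp, ?_⟩
  have : v2 k = (true :: List.replicate k false) ++ [true] := by simp [v2]
  rw [this, List.getLast?_concat]
  simp

/-- The first family satisfies the hypotheses. -/
theorem stage0_one (a b : ℕ) (hb : 1 ≤ b) : Stage0 [true] (w1 a b) := by
  by_cases hm : 4 ≤ a + b + 2
  · refine ⟨valid_one a b hb, fun D h0 hn hs => ?_⟩
    have hstd := Chk.std_of (valid_one a b hb) h0 hn hs
    have hlen : ([true] : List Bool).length + (w1 a b).length = a + b + 2 := by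
      rw [length_w1]; simp; omega
    have hS : Sys (([true] : List Bool).length + (w1 a b).length) (a + 1) 1 D := by
      refine ⟨hstd.o, ?_, ?_⟩
      · intro i
        rw [hstd.nxt]
        rfl
      · intro i
        rw [hstd.side, getD_w1]
    exact ⟨⟨_, rigid_one hS (by omega) (by omega) (by omega)⟩, fo_one hS (by omega) (by omega)⟩
  · have ha : a = 0 := by omega
    have hb' : b = 1 := by omega
    subst ha; subst hb'
    exact stage0_of_test (v := [true]) (w := [true, false]) (valid_one 0 1 le_rfl)
      (E := [[false, true, false], [false, false, true], [false, true, true]]) (n := 5)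
      (ts := [.triv [true, true, false], .image false [true, false, false] [false, true, false],
        .lift true [true, false, false] [false, true, false],
        .symm [false, false, true] [true, false, false]]) (r := 2) (by decide)

/-- The second family satisfies the hypotheses. -/
theorem stage0_two (k : ℕ) : Stage0 (v2 k) [false] := by
  refine ⟨valid_two k, fun D h0 hn hs => ?_⟩
  have hstd := Chk.std_of (valid_two k) h0 hn hs
  have hlen : (v2 k).length + ([false] : List Bool).length = k + 3 := by
    rw [length_v2]; simp
  have hS : Sys ((v2 k).length + ([false] : List Bool).length) (k + 1)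
      ((v2 k).length + ([false] : List Bool).length - 1) D := by
    refine ⟨hstd.o, ?_, ?_⟩
    · intro i
      rw [hstd.nxt]
      unfold Chk.nx
      have e : (v2 k).length + ([false] : List Bool).length - 1 = (v2 k).length := by simp
      rw [e]
    · intro i
      rw [hstd.side, getD_v2]
  exact ⟨⟨_, rigid_two hS (by omega) (by omega)⟩, fo_two hS (by omega) (by omega)⟩

end Ex

end R4
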