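import Pool.Agent.Work.MP_e3f5d9_al.B12

/-!
# Block B12, part 2: infinite families

The data `(1, 0^a 1 0^b)` with `b ≥ 1` and `(1 0^k 1, 0)`.  The cuts form a chain
`C 1 ⊂ C 2 ⊂ ...` together with the singletons.
-/

set_option autoImplicit false

open Finset

namespace R4

namespace Fam

/-! ### A criterion for mixing -/

section mixing

variable {L : Type} [Fintype L] [DecidableEq L] (D : KS L)

lemma path_mem {E : Finset (Finset L)} : ∀ (n : ℕ) {A B : Finset L}, D.Path E n A B → B ∈ E := by
  intro n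
  induction n with
  | zero => rintro A B ⟨h1, rfl⟩; exact h1
  | succ n ih => rintro A B ⟨C, -, h⟩; exact ih h

lemma path_mem' {E : Finset (Finset L)} : ∀ (n : ℕ) {A B : Finset L}, D.Path E n A B → A ∈ E := by
  intro n
  cases n with
  | zero => rintro A B ⟨h1, rfl⟩; exact h1
  | succ n => rintro A B ⟨C, h, -⟩; exact h.1

lemma path_trans {E : Finset (Finset L)} : ∀ (m n : ℕ) {A B C : Finset L},
    D.Path E m A B → D.Path E n B C → D.Path E (m + n) A C := by
  intro m
  induction m with
  | zero => rintro n A B C ⟨-, rfl⟩ h; rwa [Nat.zero_add]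
  | succ m ih =>
    rintro n A B C ⟨X, h1, h2⟩ h
    rw [Nat.succ_add]
    exact ⟨X, h1, ih n h2 h⟩

lemma path_one {E : Finset (Finset L)} {A B : Finset L} (h : D.Arrow E A B) : D.Path E 1 A B :=
  ⟨B, h, h.2.1, rfl⟩

lemma path_snoc {E : Finset (Finset L)} {n : ℕ} {A B C : Finset L} (h : D.Path E n A B)
    (h' : D.Arrow E B C) : D.Path E (n + 1) A C :=
  path_trans D n 1 h (path_one D h')

/-- Mixing from paths to and from one cut with closed paths of all large lengths. -/
lemma mix_of {E : Finset (Finset L)} {V : Finset L}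
    (h1 : ∀ A ∈ E, ∃ n, D.Path E n A V) (h2 : ∀ B ∈ E, ∃ n, D.Path E n V B)
    (h3 : ∃ N, ∀ n, N ≤ n → D.Path E n V V) :
    ∃ n, 0 < n ∧ ∀ A ∈ E, ∀ B ∈ E, D.Path E n A B := by
  classical
  choose! f hf using h1
  choose! g hg using h2
  obtain ⟨N, hN⟩ := h3
  refine ⟨E.sup f + E.sup g + N + 1, by omega, ?_⟩
  intro A hA B hB
  have a1 : f A ≤ E.sup f := Finset.le_sup hA
  have a2 : g B ≤ E.sup g := Finset.le_sup hB
  have h := path_trans D _ _ (path_trans D _ _ (hf A hA)
    (hN (E.sup f + E.sup g + N + 1 - f A - g B) (by omega))) (hg B hB)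
  have e : f A + (E.sup f + E.sup g + N + 1 - f A - g B) + g B = E.sup f + E.sup g + N + 1 := by
    omega
  rwa [e] at h

/-- Closed paths of two consecutive lengths give closed paths of all large lengths. -/
lemma closed_of_two {E : Finset (Finset L)} {V : Finset L} {x : ℕ} (hx : 0 < x)
    (h1 : D.Path E x V V) (h2 : D.Path E (x + 1) V V) :
    ∃ N, ∀ n, N ≤ n → D.Path E n V V := by
  have hV : V ∈ E := path_mem D _ h1
  have m1 : ∀ k, D.Path E (k * x) V V := by
    intro k
    induction k with
    | zero => rw [Nat.zero_mul]; exact ⟨hV, rfl⟩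
    | succ k ih => rw [Nat.succ_mul]; exact path_trans D _ _ ih h1
  have m2 : ∀ k, D.Path E (k * (x + 1)) V V := by
    intro k
    induction k with
    | zero => rw [Nat.zero_mul]; exact ⟨hV, rfl⟩
    | succ k ih => rw [Nat.succ_mul]; exact path_trans D _ _ ih h2
  refine ⟨x * x, fun n hn => ?_⟩
  have hq : x ≤ n / x := (Nat.le_div_iff_mul_le hx).2 hn
  have hr : n % x < x := Nat.mod_lt _ hx
  have h := path_trans D _ _ (m1 (n / x - n % x)) (m2 (n % x))
  have e : (n / x - n % x) * x + n % x * (x + 1) = n := by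
    have e1 : n / x * x + n % x = n := by
      have := Nat.div_add_mod n x
      rw [Nat.mul_comm] at this
      exact this
    obtain ⟨d, hd⟩ : ∃ d, n / x = n % x + d := ⟨n / x - n % x, by omega⟩
    rw [hd] at e1 ⊢
    rw [Nat.add_sub_cancel_left]
    nlinarith
  rwa [e] at h

end mixing

/-! ### The common set-up -/

/-- The letters are `0, ..., m - 1`, the letters on the side `true` are `0` and `p`, the map is
`i ↦ i + 1` and `m - 1 ↦ e`. -/
structure Sys (m p e : ℕ) (D : KS (Fin m)) : Prop where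
  o : D.o.1 = 0
  nxt : ∀ i : Fin m, (D.nxt i).1 = if i.1 + 1 < m then i.1 + 1 else e
  side : ∀ i : Fin m, D.side i = decide (i.1 = 0 ∨ i.1 = p)

section

variable {m : ℕ} (p : ℕ)

/-- The chain of cuts. -/
def C (m p t : ℕ) : Finset (Fin m) :=
  univ.filter fun i => i.1 ≠ 0 ∧ (if p < i.1 then i.1 - p else i.1 + (m - 1 - p)) ≤ t

lemma mem_C {m p t : ℕ} {i : Fin m} : i ∈ C m p t ↔
    i.1 ≠ 0 ∧ (if p < i.1 then i.1 - p else i.1 + (m - 1 - p)) ≤ t := by
  simp [C]

/-- The singleton of the letter `i`. -/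
def T (m i : ℕ) : Finset (Fin m) := univ.filter fun j => j.1 = i

lemma mem_T {m i : ℕ} {j : Fin m} : j ∈ T m i ↔ j.1 = i := by simp [T]

lemma T_eq {m : ℕ} (i : Fin m) : T m i.1 = {i} := by
  ext j
  rw [mem_T, mem_singleton]
  exact ⟨fun h => Fin.ext h, fun h => by rw [h]⟩

/-- The class of cuts. -/
def EE (m p : ℕ) : Finset (Finset (Fin m)) :=
  ((range (m - 1)).image fun t => C m p (t + 1)) ∪ ((range (m - 1)).image fun i => T m (i + 1))

lemma C_mem {m p t : ℕ} (h1 : 1 ≤ t) (h2 : t ≤ m - 1) : C m p t ∈ EE m p := by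
  unfold EE
  rw [mem_union, mem_image]
  left
  exact ⟨t - 1, by rw [mem_range]; omega, by rw [Nat.sub_add_cancel h1]⟩

lemma T_mem {m p i : ℕ} (h1 : 1 ≤ i) (h2 : i ≤ m - 1) : T m i ∈ EE m p := by
  unfold EE
  rw [mem_union, mem_image, mem_image]
  right
  exact ⟨i - 1, by rw [mem_range]; omega, by rw [Nat.sub_add_cancel h1]⟩

lemma mem_EE {m p : ℕ} {A : Finset (Fin m)} (h : A ∈ EE m p) :
    (∃ t, 1 ≤ t ∧ t ≤ m - 1 ∧ A = C m p t) ∨ (∃ i, 1 ≤ i ∧ i ≤ m - 1 ∧ A = T m i) := by
  unfold EE at h
  rw [mem_union, mem_image, mem_image] at h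
  rcases h with ⟨t, ht, rfl⟩ | ⟨t, ht, rfl⟩
  · rw [mem_range] at ht
    exact Or.inl ⟨t + 1, by omega, by omega, rfl⟩
  · rw [mem_range] at ht
    exact Or.inr ⟨t + 1, by omega, by omega, rfl⟩

variable {p e : ℕ} {D : KS (Fin m)}

lemma o_not_C (h : Sys m p e D) (t : ℕ) : D.o ∉ C m p t := by
  rw [mem_C, h.o]; simp

lemma o_not_T (h : Sys m p e D) {i : ℕ} (hi : 1 ≤ i) : D.o ∉ T m i := by
  rw [mem_T, h.o]; omega

lemma nm_C (h : Sys m p e D) (t : ℕ) : D.nm (C m p t) = C m p t := by
  unfold KS.nm; rw [if_neg (o_not_C h t)]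

lemma nm_T (h : Sys m p e D) {i : ℕ} (hi : 1 ≤ i) : D.nm (T m i) = T m i := by
  unfold KS.nm; rw [if_neg (o_not_T h hi)]

lemma nm_compl (A : Finset (Fin m)) (h : D.o ∉ A) : D.nm Aᶜ = A := by
  unfold KS.nm
  rw [if_pos (by rw [mem_compl]; exact h), compl_compl]

lemma side_C (h : Sys m p e D) {t : ℕ} (h1 : 1 ≤ t) (h2 : t ≤ m - 1) :
    D.Side (EE m p) (C m p t) := by
  unfold KS.Side; rw [nm_C h]; exact C_mem h1 h2

lemma side_Cc (h : Sys m p e D) {t : ℕ} (h1 : 1 ≤ t) (h2 : t ≤ m - 1) :
    D.Side (EE m p) (C m p t)ᶜ := by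
  unfold KS.Side; rw [nm_compl _ (o_not_C h t)]; exact C_mem h1 h2

lemma side_T (h : Sys m p e D) {i : ℕ} (h1 : 1 ≤ i) (h2 : i ≤ m - 1) :
    D.Side (EE m p) (T m i) := by
  unfold KS.Side; rw [nm_T h h1]; exact T_mem h1 h2

lemma side_Tc (h : Sys m p e D) {i : ℕ} (h1 : 1 ≤ i) (h2 : i ≤ m - 1) :
    D.Side (EE m p) (T m i)ᶜ := by
  unfold KS.Side; rw [nm_compl _ (o_not_T h h1)]; exact T_mem h1 h2

lemma mem_lp (h : Sys m p e D) (s : Bool) (A : Finset (Fin m)) (i : Fin m) :
    i ∈ D.lp s A ↔ decide (i.1 = 0 ∨ i.1 = p) = s ∧ D.nxt i ∈ A := by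
  rw [KS.lp, mem_filter, h.side]
  simp

/-- The full cut is the complement of the letter `o`. -/
lemma C_full (h : Sys m p e D) (hp : 1 ≤ p) (hm : p + 2 ≤ m) :
    C m p (m - 1) = ({D.o} : Finset (Fin m))ᶜ := by
  ext i
  rw [mem_C, mem_compl, mem_singleton]
  have hi := i.2
  constructor
  · intro h1 h2
    rw [h2] at h1
    exact h1.1 h.o
  · intro h1
    have h2 : i.1 ≠ 0 := by
      intro h0
      exact h1 (Fin.ext (by rw [h.o, h0]))
    refine ⟨h2, ?_⟩
    split_ifs <;> omega

/-- The cut of all letters except `0` and `p`. -/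
lemma C_almost (hp : 1 ≤ p) (hm : p + 2 ≤ m) (i : Fin m) :
    i ∈ C m p (m - 2) ↔ ¬ (i.1 = 0 ∨ i.1 = p) := by
  rw [mem_C]
  have hi := i.2
  split_ifs <;> omega

lemma lp_false_C (h : Sys m p e D) (hp : 1 ≤ p) (hm : p + 2 ≤ m)
    (he : e = 1 ∨ (e = m - 1 ∧ m = p + 2)) {t : ℕ} (h1 : 1 ≤ t)
    (h2 : t + 1 ≤ m - 1) : D.lp false (C m p (t + 1)) = C m p t := by
  ext i
  rw [mem_lp h, mem_C, mem_C, h.nxt]
  have hi := i.2
  simp only [decide_eq_false_iff_not]
  split_ifs <;> omega

lemma lp_true_C_small (h : Sys m p e D) (hp : 1 ≤ p) (hm : p + 2 ≤ m)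
    {t : ℕ} (h1 : 1 ≤ t) (h2 : t ≤ m - 1 - p) :
    D.lp true (C m p t) = T m p := by
  ext i
  rw [mem_lp h, mem_C, mem_T, h.nxt]
  have hi := i.2
  simp only [decide_eq_true_eq]
  split_ifs <;> omega

lemma lp_true_C_large (h : Sys m p e D) (hp : 1 ≤ p) (hm : p + 2 ≤ m)
    {t : ℕ} (h1 : m - 1 - p + 1 ≤ t) :
    D.lp true (C m p t) = (C m p (m - 2))ᶜ := by
  ext i
  rw [mem_compl, C_almost hp hm, mem_lp h, mem_C, h.nxt]
  have hi := i.2
  simp only [decide_eq_true_eq]
  split_ifs <;> omega

lemma lp_T (h : Sys m p e D) (hp : 1 ≤ p) (hm : p + 2 ≤ m)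
    (he : e = 1 ∨ (e = m - 1 ∧ m = p + 2)) {i : ℕ} (h1 : 2 ≤ i) (h2 : i ≤ m - 1)
    (h3 : i = p + 1 ∨ e = 1 ∨ i ≠ m - 1) :
    D.lp (decide (i = p + 1)) (T m i) = T m (i - 1) := by
  ext j
  rw [mem_lp h, mem_T, mem_T, h.nxt]
  have hi := j.2
  by_cases hip : i = p + 1
  · simp only [hip, decide_true, decide_eq_true_eq]
    split_ifs <;> omega
  · simp only [hip, decide_false, decide_eq_false_iff_not]
    split_ifs <;> omega

lemma lp_true_T1 (h : Sys m p e D) (hp : 1 ≤ p) (hm : p + 2 ≤ m) :
    D.lp true (T m 1) = (C m p (m - 1))ᶜ := by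
  rw [C_full h hp hm, compl_compl]
  ext j
  rw [mem_lp h, mem_T, h.nxt, mem_singleton]
  have hi := j.2
  simp only [decide_eq_true_eq]
  constructor
  · rintro ⟨h1, h2⟩
    apply Fin.ext
    rw [h.o]
    split_ifs at h2 <;> omega
  · intro hj
    have : j.1 = 0 := by rw [hj, h.o]
    split_ifs <;> omega

lemma lp_false_T1 (h : Sys m p 1 D) (hp : 1 ≤ p) (hm : p + 2 ≤ m) :
    D.lp false (T m 1) = T m (m - 1) := by
  ext j
  rw [mem_lp h, mem_T, mem_T, h.nxt]
  have hi := j.2
  simp only [decide_eq_false_iff_not]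
  split_ifs <;> omega

lemma C_one (hp : 1 ≤ p) (hm : p + 2 ≤ m) : C m p 1 = T m (p + 1) := by
  ext i
  rw [mem_C, mem_T]
  have hi := i.2
  split_ifs <;> omega

/-! ### Paths -/

lemma arrow_C (h : Sys m p e D) (hp : 1 ≤ p) (hm : p + 2 ≤ m)
    (he : e = 1 ∨ (e = m - 1 ∧ m = p + 2)) {t : ℕ} (h1 : 1 ≤ t) (h2 : t + 1 ≤ m - 1) :
    D.Arrow (EE m p) (C m p (t + 1)) (C m p t) :=
  ⟨C_mem (by omega) h2, C_mem h1 (by omega), false, by rw [lp_false_C h hp hm he h1 h2, nm_C h]⟩

lemma arrow_T (h : Sys m p e D) (hp : 1 ≤ p) (hm : p + 2 ≤ m)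
    (he : e = 1 ∨ (e = m - 1 ∧ m = p + 2)) {i : ℕ} (h1 : 2 ≤ i) (h2 : i ≤ m - 1) :
    D.Arrow (EE m p) (T m i) (T m (i - 1)) := by
  have h3 : i = p + 1 ∨ e = 1 ∨ i ≠ m - 1 := by
    rcases he with he | ⟨he, he'⟩
    · exact Or.inr (Or.inl he)
    · by_cases h4 : i = m - 1
      · left; omega
      · exact Or.inr (Or.inr h4)
  exact ⟨T_mem (by omega) h2, T_mem (by omega) (by omega), decide (i = p + 1),
    by rw [lp_T h hp hm he h1 h2 h3, nm_T h (by omega)]⟩

lemma arrow_T1 (h : Sys m p e D) (hp : 1 ≤ p) (hm : p + 2 ≤ m) :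
    D.Arrow (EE m p) (T m 1) (C m p (m - 1)) :=
  ⟨T_mem le_rfl (by omega), C_mem (by omega) le_rfl, true,
    by rw [lp_true_T1 h hp hm, nm_compl _ (o_not_C h _)]⟩

lemma path_C (h : Sys m p e D) (hp : 1 ≤ p) (hm : p + 2 ≤ m)
    (he : e = 1 ∨ (e = m - 1 ∧ m = p + 2)) (d : ℕ) : ∀ t, 1 ≤ t → t + d ≤ m - 1 →
    D.Path (EE m p) d (C m p (t + d)) (C m p t) := by
  induction d with
  | zero => intro t h1 h2; exact ⟨C_mem h1 h2, rfl⟩
  | succ d ih =>
    intro t h1 h2
    have := ih (t + 1) (by omega) (by omega)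
    have e1 : t + 1 + d = t + (d + 1) := by omega
    rw [e1] at this
    exact path_snoc D this (arrow_C h hp hm he h1 (by omega))

lemma path_T (h : Sys m p e D) (hp : 1 ≤ p) (hm : p + 2 ≤ m)
    (he : e = 1 ∨ (e = m - 1 ∧ m = p + 2)) (d : ℕ) : ∀ i, 1 ≤ i → i + d ≤ m - 1 →
    D.Path (EE m p) d (T m (i + d)) (T m i) := by
  induction d with
  | zero => intro t h1 h2; exact ⟨T_mem h1 h2, rfl⟩
  | succ d ih =>
    intro i h1 h2
    have := ih (i + 1) (by omega) (by omega)
    have e1 : i + 1 + d = i + (d + 1) := by omega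
    rw [e1] at this
    exact path_snoc D this (by
      have := arrow_T h hp hm he (i := i + 1) (by omega) (by omega)
      rwa [Nat.add_sub_cancel] at this)

lemma path_to (h : Sys m p e D) (hp : 1 ≤ p) (hm : p + 2 ≤ m)
    (he : e = 1 ∨ (e = m - 1 ∧ m = p + 2)) : ∀ A ∈ EE m p, ∃ n,
    D.Path (EE m p) n A (T m 1) := by
  intro A hA
  rcases mem_EE hA with ⟨t, h1, h2, rfl⟩ | ⟨i, h1, h2, rfl⟩
  · have a := path_C h hp hm he (t - 1) 1 le_rfl (by omega)
    have e1 : 1 + (t - 1) = t := by omega
    rw [e1, C_one hp hm] at a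
    have b := path_T h hp hm he p 1 le_rfl (by omega)
    have e2 : 1 + p = p + 1 := by omega
    rw [e2] at b
    exact ⟨_, path_trans D _ _ a b⟩
  · have b := path_T h hp hm he (i - 1) 1 le_rfl (by omega)
    have e2 : 1 + (i - 1) = i := by omega
    rw [e2] at b
    exact ⟨_, b⟩

lemma path_toC (h : Sys m p e D) (hp : 1 ≤ p) (hm : p + 2 ≤ m)
    (he : e = 1 ∨ (e = m - 1 ∧ m = p + 2)) {t : ℕ} (h1 : 1 ≤ t) (h2 : t ≤ m - 1) :
    D.Path (EE m p) (1 + (m - 1 - t)) (T m 1) (C m p t) := by
  have a := path_C h hp hm he (m - 1 - t) t h1 (by omega)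
  have e1 : t + (m - 1 - t) = m - 1 := by omega
  rw [e1] at a
  exact path_trans D _ _ (path_one D (arrow_T1 h hp hm)) a

/-- The closed path through the chain. -/
lemma closed_chain (h : Sys m p e D) (hp : 1 ≤ p) (hm : p + 2 ≤ m)
    (he : e = 1 ∨ (e = m - 1 ∧ m = p + 2)) :
    D.Path (EE m p) (1 + (m - 2) + p) (T m 1) (T m 1) := by
  have a := path_toC h hp hm he (t := 1) le_rfl (by omega)
  have b := path_T h hp hm he p 1 le_rfl (by omega)
  have e2 : 1 + p = p + 1 := by omega
  rw [e2] at b
  rw [C_one hp hm] at a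
  have e3 : m - 1 - 1 = m - 2 := by omega
  rw [e3] at a
  exact path_trans D _ _ a b

/-- A loop on the way gives closed paths of all large lengths. -/
lemma closed_of_loop {E : Finset (Finset (Fin m))} {V W : Finset (Fin m)} {x y : ℕ}
    (h1 : D.Path E x V W) (h2 : D.Path E y W V) (h3 : D.Arrow E W W) :
    ∃ N, ∀ n, N ≤ n → D.Path E n V V := by
  have hW : W ∈ E := h3.1
  have hl : ∀ k, D.Path E k W W := by
    intro k
    induction k with
    | zero => exact ⟨hW, rfl⟩
    | succ k ih => exact path_snoc D ih h3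
  refine ⟨x + y, fun n hn => ?_⟩
  have := path_trans D _ _ (path_trans D _ _ h1 (hl (n - x - y))) h2
  have e : x + (n - x - y) + y = n := by omega
  rwa [e] at this

lemma base_mem (h : Sys m p e D) (hp : 1 ≤ p) (hm : p + 2 ≤ m) :
    ({D.o} : Finset (Fin m))ᶜ ∈ EE m p := by
  rw [← C_full h hp hm]
  exact C_mem (by omega) le_rfl

lemma norm_EE (h : Sys m p e D) : ∀ A ∈ EE m p, D.o ∉ A := by
  intro A hA
  rcases mem_EE hA with ⟨t, h1, h2, rfl⟩ | ⟨i, h1, h2, rfl⟩
  · exact o_not_C h t
  · exact o_not_T h h1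

/-! ### The closure -/

/-- Gluing along the chain. -/
lemma mono_of_chain (h : Sys m p e D) (hp : 1 ≤ p) (hm : p + 2 ≤ m)
    (hR : ∀ t, 1 ≤ t → t + 1 ≤ m - 1 → D.Mono (EE m p) (C m p (t + 1))ᶜ (C m p t))
    (hQ : ∀ i : Fin m, i.1 ≠ 0 → D.Mono (EE m p)
      (C m p (if p < i.1 then i.1 - p else i.1 + (m - 1 - p)))ᶜ {i}) :
    ∀ i, i ≠ D.o → D.Mono (EE m p) {D.o} {i} := by
  have hS : ∀ d t, 1 ≤ t → t + d = m - 1 → D.Mono (EE m p) {D.o} (C m p t) := by
    intro d
    induction d with
    | zero =>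
      intro t h1 h2
      have h3 : t = m - 1 := by omega
      subst h3
      rw [C_full h hp hm]
      refine KS.Mono.triv _ ?_
      have := side_Cc h (t := m - 1) (by omega) le_rfl
      rwa [C_full h hp hm, compl_compl] at this
    | succ d ih =>
      intro t h1 h2
      have a := ih (t + 1) (by omega) (by omega)
      refine KS.Mono.glue {D.o} (C m p (t + 1)) (C m p t) (side_C h (by omega) (by omega)) ?_ ?_ a
        (hR t h1 (by omega))
      · rw [singleton_subset_iff, mem_compl]
        exact o_not_C h _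
      · intro i hi
        rw [mem_C] at hi ⊢
        exact ⟨hi.1, hi.2.trans (by omega)⟩
  intro i hi
  have hi0 : i.1 ≠ 0 := by
    intro h0
    exact hi (Fin.ext (by rw [h.o, h0]))
  have hil := i.2
  set t := if p < i.1 then i.1 - p else i.1 + (m - 1 - p) with ht
  have ht1 : 1 ≤ t := by rw [ht]; split_ifs <;> omega
  have ht2 : t ≤ m - 1 := by rw [ht]; split_ifs <;> omega
  refine KS.Mono.glue {D.o} (C m p t) {i} (side_C h ht1 ht2) ?_ ?_
    (hS (m - 1 - t) t ht1 (by omega)) (hQ i hi0)
  · rw [singleton_subset_iff, mem_compl]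
    exact o_not_C h _
  · rw [singleton_subset_iff, mem_C]
    exact ⟨hi0, ht.ge⟩

/-- The rule `image` for two cuts of the chain on the side `false`. -/
lemma image_C (h : Sys m p e D) (hp : 1 ≤ p) (hm : p + 2 ≤ m)
    (he : e = 1 ∨ (e = m - 1 ∧ m = p + 2)) {t : ℕ} (h1 : 1 ≤ t) (h2 : t + 2 ≤ m - 1)
    (hR : D.Mono (EE m p) (C m p (t + 1))ᶜ (C m p t)) :
    D.Mono (EE m p) (C m p (t + 2))ᶜ (C m p (t + 1)) := by
  refine KS.Mono.image false _ _ ?_ ?_ ?_
  · rw [mem_compl]; exact o_not_C h _
  · rw [Finset.disjoint_left]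
    intro i hi hi'
    rw [mem_compl] at hi
    apply hi
    rw [mem_C] at hi' ⊢
    exact ⟨hi'.1, hi'.2.trans (by omega)⟩
  · rw [compl_compl, lp_false_C h hp hm he (by omega) h2, lp_false_C h hp hm he h1 (by omega)]
    exact hR

/-- The rule `image` on the side `true`, both cuts large. -/
lemma image_true (h : Sys m p e D) (hp : 1 ≤ p) (hm : p + 2 ≤ m) {t : ℕ}
    (h1 : m - 1 - p + 1 ≤ t) (h2 : t + 1 ≤ m - 1) :
    D.Mono (EE m p) (C m p (t + 1))ᶜ (C m p t) := by
  refine KS.Mono.image true _ _ ?_ ?_ ?_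
  · rw [mem_compl]; exact o_not_C h _
  · rw [Finset.disjoint_left]
    intro i hi hi'
    rw [mem_compl] at hi
    apply hi
    rw [mem_C] at hi' ⊢
    exact ⟨hi'.1, hi'.2.trans (by omega)⟩
  · rw [compl_compl, lp_true_C_large h hp hm (by omega), lp_true_C_large h hp hm h1, compl_compl]
    exact KS.Mono.triv _ (side_C h (by omega) (by omega))

/-- The rule `image` for a letter on the side `false`. -/
lemma image_letter (h : Sys m p e D) (hp : 1 ≤ p) (hm : p + 2 ≤ m)
    (he : e = 1 ∨ (e = m - 1 ∧ m = p + 2)) {t : ℕ} (h1 : 1 ≤ t) (h2 : t + 1 ≤ m - 1)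
    {i : Fin m} (hi : i ∈ C m p (t + 1)) {A : Finset (Fin m)} (hA : D.lp false {i} = A)
    (hQ : D.Mono (EE m p) (C m p t)ᶜ A) :
    D.Mono (EE m p) (C m p (t + 1))ᶜ {i} := by
  refine KS.Mono.image false _ _ ?_ ?_ ?_
  · rw [mem_compl]; exact o_not_C h _
  · rw [Finset.disjoint_singleton_right, mem_compl, not_not]
    exact hi
  · rw [compl_compl, lp_false_C h hp hm he h1 h2, hA]
    exact hQ

end

/-! ### The first family -/

theorem rigid_one {m p : ℕ} {D : KS (Fin m)} (h : Sys m p 1 D) (hp : 1 ≤ p) (hm : p + 2 ≤ m)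
    (hm' : 4 ≤ m) : D.Rigid (EE m p) := by
  have he : (1 : ℕ) = 1 ∨ ((1 : ℕ) = m - 1 ∧ m = p + 2) := Or.inl rfl
  have hT1 : D.Arrow (EE m p) (T m 1) (T m (m - 1)) :=
    ⟨T_mem le_rfl (by omega), T_mem (by omega) le_rfl, false,
      by rw [lp_false_T1 h hp hm, nm_T h (by omega)]⟩
  have hfromT : ∀ i, 1 ≤ i → i ≤ m - 1 → D.Path (EE m p) (1 + (m - 1 - i)) (T m 1) (T m i) := by
    intro i h1 h2
    have a := path_T h hp hm he (m - 1 - i) i h1 (by omega)
    have e1 : i + (m - 1 - i) = m - 1 := by omega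
    rw [e1] at a
    exact path_trans D _ _ (path_one D hT1) a
  refine
    { norm := norm_EE h
      base := base_mem h hp hm
      mix := mix_of D (path_to h hp hm he) ?_ ?_
      leaf := ?_
      mono := ?_ }
  · intro B hB
    rcases mem_EE hB with ⟨t, h1, h2, rfl⟩ | ⟨i, h1, h2, rfl⟩
    · exact ⟨_, path_toC h hp hm he h1 h2⟩
    · exact ⟨_, hfromT i h1 h2⟩
  · by_cases hp1 : p = 1
    · subst hp1
      have a := hfromT 1 le_rfl (by omega)
      have b := closed_chain h hp hm he
      have e1 : 1 + (m - 1 - 1) = m - 1 := by omega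
      have e2 : 1 + (m - 2) + 1 = m - 1 + 1 := by omega
      rw [e1] at a
      rw [e2] at b
      exact closed_of_two D (by omega) a b
    · -- the loop at the cut of all letters except 0 and p
      have hl : D.Arrow (EE m p) (C m p (m - 2)) (C m p (m - 2)) :=
        ⟨C_mem (by omega) (by omega), C_mem (by omega) (by omega), true,
          by rw [lp_true_C_large h hp hm (by omega), nm_compl _ (o_not_C h _)]⟩
      obtain ⟨y, hy⟩ := path_to h hp hm he (C m p (m - 2)) (C_mem (by omega) (by omega))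
      exact closed_of_loop (path_toC h hp hm he (t := m - 2) (by omega) (by omega)) hy hl
  · intro i hi
    have h0 : i.1 ≠ 0 := by
      intro h0
      exact hi (Fin.ext (by rw [h.o, h0]))
    rw [← T_eq]
    exact T_mem (by omega) (by omega)
  · -- the closure
    refine mono_of_chain h hp hm ?_ ?_
    · -- the chain
      by_cases hb : p + 3 ≤ m
      · -- b ≥ 2
        have hR1 : D.Mono (EE m p) (C m p 2)ᶜ (C m p 1) := by
          refine KS.Mono.image true _ _ ?_ ?_ ?_
          · rw [mem_compl]; exact o_not_C h _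
          · rw [Finset.disjoint_left]
            intro i hi hi'
            rw [mem_compl] at hi
            apply hi
            rw [mem_C] at hi' ⊢
            exact ⟨hi'.1, hi'.2.trans (by omega)⟩
          · rw [compl_compl, lp_true_C_small h hp hm (by omega) (by omega),
              lp_true_C_small h hp hm (by omega) (by omega)]
            have := KS.Mono.triv (D := D) (E := EE m p) _ (side_Tc h (i := p) hp (by omega))
            rwa [compl_compl] at this
        intro t h1 h2
        obtain ⟨d, rfl⟩ : ∃ d, t = d + 1 := ⟨t - 1, by omega⟩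
        clear h1
        induction d with
        | zero => exact hR1
        | succ d ih => exact image_C h hp hm he (t := d + 1) (by omega) (by omega) (ih (by omega))
      · -- b = 1
        have hmp : m = p + 2 := by omega
        intro t h1 h2
        by_cases ht : 2 ≤ t
        · exact image_true h hp hm (by omega) h2
        · have ht1 : t = 1 := by omega
          subst ht1
          have hR2 : D.Mono (EE m p) (C m p 3)ᶜ (C m p 2) :=
            image_true h hp hm (t := 2) (by omega) (by omega)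
          have := KS.Mono.lift (D := D) (E := EE m p) false (C m p 3)ᶜ (C m p 2)
            (by rw [mem_compl]; exact o_not_C h _)
            (by
              rw [Finset.disjoint_left]
              intro i hi hi'
              rw [mem_compl] at hi
              apply hi
              rw [mem_C] at hi' ⊢
              exact ⟨hi'.1, hi'.2.trans (by omega)⟩)
            (side_Cc h (by omega) (by omega)) (side_C h (by omega) (by omega))
            (by
              rw [compl_compl, lp_false_C h hp hm he (t := 2) (by omega) (by omega)]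
              exact side_Cc h (by omega) (by omega))
            (by
              rw [lp_false_C h hp hm he (t := 1) (by omega) (by omega)]
              exact side_C h (by omega) (by omega))
            hR2
          rw [compl_compl, lp_false_C h hp hm he (t := 2) (by omega) (by omega),
            lp_false_C h hp hm he (t := 1) (by omega) (by omega)] at this
          exact this
    · -- the letters
      have key : ∀ t (i : Fin m), i.1 ≠ 0 →
          (if p < i.1 then i.1 - p else i.1 + (m - 1 - p)) = t + 1 →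
          D.Mono (EE m p) (C m p (t + 1))ᶜ {i} := by
        intro t
        induction t with
        | zero =>
          intro i hi0 hi
          have hil := i.2
          have hip : i.1 = p + 1 := by
            split_ifs at hi <;> omega
          have e1 : C m p (0 + 1) = {i} := by
            rw [Nat.zero_add, C_one hp hm, ← hip, T_eq]
          rw [e1]
          have := KS.Mono.triv (D := D) (E := EE m p) _ (side_Tc h (i := i.1) (by omega) (by omega))
          rwa [T_eq, compl_compl] at this
        | succ t ih =>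
          intro i hi0 hi
          have hil := i.2
          have hiC : i ∈ C m p (t + 1 + 1) := by
            rw [mem_C]; exact ⟨hi0, hi.le⟩
          have ht2 : t + 1 + 1 ≤ m - 1 := by
            split_ifs at hi <;> omega
          by_cases h1 : i.1 = 1
          · -- preimage m - 1
            have hjm : m - 1 < m := by omega
            have hA : D.lp false {i} = {(⟨m - 1, hjm⟩ : Fin m)} := by
              rw [← T_eq i, h1, lp_false_T1 h hp hm, ← T_eq]
            refine image_letter h hp hm he (by omega) ht2 hiC hA (ih ⟨m - 1, hjm⟩ ?_ ?_)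
            · show m - 1 ≠ 0; omega
            · show (if p < m - 1 then m - 1 - p else m - 1 + (m - 1 - p)) = t + 1
              rw [h1] at hi
              split_ifs at hi ⊢ <;> omega
          · have hjm : i.1 - 1 < m := by omega
            have hne : i.1 ≠ p + 1 := by
              intro h2; rw [h2] at hi; split_ifs at hi <;> omega
            have hA : D.lp false {i} = {(⟨i.1 - 1, hjm⟩ : Fin m)} := by
              have := lp_T h hp hm he (i := i.1) (by omega) (by omega) (Or.inr (Or.inl rfl))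
              rw [decide_eq_false hne] at this
              rw [← T_eq i, this, ← T_eq]
            refine image_letter h hp hm he (by omega) ht2 hiC hA (ih ⟨i.1 - 1, hjm⟩ ?_ ?_)
            · show i.1 - 1 ≠ 0; omega
            · show (if p < i.1 - 1 then i.1 - 1 - p else i.1 - 1 + (m - 1 - p)) = t + 1
              split_ifs at hi ⊢ <;> omega
      intro i hi0
      have hil := i.2
      have ht : 1 ≤ (if p < i.1 then i.1 - p else i.1 + (m - 1 - p)) := by
        split_ifs <;> omega
      have := key ((if p < i.1 then i.1 - p else i.1 + (m - 1 - p)) - 1) i hi0 (by omega)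
      rwa [Nat.sub_add_cancel ht] at this

/-- Colliding letters in the first family. -/
theorem fo_one {m p : ℕ} {D : KS (Fin m)} (h : Sys m p 1 D) (hp : 1 ≤ p) (hm : p + 2 ≤ m) :
    ∀ q q', q ≠ q' → D.nxt q = D.nxt q' → D.FO q q' := by
  have key : ∀ q : Fin m, q.1 = m - 1 → D.FO D.o q := by
    intro q hq
    refine KS.FO.base q ?_ ?_
    · intro h0
      have := h.o
      rw [← h0] at this
      omega
    · intro i i' hi hi'
      have a1 := h.nxt i
      have a2 := h.nxt i'
      rw [hi] at a1
      rw [hi'] at a2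
      have b1 := i.2
      have b2 := i'.2
      apply Fin.ext
      split_ifs at a1 a2 <;> omega
  intro q q' hne hq
  have a1 := h.nxt q
  have a2 := h.nxt q'
  rw [hq, a2] at a1
  have b1 := q.2
  have b2 := q'.2
  have hne' : q.1 ≠ q'.1 := fun hh => hne (Fin.ext hh)
  have hcase : (q.1 = 0 ∧ q'.1 = m - 1) ∨ (q'.1 = 0 ∧ q.1 = m - 1) := by
    split_ifs at a1 <;> omega
  rcases hcase with ⟨c1, c2⟩ | ⟨c1, c2⟩
  · have : q = D.o := Fin.ext (by rw [h.o, c1])
    rw [this]
    exact key q' c2
  · have : q' = D.o := Fin.ext (by rw [h.o, c1])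
    rw [this]
    exact KS.FO.symm _ _ (key q c2)

/-! ### The second family -/

theorem rigid_two {m p : ℕ} {D : KS (Fin m)} (h : Sys m p (m - 1) D) (hp : 1 ≤ p)
    (hm : m = p + 2) : D.Rigid (EE m p) := by
  have hm2 : p + 2 ≤ m := by omega
  have he : m - 1 = 1 ∨ (m - 1 = m - 1 ∧ m = p + 2) := Or.inr ⟨rfl, hm⟩
  have hl : D.Arrow (EE m p) (T m (m - 1)) (T m (m - 1)) := by
    refine ⟨T_mem (by omega) le_rfl, T_mem (by omega) le_rfl, false, ?_⟩
    have : D.lp false (T m (m - 1)) = T m (m - 1) := by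
      ext j
      rw [mem_lp h, mem_T, mem_T, h.nxt]
      have hi := j.2
      simp only [decide_eq_false_iff_not]
      split_ifs <;> omega
    rw [this, nm_T h (by omega)]
  have hC1 : C m p 1 = T m (m - 1) := by
    rw [C_one hp hm2]
    congr 1
    omega
  have hto1 : D.Path (EE m p) (1 + (m - 1 - 1)) (T m 1) (T m (m - 1)) := by
    have := path_toC h hp hm2 he (t := 1) le_rfl (by omega)
    rwa [hC1] at this
  refine
    { norm := norm_EE h
      base := base_mem h hp hm2
      mix := mix_of D (path_to h hp hm2 he) ?_ ?_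
      leaf := ?_
      mono := ?_ }
  · intro B hB
    rcases mem_EE hB with ⟨t, h1, h2, rfl⟩ | ⟨i, h1, h2, rfl⟩
    · exact ⟨_, path_toC h hp hm2 he h1 h2⟩
    · have a := path_T h hp hm2 he (m - 1 - i) i h1 (by omega)
      have e1 : i + (m - 1 - i) = m - 1 := by omega
      rw [e1] at a
      exact ⟨_, path_trans D _ _ hto1 a⟩
  · obtain ⟨y, hy⟩ := path_to h hp hm2 he (T m (m - 1)) (T_mem (by omega) le_rfl)
    exact closed_of_loop hto1 hy hl
  · intro i hi
    have h0 : i.1 ≠ 0 := by
      intro h0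
      exact hi (Fin.ext (by rw [h.o, h0]))
    have hil := i.2
    rw [← T_eq]
    exact T_mem (by omega) (by omega)
  · have hR : ∀ t, 1 ≤ t → t + 1 ≤ m - 1 → D.Mono (EE m p) (C m p (t + 1))ᶜ (C m p t) := by
      intro t h1 h2
      by_cases ht : 2 ≤ t
      · exact image_true h hp hm2 (by omega) h2
      · have ht1 : t = 1 := by omega
        subst ht1
        refine KS.Mono.image false _ _ ?_ ?_ ?_
        · rw [mem_compl]; exact o_not_C h _
        · rw [Finset.disjoint_left]
          intro i hi hi'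
          rw [mem_compl] at hi
          apply hi
          rw [mem_C] at hi' ⊢
          exact ⟨hi'.1, hi'.2.trans (by omega)⟩
        · have e1 : D.lp false (C m p 1) = C m p 1 := by
            rw [hC1]
            ext j
            rw [mem_lp h, mem_T, mem_T, h.nxt]
            have hi := j.2
            simp only [decide_eq_false_iff_not]
            split_ifs <;> omega
          rw [compl_compl, lp_false_C h hp hm2 he le_rfl h2, e1]
          have := KS.Mono.triv (D := D) (E := EE m p) _ (side_Cc h (t := 1) le_rfl (by omega))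
          rwa [compl_compl] at this
    refine mono_of_chain h hp hm2 hR ?_
    -- the letters
    have hlast : ∀ i : Fin m, i.1 = m - 1 → D.Mono (EE m p) (C m p 1)ᶜ {i} := by
      intro i hi
      have e1 : C m p 1 = {i} := by
        rw [hC1, ← hi, T_eq]
      rw [e1]
      have := KS.Mono.triv (D := D) (E := EE m p) _ (side_Tc h (i := i.1) (by omega) (by omega))
      rwa [T_eq, compl_compl] at this
    have key : ∀ t (i : Fin m), i.1 = t + 1 → t + 1 ≤ p →
        D.Mono (EE m p) (C m p (t + 1 + 1))ᶜ {i} := by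
      intro t
      induction t with
      | zero =>
        intro i hi hip
        refine KS.Mono.image true _ _ ?_ ?_ ?_
        · rw [mem_compl]; exact o_not_C h _
        · rw [Finset.disjoint_singleton_right, mem_compl, not_not, mem_C]
          refine ⟨by omega, ?_⟩
          split_ifs <;> omega
        · have e1 : D.lp true ({i} : Finset (Fin m)) = {D.o} := by
            rw [← T_eq i, hi, Nat.zero_add, lp_true_T1 h hp hm2, C_full h hp hm2, compl_compl]
          rw [compl_compl, lp_true_C_large h hp hm2 (by omega), compl_compl, e1]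
          have := hR (m - 2) (by omega) (by omega)
          have e2 : m - 2 + 1 = m - 1 := by omega
          rw [e2, C_full h hp hm2, compl_compl] at this
          exact KS.Mono.symm _ _ this
      | succ t ih =>
        intro i hi hip
        have hil := i.2
        have hjm : i.1 - 1 < m := by omega
        have hne : i.1 ≠ p + 1 := by omega
        have hA : D.lp false {i} = {(⟨i.1 - 1, hjm⟩ : Fin m)} := by
          have := lp_T h hp hm2 he (i := i.1) (by omega) (by omega)
            (Or.inr (Or.inr (by omega)))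
          rw [decide_eq_false hne] at this
          rw [← T_eq i, this, ← T_eq]
        have hiC : i ∈ C m p (t + 1 + 1 + 1) := by
          rw [mem_C]
          refine ⟨by omega, ?_⟩
          split_ifs <;> omega
        refine image_letter h hp hm2 he (by omega) (by omega) hiC hA (ih ⟨i.1 - 1, hjm⟩ ?_ ?_)
        · show i.1 - 1 = t + 1; omega
        · omega
    intro i hi0
    have hil := i.2
    by_cases hip : p < i.1
    · have : i.1 = m - 1 := by omega
      rw [if_pos hip]
      have e1 : i.1 - p = 1 := by omega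
      rw [e1]
      exact hlast i this
    · rw [if_neg hip]
      have := key (i.1 - 1) i (by omega) (by omega)
      have e1 : i.1 - 1 + 1 + 1 = i.1 + (m - 1 - p) := by omega
      rwa [e1] at this

/-- Colliding letters in the second family. -/
theorem fo_two {m p : ℕ} {D : KS (Fin m)} (h : Sys m p (m - 1) D) (hp : 1 ≤ p)
    (hm : m = p + 2) :
    ∀ q q', q ≠ q' → D.nxt q = D.nxt q' → D.FO q q' := by
  have uniq : ∀ (j i i' : Fin m), j.1 ≠ m - 1 → D.nxt i = j → D.nxt i' = j → i = i' := by
    intro j i i' hj hi hi'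
    have a1 := h.nxt i
    have a2 := h.nxt i'
    rw [hi] at a1
    rw [hi'] at a2
    have b1 := i.2
    have b2 := i'.2
    have b3 := j.2
    apply Fin.ext
    split_ifs at a1 a2 <;> omega
  have key0 : ∀ q : Fin m, q.1 = p → D.FO D.o q := by
    intro q hq
    refine KS.FO.base q ?_ (fun i i' hi hi' => uniq q i i' (by omega) hi hi')
    intro h0
    have := h.o
    rw [← h0] at this
    omega
  -- pairs (i, m - 1)
  have key : ∀ t (i q : Fin m), i.1 = t + 1 → t + 1 ≤ p → q.1 = m - 1 → D.FO i q := by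
    intro t
    induction t with
    | zero =>
      intro i q hi hip hq
      refine KS.FO.step i q ?_ ?_ ?_
      · intro h0; rw [h0, h.o] at hi; omega
      · intro h0; rw [h0, h.o] at hq; omega
      · intro i' q' hi' hq' hs
        have a1 := h.nxt i'
        have a2 := h.nxt q'
        rw [hi'] at a1
        rw [hq'] at a2
        have b1 := i'.2
        have b2 := q'.2
        have c1 : i'.1 = 0 := by split_ifs at a1 <;> omega
        have c2 : i' = D.o := Fin.ext (by rw [h.o, c1])
        rw [h.side, h.side] at hs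
        have c3 : q'.1 = p := by
          have hs1 : decide (i'.1 = 0 ∨ i'.1 = p) = true := by rw [c1]; simp
          rw [hs1] at hs
          have hs2 := of_decide_eq_true hs.symm
          rcases hs2 with hs2 | hs2
          · exfalso
            split_ifs at a2 <;> omega
          · exact hs2
        rw [c2]
        exact key0 q' c3
    | succ t ih =>
      intro i q hi hip hq
      refine KS.FO.step i q ?_ ?_ ?_
      · intro h0; rw [h0, h.o] at hi; omega
      · intro h0; rw [h0, h.o] at hq; omega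
      · intro i' q' hi' hq' hs
        have a1 := h.nxt i'
        have a2 := h.nxt q'
        rw [hi'] at a1
        rw [hq'] at a2
        have b1 := i'.2
        have b2 := q'.2
        have c1 : i'.1 = t + 1 := by split_ifs at a1 <;> omega
        rw [h.side, h.side] at hs
        have hs1 : decide (i'.1 = 0 ∨ i'.1 = p) = false := by
          apply decide_eq_false; omega
        rw [hs1] at hs
        have hs2 := of_decide_eq_false hs.symm
        have c3 : q'.1 = m - 1 := by
          split_ifs at a2 <;> omega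
        exact ih i' q' c1 (by omega) c3
  intro q q' hne hq
  have a1 := h.nxt q
  have a2 := h.nxt q'
  rw [hq, a2] at a1
  have b1 := q.2
  have b2 := q'.2
  have hne' : q.1 ≠ q'.1 := fun hh => hne (Fin.ext hh)
  have hcase : (q.1 = p ∧ q'.1 = m - 1) ∨ (q'.1 = p ∧ q.1 = m - 1) := by
    split_ifs at a1 <;> omega
  rcases hcase with ⟨c1, c2⟩ | ⟨c1, c2⟩
  · exact key (p - 1) q q' (by omega) (by omega) c2
  · exact KS.FO.symm _ _ (key (p - 1) q' q (by omega) (by omega) c2)

end Fam

end R4
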