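import Pool.Agent.Work.MP_e3f5d9_al.Interface

/-!
# Block B1p: basic facts on words
-/

set_option autoImplicit false

open Finset

namespace R4

namespace B1pAux

variable {L : Type} [DecidableEq L]

/-- Put a letter in front of a reduced word. -/
def rc (x : L) : List L → List L
  | [] => [x]
  | y :: t => if x = y then t else x :: y :: t

lemma red_cons (x : L) (w : List L) : red (x :: w) = rc x (red w) := by
  rw [red]
  cases red w <;> rfl

lemma rc_chain (x : L) (r : List L) (h : r.IsChain (· ≠ ·)) : (rc x r).IsChain (· ≠ ·) := by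
  cases r with
  | nil => simp [rc]
  | cons y t =>
    by_cases hxy : x = y
    · simp only [rc, hxy, if_true]
      exact h.tail
    · simp only [rc, hxy, if_false]
      exact List.IsChain.cons_cons hxy h

lemma red_chain (w : List L) : (red w).IsChain (· ≠ ·) := by
  induction w with
  | nil => simp [red]
  | cons x w ih => rw [red_cons]; exact rc_chain x _ ih

lemma red_id (w : List L) (h : w.IsChain (· ≠ ·)) : red w = w := by
  induction w with
  | nil => simp [red]
  | cons x w ih =>
    rw [red_cons, ih h.tail]
    cases w with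
    | nil => rfl
    | cons y t =>
      have hxy : x ≠ y := by
        rw [List.isChain_cons_cons] at h
        exact h.1
      simp [rc, hxy]

lemma rc_rc (x : L) (r : List L) (h : r.IsChain (· ≠ ·)) : rc x (rc x r) = r := by
  cases r with
  | nil => simp [rc]
  | cons y t =>
    by_cases hxy : x = y
    · subst hxy
      cases t with
      | nil => simp [rc]
      | cons z s =>
        have hxz : x ≠ z := by
          rw [List.isChain_cons_cons] at h
          exact h.1
        simp [rc, hxz]
    · simp [rc, hxy]

lemma red_cancel (x : L) (u v : List L) : red (u ++ x :: x :: v) = red (u ++ v) := by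
  induction u with
  | nil =>
    rw [List.nil_append, List.nil_append, red_cons, red_cons, rc_rc x _ (red_chain v)]
  | cons a u ih => rw [List.cons_append, List.cons_append, red_cons, red_cons, ih]

lemma red_append_right (u v : List L) : red (u ++ red v) = red (u ++ v) := by
  induction u with
  | nil => rw [List.nil_append, List.nil_append, red_id _ (red_chain v)]
  | cons a u ih => rw [List.cons_append, List.cons_append, red_cons, red_cons, ih]

lemma red_append_left (u v : List L) : red (red u ++ v) = red (u ++ v) := by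
  induction u with
  | nil => simp [red]
  | cons a u ih =>
    have h1 : red (a :: u ++ v) = red (a :: (red u ++ v)) := by
      rw [List.cons_append, red_cons, red_cons, ih]
    rw [h1, red_cons a u]
    cases h : red u with
    | nil => simp [rc]
    | cons y t =>
      by_cases hay : a = y
      · subst hay
        simp only [rc, if_true]
        exact (red_cancel a [] (t ++ v)).symm
      · simp [rc, hay]

/-- Reduction is a sequence of deletions of pairs `x x`. -/
lemma red_induct (R : List L → List L → Prop) (hr : ∀ w, R w w)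
    (ht : ∀ a b c, R a b → R b c → R a c)
    (hs : ∀ (u : List L) (x : L) (v : List L), R (u ++ x :: x :: v) (u ++ v)) :
    ∀ w, R w (red w) := by
  have key : ∀ (w u : List L), R (u ++ w) (u ++ red w) := by
    intro w
    induction w with
    | nil => intro u; exact hr _
    | cons x w ih =>
      intro u
      have h1 : R (u ++ x :: w) (u ++ x :: red w) := by
        have := ih (u ++ [x])
        simpa using this
      refine ht _ _ _ h1 ?_
      rw [red_cons]
      cases h : red w with
      | nil => exact hr _
      | cons y t =>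
        by_cases hxy : x = y
        · subst hxy
          simp only [rc, if_true]
          exact hs u x t
        · simp only [rc, hxy, if_false]
          exact hr _
  intro w
  simpa using key w []

/-- Flagged version of `blk`. -/
def bA (X Y : Finset L) (f : Bool) (w : List L) : ℕ :=
  runsAux Y f (w.filter fun x => x ∈ X ∨ x ∈ Y)

lemma bA_nil (X Y : Finset L) (f : Bool) : bA X Y f [] = 0 := by simp [bA, runsAux]

lemma bA_Y (X Y : Finset L) (f : Bool) (x : L) (w : List L) (h : x ∈ Y) :
    bA X Y f (x :: w) = (if f then 0 else 1) + bA X Y true w := by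
  simp [bA, runsAux, h]

lemma bA_X (X Y : Finset L) (f : Bool) (x : L) (w : List L) (h : x ∉ Y) (h' : x ∈ X) :
    bA X Y f (x :: w) = bA X Y false w := by
  simp [bA, runsAux, h, h']

lemma bA_N (X Y : Finset L) (f : Bool) (x : L) (w : List L) (h : x ∉ Y) (h' : x ∉ X) :
    bA X Y f (x :: w) = bA X Y f w := by
  simp [bA, h, h']

lemma rA_nil (A : Finset L) (f : Bool) : runsAux A f [] = 0 := by simp [runsAux]

lemma rA_in (A : Finset L) (f : Bool) (x : L) (w : List L) (h : x ∈ A) :
    runsAux A f (x :: w) = (if f then 0 else 1) + runsAux A true w := by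
  simp [runsAux, h]

lemma rA_out (A : Finset L) (f : Bool) (x : L) (w : List L) (h : x ∉ A) :
    runsAux A f (x :: w) = runsAux A false w := by
  simp [runsAux, h]

lemma rA_le (A : Finset L) (v : List L) : runsAux A true v ≤ runsAux A false v ∧
    runsAux A false v ≤ runsAux A true v + 1 := by
  cases v with
  | nil => simp [rA_nil]
  | cons y v =>
    by_cases h : y ∈ A
    · simp [rA_in A _ y v h]; omega
    · simp [rA_out A _ y v h]

lemma bA_le (X Y : Finset L) (v : List L) : bA X Y true v ≤ bA X Y false v ∧
    bA X Y false v ≤ bA X Y true v + 1 := rA_le Y _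

/-- A run of letters of `A` that ends: comparison of the flags. -/
lemma joint1 (X Y : Finset L) (hd : Disjoint X Y) (v : List L) :
    bA X Y false v + runsAux X false v ≤ bA X Y true v + runsAux X true v + 1 := by
  cases v with
  | nil => simp [bA_nil, rA_nil]
  | cons y v =>
    have h1 := bA_le X Y v
    have h2 := rA_le X v
    by_cases hX : y ∈ X
    · have hY : y ∉ Y := Finset.disjoint_left.1 hd hX
      simp [rA_in X _ y v hX, bA_X X Y _ y v hY hX]; omega
    · by_cases hY : y ∈ Y
      · simp [rA_out X _ y v hX, bA_Y X Y _ y v hY]; omega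
      · simp [rA_out X _ y v hX, bA_N X Y _ y v hY hX]; omega

lemma joint2 (X Y : Finset L) (v : List L) :
    bA X Y true v + runsAux Y false v ≤ bA X Y false v + runsAux Y true v := by
  cases v with
  | nil => simp [bA_nil, rA_nil]
  | cons y v =>
    have h1 := bA_le X Y v
    by_cases hY : y ∈ Y
    · simp [rA_in Y _ y v hY, bA_Y X Y _ y v hY]; omega
    · by_cases hX : y ∈ X
      · simp [rA_out Y _ y v hY, bA_X X Y _ y v hY hX]
      · simp [rA_out Y _ y v hY, bA_N X Y _ y v hY hX]; omega

lemma flag_append (A : Finset L) (u : List L) : ∀ p : Bool, ∃ (c : ℕ) (q : Bool), ∀ v,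
    runsAux A p (u ++ v) = c + runsAux A q v := by
  induction u with
  | nil => intro p; exact ⟨0, p, fun v => by simp⟩
  | cons x u ih =>
    intro p
    by_cases h : x ∈ A
    · obtain ⟨c, q, hcq⟩ := ih true
      exact ⟨(if p then 0 else 1) + c, q, fun v => by
        rw [List.cons_append, rA_in A p x _ h, hcq v]; omega⟩
    · obtain ⟨c, q, hcq⟩ := ih false
      exact ⟨c, q, fun v => by rw [List.cons_append, rA_out A p x _ h, hcq v]⟩

lemma runs_step (A : Finset L) (u : List L) (x : L) (v : List L) :
    runs A (u ++ v) ≤ runs A (u ++ x :: x :: v) := by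
  obtain ⟨c, q, h⟩ := flag_append A u false
  unfold runs
  rw [h, h]
  have h1 := rA_le A v
  by_cases hx : x ∈ A
  · rw [rA_in A q x _ hx, rA_in A true x _ hx]
    cases q <;> simp <;> omega
  · rw [rA_out A q x _ hx, rA_out A false x _ hx]
    cases q <;> omega

lemma runs_red (A : Finset L) (w : List L) : runs A (red w) ≤ runs A w :=
  red_induct (fun a b => runs A b ≤ runs A a) (fun _ => le_refl _)
    (fun _ _ _ h1 h2 => le_trans h2 h1) (fun u x v => runs_step A u x v) w

lemma blk_red (X Y : Finset L) (w : List L) : blk X Y (red w) ≤ blk X Y w := by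
  refine red_induct (fun a b => blk X Y b ≤ blk X Y a) (fun _ => le_refl _)
    (fun _ _ _ h1 h2 => le_trans h2 h1) (fun u x v => ?_) w
  unfold blk
  rw [List.filter_append, List.filter_append]
  by_cases hx : x ∈ X ∨ x ∈ Y
  · rw [List.filter_cons_of_pos (by simpa using hx), List.filter_cons_of_pos (by simpa using hx)]
    exact runs_step Y _ x _
  · rw [List.filter_cons_of_neg (by simpa using hx), List.filter_cons_of_neg (by simpa using hx)]

lemma count_red (i : L) (w : List L) : (red w).count i ≤ w.count i := by
  refine red_induct (fun a b => b.count i ≤ a.count i) (fun _ => le_refl _)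
    (fun _ _ _ h1 h2 => le_trans h2 h1) (fun u x v => ?_) w
  simp only [List.count_append, List.count_cons]
  omega

lemma loss_step (X Y : Finset L) (hd : Disjoint X Y) (x : L) (v : List L) : ∀ (u : List L)
    (p q f : Bool), (p = true → f = false) → (q = true → f = true) →
    bA X Y f (u ++ x :: x :: v) + runsAux X p (u ++ v) + runsAux Y q (u ++ v) ≤
      bA X Y f (u ++ v) + runsAux X p (u ++ x :: x :: v) + runsAux Y q (u ++ x :: x :: v) := by
  intro u
  induction u with
  | nil =>
    intro p q f h1 h2
    have a1 := rA_le X v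
    have a2 := rA_le Y v
    have a3 := bA_le X Y v
    have a4 := joint1 X Y hd v
    have a5 := joint2 X Y v
    simp only [List.nil_append]
    by_cases hX : x ∈ X
    · have hY : x ∉ Y := Finset.disjoint_left.1 hd hX
      rw [bA_X X Y _ x _ hY hX, bA_X X Y _ x _ hY hX, rA_in X _ x _ hX, rA_in X _ x _ hX,
        rA_out Y _ x _ hY, rA_out Y _ x _ hY]
      cases p <;> cases q <;> cases f <;> simp at * <;> omega
    · by_cases hY : x ∈ Y
      · rw [bA_Y X Y _ x _ hY, bA_Y X Y _ x _ hY, rA_out X _ x _ hX, rA_out X _ x _ hX,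
          rA_in Y _ x _ hY, rA_in Y _ x _ hY]
        cases p <;> cases q <;> cases f <;> simp at * <;> omega
      · rw [bA_N X Y _ x _ hY hX, bA_N X Y _ x _ hY hX, rA_out X _ x _ hX, rA_out X _ x _ hX,
          rA_out Y _ x _ hY, rA_out Y _ x _ hY]
        cases p <;> cases q <;> cases f <;> simp at * <;> omega
  | cons y u ih =>
    intro p q f h1 h2
    simp only [List.cons_append]
    by_cases hX : y ∈ X
    · have hY : y ∉ Y := Finset.disjoint_left.1 hd hX
      have := ih true false false (by simp) (by simp)
      rw [bA_X X Y _ y _ hY hX, bA_X X Y _ y _ hY hX, rA_in X _ y _ hX, rA_in X _ y _ hX,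
        rA_out Y _ y _ hY, rA_out Y _ y _ hY]
      omega
    · by_cases hY : y ∈ Y
      · have := ih false true true (by simp) (by simp)
        rw [bA_Y X Y _ y _ hY, bA_Y X Y _ y _ hY, rA_out X _ y _ hX, rA_out X _ y _ hX,
          rA_in Y _ y _ hY, rA_in Y _ y _ hY]
        omega
      · have := ih false false f (by simp) (by simp)
        rw [bA_N X Y _ y _ hY hX, bA_N X Y _ y _ hY hX, rA_out X _ y _ hX, rA_out X _ y _ hX,
          rA_out Y _ y _ hY, rA_out Y _ y _ hY]
        omega

lemma blk_loss (X Y : Finset L) (w : List L) (hd : Disjoint X Y) :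
    blk X Y w + runs X (red w) + runs Y (red w) ≤ blk X Y (red w) + runs X w + runs Y w := by
  refine red_induct (fun a b => blk X Y a + runs X b + runs Y b ≤ blk X Y b + runs X a + runs Y a)
    (fun _ => le_refl _) (fun a b c h1 h2 => ?_) (fun u x v => ?_) w
  · omega
  · exact loss_step X Y hd x v u false false false (by simp) (by simp)

section

variable [Fintype L]

lemma joint3 (X Y : Finset L) (hd : Disjoint X Y) (v : List L) :
    bA X Y false v + runsAux Xᶜ true v ≤ bA X Y true v + runsAux Xᶜ false v := by
  cases v with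
  | nil => simp [bA_nil, rA_nil]
  | cons y v =>
    have h1 := bA_le X Y v
    have h2 := rA_le Xᶜ v
    by_cases hX : y ∈ X
    · have hY : y ∉ Y := Finset.disjoint_left.1 hd hX
      have hXc : y ∉ Xᶜ := by simpa using hX
      simp [rA_out Xᶜ _ y v hXc, bA_X X Y _ y v hY hX]
    · have hXc : y ∈ Xᶜ := by simpa using hX
      by_cases hY : y ∈ Y
      · simp [rA_in Xᶜ _ y v hXc, bA_Y X Y _ y v hY]; omega
      · simp [rA_in Xᶜ _ y v hXc, bA_N X Y _ y v hY hX]; omega

lemma loss_step' (X Y : Finset L) (hd : Disjoint X Y) (x : L) (v : List L) : ∀ (u : List L)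
    (p q f : Bool), (f = true → p = true) → (q = true → f = true) →
    bA X Y f (u ++ x :: x :: v) + runsAux Xᶜ p (u ++ v) + runsAux Y q (u ++ v) ≤
      bA X Y f (u ++ v) + runsAux Xᶜ p (u ++ x :: x :: v) + runsAux Y q (u ++ x :: x :: v) := by
  intro u
  induction u with
  | nil =>
    intro p q f h1 h2
    have a1 := rA_le Xᶜ v
    have a2 := rA_le Y v
    have a3 := bA_le X Y v
    have a4 := joint3 X Y hd v
    have a5 := joint2 X Y v
    simp only [List.nil_append]
    by_cases hX : x ∈ X
    · have hY : x ∉ Y := Finset.disjoint_left.1 hd hX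
      have hXc : x ∉ Xᶜ := by simpa using hX
      rw [bA_X X Y _ x _ hY hX, bA_X X Y _ x _ hY hX, rA_out Xᶜ _ x _ hXc, rA_out Xᶜ _ x _ hXc,
        rA_out Y _ x _ hY, rA_out Y _ x _ hY]
      cases p <;> cases q <;> cases f <;> simp at * <;> omega
    · have hXc : x ∈ Xᶜ := by simpa using hX
      by_cases hY : x ∈ Y
      · rw [bA_Y X Y _ x _ hY, bA_Y X Y _ x _ hY, rA_in Xᶜ _ x _ hXc, rA_in Xᶜ _ x _ hXc,
          rA_in Y _ x _ hY, rA_in Y _ x _ hY]
        cases p <;> cases q <;> cases f <;> simp at * <;> omega
      · rw [bA_N X Y _ x _ hY hX, bA_N X Y _ x _ hY hX, rA_in Xᶜ _ x _ hXc, rA_in Xᶜ _ x _ hXc,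
          rA_out Y _ x _ hY, rA_out Y _ x _ hY]
        cases p <;> cases q <;> cases f <;> simp at * <;> omega
  | cons y u ih =>
    intro p q f h1 h2
    simp only [List.cons_append]
    by_cases hX : y ∈ X
    · have hY : y ∉ Y := Finset.disjoint_left.1 hd hX
      have hXc : y ∉ Xᶜ := by simpa using hX
      have := ih false false false (by simp) (by simp)
      rw [bA_X X Y _ y _ hY hX, bA_X X Y _ y _ hY hX, rA_out Xᶜ _ y _ hXc, rA_out Xᶜ _ y _ hXc,
        rA_out Y _ y _ hY, rA_out Y _ y _ hY]
      omega
    · have hXc : y ∈ Xᶜ := by simpa using hX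
      by_cases hY : y ∈ Y
      · have := ih true true true (by simp) (by simp)
        rw [bA_Y X Y _ y _ hY, bA_Y X Y _ y _ hY, rA_in Xᶜ _ y _ hXc, rA_in Xᶜ _ y _ hXc,
          rA_in Y _ y _ hY, rA_in Y _ y _ hY]
        omega
      · have := ih true false f (by simp) (by simp)
        rw [bA_N X Y _ y _ hY hX, bA_N X Y _ y _ hY hX, rA_in Xᶜ _ y _ hXc, rA_in Xᶜ _ y _ hXc,
          rA_out Y _ y _ hY, rA_out Y _ y _ hY]
        omega

lemma blk_loss' (X Y : Finset L) (w : List L) (hd : Disjoint X Y) :
    blk X Y w + runs Xᶜ (red w) + runs Y (red w) ≤ blk X Y (red w) + runs Xᶜ w + runs Y w := by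
  refine red_induct (fun a b => blk X Y a + runs Xᶜ b + runs Y b ≤
    blk X Y b + runs Xᶜ a + runs Y a)
    (fun _ => le_refl _) (fun a b c h1 h2 => ?_) (fun u x v => ?_) w
  · omega
  · exact loss_step' X Y hd x v u false false false (by simp) (by simp)

lemma compl_aux (A : Finset L) (w : List L) :
    runsAux Aᶜ true w ≤ runsAux A false w ∧ runsAux Aᶜ false w ≤ runsAux A true w + 1 := by
  induction w with
  | nil => simp [rA_nil]
  | cons y w ih =>
    by_cases hA : y ∈ A
    · have hc : y ∉ Aᶜ := by simpa using hA
      rw [rA_in A _ y _ hA, rA_in A _ y _ hA, rA_out Aᶜ _ y _ hc, rA_out Aᶜ _ y _ hc]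
      simp; omega
    · have hc : y ∈ Aᶜ := by simpa using hA
      rw [rA_out A _ y _ hA, rA_out A _ y _ hA, rA_in Aᶜ _ y _ hc, rA_in Aᶜ _ y _ hc]
      simp; omega

lemma runs_compl (A : Finset L) (w : List L) : runs Aᶜ w ≤ runs A w + 1 := by
  have h1 := compl_aux A w
  have h2 := rA_le A w
  unfold runs
  omega

lemma blk_compl (A : Finset L) (w : List L) : blk Aᶜ A w = runs A w := by
  unfold blk
  rw [List.filter_eq_self.2]
  intro x _
  by_cases h : x ∈ A <;> simp [h]

lemma glue_aux (X Y Z : Finset L) (hX : X ⊆ Yᶜ) (hZ : Z ⊆ Y) : ∀ (w : List L)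
    (f1 f2 f3 q : Bool), (f2 = true → f3 = true) → (f2 = true → q = true) →
    (f3 = true → f1 = true) → (q = true → f1 = true) →
    bA X Y f1 w + bA Yᶜ Z f2 w ≤ bA X Z f3 w + runsAux Y q w +
      (if f2 = false ∧ f3 = true ∧ q = true then 1 else 0) := by
  intro w
  induction w with
  | nil => intro f1 f2 f3 q _ _ _ _; simp [bA_nil]
  | cons y w ih =>
    intro f1 f2 f3 q h1 h2 h3 h4
    by_cases hy : y ∈ Y
    · have hyc : y ∉ Yᶜ := by simpa using hy
      have hyX : y ∉ X := fun h => hyc (hX h)
      by_cases hyZ : y ∈ Z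
      · have := ih true true true true (by simp) (by simp) (by simp) (by simp)
        rw [bA_Y X Y _ y _ hy, bA_Y Yᶜ Z _ y _ hyZ, bA_Y X Z _ y _ hyZ, rA_in Y _ y _ hy]
        cases f1 <;> cases f2 <;> cases f3 <;> cases q <;> simp at * <;> omega
      · have := ih true f2 f3 true (by simpa using h1) (by simp) (by simp) (by simp)
        rw [bA_Y X Y _ y _ hy, bA_N Yᶜ Z _ y _ hyZ hyc, bA_N X Z _ y _ hyZ hyX, rA_in Y _ y _ hy]
        cases f1 <;> cases f2 <;> cases f3 <;> cases q <;> simp at * <;> omega
    · have hyc : y ∈ Yᶜ := by simpa using hy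
      have hyZ : y ∉ Z := fun h => hy (hZ h)
      by_cases hyX : y ∈ X
      · have := ih false false false false (by simp) (by simp) (by simp) (by simp)
        rw [bA_X X Y _ y _ hy hyX, bA_X Yᶜ Z _ y _ hyZ hyc, bA_X X Z _ y _ hyZ hyX,
          rA_out Y _ y _ hy]
        cases f1 <;> cases f2 <;> cases f3 <;> cases q <;> simp at * <;> omega
      · have := ih f1 false f3 false (by simp) (by simp) (by simpa using h3) (by simp)
        rw [bA_N X Y _ y _ hy hyX, bA_X Yᶜ Z _ y _ hyZ hyc, bA_N X Z _ y _ hyZ hyX,
          rA_out Y _ y _ hy]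
        cases f1 <;> cases f2 <;> cases f3 <;> cases q <;> simp at * <;> omega

lemma blk_glue (X Y Z : Finset L) (w : List L) (hX : X ⊆ Yᶜ) (hZ : Z ⊆ Y) :
    blk X Y w + blk Yᶜ Z w ≤ blk X Z w + runs Y w := by
  have := glue_aux X Y Z hX hZ w false false false false (by simp) (by simp) (by simp) (by simp)
  simpa [bA, blk, runs] using this

end

lemma symm_aux (X Y : Finset L) (hd : Disjoint X Y) (w : List L) :
    bA X Y true w ≤ bA Y X false w ∧ bA X Y false w ≤ bA Y X true w + 1 ∧
      bA X Y false w ≤ bA Y X false w + 1 := by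
  induction w with
  | nil => simp [bA_nil]
  | cons y w ih =>
    by_cases hX : y ∈ X
    · have hY : y ∉ Y := Finset.disjoint_left.1 hd hX
      simp only [bA_X X Y _ y _ hY hX, bA_Y Y X _ y _ hX]
      simp; omega
    · by_cases hY : y ∈ Y
      · simp only [bA_Y X Y _ y _ hY, bA_X Y X _ y _ hX hY]
        simp; omega
      · simp only [bA_N X Y _ y _ hY hX, bA_N Y X _ y _ hX hY]
        omega

lemma blk_symm (X Y : Finset L) (w : List L) (hd : Disjoint X Y) :
    blk X Y w ≤ blk Y X w + 1 := (symm_aux X Y hd w).2.2

lemma single_aux (i : L) : ∀ (w : List L) (p : Bool), w.IsChain (· ≠ ·) →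
    (p = true → ∀ y t, w = y :: t → y ≠ i) → runsAux {i} p w = w.count i := by
  intro w
  induction w with
  | nil => intro p _ _; simp [rA_nil]
  | cons y w ih =>
    intro p h1 h2
    by_cases hy : y = i
    · subst hy
      have hp : p = false := by
        cases p with
        | false => rfl
        | true => exact absurd rfl (h2 rfl y w rfl)
      subst hp
      rw [rA_in {y} _ y _ (by simp), ih true h1.tail, List.count_cons_self]
      · simp; omega
      · intro _ z t hz
        subst hz
        rw [List.isChain_cons_cons] at h1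
        exact Ne.symm h1.1
    · rw [rA_out {i} _ y _ (by simpa using hy), ih false h1.tail (by simp),
        List.count_cons_of_ne hy]

end B1pAux

open B1pAux in
/-- Block B1p. -/
theorem b1p (L : Type) [Fintype L] [DecidableEq L] : WordBasics L where
  red_chain := red_chain
  red_id := red_id
  red_cancel := red_cancel
  red_append u v := by rw [red_append_right, red_append_left]
  count_red := count_red
  rr_single i w := by
    unfold rr runs
    exact single_aux i (red w) false (B1pAux.red_chain w) (by simp)
  runs_red := runs_red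
  blk_red := blk_red
  blk_loss := blk_loss
  blk_loss' := blk_loss'
  runs_compl := runs_compl
  blk_symm := blk_symm
  blk_compl := blk_compl
  blk_glue := blk_glue

end R4
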