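import Pool.Agent.Work.MP_e3f5d9_al.Interface

/-!
# R4, tools for the blocks B2a, B2b, B2c, B2d

How one letter of the parent word changes the flagged counters of the two children.
-/

set_option autoImplicit false
set_option linter.unusedSectionVars false

open Finset

namespace R4.B2Aux

variable {L : Type} [Fintype L] [DecidableEq L]

/-- One if the flag is down. -/
def nu (p : Bool) : ℕ := if p then 0 else 1

/-- The number of `Y`-blocks with a flag. -/
def blkAux (X Y : Finset L) (p : Bool) (w : List L) : ℕ :=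
  runsAux Y p (w.filter fun x => x ∈ X ∨ x ∈ Y)

theorem blk_eq (X Y : Finset L) (w : List L) : blk X Y w = blkAux X Y false w := rfl

theorem runs_eq (A : Finset L) (w : List L) : runs A w = runsAux A false w := rfl

theorem runsAux_in {A : Finset L} {x : L} (h : x ∈ A) (p : Bool) (w : List L) :
    runsAux A p (x :: w) = nu p + runsAux A true w := by
  simp [runsAux, h, nu]

theorem runsAux_out {A : Finset L} {x : L} (h : x ∉ A) (p : Bool) (w : List L) :
    runsAux A p (x :: w) = runsAux A false w := by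
  simp [runsAux, h]

theorem blkAux_in {X Y : Finset L} {x : L} (h : x ∈ Y) (p : Bool) (w : List L) :
    blkAux X Y p (x :: w) = nu p + blkAux X Y true w := by
  unfold blkAux
  rw [List.filter_cons_of_pos (by simp [h]), runsAux_in h]

theorem blkAux_left {X Y : Finset L} {x : L} (h : x ∈ X) (h' : x ∉ Y) (p : Bool) (w : List L) :
    blkAux X Y p (x :: w) = blkAux X Y false w := by
  unfold blkAux
  rw [List.filter_cons_of_pos (by simp [h]), runsAux_out h']

theorem blkAux_out {X Y : Finset L} {x : L} (h : x ∉ X) (h' : x ∉ Y) (p : Bool) (w : List L) :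
    blkAux X Y p (x :: w) = blkAux X Y p w := by
  unfold blkAux
  rw [List.filter_cons_of_neg (by simp [h, h'])]

variable (D : KS L)

theorem pre_some {b : Bool} {j i : L} (h : D.pre b j = some i) : D.nxt i = j ∧ D.side i = b := by
  unfold KS.pre at h
  split_ifs at h with h'
  cases h
  exact h'.choose_spec

theorem sec_o (b : Bool) (w : List L) : D.sec b (D.o :: w) = D.sec (!b) w := by
  simp [KS.sec]

theorem sec_some {b : Bool} {j i : L} (hj : j ≠ D.o) (h : D.pre b j = some i) (w : List L) :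
    D.sec b (j :: w) = i :: D.sec b w := by
  simp [KS.sec, hj, h]

theorem sec_none {b : Bool} {j : L} (hj : j ≠ D.o) (h : D.pre b j = none) (w : List L) :
    D.sec b (j :: w) = D.sec b w := by
  simp [KS.sec, hj, h]

/-- Does the child on the side `b` read a letter when the parent reads `j`? -/
noncomputable def ex (b : Bool) (j : L) : Bool := (D.pre b j).isSome

theorem mem_lp {s : Bool} {A : Finset L} {i j : L} (h : D.pre s j = some i) :
    i ∈ D.lp s A ↔ j ∈ A := by
  obtain ⟨h1, h2⟩ := pre_some D h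
  simp [KS.lp, h1, h2]

theorem not_mem_lp {s : Bool} {A : Finset L} {i j : L} (h : D.pre (!s) j = some i) :
    i ∉ D.lp s A := by
  obtain ⟨h1, h2⟩ := pre_some D h
  simp [KS.lp, h2]

/-! ### The counters of the child on the side `s` -/

theorem cr_in {s : Bool} {A : Finset L} {j : L} (hj : j ≠ D.o) (hA : j ∈ A) (p : Bool)
    (w : List L) : runsAux (D.lp s A) p (D.sec s (j :: w)) =
      (if ex D s j then nu p else 0) + runsAux (D.lp s A) (ex D s j || p) (D.sec s w) := by
  rcases h : D.pre s j with _ | i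
  · simp [sec_none D hj h, ex, h]
  · simp [sec_some D hj h, ex, h, runsAux_in ((mem_lp D h).2 hA)]

theorem cr_out {s : Bool} {A : Finset L} {j : L} (hj : j ≠ D.o) (hA : j ∉ A) (p : Bool)
    (w : List L) : runsAux (D.lp s A) p (D.sec s (j :: w)) =
      runsAux (D.lp s A) (!ex D s j && p) (D.sec s w) := by
  rcases h : D.pre s j with _ | i
  · simp [sec_none D hj h, ex, h]
  · simp [sec_some D hj h, ex, h, runsAux_out (mt (mem_lp D h).1 hA)]

theorem cr_opp {s : Bool} {A : Finset L} {j : L} (hj : j ≠ D.o) (p : Bool)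
    (w : List L) : runsAux (D.lp s A) p (D.sec (!s) (j :: w)) =
      runsAux (D.lp s A) (!ex D (!s) j && p) (D.sec (!s) w) := by
  rcases h : D.pre (!s) j with _ | i
  · simp [sec_none D hj h, ex, h]
  · simp [sec_some D hj h, ex, h, runsAux_out (not_mem_lp D h)]

theorem cb_in {s : Bool} {X Y : Finset L} {j : L} (hj : j ≠ D.o) (hY : j ∈ Y) (p : Bool)
    (w : List L) : blkAux X (D.lp s Y) p (D.sec s (j :: w)) =
      (if ex D s j then nu p else 0) + blkAux X (D.lp s Y) (ex D s j || p) (D.sec s w) := by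
  rcases h : D.pre s j with _ | i
  · simp [sec_none D hj h, ex, h]
  · simp [sec_some D hj h, ex, h, blkAux_in ((mem_lp D h).2 hY)]

theorem cb_left {s : Bool} {X Y : Finset L} {j : L} (hj : j ≠ D.o) (hX : j ∈ X) (hY : j ∉ Y)
    (p : Bool) (w : List L) : blkAux (D.lp s X) (D.lp s Y) p (D.sec s (j :: w)) =
      blkAux (D.lp s X) (D.lp s Y) (!ex D s j && p) (D.sec s w) := by
  rcases h : D.pre s j with _ | i
  · simp [sec_none D hj h, ex, h]
  · simp [sec_some D hj h, ex, h, blkAux_left ((mem_lp D h).2 hX) (mt (mem_lp D h).1 hY)]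

theorem cb_out {s : Bool} {X Y : Finset L} {j : L} (hj : j ≠ D.o) (hX : j ∉ X) (hY : j ∉ Y)
    (p : Bool) (w : List L) : blkAux (D.lp s X) (D.lp s Y) p (D.sec s (j :: w)) =
      blkAux (D.lp s X) (D.lp s Y) p (D.sec s w) := by
  rcases h : D.pre s j with _ | i
  · simp [sec_none D hj h]
  · simp [sec_some D hj h, blkAux_out (mt (mem_lp D h).1 hX) (mt (mem_lp D h).1 hY)]

theorem cb_opp {s : Bool} {X Y : Finset L} {j : L} (hj : j ≠ D.o)
    (p : Bool) (w : List L) : blkAux (D.lp s X) (D.lp s Y) p (D.sec (!s) (j :: w)) =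
      blkAux (D.lp s X) (D.lp s Y) p (D.sec (!s) w) := by
  rcases h : D.pre (!s) j with _ | i
  · simp [sec_none D hj h]
  · simp [sec_some D hj h, blkAux_out (not_mem_lp D h) (not_mem_lp D h)]

/-! ### The same for the complement of `lp s Yᶜ` -/

theorem cc_left {s : Bool} {X Y : Finset L} {j : L} (hj : j ≠ D.o) (hX : j ∈ X) (hY : j ∉ Y)
    (p : Bool) (w : List L) : blkAux (D.lp s Xᶜ)ᶜ (D.lp s Y) p (D.sec s (j :: w)) =
      blkAux (D.lp s Xᶜ)ᶜ (D.lp s Y) (!ex D s j && p) (D.sec s w) := by
  rcases h : D.pre s j with _ | i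
  · simp [sec_none D hj h, ex, h]
  · have h1 : i ∈ (D.lp s Xᶜ)ᶜ := by
      rw [mem_compl, mem_lp D h, mem_compl, not_not]; exact hX
    simp [sec_some D hj h, ex, h, blkAux_left h1 (mt (mem_lp D h).1 hY)]

theorem cc_out {s : Bool} {X Y : Finset L} {j : L} (hj : j ≠ D.o) (hX : j ∉ X) (hY : j ∉ Y)
    (p : Bool) (w : List L) : blkAux (D.lp s Xᶜ)ᶜ (D.lp s Y) p (D.sec s (j :: w)) =
      blkAux (D.lp s Xᶜ)ᶜ (D.lp s Y) p (D.sec s w) := by
  rcases h : D.pre s j with _ | i
  · simp [sec_none D hj h]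
  · have h1 : i ∉ (D.lp s Xᶜ)ᶜ := by
      rw [mem_compl, not_not, mem_lp D h, mem_compl]; exact hX
    simp [sec_some D hj h, blkAux_out h1 (mt (mem_lp D h).1 hY)]

theorem cc_opp {s : Bool} {X Y : Finset L} {j : L} (hj : j ≠ D.o)
    (p : Bool) (w : List L) : blkAux (D.lp s Xᶜ)ᶜ (D.lp s Y) p (D.sec (!s) (j :: w)) =
      blkAux (D.lp s Xᶜ)ᶜ (D.lp s Y) (!ex D (!s) j && p) (D.sec (!s) w) := by
  rcases h : D.pre (!s) j with _ | i
  · simp [sec_none D hj h, ex, h]
  · have h1 : i ∈ (D.lp s Xᶜ)ᶜ := by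
      rw [mem_compl]; exact not_mem_lp D h
    simp [sec_some D hj h, ex, h, blkAux_left h1 (not_mem_lp D h)]

/-- The sum over the two children does not depend on the name of the sides. -/
theorem sum_sides (F : List L → ℕ) (s : Bool) (w : List L) :
    F (D.sec false w) + F (D.sec true w) = F (D.sec s w) + F (D.sec (!s) w) := by
  cases s
  · rfl
  · exact add_comm _ _

end R4.B2Aux
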