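import Pool.Agent.Work.MP_e3f5d9_al.B2Aux

/-!
# R4, block B2a: the crossing law for one step
-/

set_option autoImplicit false
set_option linter.unusedSectionVars false

open Finset

namespace R4

namespace B2aAux

open B2Aux

variable {L : Type} [Fintype L] [DecidableEq L] (D : KS L)

/-- The potential. -/
def phi (p x : Bool) : ℕ := if p && !x then 1 else 0

theorem phi_o : ∀ p x u : Bool, phi false u ≤ phi p x := by decide

theorem phi_in : ∀ e p x : Bool,
    (if e then nu x else 0) + phi true (e || x) ≤ nu p + phi p x := by decide

theorem phi_out : ∀ e p x : Bool, phi false (!e && x) ≤ phi p x := by decide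

theorem main (s : Bool) (A : Finset L) (hA : D.o ∉ A) (w : List L) : ∀ p x u : Bool,
    runsAux (D.lp s A) x (D.sec s w) + runsAux (D.lp s A) u (D.sec (!s) w)
      ≤ runsAux A p w + phi p x := by
  induction w with
  | nil => intro p x u; simp [KS.sec, runsAux]
  | cons j w ih =>
    intro p x u
    by_cases hj : j = D.o
    · subst hj
      rw [sec_o, sec_o, Bool.not_not, runsAux_out hA]
      have := ih false u x
      have := phi_o p x u
      omega
    by_cases hA' : j ∈ A
    · rw [cr_in D hj hA', cr_opp D hj, runsAux_in hA']
      have := ih true (ex D s j || x) (!ex D (!s) j && u)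
      have := phi_in (ex D s j) p x
      omega
    · rw [cr_out D hj hA', cr_opp D hj, runsAux_out hA']
      have := ih false (!ex D s j && x) (!ex D (!s) j && u)
      have := phi_out (ex D s j) p x
      omega

end B2aAux

open B2Aux in
/-- B2a. -/
theorem b2a {L : Type} [Fintype L] [DecidableEq L] (D : KS L) : IneqCross D := by
  intro s A w hA
  have h := B2aAux.main D s A hA w false false false
  rw [sum_sides D (runs (D.lp s A)) s w]
  simpa [runs_eq, B2aAux.phi] using h

end R4
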