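import Pool.Agent.Work.MP_e3f5d9_al.B2Aux

/-!
# R4, block B2b: the image rule for one step
-/

set_option autoImplicit false
set_option linter.unusedSectionVars false

open Finset

namespace R4

namespace B2bAux

open B2Aux

variable {L : Type} [Fintype L] [DecidableEq L] (D : KS L)

/-- The potential. -/
def phi (p x : Bool) : ℕ := if p && !x then 1 else 0

theorem phi_o : ∀ p x u : Bool, phi false u ≤ phi p x := by decide

theorem phi_left : ∀ e p x : Bool, phi false (!e && x) ≤ phi p x := by decide

theorem phi_in : ∀ e p x : Bool,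
    (if e then nu x else 0) + phi true (e || x) ≤ nu p + phi p x := by decide

theorem main (s : Bool) (Y Y' : Finset L) (hY : D.o ∈ Y) (hd : Disjoint Y Y') (w : List L) :
    ∀ p x u : Bool,
    blkAux (D.lp s Yᶜ)ᶜ (D.lp s Y') x (D.sec s w) +
      blkAux (D.lp s Yᶜ)ᶜ (D.lp s Y') u (D.sec (!s) w)
      ≤ blkAux Y Y' p w + phi p x := by
  have hY' : D.o ∉ Y' := Finset.disjoint_left.1 hd hY
  induction w with
  | nil => intro p x u; simp [KS.sec, blkAux, runsAux]
  | cons j w ih =>
    intro p x u
    by_cases hj : j = D.o
    · subst hj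
      rw [sec_o, sec_o, Bool.not_not, blkAux_left hY hY']
      have := ih false u x
      have := phi_o p x u
      omega
    by_cases h1 : j ∈ Y
    · have h2 : j ∉ Y' := Finset.disjoint_left.1 hd h1
      rw [cc_left D hj h1 h2, cc_opp D hj, blkAux_left h1 h2]
      have := ih false (!ex D s j && x) (!ex D (!s) j && u)
      have := phi_left (ex D s j) p x
      omega
    by_cases h2 : j ∈ Y'
    · rw [cb_in D hj h2, cc_opp D hj, blkAux_in h2]
      have := ih true (ex D s j || x) (!ex D (!s) j && u)
      have := phi_in (ex D s j) p x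
      omega
    · rw [cc_out D hj h1 h2, cc_opp D hj, blkAux_out h1 h2]
      exact ih p x (!ex D (!s) j && u)

end B2bAux

open B2Aux in
/-- B2b. -/
theorem b2b {L : Type} [Fintype L] [DecidableEq L] (D : KS L) : IneqImage D := by
  intro s Y Y' w hY hd
  have h := B2bAux.main D s Y Y' hY hd w false false false
  rw [sum_sides D (blk (D.lp s Yᶜ)ᶜ (D.lp s Y')) s w]
  simpa [blk_eq, B2bAux.phi] using h

end R4
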