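import Pool.Agent.Work.MP_e3f5d9_al.B2Aux

/-!
# R4, block B2c: the lift rule for one step

The flags of the parent are `p` (for `blk Y Y'`), `q` (for `runs Yᶜ`) and `r` (for `runs Y'`), the
flags of the child on the side `s` are `a`, `b`, `c` (for `blk X X'`, `runs Xᶜ`, `runs X'`) and
those of the other child are `a'`, `b'`, `c'`.
-/

set_option autoImplicit false
set_option linter.unusedSectionVars false

open Finset

namespace R4

namespace B2cAux

open B2Aux

variable {L : Type} [Fintype L] [DecidableEq L] (D : KS L)

/-- The possible flags. -/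
def ok (p q r : Bool) : Bool := (p || !r) && (q || !p)

/-- The potential. -/
def phi (p q r a b c : Bool) : ℕ :=
  if q && !((b && !a) || (p && !r && a) || (r && c)) then 1 else 0

theorem phi_o : ∀ p q r a b c a' b' c' : Bool,
    phi false false false a' b' c' ≤ phi p q r a b c := by decide

theorem phi_left : ∀ e p q r a b c : Bool,
    phi false false false (!e && a) (!e && b) (!e && c) ≤ phi p q r a b c := by decide

theorem ok_left : ∀ e a b c : Bool, ok a b c → ok (!e && a) (!e && b) (!e && c) := by decide

theorem phi_in : ∀ e p q r a b c : Bool, ok p q r → ok a b c →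
    nu p + (if e then nu b else 0) + (if e then nu c else 0) +
      phi true true true (e || a) (e || b) (e || c)
      ≤ (if e then nu a else 0) + nu q + nu r + phi p q r a b c := by decide

theorem ok_in : ∀ e a b c : Bool, ok a b c → ok (e || a) (e || b) (e || c) := by decide

theorem phi_out : ∀ e p q r a b c : Bool, ok p q r → ok a b c →
    (if e then nu b else 0) + phi p true false a (e || b) (!e && c)
      ≤ nu q + phi p q r a b c := by decide

theorem ok_out : ∀ e a b c : Bool, ok a b c → ok a (e || b) (!e && c) := by decide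

theorem ok_out' : ∀ p q r : Bool, ok p q r → ok p true false := by decide

theorem main (s : Bool) (Y Y' : Finset L) (hY : D.o ∈ Y) (hd : Disjoint Y Y') (w : List L) :
    ∀ p q r a b c a' b' c' : Bool, ok p q r → ok a b c → ok a' b' c' →
    blkAux Y Y' p w
      + (runsAux (D.lp s Yᶜ) b (D.sec s w) + runsAux (D.lp s Yᶜ) b' (D.sec (!s) w))
      + (runsAux (D.lp s Y') c (D.sec s w) + runsAux (D.lp s Y') c' (D.sec (!s) w))
    ≤ (blkAux (D.lp s Yᶜ)ᶜ (D.lp s Y') a (D.sec s w)
      + blkAux (D.lp s Yᶜ)ᶜ (D.lp s Y') a' (D.sec (!s) w))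
      + runsAux Yᶜ q w + runsAux Y' r w + phi p q r a b c := by
  have hY' : D.o ∉ Y' := Finset.disjoint_left.1 hd hY
  have hYc : D.o ∉ Yᶜ := by simpa using hY
  induction w with
  | nil => intro p q r a b c a' b' c' _ _ _; simp [KS.sec, blkAux, runsAux]
  | cons j w ih =>
    intro p q r a b c a' b' c' h1 h2 h3
    by_cases hj : j = D.o
    · subst hj
      simp only [sec_o, Bool.not_not, blkAux_left hY hY', runsAux_out hY', runsAux_out hYc]
      have := ih false false false a' b' c' a b c (by decide) h3 h2
      have := phi_o p q r a b c a' b' c'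
      omega
    by_cases hjY : j ∈ Y
    · have hjY' : j ∉ Y' := Finset.disjoint_left.1 hd hjY
      have hjc : j ∉ Yᶜ := by simpa using hjY
      simp only [cc_left D hj hjY hjY', cc_opp D hj, cr_out D hj hjY', cr_out D hj hjc,
        cr_opp D hj, blkAux_left hjY hjY', runsAux_out hjY', runsAux_out hjc]
      have := ih false false false (!ex D s j && a) (!ex D s j && b) (!ex D s j && c)
        (!ex D (!s) j && a') (!ex D (!s) j && b') (!ex D (!s) j && c') (by decide)
        (ok_left _ _ _ _ h2) (ok_left _ _ _ _ h3)
      have := phi_left (ex D s j) p q r a b c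
      omega
    have hjc : j ∈ Yᶜ := by simpa using hjY
    by_cases hjY' : j ∈ Y'
    · simp only [cb_in D hj hjY', cc_opp D hj, cr_in D hj hjY', cr_in D hj hjc,
        cr_opp D hj, blkAux_in hjY', runsAux_in hjY', runsAux_in hjc]
      have := ih true true true (ex D s j || a) (ex D s j || b) (ex D s j || c)
        (!ex D (!s) j && a') (!ex D (!s) j && b') (!ex D (!s) j && c') (by decide)
        (ok_in _ _ _ _ h2) (ok_left _ _ _ _ h3)
      have := phi_in (ex D s j) p q r a b c h1 h2
      omega
    · simp only [cc_out D hj hjY hjY', cc_opp D hj, cr_out D hj hjY', cr_in D hj hjc,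
        cr_opp D hj, blkAux_out hjY hjY', runsAux_out hjY', runsAux_in hjc]
      have := ih p true false a (ex D s j || b) (!ex D s j && c)
        (!ex D (!s) j && a') (!ex D (!s) j && b') (!ex D (!s) j && c') (ok_out' _ _ _ h1)
        (ok_out _ _ _ _ h2) (ok_left _ _ _ _ h3)
      have := phi_out (ex D s j) p q r a b c h1 h2
      omega

end B2cAux

open B2Aux in
/-- B2c. -/
theorem b2c {L : Type} [Fintype L] [DecidableEq L] (D : KS L) : IneqLift D := by
  intro s Y Y' w hY hd
  have h := B2cAux.main D s Y Y' hY hd w false false false false false false false false false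
    (by decide) (by decide) (by decide)
  rw [sum_sides D (blk (D.lp s Yᶜ)ᶜ (D.lp s Y')) s w, sum_sides D (runs (D.lp s Yᶜ)) s w,
    sum_sides D (runs (D.lp s Y')) s w]
  simpa [blk_eq, runs_eq, B2cAux.phi] using h

end R4
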