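import Pool.Agent.Work.MP_e3f5d9_al.B2Aux

/-!
# R4, block B2d: the type B rule for one step

The flags of the parent are `f` (for `blk {o} Y`), `f'` (for `blk {o} Y'`), `g` (for `blk Y Y'`),
`h` (for `runs Y`) and `h'` (for `runs Y'`); the flags of the child on the side `s` are `x`, `x'`
(for `runs (lp s Y)` and `runs (lp s Y')`) and `y` (for `blk (lp s Y) (lp s Y')`), those of the
other child are `u`, `u'`, `v`.

The inequality is proved for every word, reduced or not, and with the constant `0` in place of
`4`.
-/

set_option autoImplicit false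
set_option linter.unusedSectionVars false

open Finset

namespace R4

namespace B2dAux

open B2Aux

variable {L : Type} [Fintype L] [DecidableEq L] (D : KS L)

/-- The possible flags of the parent. -/
def okp (f f' g h h' : Bool) : Bool :=
  (!h || (f && !g)) && (!h' || (f' && g)) && !(h && h') && !(f' && !f && !g) && !(f && !f' && g)

/-- The possible flags of a child. -/
def okc (x x' y : Bool) : Bool := (!x || (!x' && !y)) && (!x' || y)

/-- The potential. -/
def phi (f f' g h h' x x' y v : Bool) : ℕ :=
  (if f' then 0 else 3) +
  (if h then 2 * nu x else if h' then (if x' then 0 else if y then 2 else 1)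
    else if g then 0 else if y then 1 else 0) +
  (if (xor f (xor f' g)) then 0 else if v then 1 else 0)

theorem phi_o : ∀ f f' g h h' x x' y u u' v : Bool, okp f f' g h h' → okc x x' y → okc u u' v →
    okp false false g false false ∧
    phi false false g false false u u' v y ≤ 3 + phi f f' g h h' x x' y v := by decide +kernel

theorem phi_Y : ∀ e f f' g h h' x x' y v : Bool, okp f f' g h h' → okc x x' y →
    okp true f' false true false ∧
    4 * nu f + 2 * (if e then nu x else 0) +
      phi true f' false true false (e || x) (!e && x') (!e && y) v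
      ≤ 6 * nu h + phi f f' g h h' x x' y v := by decide +kernel

theorem ok_Y : ∀ e x x' y : Bool, okc x x' y → okc (e || x) (!e && x') (!e && y) := by decide

theorem phi_Z : ∀ e f f' g h h' x x' y v : Bool, okp f f' g h h' → okc x x' y →
    okp f true true false true ∧
    4 * nu f' + 4 * nu g + 2 * (if e then nu x' else 0) +
      phi f true true false true (!e && x) (e || x') (e || y) v
      ≤ (if e then nu y else 0) + 6 * nu h' + phi f f' g h h' x x' y v := by decide +kernel

theorem ok_Z : ∀ e x x' y : Bool, okc x x' y → okc (!e && x) (e || x') (e || y) := by decide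

theorem phi_W : ∀ e f f' g h h' x x' y v : Bool, okp f f' g h h' → okc x x' y →
    okp f f' g false false ∧
    phi f f' g false false (!e && x) (!e && x') y v ≤ phi f f' g h h' x x' y v := by
  decide +kernel

theorem ok_W : ∀ e x x' y : Bool, okc x x' y → okc (!e && x) (!e && x') y := by decide

theorem main (s : Bool) (Y Y' : Finset L) (hY : D.o ∉ Y) (hY' : D.o ∉ Y') (hd : Disjoint Y Y')
    (w : List L) : ∀ f f' g h h' x x' y u u' v : Bool,
      okp f f' g h h' → okc x x' y → okc u u' v →
    4 * blkAux {D.o} Y f w + 4 * blkAux {D.o} Y' f' w + 4 * blkAux Y Y' g w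
      + 2 * (runsAux (D.lp s Y) x (D.sec s w) + runsAux (D.lp s Y) u (D.sec (!s) w))
      + 2 * (runsAux (D.lp s Y') x' (D.sec s w) + runsAux (D.lp s Y') u' (D.sec (!s) w))
    ≤ (blkAux (D.lp s Y) (D.lp s Y') y (D.sec s w)
      + blkAux (D.lp s Y) (D.lp s Y') v (D.sec (!s) w))
      + 3 * w.count D.o + 6 * runsAux Y h w + 6 * runsAux Y' h' w
      + phi f f' g h h' x x' y v := by
  have ho : D.o ∈ ({D.o} : Finset L) := mem_singleton_self _
  induction w with
  | nil => intro f f' g h h' x x' y u u' v _ _ _; simp [KS.sec, blkAux, runsAux]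
  | cons j w ih =>
    intro f f' g h h' x x' y u u' v h1 h2 h3
    by_cases hj : j = D.o
    · subst hj
      simp only [sec_o, Bool.not_not, blkAux_left ho hY, blkAux_left ho hY', blkAux_out hY hY',
        runsAux_out hY, runsAux_out hY', List.count_cons_self]
      obtain ⟨k1, k2⟩ := phi_o f f' g h h' x x' y u u' v h1 h2 h3
      have := ih false false g false false u u' v x x' y k1 h3 h2
      omega
    have hjo : j ∉ ({D.o} : Finset L) := by simpa using hj
    have hcount : (j :: w).count D.o = w.count D.o := List.count_cons_of_ne hj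
    by_cases hjY : j ∈ Y
    · have hjY' : j ∉ Y' := Finset.disjoint_left.1 hd hjY
      simp only [cb_left D hj hjY hjY', cb_opp D hj, cr_in D hj hjY, cr_out D hj hjY',
        cr_opp D hj, blkAux_in hjY, blkAux_out hjo hjY', blkAux_left hjY hjY', runsAux_in hjY,
        runsAux_out hjY', hcount]
      obtain ⟨k1, k2⟩ := phi_Y (ex D s j) f f' g h h' x x' y v h1 h2
      have := ih true f' false true false (ex D s j || x) (!ex D s j && x') (!ex D s j && y)
        (!ex D (!s) j && u) (!ex D (!s) j && u') v k1 (ok_Y _ _ _ _ h2) (ok_W _ _ _ _ h3)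
      omega
    by_cases hjY' : j ∈ Y'
    · simp only [cb_in D hj hjY', cb_opp D hj, cr_in D hj hjY', cr_out D hj hjY,
        cr_opp D hj, blkAux_in hjY', blkAux_out hjo hjY, runsAux_in hjY',
        runsAux_out hjY, hcount]
      obtain ⟨k1, k2⟩ := phi_Z (ex D s j) f f' g h h' x x' y v h1 h2
      have := ih f true true false true (!ex D s j && x) (ex D s j || x') (ex D s j || y)
        (!ex D (!s) j && u) (!ex D (!s) j && u') v k1 (ok_Z _ _ _ _ h2) (ok_W _ _ _ _ h3)
      omega
    · simp only [cb_out D hj hjY hjY', cb_opp D hj, cr_out D hj hjY', cr_out D hj hjY,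
        cr_opp D hj, blkAux_out hjY hjY', blkAux_out hjo hjY, blkAux_out hjo hjY',
        runsAux_out hjY', runsAux_out hjY, hcount]
      obtain ⟨k1, k2⟩ := phi_W (ex D s j) f f' g h h' x x' y v h1 h2
      have := ih f f' g false false (!ex D s j && x) (!ex D s j && x') y
        (!ex D (!s) j && u) (!ex D (!s) j && u') v k1 (ok_W _ _ _ _ h2) (ok_W _ _ _ _ h3)
      omega

end B2dAux

open B2Aux in
/-- B2d. -/
theorem b2d {L : Type} [Fintype L] [DecidableEq L] (D : KS L) : IneqTypeB D := by
  intro s Y Y' w hY hY' hd _ n a a' c r r' x x' y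
  have h := B2dAux.main D s Y Y' hY hY' hd w false false false false false false false false
    false false false (by decide) (by decide) (by decide)
  have hphi : B2dAux.phi false false false false false false false false false = 3 := by decide
  have e1 := sum_sides D (blk (D.lp s Y) (D.lp s Y')) s w
  have e2 := sum_sides D (runs (D.lp s Y)) s w
  have e3 := sum_sides D (runs (D.lp s Y')) s w
  rw [hphi] at h
  simp only [← blk_eq, ← runs_eq] at h
  rw [← e1, ← e2, ← e3] at h
  simp only [n, a, a', c, r, r', x, x', y]
  omega

end R4
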