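import Pool.Agent.Work.MP_e3f5d9_al.B1

/-!
# B3: sums over the levels
-/

set_option autoImplicit false

open Finset

namespace R4

namespace B3Aux

variable {L : Type} [Fintype L] [DecidableEq L] (D : KS L)

lemma tot_zero (F : List L → ℕ) (w : List L) : D.tot F 0 w = F w := by
  rw [KS.tot]

lemma tot_step (F : List L → ℕ) (j : ℕ) (w : List L) :
    D.tot F (j + 1) w = D.tot F j (D.sec false w) + D.tot F j (D.sec true w) := by
  rw [KS.tot]

lemma tot_succ (F : List L → ℕ) : ∀ (j : ℕ) (w : List L),
    D.tot F (j + 1) w = D.tot (fun z => F (D.sec false z) + F (D.sec true z)) j w := by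
  intro j
  induction j with
  | zero => intro w; rw [tot_step, tot_zero, tot_zero, tot_zero]
  | succ j ih => intro w; rw [tot_step, ih, ih, tot_step]

lemma tot_mono (F G : List L → ℕ) (h : ∀ z, F z ≤ G z) : ∀ (j : ℕ) (w : List L),
    D.tot F j w ≤ D.tot G j w := by
  intro j
  induction j with
  | zero => intro w; rw [tot_zero, tot_zero]; exact h w
  | succ j ih => intro w; rw [tot_step, tot_step]; exact add_le_add (ih _) (ih _)

lemma tot_add (F G : List L → ℕ) : ∀ (j : ℕ) (w : List L),
    D.tot (fun z => F z + G z) j w = D.tot F j w + D.tot G j w := by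
  intro j
  induction j with
  | zero => intro w; rw [tot_zero, tot_zero, tot_zero]
  | succ j ih => intro w; rw [tot_step, tot_step, tot_step, ih, ih]; omega

lemma tot_const (c : ℕ) : ∀ (j : ℕ) (w : List L), D.tot (fun _ => c) j w = c * 2 ^ j := by
  intro j
  induction j with
  | zero => intro w; rw [tot_zero]; simp
  | succ j ih => intro w; rw [tot_step, ih, ih, pow_succ]; ring

lemma secL_nil (w : List L) : D.secL [] w = w := by
  rw [KS.secL]

lemma secL_cons (b : Bool) (v : List Bool) (w : List L) :
    D.secL (b :: v) w = D.secL v (D.sec b w) := by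
  rw [KS.secL]

lemma tot_secL (F : List L → ℕ) : ∀ (j : ℕ) (w : List L), D.tot F j w =
    ∑ v : Fin j → Bool, F (D.secL (List.ofFn v) w) := by
  intro j
  induction j with
  | zero =>
    intro w
    rw [tot_zero]
    rw [Fintype.sum_unique]
    rw [List.ofFn_zero, secL_nil]
  | succ j ih =>
    intro w
    rw [tot_step, ih, ih]
    rw [← (Fin.consEquiv (fun _ : Fin (j + 1) => Bool)).sum_comp, Fintype.sum_prod_type,
      Fintype.sum_bool, add_comm]
    congr 1 <;>
    · refine Finset.sum_congr rfl fun v _ => ?_
      rw [List.ofFn_succ, secL_cons]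
      rfl

lemma tot_red (F : List L → ℕ) (hF : ∀ z, F (red z) = F z) : ∀ (j : ℕ) (w : List L),
    D.tot F j (red w) = D.tot F j w := by
  intro j
  induction j with
  | zero => intro w; rw [tot_zero, tot_zero, hF]
  | succ j ih =>
    intro w
    rw [tot_step, tot_step, ← ih (D.sec false (red w)), ← ih (D.sec true (red w)),
      B1Aux.red_sec, B1Aux.red_sec, ih, ih]

lemma tot_count : ∀ (j : ℕ) (i : L) (w : List L),
    D.tot (List.count i) j w = w.count (D.nxt^[j] i) := by
  intro j
  induction j with
  | zero => intro i w; rw [tot_zero]; rfl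
  | succ j ih =>
    intro i w
    rw [tot_succ]
    have : (fun z : List L => List.count i (D.sec false z) + List.count i (D.sec true z)) =
        List.count (D.nxt i) := by
      funext z
      exact B1Aux.count_sec_aux D z i false
    rw [this, ih, Function.iterate_succ_apply]

end B3Aux

open B3Aux

theorem b3 {L : Type} [Fintype L] [DecidableEq L] (D : KS L) : TotBasics D where
  tot_succ := tot_succ D
  tot_mono := fun F G j w h => tot_mono D F G h j w
  tot_add := tot_add D
  tot_const := tot_const D
  tot_secL := tot_secL D
  tot_red := fun F j w h => tot_red D F h j w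
  tot_count := fun i j w => tot_count D j i w

end R4
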