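import Pool.Agent.Work.MP_e3f5d9_al.Interface

/-!
# R4, block B4: the window
-/

set_option autoImplicit false

open Finset

namespace R4

namespace B4Aux

lemma runsAux_le {L : Type} [Fintype L] [DecidableEq L] (A : Finset L) (w : List L) :
    ∀ p, runsAux A p w ≤ w.length := by
  induction w with
  | nil => intro p; simp [runsAux]
  | cons x w ih =>
    intro p
    simp only [runsAux, List.length_cons]
    split_ifs
    · have := ih true; omega
    · have := ih true; omega
    · have := ih false; omega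

/-- The abstract pigeonhole. -/
lemma pigeon {α : Type} (E : Finset α) (hE : E.Nonempty) (T : α → ℕ → ℕ) (n0 Lw N K n : ℕ)
    (hN : 0 < N)
    (hin : ∀ j, j + 1 ≤ N * (Lw + n0) → ∀ B ∈ E, ∃ A ∈ E, T B (j + 1) ≤ T A j + K)
    (hout : ∀ j, j + 1 ≤ N * (Lw + n0) → ∀ A ∈ E, ∃ B ∈ E, T B (j + 1) ≤ T A j + K)
    (hmix : ∀ j, j + n0 ≤ N * (Lw + n0) → ∀ A ∈ E, ∀ B ∈ E, T B (j + n0) ≤ T A j + K)
    (h0 : ∀ A ∈ E, T A 0 ≤ n) :
    ∃ j0 M, j0 + Lw + n0 ≤ N * (Lw + n0) ∧ M ≤ n + (N * (Lw + n0)) * K ∧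
      ∀ j, j0 ≤ j → j ≤ j0 + Lw → ∀ A ∈ E,
        M ≤ T A j + Lw * K ∧ T A j ≤ M + (n / N + (Lw + 1) * K) := by
  classical
  set P := Lw + n0 with hP
  have hup : ∀ i j, j + i ≤ N * P → ∀ B ∈ E, ∃ A ∈ E, T B (j + i) ≤ T A j + i * K := by
    intro i
    induction i with
    | zero => intro j _ B hB; exact ⟨B, hB, by simp⟩
    | succ i ih =>
      intro j hj B hB
      obtain ⟨A, hA, hA'⟩ := hin (j + i) (by omega) B hB
      obtain ⟨A', hA1, hA2⟩ := ih j (by omega) A hA
      refine ⟨A', hA1, ?_⟩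
      have : (i + 1) * K = i * K + K := by ring
      rw [← add_assoc, this]
      omega
  have hdown : ∀ i j, j + i ≤ N * P → ∀ A ∈ E, ∃ B ∈ E, T B (j + i) ≤ T A j + i * K := by
    intro i
    induction i with
    | zero => intro j _ B hB; exact ⟨B, hB, by simp⟩
    | succ i ih =>
      intro j hj A hA
      obtain ⟨B, hB, hB'⟩ := ih j (by omega) A hA
      obtain ⟨B', hB1, hB2⟩ := hout (j + i) (by omega) B hB
      refine ⟨B', hB1, ?_⟩
      have : (i + 1) * K = i * K + K := by ring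
      rw [← add_assoc, this]
      omega
  let S : ℕ → ℕ := fun j => E.sup (fun A => T A j)
  have hS : ∀ j, ∀ A ∈ E, T A j ≤ S j := fun j A hA => Finset.le_sup (f := fun A => T A j) hA
  -- the pigeonhole
  have hpig : ∃ t, t < N ∧ S (t * P) ≤ S ((t + 1) * P) + n / N := by
    by_contra hcon
    push Not at hcon
    have h1 : ∀ t, t ≤ N → S (t * P) + t * (n / N + 1) ≤ S 0 := by
      intro t
      induction t with
      | zero => intro _; simp
      | succ t ih =>
        intro ht
        have h2 := hcon t (by omega)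
        have h3 := ih (by omega)
        have : (t + 1) * (n / N + 1) = t * (n / N + 1) + (n / N + 1) := by ring
        rw [this]
        omega
    have h2 := h1 N le_rfl
    have h3 : S 0 ≤ n := Finset.sup_le (fun A hA => h0 A hA)
    have h4 : n < N * (n / N + 1) := by
      have := Nat.lt_mul_div_succ n hN
      simpa using this
    omega
  obtain ⟨t, ht, htS⟩ := hpig
  have hj0 : (t + 1) * P ≤ N * P := Nat.mul_le_mul_right P ht
  have hj0' : (t + 1) * P = t * P + P := by ring
  obtain ⟨A0, hA0, hmin⟩ := Finset.exists_min_image E (fun A => T A (t * P + Lw)) hE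
  refine ⟨t * P, T A0 (t * P + Lw), by omega, ?_, ?_⟩
  · obtain ⟨A, hA, hA'⟩ := hup (t * P + Lw) 0 (by omega) A0 hA0
    rw [zero_add] at hA'
    have h1 := h0 A hA
    have h2 : (t * P + Lw) * K ≤ N * P * K := Nat.mul_le_mul_right K (by omega)
    omega
  · intro j hj1 hj2 A hA
    constructor
    · obtain ⟨B, hB, hB'⟩ := hdown (t * P + Lw - j) j (by omega) A hA
      have h1 : j + (t * P + Lw - j) = t * P + Lw := by omega
      rw [h1] at hB'
      have h2 := hmin B hB
      have h3 : (t * P + Lw - j) * K ≤ Lw * K := Nat.mul_le_mul_right K (by omega)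
      omega
    · obtain ⟨A', hA', hA''⟩ := hup (j - t * P) (t * P) (by omega) A hA
      have h1 : t * P + (j - t * P) = j := by omega
      rw [h1] at hA''
      have h2 : (j - t * P) * K ≤ Lw * K := Nat.mul_le_mul_right K (by omega)
      have h3 := hS (t * P) A' hA'
      have h4 : S ((t + 1) * P) ≤ T A0 (t * P + Lw) + K := by
        apply Finset.sup_le
        intro B hB
        have h5 := hmix (t * P + Lw) (by omega) A0 hA0 B hB
        have h6 : t * P + Lw + n0 = (t + 1) * P := by rw [hj0', hP]; ring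
        rw [h6] at h5
        exact h5
      have h7 : (Lw + 1) * K = Lw * K + K := by ring
      rw [h7]
      omega

variable {L : Type} [Fintype L] [DecidableEq L] (D : KS L)

lemma arrow_step (h1 : Basics D) (h1' : WordBasics L) (h2 : IneqCross D) (h3 : TotBasics D)
    {E : Finset (Finset L)} (hE : D.Mixing E) {A B : Finset L} (hAB : D.Arrow E A B)
    (j : ℕ) (w : List L) : D.tot (rr B) (j + 1) w ≤ D.tot (rr A) j w + 2 ^ (j + 1) := by
  obtain ⟨hA, hB, s, hs⟩ := hAB
  have hle : ∀ z, rr B z ≤ rr (D.lp s A) z + 1 := by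
    intro z
    rw [← hs]
    unfold KS.nm
    split_ifs
    · exact h1'.runs_compl _ _
    · exact Nat.le_succ _
  have hz : ∀ z, rr B (D.sec false z) + rr B (D.sec true z) ≤ rr A z + 2 := by
    intro z
    have e1 := hle (D.sec false z)
    have e2 := hle (D.sec true z)
    have e3 : rr (D.lp s A) (D.sec false z) ≤ runs (D.lp s A) (D.sec false (red z)) := by
      unfold rr
      rw [← h1.red_sec]
      exact h1'.runs_red _ _
    have e4 : rr (D.lp s A) (D.sec true z) ≤ runs (D.lp s A) (D.sec true (red z)) := by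
      unfold rr
      rw [← h1.red_sec]
      exact h1'.runs_red _ _
    have e5 := h2 s A (red z) (hE.norm A hA)
    have e6 : rr A z = runs A (red z) := rfl
    omega
  rw [h3.tot_succ]
  calc D.tot (fun z => rr B (D.sec false z) + rr B (D.sec true z)) j w
      ≤ D.tot (fun z => rr A z + 2) j w := h3.tot_mono _ _ _ _ hz
    _ = D.tot (rr A) j w + D.tot (fun _ => 2) j w := h3.tot_add (rr A) (fun _ => 2) j w
    _ = D.tot (rr A) j w + 2 ^ (j + 1) := by rw [h3.tot_const]; ring

lemma path_step (h1 : Basics D) (h1' : WordBasics L) (h2 : IneqCross D) (h3 : TotBasics D)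
    {E : Finset (Finset L)} (hE : D.Mixing E) (w : List L) :
    ∀ (n : ℕ) (A B : Finset L), D.Path E n A B → ∀ j,
    D.tot (rr B) (j + n) w + 2 ^ (j + 1) ≤ D.tot (rr A) j w + 2 ^ (j + n + 1) := by
  intro n
  induction n with
  | zero =>
    intro A B h j
    obtain ⟨-, rfl⟩ := h
    simp
  | succ n ih =>
    intro A B h j
    obtain ⟨C, hAC, hCB⟩ := h
    have e1 := ih C B hCB (j + 1)
    have e2 := arrow_step D h1 h1' h2 h3 hE hAC j w
    have e3 : j + 1 + n = j + (n + 1) := by ring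
    have e4 : 2 ^ (j + 1 + 1) = 2 * 2 ^ (j + 1) := by rw [pow_succ]; ring
    rw [e3, e4] at e1
    omega

lemma path_in {E : Finset (Finset L)} :
    ∀ (n : ℕ) (A B : Finset L), D.Path E (n + 1) A B → ∃ C, C ∈ E ∧ D.Arrow E C B := by
  intro n
  induction n with
  | zero =>
    intro A B h
    obtain ⟨C, hAC, hC, rfl⟩ := h
    exact ⟨A, hAC.1, hAC⟩
  | succ n ih =>
    intro A B h
    obtain ⟨C, hAC, hCB⟩ := h
    exact ih C B hCB

end B4Aux

open B4Aux in
/-- B4. -/
theorem b4 {L : Type} [Fintype L] [DecidableEq L] (D : KS L) (h1 : Basics D)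
    (h1' : WordBasics L) (h2 : IneqCross D) (h3 : TotBasics D) : Window D := by
  intro E hE Lw N hN
  obtain ⟨n0, hn0, hmix⟩ := hE.mix
  have hne : E.Nonempty := ⟨_, hE.base⟩
  set J := N * (Lw + n0) with hJ
  set K := 2 ^ (J + 1) with hK
  refine ⟨J, (J + Lw + 1) * K, ?_, ?_⟩
  · rw [← hK]
    nlinarith [Nat.zero_le ((J + Lw) * K)]
  intro n w hw
  have hpow : ∀ j, j ≤ J → 2 ^ (j + 1) ≤ K := fun j hj =>
    Nat.pow_le_pow_right (by norm_num) (by omega)
  have hin : ∀ j, j + 1 ≤ J → ∀ B ∈ E, ∃ A ∈ E,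
      D.tot (rr B) (j + 1) w ≤ D.tot (rr A) j w + K := by
    intro j hj B hB
    obtain ⟨m, rfl⟩ : ∃ m, n0 = m + 1 := ⟨n0 - 1, by omega⟩
    obtain ⟨C, hC, hCB⟩ := path_in D m B B (hmix B hB B hB)
    refine ⟨C, hC, ?_⟩
    have e1 := arrow_step D h1 h1' h2 h3 hE hCB j w
    have e2 := hpow j (by omega)
    omega
  have hout : ∀ j, j + 1 ≤ J → ∀ A ∈ E, ∃ B ∈ E,
      D.tot (rr B) (j + 1) w ≤ D.tot (rr A) j w + K := by
    intro j hj A hA
    obtain ⟨m, rfl⟩ : ∃ m, n0 = m + 1 := ⟨n0 - 1, by omega⟩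
    obtain ⟨C, hAC, -⟩ := hmix A hA A hA
    refine ⟨C, hAC.2.1, ?_⟩
    have e1 := arrow_step D h1 h1' h2 h3 hE hAC j w
    have e2 := hpow j (by omega)
    omega
  have hmix' : ∀ j, j + n0 ≤ J → ∀ A ∈ E, ∀ B ∈ E,
      D.tot (rr B) (j + n0) w ≤ D.tot (rr A) j w + K := by
    intro j hj A hA B hB
    have e1 := path_step D h1 h1' h2 h3 hE w n0 A B (hmix A hA B hB) j
    have e2 := hpow (j + n0) hj
    have e3 := le_trans (Nat.le_add_right _ (2 ^ (j + 1))) e1
    exact le_trans e3 (Nat.add_le_add_left e2 _)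
  have h0 : ∀ A ∈ E, D.tot (rr A) 0 w ≤ n := by
    intro A _
    calc D.tot (rr A) 0 w = runs A (red w) := rfl
      _ ≤ runs A w := h1'.runs_red _ _
      _ ≤ w.length := runsAux_le A w false
      _ ≤ n := hw
  obtain ⟨j0, M, hj0, hM, hwin⟩ := pigeon E hne (fun A j => D.tot (rr A) j w) n0 Lw N K n hN
    hin hout hmix' h0
  refine ⟨j0, M, by omega, ?_, ?_⟩
  · have e1 : (J + Lw + 1) * K = J * K + (Lw + 1) * K := by ring
    rw [e1]
    rw [← hJ] at hM
    exact le_trans hM (Nat.add_le_add_left (Nat.le_add_right _ _) _)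
  · intro j hj1 hj2 A hA
    obtain ⟨e1, e2⟩ := hwin j hj1 hj2 A hA
    have e5 : Lw * K ≤ (J + Lw + 1) * K := Nat.mul_le_mul_right K (by omega)
    have e6 : (Lw + 1) * K ≤ (J + Lw + 1) * K := Nat.mul_le_mul_right K (by omega)
    constructor
    · calc M ≤ D.tot (rr A) j w + Lw * K := e1
        _ ≤ D.tot (rr A) j w + (n / N + (J + Lw + 1) * K) :=
            Nat.add_le_add_left (le_trans e5 (Nat.le_add_left _ _)) _
    · calc D.tot (rr A) j w ≤ M + (n / N + (Lw + 1) * K) := e2
        _ ≤ M + (n / N + (J + Lw + 1) * K) :=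
            Nat.add_le_add_left (Nat.add_le_add_left e6 _) _

end R4
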