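import Pool.Agent.Work.MP_e3f5d9_al.Interface

/-!
# Block B5: the monotone closure
-/

set_option autoImplicit false

open Finset

namespace R4

namespace B5Aux

variable {L : Type} [Fintype L] [DecidableEq L] (D : KS L)

lemma tot_mul (h3 : TotBasics D) (k : ℕ) (F : List L → ℕ) (j : ℕ) (w : List L) :
    D.tot (fun z => k * F z) j w = k * D.tot F j w := by
  rw [h3.tot_secL, h3.tot_secL, Finset.mul_sum]

lemma disj_lp (s : Bool) (Y Y' : Finset L) (h : Disjoint Y Y') :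
    Disjoint (D.lp s Y) (D.lp s Y') := by
  rw [Finset.disjoint_left] at h ⊢
  intro i hi hi'
  simp only [KS.lp, Finset.mem_filter, Finset.mem_univ, true_and] at hi hi'
  exact h hi.2 hi'.2

lemma disj_lp' (s : Bool) (Y Y' : Finset L) (h : Disjoint Y Y') :
    Disjoint (D.lp s Yᶜ)ᶜ (D.lp s Y') := by
  rw [Finset.disjoint_left] at h ⊢
  intro i hi hi'
  simp only [KS.lp, Finset.mem_filter, Finset.mem_univ, true_and, Finset.mem_compl,
    not_and, not_not] at hi hi'
  exact h (hi hi'.1) hi'.2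

/-- Both sides of a cut of the class `E` are crossed about `M` times. -/
lemma side (h1' : WordBasics L) (h3 : TotBasics D) (E : Finset (Finset L)) (X : Finset L)
    (hX : D.Side E X) (w : List L) (j0 j1 M r : ℕ) (hw : D.Win E w j0 j1 M r)
    (hr : 2 ^ (j1 + 1) ≤ r) (j : ℕ) (h0 : j0 ≤ j) (h1 : j ≤ j1) :
    (M ≤ D.tot (rr X) j w + 2 * r ∧ D.tot (rr X) j w ≤ M + 2 * r) ∧
      (M ≤ D.tot (rr Xᶜ) j w + 2 * r ∧ D.tot (rr Xᶜ) j w ≤ M + 2 * r) := by
  have hj : 2 ^ j ≤ r := le_trans (Nat.pow_le_pow_right (by norm_num) (by omega)) hr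
  have e1 : D.tot (rr X) j w ≤ D.tot (rr Xᶜ) j w + 2 ^ j := by
    have := h3.tot_mono (rr X) (fun z => rr Xᶜ z + 1) j w fun z => by
      have := h1'.runs_compl Xᶜ (red z)
      rw [compl_compl] at this
      exact this
    rw [h3.tot_add, h3.tot_const] at this
    omega
  have e2 : D.tot (rr Xᶜ) j w ≤ D.tot (rr X) j w + 2 ^ j := by
    have := h3.tot_mono (rr Xᶜ) (fun z => rr X z + 1) j w fun z => h1'.runs_compl X (red z)
    rw [h3.tot_add, h3.tot_const] at this
    omega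
  have h := hw j h0 h1 _ hX
  unfold KS.nm at h
  by_cases ho : D.o ∈ X
  · simp only [ho, if_true] at h
    omega
  · simp only [ho, if_false] at h
    omega

lemma step_image (h1 : Basics D) (h1' : WordBasics L) (h2 : IneqImage D) (h3 : TotBasics D)
    (s : Bool) (Y Y' : Finset L) (ho : D.o ∈ Y) (hd : Disjoint Y Y') (j : ℕ) (w : List L) :
    D.tot (bb (D.lp s Yᶜ)ᶜ (D.lp s Y')) (j + 1) w ≤ D.tot (bb Y Y') j w := by
  rw [h3.tot_succ]
  refine h3.tot_mono _ _ j w fun z => ?_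
  have a := h2 s Y Y' (red z) ho hd
  have b1 := h1'.blk_red (D.lp s Yᶜ)ᶜ (D.lp s Y') (D.sec false (red z))
  have b2 := h1'.blk_red (D.lp s Yᶜ)ᶜ (D.lp s Y') (D.sec true (red z))
  rw [h1.red_sec] at b1 b2
  unfold bb
  omega

lemma step_lift (h1 : Basics D) (h1' : WordBasics L) (h2 : IneqLift D) (h3 : TotBasics D)
    (s : Bool) (Y Y' : Finset L) (ho : D.o ∈ Y) (hd : Disjoint Y Y') (j : ℕ) (w : List L) :
    D.tot (bb Y Y') j w + D.tot (rr (D.lp s Yᶜ)) (j + 1) w + D.tot (rr (D.lp s Y')) (j + 1) w ≤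
      D.tot (bb (D.lp s Yᶜ)ᶜ (D.lp s Y')) (j + 1) w + D.tot (rr Yᶜ) j w + D.tot (rr Y') j w := by
  rw [h3.tot_succ, h3.tot_succ, h3.tot_succ, ← h3.tot_add, ← h3.tot_add, ← h3.tot_add,
    ← h3.tot_add]
  refine h3.tot_mono _ _ j w fun z => ?_
  have a := h2 s Y Y' (red z) ho hd
  have b1 := h1'.blk_loss' (D.lp s Yᶜ)ᶜ (D.lp s Y') (D.sec false (red z)) (disj_lp' D s Y Y' hd)
  have b2 := h1'.blk_loss' (D.lp s Yᶜ)ᶜ (D.lp s Y') (D.sec true (red z)) (disj_lp' D s Y Y' hd)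
  rw [h1.red_sec, compl_compl] at b1 b2
  unfold bb rr
  omega

lemma step_typeB (h1 : Basics D) (h1' : WordBasics L) (h2 : IneqTypeB D) (h3 : TotBasics D)
    (s : Bool) (Y Y' : Finset L) (ho : D.o ∉ Y) (ho' : D.o ∉ Y') (hd : Disjoint Y Y') (j : ℕ)
    (w : List L) :
    4 * D.tot (bb {D.o} Y) j w + 4 * D.tot (bb {D.o} Y') j w + 4 * D.tot (bb Y Y') j w +
      2 * D.tot (rr (D.lp s Y)) (j + 1) w + 2 * D.tot (rr (D.lp s Y')) (j + 1) w ≤
      D.tot (bb (D.lp s Y) (D.lp s Y')) (j + 1) w + 3 * D.tot (rr {D.o}) j w +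
        6 * D.tot (rr Y) j w + 6 * D.tot (rr Y') j w + 7 * 2 ^ j := by
  rw [h3.tot_succ, h3.tot_succ, h3.tot_succ, ← h3.tot_const 7 j w]
  simp only [← tot_mul D h3, ← h3.tot_add]
  refine h3.tot_mono _ _ j w fun z => ?_
  have hred : red (red z) = red z := h1'.red_id _ (h1'.red_chain z)
  have a := h2 s Y Y' (red z) ho ho' hd hred
  have b1 := h1'.blk_loss (D.lp s Y) (D.lp s Y') (D.sec false (red z)) (disj_lp D s Y Y' hd)
  have b2 := h1'.blk_loss (D.lp s Y) (D.lp s Y') (D.sec true (red z)) (disj_lp D s Y Y' hd)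
  have c1 := h1'.runs_red (D.lp s Y) (D.sec false (red z))
  have c2 := h1'.runs_red (D.lp s Y) (D.sec true (red z))
  have c3 := h1'.runs_red (D.lp s Y') (D.sec false (red z))
  have c4 := h1'.runs_red (D.lp s Y') (D.sec true (red z))
  rw [h1.red_sec] at b1 b2 c1 c2 c3 c4
  rw [h1'.rr_single]
  simp only at a
  unfold bb rr
  omega

end B5Aux

open B5Aux in
/-- Block B5. -/
theorem b5 {L : Type} [Fintype L] [DecidableEq L] (D : KS L) (h1 : Basics D) (h1' : WordBasics L)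
    (h2b : IneqImage D) (h2c : IneqLift D) (h2d : IneqTypeB D) (h3 : TotBasics D) :
    Closure D := by
  intro E hE X Y hXY
  have hso : D.Side E {D.o} := by
    unfold KS.Side KS.nm
    simpa using hE.base
  suffices H : Disjoint X Y ∧ ∃ c d : ℕ, ∀ w j0 j1 M r,
    D.Win E w j0 j1 M r → 2 ^ (j1 + 1) ≤ r →
    ∀ j, j0 + d ≤ j → j + d ≤ j1 → M ≤ D.tot (bb X Y) j w + c * r from H.2
  induction hXY with
  | triv X hX =>
    refine ⟨disjoint_compl_right, 2, 0, fun w j0 j1 M r hw hr j hj0 hj1 => ?_⟩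
    have h := side D h1' h3 E X hX w j0 j1 M r hw hr j (by omega) (by omega)
    have e : D.tot (bb X Xᶜ) j w = D.tot (rr Xᶜ) j w := by
      refine le_antisymm (h3.tot_mono _ _ j w fun z => ?_) (h3.tot_mono _ _ j w fun z => ?_)
      · have := h1'.blk_compl Xᶜ (red z)
        rw [compl_compl] at this
        exact this.le
      · have := h1'.blk_compl Xᶜ (red z)
        rw [compl_compl] at this
        exact this.ge
    rw [e]
    exact h.2.1
  | symm X Y _ ih =>
    obtain ⟨hd, c, d, h⟩ := ih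
    refine ⟨hd.symm, c + 1, d, fun w j0 j1 M r hw hr j hj0 hj1 => ?_⟩
    have h' := h w j0 j1 M r hw hr j hj0 hj1
    have hj : 2 ^ j ≤ r := le_trans (Nat.pow_le_pow_right (by norm_num) (by omega)) hr
    have := h3.tot_mono (bb X Y) (fun z => bb Y X z + 1) j w fun z =>
      h1'.blk_symm X Y (red z) hd
    rw [h3.tot_add, h3.tot_const] at this
    rw [add_mul]
    omega
  | image s Y Y' ho hd _ ih =>
    obtain ⟨_, c, d, h⟩ := ih
    refine ⟨hd, c, d + 1, fun w j0 j1 M r hw hr j hj0 hj1 => ?_⟩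
    have h' := h w j0 j1 M r hw hr (j + 1) (by omega) (by omega)
    have := step_image D h1 h1' h2b h3 s Y Y' ho hd j w
    omega
  | lift s Y Y' ho hd hs1 hs2 hs3 hs4 _ ih =>
    obtain ⟨_, c, d, h⟩ := ih
    refine ⟨disj_lp' D s Y Y' hd, c + 8, d + 1, fun w j0 j1 M r hw hr j hj0 hj1 => ?_⟩
    obtain ⟨i, rfl⟩ : ∃ i, j = i + 1 := ⟨j - 1, by omega⟩
    have h' := h w j0 j1 M r hw hr i (by omega) (by omega)
    have a := step_lift D h1 h1' h2c h3 s Y Y' ho hd i w
    have s1 := (side D h1' h3 E _ hs1 w j0 j1 M r hw hr i (by omega) (by omega)).2.2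
    have s2 := (side D h1' h3 E _ hs2 w j0 j1 M r hw hr i (by omega) (by omega)).1.2
    have s3 := (side D h1' h3 E _ hs3 w j0 j1 M r hw hr (i + 1) (by omega) (by omega)).2.1
    have s4 := (side D h1' h3 E _ hs4 w j0 j1 M r hw hr (i + 1) (by omega) (by omega)).1.1
    rw [compl_compl] at s3
    rw [add_mul]
    omega
  | glue X Y Z hs hX hZ _ _ ih1 ih2 =>
    obtain ⟨_, c1, d1, H1⟩ := ih1
    obtain ⟨_, c2, d2, H2⟩ := ih2
    refine ⟨?_, c1 + c2 + 2, max d1 d2, fun w j0 j1 M r hw hr j hj0 hj1 => ?_⟩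
    · rw [Finset.disjoint_left]
      intro i hi hi'
      exact (Finset.mem_compl.1 (hX hi)) (hZ hi')
    · have m1 := le_max_left d1 d2
      have m2 := le_max_right d1 d2
      have a1 := H1 w j0 j1 M r hw hr j (by omega) (by omega)
      have a2 := H2 w j0 j1 M r hw hr j (by omega) (by omega)
      have a3 := (side D h1' h3 E _ hs w j0 j1 M r hw hr j (by omega) (by omega)).1.2
      have a4 := h3.tot_mono (fun z => bb X Y z + bb Yᶜ Z z) (fun z => bb X Z z + rr Y z) j w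
        fun z => h1'.blk_glue X Y Z (red z) hX hZ
      rw [h3.tot_add, h3.tot_add] at a4
      have e : (c1 + c2 + 2) * r = c1 * r + c2 * r + 2 * r := by ring
      rw [e]
      omega
  | typeB s Y Y' ho ho' hd hs1 hs2 hs3 hs4 _ _ _ ih1 ih2 ih3 =>
    obtain ⟨_, c1, d1, H1⟩ := ih1
    obtain ⟨_, c2, d2, H2⟩ := ih2
    obtain ⟨_, c3, d3, H3⟩ := ih3
    refine ⟨disj_lp D s Y Y' hd, 4 * c1 + 4 * c2 + 4 * c3 + 45, max d1 (max d2 d3) + 1,
      fun w j0 j1 M r hw hr j hj0 hj1 => ?_⟩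
    have m1 : d1 ≤ max d1 (max d2 d3) := le_max_left _ _
    have m2 : d2 ≤ max d1 (max d2 d3) := le_trans (le_max_left _ _) (le_max_right _ _)
    have m3 : d3 ≤ max d1 (max d2 d3) := le_trans (le_max_right _ _) (le_max_right _ _)
    obtain ⟨i, rfl⟩ : ∃ i, j = i + 1 := ⟨j - 1, by omega⟩
    have hj : 2 ^ i ≤ r := le_trans (Nat.pow_le_pow_right (by norm_num) (by omega)) hr
    have a1 := H1 w j0 j1 M r hw hr i (by omega) (by omega)
    have a2 := H2 w j0 j1 M r hw hr i (by omega) (by omega)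
    have a3 := H3 w j0 j1 M r hw hr i (by omega) (by omega)
    have a4 := step_typeB D h1 h1' h2d h3 s Y Y' ho ho' hd i w
    have s0 := (side D h1' h3 E _ hso w j0 j1 M r hw hr i (by omega) (by omega)).1.2
    have s1 := (side D h1' h3 E _ hs1 w j0 j1 M r hw hr i (by omega) (by omega)).1.2
    have s2 := (side D h1' h3 E _ hs2 w j0 j1 M r hw hr i (by omega) (by omega)).1.2
    have s3 := (side D h1' h3 E _ hs3 w j0 j1 M r hw hr (i + 1) (by omega) (by omega)).1.1
    have s4 := (side D h1' h3 E _ hs4 w j0 j1 M r hw hr (i + 1) (by omega) (by omega)).1.1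
    have e : (4 * c1 + 4 * c2 + 4 * c3 + 45) * r =
        4 * (c1 * r) + 4 * (c2 * r) + 4 * (c3 * r) + 45 * r := by ring
    rw [e]
    omega

end R4
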