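import Pool.Agent.Work.MP_e3f5d9_al.Interface

/-!
# Block B6 of the R4 project: reconstruction
-/

set_option autoImplicit false
set_option linter.unusedSectionVars false
set_option linter.unusedSimpArgs false

open Finset

namespace R4

namespace B6Aux

variable {L : Type} [Fintype L] [DecidableEq L] (D : KS L)

theorem pre_eq (b : Bool) (j i : L) : D.pre b j = some i ↔ D.nxt i = j ∧ D.side i = b := by
  classical
  unfold KS.pre
  constructor
  · intro h
    split at h
    · rename_i h'
      rw [Option.some.injEq] at h
      rw [← h]
      exact h'.choose_spec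
    · exact absurd h (by simp)
  · intro h
    have h' : ∃ i, D.nxt i = j ∧ D.side i = b := ⟨i, h⟩
    rw [dif_pos h', Option.some.injEq]
    exact D.inj _ _ (h'.choose_spec.1.trans h.1.symm) (h'.choose_spec.2.trans h.2.symm)

theorem ev_append (w w' : List L) (x : List Bool) :
    D.ev (w ++ w') x = D.ev w' (D.ev w x) := by
  induction w generalizing x with
  | nil => rfl
  | cons a w ih => simpa [KS.ev] using ih _

theorem act_nil (i : L) : D.act i [] = [] := by
  unfold KS.act; rfl

theorem act_o (b : Bool) (x : List Bool) : D.act D.o (b :: x) = (!b) :: x := by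
  rw [KS.act]; simp

theorem act_some {i i' : L} {b : Bool} (hi : i ≠ D.o) (h : D.pre b i = some i') (x : List Bool) :
    D.act i (b :: x) = b :: D.act i' x := by
  rw [KS.act, if_neg hi, h]

theorem act_none {i : L} {b : Bool} (hi : i ≠ D.o) (h : D.pre b i = none) (x : List Bool) :
    D.act i (b :: x) = b :: x := by
  rw [KS.act, if_neg hi, h]

end B6Aux

open B6Aux

/-- B6a. -/
theorem b6a {L : Type} [Fintype L] [DecidableEq L] (D : KS L) : IndepComm D := by
  intro i j hd x
  induction x generalizing i j with
  | nil => simp [act_nil]
  | cons b x ih =>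
    have hi : i ≠ D.o := by
      rintro rfl
      exact hd (KS.Dep.base j)
    have hj : j ≠ D.o := by
      rintro rfl
      exact hd (KS.Dep.symm _ _ (KS.Dep.base i))
    rcases h1 : D.pre b i with _ | i'
    · rcases h2 : D.pre b j with _ | j'
      · rw [act_none D hj h2, act_none D hi h1, act_none D hj h2]
      · rw [act_some D hj h2, act_none D hi h1, act_none D hi h1, act_some D hj h2]
    · rcases h2 : D.pre b j with _ | j'
      · rw [act_none D hj h2, act_some D hi h1, act_none D hj h2]
      · rw [act_some D hj h2, act_some D hi h1, act_some D hi h1, act_some D hj h2]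
        rw [pre_eq] at h1 h2
        rw [ih i' j']
        intro h
        apply hd
        rw [← h1.1, ← h2.1]
        exact KS.Dep.step _ _ (h1.2.trans h2.2.symm) h

namespace B6Aux

variable {L : Type} [Fintype L] [DecidableEq L] (D : KS L)

theorem ev_comm (x : L) (a : List L) (h : ∀ y ∈ a, ¬ D.Dep x y) (z : List Bool) :
    D.ev a (D.act x z) = D.act x (D.ev a z) := by
  induction a generalizing z with
  | nil => rfl
  | cons y a ih =>
    simp only [KS.ev]
    rw [← b6a D x y (h y (by simp)) z]
    exact ih (fun y' hy' => h y' (by simp [hy'])) _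

theorem exists_first (x : L) : ∀ w : List L, x ∈ w → ∃ a b, w = a ++ x :: b ∧ x ∉ a
  | [], h => absurd h (by simp)
  | y :: w, h => by
    by_cases hxy : y = x
    · exact ⟨[], w, by simp [hxy], by simp⟩
    · have : x ∈ w := by
        rcases List.mem_cons.1 h with h | h
        · exact absurd h.symm hxy
        · exact h
      obtain ⟨a, b, hab, ha⟩ := exists_first x w this
      refine ⟨y :: a, b, by simp [hab], ?_⟩
      simp only [List.mem_cons, not_or]
      exact ⟨fun h => hxy h.symm, ha⟩

theorem proj_append (i j : L) (u v : List L) :
    KS.proj i j (u ++ v) = KS.proj i j u ++ KS.proj i j v := by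
  simp [KS.proj]

theorem proj_cons_of {i j x : L} (h : x = i ∨ x = j) (u : List L) :
    KS.proj i j (x :: u) = x :: KS.proj i j u := by
  simp [KS.proj, List.filter_cons, h]

theorem proj_cons_not {i j x : L} (h : ¬ (x = i ∨ x = j)) (u : List L) :
    KS.proj i j (x :: u) = KS.proj i j u := by
  simp [KS.proj, List.filter_cons, h]

theorem proj_symm (i j : L) (u : List L) : KS.proj i j u = KS.proj j i u := by
  simp only [KS.proj, or_comm]

theorem mem_proj {i j x : L} {u : List L} : x ∈ KS.proj i j u ↔ x ∈ u ∧ (x = i ∨ x = j) := by
  simp [KS.proj, List.mem_filter]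

/-- If the letters before the first `x` contain a letter which is dependent on `x`, the
projections differ. -/
theorem indep_of_proj (x y : L) (u a b : List L) (ha : x ∉ a) (hy : y ∈ a)
    (h : KS.proj x y (x :: u) = KS.proj x y (a ++ x :: b)) : False := by
  rw [proj_cons_of (Or.inl rfl), proj_append] at h
  have h1 : y ∈ KS.proj x y a := mem_proj.2 ⟨hy, Or.inr rfl⟩
  rcases hpa : KS.proj x y a with _ | ⟨z, t⟩
  · rw [hpa] at h1
    simp at h1
  · rw [hpa] at h
    have hz : z ∈ KS.proj x y a := by rw [hpa]; simp
    have h2 := mem_proj.1 hz
    simp only [List.cons_append, List.cons.injEq] at h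
    exact ha (h.1 ▸ h2.1)

end B6Aux

/-- B6b. -/
theorem b6b {L : Type} [Fintype L] [DecidableEq L] (D : KS L) : ProjLemma D := by
  intro w
  induction w with
  | nil =>
    intro w' _ hc
    have : w' = [] := by
      rcases w' with _ | ⟨x, t⟩
      · rfl
      · have := hc x
        simp at this
    rw [this]
  | cons x u ih =>
    intro w' hp hc
    have hx : x ∈ w' := by
      have h1 := hc x
      rw [← List.count_pos_iff, ← h1]
      simp
    obtain ⟨a, b, rfl, ha⟩ := exists_first x w' hx
    have hind : ∀ y ∈ a, ¬ D.Dep x y := fun y hy hd =>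
      indep_of_proj x y u a b ha hy (hp x y hd)
    have hev : D.ev (a ++ x :: b) = D.ev (x :: (a ++ b)) := by
      funext z
      rw [ev_append]
      simp only [KS.ev]
      rw [ev_append, ev_comm D x a hind]
    rw [hev]
    have hmain : D.ev u = D.ev (a ++ b) := by
      apply ih
      · intro i j hd
        have h := hp i j hd
        by_cases hxi : x = i ∨ x = j
        · have hpa : KS.proj i j a = [] := by
            rw [List.eq_nil_iff_forall_not_mem]
            intro y hy
            have hy' := mem_proj.1 hy
            have hxy : x ≠ y := fun h => ha (h ▸ hy'.1)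
            rcases hxi with h1 | h1
            · rcases hy'.2 with h2 | h2
              · exact hxy (h1.trans h2.symm)
              · exact hind y hy'.1 (by rw [h1, h2]; exact hd)
            · rcases hy'.2 with h2 | h2
              · exact hind y hy'.1 (by rw [h1, h2]; exact KS.Dep.symm _ _ hd)
              · exact hxy (h1.trans h2.symm)
          rw [proj_cons_of hxi, proj_append, proj_cons_of hxi, hpa, List.nil_append,
            List.cons.injEq] at h
          rw [proj_append, hpa, List.nil_append]
          exact h.2
        · rw [proj_cons_not hxi, proj_append, proj_cons_not hxi] at h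
          rw [proj_append]
          exact h
      · intro i
        have h := hc i
        rw [List.count_append, List.count_cons, List.count_cons] at h
        rw [List.count_append]
        omega
    funext z
    simp only [KS.ev]
    rw [hmain]

namespace B6Aux

variable {L : Type} [Fintype L] [DecidableEq L] (D : KS L)

theorem sec_o (b : Bool) (w : List L) : D.sec b (D.o :: w) = D.sec (!b) w := by
  rw [KS.sec]; simp

theorem sec_some {i i' : L} {b : Bool} (hi : i ≠ D.o) (h : D.pre b i = some i') (w : List L) :
    D.sec b (i :: w) = i' :: D.sec b w := by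
  rw [KS.sec, if_neg hi, h]

theorem sec_none {i : L} {b : Bool} (hi : i ≠ D.o) (h : D.pre b i = none) (w : List L) :
    D.sec b (i :: w) = D.sec b w := by
  rw [KS.sec, if_neg hi, h]

/-- The restriction to three letters. -/
def tri (i j k : L) (w : List L) : List L := w.filter fun x => x = i ∨ x = j ∨ x = k

/-- The section of the restriction to `o, nxt i, nxt j` determines the projection of the
section. -/
theorem proj_sec_tri (i j : L) (w : List L) (b : Bool) :
    KS.proj i j (D.sec b w) = KS.proj i j (D.sec b (tri D.o (D.nxt i) (D.nxt j) w)) := by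
  induction w generalizing b with
  | nil => rfl
  | cons x w ih =>
    by_cases hx : x = D.o ∨ x = D.nxt i ∨ x = D.nxt j
    · have h1 : tri D.o (D.nxt i) (D.nxt j) (x :: w) = x :: tri D.o (D.nxt i) (D.nxt j) w := by
        simp [tri, List.filter_cons, hx]
      rw [h1]
      by_cases hxo : x = D.o
      · rw [hxo, sec_o, sec_o]
        exact ih _
      · rcases hp : D.pre b x with _ | x'
        · rw [sec_none D hxo hp, sec_none D hxo hp]
          exact ih _
        · rw [sec_some D hxo hp, sec_some D hxo hp]
          by_cases hx' : x' = i ∨ x' = j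
          · rw [proj_cons_of hx', proj_cons_of hx', ih]
          · rw [proj_cons_not hx', proj_cons_not hx', ih]
    · have h1 : tri D.o (D.nxt i) (D.nxt j) (x :: w) = tri D.o (D.nxt i) (D.nxt j) w := by
        simp [tri, List.filter_cons, hx]
      rw [h1]
      have hxo : x ≠ D.o := fun h => hx (Or.inl h)
      rcases hp : D.pre b x with _ | x'
      · rw [sec_none D hxo hp]
        exact ih _
      · rw [sec_some D hxo hp, proj_cons_not, ih]
        rintro (h | h)
        · rw [pre_eq, h] at hp
          exact hx (Or.inr (Or.inl hp.1.symm))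
        · rw [pre_eq, h] at hp
          exact hx (Or.inr (Or.inr hp.1.symm))

theorem pre_nxt (i : L) (b : Bool) (h : D.side i = b) : D.pre b (D.nxt i) = some i :=
  (pre_eq D b _ i).2 ⟨rfl, h⟩

/-- Section projections of words that start with `nxt i`. -/
theorem proj_sec_cons {i j : L} {s : Bool} (hi : D.side i = s) (hj : D.side j = s)
    (b : Bool) (w : List L) :
    KS.proj i j (D.sec b (D.nxt i :: w)) =
      if b = s then i :: KS.proj i j (D.sec b w) else KS.proj i j (D.sec b w) := by
  by_cases hb : b = s
  · rw [if_pos hb, sec_some D (D.nxt_ne i) (pre_nxt D i b (hi.trans hb.symm)),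
      proj_cons_of (Or.inl rfl)]
  · rw [if_neg hb]
    rcases hp : D.pre b (D.nxt i) with _ | x
    · rw [sec_none D (D.nxt_ne i) hp]
    · rw [sec_some D (D.nxt_ne i) hp, proj_cons_not]
      rw [pre_eq] at hp
      rintro (h | h)
      · rw [h] at hp
        exact hb (hp.2.symm.trans hi)
      · rw [h] at hp
        exact hb (hp.2.symm.trans hj)

theorem proj_sec_cons' {i j : L} {s : Bool} (hi : D.side i = s) (hj : D.side j = s)
    (b : Bool) (w : List L) :
    KS.proj i j (D.sec b (D.nxt j :: w)) =
      if b = s then j :: KS.proj i j (D.sec b w) else KS.proj i j (D.sec b w) := by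
  have h := proj_sec_cons D hj hi b w
  rw [proj_symm j i, proj_symm j i] at h
  exact h

/-- The two-line induction. -/
theorem tri_eq {i j : L} {s : Bool} (hi : D.side i = s) (hj : D.side j = s) (hij : i ≠ j) :
    ∀ p p' : List L,
      (∀ x ∈ p, x = D.o ∨ x = D.nxt i ∨ x = D.nxt j) →
      (∀ x ∈ p', x = D.o ∨ x = D.nxt i ∨ x = D.nxt j) →
      KS.proj D.o (D.nxt i) p = KS.proj D.o (D.nxt i) p' →
      KS.proj D.o (D.nxt j) p = KS.proj D.o (D.nxt j) p' →
      (∀ b, KS.proj i j (D.sec b p) = KS.proj i j (D.sec b p')) → p = p' := by
  have hoi : D.nxt i ≠ D.o := D.nxt_ne i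
  have hoj : D.nxt j ≠ D.o := D.nxt_ne j
  have hnij : D.nxt i ≠ D.nxt j := fun h => hij (D.inj _ _ h (hi.trans hj.symm))
  have hemp : ∀ p : List L, (∀ x ∈ p, x = D.o ∨ x = D.nxt i ∨ x = D.nxt j) →
      KS.proj D.o (D.nxt i) p = [] → KS.proj D.o (D.nxt j) p = [] → p = [] := by
    intro p hp h1 h2
    rw [List.eq_nil_iff_forall_not_mem]
    intro x hx
    rcases hp x hx with h | h | h
    · have : x ∈ KS.proj D.o (D.nxt i) p := mem_proj.2 ⟨hx, Or.inl h⟩
      rw [h1] at this
      simp at this
    · have : x ∈ KS.proj D.o (D.nxt i) p := mem_proj.2 ⟨hx, Or.inr h⟩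
      rw [h1] at this
      simp at this
    · have : x ∈ KS.proj D.o (D.nxt j) p := mem_proj.2 ⟨hx, Or.inr h⟩
      rw [h2] at this
      simp at this
  intro p
  induction p with
  | nil =>
    intro p' _ hp' h1 h2 _
    exact (hemp p' hp' h1.symm h2.symm).symm
  | cons x q ih =>
    intro p' hp hp' h1 h2 h3
    rcases p' with _ | ⟨x', q'⟩
    · exact hemp _ hp h1 h2
    · have hx := hp x (by simp)
      have hx' := hp' x' (by simp)
      have hq : ∀ y ∈ q, y = D.o ∨ y = D.nxt i ∨ y = D.nxt j := fun y hy => hp y (by simp [hy])
      have hq' : ∀ y ∈ q', y = D.o ∨ y = D.nxt i ∨ y = D.nxt j :=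
        fun y hy => hp' y (by simp [hy])
      by_cases hxx : x = x'
      · subst hxx
        congr 1
        apply ih q' hq hq'
        · by_cases h : x = D.o ∨ x = D.nxt i
          · rw [proj_cons_of h, proj_cons_of h, List.cons.injEq] at h1
            exact h1.2
          · rw [proj_cons_not h, proj_cons_not h] at h1
            exact h1
        · by_cases h : x = D.o ∨ x = D.nxt j
          · rw [proj_cons_of h, proj_cons_of h, List.cons.injEq] at h2
            exact h2.2
          · rw [proj_cons_not h, proj_cons_not h] at h2
            exact h2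
        · intro b
          rcases hx with h | h | h
          · have := h3 (!b)
            rw [h, sec_o, sec_o, Bool.not_not] at this
            exact this
          · have := h3 b
            rw [h, proj_sec_cons D hi hj, proj_sec_cons D hi hj] at this
            by_cases hb : b = s
            · rw [if_pos hb, if_pos hb, List.cons.injEq] at this
              exact this.2
            · rw [if_neg hb, if_neg hb] at this
              exact this
          · have := h3 b
            rw [h, proj_sec_cons' D hi hj, proj_sec_cons' D hi hj] at this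
            by_cases hb : b = s
            · rw [if_pos hb, if_pos hb, List.cons.injEq] at this
              exact this.2
            · rw [if_neg hb, if_neg hb] at this
              exact this
      · exfalso
        have key1 : (x = D.o ∨ x = D.nxt i) → (x' = D.o ∨ x' = D.nxt i) → False := by
          intro ha hb
          rw [proj_cons_of ha, proj_cons_of hb, List.cons.injEq] at h1
          exact hxx h1.1
        have key2 : (x = D.o ∨ x = D.nxt j) → (x' = D.o ∨ x' = D.nxt j) → False := by
          intro ha hb
          rw [proj_cons_of ha, proj_cons_of hb, List.cons.injEq] at h2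
          exact hxx h2.1
        rcases hx with h | h | h
        · rcases hx' with h' | h' | h'
          · exact hxx (h.trans h'.symm)
          · exact key1 (Or.inl h) (Or.inr h')
          · exact key2 (Or.inl h) (Or.inr h')
        · rcases hx' with h' | h' | h'
          · exact key1 (Or.inr h) (Or.inl h')
          · exact hxx (h.trans h'.symm)
          · have := h3 s
            rw [h, h', proj_sec_cons D hi hj, proj_sec_cons' D hi hj, if_pos rfl, if_pos rfl,
              List.cons.injEq] at this
            exact hij this.1
        · rcases hx' with h' | h' | h'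
          · exact key2 (Or.inr h) (Or.inl h')
          · have := h3 s
            rw [h, h', proj_sec_cons D hi hj, proj_sec_cons' D hi hj, if_pos rfl, if_pos rfl,
              List.cons.injEq] at this
            exact hij this.1.symm
          · exact hxx (h.trans h'.symm)

theorem proj_tri (i j k a b : L) (hab : (a = i ∨ a = j ∨ a = k) ∧ (b = i ∨ b = j ∨ b = k))
    (w : List L) : KS.proj a b (tri i j k w) = KS.proj a b w := by
  simp only [KS.proj, tri, List.filter_filter]
  apply List.filter_congr
  intro x _
  by_cases h : x = a ∨ x = b
  · have : x = i ∨ x = j ∨ x = k := by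
      rcases h with h | h
      · rw [h]; exact hab.1
      · rw [h]; exact hab.2
    simp [h, this]
  · simp [h]

/-- Dependent projections are determined by the projections to `o, i` of finitely many
sections. -/
theorem dep_det {i j : L} (hd : D.Dep i j) : ∃ t : ℕ, ∀ w w' : List L,
    (∀ u : List Bool, u.length ≤ t → ∀ i, KS.proj D.o i (D.secL u w) =
      KS.proj D.o i (D.secL u w')) → KS.proj i j w = KS.proj i j w' := by
  induction hd with
  | base j =>
    exact ⟨0, fun w w' h => h [] (by simp) j⟩
  | symm i j _ ih =>
    obtain ⟨t, ht⟩ := ih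
    refine ⟨t, fun w w' h => ?_⟩
    rw [proj_symm j i, proj_symm j i w']
    exact ht w w' h
  | step i j hs _ ih =>
    obtain ⟨t, ht⟩ := ih
    refine ⟨t + 1, fun w w' h => ?_⟩
    have h0 := h [] (by simp)
    simp only [KS.secL] at h0
    have hsec : ∀ b, KS.proj i j (D.sec b w) = KS.proj i j (D.sec b w') := by
      intro b
      apply ht
      intro u hu k
      have := h (b :: u) (by simp; omega) k
      simpa only [KS.secL] using this
    by_cases hij : i = j
    · subst hij
      have h1 : ∀ v : List L, KS.proj (D.nxt i) (D.nxt i) v =
          KS.proj (D.nxt i) (D.nxt i) (KS.proj D.o (D.nxt i) v) := by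
        intro v
        simp only [KS.proj, List.filter_filter]
        apply List.filter_congr
        intro x _
        by_cases hx : x = D.nxt i
        · simp [hx]
        · simp [hx]
      rw [h1 w, h1 w', h0]
    · have heq : tri D.o (D.nxt i) (D.nxt j) w = tri D.o (D.nxt i) (D.nxt j) w' := by
        apply tri_eq D (s := D.side i) rfl hs.symm hij
        · intro x hx
          simp only [tri, List.mem_filter, decide_eq_true_eq] at hx
          exact hx.2
        · intro x hx
          simp only [tri, List.mem_filter, decide_eq_true_eq] at hx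
          exact hx.2
        · rw [proj_tri _ _ _ _ _ ⟨Or.inl rfl, Or.inr (Or.inl rfl)⟩,
            proj_tri _ _ _ _ _ ⟨Or.inl rfl, Or.inr (Or.inl rfl)⟩]
          exact h0 _
        · rw [proj_tri _ _ _ _ _ ⟨Or.inl rfl, Or.inr (Or.inr rfl)⟩,
            proj_tri _ _ _ _ _ ⟨Or.inl rfl, Or.inr (Or.inr rfl)⟩]
          exact h0 _
        · intro b
          rw [← proj_sec_tri, ← proj_sec_tri]
          exact hsec b
      rw [← proj_tri D.o (D.nxt i) (D.nxt j) (D.nxt i) (D.nxt j)
          ⟨Or.inr (Or.inl rfl), Or.inr (Or.inr rfl)⟩ w, heq,
        proj_tri _ _ _ _ _ ⟨Or.inr (Or.inl rfl), Or.inr (Or.inr rfl)⟩]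

theorem count_proj (i j : L) (w : List L) : (KS.proj i j w).count j = w.count j := by
  induction w with
  | nil => rfl
  | cons x w ih =>
    by_cases h : x = i ∨ x = j
    · rw [proj_cons_of h, List.count_cons, List.count_cons, ih]
    · rw [proj_cons_not h, ih, List.count_cons]
      have : ¬ (x = j) := fun h' => h (Or.inr h')
      simp [this]

end B6Aux

/-- B6c. -/
theorem b6c {L : Type} [Fintype L] [DecidableEq L] (D : KS L) : Reconstruct D := by
  classical
  have h : ∀ i j, ∃ t : ℕ, D.Dep i j → ∀ w w' : List L,
      (∀ u : List Bool, u.length ≤ t → ∀ i, KS.proj D.o i (D.secL u w) =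
        KS.proj D.o i (D.secL u w')) → KS.proj i j w = KS.proj i j w' := by
    intro i j
    by_cases hd : D.Dep i j
    · obtain ⟨t, ht⟩ := dep_det D hd
      exact ⟨t, fun _ => ht⟩
    · exact ⟨0, fun h => absurd h hd⟩
  choose t ht using h
  refine ⟨∑ i, ∑ j, t i j, fun w w' hw => ?_⟩
  apply b6b D
  · intro i j hd
    apply ht i j hd
    intro u hu k
    apply hw
    refine hu.trans ?_
    calc t i j ≤ ∑ j, t i j := Finset.single_le_sum (f := fun j => t i j) (by simp) (by simp)
      _ ≤ ∑ i, ∑ j, t i j :=
        Finset.single_le_sum (f := fun i => ∑ j, t i j) (by simp) (by simp)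
  · intro i
    have := hw [] (by simp) i
    simp only [KS.secL] at this
    rw [← count_proj D.o i w, this, count_proj]

end R4
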