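import Pool.Agent.Work.MP_e3f5d9_al.Interface

/-!
# Block B7: counting tuples of binary words with few repetitions
-/

set_option autoImplicit false

open Finset

namespace R4

namespace B7Aux

/-- The binary words of length at most `M`. -/
def LF : ℕ → Finset (List Bool)
  | 0 => {[]}
  | M + 1 => insert [] ((LF M).image (List.cons true) ∪ (LF M).image (List.cons false))

lemma mem_LF : ∀ (M : ℕ) (l : List Bool), l.length ≤ M → l ∈ LF M
  | 0, [], _ => by simp [LF]
  | 0, _ :: _, h => by simp at h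
  | M + 1, [], _ => by simp [LF]
  | M + 1, b :: l, h => by
    have := mem_LF M l (by simpa using h)
    cases b <;> simp [LF, this]

lemma sum_LF (M : ℕ) (f : List Bool → ℝ) :
    ∑ l ∈ LF (M + 1), f l = f [] + ∑ l ∈ LF M, f (true :: l) + ∑ l ∈ LF M, f (false :: l) := by
  rw [LF, Finset.sum_insert (by simp), Finset.sum_union, Finset.sum_image, Finset.sum_image]
  · ring
  · intro a _ b _ h
    simpa using h
  · intro a _ b _ h
    simpa using h
  · rw [Finset.disjoint_left]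
    intro a ha hb
    simp only [Finset.mem_image] at ha hb
    obtain ⟨u, _, rfl⟩ := ha
    obtain ⟨v, _, hv⟩ := hb
    simp at hv

lemma s_le (x z W : ℝ) (hx : 0 ≤ x) (hz : 0 ≤ z) (hW : 1 ≤ W) (h : 1 + z * (1 + x) * W ≤ W) :
    ∀ (M : ℕ) (b : Bool), ∑ l ∈ LF M, z ^ l.length * x ^ (viol (b :: l)) ≤ W
  | 0, b => by simpa [LF, viol] using hW
  | M + 1, b => by
    rw [sum_LF]
    have h1 := s_le x z W hx hz hW h M true
    have h2 := s_le x z W hx hz hW h M false
    have e : ∀ c : Bool, ∑ l ∈ LF M, z ^ (c :: l).length * x ^ (viol (b :: c :: l)) =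
        z * x ^ (if b = c then 1 else 0) * ∑ l ∈ LF M, z ^ l.length * x ^ (viol (c :: l)) := by
      intro c
      rw [Finset.mul_sum]
      refine Finset.sum_congr rfl fun l _ => ?_
      rw [viol, pow_add, List.length_cons, pow_succ]
      ring
    rw [e true, e false]
    have h3 : z * x * (∑ l ∈ LF M, z ^ l.length * x ^ (viol (true :: l))) ≤ z * x * W :=
      mul_le_mul_of_nonneg_left h1 (mul_nonneg hz hx)
    have h4 : z * x * (∑ l ∈ LF M, z ^ l.length * x ^ (viol (false :: l))) ≤ z * x * W :=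
      mul_le_mul_of_nonneg_left h2 (mul_nonneg hz hx)
    have h5 : z * (∑ l ∈ LF M, z ^ l.length * x ^ (viol (true :: l))) ≤ z * W :=
      mul_le_mul_of_nonneg_left h1 hz
    have h6 : z * (∑ l ∈ LF M, z ^ l.length * x ^ (viol (false :: l))) ≤ z * W :=
      mul_le_mul_of_nonneg_left h2 hz
    cases b <;> simp [viol] <;> nlinarith

lemma w_le (x z W : ℝ) (hx : 0 ≤ x) (hz : 0 ≤ z) (hz1 : z ≤ 1) (hW : 1 ≤ W)
    (h : 1 + z * (1 + x) * W ≤ W) (M : ℕ) :
    ∑ l ∈ LF M, z ^ l.length * x ^ (viol l) ≤ 1 + 2 * W := by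
  cases M with
  | zero => simp [LF, viol]; linarith
  | succ M =>
    rw [sum_LF]
    have h1 := s_le x z W hx hz hW h M true
    have h2 := s_le x z W hx hz hW h M false
    have e : ∀ c : Bool, ∑ l ∈ LF M, z ^ (c :: l).length * x ^ (viol (c :: l)) =
        z * ∑ l ∈ LF M, z ^ l.length * x ^ (viol (c :: l)) := by
      intro c
      rw [Finset.mul_sum]
      refine Finset.sum_congr rfl fun l _ => ?_
      rw [List.length_cons, pow_succ]
      ring
    have hn : ∀ c : Bool, 0 ≤ ∑ l ∈ LF M, z ^ l.length * x ^ (viol (c :: l)) := fun c =>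
      Finset.sum_nonneg fun l _ => by positivity
    rw [e true, e false]
    have h3 := mul_le_mul hz1 h1 (hn true) zero_le_one
    have h4 := mul_le_mul hz1 h2 (hn false) zero_le_one
    simp only [viol, List.length_nil, pow_zero, one_mul] at *
    linarith

end B7Aux

open B7Aux in
/-- Block B7. -/
theorem b7 : Counting := by
  intro δ C₀ c₀ hδ
  obtain ⟨x, hx0, hx1, hxδ⟩ : ∃ x : ℝ, 0 < x ∧ x ≤ 1 ∧ 2 * x * C₀ ≤ δ / 2 := by
    refine ⟨min 1 (δ / (4 * (C₀ + 1))), lt_min one_pos (by positivity), min_le_left _ _, ?_⟩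
    have h1 : min 1 (δ / (4 * ((C₀ : ℝ) + 1))) ≤ δ / (4 * (C₀ + 1)) := min_le_right _ _
    have h2 : δ / (4 * ((C₀ : ℝ) + 1)) * (4 * (C₀ + 1)) = δ := by field_simp
    have h3 : 0 ≤ δ / (4 * ((C₀ : ℝ) + 1)) := by positivity
    have h4 : (0 : ℝ) ≤ C₀ := by positivity
    nlinarith [mul_le_mul_of_nonneg_right h1 h4]
  obtain ⟨N, hN⟩ := exists_nat_gt (2 * c₀ * Real.log (1 / x) / δ)
  have hlog : 0 ≤ Real.log (1 / x) := Real.log_nonneg (by rw [le_div_iff₀ hx0]; linarith)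
  refine ⟨N + 1, Nat.succ_pos _, fun C₁ K => ?_⟩
  set z : ℝ := 1 / (1 + 2 * x) with hz
  set W : ℝ := (1 + 2 * x) / x with hWdef
  have hz0 : 0 < z := by positivity
  have hz1 : z ≤ 1 := by rw [hz, div_le_one (by positivity)]; linarith
  have hW : 1 ≤ W := by rw [hWdef, le_div_iff₀ hx0]; linarith
  have hrec : 1 + z * (1 + x) * W ≤ W := by
    rw [hz, hWdef]; apply le_of_eq; field_simp; ring
  refine ⟨(1 + 2 * W) ^ K * ((1 + 2 * x) ^ C₁ * (1 / x) ^ C₁), fun n => ?_⟩
  set S : Set (Fin K → List Bool) := {p | (∑ k, (p k).length) ≤ C₀ * n + C₁ ∧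
    (∑ k, viol (p k)) ≤ c₀ * (n / (N + 1)) + C₁} with hS
  set F : Finset (Fin K → List Bool) := Fintype.piFinset fun _ => LF (C₀ * n + C₁) with hF
  have hSF : S ⊆ (F : Set (Fin K → List Bool)) := by
    intro p hp
    rw [Finset.mem_coe, hF, Fintype.mem_piFinset]
    intro k
    apply mem_LF
    exact le_trans (Finset.single_le_sum (f := fun k => (p k).length) (fun _ _ => Nat.zero_le _)
      (Finset.mem_univ k)) hp.1
  have hfin : S.Finite := F.finite_toSet.subset hSF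
  refine ⟨hfin, ?_⟩
  classical
  rw [Set.ncard_eq_toFinset_card S hfin]
  set S' := hfin.toFinset with hS'
  have hS'F : S' ⊆ F := by
    intro p hp
    exact hSF (hfin.mem_toFinset.1 hp)
  set B : ℝ := (1 + 2 * x) ^ (C₀ * n + C₁) * (1 / x) ^ (c₀ * (n / (N + 1)) + C₁) with hB
  have hB0 : 0 ≤ B := by positivity
  have key : ∀ p ∈ S', (1 : ℝ) ≤ B * ∏ k, (z ^ (p k).length * x ^ (viol (p k))) := by
    intro p hp
    have hp' : p ∈ S := hfin.mem_toFinset.1 hp
    rw [Finset.prod_mul_distrib, Finset.prod_pow_eq_pow_sum, Finset.prod_pow_eq_pow_sum]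
    have h1 : z ^ (C₀ * n + C₁) ≤ z ^ (∑ k, (p k).length) :=
      pow_le_pow_of_le_one hz0.le hz1 hp'.1
    have h2 : x ^ (c₀ * (n / (N + 1)) + C₁) ≤ x ^ (∑ k, viol (p k)) :=
      pow_le_pow_of_le_one hx0.le hx1 hp'.2
    have h3 : (1 + 2 * x) ^ (C₀ * n + C₁) * z ^ (C₀ * n + C₁) = 1 := by
      rw [← mul_pow, hz, mul_one_div_cancel (by positivity), one_pow]
    have h4 : (1 / x) ^ (c₀ * (n / (N + 1)) + C₁) * x ^ (c₀ * (n / (N + 1)) + C₁) = 1 := by
      rw [← mul_pow, one_div_mul_cancel hx0.ne', one_pow]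
    calc (1 : ℝ) = ((1 + 2 * x) ^ (C₀ * n + C₁) * z ^ (C₀ * n + C₁)) *
          ((1 / x) ^ (c₀ * (n / (N + 1)) + C₁) * x ^ (c₀ * (n / (N + 1)) + C₁)) := by
          rw [h3, h4, one_mul]
      _ ≤ ((1 + 2 * x) ^ (C₀ * n + C₁) * z ^ (∑ k, (p k).length)) *
          ((1 / x) ^ (c₀ * (n / (N + 1)) + C₁) * x ^ (∑ k, viol (p k))) := by gcongr
      _ = _ := by rw [hB]; ring
  have hcard : (S'.card : ℝ) ≤ B * (1 + 2 * W) ^ K := by
    calc (S'.card : ℝ) = ∑ p ∈ S', (1 : ℝ) := by simp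
      _ ≤ ∑ p ∈ S', B * ∏ k, (z ^ (p k).length * x ^ (viol (p k))) := Finset.sum_le_sum key
      _ ≤ ∑ p ∈ F, B * ∏ k, (z ^ (p k).length * x ^ (viol (p k))) :=
          Finset.sum_le_sum_of_subset_of_nonneg hS'F fun p _ _ => by positivity
      _ = B * ∏ _k : Fin K, ∑ l ∈ LF (C₀ * n + C₁), (z ^ l.length * x ^ (viol l)) := by
          rw [← Finset.mul_sum, hF, Finset.prod_univ_sum]
      _ ≤ B * (1 + 2 * W) ^ K := by
          refine mul_le_mul_of_nonneg_left ?_ hB0
          rw [Finset.prod_const, Finset.card_univ, Fintype.card_fin]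
          exact pow_le_pow_left₀ (Finset.sum_nonneg fun l _ => by positivity)
            (w_le x z W hx0.le hz0.le hz1 hW hrec _) K
  have hx2 : (1 + 2 * x) ^ (C₀ * n) ≤ Real.exp (δ / 2 * n) := by
    have h1 : 1 + 2 * x ≤ Real.exp (2 * x) := by
      have := Real.add_one_le_exp (2 * x)
      linarith
    calc (1 + 2 * x) ^ (C₀ * n) ≤ (Real.exp (2 * x)) ^ (C₀ * n) :=
          pow_le_pow_left₀ (by positivity) h1 _
      _ = Real.exp (2 * x * C₀ * n) := by
          rw [← Real.exp_nat_mul]; congr 1; push_cast; ring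
      _ ≤ _ := by
          apply Real.exp_le_exp.2
          exact mul_le_mul_of_nonneg_right hxδ (by positivity)
  have hx3 : (1 / x) ^ (c₀ * (n / (N + 1))) ≤ Real.exp (δ / 2 * n) := by
    have h0 : (0 : ℝ) < 1 / x := by positivity
    rw [show (1 / x) ^ (c₀ * (n / (N + 1))) = Real.exp (((c₀ * (n / (N + 1)) : ℕ) : ℝ) *
      Real.log (1 / x)) by rw [Real.exp_nat_mul, Real.exp_log h0]]
    apply Real.exp_le_exp.2
    have h1 : ((n / (N + 1) : ℕ) : ℝ) ≤ (n : ℝ) / (N + 1) := by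
      have := Nat.cast_div_le (α := ℝ) (m := n) (n := N + 1)
      push_cast at this
      exact this
    have h2 : (c₀ : ℝ) * Real.log (1 / x) ≤ δ / 2 * (N + 1) := by
      rw [div_lt_iff₀ hδ] at hN
      nlinarith
    have h3 : (0 : ℝ) < N + 1 := by positivity
    calc ((c₀ * (n / (N + 1)) : ℕ) : ℝ) * Real.log (1 / x)
        = (c₀ * Real.log (1 / x)) * ((n / (N + 1) : ℕ) : ℝ) := by push_cast; ring
      _ ≤ (c₀ * Real.log (1 / x)) * ((n : ℝ) / (N + 1)) :=
          mul_le_mul_of_nonneg_left h1 (by positivity)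
      _ ≤ (δ / 2 * (N + 1)) * ((n : ℝ) / (N + 1)) :=
          mul_le_mul_of_nonneg_right h2 (by positivity)
      _ = δ / 2 * n := by field_simp
  calc (S'.card : ℝ) ≤ B * (1 + 2 * W) ^ K := hcard
    _ = (1 + 2 * W) ^ K * ((1 + 2 * x) ^ C₁ * (1 / x) ^ C₁) *
        ((1 + 2 * x) ^ (C₀ * n) * (1 / x) ^ (c₀ * (n / (N + 1)))) := by
        rw [hB, pow_add, pow_add]; ring
    _ ≤ (1 + 2 * W) ^ K * ((1 + 2 * x) ^ C₁ * (1 / x) ^ C₁) *
        (Real.exp (δ / 2 * n) * Real.exp (δ / 2 * n)) := by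
        gcongr
    _ = _ := by
        rw [← Real.exp_add]; congr 2; ring

end R4
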