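import Pool.Agent.Work.MP_e3f5d9_al.Interface

/-!
# B8: assembly of the subexponential bound
-/

set_option autoImplicit false

open Finset

namespace R4

section

variable {L : Type} [DecidableEq L]

/-- Binary code of the projection to `{o, i}`. -/
def code (o i : L) (z : List L) : List Bool := (KS.proj o i z).map fun x => decide (x = o)

lemma viol_runs (i o : L) (hio : i ≠ o) : ∀ (q : List L) (x : L), (∀ y ∈ x :: q, y = o ∨ y = i) →
    viol (x :: q) + 2 * runsAux {i} (decide (x = i)) q ≤ q.length + (if x = o then 1 else 0) := by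
  intro q
  induction q with
  | nil => intro x _; simp [viol, runsAux]
  | cons y t ih =>
    intro x hx
    have hx1 := hx x (by simp)
    have hy := ih y (fun z hz => hx z (by simp at hz ⊢; tauto))
    have hy1 := hx y (by simp)
    simp only [viol, runsAux, Finset.mem_singleton, List.length_cons]
    rcases hx1 with rfl | rfl <;> rcases hy1 with rfl | rfl
    · simp only [if_true, hio.symm, decide_false, if_false] at hy ⊢
      omega
    · simp only [if_true, hio, hio.symm, decide_false, decide_true, if_false, Bool.false_eq_true]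
        at hy ⊢
      omega
    · simp only [if_true, hio, hio.symm, decide_false, decide_true, if_false] at hy ⊢
      omega
    · simp only [if_true, hio, decide_true, if_false] at hy ⊢
      omega

lemma viol_runs' (i o : L) (hio : i ≠ o) (p : List L) (hp : ∀ y ∈ p, y = o ∨ y = i) :
    viol p + 2 * runs {i} p ≤ p.length + 1 := by
  cases p with
  | nil => simp [viol, runs, runsAux]
  | cons x q =>
    have h := viol_runs i o hio q x hp
    have hx := hp x (by simp)
    simp only [runs, runsAux, Finset.mem_singleton, List.length_cons]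
    rcases hx with rfl | rfl
    · simp only [if_true, hio.symm, decide_false, if_false] at h ⊢
      omega
    · simp only [if_true, hio, decide_true, if_false, Bool.false_eq_true] at h ⊢
      omega

lemma viol_map_inj {α β : Type} [DecidableEq α] [DecidableEq β] (f : α → β) : ∀ (p : List α),
    (∀ x ∈ p, ∀ y ∈ p, f x = f y → x = y) → viol (p.map f) = viol p := by
  intro p
  induction p with
  | nil => intro _; rfl
  | cons x q ih =>
    intro h
    cases q with
    | nil => rfl
    | cons y t =>
      have ih' := ih (fun a ha b hb => h a (by simp at ha ⊢; tauto) b (by simp at hb ⊢; tauto))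
      simp only [List.map_cons, viol] at ih' ⊢
      rw [ih']
      have : (f x = f y) ↔ (x = y) := ⟨fun e => h x (by simp) y (by simp) e, fun e => by rw [e]⟩
      simp only [this]

lemma proj_mem {o i x : L} {z : List L} (hx : x ∈ KS.proj o i z) : x = o ∨ x = i := by
  simp only [KS.proj, List.mem_filter, decide_eq_true_eq] at hx
  exact hx.2

lemma length_filter_or (o i : L) (hio : i ≠ o) (z : List L) :
    (KS.proj o i z).length = z.count o + z.count i := by
  induction z with
  | nil => simp [KS.proj]
  | cons x t ih =>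
    simp only [KS.proj, Bool.decide_or] at ih
    simp only [KS.proj, Bool.decide_or, List.filter_cons, List.count_cons]
    by_cases h1 : x = o
    · subst h1
      simp [hio.symm, ih]
      omega
    · by_cases h2 : x = i
      · subst h2
        simp [h1, ih]
        omega
      · simp [h1, h2, ih]

lemma viol_code (o i : L) (hio : i ≠ o) (z : List L) :
    viol (code o i z) + 2 * blk {o} {i} z ≤ z.count o + z.count i + 1 := by
  have h := viol_runs' i o hio (KS.proj o i z) (fun y hy => proj_mem hy)
  rw [length_filter_or o i hio] at h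
  have h2 : viol (code o i z) = viol (KS.proj o i z) := by
    apply viol_map_inj
    intro x hx y hy hxy
    rcases proj_mem hx with rfl | rfl <;> rcases proj_mem hy with rfl | rfl <;> simp_all
  have h3 : blk {o} {i} z = runs {i} (KS.proj o i z) := by
    simp [blk, KS.proj]
  rw [h2, h3]
  exact h

lemma length_code (o i : L) (hio : i ≠ o) (z : List L) :
    (code o i z).length = z.count o + z.count i := by
  rw [code, List.length_map, length_filter_or o i hio]

lemma code_inj {o i : L} {z z' : List L} (h : code o i z = code o i z') :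
    KS.proj o i z = KS.proj o i z' := by
  have key : ∀ p p' : List L, (∀ x ∈ p, x = o ∨ x = i) → (∀ x ∈ p', x = o ∨ x = i) →
      p.map (fun x => decide (x = o)) = p'.map (fun x => decide (x = o)) → p = p' := by
    intro p
    induction p with
    | nil => intro p' _ _ h; simpa using h.symm
    | cons x q ih =>
      intro p' hp hp' h
      cases p' with
      | nil => simp at h
      | cons y q' =>
        simp only [List.map_cons, List.cons.injEq] at h
        have := ih q' (fun a ha => hp a (by simp [ha])) (fun a ha => hp' a (by simp [ha])) h.2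
        have hx := hp x (by simp)
        have hy := hp' y (by simp)
        have : x = y := by
          rcases hx with rfl | rfl <;> rcases hy with rfl | rfl <;> simp_all
        simp_all
  exact key _ _ (fun x hx => proj_mem hx) (fun x hx => proj_mem hx) h

lemma proj_self_of {o i : L} {z z' : List L} (h : KS.proj o i z = KS.proj o i z') :
    KS.proj o o z = KS.proj o o z' := by
  have h2 : ∀ z : List L, KS.proj o o z = KS.proj o o (KS.proj o i z) := by
    intro z
    simp only [KS.proj, List.filter_filter]
    congr 1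
    ext x
    by_cases hx : x = o <;> simp [hx]
  rw [h2 z, h2 z', h]

variable [Fintype L] (D : KS L)

lemma secL_append (v u : List Bool) (w : List L) : D.secL (v ++ u) w = D.secL u (D.secL v w) := by
  induction v generalizing w with
  | nil => rfl
  | cons b v ih => simp [KS.secL, ih]

lemma red_red (h1' : WordBasics L) (w : List L) : red (red w) = red w :=
  h1'.red_id _ (h1'.red_chain w)

lemma red_secL_red (h1 : Basics D) (h1' : WordBasics L) (u : List Bool) (w : List L) :
    red (D.secL u (red w)) = red (D.secL u w) := by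
  induction u generalizing w with
  | nil => exact red_red h1' w
  | cons b u ih =>
    simp only [KS.secL]
    rw [← ih (D.sec b (red w)), h1.red_sec, ih]

lemma ev_secL (h1 : Basics D) (v x : List Bool) (w : List L) :
    D.ev w (v ++ x) = D.ev w v ++ D.ev (D.secL v w) x := by
  induction v generalizing w with
  | nil =>
    have : D.ev w [] = [] := by
      have := h1.ev_length w []
      simpa using this
    simp [this, KS.secL]
  | cons b v ih =>
    simp only [List.cons_append, h1.ev_cons, KS.secL]
    rw [ih]

lemma ev_ext (h1 : Basics D) (j : ℕ) (w w' : List L)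
    (ha : ∀ v : List Bool, v.length = j → D.ev w v = D.ev w' v)
    (hb : ∀ v : List Bool, v.length = j → D.ev (D.secL v w) = D.ev (D.secL v w')) :
    D.ev w = D.ev w' := by
  funext x
  by_cases hx : j ≤ x.length
  · have h := ev_secL D h1 (x.take j) (x.drop j) w
    have h' := ev_secL D h1 (x.take j) (x.drop j) w'
    rw [List.take_append_drop] at h h'
    rw [h, h', ha _ (by simp [hx]), hb _ (by simp [hx])]
  · push Not at hx
    have h := ev_secL D h1 x (List.replicate (j - x.length) false) w
    have h' := ev_secL D h1 x (List.replicate (j - x.length) false) w'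
    have e := ha (x ++ List.replicate (j - x.length) false) (by simp; omega)
    rw [h, h'] at e
    exact (List.append_inj e (by rw [h1.ev_length, h1.ev_length])).1

lemma tot_tot (F : List L → ℕ) (j t : ℕ) (w : List L) :
    D.tot F (j + t) w = D.tot (fun z => D.tot F t z) j w := by
  induction j generalizing w with
  | zero => simp [KS.tot]
  | succ j ih =>
    rw [show j + 1 + t = (j + t) + 1 by omega]
    simp only [KS.tot]
    rw [ih, ih]

/-- The letter used for the projection: never `o`. -/
def ltr (i : L) : L := if i = D.o then D.nxt D.o else i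

lemma ltr_ne (i : L) : ltr D i ≠ D.o := by
  unfold ltr
  split_ifs with h
  · exact D.nxt_ne _
  · exact h

/-- Index type of the tuples. -/
abbrev Idx (L : Type) (j d : ℕ) : Type :=
  (Fin j → Bool) × (Σ t : Fin (d + 1), (Fin t.1 → Bool)) × L

/-- The tuple of projections of a word. -/
noncomputable def tup (j d : ℕ) (w : List L) (k : Idx L j d) : List Bool :=
  code D.o (ltr D k.2.2) (D.secL (List.ofFn k.2.1.2) (red (D.secL (List.ofFn k.1) w)))

lemma sum_idx (h3 : TotBasics D) (G : L → List L → ℕ) (j d : ℕ) (w : List L) :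
    ∑ k : Idx L j d, G k.2.2 (D.secL (List.ofFn k.2.1.2) (red (D.secL (List.ofFn k.1) w))) =
      ∑ t : Fin (d + 1), ∑ i : L, D.tot (fun z => D.tot (G i) t.1 (red z)) j w := by
  simp only [h3.tot_secL]
  rw [Fintype.sum_prod_type]
  simp only [Fintype.sum_prod_type, Fintype.sum_sigma]
  rw [Finset.sum_comm]
  refine Finset.sum_congr rfl fun t _ => ?_
  symm
  rw [Finset.sum_comm]
  refine Finset.sum_congr rfl fun v _ => ?_
  rw [Finset.sum_comm]

lemma tot_le_of (h3 : TotBasics D) {F G : List L → ℕ} (h : ∀ z, F z ≤ G z) (j : ℕ) (w : List L) :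
    D.tot F j w ≤ D.tot G j w := h3.tot_mono F G j w h

lemma count_bound (h1' : WordBasics L) (h3 : TotBasics D) (k : L) (t j : ℕ) (w : List L) :
    D.tot (fun z => D.tot (List.count k) t (red z)) j w = D.tot (rr {D.nxt^[t] k}) j w := by
  congr 1
  funext z
  rw [h3.tot_count, h1'.rr_single]

lemma blk_bound (h1' : WordBasics L) (h3 : TotBasics D) (X Y : Finset L)
    (t j : ℕ) (w : List L) :
    D.tot (bb X Y) (j + t) w ≤ D.tot (fun z => D.tot (blk X Y) t (red z)) j w := by
  rw [tot_tot]
  apply h3.tot_mono
  intro z
  rw [← h3.tot_red (bb X Y) t z (fun z => by simp only [bb, red_red h1'])]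
  apply h3.tot_mono
  intro z
  exact h1'.blk_red X Y z

/-- Data of a good level. -/
def Good (j d M r c : ℕ) (w : List L) : Prop :=
  2 ^ (j + d) ≤ r ∧
  (∀ t ≤ d, ∀ k : L, D.tot (rr {k}) j w ≤ M + 2 * r) ∧
  (∀ t ≤ d, ∀ i : L, i ≠ D.o → M ≤ D.tot (bb {D.o} {i}) (j + t) w + c * r)

lemma length_bound (h1' : WordBasics L) (h3 : TotBasics D) {j d M r c : ℕ} {w : List L}
    (hg : Good D j d M r c w) :
    ∑ k : Idx L j d, (tup D j d w k).length ≤ (d + 1) * Fintype.card L * (2 * (M + 2 * r)) := by
  unfold tup
  rw [sum_idx D h3 (fun i z => (code D.o (ltr D i) z).length)]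
  calc _ ≤ ∑ t : Fin (d + 1), ∑ i : L, 2 * (M + 2 * r) := by
        refine Finset.sum_le_sum fun t _ => Finset.sum_le_sum fun i _ => ?_
        simp only [length_code _ _ (ltr_ne D i)]
        simp only [h3.tot_add, count_bound D h1' h3]
        have := hg.2.1 0 (by omega) (D.nxt^[t.1] D.o)
        have := hg.2.1 0 (by omega) (D.nxt^[t.1] (ltr D i))
        omega
    _ = _ := by
        simp only [Finset.sum_const, Finset.card_univ, Fintype.card_fin, smul_eq_mul]
        ring

lemma viol_bound (h1' : WordBasics L) (h3 : TotBasics D) {j d M r c : ℕ} {w : List L}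
    (hg : Good D j d M r c w) :
    ∑ k : Idx L j d, viol (tup D j d w k) ≤ (d + 1) * Fintype.card L * ((5 + 2 * c) * r) := by
  unfold tup
  rw [sum_idx D h3 (fun i z => viol (code D.o (ltr D i) z))]
  calc _ ≤ ∑ t : Fin (d + 1), ∑ i : L, (5 + 2 * c) * r := by
        refine Finset.sum_le_sum fun t _ => Finset.sum_le_sum fun i _ => ?_
        have htd : t.1 ≤ d := by have := t.2; omega
        have e1 := hg.2.1 0 (by omega) (D.nxt^[t.1] D.o)
        have e2 := hg.2.1 0 (by omega) (D.nxt^[t.1] (ltr D i))
        have e3 := hg.2.2 t.1 htd (ltr D i) (ltr_ne D i)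
        have e4 := blk_bound D h1' h3 {D.o} {ltr D i} t.1 j w
        rw [← count_bound D h1' h3] at e1 e2
        have e5 : D.tot (fun z => D.tot (fun u => viol (code D.o (ltr D i) u)) t.1 (red z)) j w +
            2 * D.tot (fun z => D.tot (blk {D.o} {ltr D i}) t.1 (red z)) j w ≤
            D.tot (fun z => D.tot (List.count D.o) t.1 (red z)) j w +
            D.tot (fun z => D.tot (List.count (ltr D i)) t.1 (red z)) j w + 2 ^ t.1 * 2 ^ j := by
          have f1 : ∀ z, D.tot (fun u => viol (code D.o (ltr D i) u)) t.1 z +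
              (D.tot (blk {D.o} {ltr D i}) t.1 z + D.tot (blk {D.o} {ltr D i}) t.1 z) ≤
              D.tot (List.count D.o) t.1 z + D.tot (List.count (ltr D i)) t.1 z + 2 ^ t.1 := by
            intro z
            have h := h3.tot_mono (fun u => viol (code D.o (ltr D i) u) +
              (blk {D.o} {ltr D i} u + blk {D.o} {ltr D i} u))
              (fun u => u.count D.o + u.count (ltr D i) + 1) t.1 z (fun u => by
                have := viol_code D.o (ltr D i) (ltr_ne D i) u
                omega)
            simp only [h3.tot_add, h3.tot_const, one_mul] at h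
            exact h
          have h := h3.tot_mono (fun z => D.tot (fun u => viol (code D.o (ltr D i) u)) t.1 (red z) +
              (D.tot (blk {D.o} {ltr D i}) t.1 (red z) + D.tot (blk {D.o} {ltr D i}) t.1 (red z)))
            (fun z => D.tot (List.count D.o) t.1 (red z) +
              D.tot (List.count (ltr D i)) t.1 (red z) + 2 ^ t.1) j w (fun z => f1 (red z))
          simp only [h3.tot_add, h3.tot_const] at h
          omega
        have e6 : 2 ^ t.1 * 2 ^ j ≤ r := by
          refine le_trans ?_ hg.1
          rw [← pow_add]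
          exact Nat.pow_le_pow_right (by norm_num) (by omega)
        have e7 : (5 + 2 * c) * r = 5 * r + 2 * (c * r) := by ring
        rw [e7]
        omega
    _ = _ := by
        simp only [Finset.sum_const, Finset.card_univ, Fintype.card_fin, smul_eq_mul]
        ring

lemma tup_inj (h1 : Basics D) (h1' : WordBasics L) {d : ℕ}
    (hd : ∀ w w' : List L, (∀ u : List Bool, u.length ≤ d → ∀ i,
      KS.proj D.o i (D.secL u w) = KS.proj D.o i (D.secL u w')) → D.ev w = D.ev w')
    (j : ℕ) (w w' : List L) (ht : tup D j d w = tup D j d w')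
    (ha : ∀ v : Fin j → Bool, D.ev w (List.ofFn v) = D.ev w' (List.ofFn v)) :
    D.ev w = D.ev w' := by
  apply ev_ext D h1 j
  · intro v hv
    subst hv
    have := ha v.get
    rwa [List.ofFn_get] at this
  · intro v hv
    subst hv
    rw [← h1.ev_red (D.secL v w), ← h1.ev_red (D.secL v w')]
    apply hd
    intro u hu i
    have key : ∀ i, i ≠ D.o → KS.proj D.o i (D.secL u (red (D.secL v w))) =
        KS.proj D.o i (D.secL u (red (D.secL v w'))) := by
      intro i hi
      have := congrFun ht (v.get, ⟨⟨u.length, by omega⟩, u.get⟩, i)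
      simp only [tup, ltr, if_neg hi, List.ofFn_get] at this
      exact code_inj this
    by_cases hi : i = D.o
    · subst hi
      exact proj_self_of (key _ (D.nxt_ne D.o))
    · exact key i hi

/-- Set of tuples with few violations. -/
def Tset (K a b : ℕ) : Set (Fin K → List Bool) :=
  {p | (∑ k, (p k).length) ≤ a ∧ (∑ k, viol (p k)) ≤ b}

lemma ncard_level (h1 : Basics D) (h1' : WordBasics L) {d : ℕ}
    (hd : ∀ w w' : List L, (∀ u : List Bool, u.length ≤ d → ∀ i,
      KS.proj D.o i (D.secL u w) = KS.proj D.o i (D.secL u w')) → D.ev w = D.ev w')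
    (j a b : ℕ) (hfin : (Tset (Fintype.card (Idx L j d)) a b).Finite) :
    ({g : List Bool → List Bool | ∃ w : List L, D.ev w = g ∧
      (∑ k, (tup D j d w k).length) ≤ a ∧ (∑ k, viol (tup D j d w k)) ≤ b}).Finite ∧
    ({g : List Bool → List Bool | ∃ w : List L, D.ev w = g ∧
      (∑ k, (tup D j d w k).length) ≤ a ∧ (∑ k, viol (tup D j d w k)) ≤ b}).ncard ≤
    (Set.pi Set.univ fun _ : Fin j → Bool => {l : List Bool | l.length = j}).ncard *
      (Tset (Fintype.card (Idx L j d)) a b).ncard := by
  classical
  set S := {g : List Bool → List Bool | ∃ w : List L, D.ev w = g ∧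
      (∑ k, (tup D j d w k).length) ≤ a ∧ (∑ k, viol (tup D j d w k)) ≤ b} with hS
  set e := Fintype.equivFin (Idx L j d) with he
  let W : (List Bool → List Bool) → List L := fun g =>
    if h : ∃ w : List L, D.ev w = g ∧
      (∑ k, (tup D j d w k).length) ≤ a ∧ (∑ k, viol (tup D j d w k)) ≤ b then h.choose else []
  have hW : ∀ g ∈ S, D.ev (W g) = g ∧
      (∑ k, (tup D j d (W g) k).length) ≤ a ∧ (∑ k, viol (tup D j d (W g) k)) ≤ b := by
    intro g hg
    have hg' : ∃ w : List L, D.ev w = g ∧
      (∑ k, (tup D j d w k).length) ≤ a ∧ (∑ k, viol (tup D j d w k)) ≤ b := hg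
    simp only [W, dif_pos hg']
    exact hg'.choose_spec
  let F : (List Bool → List Bool) → ((Fin j → Bool) → List Bool) ×
      (Fin (Fintype.card (Idx L j d)) → List Bool) :=
    fun g => (fun v => D.ev (W g) (List.ofFn v), fun k => tup D j d (W g) (e.symm k))
  have hT : ((Set.pi Set.univ fun _ : Fin j → Bool => {l : List Bool | l.length = j}) ×ˢ
      (Tset (Fintype.card (Idx L j d)) a b)).Finite := by
    apply Set.Finite.prod _ hfin
    apply Set.Finite.pi
    intro v
    exact List.finite_length_eq Bool j
  have hmaps : ∀ g ∈ S, F g ∈ ((Set.pi Set.univ fun _ : Fin j → Bool =>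
      {l : List Bool | l.length = j}) ×ˢ (Tset (Fintype.card (Idx L j d)) a b)) := by
    intro g hg
    obtain ⟨-, h2, h3⟩ := hW g hg
    refine ⟨?_, ?_, ?_⟩
    · intro v _
      simp [F, h1.ev_length]
    · simp only [F]
      rw [Equiv.sum_comp e.symm (fun k => (tup D j d (W g) k).length)]
      exact h2
    · simp only [F]
      rw [Equiv.sum_comp e.symm (fun k => viol (tup D j d (W g) k))]
      exact h3
  have hinj : Set.InjOn F S := by
    intro g hg g' hg' hF
    simp only [F, Prod.mk.injEq] at hF
    rw [← (hW g hg).1, ← (hW g' hg').1]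
    apply tup_inj D h1 h1' hd j
    · funext k
      have := congrFun hF.2 (e k)
      simpa using this
    · intro v
      exact congrFun hF.1 v
  rw [← Set.ncard_prod]
  exact ⟨Set.Finite.of_injOn hmaps hinj hT, Set.ncard_le_ncard_of_injOn F hmaps hinj hT⟩

theorem b8 (h1 : Basics D) (h1' : WordBasics L) (h3 : TotBasics D) (h4 : Window D)
    (h5 : Closure D) (h6 : Reconstruct D) (h7 : Counting) : Assembly D := by
  classical
  intro E hE δ hδ
  obtain ⟨d, hd⟩ := h6
  have hc : ∀ i, ∃ c d' : ℕ, i ≠ D.o → ∀ w j0 j1 M r, D.Win E w j0 j1 M r → 2 ^ (j1 + 1) ≤ r →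
      ∀ j, j0 + d' ≤ j → j + d' ≤ j1 → M ≤ D.tot (bb {D.o} {i}) j w + c * r := by
    intro i
    by_cases hi : i = D.o
    · exact ⟨0, 0, fun h => absurd hi h⟩
    · obtain ⟨c, d', h⟩ := h5 E hE.toMixing _ _ (hE.mono i hi)
      exact ⟨c, d', fun _ => h⟩
  choose cc dd hcc using hc
  set c := ∑ i, cc i with hcdef
  set d1 := ∑ i, dd i with hd1def
  have hccle : ∀ i, cc i ≤ c := fun i => Finset.single_le_sum (fun _ _ => Nat.zero_le _) (mem_univ i)
  have hddle : ∀ i, dd i ≤ d1 := fun i => Finset.single_le_sum (fun _ _ => Nat.zero_le _) (mem_univ i)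
  set a0 := (d + 1) * Fintype.card L with ha0
  obtain ⟨N, hN, hcount⟩ := h7 δ (6 * a0) (a0 * (5 + 2 * c)) hδ
  obtain ⟨J, C, hCJ, hwin⟩ := h4 E hE.toMixing (2 * d1 + d) N hN
  set C₁ := 6 * a0 * C + a0 * (5 + 2 * c) * C with hC₁
  choose CC hCC using fun j => hcount C₁ (Fintype.card (Idx L j d))
  set A : ℕ → ℕ := fun j =>
    (Set.pi Set.univ fun _ : Fin j → Bool => {l : List Bool | l.length = j}).ncard with hA
  refine ⟨∑ j ∈ range (J + 1), (A j : ℝ) * CC j, fun n => ?_⟩
  set a := 6 * a0 * n + C₁ with ha
  set b := a0 * (5 + 2 * c) * (n / N) + C₁ with hb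
  set S : ℕ → Set (List Bool → List Bool) := fun j => {g | ∃ w : List L, D.ev w = g ∧
      (∑ k, (tup D j d w k).length) ≤ a ∧ (∑ k, viol (tup D j d w k)) ≤ b} with hS
  have hlev : ∀ j, (S j).Finite ∧ (S j).ncard ≤ A j * (Tset (Fintype.card (Idx L j d)) a b).ncard :=
    fun j => ncard_level D h1 h1' hd j a b (hCC j n).1
  have hcover : {g : List Bool → List Bool | ∃ w : List L, w.length ≤ n ∧ D.ev w = g} ⊆
      ⋃ j ∈ range (J + 1), S j := by
    rintro g ⟨w, hw, rfl⟩
    obtain ⟨j0, M, hj0, hM, hwi⟩ := hwin n w hw
    set r := n / N + C with hr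
    have hrn : r ≤ n + C := by
      have := Nat.div_le_self n N
      omega
    have hpow : ∀ k, k ≤ J + 1 → 2 ^ k ≤ r := by
      intro k hk
      calc 2 ^ k ≤ 2 ^ (J + 1) := Nat.pow_le_pow_right (by norm_num) hk
        _ ≤ C := hCJ
        _ ≤ r := Nat.le_add_left _ _
    have hgood : Good D (j0 + d1) d M r c w := by
      refine ⟨hpow _ (by omega), ?_, ?_⟩
      · intro t _ k
        by_cases hk : k = D.o
        · subst hk
          have e1 := (hwi (j0 + d1) (by omega) (by omega) _ hE.base).2
          have e2 := h3.tot_mono (rr {D.o}) (fun z => rr ({D.o} : Finset L)ᶜ z + 1) (j0 + d1) w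
            (fun z => by
              have := h1'.runs_compl ({D.o} : Finset L)ᶜ (red z)
              rw [compl_compl] at this
              exact this)
          simp only [h3.tot_add, h3.tot_const, one_mul] at e2
          have := hpow (j0 + d1) (by omega)
          omega
        · have := (hwi (j0 + d1) (by omega) (by omega) _ (hE.leaf k hk)).2
          omega
      · intro t ht i hi
        have := hcc i hi w j0 (j0 + (2 * d1 + d)) M r hwi (hpow _ (by omega)) (j0 + d1 + t)
          (by have := hddle i; omega) (by have := hddle i; omega)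
        have := Nat.mul_le_mul_right r (hccle i)
        omega
    rw [Set.mem_iUnion₂]
    refine ⟨j0 + d1, by simp; omega, w, rfl, ?_, ?_⟩
    · refine (length_bound D h1' h3 hgood).trans ?_
      rw [← ha0, ha, hC₁]
      calc a0 * (2 * (M + 2 * r)) ≤ a0 * (6 * n + 6 * C) := Nat.mul_le_mul_left _ (by omega)
        _ = 6 * a0 * n + 6 * a0 * C := by ring
        _ ≤ _ := by omega
    · refine (viol_bound D h1' h3 hgood).trans ?_
      rw [← ha0, hb, hC₁, hr]
      calc a0 * ((5 + 2 * c) * (n / N + C)) = a0 * (5 + 2 * c) * (n / N) + a0 * (5 + 2 * c) * C := by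
            ring
        _ ≤ _ := by omega
  have hfinU : (⋃ j ∈ range (J + 1), S j).Finite :=
    Set.Finite.biUnion (Finset.finite_toSet _) (fun j _ => (hlev j).1)
  have hgam : D.gam n = ({g : List Bool → List Bool |
      ∃ w : List L, w.length ≤ n ∧ D.ev w = g}).ncard := rfl
  rw [hgam]
  have e1 : ({g : List Bool → List Bool | ∃ w : List L, w.length ≤ n ∧ D.ev w = g}).ncard ≤
      ∑ j ∈ range (J + 1), (S j).ncard :=
    (Set.ncard_le_ncard hcover hfinU).trans (Finset.set_ncard_biUnion_le _ _)
  calc ((({g : List Bool → List Bool | ∃ w : List L, w.length ≤ n ∧ D.ev w = g}).ncard : ℕ) : ℝ)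
      ≤ ((∑ j ∈ range (J + 1), (S j).ncard : ℕ) : ℝ) := by exact_mod_cast e1
    _ = ∑ j ∈ range (J + 1), ((S j).ncard : ℝ) := by push_cast; rfl
    _ ≤ ∑ j ∈ range (J + 1), (A j : ℝ) * (CC j * Real.exp (δ * n)) := by
        refine Finset.sum_le_sum fun j _ => ?_
        calc ((S j).ncard : ℝ) ≤ ((A j * (Tset (Fintype.card (Idx L j d)) a b).ncard : ℕ) : ℝ) := by
              exact_mod_cast (hlev j).2
          _ = (A j : ℝ) * ((Tset (Fintype.card (Idx L j d)) a b).ncard : ℝ) := by push_cast; rfl
          _ ≤ _ := mul_le_mul_of_nonneg_left (hCC j n).2 (Nat.cast_nonneg _)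
    _ = _ := by
        rw [Finset.sum_mul]
        refine Finset.sum_congr rfl fun j _ => ?_
        ring

end

end R4
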