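import Pool.Agent.Work.MP_e3f5d9_al.Interface

/-!
# R4, block B9a: the other sections form a finite set
-/

set_option autoImplicit false

open Finset

namespace R4

namespace B9aAux

/-! ### Two involutions -/

section two

variable {G : Type} [Group G] (P Q : G)

lemma dihedral_closed (hP : P * P = 1) (hQ : Q * Q = 1) (g : G)
    (hg : (∃ k : ℤ, g = (P * Q) ^ k) ∨ ∃ k : ℤ, g = (P * Q) ^ k * P) :
    ((∃ k : ℤ, g * P = (P * Q) ^ k) ∨ ∃ k : ℤ, g * P = (P * Q) ^ k * P) ∧
    ((∃ k : ℤ, g * Q = (P * Q) ^ k) ∨ ∃ k : ℤ, g * Q = (P * Q) ^ k * P) := by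
  have hinv : (P * Q)⁻¹ = Q * P := by
    rw [mul_inv_rev, inv_eq_of_mul_eq_one_right hP, inv_eq_of_mul_eq_one_right hQ]
  rcases hg with ⟨k, rfl⟩ | ⟨k, rfl⟩
  · refine ⟨Or.inr ⟨k, rfl⟩, Or.inr ⟨k - 1, ?_⟩⟩
    rw [zpow_sub_one, hinv, mul_assoc, mul_assoc, hP, mul_one]
  · refine ⟨Or.inl ⟨k, ?_⟩, Or.inl ⟨k + 1, ?_⟩⟩
    · rw [mul_assoc, hP, mul_one]
    · rw [zpow_add_one, mul_assoc]

end two

variable {L : Type} [Fintype L] [DecidableEq L] (D : KS L)

/-- The letter `i` as a permutation. -/
noncomputable def perm (h : Basics D) (i : L) : Equiv.Perm (List Bool) where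
  toFun := D.act i
  invFun := D.act i
  left_inv := h.act_act i
  right_inv := h.act_act i

lemma perm_apply (h : Basics D) (i : L) (x : List Bool) : perm D h i x = D.act i x := rfl

lemma perm_mul_self (h : Basics D) (i : L) : perm D h i * perm D h i = 1 := by
  apply Equiv.ext
  intro x
  exact h.act_act i x

/-- The permutation of an optional letter. -/
noncomputable def permO (h : Basics D) : Option L → Equiv.Perm (List Bool)
  | none => 1
  | some i => perm D h i

lemma permO_mul_self (h : Basics D) (i : Option L) : permO D h i * permO D h i = 1 := by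
  cases i with
  | none => simp [permO]
  | some i => exact perm_mul_self D h i

lemma perm_cons (h : Basics D) (j : L) (hj : j ≠ D.o) (b : Bool) (x : List Bool) :
    perm D h j (b :: x) = b :: permO D h (D.pre b j) x := by
  rw [perm_apply]
  unfold KS.act
  rw [if_neg hj]
  cases D.pre b j with
  | none => rfl
  | some i => rfl

lemma perm_o (h : Basics D) (b : Bool) (x : List Bool) :
    perm D h D.o (b :: x) = (!b) :: x := by
  rw [perm_apply]
  unfold KS.act
  rw [if_pos rfl]

lemma perm_nil (h : Basics D) (j : L) : perm D h j [] = [] := by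
  rw [perm_apply]
  unfold KS.act
  rfl

/-- Powers of a permutation that acts below each letter. -/
lemma pow_cons (g : Equiv.Perm (List Bool)) (A : Bool → Equiv.Perm (List Bool))
    (hg : ∀ b x, g (b :: x) = b :: A b x) (n : ℕ) (b : Bool) (x : List Bool) :
    (g ^ n) (b :: x) = b :: ((A b) ^ n) x := by
  induction n generalizing x with
  | zero => simp
  | succ n ih =>
    rw [pow_succ, Equiv.Perm.mul_apply, hg, ih, pow_succ, Equiv.Perm.mul_apply]

lemma finOrder_of (g : Equiv.Perm (List Bool)) (A : Bool → Equiv.Perm (List Bool))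
    (hnil : g [] = []) (hg : ∀ b x, g (b :: x) = b :: A b x)
    (hA : ∀ b, IsOfFinOrder (A b)) : IsOfFinOrder g := by
  obtain ⟨m, hm, hm'⟩ := (isOfFinOrder_iff_pow_eq_one).1 (hA false)
  obtain ⟨n, hn, hn'⟩ := (isOfFinOrder_iff_pow_eq_one).1 (hA true)
  refine (isOfFinOrder_iff_pow_eq_one).2 ⟨m * n, Nat.mul_pos hm hn, ?_⟩
  apply Equiv.ext
  intro x
  cases x with
  | nil =>
    have : ∀ k, (g ^ k) [] = [] := by
      intro k
      induction k with
      | zero => rfl
      | succ k ih => rw [pow_succ, Equiv.Perm.mul_apply, hnil, ih]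
    exact this _
  | cons b x =>
    rw [pow_cons g A hg]
    cases b with
    | false => rw [pow_mul, hm', one_pow]; rfl
    | true => rw [mul_comm m n, pow_mul, hn', one_pow]; rfl

lemma fo_finOrder (h : Basics D) {i j : L} (hij : D.FO i j) :
    IsOfFinOrder (perm D h i * perm D h j) := by
  induction hij with
  | refl i => rw [perm_mul_self]; exact IsOfFinOrder.one
  | symm i j _ ih =>
    have : perm D h j * perm D h i = (perm D h i * perm D h j)⁻¹ := by
      rw [mul_inv_rev, inv_eq_of_mul_eq_one_right (perm_mul_self D h i),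
        inv_eq_of_mul_eq_one_right (perm_mul_self D h j)]
    rw [this]
    exact ih.inv
  | base j hj huniq =>
    -- the square acts below each letter
    have hsq : ∀ b x, ((perm D h D.o * perm D h j) ^ 2) (b :: x) =
        b :: (permO D h (D.pre (!b) j) * permO D h (D.pre b j)) x := by
      intro b x
      rw [pow_two]
      simp only [Equiv.Perm.mul_apply]
      rw [perm_cons D h j hj, perm_o, perm_cons D h j hj, perm_o, Bool.not_not]
    have hfin : ∀ b, IsOfFinOrder (permO D h (D.pre (!b) j) * permO D h (D.pre b j)) := by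
      intro b
      refine (isOfFinOrder_iff_pow_eq_one).2 ⟨2, by norm_num, ?_⟩
      cases h1 : D.pre b j with
      | none => simp only [permO, mul_one]; rw [pow_two]; exact permO_mul_self D h _
      | some i =>
        cases h2 : D.pre (!b) j with
        | none => simp only [permO, one_mul]; rw [pow_two]; exact perm_mul_self D h _
        | some i' =>
          exfalso
          have e1 := (h.pre_eq b j i).1 h1
          have e2 := (h.pre_eq (!b) j i').1 h2
          have e3 := huniq i i' e1.1 e2.1
          have e4 := e1.2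
          rw [e3, e2.2] at e4
          cases b <;> simp at e4
    have hsqfin : IsOfFinOrder ((perm D h D.o * perm D h j) ^ 2) := by
      refine finOrder_of _ _ ?_ hsq hfin
      rw [pow_two]
      simp only [Equiv.Perm.mul_apply, perm_nil]
    obtain ⟨m, hm, hm'⟩ := (isOfFinOrder_iff_pow_eq_one).1 hsqfin
    refine (isOfFinOrder_iff_pow_eq_one).2 ⟨2 * m, by omega, ?_⟩
    rw [pow_mul]
    exact hm'
  | step i j hi hj hst ih =>
    refine finOrder_of _ (fun b => permO D h (D.pre b i) * permO D h (D.pre b j)) ?_ ?_ ?_
    · simp only [Equiv.Perm.mul_apply, perm_nil]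
    · intro b x
      simp only [Equiv.Perm.mul_apply]
      rw [perm_cons D h j hj, perm_cons D h i hi]
    · intro b
      cases h1 : D.pre b i with
      | none =>
        refine (isOfFinOrder_iff_pow_eq_one).2 ⟨2, by norm_num, ?_⟩
        simp only [permO, one_mul]
        rw [pow_two]
        exact permO_mul_self D h _
      | some i' =>
        cases h2 : D.pre b j with
        | none =>
          refine (isOfFinOrder_iff_pow_eq_one).2 ⟨2, by norm_num, ?_⟩
          simp only [permO, mul_one]
          rw [pow_two]
          exact perm_mul_self D h _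
        | some j' =>
          have e1 := (h.pre_eq b i i').1 h1
          have e2 := (h.pre_eq b j j').1 h2
          exact ih i' j' e1.1 e2.1 (e1.2.trans e2.2.symm)

/-! ### The colliding pair -/

lemma pair_unique {p q : L} (hpq : p ≠ q) (hn : D.nxt p = D.nxt q) :
    ∀ i i', i ≠ i' → D.nxt i = D.nxt i' → i = p ∨ i' = p := by
  classical
  have hcard : ((Finset.univ.erase p).image D.nxt).card = (Finset.univ.erase p).card := by
    apply le_antisymm Finset.card_image_le
    have h1 : (Finset.univ.erase p).card = Fintype.card L - 1 := by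
      rw [Finset.card_erase_of_mem (Finset.mem_univ _), Finset.card_univ]
    have h2 : (Finset.univ.erase D.o).card = Fintype.card L - 1 := by
      rw [Finset.card_erase_of_mem (Finset.mem_univ _), Finset.card_univ]
    rw [h1, ← h2]
    apply Finset.card_le_card
    intro j hj
    obtain ⟨i, hi⟩ := D.surj j (Finset.ne_of_mem_erase hj)
    rw [Finset.mem_image]
    by_cases hip : i = p
    · exact ⟨q, Finset.mem_erase.2 ⟨fun e => hpq e.symm, Finset.mem_univ _⟩, by
        rw [← hn, ← hip]; exact hi⟩
    · exact ⟨i, Finset.mem_erase.2 ⟨hip, Finset.mem_univ _⟩, hi⟩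
  have hinj := Finset.card_image_iff.1 hcard
  intro i i' hii hnn
  by_contra hcon
  push Not at hcon
  exact hii (hinj (by simp [hcon.1]) (by simp [hcon.2]) hnn)

lemma ev_pair (h : Basics D) (p q : L) (w : List L) (hw : ∀ x ∈ w, x = p ∨ x = q) :
    ∃ g : Equiv.Perm (List Bool), ((∃ k : ℤ, g = (perm D h p * perm D h q) ^ k) ∨
      ∃ k : ℤ, g = (perm D h p * perm D h q) ^ k * perm D h p) ∧ D.ev w = g := by
  induction w with
  | nil => exact ⟨1, Or.inl ⟨0, by simp⟩, by funext x; simp [KS.ev]⟩
  | cons i w ih =>
    obtain ⟨g, hg, hg'⟩ := ih (fun x hx => hw x (List.mem_cons_of_mem _ hx))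
    have hcl := dihedral_closed (perm D h p) (perm D h q) (perm_mul_self D h p)
      (perm_mul_self D h q) g hg
    refine ⟨g * perm D h i, ?_, ?_⟩
    · rcases hw i List.mem_cons_self with rfl | rfl
      · exact hcl.1
      · exact hcl.2
    · funext x
      show D.ev w (D.act i x) = _
      rw [hg', Equiv.Perm.mul_apply, perm_apply]

end B9aAux

open B9aAux in
/-- B9a. -/
theorem b9a {L : Type} [Fintype L] [DecidableEq L] (D : KS L) (h : Basics D) :
    FiniteOther D := by
  intro hFO
  by_cases hex : ∃ p q, p ≠ q ∧ D.nxt p = D.nxt q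
  · obtain ⟨p, q, hpq, hn⟩ := hex
    have hoth : ∀ i k, D.oth i = some k → k = p ∨ k = q := by
      intro i k hik
      have e1 := (h.pre_eq _ _ _).1 hik
      have hne : i ≠ k := by
        rintro rfl
        have := e1.2
        cases hs : D.side i <;> simp [hs] at this
      rcases pair_unique D hpq hn i k hne e1.1.symm with h1 | h1
      · rcases pair_unique D hpq.symm hn.symm i k hne e1.1.symm with h2 | h2
        · exact absurd (h1.symm.trans h2) hpq
        · exact Or.inr h2
      · exact Or.inl h1
    have hfin : IsOfFinOrder (perm D h p * perm D h q) := fo_finOrder D h (hFO p q hpq hn)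
    have hZ : (Subgroup.zpowers (perm D h p * perm D h q) : Set (Equiv.Perm (List Bool))).Finite :=
      finite_zpowers.2 hfin
    have hU := (hZ.union (hZ.image (fun g => g * perm D h p))).image
      (fun g : Equiv.Perm (List Bool) => (g : List Bool → List Bool))
    refine hU.subset ?_
    rintro g ⟨w, rfl⟩
    obtain ⟨g, hg, hg'⟩ := ev_pair D h p q (w.filterMap D.oth) (by
      intro x hx
      obtain ⟨i, -, hi⟩ := List.mem_filterMap.1 hx
      exact hoth i x hi)
    rw [hg']
    refine ⟨g, ?_, rfl⟩
    rcases hg with ⟨k, rfl⟩ | ⟨k, rfl⟩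
    · exact Or.inl ⟨k, rfl⟩
    · exact Or.inr ⟨_, ⟨k, rfl⟩, rfl⟩
  · push Not at hex
    have hnone : ∀ i, D.oth i = none := by
      intro i
      cases hi : D.oth i with
      | none => rfl
      | some k =>
        exfalso
        have e1 := (h.pre_eq _ _ _).1 hi
        have hne : i ≠ k := by
          rintro rfl
          have := e1.2
          cases hs : D.side i <;> simp [hs] at this
        exact hex i k hne e1.1.symm
    refine (Set.finite_singleton (D.ev [])).subset ?_
    rintro g ⟨w, rfl⟩
    have : w.filterMap D.oth = [] := by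
      rw [List.filterMap_eq_nil_iff]
      intro a _
      exact hnone a
    rw [this]
    rfl

end R4
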