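import Pool.Agent.Work.MP_e3f5d9_al.Interface

/-!
# Block B9b: the square step
-/

set_option autoImplicit false

open Finset

namespace R4

namespace B9bAux

variable {L : Type} [Fintype L] [DecidableEq L] (D : KS L)

lemma pre_some {b : Bool} {j i : L} (h : D.nxt i = j) (hs : D.side i = b) :
    D.pre b j = some i := by
  classical
  have hex : ∃ i, D.nxt i = j ∧ D.side i = b := ⟨i, h, hs⟩
  unfold KS.pre
  rw [dif_pos hex]
  have hc := hex.choose_spec
  congr 1
  exact D.inj _ _ (hc.1.trans h.symm) (hc.2.trans hs.symm)

/-- The word that acts as `i` below the vertex `b`. -/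
def ph (b : Bool) (i : L) : List L := if D.side i = b then [D.nxt i] else [D.o, D.nxt i, D.o]

/-- The word that acts as `w` below the vertex `b`. -/
def Phi (b : Bool) (w : List L) : List L := w.flatMap (ph D b)

lemma ev_append (w w' : List L) (x : List Bool) : D.ev (w ++ w') x = D.ev w' (D.ev w x) := by
  induction w generalizing x with
  | nil => rfl
  | cons i w ih => exact ih _

lemma act_o (b : Bool) (x : List Bool) : D.act D.o (b :: x) = (!b) :: x := by
  simp [KS.act]

lemma act_nxt (i : L) (b : Bool) (x : List Bool) (h : D.side i = b) :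
    D.act (D.nxt i) (b :: x) = b :: D.act i x := by
  have hp : D.pre b (D.nxt i) = some i := pre_some D rfl h
  simp only [KS.act, if_neg (D.nxt_ne i), hp]

lemma act_nxt' (i : L) (b : Bool) (x : List Bool) (h : D.side i = b) :
    D.act (D.nxt i) ((!b) :: x) = (!b) :: D.ev (([i] : List L).filterMap D.oth) x := by
  have ho : D.oth i = D.pre (!b) (D.nxt i) := by
    unfold KS.oth; rw [h]
  simp only [KS.act, if_neg (D.nxt_ne i)]
  rcases hp : D.pre (!b) (D.nxt i) with _ | k
  · simp [ho, hp, KS.ev]
  · simp [ho, hp, KS.ev]

lemma ev_ph (b : Bool) (i : L) (x : List Bool) : D.ev (ph D b i) (b :: x) = b :: D.act i x := by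
  unfold ph
  split_ifs with h
  · exact act_nxt D i b x h
  · have h' : D.side i = !b := by
      cases hs : D.side i <;> cases b <;> simp_all
    show D.act D.o (D.act (D.nxt i) (D.act D.o (b :: x))) = _
    rw [act_o, act_nxt D i (!b) x h', act_o, Bool.not_not]

lemma ev_ph' (b : Bool) (i : L) (x : List Bool) :
    D.ev (ph D b i) ((!b) :: x) = (!b) :: D.ev (([i] : List L).filterMap D.oth) x := by
  unfold ph
  split_ifs with h
  · exact act_nxt' D i b x h
  · have h' : D.side i = !b := by
      cases hs : D.side i <;> cases b <;> simp_all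
    show D.act D.o (D.act (D.nxt i) (D.act D.o ((!b) :: x))) = _
    rw [act_o]
    have := act_nxt' D i (!b) x h'
    rw [this, act_o, Bool.not_not]

lemma ev_Phi (b : Bool) (w : List L) (x : List Bool) :
    D.ev (Phi D b w) (b :: x) = b :: D.ev w x := by
  induction w generalizing x with
  | nil => rfl
  | cons i w ih =>
    have : Phi D b (i :: w) = ph D b i ++ Phi D b w := by simp [Phi]
    rw [this, ev_append, ev_ph, ih]
    rfl

lemma ev_Phi' (b : Bool) (w : List L) (x : List Bool) :
    D.ev (Phi D b w) ((!b) :: x) = (!b) :: D.ev (w.filterMap D.oth) x := by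
  induction w generalizing x with
  | nil => rfl
  | cons i w ih =>
    have h1 : Phi D b (i :: w) = ph D b i ++ Phi D b w := by simp [Phi]
    have h2 : (i :: w).filterMap D.oth = ([i] : List L).filterMap D.oth ++ w.filterMap D.oth := by
      rw [← List.filterMap_append]; rfl
    rw [h1, h2, ev_append, ev_ph', ih, ev_append]

lemma length_Phi (b : Bool) (w : List L) : (Phi D b w).length ≤ 3 * w.length := by
  induction w with
  | nil => simp [Phi]
  | cons i w ih =>
    have h1 : Phi D b (i :: w) = ph D b i ++ Phi D b w := by simp [Phi]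
    have h2 : (ph D b i).length ≤ 3 := by
      unfold ph; split_ifs <;> simp
    rw [h1, List.length_append, List.length_cons]
    omega

lemma act_act (i : L) (x : List Bool) : D.act i (D.act i x) = x := by
  induction x generalizing i with
  | nil => simp [KS.act]
  | cons b x ih =>
    by_cases h : i = D.o
    · subst h; rw [act_o, act_o, Bool.not_not]
    · rcases hp : D.pre b i with _ | k
      · simp [KS.act, h, hp]
      · simp [KS.act, h, hp, ih]

lemma ev_reverse (w : List L) (x : List Bool) : D.ev w.reverse (D.ev w x) = x := by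
  induction w generalizing x with
  | nil => rfl
  | cons i w ih =>
    rw [List.reverse_cons, ev_append]
    show D.act i (D.ev w.reverse (D.ev w (D.act i x))) = x
    rw [ih, act_act]

lemma ev_injective (w : List L) : Function.Injective (D.ev w) :=
  Function.LeftInverse.injective (ev_reverse D w)

lemma finite_words (n : ℕ) :
    Set.Finite {g : List Bool → List Bool | ∃ w : List L, w.length ≤ n ∧ D.ev w = g} := by
  have h : Set.Finite {w : List L | w.length ≤ n} := List.finite_length_le L n
  refine (h.image D.ev).subset ?_
  rintro g ⟨w, hw, rfl⟩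
  exact ⟨w, hw, rfl⟩

lemma gam_eq (n : ℕ) : D.gam n =
    Set.ncard {g : List Bool → List Bool | ∃ w : List L, w.length ≤ n ∧ D.ev w = g} := rfl

end B9bAux

open B9bAux

theorem b9b {L : Type} [Fintype L] [DecidableEq L] (D : KS L) : SquareStep D := by
  classical
  intro hfin
  set K0 : Set (List Bool → List Bool) := {g | ∃ w : List L, D.ev (w.filterMap D.oth) = g}
    with hK0
  -- representatives
  have hrep : ∀ κ : K0, ∃ w : List L, D.ev (w.filterMap D.oth) = κ.1 := fun κ => κ.2
  choose rep hrep using hrep
  haveI : Finite K0 := hfin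
  obtain ⟨c0, hc0⟩ : ∃ c0, ∀ κ : K0, (rep κ).length ≤ c0 := by
    obtain ⟨c0, hc0⟩ := (Set.finite_range fun κ : K0 => (rep κ).length).bddAbove
    exact ⟨c0, fun κ => hc0 ⟨κ, rfl⟩⟩
  refine ⟨6 * (1 + c0), (Set.ncard K0) ^ 2, ?_⟩
  intro r hr
  set B : ℕ → Set (List Bool → List Bool) := fun n => {g | ∃ w : List L, w.length ≤ n ∧ D.ev w = g}
    with hB
  have hBfin : ∀ n, (B n).Finite := fun n => finite_words D n
  set F : Set (List Bool → List Bool) :=
    {g | ∃ u : List L, u.length ≤ r + c0 ∧ D.ev (u.filterMap D.oth) = id ∧ D.ev u = g} with hF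
  have hFfin : F.Finite := by
    refine (hBfin (r + c0)).subset ?_
    rintro g ⟨u, hu, -, rfl⟩
    exact ⟨u, hu, rfl⟩
  -- first step
  have h1 : (B r).ncard ≤ K0.ncard * F.ncard := by
    have hw : ∀ g : B r, ∃ w : List L, w.length ≤ r ∧ D.ev w = g.1 := fun g => g.2
    choose wd hwd1 hwd2 using hw
    set kap : B r → K0 := fun g => ⟨D.ev ((wd g).filterMap D.oth), ⟨wd g, rfl⟩⟩ with hkap
    set tw : B r → List L := fun g => (rep (kap g)).reverse with htw
    have hmem : ∀ g : B r, D.ev (wd g ++ tw g) ∈ F := by
      intro g
      refine ⟨wd g ++ tw g, ?_, ?_, rfl⟩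
      · rw [List.length_append]
        have := hwd1 g
        have h2 := hc0 (kap g)
        have h3 : (tw g).length = (rep (kap g)).length := by simp [htw]
        omega
      · funext x
        rw [List.filterMap_append, ev_append, htw]
        simp only
        rw [List.filterMap_reverse]
        have h4 : D.ev ((wd g).filterMap D.oth) = D.ev ((rep (kap g)).filterMap D.oth) := by
          rw [hrep (kap g)]
        rw [h4, ev_reverse]
        rfl
    have hcard : Nat.card (B r) ≤ Nat.card (K0 × F) := by
      haveI : Finite F := hFfin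
      refine Nat.card_le_card_of_injective
        (fun g : B r => ((kap g, ⟨D.ev (wd g ++ tw g), hmem g⟩) : K0 × F)) ?_
      intro g g' hgg
      simp only [Prod.mk.injEq, Subtype.mk.injEq] at hgg
      obtain ⟨hk, he⟩ := hgg
      have ht : tw g = tw g' := by simp only [htw, hk]
      apply Subtype.ext
      rw [← hwd2 g, ← hwd2 g']
      funext x
      have := congrFun he x
      rw [ev_append, ev_append, ht] at this
      exact ev_injective D _ this
    rw [Nat.card_prod] at hcard
    exact hcard
  -- second step
  have h2 : F.ncard ^ 2 ≤ (B (6 * (r + c0))).ncard := by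
    have hu : ∀ g : F, ∃ u : List L, u.length ≤ r + c0 ∧ D.ev (u.filterMap D.oth) = id ∧
        D.ev u = g.1 := fun g => g.2
    choose ud hu1 hu2 hu3 using hu
    have hmem : ∀ g g' : F, D.ev (Phi D false (ud g) ++ Phi D true (ud g')) ∈
        B (6 * (r + c0)) := by
      intro g g'
      refine ⟨_, ?_, rfl⟩
      rw [List.length_append]
      have a1 := length_Phi D false (ud g)
      have a2 := length_Phi D true (ud g')
      have a3 := hu1 g
      have a4 := hu1 g'
      omega
    have hcard : Nat.card (F × F) ≤ Nat.card (B (6 * (r + c0))) := by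
      haveI : Finite (B (6 * (r + c0))) := hBfin _
      refine Nat.card_le_card_of_injective
        (fun p : F × F => (⟨D.ev (Phi D false (ud p.1) ++ Phi D true (ud p.2)), hmem p.1 p.2⟩ :
          B (6 * (r + c0)))) ?_
      rintro ⟨g1, g2⟩ ⟨g1', g2'⟩ hgg
      simp only [Subtype.mk.injEq] at hgg
      have key1 : ∀ (g g' : F) (x : List Bool),
          D.ev (Phi D false (ud g) ++ Phi D true (ud g')) (false :: x) = false :: g.1 x := by
        intro g g' x
        rw [ev_append, ev_Phi]
        have := ev_Phi' D true (ud g') (D.ev (ud g) x)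
        simp only [Bool.not_true] at this
        rw [this, hu2 g', hu3 g]
        rfl
      have key2 : ∀ (g g' : F) (x : List Bool),
          D.ev (Phi D false (ud g) ++ Phi D true (ud g')) (true :: x) = true :: g'.1 x := by
        intro g g' x
        rw [ev_append]
        have := ev_Phi' D false (ud g) x
        simp only [Bool.not_false] at this
        rw [this, hu2 g, ev_Phi, hu3 g']
        rfl
      have e1 : g1 = g1' := by
        apply Subtype.ext
        funext x
        have := congrFun hgg (false :: x)
        rw [key1, key1] at this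
        exact (List.cons.inj this).2
      have e2 : g2 = g2' := by
        apply Subtype.ext
        funext x
        have := congrFun hgg (true :: x)
        rw [key2, key2] at this
        exact (List.cons.inj this).2
      rw [e1, e2]
    rw [Nat.card_prod] at hcard
    rw [sq]
    exact hcard
  have h3 : (B (6 * (r + c0))).ncard ≤ (B (6 * (1 + c0) * r)).ncard := by
    refine Set.ncard_le_ncard ?_ (hBfin _)
    rintro g ⟨w, hw, rfl⟩
    refine ⟨w, hw.trans ?_, rfl⟩
    have : c0 ≤ c0 * r := Nat.le_mul_of_pos_right _ hr
    nlinarith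
  show (B r).ncard ^ 2 ≤ K0.ncard ^ 2 * (B (6 * (1 + c0) * r)).ncard
  calc (B r).ncard ^ 2 ≤ (K0.ncard * F.ncard) ^ 2 := Nat.pow_le_pow_left h1 2
    _ = K0.ncard ^ 2 * F.ncard ^ 2 := by ring
    _ ≤ _ := Nat.mul_le_mul_left _ (h2.trans h3)

end R4
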