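import Pool.Agent.Work.MP_e3f5d9_al.B9b

/-!
# Blocks B9c and B9d: basic facts on the growth function, the doubling lemma
-/

set_option autoImplicit false

open Finset

namespace R4

namespace B9cAux

open B9bAux

variable {L : Type} [Fintype L] [DecidableEq L] (D : KS L)

/-- Level transitivity. -/
lemma level_transitive (n : ℕ) : ∀ x y : List Bool, x.length = n → y.length = n →
    ∃ w : List L, D.ev w x = y := by
  induction n with
  | zero =>
    intro x y hx hy
    rw [List.length_eq_zero_iff] at hx hy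
    subst hx; subst hy
    exact ⟨[], rfl⟩
  | succ n ih =>
    intro x y hx hy
    rcases x with _ | ⟨b, x⟩
    · simp at hx
    rcases y with _ | ⟨c, y⟩
    · simp at hy
    obtain ⟨w, hw⟩ := ih x y (by simpa using hx) (by simpa using hy)
    by_cases hbc : b = c
    · subst hbc
      exact ⟨Phi D b w, by rw [ev_Phi, hw]⟩
    · have hc : c = !b := by cases b <;> cases c <;> simp_all
      refine ⟨D.o :: Phi D c w, ?_⟩
      show D.ev (Phi D c w) (D.act D.o (b :: x)) = c :: y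
      rw [act_o, hc, ev_Phi, hw]

end B9cAux

open B9bAux B9cAux

theorem b9c {L : Type} [Fintype L] [DecidableEq L] (D : KS L) : GamBasics D := by
  classical
  constructor
  · intro m n hmn
    rw [gam_eq, gam_eq]
    refine Set.ncard_le_ncard ?_ (finite_words D n)
    rintro g ⟨w, hw, rfl⟩
    exact ⟨w, hw.trans hmn, rfl⟩
  · intro m
    -- the words of length `m` on two letters
    set x0 : List Bool := List.replicate m false with hx0
    have hex : ∀ y : Fin m → Bool, ∃ w : List L, D.ev w x0 = List.ofFn y := fun y =>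
      level_transitive D m x0 (List.ofFn y) (by simp [hx0]) (by simp)
    choose wd hwd using hex
    obtain ⟨r, hr⟩ : ∃ r, ∀ y, (wd y).length ≤ r := by
      obtain ⟨c0, hc0⟩ := (Set.finite_range fun y => (wd y).length).bddAbove
      exact ⟨c0, fun κ => hc0 ⟨κ, rfl⟩⟩
    refine ⟨r, ?_⟩
    rw [gam_eq]
    set S : Set (List Bool → List Bool) := {g | ∃ w : List L, w.length ≤ r ∧ D.ev w = g} with hS
    have hfin : S.Finite := finite_words D r
    have hle : Nat.card (Fin m → Bool) ≤ Nat.card S := by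
      have : Finite S := hfin
      refine Nat.card_le_card_of_injective (fun y => (⟨D.ev (wd y), wd y, hr y, rfl⟩ : S)) ?_
      intro y y' h
      have h1 : D.ev (wd y) x0 = D.ev (wd y') x0 := congrFun (Subtype.mk.inj h) x0
      rw [hwd, hwd] at h1
      exact List.ofFn_injective h1
    have h2 : Nat.card (Fin m → Bool) = 2 ^ m := by simp
    rw [h2] at hle
    exact (Nat.lt_two_pow_self).le.trans hle

theorem b9d : SuperLemma := by
  intro f C I hmono hunb hstep d
  -- normalise the constants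
  set C' : ℕ := C + 2 with hC'
  set I' : ℕ := I + 1 with hI'
  have hstep' : ∀ r, 1 ≤ r → f r ^ 2 ≤ I' * f (C' * r) := by
    intro r hr
    calc f r ^ 2 ≤ I * f (C * r) := hstep r hr
      _ ≤ I' * f (C' * r) :=
        Nat.mul_le_mul (by omega) (hmono (Nat.mul_le_mul_right r (by omega)))
  obtain ⟨r0', hr0'⟩ := hunb (2 * I')
  set r0 : ℕ := r0' + 1 with hr0
  have hr0f : 2 * I' ≤ f r0 := hr0'.trans (hmono (by omega))
  have hI1 : 1 ≤ I' := by omega
  have key : ∀ k, I' * 2 ^ (2 ^ k) ≤ f (C' ^ k * r0) := by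
    intro k
    induction k with
    | zero => simpa [mul_comm] using hr0f
    | succ k ih =>
      have h1 : 1 ≤ C' ^ k * r0 := Nat.mul_pos (pow_pos (by omega) k) (by omega)
      have h2 := hstep' (C' ^ k * r0) h1
      have h3 : (I' * 2 ^ (2 ^ k)) ^ 2 ≤ I' * f (C' * (C' ^ k * r0)) :=
        (Nat.pow_le_pow_left ih 2).trans h2
      have h4 : (I' * 2 ^ (2 ^ k)) ^ 2 = I' * (I' * 2 ^ (2 ^ (k + 1))) := by
        rw [pow_succ 2 k, pow_mul]; ring
      rw [h4] at h3
      have h5 : C' * (C' ^ k * r0) = C' ^ (k + 1) * r0 := by ring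
      rw [h5] at h3
      exact Nat.le_of_mul_le_mul_left h3 (by omega)
  -- exponents: C' ≤ 2 ^ C', r0 ≤ 2 ^ r0
  obtain ⟨k0, hk0⟩ : ∃ k0, ∀ k, k0 ≤ k → d * (C' * (k + 1) + r0) ≤ 2 ^ k := by
    have h : ∀ a : ℕ, ∃ k0, ∀ k, k0 ≤ k → a * (k + 1) ≤ 2 ^ k := by
      intro a
      refine ⟨2 * a + 4, ?_⟩
      intro k hk
      induction k, hk using Nat.le_induction with
      | base =>
        have h1 : ∀ b : ℕ, b + 1 ≤ 2 ^ b := fun b => Nat.lt_two_pow_self
        have h2 := h1 a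
        have h3 : 2 * a + 4 + 1 ≤ 5 * (a + 1) := by omega
        calc a * (2 * a + 4 + 1) ≤ (a + 1) * (5 * (a + 1)) := Nat.mul_le_mul (by omega) h3
          _ = 5 * ((a + 1) * (a + 1)) := by ring
          _ ≤ 5 * (2 ^ a * 2 ^ a) := Nat.mul_le_mul_left _ (Nat.mul_le_mul h2 h2)
          _ ≤ 16 * (2 ^ a * 2 ^ a) := Nat.mul_le_mul_right _ (by norm_num)
          _ = 2 ^ (2 * a + 4) := by rw [pow_add, two_mul, pow_add]; ring
      | succ k hk ih =>
        have h1 : a ≤ 2 ^ k := by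
          have : a ≤ k := by omega
          exact this.trans (Nat.lt_two_pow_self).le
        rw [pow_succ]
        calc a * (k + 1 + 1) = a * (k + 1) + a := by ring
          _ ≤ 2 ^ k + 2 ^ k := Nat.add_le_add ih h1
          _ = 2 ^ k * 2 := by ring
    obtain ⟨k0, hk0⟩ := h (d * (C' + r0))
    refine ⟨k0, fun k hk => ?_⟩
    refine le_trans ?_ (hk0 k hk)
    have h1 : C' * (k + 1) + r0 ≤ (C' + r0) * (k + 1) := by nlinarith
    calc d * (C' * (k + 1) + r0) ≤ d * ((C' + r0) * (k + 1)) := Nat.mul_le_mul_left _ h1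
      _ = d * (C' + r0) * (k + 1) := by ring
  refine ⟨C' ^ k0 * r0, ?_⟩
  intro n hn
  have hr0pos : 0 < r0 := by omega
  have hnr : C' ^ k0 ≤ n / r0 := (Nat.le_div_iff_mul_le hr0pos).2 hn
  set k : ℕ := Nat.log C' (n / r0) with hk
  have hC1 : 1 < C' := by omega
  have hn0 : n / r0 ≠ 0 := by
    have : 0 < C' ^ k0 := pow_pos (by omega) _
    omega
  have hk1 : C' ^ k ≤ n / r0 := Nat.pow_log_le_self C' hn0
  have hk2 : n / r0 < C' ^ (k + 1) := Nat.lt_pow_succ_log_self hC1 _
  have hkk : k0 ≤ k := by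
    rw [hk]
    exact Nat.le_log_of_pow_le hC1 hnr
  have h1 : C' ^ k * r0 ≤ n := (Nat.le_div_iff_mul_le hr0pos).1 hk1
  have h2 : n < C' ^ (k + 1) * r0 := (Nat.div_lt_iff_lt_mul hr0pos).1 hk2
  have h3 : n ≤ 2 ^ (C' * (k + 1) + r0) := by
    have a1 : C' ^ (k + 1) ≤ (2 ^ C') ^ (k + 1) := Nat.pow_le_pow_left (Nat.lt_two_pow_self).le _
    have a2 : r0 ≤ 2 ^ r0 := (Nat.lt_two_pow_self).le
    calc n ≤ C' ^ (k + 1) * r0 := h2.le
      _ ≤ (2 ^ C') ^ (k + 1) * 2 ^ r0 := Nat.mul_le_mul a1 a2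
      _ = 2 ^ (C' * (k + 1) + r0) := by rw [← pow_mul, ← pow_add]
  calc n ^ d ≤ (2 ^ (C' * (k + 1) + r0)) ^ d := Nat.pow_le_pow_left h3 d
    _ = 2 ^ (d * (C' * (k + 1) + r0)) := by rw [← pow_mul]; ring_nf
    _ ≤ 2 ^ (2 ^ k) := Nat.pow_le_pow_right (by norm_num) (hk0 k hkk)
    _ ≤ I' * 2 ^ (2 ^ k) := Nat.le_mul_of_pos_left _ (by omega)
    _ ≤ f (C' ^ k * r0) := key k
    _ ≤ f n := hmono h1

end R4
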