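import Mathlib

/-!
# The cycle lemma (statement)

`C = (y_i)` a cycle of vertices, `ι` the set of its points, `G` the set of all germs at its points
(without marks).  `f` maps germs to germs, `o i` is the germ at `y_i` that contains the critical
value, `z i` the germ that contains `0`, `K` the set of `T_s`-germs, `top` the characteristic
point; `z top` is the only `T_s`-germ at `top`.

For every node `x` (of the binary tree) `W x i` is the word of the exits of the node `x` at the
point `y_i`, and `B x i` is the list of the owners of its blocks: the word is cut after every letter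
`o i`, and the entry of `B x i` says which child stands at the preimage in the cycle while the block
is read.  The word of the child is the concatenation of its blocks.

Claim (`CycleLemma`): the words of one node `w` of depth `d` are determined by the owners, by the
words restricted to `K` (at `top`: to `{z top, o top}`) of all nodes of depth at most `d`, and by
the words of all other nodes of depth `d`.

## Proof

Write `K' i = K ∪ {o i}` (at `top`: `{z top, o top}`).  Let `P_0, …, P_d = w` be the path; all words of
the nodes which are not on the path are determined (shuffle up from the descendants: `cy_merge`).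

(K) for `g` with `pt g = i`: `(W P_j i).filter (K' i ∪ {g})` is determined for `j ≥ j(g)`, `j ≤ d - 1`
(and for `j = d` if `i ≠ top`).  True for `g ∈ K' i`.  Suppose it is true for `f g` and `P = P_(j-1)`.
Then `(W P_j i).filter (K i ∪ {g})` is determined, because `own` commutes with `filter S`, `o ∈ S`
(for `σ i ≠ top` use `K_f`, for `σ i = top` use `K_f_top`).  If `i = top`, then
`(W P_j top).filter {z top, g}` is determined, and the sibling of `P_(j+1)` gives
`(W P_j top).filter {z top, o top, g}` by `cy_top`.  By `exp` every `g` is reached.

(PAIRS) `(W P_j i).filter {g, g'}` is determined for all `g g'` with `pt g = pt g' = i` and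
`j ≥ j(g, g')`: if `g ∈ K' i`, by (K) for `g'`.  Otherwise `(W P_(j-1) (σ i)).filter {f g, f g'}` is
determined by induction, hence by (K) and `cy_pairs` also the filter to `{f g, f g', o (σ i)}`; apply
`own`.  It ends by `exp`.

`cy_pairs`: two lists with the same filters to all pairs of letters are equal.

`cy_top`: `R ≠ U`, `X X'` lists with entries in `{R, U, h}`, `B` alternating, long enough;
`X.filter {R,U} = X'.filter {R,U}` alternating, `X.filter {R,h} = X'.filter {R,h}` and
`own U X B c = own U X' B c` imply `X = X'`.  (First difference: `X = U h^b …`, `X' = h^a U h^b' …`;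
`c` owns block `0`: contradiction; `c` owns block `1`: `b = b'`, and `b = a + b'`.)

`cy_merge`: `X X'` with the same `own o X B c` for both `c` are equal, if `B` is long enough
(`X.count o < B.length`, `X'.count o < B.length`).
-/

set_option autoImplicit false

namespace R4.Cy

/-- The letters of the word that are read by the child `c`: the word is cut after every letter `o`,
the list `B` gives the owners of the blocks. -/
def own {G : Type} [DecidableEq G] (o : G) : List G → List Bool → Bool → List G
  | [], _, _ => []
  | _ :: _, [], _ => []
  | g :: W, b :: B, c =>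
    (if b = c then [g] else []) ++ (if g = o then own o W B c else own o W (b :: B) c)

/-- The combinatorial data of a cycle. -/
structure CycData (ι G : Type) where
  σ : ι → ι
  top : ι
  pt : G → ι
  f : G ≃ G
  o : ι → G
  z : ι → G
  K : Set G
  surj : Function.Surjective σ
  pt_f : ∀ g, pt (f g) = σ (pt g)
  pt_o : ∀ i, pt (o i) = i
  pt_z : ∀ i, pt (z i) = i
  f_z : ∀ i, f (z i) = o (σ i)
  z_mem : ∀ i, z i ∈ K
  o_mem : ∀ i, i ≠ top → o i ∈ K
  K_top : ∀ g ∈ K, pt g = top → g = z top
  o_top : o top ≠ z top
  K_f : ∀ g ∈ K, σ (pt g) ≠ top → f g ∈ K
  K_f_top : ∀ g ∈ K, σ (pt g) = top → f g = z top ∨ f g = o top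
  exp : ∀ g, ∃ n i, f^[n] g = z i

/-- A family of words on the nodes of depth at most `d`. -/
structure Fam {ι G : Type} [DecidableEq G] (C : CycData ι G) (d : ℕ)
    (W : List Bool → ι → List G) (B : List Bool → ι → List Bool) : Prop where
  mem : ∀ x i, ∀ g ∈ W x i, C.pt g = i
  len : ∀ x i, (W x i).count (C.o i) < (B x i).length
  lift : ∀ x c i, x.length < d →
    W (x ++ [c]) i = (own (C.o (C.σ i)) (W x (C.σ i)) (B x (C.σ i)) c).map C.f.symm
  topB : ∀ x, (B x C.top).IsChain (· ≠ ·)
  topW : ∀ x, ((W x C.top).filter fun g => g = C.z C.top ∨ g = C.o C.top).IsChain (· ≠ ·)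

open Classical in
/-- The cycle lemma. -/
def CycleLemma {ι G : Type} [Finite ι] [Finite G] [DecidableEq G] (C : CycData ι G) : Prop :=
  ∃ d, ∀ d', d ≤ d' → ∀ (W W' : List Bool → ι → List G) (B : List Bool → ι → List Bool),
    Fam C d' W B → Fam C d' W' B →
    (∀ x i, x.length ≤ d' → i ≠ C.top →
      (W x i).filter (fun g => g ∈ C.K) = (W' x i).filter (fun g => g ∈ C.K)) →
    (∀ x, x.length ≤ d' → ((W x C.top).filter fun g => g = C.z C.top ∨ g = C.o C.top) =
      ((W' x C.top).filter fun g => g = C.z C.top ∨ g = C.o C.top)) →
    ∀ w : List Bool, w.length = d' →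
      (∀ x : List Bool, x.length = d' → x ≠ w → W x = W' x) → W w = W' w

end R4.Cy
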