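import Pool.Agent.Work.MP_e3f5d9_al.CY0

/-!
# The cycle lemma (proof)

`cycleLemma : CycleLemma C`, following the header of `CY0.lean`.
-/

set_option autoImplicit false

namespace R4.Cy

section lists

variable {G : Type} [DecidableEq G]

open Classical in
/-- Filter a list by a set. -/
noncomputable def flt (S : Set G) (L : List G) : List G := L.filter (fun g => g ∈ S)

omit [DecidableEq G] in
@[simp] lemma flt_nil (S : Set G) : flt S ([] : List G) = [] := rfl

omit [DecidableEq G] in
lemma flt_cons_mem {S : Set G} {g : G} (h : g ∈ S) (L : List G) :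
    flt S (g :: L) = g :: flt S L := by
  classical
  unfold flt
  rw [List.filter_cons_of_pos]
  simpa using h

omit [DecidableEq G] in
lemma flt_cons_not {S : Set G} {g : G} (h : g ∉ S) (L : List G) :
    flt S (g :: L) = flt S L := by
  classical
  unfold flt
  rw [List.filter_cons_of_neg]
  simpa using h

omit [DecidableEq G] in
lemma mem_flt {S : Set G} {g : G} {L : List G} : g ∈ flt S L ↔ g ∈ L ∧ g ∈ S := by
  classical
  unfold flt
  simp [List.mem_filter]

omit [DecidableEq G] in
lemma flt_append (S : Set G) (L M : List G) : flt S (L ++ M) = flt S L ++ flt S M := by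
  classical
  unfold flt
  exact List.filter_append _ _

omit [DecidableEq G] in
lemma flt_flt (S T : Set G) (h : S ⊆ T) (L : List G) : flt S (flt T L) = flt S L := by
  induction L with
  | nil => rfl
  | cons g L ih =>
    by_cases hT : g ∈ T
    · rw [flt_cons_mem hT]
      by_cases hS : g ∈ S
      · rw [flt_cons_mem hS, flt_cons_mem hS, ih]
      · rw [flt_cons_not hS, flt_cons_not hS, ih]
    · have hS : g ∉ S := fun hS => hT (h hS)
      rw [flt_cons_not hT, flt_cons_not hS, ih]

omit [DecidableEq G] in
lemma flt_congr {S T : Set G} {L : List G} (h : ∀ g ∈ L, g ∈ S ↔ g ∈ T) :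
    flt S L = flt T L := by
  classical
  unfold flt
  apply List.filter_congr
  intro x hx
  simp [h x hx]

omit [DecidableEq G] in
lemma flt_eq_self {S : Set G} {L : List G} (h : ∀ g ∈ L, g ∈ S) : flt S L = L := by
  classical
  unfold flt
  apply List.filter_eq_self.2
  intro a ha
  simpa using h a ha

omit [DecidableEq G] in
lemma flt_mono {S T : Set G} (h : S ⊆ T) {L M : List G} (e : flt T L = flt T M) :
    flt S L = flt S M := by
  rw [← flt_flt S T h, e, flt_flt S T h]

lemma own_nil_right (o : G) (W : List G) (c : Bool) : own o W [] c = [] := by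
  cases W <;> rfl

lemma own_cons (o g : G) (W : List G) (b : Bool) (B : List Bool) (c : Bool) :
    own o (g :: W) (b :: B) c =
      (if b = c then [g] else []) ++ (if g = o then own o W B c else own o W (b :: B) c) := rfl

lemma own_flt (o : G) (S : Set G) (ho : o ∈ S) (c : Bool) (W : List G) :
    ∀ B : List Bool, own o (flt S W) B c = flt S (own o W B c) := by
  induction W with
  | nil => intro B; rfl
  | cons g W ih =>
    intro B
    cases B with
    | nil => rw [own_nil_right, own_nil_right]; rfl
    | cons b B =>
      by_cases hg : g ∈ S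
      · rw [flt_cons_mem hg, own_cons, own_cons, flt_append]
        congr 1
        · by_cases hb : b = c
          · rw [if_pos hb, flt_cons_mem hg]; rfl
          · rw [if_neg hb]; rfl
        · by_cases hgo : g = o
          · rw [if_pos hgo, if_pos hgo]; exact ih B
          · rw [if_neg hgo, if_neg hgo]; exact ih (b :: B)
      · have hgo : g ≠ o := fun e => hg (e ▸ ho)
        rw [flt_cons_not hg, own_cons, flt_append, if_neg hgo, ih (b :: B)]
        by_cases hb : b = c
        · rw [if_pos hb, flt_cons_not hg]; rfl
        · rw [if_neg hb]; rfl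

omit [DecidableEq G] in
/-- Two lists with entries in `S` and the same filters to all pairs of letters of `S` are equal. -/
lemma cy_pairs (S : Set G) : ∀ X X' : List G, (∀ g ∈ X, g ∈ S) → (∀ g ∈ X', g ∈ S) →
    (∀ g ∈ S, ∀ g' ∈ S, flt {g, g'} X = flt {g, g'} X') → X = X' := by
  intro X
  induction X with
  | nil =>
    intro X' _ h' h
    cases X' with
    | nil => rfl
    | cons b Y =>
      exfalso
      have hb := h' b (by simp)
      have := h b hb b hb
      rw [flt_cons_mem (by simp)] at this
      simp at this
  | cons a X ih =>
    intro X' hX h' h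
    cases X' with
    | nil =>
      exfalso
      have hb := hX a (by simp)
      have := h a hb a hb
      rw [flt_cons_mem (by simp)] at this
      simp at this
    | cons b Y =>
      have ha := hX a (by simp)
      have hb := h' b (by simp)
      have hab : a = b := by
        have := h a ha b hb
        rw [flt_cons_mem (by simp), flt_cons_mem (by simp)] at this
        exact (List.cons.inj this).1
      subst hab
      congr 1
      refine ih Y (fun g hg => hX g (by simp [hg])) (fun g hg => h' g (by simp [hg])) ?_
      intro g hg g' hg'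
      have := h g hg g' hg'
      by_cases hm : a ∈ ({g, g'} : Set G)
      · rw [flt_cons_mem hm, flt_cons_mem hm] at this
        exact (List.cons.inj this).2
      · rw [flt_cons_not hm, flt_cons_not hm] at this
        exact this

lemma cy_merge (o : G) : ∀ (X X' : List G) (B : List Bool),
    (∀ c, own o X B c = own o X' B c) → X.count o < B.length → X'.count o < B.length → X = X' := by
  intro X
  induction X with
  | nil =>
    intro X' B h h1 h2
    cases X' with
    | nil => rfl
    | cons g Y =>
      exfalso
      cases B with
      | nil => simp at h1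
      | cons b B =>
        have := h b
        rw [own_cons, if_pos rfl] at this
        simp [own] at this
  | cons g X ih =>
    intro X' B h h1 h2
    cases B with
    | nil => simp at h1
    | cons b B =>
      cases X' with
      | nil =>
        exfalso
        have := h b
        rw [own_cons, if_pos rfl] at this
        simp [own] at this
      | cons g' Y =>
        have hg : g = g' := by
          have := h b
          rw [own_cons, own_cons, if_pos rfl, if_pos rfl] at this
          simpa using (List.cons.inj this).1
        subst hg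
        congr 1
        by_cases hgo : g = o
        · subst hgo
          refine ih Y B ?_ ?_ ?_
          · intro c
            have := h c
            rw [own_cons, own_cons, if_pos rfl, if_pos rfl] at this
            exact List.append_cancel_left this
          · simpa using h1
          · simpa using h2
        · refine ih Y (b :: B) ?_ ?_ ?_
          · intro c
            have := h c
            rw [own_cons, own_cons, if_neg hgo, if_neg hgo] at this
            exact List.append_cancel_left this
          · rwa [List.count_cons_of_ne (by exact hgo)] at h1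
          · rwa [List.count_cons_of_ne (by exact hgo)] at h2

/-- The number of letters `h` at the start. -/
def lead (h : G) (L : List G) : ℕ := (L.takeWhile (fun g => g = h)).length

lemma lead_cons_self (h : G) (L : List G) : lead h (h :: L) = lead h L + 1 := by
  simp [lead]

lemma lead_cons_ne {h g : G} (hg : g ≠ h) (L : List G) : lead h (g :: L) = 0 := by
  simp [lead, hg]

lemma lead_own (U h : G) (hU : h ≠ U) (c : Bool) (B : List Bool) (L : List G) :
    lead h (own U L (c :: B) c) = lead h L := by
  induction L with
  | nil => rfl
  | cons g L ih =>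
    rw [own_cons, if_pos rfl]
    by_cases hg : g = h
    · subst hg
      rw [if_neg hU]
      simp only [List.cons_append, List.nil_append]
      rw [lead_cons_self, lead_cons_self, ih]
    · simp only [List.cons_append, List.nil_append]
      rw [lead_cons_ne hg, lead_cons_ne hg]

lemma lead_flt (R U h : G) (hR : h ≠ R) (hU : h ≠ U) (L : List G)
    (hL : ∀ g ∈ L, g = R ∨ g = U ∨ g = h) (hh : (flt {R, U} L).head? ≠ some U) :
    lead h (flt {R, h} L) = lead h L := by
  induction L with
  | nil => rfl
  | cons g L ih =>
    rcases hL g (by simp) with rfl | rfl | rfl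
    · rw [flt_cons_mem (by simp), lead_cons_ne (Ne.symm hR), lead_cons_ne (Ne.symm hR)]
    · exfalso
      apply hh
      rw [flt_cons_mem (by simp)]
      rfl
    · rw [flt_cons_mem (by simp), lead_cons_self, lead_cons_self, ih (fun g hg => hL g (by simp [hg]))]
      rw [flt_cons_not (by simp [hR, hU])] at hh
      exact hh

omit [DecidableEq G] in
lemma split_U (R U h : G) (hR : h ≠ R) (hU : h ≠ U) (hRU : R ≠ U) (L M : List G)
    (hL : ∀ g ∈ L, g = R ∨ g = U ∨ g = h) (e : flt {R, U} L = U :: M) :
    ∃ a Z, L = List.replicate a h ++ U :: Z ∧ flt {R, U} Z = M := by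
  induction L with
  | nil => simp at e
  | cons g L ih =>
    rcases hL g (by simp) with rfl | rfl | rfl
    · rw [flt_cons_mem (by simp)] at e
      exact absurd (List.cons.inj e).1 hRU
    · rw [flt_cons_mem (by simp)] at e
      exact ⟨0, L, rfl, (List.cons.inj e).2⟩
    · rw [flt_cons_not (by simp [hR, hU])] at e
      obtain ⟨a, Z, h1, h2⟩ := ih (fun g hg => hL g (by simp [hg])) e
      exact ⟨a + 1, Z, by rw [h1, List.replicate_succ]; rfl, h2⟩

lemma own_skip (U h : G) (hU : h ≠ U) (b c : Bool) (hb : b ≠ c) (B : List Bool) (a : ℕ)
    (Z : List G) : own U (List.replicate a h ++ U :: Z) (b :: B) c = own U Z B c := by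
  induction a with
  | zero => simp [own_cons, hb]
  | succ a ih => rw [List.replicate_succ, List.cons_append, own_cons, if_neg hb, if_neg hU, ih]; rfl

omit [DecidableEq G] in
lemma flt_replicate (S : Set G) (h : G) (hS : h ∈ S) (a : ℕ) (L : List G) :
    flt S (List.replicate a h ++ L) = List.replicate a h ++ flt S L := by
  rw [flt_append, flt_eq_self (L := List.replicate a h)]
  intro g hg
  rw [List.eq_of_mem_replicate hg]
  exact hS

lemma lead_replicate (h : G) (a : ℕ) (L : List G) :
    lead h (List.replicate a h ++ L) = a + lead h L := by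
  induction a with
  | zero => simp
  | succ a ih => rw [List.replicate_succ, List.cons_append, lead_cons_self, ih]; omega

/-- The first difference cannot be `U` against `h`. -/
lemma cy_top_aux (R U h : G) (hR : h ≠ R) (hU : h ≠ U) (hRU : R ≠ U) (Y Y' : List G)
    (B : List Bool) (c : Bool)
    (hY : ∀ g ∈ Y, g = R ∨ g = U ∨ g = h) (hY' : ∀ g ∈ Y', g = R ∨ g = U ∨ g = h)
    (hB : B.IsChain (· ≠ ·)) (hc : (U :: Y).count U < B.length)
    (e1 : flt {R, U} (U :: Y) = flt {R, U} (h :: Y'))
    (hch : (flt {R, U} (U :: Y)).IsChain (· ≠ ·))
    (e2 : flt {R, h} (U :: Y) = flt {R, h} (h :: Y'))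
    (e3 : own U (U :: Y) B c = own U (h :: Y') B c) : False := by
  rw [flt_cons_mem (by simp)] at hch
  rw [flt_cons_mem (by simp), flt_cons_not (by simp [hR, hU])] at e1
  obtain ⟨a, Z, hZ, hZM⟩ := split_U R U h hR hU hRU Y' _ hY' e1.symm
  -- the list of owners
  cases B with
  | nil => simp at hc
  | cons b0 B =>
    cases B with
    | nil => simp at hc
    | cons b1 B =>
      by_cases hb : b0 = c
      · subst hb
        simp only [own_cons, if_true, List.singleton_append, List.cons.injEq] at e3
        exact hU e3.1.symm
      · have hb1 : b1 = c := by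
          have h01 : b0 ≠ b1 := by
            have := hB
            simp only [List.isChain_cons_cons] at this
            exact this.1
          revert hb h01
          cases b0 <;> cases b1 <;> cases c <;> simp
        subst hb1
        rw [hZ] at e2 e3
        have e3' : own U Y (b1 :: B) b1 = own U Z (b1 :: B) b1 := by
          have t1 : own U (U :: Y) (b0 :: b1 :: B) b1 = own U Y (b1 :: B) b1 :=
            own_skip U h hU b0 b1 hb (b1 :: B) 0 Y
          have t2 : own U (h :: (List.replicate a h ++ U :: Z)) (b0 :: b1 :: B) b1 =
              own U Z (b1 :: B) b1 :=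
            own_skip U h hU b0 b1 hb (b1 :: B) (a + 1) Z
          rw [← t1, ← t2, e3]
        have hhd : (flt {R, U} Y).head? ≠ some U := by
          intro hh
          cases hM : flt {R, U} Y with
          | nil => rw [hM] at hh; simp at hh
          | cons x M =>
            rw [hM] at hh hch
            simp only [List.head?_cons, Option.some.injEq] at hh
            subst hh
            simp only [List.isChain_cons_cons] at hch
            exact hch.1 rfl
        have hhd' : (flt {R, U} Z).head? ≠ some U := by rw [hZM]; exact hhd
        have hZmem : ∀ g ∈ Z, g = R ∨ g = U ∨ g = h := by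
          intro g hg
          apply hY'
          rw [hZ]
          simp [hg]
        have l1 : lead h Y = lead h Z := by
          have := congrArg (lead h) e3'
          rwa [lead_own U h hU, lead_own U h hU] at this
        have l2 : lead h (flt {R, h} Y) = lead h Y := lead_flt R U h hR hU Y hY hhd
        have l3 : lead h (flt {R, h} Z) = lead h Z := lead_flt R U h hR hU Z hZmem hhd'
        have e2' : flt {R, h} Y = List.replicate (a + 1) h ++ flt {R, h} Z := by
          have s1 : flt {R, h} (U :: Y) = flt {R, h} Y :=
            flt_cons_not (by simp [Ne.symm hRU, Ne.symm hU]) Y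
          have s2 : flt {R, h} (h :: (List.replicate a h ++ U :: Z)) =
              List.replicate (a + 1) h ++ flt {R, h} (U :: Z) :=
            flt_replicate {R, h} h (by simp) (a + 1) (U :: Z)
          have s3 : flt {R, h} (U :: Z) = flt {R, h} Z :=
            flt_cons_not (by simp [Ne.symm hRU, Ne.symm hU]) Z
          rw [← s1, e2, s2, s3]
        have l4 := congrArg (lead h) e2'
        rw [lead_replicate] at l4
        omega

lemma cy_top (R U h : G) (hR : h ≠ R) (hU : h ≠ U) (hRU : R ≠ U) (c : Bool) :
    ∀ (X X' : List G) (B : List Bool),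
    (∀ g ∈ X, g = R ∨ g = U ∨ g = h) → (∀ g ∈ X', g = R ∨ g = U ∨ g = h) →
    B.IsChain (· ≠ ·) → X.count U < B.length → X'.count U < B.length →
    flt {R, U} X = flt {R, U} X' → (flt {R, U} X).IsChain (· ≠ ·) →
    flt {R, h} X = flt {R, h} X' → own U X B c = own U X' B c → X = X' := by
  intro X
  induction X with
  | nil =>
    intro X' B _ hX' _ _ _ e1 _ e2 _
    cases X' with
    | nil => rfl
    | cons x Y =>
      exfalso
      rcases hX' x (by simp) with rfl | rfl | rfl
      · rw [flt_cons_mem (by simp)] at e1; simp at e1
      · rw [flt_cons_mem (by simp)] at e1; simp at e1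
      · rw [flt_cons_mem (by simp)] at e2; simp at e2
  | cons x X ih =>
    intro X' B hX hX' hB hc hc' e1 hch e2 e3
    cases X' with
    | nil =>
      exfalso
      rcases hX x (by simp) with rfl | rfl | rfl
      · rw [flt_cons_mem (by simp)] at e1; simp at e1
      · rw [flt_cons_mem (by simp)] at e1; simp at e1
      · rw [flt_cons_mem (by simp)] at e2; simp at e2
    | cons x' X' =>
      have hXt : ∀ g ∈ X, g = R ∨ g = U ∨ g = h := fun g hg => hX g (by simp [hg])
      have hXt' : ∀ g ∈ X', g = R ∨ g = U ∨ g = h := fun g hg => hX' g (by simp [hg])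
      have hxx : x = x' := by
        rcases hX x (by simp) with hx | hx | hx <;> rcases hX' x' (by simp) with hx' | hx' | hx'
        · rw [hx, hx']
        · exfalso
          subst hx hx'
          rw [flt_cons_mem (by simp), flt_cons_mem (by simp)] at e1
          exact hRU (List.cons.inj e1).1
        · exfalso
          subst hx hx'
          rw [flt_cons_mem (by simp), flt_cons_mem (by simp)] at e2
          exact hR (List.cons.inj e2).1.symm
        · exfalso
          subst hx hx'
          rw [flt_cons_mem (by simp), flt_cons_mem (by simp)] at e1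
          exact hRU (List.cons.inj e1).1.symm
        · rw [hx, hx']
        · exfalso
          subst hx hx'
          exact cy_top_aux _ _ _ hR hU hRU X X' B c hXt hXt' hB hc e1 hch e2 e3
        · exfalso
          subst hx hx'
          rw [flt_cons_mem (by simp), flt_cons_mem (by simp)] at e2
          exact hR (List.cons.inj e2).1
        · exfalso
          subst hx hx'
          exact cy_top_aux _ _ _ hR hU hRU X' X B c hXt' hXt hB hc' e1.symm (e1 ▸ hch) e2.symm
            e3.symm
        · rw [hx, hx']
      subst hxx
      congr 1
      cases B with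
      | nil => simp at hc
      | cons b B =>
        have e1' : flt {R, U} X = flt {R, U} X' := by
          by_cases hm : x ∈ ({R, U} : Set G)
          · rw [flt_cons_mem hm, flt_cons_mem hm] at e1
            exact (List.cons.inj e1).2
          · rwa [flt_cons_not hm, flt_cons_not hm] at e1
        have e2' : flt {R, h} X = flt {R, h} X' := by
          by_cases hm : x ∈ ({R, h} : Set G)
          · rw [flt_cons_mem hm, flt_cons_mem hm] at e2
            exact (List.cons.inj e2).2
          · rwa [flt_cons_not hm, flt_cons_not hm] at e2
        have hch' : (flt {R, U} X).IsChain (· ≠ ·) := by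
          by_cases hm : x ∈ ({R, U} : Set G)
          · rw [flt_cons_mem hm] at hch
            exact hch.of_cons
          · rwa [flt_cons_not hm] at hch
        by_cases hxU : x = U
        · subst hxU
          refine ih X' B hXt hXt' hB.of_cons ?_ ?_ e1' hch' e2' ?_
          · simpa using hc
          · simpa using hc'
          · rw [own_cons, own_cons, if_pos rfl, if_pos rfl] at e3
            exact List.append_cancel_left e3
        · refine ih X' (b :: B) hXt hXt' hB ?_ ?_ e1' hch' e2' ?_
          · rwa [List.count_cons_of_ne (by exact hxU)] at hc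
          · rwa [List.count_cons_of_ne (by exact hxU)] at hc'
          · rw [own_cons, own_cons, if_neg hxU, if_neg hxU] at e3
            exact List.append_cancel_left e3

end lists

section main

variable {ι G : Type} [DecidableEq G] (C : CycData ι G)

/-- The known germs at the point `i`. -/
def Kp (i : ι) : Set G :=
  {g | (i = C.top ∧ (g = C.z C.top ∨ g = C.o C.top)) ∨ (i ≠ C.top ∧ g ∈ C.K)}

omit [DecidableEq G] in
lemma o_mem_Kp (i : ι) : C.o i ∈ Kp C i := by
  by_cases h : i = C.top
  · subst h; exact Or.inl ⟨rfl, Or.inr rfl⟩
  · exact Or.inr ⟨h, C.o_mem i h⟩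

omit [DecidableEq G] in
lemma z_mem_Kp (i : ι) : C.z i ∈ Kp C i := by
  by_cases h : i = C.top
  · subst h; exact Or.inl ⟨rfl, Or.inl rfl⟩
  · exact Or.inr ⟨h, C.z_mem i⟩

omit [DecidableEq G] in
/-- Push forward of the known germs. -/
lemma push_K {g : G} (hg : g ∈ C.K) : C.f g ∈ Kp C (C.σ (C.pt g)) := by
  by_cases h : C.σ (C.pt g) = C.top
  · exact Or.inl ⟨h, C.K_f_top g hg h⟩
  · exact Or.inr ⟨h, C.K_f g hg h⟩

variable {C}

/-- The pull-back step. -/
lemma pull {d : ℕ} {W W' : List Bool → ι → List G} {B : List Bool → ι → List Bool}
    (hW : Fam C d W B) (hW' : Fam C d W' B) (x : List Bool) (c : Bool) (i : ι)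
    (hx : x.length < d) (T : Set G) (ho : C.o (C.σ i) ∈ T)
    (e : flt T (W x (C.σ i)) = flt T (W' x (C.σ i))) (S : Set G)
    (hS : ∀ g ∈ S, C.pt g = i → C.f g ∈ T) :
    flt S (W (x ++ [c]) i) = flt S (W' (x ++ [c]) i) := by
  classical
  have key : ∀ V : List Bool → ι → List G, Fam C d V B →
      flt (C.f ⁻¹' T) (V (x ++ [c]) i) =
        (own (C.o (C.σ i)) (flt T (V x (C.σ i))) (B x (C.σ i)) c).map C.f.symm := by
    intro V hV
    rw [own_flt _ _ ho, hV.lift x c i hx]
    unfold flt
    rw [List.filter_map]
    congr 1
    apply List.filter_congr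
    intro g _
    simp
  have e' : flt (C.f ⁻¹' T) (W (x ++ [c]) i) = flt (C.f ⁻¹' T) (W' (x ++ [c]) i) := by
    rw [key W hW, key W' hW', e]
  have res : ∀ V : List Bool → ι → List G, Fam C d V B →
      flt S (V (x ++ [c]) i) = flt (S ∩ C.f ⁻¹' T) (V (x ++ [c]) i) := by
    intro V hV
    apply flt_congr
    intro g hg
    constructor
    · intro h; exact ⟨h, hS g h (hV.mem _ _ g hg)⟩
    · intro h; exact h.1
  rw [res W hW, res W' hW']
  exact flt_mono Set.inter_subset_right e'

/-- The words off the path are determined. -/
lemma offpath {d : ℕ} {W W' : List Bool → ι → List G} {B : List Bool → ι → List Bool}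
    (hW : Fam C d W B) (hW' : Fam C d W' B) (w : List Bool)
    (hoff : ∀ x : List Bool, x.length = d → x ≠ w → W x = W' x) :
    ∀ k : ℕ, ∀ x : List Bool, x.length + k = d → ¬ x <+: w → W x = W' x := by
  intro k
  induction k with
  | zero =>
    intro x hx hp
    exact hoff x hx (fun e => hp (e ▸ List.prefix_refl _))
  | succ k ih =>
    intro x hx hp
    have hch : ∀ c, W (x ++ [c]) = W' (x ++ [c]) := by
      intro c
      apply ih
      · simp; omega
      · intro h
        exact hp ((List.prefix_append x [c]).trans h)
    funext i'
    obtain ⟨i, rfl⟩ := C.surj i'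
    apply cy_merge (C.o (C.σ i)) _ _ (B x (C.σ i)) ?_ (hW.len _ _) (hW'.len _ _)
    intro c
    have := congrFun (hch c) i
    rw [hW.lift x c i (by omega), hW'.lift x c i (by omega)] at this
    exact List.map_injective_iff.2 C.f.symm.injective this

/-- The claim (K). -/
lemma claimK {d : ℕ} {W W' : List Bool → ι → List G} {B : List Bool → ι → List Bool}
    (hW : Fam C d W B) (hW' : Fam C d W' B) (w : List Bool) (hw : w.length = d)
    (hK : ∀ x i, x.length ≤ d → flt (Kp C i) (W x i) = flt (Kp C i) (W' x i))
    (hoff : ∀ k : ℕ, ∀ x : List Bool, x.length + k = d → ¬ x <+: w → W x = W' x) :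
    ∀ n : ℕ, ∀ g, (∃ i, C.f^[n] g = C.z i) → ∀ j, n ≤ j → j < d →
      flt (Kp C (C.pt g) ∪ {g}) (W (w.take j) (C.pt g)) =
        flt (Kp C (C.pt g) ∪ {g}) (W' (w.take j) (C.pt g)) := by
  intro n
  induction n with
  | zero =>
    rintro g ⟨i, hi⟩ j _ hj
    have hg : g ∈ Kp C (C.pt g) := by
      have : g = C.z i := hi
      rw [this, C.pt_z]
      exact z_mem_Kp C i
    have : Kp C (C.pt g) ∪ {g} = Kp C (C.pt g) := by
      apply Set.union_eq_self_of_subset_right
      intro x hx
      rw [Set.mem_singleton_iff.1 hx]
      exact hg
    rw [this]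
    apply hK
    simp; omega
  | succ n ih =>
    rintro g ⟨i, hi⟩ j hj hjd
    obtain ⟨j, rfl⟩ : ∃ j', j = j' + 1 := ⟨j - 1, by omega⟩
    have hlt : j < w.length := by omega
    have htake : w.take (j + 1) = w.take j ++ [w[j]] := List.take_succ_eq_append_getElem hlt
    have hlen : (w.take j).length = j := by simp; omega
    -- the claim for `f g`
    have h1 := ih (C.f g) ⟨i, by rw [← hi, Function.iterate_succ_apply]⟩ j (by omega) (by omega)
    rw [C.pt_f] at h1
    have h2 : flt (C.K ∪ {g}) (W (w.take (j + 1)) (C.pt g)) =
        flt (C.K ∪ {g}) (W' (w.take (j + 1)) (C.pt g)) := by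
      rw [htake]
      apply pull hW hW' (w.take j) _ (C.pt g) (by omega) _ (Or.inl (o_mem_Kp C _)) h1
      intro g' hg' hpt
      rcases hg' with hg' | hg'
      · left
        have := push_K C hg'
        rwa [hpt] at this
      · right
        rw [Set.mem_singleton_iff.1 hg']
        rfl
    by_cases htop : C.pt g = C.top
    · -- at the top: use the sibling
      have hZ : C.z C.top ∈ C.K := C.z_mem _
      by_cases hgz : g = C.z C.top ∨ g = C.o C.top
      · have : Kp C (C.pt g) ∪ {g} = Kp C (C.pt g) := by
          apply Set.union_eq_self_of_subset_right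
          intro x hx
          rw [Set.mem_singleton_iff.1 hx]
          exact Or.inl ⟨htop, hgz⟩
        rw [this]
        apply hK
        simp; omega
      rw [not_or] at hgz
      have hS : Kp C (C.pt g) ∪ {g} = {C.z C.top, C.o C.top, g} := by
        ext x
        simp only [Kp, htop, Set.mem_union, Set.mem_ofPred_eq, true_and, ne_eq, not_true_eq_false,
          false_and, or_false, Set.mem_singleton_iff, Set.mem_insert_iff]
        tauto
      rw [hS, htop]
      rw [htop] at h2
      set S : Set G := {C.z C.top, C.o C.top, g} with hSdef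
      set x := w.take (j + 1) with hxdef
      have hxlen : x.length = j + 1 := by rw [hxdef]; simp; omega
      have hlt' : j + 1 < w.length := by omega
      -- the sibling
      set c := !w[j + 1] with hc
      have hsib : W (x ++ [c]) = W' (x ++ [c]) := by
        apply hoff (d - (j + 2)) (x ++ [c])
        · simp [hxlen]; omega
        · intro hp
          have h3 : x ++ [c] = w.take (j + 2) := by
            have := List.prefix_iff_eq_take.1 hp
            rw [this]
            simp [hxlen]
          rw [List.take_succ_eq_append_getElem hlt', ← hxdef] at h3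
          have h4 := List.append_cancel_left h3
          simp only [List.cons.injEq, and_true] at h4
          rw [hc] at h4
          cases hh : w[j + 1] <;> simp [hh] at h4
      obtain ⟨i', hi'⟩ := C.surj C.top
      have hown : own (C.o C.top) (W x C.top) (B x C.top) c =
          own (C.o C.top) (W' x C.top) (B x C.top) c := by
        have := congrFun hsib i'
        rw [hW.lift x c i' (by omega), hW'.lift x c i' (by omega), hi'] at this
        exact List.map_injective_iff.2 C.f.symm.injective this
      have hoS : C.o C.top ∈ S := by rw [hSdef]; simp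
      have hsub1 : ({C.z C.top, C.o C.top} : Set G) ⊆ S := by
        rw [hSdef]; intro y hy
        simp only [Set.mem_insert_iff, Set.mem_singleton_iff] at hy ⊢; tauto
      have hsub2 : ({C.z C.top, g} : Set G) ⊆ S := by
        rw [hSdef]; intro y hy
        simp only [Set.mem_insert_iff, Set.mem_singleton_iff] at hy ⊢; tauto
      have hKtop : flt {C.z C.top, C.o C.top} (W x C.top) =
          flt {C.z C.top, C.o C.top} (W' x C.top) := by
        have := hK x C.top (by omega)
        refine flt_mono ?_ this
        intro y hy
        simp only [Set.mem_insert_iff, Set.mem_singleton_iff] at hy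
        exact Or.inl ⟨rfl, hy⟩
      have hchain : (flt {C.z C.top, C.o C.top} (W x C.top)).IsChain (· ≠ ·) := by
        have := hW.topW x
        convert this using 1
        unfold flt
        apply List.filter_congr
        intro y _
        simp
      refine cy_top (C.z C.top) (C.o C.top) g hgz.1 hgz.2 (Ne.symm C.o_top) c _ _ (B x C.top)
        ?_ ?_ (hW.topB x) ?_ ?_ ?_ ?_ ?_ ?_
      · intro y hy
        have := (mem_flt.1 hy).2
        rw [hSdef] at this
        simpa using this
      · intro y hy
        have := (mem_flt.1 hy).2
        rw [hSdef] at this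
        simpa using this
      · refine lt_of_le_of_lt ?_ (hW.len x C.top)
        unfold flt
        exact List.Sublist.count_le _ List.filter_sublist
      · refine lt_of_le_of_lt ?_ (hW'.len x C.top)
        unfold flt
        exact List.Sublist.count_le _ List.filter_sublist
      · rw [flt_flt _ _ hsub1, flt_flt _ _ hsub1]
        exact hKtop
      · rw [flt_flt _ _ hsub1]
        exact hchain
      · rw [flt_flt _ _ hsub2, flt_flt _ _ hsub2]
        refine flt_mono ?_ h2
        intro y hy
        simp only [Set.mem_insert_iff, Set.mem_singleton_iff] at hy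
        rcases hy with rfl | rfl
        · exact Or.inl hZ
        · exact Or.inr rfl
      · rw [own_flt _ _ hoS, own_flt _ _ hoS, hown]
    · refine flt_mono ?_ h2
      intro y hy
      rcases hy with hy | hy
      · left
        rcases hy with hy | hy
        · exact absurd hy.1 htop
        · exact hy.2
      · exact Or.inr hy

/-- The pull-back step for pairs. -/
lemma pairStep {d : ℕ} {W W' : List Bool → ι → List G} {B : List Bool → ι → List Bool}
    (hW : Fam C d W B) (hW' : Fam C d W' B) (x : List Bool) (c : Bool) (g g' : G)
    (hpt : C.pt g = C.pt g') (hx : x.length < d)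
    (h1 : flt {C.f g, C.f g'} (W x (C.σ (C.pt g))) = flt {C.f g, C.f g'} (W' x (C.σ (C.pt g))))
    (h2 : flt (Kp C (C.σ (C.pt g)) ∪ {C.f g}) (W x (C.σ (C.pt g))) =
      flt (Kp C (C.σ (C.pt g)) ∪ {C.f g}) (W' x (C.σ (C.pt g))))
    (h3 : flt (Kp C (C.σ (C.pt g)) ∪ {C.f g'}) (W x (C.σ (C.pt g))) =
      flt (Kp C (C.σ (C.pt g)) ∪ {C.f g'}) (W' x (C.σ (C.pt g)))) :
    flt {g, g'} (W (x ++ [c]) (C.pt g)) = flt {g, g'} (W' (x ++ [c]) (C.pt g)) := by
  set i := C.pt g with hi
  set o := C.o (C.σ i) with ho
  have hoK : o ∈ Kp C (C.σ i) := o_mem_Kp C _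
  set S : Set G := {C.f g, C.f g', o} with hS
  have key : flt S (W x (C.σ i)) = flt S (W' x (C.σ i)) := by
    apply cy_pairs S
    · intro y hy; exact (mem_flt.1 hy).2
    · intro y hy; exact (mem_flt.1 hy).2
    · intro a ha b hb
      have hsub : ({a, b} : Set G) ⊆ S := by
        intro y hy
        rcases hy with rfl | hy
        · exact ha
        · rw [Set.mem_singleton_iff.1 hy]; exact hb
      rw [flt_flt _ _ hsub, flt_flt _ _ hsub]
      have oo : flt {o} (W x (C.σ i)) = flt {o} (W' x (C.σ i)) := by
        refine flt_mono ?_ h2
        intro y hy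
        rw [Set.mem_singleton_iff.1 hy]
        exact Or.inl hoK
      have go : flt {C.f g, o} (W x (C.σ i)) = flt {C.f g, o} (W' x (C.σ i)) := by
        refine flt_mono ?_ h2
        intro y hy
        rcases hy with rfl | hy
        · exact Or.inr rfl
        · rw [Set.mem_singleton_iff.1 hy]; exact Or.inl hoK
      have go' : flt {C.f g', o} (W x (C.σ i)) = flt {C.f g', o} (W' x (C.σ i)) := by
        refine flt_mono ?_ h3
        intro y hy
        rcases hy with rfl | hy
        · exact Or.inr rfl
        · rw [Set.mem_singleton_iff.1 hy]; exact Or.inl hoK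
      have sub1 : ∀ T : Set G, T ⊆ {C.f g, C.f g'} → flt T (W x (C.σ i)) = flt T (W' x (C.σ i)) :=
        fun T hT => flt_mono hT h1
      have sub2 : ∀ T : Set G, T ⊆ {C.f g, o} → flt T (W x (C.σ i)) = flt T (W' x (C.σ i)) :=
        fun T hT => flt_mono hT go
      have sub3 : ∀ T : Set G, T ⊆ {C.f g', o} → flt T (W x (C.σ i)) = flt T (W' x (C.σ i)) :=
        fun T hT => flt_mono hT go'
      rw [hS] at ha hb
      simp only [Set.mem_insert_iff, Set.mem_singleton_iff] at ha hb
      rcases ha with rfl | rfl | rfl <;> rcases hb with rfl | rfl | rfl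
      · apply sub1; intro y hy; simp only [Set.mem_insert_iff, Set.mem_singleton_iff] at hy ⊢; tauto
      · apply sub1; intro y hy; simp only [Set.mem_insert_iff, Set.mem_singleton_iff] at hy ⊢; tauto
      · apply sub2; intro y hy; simp only [Set.mem_insert_iff, Set.mem_singleton_iff] at hy ⊢; tauto
      · apply sub1; intro y hy; simp only [Set.mem_insert_iff, Set.mem_singleton_iff] at hy ⊢; tauto
      · apply sub1; intro y hy; simp only [Set.mem_insert_iff, Set.mem_singleton_iff] at hy ⊢; tauto
      · apply sub3; intro y hy; simp only [Set.mem_insert_iff, Set.mem_singleton_iff] at hy ⊢; tauto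
      · apply sub2; intro y hy; simp only [Set.mem_insert_iff, Set.mem_singleton_iff] at hy ⊢; tauto
      · apply sub3; intro y hy; simp only [Set.mem_insert_iff, Set.mem_singleton_iff] at hy ⊢; tauto
      · apply sub2; intro y hy; simp only [Set.mem_insert_iff, Set.mem_singleton_iff] at hy ⊢; tauto
  apply pull hW hW' x c i hx S (by rw [hS, ho]; simp) key
  intro y hy _
  rcases hy with rfl | hy
  · rw [hS]; simp
  · rw [Set.mem_singleton_iff.1 hy, hS]; simp

/-- The claim (PAIRS). -/
lemma claimP {d N : ℕ} {W W' : List Bool → ι → List G} {B : List Bool → ι → List Bool}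
    (hW : Fam C d W B) (hW' : Fam C d W' B) (w : List Bool) (hw : w.length = d)
    (hKall : ∀ g, ∀ j, N ≤ j → j < d →
      flt (Kp C (C.pt g) ∪ {g}) (W (w.take j) (C.pt g)) =
        flt (Kp C (C.pt g) ∪ {g}) (W' (w.take j) (C.pt g))) :
    ∀ n : ℕ, ∀ g g', C.pt g = C.pt g' → (∃ i, C.f^[n] g = C.z i) → ∀ j, N + n ≤ j → j < d →
      flt {g, g'} (W (w.take j) (C.pt g)) = flt {g, g'} (W' (w.take j) (C.pt g)) := by
  intro n
  induction n with
  | zero =>
    rintro g g' hpt ⟨i, hi⟩ j hj hjd
    have hg : g ∈ Kp C (C.pt g) := by
      have : g = C.z i := hi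
      rw [this, C.pt_z]
      exact z_mem_Kp C i
    have := hKall g' j (by omega) hjd
    rw [← hpt] at this
    refine flt_mono ?_ this
    intro y hy
    rcases hy with rfl | hy
    · exact Or.inl hg
    · exact Or.inr hy
  | succ n ih =>
    rintro g g' hpt ⟨i, hi⟩ j hj hjd
    obtain ⟨j, rfl⟩ : ∃ j', j = j' + 1 := ⟨j - 1, by omega⟩
    have hlt : j < w.length := by omega
    have htake : w.take (j + 1) = w.take j ++ [w[j]] := List.take_succ_eq_append_getElem hlt
    have hlen : (w.take j).length = j := by simp; omega
    rw [htake]
    have hpt' : C.pt (C.f g) = C.pt (C.f g') := by rw [C.pt_f, C.pt_f, hpt]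
    have h1 := ih (C.f g) (C.f g') hpt' ⟨i, by rw [← hi, Function.iterate_succ_apply]⟩ j
      (by omega) (by omega)
    have h2 := hKall (C.f g) j (by omega) (by omega)
    have h3 := hKall (C.f g') j (by omega) (by omega)
    rw [← hpt'] at h3
    rw [C.pt_f] at h1 h2 h3
    exact pairStep hW hW' _ _ g g' hpt (by omega) h1 h2 h3

end main

/-- **The cycle lemma.** -/
theorem cycleLemma {ι G : Type} [Finite ι] [Finite G] [DecidableEq G] (C : CycData ι G) :
    CycleLemma C := by
  classical
  -- a uniform bound
  obtain ⟨N, hN⟩ : ∃ N, ∀ g, ∃ n ≤ N, ∃ i, C.f^[n] g = C.z i := by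
    choose n i hi using C.exp
    have := Fintype.ofFinite G
    refine ⟨Finset.univ.sup n, fun g => ⟨n g, Finset.le_sup (Finset.mem_univ g), i g, hi g⟩⟩
  refine ⟨2 * N + 1, ?_⟩
  intro d hd W W' B hW hW' hK1 hK2 w hw hoff0
  have hK : ∀ x i, x.length ≤ d → flt (Kp C i) (W x i) = flt (Kp C i) (W' x i) := by
    intro x i hx
    by_cases hi : i = C.top
    · subst hi
      have := hK2 x hx
      have e : ∀ L : List G, flt (Kp C C.top) L =
          L.filter (fun g => g = C.z C.top ∨ g = C.o C.top) := by
        intro L
        unfold flt
        apply List.filter_congr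
        intro y _
        simp [Kp]
      rw [e, e]
      convert this using 1
    · have := hK1 x i hx hi
      have e : ∀ L : List G, flt (Kp C i) L = L.filter (fun g => g ∈ C.K) := by
        intro L
        unfold flt
        apply List.filter_congr
        intro y _
        simp [Kp, hi]
      rw [e, e]
      convert this using 1
  have hoff := offpath hW hW' w hoff0
  have hKc := claimK hW hW' w hw hK hoff
  have hKall : ∀ g, ∀ j, N ≤ j → j < d →
      flt (Kp C (C.pt g) ∪ {g}) (W (w.take j) (C.pt g)) =
        flt (Kp C (C.pt g) ∪ {g}) (W' (w.take j) (C.pt g)) := by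
    intro g j hj hjd
    obtain ⟨n, hn, hi⟩ := hN g
    exact hKc n g hi j (by omega) hjd
  have hP := claimP hW hW' w hw hKall
  -- the last step
  obtain ⟨j, rfl⟩ : ∃ j', d = j' + 1 := ⟨d - 1, by omega⟩
  have hlt : j < w.length := by omega
  have htake : w = w.take j ++ [w[j]] := by
    have := List.take_succ_eq_append_getElem hlt
    rw [← this, List.take_of_length_le (by omega)]
  have hlen : (w.take j).length = j := by simp; omega
  funext i
  apply cy_pairs {g | C.pt g = i}
  · intro g hg; exact hW.mem _ _ g hg
  · intro g hg; exact hW'.mem _ _ g hg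
  · intro g hg g' hg'
    have hg : C.pt g = i := hg
    have hg' : C.pt g' = i := hg'
    subst hg
    have hpt : C.pt g = C.pt g' := hg'.symm
    have hpt' : C.pt (C.f g) = C.pt (C.f g') := by rw [C.pt_f, C.pt_f, hpt]
    obtain ⟨n, hn, i, hi⟩ := hN (C.f g)
    have h1 := hP n (C.f g) (C.f g') hpt' ⟨i, hi⟩ j (by omega) (by omega)
    have h2 := hKall (C.f g) j (by omega) (by omega)
    have h3 := hKall (C.f g') j (by omega) (by omega)
    rw [← hpt'] at h3
    rw [C.pt_f] at h1 h2 h3
    rw [htake]
    exact pairStep hW hW' _ _ g g' hpt (by omega) h1 h2 h3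

end R4.Cy
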