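import Pool.Agent.Work.MP_e3f5d9_al.CY1

/-!
# The cycle lemma with garbage

`cycleLemma2 : CycleLemma2 C`: as `cycleLemma`, but the lift equation holds only up to letters at both
ends which are the same for the two families that are compared.
-/

set_option autoImplicit false

namespace R4.Cy

/-- A family of words on the nodes of depth at most `d`, with garbage `gar` at the ends. -/
structure Fam2 {ι G : Type} [DecidableEq G] (C : CycData ι G) (d : ℕ)
    (gar : List Bool → Bool → ι → List G × List G × List G × List G)
    (W : List Bool → ι → List G) (B : List Bool → ι → List Bool) : Prop where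
  mem : ∀ x i, ∀ g ∈ W x i, C.pt g = i
  len : ∀ x i, (W x i).count (C.o i) < (B x i).length
  lift : ∀ x c i, x.length < d → ∃ m : List G,
    (own (C.o (C.σ i)) (W x (C.σ i)) (B x (C.σ i)) c).map C.f.symm =
      (gar x c i).1 ++ m ++ (gar x c i).2.1 ∧
    W (x ++ [c]) i = (gar x c i).2.2.1 ++ m ++ (gar x c i).2.2.2
  topB : ∀ x, (B x C.top).IsChain (· ≠ ·)
  topW : ∀ x, ((W x C.top).filter fun g => g = C.z C.top ∨ g = C.o C.top).IsChain (· ≠ ·)

open Classical in
/-- The cycle lemma with garbage. -/
def CycleLemma2 {ι G : Type} [Finite ι] [Finite G] [DecidableEq G] (C : CycData ι G) : Prop :=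
  ∃ d, ∀ d', d ≤ d' → ∀ (gar : List Bool → Bool → ι → List G × List G × List G × List G)
    (W W' : List Bool → ι → List G) (B : List Bool → ι → List Bool),
    Fam2 C d' gar W B → Fam2 C d' gar W' B →
    (∀ x i, x.length ≤ d' → i ≠ C.top →
      (W x i).filter (fun g => g ∈ C.K) = (W' x i).filter (fun g => g ∈ C.K)) →
    (∀ x, x.length ≤ d' → ((W x C.top).filter fun g => g = C.z C.top ∨ g = C.o C.top) =
      ((W' x C.top).filter fun g => g = C.z C.top ∨ g = C.o C.top)) →
    ∀ w : List Bool, w.length = d' →
      (∀ x : List Bool, x.length = d' → x ≠ w → W x = W' x) → W w = W' w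

namespace G2

section main

variable {ι G : Type} [DecidableEq G] {C : CycData ι G}

omit [DecidableEq G] in
/-- The garbage cancels. -/
lemma gar_flt (S : Set G) (a m m' b a' b' : List G)
    (h : flt S (a ++ m ++ b) = flt S (a ++ m' ++ b)) :
    flt S (a' ++ m ++ b') = flt S (a' ++ m' ++ b') := by
  simp only [flt_append] at h ⊢
  have h1 : flt S m = flt S m' := by
    have h2 := List.append_cancel_right h
    exact List.append_cancel_left h2
  rw [h1]

/-- The own parts of a parent from the words of the child. -/
lemma own_of {d : ℕ} {gar : List Bool → Bool → ι → List G × List G × List G × List G}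
    {W W' : List Bool → ι → List G} {B : List Bool → ι → List Bool}
    (hW : Fam2 C d gar W B) (hW' : Fam2 C d gar W' B) (x : List Bool) (c : Bool) (i : ι)
    (hx : x.length < d) (e : W (x ++ [c]) i = W' (x ++ [c]) i) :
    own (C.o (C.σ i)) (W x (C.σ i)) (B x (C.σ i)) c =
      own (C.o (C.σ i)) (W' x (C.σ i)) (B x (C.σ i)) c := by
  obtain ⟨m, h1, h2⟩ := hW.lift x c i hx
  obtain ⟨m', h1', h2'⟩ := hW'.lift x c i hx
  rw [h2, h2'] at e
  have h3 : m = m' := List.append_cancel_left (List.append_cancel_right e)
  apply List.map_injective_iff.2 C.f.symm.injective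
  rw [h1, h1', h3]

/-- The pull-back step. -/
lemma pull {d : ℕ} {gar : List Bool → Bool → ι → List G × List G × List G × List G}
    {W W' : List Bool → ι → List G} {B : List Bool → ι → List Bool}
    (hW : Fam2 C d gar W B) (hW' : Fam2 C d gar W' B) (x : List Bool) (c : Bool) (i : ι)
    (hx : x.length < d) (T : Set G) (ho : C.o (C.σ i) ∈ T)
    (e : flt T (W x (C.σ i)) = flt T (W' x (C.σ i))) (S : Set G)
    (hS : ∀ g ∈ S, C.pt g = i → C.f g ∈ T) :
    flt S (W (x ++ [c]) i) = flt S (W' (x ++ [c]) i) := by
  classical
  have key : ∀ V : List Bool → ι → List G,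
      flt (C.f ⁻¹' T) ((own (C.o (C.σ i)) (V x (C.σ i)) (B x (C.σ i)) c).map C.f.symm) =
        (own (C.o (C.σ i)) (flt T (V x (C.σ i))) (B x (C.σ i)) c).map C.f.symm := by
    intro V
    rw [own_flt _ _ ho]
    unfold flt
    rw [List.filter_map]
    congr 1
    apply List.filter_congr
    intro g _
    simp
  obtain ⟨m, h1, h2⟩ := hW.lift x c i hx
  obtain ⟨m', h1', h2'⟩ := hW'.lift x c i hx
  have e' : flt (C.f ⁻¹' T) (W (x ++ [c]) i) = flt (C.f ⁻¹' T) (W' (x ++ [c]) i) := by
    rw [h2, h2']
    apply gar_flt _ (gar x c i).1 m m' (gar x c i).2.1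
    rw [← h1, ← h1', key W, key W', e]
  have res : ∀ V : List Bool → ι → List G, Fam2 C d gar V B →
      flt S (V (x ++ [c]) i) = flt (S ∩ C.f ⁻¹' T) (V (x ++ [c]) i) := by
    intro V hV
    apply flt_congr
    intro g hg
    constructor
    · intro h; exact ⟨h, hS g h (hV.mem _ _ g hg)⟩
    · intro h; exact h.1
  rw [res W hW, res W' hW']
  exact flt_mono Set.inter_subset_right e'

/-- The words off the path are determined. -/
lemma offpath {d : ℕ} {gar : List Bool → Bool → ι → List G × List G × List G × List G}
    {W W' : List Bool → ι → List G} {B : List Bool → ι → List Bool}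
    (hW : Fam2 C d gar W B) (hW' : Fam2 C d gar W' B) (w : List Bool)
    (hoff : ∀ x : List Bool, x.length = d → x ≠ w → W x = W' x) :
    ∀ k : ℕ, ∀ x : List Bool, x.length + k = d → ¬ x <+: w → W x = W' x := by
  intro k
  induction k with
  | zero =>
    intro x hx hp
    exact hoff x hx (fun e => hp (e ▸ List.prefix_refl _))
  | succ k ih =>
    intro x hx hp
    have hch : ∀ c, W (x ++ [c]) = W' (x ++ [c]) := by
      intro c
      apply ih
      · simp; omega
      · intro h
        exact hp ((List.prefix_append x [c]).trans h)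
    funext i'
    obtain ⟨i, rfl⟩ := C.surj i'
    apply cy_merge (C.o (C.σ i)) _ _ (B x (C.σ i)) ?_ (hW.len _ _) (hW'.len _ _)
    intro c
    exact own_of hW hW' x c i (by omega) (congrFun (hch c) i)

/-- The claim (K). -/
lemma claimK {d : ℕ} {gar : List Bool → Bool → ι → List G × List G × List G × List G}
    {W W' : List Bool → ι → List G} {B : List Bool → ι → List Bool}
    (hW : Fam2 C d gar W B) (hW' : Fam2 C d gar W' B) (w : List Bool) (hw : w.length = d)
    (hK : ∀ x i, x.length ≤ d → flt (Kp C i) (W x i) = flt (Kp C i) (W' x i))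
    (hoff : ∀ k : ℕ, ∀ x : List Bool, x.length + k = d → ¬ x <+: w → W x = W' x) :
    ∀ n : ℕ, ∀ g, (∃ i, C.f^[n] g = C.z i) → ∀ j, n ≤ j → j < d →
      flt (Kp C (C.pt g) ∪ {g}) (W (w.take j) (C.pt g)) =
        flt (Kp C (C.pt g) ∪ {g}) (W' (w.take j) (C.pt g)) := by
  intro n
  induction n with
  | zero =>
    rintro g ⟨i, hi⟩ j _ hj
    have hg : g ∈ Kp C (C.pt g) := by
      have : g = C.z i := hi
      rw [this, C.pt_z]
      exact z_mem_Kp C i
    have : Kp C (C.pt g) ∪ {g} = Kp C (C.pt g) := by
      apply Set.union_eq_self_of_subset_right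
      intro x hx
      rw [Set.mem_singleton_iff.1 hx]
      exact hg
    rw [this]
    apply hK
    simp; omega
  | succ n ih =>
    rintro g ⟨i, hi⟩ j hj hjd
    obtain ⟨j, rfl⟩ : ∃ j', j = j' + 1 := ⟨j - 1, by omega⟩
    have hlt : j < w.length := by omega
    have htake : w.take (j + 1) = w.take j ++ [w[j]] := List.take_succ_eq_append_getElem hlt
    have hlen : (w.take j).length = j := by simp; omega
    -- the claim for `f g`
    have h1 := ih (C.f g) ⟨i, by rw [← hi, Function.iterate_succ_apply]⟩ j (by omega) (by omega)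
    rw [C.pt_f] at h1
    have h2 : flt (C.K ∪ {g}) (W (w.take (j + 1)) (C.pt g)) =
        flt (C.K ∪ {g}) (W' (w.take (j + 1)) (C.pt g)) := by
      rw [htake]
      apply pull hW hW' (w.take j) _ (C.pt g) (by omega) _ (Or.inl (o_mem_Kp C _)) h1
      intro g' hg' hpt
      rcases hg' with hg' | hg'
      · left
        have := push_K C hg'
        rwa [hpt] at this
      · right
        rw [Set.mem_singleton_iff.1 hg']
        rfl
    by_cases htop : C.pt g = C.top
    · -- at the top: use the sibling
      have hZ : C.z C.top ∈ C.K := C.z_mem _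
      by_cases hgz : g = C.z C.top ∨ g = C.o C.top
      · have : Kp C (C.pt g) ∪ {g} = Kp C (C.pt g) := by
          apply Set.union_eq_self_of_subset_right
          intro x hx
          rw [Set.mem_singleton_iff.1 hx]
          exact Or.inl ⟨htop, hgz⟩
        rw [this]
        apply hK
        simp; omega
      rw [not_or] at hgz
      have hS : Kp C (C.pt g) ∪ {g} = {C.z C.top, C.o C.top, g} := by
        ext x
        simp only [Kp, htop, Set.mem_union, Set.mem_ofPred_eq, true_and, ne_eq, not_true_eq_false,
          false_and, or_false, Set.mem_singleton_iff, Set.mem_insert_iff]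
        tauto
      rw [hS, htop]
      rw [htop] at h2
      set S : Set G := {C.z C.top, C.o C.top, g} with hSdef
      set x := w.take (j + 1) with hxdef
      have hxlen : x.length = j + 1 := by rw [hxdef]; simp; omega
      have hlt' : j + 1 < w.length := by omega
      -- the sibling
      set c := !w[j + 1] with hc
      have hsib : W (x ++ [c]) = W' (x ++ [c]) := by
        apply hoff (d - (j + 2)) (x ++ [c])
        · simp [hxlen]; omega
        · intro hp
          have h3 : x ++ [c] = w.take (j + 2) := by
            have := List.prefix_iff_eq_take.1 hp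
            rw [this]
            simp [hxlen]
          rw [List.take_succ_eq_append_getElem hlt', ← hxdef] at h3
          have h4 := List.append_cancel_left h3
          simp only [List.cons.injEq, and_true] at h4
          rw [hc] at h4
          cases hh : w[j + 1] <;> simp [hh] at h4
      obtain ⟨i', hi'⟩ := C.surj C.top
      have hown : own (C.o C.top) (W x C.top) (B x C.top) c =
          own (C.o C.top) (W' x C.top) (B x C.top) c := by
        have := own_of hW hW' x c i' (by omega) (congrFun hsib i')
        rwa [hi'] at this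
      have hoS : C.o C.top ∈ S := by rw [hSdef]; simp
      have hsub1 : ({C.z C.top, C.o C.top} : Set G) ⊆ S := by
        rw [hSdef]; intro y hy
        simp only [Set.mem_insert_iff, Set.mem_singleton_iff] at hy ⊢; tauto
      have hsub2 : ({C.z C.top, g} : Set G) ⊆ S := by
        rw [hSdef]; intro y hy
        simp only [Set.mem_insert_iff, Set.mem_singleton_iff] at hy ⊢; tauto
      have hKtop : flt {C.z C.top, C.o C.top} (W x C.top) =
          flt {C.z C.top, C.o C.top} (W' x C.top) := by
        have := hK x C.top (by omega)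
        refine flt_mono ?_ this
        intro y hy
        simp only [Set.mem_insert_iff, Set.mem_singleton_iff] at hy
        exact Or.inl ⟨rfl, hy⟩
      have hchain : (flt {C.z C.top, C.o C.top} (W x C.top)).IsChain (· ≠ ·) := by
        have := hW.topW x
        convert this using 1
        unfold flt
        apply List.filter_congr
        intro y _
        simp
      refine cy_top (C.z C.top) (C.o C.top) g hgz.1 hgz.2 (Ne.symm C.o_top) c _ _ (B x C.top)
        ?_ ?_ (hW.topB x) ?_ ?_ ?_ ?_ ?_ ?_
      · intro y hy
        have := (mem_flt.1 hy).2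
        rw [hSdef] at this
        simpa using this
      · intro y hy
        have := (mem_flt.1 hy).2
        rw [hSdef] at this
        simpa using this
      · refine lt_of_le_of_lt ?_ (hW.len x C.top)
        unfold flt
        exact List.Sublist.count_le _ List.filter_sublist
      · refine lt_of_le_of_lt ?_ (hW'.len x C.top)
        unfold flt
        exact List.Sublist.count_le _ List.filter_sublist
      · rw [flt_flt _ _ hsub1, flt_flt _ _ hsub1]
        exact hKtop
      · rw [flt_flt _ _ hsub1]
        exact hchain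
      · rw [flt_flt _ _ hsub2, flt_flt _ _ hsub2]
        refine flt_mono ?_ h2
        intro y hy
        simp only [Set.mem_insert_iff, Set.mem_singleton_iff] at hy
        rcases hy with rfl | rfl
        · exact Or.inl hZ
        · exact Or.inr rfl
      · rw [own_flt _ _ hoS, own_flt _ _ hoS, hown]
    · refine flt_mono ?_ h2
      intro y hy
      rcases hy with hy | hy
      · left
        rcases hy with hy | hy
        · exact absurd hy.1 htop
        · exact hy.2
      · exact Or.inr hy

/-- The pull-back step for pairs. -/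
lemma pairStep {d : ℕ} {gar : List Bool → Bool → ι → List G × List G × List G × List G}
    {W W' : List Bool → ι → List G} {B : List Bool → ι → List Bool}
    (hW : Fam2 C d gar W B) (hW' : Fam2 C d gar W' B) (x : List Bool) (c : Bool) (g g' : G)
    (hpt : C.pt g = C.pt g') (hx : x.length < d)
    (h1 : flt {C.f g, C.f g'} (W x (C.σ (C.pt g))) = flt {C.f g, C.f g'} (W' x (C.σ (C.pt g))))
    (h2 : flt (Kp C (C.σ (C.pt g)) ∪ {C.f g}) (W x (C.σ (C.pt g))) =
      flt (Kp C (C.σ (C.pt g)) ∪ {C.f g}) (W' x (C.σ (C.pt g))))
    (h3 : flt (Kp C (C.σ (C.pt g)) ∪ {C.f g'}) (W x (C.σ (C.pt g))) =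
      flt (Kp C (C.σ (C.pt g)) ∪ {C.f g'}) (W' x (C.σ (C.pt g)))) :
    flt {g, g'} (W (x ++ [c]) (C.pt g)) = flt {g, g'} (W' (x ++ [c]) (C.pt g)) := by
  set i := C.pt g with hi
  set o := C.o (C.σ i) with ho
  have hoK : o ∈ Kp C (C.σ i) := o_mem_Kp C _
  set S : Set G := {C.f g, C.f g', o} with hS
  have key : flt S (W x (C.σ i)) = flt S (W' x (C.σ i)) := by
    apply cy_pairs S
    · intro y hy; exact (mem_flt.1 hy).2
    · intro y hy; exact (mem_flt.1 hy).2
    · intro a ha b hb
      have hsub : ({a, b} : Set G) ⊆ S := by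
        intro y hy
        rcases hy with rfl | hy
        · exact ha
        · rw [Set.mem_singleton_iff.1 hy]; exact hb
      rw [flt_flt _ _ hsub, flt_flt _ _ hsub]
      have oo : flt {o} (W x (C.σ i)) = flt {o} (W' x (C.σ i)) := by
        refine flt_mono ?_ h2
        intro y hy
        rw [Set.mem_singleton_iff.1 hy]
        exact Or.inl hoK
      have go : flt {C.f g, o} (W x (C.σ i)) = flt {C.f g, o} (W' x (C.σ i)) := by
        refine flt_mono ?_ h2
        intro y hy
        rcases hy with rfl | hy
        · exact Or.inr rfl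
        · rw [Set.mem_singleton_iff.1 hy]; exact Or.inl hoK
      have go' : flt {C.f g', o} (W x (C.σ i)) = flt {C.f g', o} (W' x (C.σ i)) := by
        refine flt_mono ?_ h3
        intro y hy
        rcases hy with rfl | hy
        · exact Or.inr rfl
        · rw [Set.mem_singleton_iff.1 hy]; exact Or.inl hoK
      have sub1 : ∀ T : Set G, T ⊆ {C.f g, C.f g'} → flt T (W x (C.σ i)) = flt T (W' x (C.σ i)) :=
        fun T hT => flt_mono hT h1
      have sub2 : ∀ T : Set G, T ⊆ {C.f g, o} → flt T (W x (C.σ i)) = flt T (W' x (C.σ i)) :=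
        fun T hT => flt_mono hT go
      have sub3 : ∀ T : Set G, T ⊆ {C.f g', o} → flt T (W x (C.σ i)) = flt T (W' x (C.σ i)) :=
        fun T hT => flt_mono hT go'
      rw [hS] at ha hb
      simp only [Set.mem_insert_iff, Set.mem_singleton_iff] at ha hb
      rcases ha with rfl | rfl | rfl <;> rcases hb with rfl | rfl | rfl
      · apply sub1; intro y hy; simp only [Set.mem_insert_iff, Set.mem_singleton_iff] at hy ⊢; tauto
      · apply sub1; intro y hy; simp only [Set.mem_insert_iff, Set.mem_singleton_iff] at hy ⊢; tauto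
      · apply sub2; intro y hy; simp only [Set.mem_insert_iff, Set.mem_singleton_iff] at hy ⊢; tauto
      · apply sub1; intro y hy; simp only [Set.mem_insert_iff, Set.mem_singleton_iff] at hy ⊢; tauto
      · apply sub1; intro y hy; simp only [Set.mem_insert_iff, Set.mem_singleton_iff] at hy ⊢; tauto
      · apply sub3; intro y hy; simp only [Set.mem_insert_iff, Set.mem_singleton_iff] at hy ⊢; tauto
      · apply sub2; intro y hy; simp only [Set.mem_insert_iff, Set.mem_singleton_iff] at hy ⊢; tauto
      · apply sub3; intro y hy; simp only [Set.mem_insert_iff, Set.mem_singleton_iff] at hy ⊢; tauto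
      · apply sub2; intro y hy; simp only [Set.mem_insert_iff, Set.mem_singleton_iff] at hy ⊢; tauto
  apply pull hW hW' x c i hx S (by rw [hS, ho]; simp) key
  intro y hy _
  rcases hy with rfl | hy
  · rw [hS]; simp
  · rw [Set.mem_singleton_iff.1 hy, hS]; simp

/-- The claim (PAIRS). -/
lemma claimP {d N : ℕ} {gar : List Bool → Bool → ι → List G × List G × List G × List G}
    {W W' : List Bool → ι → List G} {B : List Bool → ι → List Bool}
    (hW : Fam2 C d gar W B) (hW' : Fam2 C d gar W' B) (w : List Bool) (hw : w.length = d)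
    (hKall : ∀ g, ∀ j, N ≤ j → j < d →
      flt (Kp C (C.pt g) ∪ {g}) (W (w.take j) (C.pt g)) =
        flt (Kp C (C.pt g) ∪ {g}) (W' (w.take j) (C.pt g))) :
    ∀ n : ℕ, ∀ g g', C.pt g = C.pt g' → (∃ i, C.f^[n] g = C.z i) → ∀ j, N + n ≤ j → j < d →
      flt {g, g'} (W (w.take j) (C.pt g)) = flt {g, g'} (W' (w.take j) (C.pt g)) := by
  intro n
  induction n with
  | zero =>
    rintro g g' hpt ⟨i, hi⟩ j hj hjd
    have hg : g ∈ Kp C (C.pt g) := by
      have : g = C.z i := hi
      rw [this, C.pt_z]
      exact z_mem_Kp C i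
    have := hKall g' j (by omega) hjd
    rw [← hpt] at this
    refine flt_mono ?_ this
    intro y hy
    rcases hy with rfl | hy
    · exact Or.inl hg
    · exact Or.inr hy
  | succ n ih =>
    rintro g g' hpt ⟨i, hi⟩ j hj hjd
    obtain ⟨j, rfl⟩ : ∃ j', j = j' + 1 := ⟨j - 1, by omega⟩
    have hlt : j < w.length := by omega
    have htake : w.take (j + 1) = w.take j ++ [w[j]] := List.take_succ_eq_append_getElem hlt
    have hlen : (w.take j).length = j := by simp; omega
    rw [htake]
    have hpt' : C.pt (C.f g) = C.pt (C.f g') := by rw [C.pt_f, C.pt_f, hpt]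
    have h1 := ih (C.f g) (C.f g') hpt' ⟨i, by rw [← hi, Function.iterate_succ_apply]⟩ j
      (by omega) (by omega)
    have h2 := hKall (C.f g) j (by omega) (by omega)
    have h3 := hKall (C.f g') j (by omega) (by omega)
    rw [← hpt'] at h3
    rw [C.pt_f] at h1 h2 h3
    exact pairStep hW hW' _ _ g g' hpt (by omega) h1 h2 h3

end main

end G2

open G2 in
/-- **The cycle lemma with garbage.** -/
theorem cycleLemma2 {ι G : Type} [Finite ι] [Finite G] [DecidableEq G] (C : CycData ι G) :
    CycleLemma2 C := by
  classical
  -- a uniform bound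
  obtain ⟨N, hN⟩ : ∃ N, ∀ g, ∃ n ≤ N, ∃ i, C.f^[n] g = C.z i := by
    choose n i hi using C.exp
    have := Fintype.ofFinite G
    refine ⟨Finset.univ.sup n, fun g => ⟨n g, Finset.le_sup (Finset.mem_univ g), i g, hi g⟩⟩
  refine ⟨2 * N + 1, ?_⟩
  intro d hd gar W W' B hW hW' hK1 hK2 w hw hoff0
  have hK : ∀ x i, x.length ≤ d → flt (Kp C i) (W x i) = flt (Kp C i) (W' x i) := by
    intro x i hx
    by_cases hi : i = C.top
    · subst hi
      have := hK2 x hx
      have e : ∀ L : List G, flt (Kp C C.top) L =
          L.filter (fun g => g = C.z C.top ∨ g = C.o C.top) := by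
        intro L
        unfold flt
        apply List.filter_congr
        intro y _
        simp [Kp]
      rw [e, e]
      convert this using 1
    · have := hK1 x i hx hi
      have e : ∀ L : List G, flt (Kp C i) L = L.filter (fun g => g ∈ C.K) := by
        intro L
        unfold flt
        apply List.filter_congr
        intro y _
        simp [Kp, hi]
      rw [e, e]
      convert this using 1
  have hoff := G2.offpath hW hW' w hoff0
  have hKc := G2.claimK hW hW' w hw hK hoff
  have hKall : ∀ g, ∀ j, N ≤ j → j < d →
      flt (Kp C (C.pt g) ∪ {g}) (W (w.take j) (C.pt g)) =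
        flt (Kp C (C.pt g) ∪ {g}) (W' (w.take j) (C.pt g)) := by
    intro g j hj hjd
    obtain ⟨n, hn, hi⟩ := hN g
    exact hKc n g hi j (by omega) hjd
  have hP := G2.claimP hW hW' w hw hKall
  -- the last step
  obtain ⟨j, rfl⟩ : ∃ j', d = j' + 1 := ⟨d - 1, by omega⟩
  have hlt : j < w.length := by omega
  have htake : w = w.take j ++ [w[j]] := by
    have := List.take_succ_eq_append_getElem hlt
    rw [← this, List.take_of_length_le (by omega)]
  have hlen : (w.take j).length = j := by simp; omega
  funext i
  apply cy_pairs {g | C.pt g = i}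
  · intro g hg; exact hW.mem _ _ g hg
  · intro g hg; exact hW'.mem _ _ g hg
  · intro g hg g' hg'
    have hg : C.pt g = i := hg
    have hg' : C.pt g' = i := hg'
    subst hg
    have hpt : C.pt g = C.pt g' := hg'.symm
    have hpt' : C.pt (C.f g) = C.pt (C.f g') := by rw [C.pt_f, C.pt_f, hpt]
    obtain ⟨n, hn, i, hi⟩ := hN (C.f g)
    have h1 := hP n (C.f g) (C.f g') hpt' ⟨i, hi⟩ j (by omega) (by omega)
    have h2 := hKall (C.f g) j (by omega) (by omega)
    have h3 := hKall (C.f g') j (by omega) (by omega)
    rw [← hpt'] at h3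
    rw [C.pt_f] at h1 h2 h3
    rw [htake]
    exact G2.pairStep hW hW' _ _ g g' hpt (by omega) h1 h2 h3

end R4.Cy
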