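import Mathlib

/-!
# Kneading systems and their automaton groups: definitions

Common core of the R4 project (MP_e3f5d9_al).  See `BLUEPRINT.md`.
-/

set_option autoImplicit false

open Finset

namespace R4

/-- A kneading system on the finite set `L` of letters.  The letter `o` acts as the swap; the
letter `nxt i` acts as the letter `i` on the subtree of the side `side i`. -/
structure KS (L : Type) where
  o : L
  nxt : L → L
  side : L → Bool
  nxt_ne : ∀ i, nxt i ≠ o
  inj : ∀ i j, nxt i = nxt j → side i = side j → i = j
  surj : ∀ j, j ≠ o → ∃ i, nxt i = j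

/-! ### Words -/

section words

variable {L : Type} [DecidableEq L]

/-- Remove adjacent equal letters until none are left. -/
def red : List L → List L
  | [] => []
  | x :: w => match red w with
    | [] => [x]
    | y :: t => if x = y then t else x :: y :: t

/-- Number of maximal runs of letters of `A`; the flag says whether the letter before is in `A`. -/
def runsAux (A : Finset L) : Bool → List L → ℕ
  | _, [] => 0
  | p, x :: w => if x ∈ A then (if p then 0 else 1) + runsAux A true w else runsAux A false w

/-- Number of maximal runs of letters of `A` in the word `w`. -/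
def runs (A : Finset L) (w : List L) : ℕ := runsAux A false w

/-- Number of maximal `Y`-blocks of the word `w` restricted to the letters of `X ∪ Y`. -/
def blk (X Y : Finset L) (w : List L) : ℕ := runs Y (w.filter fun x => x ∈ X ∨ x ∈ Y)

/-- Number of `A`-runs of the reduced word. -/
def rr (A : Finset L) (z : List L) : ℕ := runs A (red z)

/-- Number of `Y`-blocks, relative to `X`, of the reduced word. -/
def bb (X Y : Finset L) (z : List L) : ℕ := blk X Y (red z)

/-- Number of adjacent equal entries. -/
def viol {α : Type} [DecidableEq α] : List α → ℕ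
  | [] => 0
  | [_] => 0
  | x :: y :: t => (if x = y then 1 else 0) + viol (y :: t)

end words

namespace KS

variable {L : Type} [Fintype L] [DecidableEq L] (D : KS L)

/-- The letter read by the child on the side `b` when the parent reads `j ≠ o`. -/
noncomputable def pre (b : Bool) (j : L) : Option L :=
  open Classical in if h : ∃ i, D.nxt i = j ∧ D.side i = b then some h.choose else none

/-- The action of a letter on finite binary words. -/
noncomputable def act : L → List Bool → List Bool
  | _, [] => []
  | j, b :: x =>
    if j = D.o then (!b) :: x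
    else b :: (match D.pre b j with
      | some i => act i x
      | none => x)

/-- Raw section of a word on the side `b` (the walker starts on the side `b`). -/
noncomputable def sec : Bool → List L → List L
  | _, [] => []
  | b, j :: w =>
    if j = D.o then sec (!b) w
    else match D.pre b j with
      | some i => i :: sec b w
      | none => sec b w

/-- Raw section at the vertex `v`. -/
noncomputable def secL : List Bool → List L → List L
  | [], w => w
  | b :: v, w => secL v (D.sec b w)

/-- Sum of `F` over the `2 ^ j` raw sections of level `j`. -/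
noncomputable def tot (F : List L → ℕ) : ℕ → List L → ℕ
  | 0, w => F w
  | j + 1, w => tot F j (D.sec false w) + tot F j (D.sec true w)

/-- The action of a word on finite binary words; the head of the word acts first. -/
noncomputable def ev : List L → List Bool → List Bool
  | [], x => x
  | i :: w, x => ev w (D.act i x)

/-- Number of elements (as maps) that are represented by words of length at most `n`. -/
noncomputable def gam (n : ℕ) : ℕ :=
  Nat.card {g : List Bool → List Bool // ∃ w : List L, w.length ≤ n ∧ D.ev w = g}

/-! ### Cuts -/

/-- Letters on the side `s` whose image lies in `A`. -/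
def lp (s : Bool) (A : Finset L) : Finset L := univ.filter fun i => D.side i = s ∧ D.nxt i ∈ A

/-- Normalisation of a cut: the side that does not contain `o`. -/
def nm (A : Finset L) : Finset L := if D.o ∈ A then Aᶜ else A

/-- The arrows between cuts of the class `E`. -/
def Arrow (E : Finset (Finset L)) (A B : Finset L) : Prop :=
  A ∈ E ∧ B ∈ E ∧ ∃ s, D.nm (D.lp s A) = B

/-- Paths of length `n` in the graph of cuts of the class `E`. -/
def Path (E : Finset (Finset L)) : ℕ → Finset L → Finset L → Prop
  | 0, A, B => A ∈ E ∧ A = B
  | n + 1, A, B => ∃ C, D.Arrow E A C ∧ Path E n C B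

/-- Sides of the cuts of the class `E`. -/
def Side (E : Finset (Finset L)) (X : Finset L) : Prop := D.nm X ∈ E

/-- The class `E` of cuts is mixing. -/
structure Mixing (E : Finset (Finset L)) : Prop where
  norm : ∀ A ∈ E, D.o ∉ A
  base : ({D.o} : Finset L)ᶜ ∈ E
  mix : ∃ n, 0 < n ∧ ∀ A ∈ E, ∀ B ∈ E, D.Path E n A B

/-- On the levels `j0, ..., j1` all cuts of `E` are crossed `2 M` times up to the error `2 r`. -/
def Win (E : Finset (Finset L)) (w : List L) (j0 j1 M r : ℕ) : Prop :=
  ∀ j, j0 ≤ j → j ≤ j1 → ∀ A ∈ E, M ≤ D.tot (rr A) j w + r ∧ D.tot (rr A) j w ≤ M + r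

/-- Monotone pairs: the closure rules. -/
inductive Mono (E : Finset (Finset L)) : Finset L → Finset L → Prop
  | triv (X : Finset L) : D.Side E X → Mono E X Xᶜ
  | symm (X Y : Finset L) : Mono E X Y → Mono E Y X
  | image (s : Bool) (Y Y' : Finset L) : D.o ∈ Y → Disjoint Y Y' →
      Mono E (D.lp s Yᶜ)ᶜ (D.lp s Y') → Mono E Y Y'
  | lift (s : Bool) (Y Y' : Finset L) : D.o ∈ Y → Disjoint Y Y' →
      D.Side E Y → D.Side E Y' → D.Side E (D.lp s Yᶜ)ᶜ → D.Side E (D.lp s Y') →
      Mono E Y Y' → Mono E (D.lp s Yᶜ)ᶜ (D.lp s Y')
  | glue (X Y Z : Finset L) : D.Side E Y → X ⊆ Yᶜ → Z ⊆ Y → Mono E X Y → Mono E Yᶜ Z → Mono E X Z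
  | typeB (s : Bool) (Y Y' : Finset L) : D.o ∉ Y → D.o ∉ Y' → Disjoint Y Y' →
      D.Side E Y → D.Side E Y' → D.Side E (D.lp s Y) → D.Side E (D.lp s Y') →
      Mono E {D.o} Y → Mono E {D.o} Y' → Mono E Y Y' → Mono E (D.lp s Y) (D.lp s Y')

/-- Stage 0 hypothesis: the class `E` of cuts is mixing, every letter is a leaf and alternates
with the letter `o` by the closure rules. -/
structure Rigid (E : Finset (Finset L)) : Prop extends D.Mixing E where
  leaf : ∀ i, i ≠ D.o → {i} ∈ E
  mono : ∀ i, i ≠ D.o → D.Mono E {D.o} {i}

/-! ### Reconstruction -/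

/-- Dependent pairs of letters: letters that are not dependent commute. -/
inductive Dep : L → L → Prop
  | base (j : L) : Dep D.o j
  | symm (i j : L) : Dep i j → Dep j i
  | step (i j : L) : D.side i = D.side j → Dep i j → Dep (D.nxt i) (D.nxt j)

/-- Projection of a word to the letters `i` and `j`. -/
def proj (i j : L) (w : List L) : List L := w.filter fun x => x = i ∨ x = j

/-! ### The lower bound -/

/-- The other preimage of `nxt i`, if there is one. -/
noncomputable def oth (i : L) : Option L := D.pre (!(D.side i)) (D.nxt i)

/-- Pairs of letters whose product has finite order. -/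
inductive FO : L → L → Prop
  | refl (i : L) : FO i i
  | symm (i j : L) : FO i j → FO j i
  | base (j : L) : j ≠ D.o → (∀ i i', D.nxt i = j → D.nxt i' = j → i = i') → FO D.o j
  | step (i j : L) : i ≠ D.o → j ≠ D.o →
      (∀ i' j', D.nxt i' = i → D.nxt j' = j → D.side i' = D.side j' → FO i' j') → FO i j

/-! ### The group -/

/-- The group generated by the letters, as a group of permutations of the binary tree. -/
def grp : Subgroup (Equiv.Perm (List Bool)) :=
  Subgroup.closure {g | ∃ i, ∀ x, g x = D.act i x}

end KS

/-! ### Growth -/

/-- Number of elements of length at most `n` with respect to `S ∪ S⁻¹`. -/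
noncomputable def ballSize {G : Type} [Group G] (S : Finset G) (n : ℕ) : ℕ :=
  Nat.card {g : G // ∃ l : List G, l.length ≤ n ∧ (∀ x ∈ l, x ∈ S ∨ x⁻¹ ∈ S) ∧ l.prod = g}

/-- The function `f` grows faster than every polynomial. -/
def Superpoly (f : ℕ → ℕ) : Prop := ∀ d : ℕ, ∃ n₀, ∀ n, n₀ ≤ n → n ^ d ≤ f n

/-- The function `f` grows slower than every exponential function. -/
def Subexp (f : ℕ → ℕ) : Prop := ∀ b : ℝ, 1 < b → ∃ n₀, ∀ n, n₀ ≤ n → (f n : ℝ) ≤ b ^ n

/-- The finitely generated group `G` has intermediate growth. -/
def IntermediateGrowth (G : Type) [Group G] : Prop :=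
  (∃ S : Finset G, Subgroup.closure (S : Set G) = ⊤) ∧
    ∀ S : Finset G, Subgroup.closure (S : Set G) = ⊤ →
      Superpoly (ballSize S) ∧ Subexp (ballSize S)

/-! ### Kneading data -/

/-- The letters of the kneading datum `(v, w)` are `0, ..., |v| + |w| - 1`; the letter `i` stands
for the point `c_{i+1}` of the critical orbit. -/
def ksNxt (v w : List Bool) (i : Fin (v.length + w.length)) : Fin (v.length + w.length) :=
  if h : i.1 + 1 < v.length + w.length then ⟨i.1 + 1, h⟩
  else if h' : v.length < v.length + w.length then ⟨v.length, h'⟩ else i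

/-- Side of the letter `i`: the `i`-th entry of `v ++ w`. -/
def ksSide (v w : List Bool) (i : Fin (v.length + w.length)) : Bool :=
  (v ++ w).get (i.cast (by simp))

/-- The kneading datum `(v, w)` is valid: both words are non-empty and end differently. -/
def Valid (v w : List Bool) : Prop := v ≠ [] ∧ w ≠ [] ∧ v.getLast? ≠ w.getLast?

end R4
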