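import Pool.Agent.Work.MP_e3f5d9_al.FOMIX

/-!
# FOG: for a mixing system generated by the orbit of `o` the colliding letters are `FO`

The general form of `fomix`, by transport.
-/

set_option autoImplicit false
set_option linter.unusedSectionVars false

open Finset

namespace R4

namespace FOGAux

variable {L L' : Type} [Fintype L] [DecidableEq L] [Fintype L'] [DecidableEq L']

/-- Transport of a kneading system. -/
def tr (e : L ≃ L') (D : KS L) : KS L' where
  o := e D.o
  nxt := fun i => e (D.nxt (e.symm i))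
  side := fun i => D.side (e.symm i)
  nxt_ne := fun i h => D.nxt_ne _ (e.injective h)
  inj := fun _ _ h1 h2 => e.symm.injective (D.inj _ _ (e.injective h1) h2)
  surj := fun j hj => by
    obtain ⟨i, hi⟩ := D.surj (e.symm j) (fun h => hj (by rw [← h]; simp))
    exact ⟨e i, by simp [hi]⟩

variable (e : L ≃ L') (D : KS L)

lemma tr_o : (tr e D).o = e D.o := rfl

lemma tr_nxt (i : L) : (tr e D).nxt (e i) = e (D.nxt i) := by simp [tr]

lemma tr_side (i : L) : (tr e D).side (e i) = D.side i := by simp [tr]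

lemma fo_tr : ∀ i j, (tr e D).FO i j → D.FO (e.symm i) (e.symm j) := by
  intro i j h
  induction h with
  | refl i => exact KS.FO.refl _
  | symm i j _ ih => exact KS.FO.symm _ _ ih
  | base j h1 h2 =>
    rw [tr_o, Equiv.symm_apply_apply]
    refine KS.FO.base _ ?_ ?_
    · intro h
      apply h1
      rw [tr_o, ← h, Equiv.apply_symm_apply]
    · intro i i' hi hi'
      apply e.injective
      apply h2
      · rw [tr_nxt, hi, Equiv.apply_symm_apply]
      · rw [tr_nxt, hi', Equiv.apply_symm_apply]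
  | step i j h1 h2 _ ih =>
    refine KS.FO.step _ _ ?_ ?_ ?_
    · intro h
      apply h1
      rw [tr_o, ← h, Equiv.apply_symm_apply]
    · intro h
      apply h2
      rw [tr_o, ← h, Equiv.apply_symm_apply]
    · intro i' j' hi hj hs
      have := ih (e i') (e j') (by rw [tr_nxt, hi, Equiv.apply_symm_apply])
        (by rw [tr_nxt, hj, Equiv.apply_symm_apply]) (by rw [tr_side, tr_side, hs])
      simpa using this

/-- The image of a set. -/
def im (A : Finset L) : Finset L' := A.map e.toEmbedding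

lemma mem_im (A : Finset L) (i : L) : e i ∈ im e A ↔ i ∈ A := by simp [im]

lemma im_ext {A : Finset L'} {B : Finset L'} (h : ∀ i : L, e i ∈ A ↔ e i ∈ B) : A = B := by
  ext x
  have := h (e.symm x)
  simpa using this

lemma im_compl (A : Finset L) : im e Aᶜ = (im e A)ᶜ := by
  apply im_ext e
  intro i
  rw [mem_im, mem_compl, mem_compl, mem_im]

lemma im_lp (s : Bool) (A : Finset L) : (tr e D).lp s (im e A) = im e (D.lp s A) := by
  apply im_ext e
  intro i
  rw [mem_im]
  simp only [KS.lp, mem_filter, mem_univ, true_and, tr_side, tr_nxt, mem_im]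

lemma im_nm (A : Finset L) : (tr e D).nm (im e A) = im e (D.nm A) := by
  unfold KS.nm
  rw [tr_o]
  by_cases h : D.o ∈ A
  · rw [if_pos h, if_pos ((mem_im e A _).2 h), im_compl]
  · rw [if_neg h, if_neg (fun h1 => h ((mem_im e A _).1 h1))]

lemma im_base : im e ({D.o} : Finset L)ᶜ = ({(tr e D).o} : Finset L')ᶜ := by
  apply im_ext e
  intro i
  rw [mem_im, mem_compl, mem_compl, mem_singleton, mem_singleton, tr_o, e.injective.eq_iff]

lemma im_path (E : Finset (Finset L)) : ∀ (n : ℕ) (A B : Finset L), D.Path E n A B →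
    (tr e D).Path (E.image (im e)) n (im e A) (im e B) := by
  intro n
  induction n with
  | zero =>
    intro A B h
    obtain ⟨h1, rfl⟩ := h
    exact ⟨mem_image_of_mem _ h1, rfl⟩
  | succ n ih =>
    intro A B h
    obtain ⟨C, ⟨h1, h2, s, h3⟩, h4⟩ := h
    exact ⟨im e C, ⟨mem_image_of_mem _ h1, mem_image_of_mem _ h2, s, by
      rw [im_lp, im_nm, h3]⟩, ih C B h4⟩

lemma im_mixing (E : Finset (Finset L)) (h : D.Mixing E) :
    (tr e D).Mixing (E.image (im e)) := by
  refine ⟨?_, ?_, ?_⟩
  · intro A hA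
    obtain ⟨B, hB, rfl⟩ := mem_image.1 hA
    rw [tr_o, mem_im]
    exact h.norm B hB
  · rw [← im_base]
    exact mem_image_of_mem _ h.base
  · obtain ⟨n, hn, h1⟩ := h.mix
    refine ⟨n, hn, ?_⟩
    intro A' hA' B' hB'
    obtain ⟨A, hA, rfl⟩ := mem_image.1 hA'
    obtain ⟨B, hB, rfl⟩ := mem_image.1 hB'
    exact im_path e D E n A B (h1 A hA B hB)

open FOMIXAux in
lemma fo_of_hyp {K N : ℕ} {D : KS (Fin (K + N))} (H : FOMIXAux.Hyp K N D) (h3 : 3 ≤ K + N)
    {E : Finset (Finset (Fin (K + N)))} (hE : D.Mixing E) :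
    ∀ p q, p ≠ q → D.nxt p = D.nxt q → D.FO p q := by
  intro p q hpq hnx
  have hp := p.2
  have hq := q.2
  by_cases hK : (D.nxt q).1 = K
  · have h1 := pre_K H hnx hK
    have h2 := pre_K H (rfl : D.nxt q = D.nxt q) hK
    rcases h1 with h1 | h1 <;> rcases h2 with h2 | h2
    · exact absurd (Fin.ext (by omega)) hpq
    · exact main H h3 hE p q h1 h2
    · exact KS.FO.symm _ _ (main H h3 hE q p h2 h1)
    · exact absurd (Fin.ext (by omega)) hpq
  · have h1 := pre_ne H hnx hK
    have h2 := pre_ne H (rfl : D.nxt q = D.nxt q) hK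
    exact absurd (Fin.ext (by omega)) hpq

/-- The enumeration of the letters by the orbit of `o`. -/
lemma enum (horb : ∀ i, ∃ n, D.nxt^[n] D.o = i) (n : ℕ) (hn : Fintype.card L = n) :
    ∃ f : Fin n ≃ L, ∀ i, f i = D.nxt^[i.1] D.o := by
  subst hn
  have hsurj : Function.Surjective (fun i : Fin (Fintype.card L) => D.nxt^[i.1] D.o) := by
    intro x
    classical
    have hx := horb x
    have hm := Nat.find_spec hx
    have hmin : ∀ k, k < Nat.find hx → D.nxt^[k] D.o ≠ x := fun k hk => Nat.find_min hx hk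
    set m := Nat.find hx
    refine ⟨⟨m, ?_⟩, hm⟩
    by_contra hlt
    push Not at hlt
    obtain ⟨a, b, hab, he⟩ := Fintype.exists_ne_map_eq_of_card_lt
      (fun i : Fin (m + 1) => D.nxt^[i.1] D.o) (by rw [Fintype.card_fin]; omega)
    have key : ∀ a b : Fin (m + 1), a.1 < b.1 → D.nxt^[a.1] D.o = D.nxt^[b.1] D.o → False := by
      intro a b hab he
      have hb := b.2
      apply hmin (m - b.1 + a.1) (by omega)
      rw [Function.iterate_add_apply, he, ← Function.iterate_add_apply]
      rw [show m - b.1 + b.1 = m by omega, hm]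
    rcases Nat.lt_or_gt_of_ne (fun h => hab (Fin.ext h)) with h | h
    · exact key a b h he
    · exact key b a h he.symm
  have hbij : Function.Bijective (fun i : Fin (Fintype.card L) => D.nxt^[i.1] D.o) :=
    (Fintype.bijective_iff_surjective_and_card _).2 ⟨hsurj, by simp⟩
  exact ⟨Equiv.ofBijective _ hbij, fun i => rfl⟩

end FOGAux

open FOGAux in
/-- The general form of `fomix`. -/
theorem fog {L : Type} [Fintype L] [DecidableEq L] (D : KS L)
    (horb : ∀ i, ∃ n, D.nxt^[n] D.o = i) (h3 : 3 ≤ Fintype.card L)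
    (E : Finset (Finset L)) (hE : D.Mixing E) :
    ∀ p q, p ≠ q → D.nxt p = D.nxt q → D.FO p q := by
  obtain ⟨n, hn⟩ : ∃ n, Fintype.card L = n := ⟨_, rfl⟩
  obtain ⟨f, hf⟩ := enum D horb n hn
  rw [hn] at h3
  -- the collision
  obtain ⟨K, hK⟩ : ∃ K : Fin n, f K = D.nxt (f ⟨n - 1, by omega⟩) := f.surjective _
  have hfo : f ⟨0, by omega⟩ = D.o := by rw [hf]; rfl
  have hK0 : K.1 ≠ 0 := by
    intro h
    have h1 : K = ⟨0, by omega⟩ := Fin.ext h
    rw [h1, hfo] at hK
    exact D.nxt_ne _ hK.symm
  have hKn := K.2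
  have hn' : K.1 + (n - K.1) = n := by omega
  -- the equivalence
  set e : L ≃ Fin (K.1 + (n - K.1)) := f.symm.trans (finCongr hn'.symm) with he
  have hval : ∀ x, (e x).1 = (f.symm x).1 := fun x => by simp [he]
  have hsymm : ∀ i, e.symm i = f ⟨i.1, by omega⟩ := fun i => by
    rw [Equiv.symm_apply_eq]
    apply Fin.ext
    rw [hval, Equiv.symm_apply_apply]
  have hnxt : ∀ i : Fin n, (f.symm (D.nxt (f i))).1 = if i.1 + 1 < n then i.1 + 1 else K.1 := by
    intro i
    split_ifs with h
    · have h1 : D.nxt (f i) = f ⟨i.1 + 1, h⟩ := by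
        rw [hf, hf, Function.iterate_succ_apply']
      rw [h1, Equiv.symm_apply_apply]
    · have h1 : i = ⟨n - 1, by omega⟩ := Fin.ext (by have := i.2; simp only; omega)
      rw [h1, ← hK, Equiv.symm_apply_apply]
  have H : FOMIXAux.Hyp K.1 (n - K.1) (tr e D) := by
    have hnx : ∀ i, ((tr e D).nxt i).1 = if i.1 + 1 < K.1 + (n - K.1) then i.1 + 1 else K.1 := by
      intro i
      show (e (D.nxt (e.symm i))).1 = _
      rw [hval, hsymm, hnxt]
      simp only [hn']
    refine ⟨by omega, by omega, ?_, hnx, ?_⟩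
    · rw [tr_o, hval, ← hfo, Equiv.symm_apply_apply]
    · intro i j hi hj h
      have h1 := hnx i
      have h2 := hnx j
      rw [if_neg (by omega)] at h1
      rw [if_pos (by omega)] at h2
      have h4 := (tr e D).inj i j (Fin.ext (by omega)) h
      have := congrArg Fin.val h4
      omega
  have main := fo_of_hyp H (by omega) (im_mixing e D E hE)
  intro p q hpq hnx
  have h5 := fo_tr e D (e p) (e q) (main (e p) (e q) (fun h => hpq (e.injective h))
    (by rw [tr_nxt, tr_nxt, hnx]))
  simpa using h5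

end R4
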