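import Pool.Agent.Work.MP_e3f5d9_al.B11

/-!
# FOMIX (helper34): for a mixing kneading datum the colliding letters are `FO`
-/

set_option autoImplicit false

open Finset

namespace R4

namespace FOMIXAux

/-- the hypotheses on the system -/
structure Hyp (K N : ℕ) (D : KS (Fin (K + N))) : Prop where
  hK : 1 ≤ K
  hN : 1 ≤ N
  o : D.o.1 = 0
  nxt : ∀ i, (D.nxt i).1 = if i.1 + 1 < K + N then i.1 + 1 else K
  side : ∀ i j, i.1 + 1 = K + N → j.1 + 1 = K → D.side i ≠ D.side j

variable {K N : ℕ} {D : KS (Fin (K + N))}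

/-- the partner of the letter `i < K` -/
def jj (K N i : ℕ) : ℕ := K + (i + (N - 1) * K) % N

theorem jj_lt (hN : 1 ≤ N) (i : ℕ) : jj K N i < K + N := by
  have := Nat.mod_lt (i + (N - 1) * K) hN
  unfold jj
  omega

theorem jj_ge (i : ℕ) : K ≤ jj K N i := by
  unfold jj
  omega

/-- one step forward -/
theorem jj_succ (hN : 1 ≤ N) (i : ℕ) :
    jj K N (i + 1) = if jj K N i + 1 < K + N then jj K N i + 1 else K := by
  unfold jj
  generalize (N - 1) * K = c
  have h1 := Nat.mod_lt (i + c) hN
  have h2 : (i + 1 + c) % N = ((i + c) % N + 1) % N := by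
    rw [show i + 1 + c = (i + c) + 1 by omega]
    exact (Nat.mod_add_mod (i + c) N 1).symm
  rw [h2]
  split_ifs with h
  · rw [Nat.mod_eq_of_lt (by omega)]
    omega
  · have : (i + c) % N + 1 = N := by omega
    rw [this, Nat.mod_self]
    omega

theorem jj_last (hK : 1 ≤ K) (hN : 1 ≤ N) : jj K N (K - 1) = K + N - 1 := by
  unfold jj
  have h1 : K - 1 + (N - 1) * K = N * (K - 1) + (N - 1) := by
    obtain ⟨k, rfl⟩ := Nat.exists_eq_add_of_le hK
    obtain ⟨n, rfl⟩ := Nat.exists_eq_add_of_le hN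
    simp only [Nat.add_sub_cancel_left]
    ring
  rw [h1, Nat.mul_add_mod, Nat.mod_eq_of_lt (by omega)]
  omega

theorem pre_ne (H : Hyp K N D) {i j : Fin (K + N)} (h : D.nxt i = j) (hj : j.1 ≠ K) :
    i.1 + 1 = j.1 := by
  have h1 := H.nxt i
  rw [h] at h1
  split_ifs at h1 with h2
  · exact h1.symm
  · exact absurd h1 hj

theorem pre_K (H : Hyp K N D) {i j : Fin (K + N)} (h : D.nxt i = j) (hj : j.1 = K) :
    i.1 + 1 = K ∨ i.1 + 1 = K + N := by
  have h1 := H.nxt i
  have hi := i.2
  rw [h] at h1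
  split_ifs at h1 with h2
  · left; omega
  · right; omega

theorem fo_zero (H : Hyp K N D) {i j : Fin (K + N)} (hi : i.1 = 0) (hj : j.1 ≠ 0) (hj' : j.1 ≠ K) :
    D.FO i j := by
  have e : i = D.o := Fin.ext (by rw [H.o, hi])
  rw [e]
  refine KS.FO.base j ?_ ?_
  · intro h
    apply hj
    rw [h, H.o]
  · intro a b ha hb
    have h1 := pre_ne H ha hj'
    have h2 := pre_ne H hb hj'
    exact Fin.ext (by omega)

/-- preperiodic letters -/
theorem fo_small (H : Hyp K N D) : ∀ (n : ℕ) (i j : Fin (K + N)), i.1 = n → i.1 < j.1 → j.1 < K →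
    D.FO i j := by
  intro n
  induction n with
  | zero =>
    intro i j hi hij hj
    exact fo_zero H hi (by omega) (by omega)
  | succ n ih =>
    intro i j hi hij hj
    have hN := H.hN
    refine KS.FO.step i j ?_ ?_ ?_
    · intro h
      rw [h, H.o] at hi
      omega
    · intro h
      rw [h, H.o] at hij
      omega
    · intro i' j' h1 h2 _
      have h3 := pre_ne H h1 (by omega)
      have h4 := pre_ne H h2 (by omega)
      exact ih i' j' (by omega) (by omega) (by omega)

/-- the descent -/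
theorem descent (H : Hyp K N D)
    (hno : ∀ i j : Fin (K + N), i.1 + 1 = K → j.1 + 1 = K + N → ¬ D.FO i j) :
    ∀ (t : ℕ) (i j : Fin (K + N)), i.1 + 1 + t = K → j.1 = jj K N i.1 →
      ¬ D.FO i j ∧ (1 ≤ t → D.side i = D.side j) := by
  have hN := H.hN
  have hK := H.hK
  intro t
  induction t with
  | zero =>
    intro i j hi hj
    refine ⟨hno i j (by omega) ?_, fun h => absurd h (by omega)⟩
    have h1 : i.1 = K - 1 := by omega
    rw [h1, jj_last hK hN] at hj
    omega
  | succ t ih =>
    intro i j hi hj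
    have hjl : jj K N (i.1 + 1) < K + N := jj_lt hN _
    have hjg : K ≤ jj K N (i.1 + 1) := jj_ge _
    obtain ⟨h1, -⟩ := ih ⟨i.1 + 1, by omega⟩ ⟨jj K N (i.1 + 1), hjl⟩ (by simp only; omega) rfl
    -- a failing pair of preimages
    have h2 : ∃ i' j', D.nxt i' = ⟨i.1 + 1, by omega⟩ ∧ D.nxt j' = ⟨jj K N (i.1 + 1), hjl⟩ ∧
        D.side i' = D.side j' ∧ ¬ D.FO i' j' := by
      by_contra hcon
      push Not at hcon
      apply h1
      refine KS.FO.step _ _ ?_ ?_ ?_
      · intro h
        have := congrArg Fin.val h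
        rw [H.o] at this
        simp at this
      · intro h
        have := congrArg Fin.val h
        rw [H.o] at this
        simp only at this
        omega
      · intro i' j' a1 a2 a3
        exact hcon i' j' a1 a2 a3
    obtain ⟨i', j', a1, a2, a3, a4⟩ := h2
    have b1 := pre_ne H a1 (by simp only; omega)
    have ei : i' = i := Fin.ext (by simp only at b1; omega)
    subst ei
    have b2 : j'.1 = jj K N i'.1 := by
      have c1 := jj_succ (K := K) hN i'.1
      have c2 := jj_lt (K := K) hN i'.1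
      have c3 := jj_ge (K := K) (N := N) i'.1
      by_cases hc : jj K N (i'.1 + 1) = K
      · -- the partner is `K`
        have c4 : jj K N i'.1 + 1 = K + N := by
          split_ifs at c1 with c5
          · omega
          · omega
        rcases pre_K H a2 hc with c5 | c5
        · exfalso
          exact a4 (fo_small H i'.1 i' j' rfl (by omega) (by omega))
        · omega
      · have c4 := pre_ne H a2 hc
        simp only at c4
        split_ifs at c1 with c5
        · omega
        · exact absurd c1 hc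
    have ej : j' = j := Fin.ext (by omega)
    subst ej
    exact ⟨a4, fun _ => a3⟩

/-- the cut `A` splits the pair of `i` -/
def Spl (K N : ℕ) (A : Finset (Fin (K + N))) (i : ℕ) : Prop :=
  ∃ a b : Fin (K + N), a.1 = i ∧ b.1 = jj K N i ∧ ¬ (a ∈ A ↔ b ∈ A)

theorem spl_nm (A : Finset (Fin (K + N))) (i : ℕ) (h : Spl K N (D.nm A) i) : Spl K N A i := by
  obtain ⟨a, b, h1, h2, h3⟩ := h
  refine ⟨a, b, h1, h2, fun h4 => h3 ?_⟩
  unfold KS.nm
  split_ifs
  · rw [Finset.mem_compl, Finset.mem_compl, h4]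
  · exact h4

theorem mem_lp (s : Bool) (A : Finset (Fin (K + N))) (i : Fin (K + N)) :
    i ∈ D.lp s A ↔ D.side i = s ∧ D.nxt i ∈ A := by
  simp [KS.lp]

theorem spl_lp (H : Hyp K N D)
    (hside : ∀ i j : Fin (K + N), i.1 + 1 < K → j.1 = jj K N i.1 → D.side i = D.side j)
    (h0 : jj K N 0 = K) (s : Bool) (A : Finset (Fin (K + N))) (hA : D.o ∉ A) (i : ℕ)
    (hi : i < K) (h : Spl K N (D.lp s A) i) : Spl K N A ((i + 1) % K) := by
  obtain ⟨a, b, h1, h2, h3⟩ := h
  have hN := H.hN
  have hK := H.hK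
  rw [mem_lp, mem_lp] at h3
  have na := H.nxt a
  have nb := H.nxt b
  rcases Nat.lt_or_ge (i + 1) K with h4 | h4
  · rw [Nat.mod_eq_of_lt h4]
    rw [if_pos (by omega)] at na
    have e := jj_succ (K := K) hN i
    rw [← h2, ← nb] at e
    refine ⟨D.nxt a, D.nxt b, by omega, e.symm, fun h5 => h3 ?_⟩
    rw [hside a b (by omega) (by rw [h2, h1]), h5]
  · have h5 : i + 1 = K := by omega
    rw [h5, Nat.mod_self]
    have e1 : i = K - 1 := by omega
    have h6 : b.1 + 1 = K + N := by
      rw [h2, e1, jj_last hK hN]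
      omega
    have h7 := H.side b a h6 (by omega)
    rw [if_pos (by omega)] at na
    rw [if_neg (by omega)] at nb
    have h8 : D.nxt a = D.nxt b := Fin.ext (by omega)
    refine ⟨D.o, D.nxt b, H.o, by rw [nb, h0], fun h9 => h3 ?_⟩
    have h10 : D.nxt b ∉ A := fun h => hA (h9.2 h)
    rw [h8]
    constructor
    · rintro ⟨-, h⟩
      exact absurd h h10
    · rintro ⟨-, h⟩
      exact absurd h h10

theorem spl_path (H : Hyp K N D)
    (hside : ∀ i j : Fin (K + N), i.1 + 1 < K → j.1 = jj K N i.1 → D.side i = D.side j)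
    (h0 : jj K N 0 = K) {E : Finset (Finset (Fin (K + N)))} (hE : ∀ A ∈ E, D.o ∉ A) :
    ∀ (l : ℕ) (A B : Finset (Fin (K + N))) (i : ℕ), D.Path E l A B → i < K → Spl K N B i →
      Spl K N A ((i + l) % K) := by
  have hK := H.hK
  intro l
  induction l with
  | zero =>
    intro A B i h hi hs
    obtain ⟨-, rfl⟩ := h
    rw [add_zero, Nat.mod_eq_of_lt hi]
    exact hs
  | succ l ih =>
    intro A B i h hi hs
    obtain ⟨C, ⟨hA, hC, s, hs'⟩, h2⟩ := h
    have h3 := ih C B i h2 hi hs
    rw [← hs'] at h3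
    have h4 := spl_lp H hside h0 s A (hE A hA) _ (Nat.mod_lt _ hK) (spl_nm _ _ h3)
    rw [Nat.mod_add_mod] at h4
    exact h4

theorem spl_base (H : Hyp K N D) (i : ℕ) : Spl K N ({D.o}ᶜ : Finset (Fin (K + N))) i ↔ i = 0 := by
  have hN := H.hN
  have hK := H.hK
  constructor
  · rintro ⟨a, b, h1, h2, h3⟩
    by_contra hi
    apply h3
    have h4 := jj_ge (K := K) (N := N) i
    have ha : a ≠ D.o := fun h => hi (by rw [← h1, h, H.o])
    have hb : b ≠ D.o := fun h => by
      rw [h, H.o] at h2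
      omega
    simp [ha, hb]
  · rintro rfl
    have h4 := jj_ge (K := K) (N := N) 0
    have h5 := jj_lt (K := K) hN 0
    refine ⟨D.o, ⟨jj K N 0, h5⟩, H.o, rfl, ?_⟩
    have hb : (⟨jj K N 0, h5⟩ : Fin (K + N)) ≠ D.o := fun h => by
      have := congrArg Fin.val h
      rw [H.o] at this
      simp only at this
      omega
    simp [hb]

theorem main (H : Hyp K N D) (h3 : 3 ≤ K + N) {E : Finset (Finset (Fin (K + N)))}
    (hE : D.Mixing E) (i j : Fin (K + N)) (hi : i.1 + 1 = K) (hj : j.1 + 1 = K + N) :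
    D.FO i j := by
  have hN := H.hN
  have hK := H.hK
  by_contra hno
  have hno' : ∀ i j : Fin (K + N), i.1 + 1 = K → j.1 + 1 = K + N → ¬ D.FO i j := by
    intro a b ha hb
    have e1 : a = i := Fin.ext (by omega)
    have e2 : b = j := Fin.ext (by omega)
    rw [e1, e2]
    exact hno
  have hd := descent H hno'
  have hside : ∀ i j : Fin (K + N), i.1 + 1 < K → j.1 = jj K N i.1 → D.side i = D.side j := by
    intro a b ha hb
    exact (hd (K - (a.1 + 1)) a b (by omega) hb).2 (by omega)
  have h0 : jj K N 0 = K := by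
    by_contra hne
    have h4 := jj_ge (K := K) (N := N) 0
    have h5 := jj_lt (K := K) hN 0
    have h6 := (hd (K - 1) ⟨0, by omega⟩ ⟨jj K N 0, h5⟩ (by simp only; omega) rfl).1
    exact h6 (fo_zero H rfl (by simp only; omega) hne)
  -- the lengths of the closed paths
  have hlen : ∀ l, D.Path E l {D.o}ᶜ {D.o}ᶜ → l % K = 0 := by
    intro l hl
    have h4 := spl_path H hside h0 hE.norm l _ _ 0 hl hK ((spl_base H 0).2 rfl)
    rw [zero_add] at h4
    exact (spl_base H _).1 h4
  obtain ⟨n, hn, hp⟩ := hE.mix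
  have p1 := hp _ hE.base _ hE.base
  obtain ⟨n', rfl⟩ : ∃ n', n = n' + 1 := ⟨n - 1, by omega⟩
  obtain ⟨C, hC, hC'⟩ := p1
  have p2 : D.Path E (n' + 1 + 1) {D.o}ᶜ {D.o}ᶜ := ⟨C, hC, hp C hC.2.1 _ hE.base⟩
  have q1 := hlen _ (hp _ hE.base _ hE.base)
  have q2 := hlen _ p2
  have hK1 : K = 1 := by
    have d1 := Nat.dvd_of_mod_eq_zero q1
    have d2 := Nat.dvd_of_mod_eq_zero q2
    have d3 := (Nat.dvd_add_right d1).1 d2
    exact Nat.dvd_one.1 d3
  subst hK1
  have h6 : (N - 1) % N = 0 := by
    have : jj 1 N 0 = 1 + (N - 1) % N := by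
      unfold jj
      rw [zero_add, mul_one]
    omega
  rw [Nat.mod_eq_of_lt (by omega)] at h6
  omega

end FOMIXAux

open FOMIXAux

/-- For a kneading datum with at least three letters and a mixing class of cuts, the colliding
letters have a product of finite order. -/
theorem fomix (v w : List Bool) (hv : Valid v w) (h3 : 3 ≤ v.length + w.length)
    (D : KS (Fin (v.length + w.length))) (ho : D.o.1 = 0) (hn : D.nxt = ksNxt v w)
    (hs : D.side = ksSide v w) (E : Finset (Finset (Fin (v.length + w.length))))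
    (hE : D.Mixing E) : ∀ p q, p ≠ q → D.nxt p = D.nxt q → D.FO p q := by
  have H : Hyp v.length w.length D := by
    refine ⟨List.length_pos_iff.2 hv.1, List.length_pos_iff.2 hv.2.1, ho, ?_, ?_⟩
    · intro i
      rw [hn]
      exact B11Aux.nxt_val v w hv i
    · intro i j hi hj
      rw [hs]
      exact B11Aux.side_ne v w hv i j hi hj
  intro p q hpq hnx
  have hp := p.2
  have hq := q.2
  by_cases hK : (D.nxt q).1 = v.length
  · have h1 := pre_K H hnx hK
    have h2 := pre_K H (rfl : D.nxt q = D.nxt q) hK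
    rcases h1 with h1 | h1 <;> rcases h2 with h2 | h2
    · exact absurd (Fin.ext (by omega)) hpq
    · exact main H h3 hE p q h1 h2
    · exact KS.FO.symm _ _ (main H h3 hE q p h2 h1)
    · exact absurd (Fin.ext (by omega)) hpq
  · have h1 := pre_ne H hnx hK
    have h2 := pre_ne H (rfl : D.nxt q = D.nxt q) hK
    exact absurd (Fin.ext (by omega)) hpq

end R4
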