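import Pool.Agent.Work.MP_e3f5d9_al.Defs

/-!
# Interface of the common core (R4, MP_e3f5d9_al)

One `Prop` per block.  See `BLUEPRINT.md`.
-/

set_option autoImplicit false

open Finset

namespace R4

/-! ### B1: basics on words and sections -/

/-- B1. -/
structure Basics {L : Type} [Fintype L] [DecidableEq L] (D : KS L) : Prop where
  pre_eq : ∀ b j i, D.pre b j = some i ↔ D.nxt i = j ∧ D.side i = b
  act_length : ∀ i x, (D.act i x).length = x.length
  act_act : ∀ i x, D.act i (D.act i x) = x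
  ev_append : ∀ w w' x, D.ev (w ++ w') x = D.ev w' (D.ev w x)
  ev_length : ∀ w x, (D.ev w x).length = x.length
  ev_cons : ∀ w b x,
    D.ev w (b :: x) = (xor b (decide (Odd (w.count D.o)))) :: D.ev (D.sec b w) x
  ev_reverse : ∀ w x, D.ev w.reverse (D.ev w x) = x
  ev_red : ∀ w, D.ev (red w) = D.ev w
  sec_append : ∀ b w w', D.sec b (w ++ w') =
    D.sec b w ++ D.sec (xor b (decide (Odd (w.count D.o)))) w'
  red_sec : ∀ b w, red (D.sec b (red w)) = red (D.sec b w)
  count_sec : ∀ w i, (D.sec false w).count i + (D.sec true w).count i = w.count (D.nxt i)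

/-- B1', words only. -/
structure WordBasics (L : Type) [Fintype L] [DecidableEq L] : Prop where
  red_chain : ∀ w : List L, (red w).IsChain (· ≠ ·)
  red_id : ∀ w : List L, w.IsChain (· ≠ ·) → red w = w
  red_cancel : ∀ (x : L) (u v : List L), red (u ++ x :: x :: v) = red (u ++ v)
  red_append : ∀ u v : List L, red (u ++ v) = red (red u ++ red v)
  count_red : ∀ (i : L) (w : List L), (red w).count i ≤ w.count i
  rr_single : ∀ (i : L) (w : List L), rr {i} w = (red w).count i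
  runs_red : ∀ (A : Finset L) (w : List L), runs A (red w) ≤ runs A w
  blk_red : ∀ (X Y : Finset L) (w : List L), blk X Y (red w) ≤ blk X Y w
  blk_loss : ∀ (X Y : Finset L) (w : List L), Disjoint X Y →
    blk X Y w + runs X (red w) + runs Y (red w) ≤ blk X Y (red w) + runs X w + runs Y w
  blk_loss' : ∀ (X Y : Finset L) (w : List L), Disjoint X Y →
    blk X Y w + runs Xᶜ (red w) + runs Y (red w) ≤ blk X Y (red w) + runs Xᶜ w + runs Y w
  runs_compl : ∀ (A : Finset L) (w : List L), runs Aᶜ w ≤ runs A w + 1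
  blk_symm : ∀ (X Y : Finset L) (w : List L), Disjoint X Y → blk X Y w ≤ blk Y X w + 1
  blk_compl : ∀ (A : Finset L) (w : List L), blk Aᶜ A w = runs A w
  blk_glue : ∀ (X Y Z : Finset L) (w : List L), X ⊆ Yᶜ → Z ⊆ Y →
    blk X Y w + blk Yᶜ Z w ≤ blk X Z w + runs Y w

/-! ### B2: the crossing inequalities for one step -/

/-- B2a. The crossing law. -/
def IneqCross {L : Type} [Fintype L] [DecidableEq L] (D : KS L) : Prop :=
  ∀ (s : Bool) (A : Finset L) (w : List L), D.o ∉ A →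
    runs (D.lp s A) (D.sec false w) + runs (D.lp s A) (D.sec true w) ≤ runs A w

/-- B2b. The image rule. -/
def IneqImage {L : Type} [Fintype L] [DecidableEq L] (D : KS L) : Prop :=
  ∀ (s : Bool) (Y Y' : Finset L) (w : List L), D.o ∈ Y → Disjoint Y Y' →
    blk (D.lp s Yᶜ)ᶜ (D.lp s Y') (D.sec false w) + blk (D.lp s Yᶜ)ᶜ (D.lp s Y') (D.sec true w)
      ≤ blk Y Y' w

/-- B2c. The lift rule. -/
def IneqLift {L : Type} [Fintype L] [DecidableEq L] (D : KS L) : Prop :=
  ∀ (s : Bool) (Y Y' : Finset L) (w : List L), D.o ∈ Y → Disjoint Y Y' →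
    blk Y Y' w
      + (runs (D.lp s Yᶜ) (D.sec false w) + runs (D.lp s Yᶜ) (D.sec true w))
      + (runs (D.lp s Y') (D.sec false w) + runs (D.lp s Y') (D.sec true w))
    ≤ (blk (D.lp s Yᶜ)ᶜ (D.lp s Y') (D.sec false w)
      + blk (D.lp s Yᶜ)ᶜ (D.lp s Y') (D.sec true w)) + runs Yᶜ w + runs Y' w

/-- B2d. The type B rule (for reduced `w`). -/
def IneqTypeB {L : Type} [Fintype L] [DecidableEq L] (D : KS L) : Prop :=
  ∀ (s : Bool) (Y Y' : Finset L) (w : List L), D.o ∉ Y → D.o ∉ Y' → Disjoint Y Y' →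
    red w = w →
    let n : ℤ := w.count D.o
    let a : ℤ := blk {D.o} Y w
    let a' : ℤ := blk {D.o} Y' w
    let c : ℤ := blk Y Y' w
    let r : ℤ := runs Y w
    let r' : ℤ := runs Y' w
    let x : ℤ := runs (D.lp s Y) (D.sec false w) + runs (D.lp s Y) (D.sec true w)
    let x' : ℤ := runs (D.lp s Y') (D.sec false w) + runs (D.lp s Y') (D.sec true w)
    let y : ℤ := blk (D.lp s Y) (D.lp s Y') (D.sec false w)
      + blk (D.lp s Y) (D.lp s Y') (D.sec true w)
    n + 1 ≤ y + 2 * ((n + 1 - a) + (n + 1 - a') + (r - a) + (r' - a') + (r - c) + (r' - c)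
      + (r - x) + (r' - x')) + 4

/-! ### B3: sums over the levels -/

/-- B3. -/
structure TotBasics {L : Type} [Fintype L] [DecidableEq L] (D : KS L) : Prop where
  tot_succ : ∀ F j w, D.tot F (j + 1) w = D.tot (fun z => F (D.sec false z) + F (D.sec true z)) j w
  tot_mono : ∀ (F G : List L → ℕ) j w, (∀ z, F z ≤ G z) → D.tot F j w ≤ D.tot G j w
  tot_add : ∀ (F G : List L → ℕ) j w, D.tot (fun z => F z + G z) j w = D.tot F j w + D.tot G j w
  tot_const : ∀ c j w, D.tot (fun _ => c) j w = c * 2 ^ j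
  tot_secL : ∀ F j w, D.tot F j w =
    ∑ v : Fin j → Bool, F (D.secL (List.ofFn v) w)
  tot_red : ∀ (F : List L → ℕ) j w, (∀ z, F (red z) = F z) → D.tot F j (red w) = D.tot F j w
  tot_count : ∀ i j w, D.tot (List.count i) j w = w.count (D.nxt^[j] i)

/-! ### B4: the window -/

/-- B4. -/
def Window {L : Type} [Fintype L] [DecidableEq L] (D : KS L) : Prop :=
  ∀ E, D.Mixing E → ∀ Lw N : ℕ, 0 < N → ∃ J C : ℕ, 2 ^ (J + 1) ≤ C ∧ ∀ (n : ℕ) (w : List L),
    w.length ≤ n → ∃ j0 M, j0 + Lw ≤ J ∧ M ≤ n + C ∧ D.Win E w j0 (j0 + Lw) M (n / N + C)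

/-! ### B5: the closure -/

/-- B5. -/
def Closure {L : Type} [Fintype L] [DecidableEq L] (D : KS L) : Prop :=
  ∀ E, D.Mixing E → ∀ X Y, D.Mono E X Y → ∃ c d : ℕ, ∀ w j0 j1 M r,
    D.Win E w j0 j1 M r → 2 ^ (j1 + 1) ≤ r →
    ∀ j, j0 + d ≤ j → j + d ≤ j1 → M ≤ D.tot (bb X Y) j w + c * r

/-! ### B6: reconstruction -/

/-- B6a. Independent letters commute. -/
def IndepComm {L : Type} [Fintype L] [DecidableEq L] (D : KS L) : Prop :=
  ∀ i j, ¬ D.Dep i j → ∀ x, D.act i (D.act j x) = D.act j (D.act i x)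

/-- B6b. The projection lemma for partially commutative words. -/
def ProjLemma {L : Type} [Fintype L] [DecidableEq L] (D : KS L) : Prop :=
  ∀ w w' : List L, (∀ i j, D.Dep i j → KS.proj i j w = KS.proj i j w') →
    (∀ i, w.count i = w'.count i) → D.ev w = D.ev w'

/-- B6c. Reconstruction from the projections to `{o, i}` of the raw sections. -/
def Reconstruct {L : Type} [Fintype L] [DecidableEq L] (D : KS L) : Prop :=
  ∃ d : ℕ, ∀ w w' : List L,
    (∀ u : List Bool, u.length ≤ d → ∀ i, KS.proj D.o i (D.secL u w) = KS.proj D.o i (D.secL u w')) →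
    D.ev w = D.ev w'

/-! ### B7: counting -/

/-- B7. -/
def Counting : Prop :=
  ∀ (δ : ℝ) (C₀ c₀ : ℕ), 0 < δ → ∃ N : ℕ, 0 < N ∧ ∀ C₁ K : ℕ, ∃ C : ℝ, ∀ n : ℕ,
    Set.Finite {p : Fin K → List Bool |
      (∑ k, (p k).length) ≤ C₀ * n + C₁ ∧ (∑ k, viol (p k)) ≤ c₀ * (n / N) + C₁} ∧
    ((Set.ncard {p : Fin K → List Bool |
      (∑ k, (p k).length) ≤ C₀ * n + C₁ ∧ (∑ k, viol (p k)) ≤ c₀ * (n / N) + C₁} : ℕ) : ℝ)
      ≤ C * Real.exp (δ * n)

/-! ### B8: assembly -/

/-- B8. -/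
def SubexpGam {L : Type} [Fintype L] [DecidableEq L] (D : KS L) : Prop :=
  ∀ δ : ℝ, 0 < δ → ∃ C : ℝ, ∀ n : ℕ, (D.gam n : ℝ) ≤ C * Real.exp (δ * n)

/-- B8. -/
def Assembly {L : Type} [Fintype L] [DecidableEq L] (D : KS L) : Prop :=
  ∀ E, D.Rigid E → SubexpGam D

/-! ### B9: the lower bound -/

/-- B9a. -/
def FiniteOther {L : Type} [Fintype L] [DecidableEq L] (D : KS L) : Prop :=
  (∀ p q, p ≠ q → D.nxt p = D.nxt q → D.FO p q) →
    Set.Finite {g : List Bool → List Bool | ∃ w : List L, D.ev (w.filterMap D.oth) = g}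

/-- B9b. -/
def SquareStep {L : Type} [Fintype L] [DecidableEq L] (D : KS L) : Prop :=
  Set.Finite {g : List Bool → List Bool | ∃ w : List L, D.ev (w.filterMap D.oth) = g} →
    ∃ C I : ℕ, ∀ r, 1 ≤ r → D.gam r ^ 2 ≤ I * D.gam (C * r)

/-- B9c. -/
def GamBasics {L : Type} [Fintype L] [DecidableEq L] (D : KS L) : Prop :=
  Monotone D.gam ∧ ∀ m, ∃ r, m ≤ D.gam r

/-- B9d. -/
def SuperLemma : Prop :=
  ∀ (f : ℕ → ℕ) (C I : ℕ), Monotone f → (∀ m, ∃ r, m ≤ f r) →
    (∀ r, 1 ≤ r → f r ^ 2 ≤ I * f (C * r)) → Superpoly f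

/-! ### B10: growth of the group -/

/-- B10. -/
def GroupGrowth {L : Type} [Fintype L] [DecidableEq L] (D : KS L) : Prop :=
  SubexpGam D → Superpoly D.gam → IntermediateGrowth D.grp

/-! ### B11: the system of a kneading datum -/

/-- B11. -/
def KneadingSystem : Prop :=
  ∀ v w : List Bool, Valid v w → ∃ D : KS (Fin (v.length + w.length)),
    D.o.1 = 0 ∧ D.nxt = ksNxt v w ∧ D.side = ksSide v w

end R4
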