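import Pool.Agent.Work.MP_e3f5d9_al.MK0

/-!
# MK1: calculus of visits with prefixes
-/

set_option autoImplicit false

open Finset

namespace R4.Mk

namespace MK1Aux

variable {L β : Type} [DecidableEq β]

lemma visp_none {c : L → Option β} {x : L} (h : c x = none) (p : Option β) (u w : List L) :
    visp c p u (x :: w) = visp c none (u ++ [x]) w := by
  rw [visp, h]

lemma visp_same {c : L → Option β} {x : L} {b : β} (h : c x = some b) (u w : List L) :
    visp c (some b) u (x :: w) = visp c (some b) (u ++ [x]) w := by
  rw [visp, h]
  simp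

lemma visp_new {c : L → Option β} {x : L} {b : β} {p : Option β} (h : c x = some b)
    (hp : p ≠ some b) (u w : List L) :
    visp c p u (x :: w) = (b, u) :: visp c (some b) (u ++ [x]) w := by
  rw [visp, h]
  simp [hp]

lemma fst (c : L → Option β) : ∀ (W : List L) (p : Option β) (u : List L),
    (visp c p u W).map Prod.fst = vis c p W := by
  intro W
  induction W with
  | nil => intro p u; simp [visp, vis]
  | cons x w ih =>
    intro p u
    rw [visp, vis]
    cases h : c x with
    | none => exact ih _ _
    | some b =>
      dsimp only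
      split_ifs
      · exact ih _ _
      · rw [List.map_cons, ih]

lemma tk_aux [DecidableEq L] (o : L) (c : L → Option β) : ∀ (W : List L) (p : Option β) (q : Bool)
    (u : List L), tk o c p (xor q (decide (Odd (u.count o)))) W =
      (visp c p u W).map fun z => (z.1, xor q (decide (Odd (z.2.count o)))) := by
  intro W
  induction W with
  | nil => intro p q u; simp [visp, tk]
  | cons x w ih =>
    intro p q u
    have e : xor (xor q (decide (Odd (u.count o)))) (decide (x = o)) =
        xor q (decide (Odd ((u ++ [x]).count o))) := by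
      rw [List.count_append, Bool.xor_assoc]
      congr 1
      by_cases hx : x = o
      · subst hx
        by_cases h' : Odd (u.count x)
        · have : ¬ Odd (u.count x + 1) := by rw [Nat.odd_add_one]; exact fun h => h h'
          simp [h', this]
        · have : Odd (u.count x + 1) := by rw [Nat.odd_add_one]; exact h'
          simp [h', this]
      · have : [x].count o = 0 := List.count_eq_zero_of_not_mem (by simpa using Ne.symm hx)
        rw [this]
        simp [hx]
    rw [visp, tk, e]
    cases h : c x with
    | none => exact ih _ _ _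
    | some b =>
      dsimp only
      split_ifs
      · exact ih _ _ _
      · rw [List.map_cons, ih]

lemma filter_aux (c c' : L → Option β) (p : β → Bool) (hc : ∀ x, c' x = (c x).filter p) :
    ∀ (W : List L) (p0 : Option β) (u : List L),
    visp c' (p0.filter p) u W = (visp c p0 u W).filter fun z => p z.1 := by
  intro W
  induction W with
  | nil => intro p0 u; simp [visp]
  | cons x w ih =>
    intro p0 u
    have hx := hc x
    cases h : c x with
    | none =>
      rw [h, Option.filter_none] at hx
      rw [visp_none hx, visp_none h, ← ih]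
      rfl
    | some b =>
      rw [h] at hx
      cases hb : p b with
      | false =>
        have e2 : (some b).filter p = none := by simp [hb]
        rw [e2] at hx
        rw [visp_none hx]
        by_cases h0 : p0 = some b
        · subst h0
          rw [visp_same h, ← ih, e2]
        · rw [visp_new h h0, List.filter_cons_of_neg (by simp [hb]), ← ih, e2]
      | true =>
        have e2 : (some b).filter p = some b := by simp [hb]
        rw [e2] at hx
        by_cases h0 : p0 = some b
        · subst h0
          rw [visp_same h, e2, visp_same hx, ← ih, e2]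
        · have h1 : p0.filter p ≠ some b := by
            intro h1
            rw [Option.filter_eq_some_iff] at h1
            exact h0 h1.1
          rw [visp_new h h0, visp_new hx h1, List.filter_cons_of_pos (by simp [hb]), ← ih, e2]

lemma map_aux {γ : Type} [DecidableEq γ] (g : β → γ) (c : L → Option β) (c' : L → Option γ)
    (hc : ∀ x, c' x = (c x).map g)
    (hg : ∀ x y b b', c x = some b → c y = some b' → g b = g b' → b = b') :
    ∀ (W : List L) (p0 : Option β) (u : List L), (p0 = none ∨ ∃ y, c y = p0) →
    visp c' (p0.map g) u W = (visp c p0 u W).map fun z => (g z.1, z.2) := by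
  intro W
  induction W with
  | nil => intro p0 u _; simp [visp]
  | cons x w ih =>
    intro p0 u hp0
    have hx := hc x
    cases h : c x with
    | none =>
      rw [h, Option.map_none] at hx
      rw [visp_none hx, visp_none h, ← ih none _ (Or.inl rfl)]
      rfl
    | some b =>
      rw [h, Option.map_some] at hx
      by_cases h0 : p0 = some b
      · subst h0
        rw [visp_same h, Option.map_some, visp_same hx, ← ih _ _ (Or.inr ⟨x, h⟩)]
        rfl
      · have h1 : p0.map g ≠ some (g b) := by
          intro h1
          cases p0 with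
          | none => simp at h1
          | some b0 =>
            rcases hp0 with h2 | ⟨y, hy⟩
            · cases h2
            · simp only [Option.map_some, Option.some.injEq] at h1
              exact h0 (by rw [hg y x b0 b hy h h1])
        rw [visp_new h h0, visp_new hx h1, List.map_cons, ← ih _ _ (Or.inr ⟨x, h⟩)]
        rfl

/-- The first visit. -/
lemma head (c : L → Option β) : ∀ (W : List L) (p : Option β) (u : List L) (z : β × List L)
    (V : List (β × List L)), visp c p u W = z :: V →
    ∃ (R G : List L) (x : L) (v : List L), W = R ++ G ++ x :: v ∧ z.2 = u ++ R ++ G ∧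
      c x = some z.1 ∧ (∀ y ∈ R, c y = p) ∧ (∀ y ∈ G, c y = none) ∧ (G = [] → p ≠ some z.1) ∧
      V = visp c (some z.1) (z.2 ++ [x]) v := by
  intro W
  induction W with
  | nil => intro p u z V h; rw [visp] at h; cases h
  | cons x w ih =>
    intro p u z V h
    cases hx : c x with
    | none =>
      rw [visp_none hx] at h
      obtain ⟨R, G, y, v, h1, h2, h3, h4, h5, -, h7⟩ := ih none (u ++ [x]) z V h
      refine ⟨[], x :: (R ++ G), y, v, by rw [h1]; simp, by rw [h2]; simp, h3, by simp, ?_,
        by simp, h7⟩
      intro y' hy'
      rcases List.mem_cons.1 hy' with rfl | hy'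
      · exact hx
      · rcases List.mem_append.1 hy' with h' | h'
        · exact h4 _ h'
        · exact h5 _ h'
    | some b =>
      by_cases hp : p = some b
      · subst hp
        rw [visp_same hx] at h
        obtain ⟨R, G, y, v, h1, h2, h3, h4, h5, h6, h7⟩ := ih (some b) (u ++ [x]) z V h
        refine ⟨x :: R, G, y, v, by rw [h1]; simp, by rw [h2]; simp, h3, ?_, h5, h6, h7⟩
        intro y' hy'
        rcases List.mem_cons.1 hy' with rfl | hy'
        · exact hx
        · exact h4 _ hy'
      · rw [visp_new hx hp, List.cons.injEq] at h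
        obtain ⟨rfl, rfl⟩ := h
        exact ⟨[], [], x, w, by simp, by simp, hx, by simp, by simp, fun _ => hp, rfl⟩

lemma empty (c : L → Option β) : ∀ (W : List L) (p : Option β) (u : List L),
    visp c p u W = [] → ∃ R G : List L, W = R ++ G ∧ (∀ y ∈ R, c y = p) ∧ ∀ y ∈ G, c y = none := by
  intro W
  induction W with
  | nil => intro p u _; exact ⟨[], [], rfl, by simp, by simp⟩
  | cons x w ih =>
    intro p u h
    cases hx : c x with
    | none =>
      rw [visp_none hx] at h
      obtain ⟨R, G, h1, h2, h3⟩ := ih none (u ++ [x]) h
      refine ⟨[], x :: (R ++ G), by rw [h1]; simp, by simp, ?_⟩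
      intro y' hy'
      rcases List.mem_cons.1 hy' with rfl | hy'
      · exact hx
      · rcases List.mem_append.1 hy' with h' | h'
        · exact h2 _ h'
        · exact h3 _ h'
    | some b =>
      by_cases hp : p = some b
      · subst hp
        rw [visp_same hx] at h
        obtain ⟨R, G, h1, h2, h3⟩ := ih (some b) (u ++ [x]) h
        refine ⟨x :: R, G, by rw [h1]; simp, ?_, h3⟩
        intro y' hy'
        rcases List.mem_cons.1 hy' with rfl | hy'
        · exact hx
        · exact h2 _ hy'
      · rw [visp_new hx hp] at h
        cases h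

lemma mem_aux (c : L → Option β) : ∀ (V : List (β × List L)) (W : List L) (p : Option β)
    (u : List L), visp c p u W = V → ∀ z ∈ V, ∃ (r : List L) (x : L) (v : List L),
      z.2 = u ++ r ∧ W = r ++ x :: v ∧ c x = some z.1 := by
  intro V
  induction V with
  | nil => intro W p u _ z hz; simp at hz
  | cons z0 V ih =>
    intro W p u h z hz
    obtain ⟨R, G, x, v, rfl, h2, h3, -, -, -, h7⟩ := head c W p u z0 V h
    rcases List.mem_cons.1 hz with rfl | hz
    · exact ⟨R ++ G, x, v, by rw [h2, List.append_assoc], rfl, h3⟩
    · obtain ⟨r, x', v', e1, e2, e3⟩ := ih v _ _ h7.symm z hz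
      exact ⟨R ++ G ++ x :: r, x', v', by rw [e1, h2]; simp, by rw [e2]; simp, e3⟩

lemma next_aux (c : L → Option β) (z z' : β × List L) (V2 : List (β × List L)) :
    ∀ (V1 : List (β × List L)) (W : List L) (p : Option β) (u : List L),
    visp c p u W = V1 ++ z :: z' :: V2 → ∃ R G : List L, R ≠ [] ∧ z'.2 = z.2 ++ R ++ G ∧
      (∀ x ∈ R, c x = some z.1) ∧ (∀ x ∈ G, c x = none) ∧ (G = [] → z'.1 ≠ z.1) := by
  intro V1
  induction V1 with
  | nil =>
    intro W p u h
    obtain ⟨-, -, x, v, -, -, h3, -, -, -, h7⟩ := head c W p u z (z' :: V2) h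
    obtain ⟨R, G, x', v', -, e2, -, e4, e5, e6, -⟩ := head c v _ _ z' V2 h7.symm
    refine ⟨x :: R, G, by simp, by rw [e2]; simp, ?_, e5, ?_⟩
    · intro y hy
      rcases List.mem_cons.1 hy with rfl | hy
      · exact h3
      · exact e4 _ hy
    · intro hG e
      exact e6 hG (by rw [e])
  | cons z0 V1 ih =>
    intro W p u h
    obtain ⟨-, -, x, v, -, -, -, -, -, -, h7⟩ := head c W p u z0 _ h
    exact ih v _ _ h7.symm

lemma last_aux (c : L → Option β) (z : β × List L) :
    ∀ (V1 : List (β × List L)) (W : List L) (p : Option β) (u : List L),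
    visp c p u W = V1 ++ [z] → ∃ R G : List L, R ≠ [] ∧ u ++ W = z.2 ++ R ++ G ∧
      (∀ x ∈ R, c x = some z.1) ∧ (∀ x ∈ G, c x = none) := by
  intro V1
  induction V1 with
  | nil =>
    intro W p u h
    obtain ⟨R0, G0, x, v, h1, h2, h3, -, -, -, h7⟩ := head c W p u z [] h
    obtain ⟨R, G, e1, e2, e3⟩ := empty c v _ _ h7.symm
    refine ⟨x :: R, G, by simp, by rw [h1, h2, e1]; simp, ?_, e3⟩
    intro y hy
    rcases List.mem_cons.1 hy with rfl | hy
    · exact h3
    · exact e2 _ hy
  | cons z0 V1 ih =>
    intro W p u h
    obtain ⟨R0, G0, x, v, h1, h2, -, -, -, -, h7⟩ := head c W p u z0 _ h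
    obtain ⟨R, G, e1, e2, e3, e4⟩ := ih v _ _ h7.symm
    refine ⟨R, G, e1, ?_, e3, e4⟩
    rw [← e2, h1, h2]
    simp

end MK1Aux

/-- MK1. -/
theorem mk1 (L : Type) [DecidableEq L] : VispBasics L where
  fst := fun c p u W => MK1Aux.fst c W p u
  tk := by
    intro β _ o c p q W
    have := MK1Aux.tk_aux o c W p q []
    simpa using this
  filter := fun c p W => MK1Aux.filter_aux c _ p (fun _ => rfl) W none []
  map := fun g c W hg => MK1Aux.map_aux g c _ (fun _ => rfl) hg W none [] (Or.inl rfl)
  mem := by
    intro β _ c W z hz
    obtain ⟨r, x, v, e1, e2, e3⟩ := MK1Aux.mem_aux c _ W none [] rfl z hz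
    exact ⟨x, v, by rw [e1, e2]; simp, e3⟩
  first := by
    intro β _ c W z V h
    obtain ⟨R, G, x, v, -, h2, -, h4, h5, -, -⟩ := MK1Aux.head c W none [] z V h
    intro y hy
    rw [h2, List.nil_append] at hy
    rcases List.mem_append.1 hy with h' | h'
    · exact h4 _ h'
    · exact h5 _ h'
  next := fun c W z z' V1 V2 h => MK1Aux.next_aux c z z' V2 V1 W none [] h
  last := by
    intro β _ c W z V1 h
    obtain ⟨R, G, e1, e2, e3, e4⟩ := MK1Aux.last_aux c z V1 W none [] h
    exact ⟨R, G, e1, by simpa using e2, e3, e4⟩

end R4.Mk
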