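import Pool.Agent.Work.MP_e3f5d9_al.MK11d

/-! # Block MK11: the assembly of the periodic centre, main theorem -/

set_option autoImplicit false

open Finset

namespace R4.Mk

open DetAux

variable {L : Type} [Fintype L] [DecidableEq L]

theorem mk11 (S : Setup L) (hN : NodeBasics S) (hV : VispBasics L) (hS : StarBasics S.D S.E)
    (hL : LiftPath S) (hB : Blk S) (hF : Far S) (hNF : NodeFactor S) (hCo : Cont S.D S.E)
    (hC : Cnt S.D S.E) : MkDet S := by
  intro c s n hc hi hn hp
  generalize hi0 : S.D.nxt c = i0 at *
  generalize hz0 : S.D.nxt^[s] i0 = z at *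
  have hz : Ctr S.D S.E z := by rw [← hz0]; exact ctr_iter hS hi s
  obtain ⟨kF, D0, hF'⟩ := hF z hz.1 s
  obtain ⟨d, hd, hd0, hdD⟩ : ∃ d, S.D.nxt^[d] z = z ∧ 0 < d ∧ D0 ≤ d := by
    refine ⟨n * (D0 + 1), ?_, by positivity, ?_⟩
    · have h1 : Function.IsPeriodicPt S.D.nxt n z := hp
      exact h1.mul_const (D0 + 1)
    · calc D0 ≤ 1 * (D0 + 1) := by omega
        _ ≤ n * (D0 + 1) := Nat.mul_le_mul_right _ hn
  refine ⟨d, hd0, hd, ?_⟩
  obtain ⟨k1, hL1⟩ := hL z hz d
  obtain ⟨K2, e2, hexl⟩ := exl_alt hN hL hB c hc (by rw [hi0]; exact hi) s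
  rw [hi0] at hexl
  set w0 := List.replicate d false with hw0
  set K := d + K2 + kF with hK
  refine ⟨K, ?_⟩
  set T := S.N K with hT
  have hTd : T ⊆ S.N d := anti_le hN (by omega)
  have hT2 : T ⊆ S.N K2 := anti_le hN (by omega)
  have hTF : T ⊆ S.N kF := anti_le hN (by omega)
  have hfinw : Finite {x : List Bool // x.length = d ∧ x ≠ w0} := by
    have : Finite {x : List Bool // x.length ≤ d} := (List.finite_length_le Bool d).to_subtype
    exact Finite.of_injective (fun x : {x : List Bool // x.length = d ∧ x ≠ w0} =>
      (⟨x.1, x.2.1.le⟩ : {x : List Bool // x.length ≤ d})) fun x y h => by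
        rw [Subtype.mk.injEq] at h; exact Subtype.ext h
  have hfinx : Finite {x : List Bool // x.length = s} := by
    have : Finite {x : List Bool // x.length ≤ s} := (List.finite_length_le Bool s).to_subtype
    exact Finite.of_injective (fun x : {x : List Bool // x.length = s} =>
      (⟨x.1, x.2.le⟩ : {x : List Bool // x.length ≤ s})) fun x y h => by
        rw [Subtype.mk.injEq] at h; exact Subtype.ext h
  set Ψ : List L → (List (Finset L × List Bool) × List (Finset L × List Bool)) ×
      ({x : List Bool // x.length = d ∧ x ≠ w0} → List (Finset L × Bool)) :=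
    fun P => ((own S.D S.E z d P, own S.D S.E i0 s P),
      fun x => mk S.E z (S.D.secL x.1 P)) with hΨ
  -- the features determined by `Ψ`
  have D1 : Det T Ψ (fun P (w : {x : List Bool // x.length = d ∧ x ≠ w0}) => lam S z d w.1 P) := by
    apply det_pi
    intro w
    apply LiftAux.det_near T Ψ _ (fun ψ => (ψ.2 w).map Prod.snd) k1
    intro P hP
    have := lam_near hV hS hz hn hp hd k1 P w.1 (hL1 P (hTd hP) w.1 w.2.1)
    obtain ⟨a, b, a', b', m, h1, h2, h3, h4, h5, h6⟩ := this
    exact ⟨a', b', a, b, m, h2, h1, h5, h6, h3, h4⟩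
  have D2 : Det T Ψ (fun P (x : {x : List Bool // x.length = s}) => exl S i0 s x.1 P) := by
    apply det_pi
    intro x
    apply det_alt T Ψ _ e2
    · intro P hP
      exact hexl P (hT2 hP) x.1 x.2
    · intro P _ P' _ he
      have h2 : own S.D S.E i0 s P = own S.D S.E i0 s P' := congrArg (fun ψ => ψ.1.2) he
      obtain ⟨g1, g2⟩ := own_get S.D S.E i0 s z hz0 P P' _ _ rfl rfl h2
      rw [exl, exl, hz0]
      have := cn_eq (fun y : Finset L × List L =>
        if S.D.ev y.2 x.1 = adr S.D i0 s ∧ S.D.o ∈ stpL S.D i0 s y.1
        then some (decide (Odd ((S.D.secL x.1 y.2).count i0))) else none)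
        (fun y : Finset L × List L =>
        if S.D.ev y.2 x.1 = adr S.D i0 s ∧ S.D.o ∈ stpL S.D i0 s y.1
        then some (decide (Odd ((S.D.secL x.1 y.2).count i0))) else none)
        (visp (st S.E z) none [] P) (visp (st S.E z) none [] P') g1 (by
          intro k h h'
          obtain ⟨q1, q2⟩ := g2 k h h'
          have e1 : S.D.ev (visp (st S.E z) none [] P)[k].2 x.1 = adr S.D i0 s ↔
              S.D.ev (visp (st S.E z) none [] P')[k].2 x.1 = adr S.D i0 s :=
            (owner_iff S.D _ _ _).trans (by rw [q2]; exact (owner_iff S.D _ _ _).symm)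
          simp only [e1, q1]
          split_ifs <;> rfl) (visp (st S.E z) none [] P).length le_rfl
      rw [List.take_length, g1, List.take_length] at this
      exact this
  obtain ⟨N1, ρ1, hρ1⟩ := D1
  obtain ⟨N2, ρ2, hρ2⟩ := D2
  have hfk : Finite {l : List Bool // l.length ≤ k1 + 1} :=
    (List.finite_length_le Bool (k1 + 1)).to_subtype
  have hf1 : ∀ l : List Bool, (l.take k1).length ≤ k1 + 1 := by
    intro l
    rw [List.length_take]
    omega
  have hf2 : ∀ l : List Bool, (l.drop (l.length - (k1 + 1))).length ≤ k1 + 1 := by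
    intro l
    rw [List.length_drop]
    omega
  apply LiftAux.det_of_finite T Ψ _ (fun P => ((ρ1 P, ρ2 P),
    ((⟨(lam S z d w0 P).take k1, hf1 _⟩ : {l : List Bool // l.length ≤ k1 + 1}),
      (⟨(lam S z d w0 P).drop ((lam S z d w0 P).length - (k1 + 1)), hf2 _⟩ :
        {l : List Bool // l.length ≤ k1 + 1})),
    fun x : {x : List Bool // x.length = s} =>
      ((S.D.secL x.1 (pr (visp (st S.E z) none [] P)
        ((visp (st S.E z) none [] P).length - 1))).count i0 : ZMod 2)))
  intro P hP P' hP' he hσ
  simp only [Prod.mk.injEq, Subtype.mk.injEq] at hσ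
  obtain ⟨⟨hσ1, hσ2⟩, ⟨hσ3, hσ4⟩, hσ5⟩ := hσ
  have E1 := hρ1 P hP P' hP' he hσ1
  have E2 := hρ2 P hP P' hP' he hσ2
  have O1 : own S.D S.E z d P = own S.D S.E z d P' := congrArg (fun ψ => ψ.1.1) he
  have O2 : own S.D S.E i0 s P = own S.D S.E i0 s P' := congrArg (fun ψ => ψ.1.2) he
  generalize hVd : visp (st S.E z) none [] P = V at *
  generalize hVd' : visp (st S.E z) none [] P' = V' at *
  obtain ⟨hlen, G1⟩ := own_get S.D S.E z d z hd P P' V V' hVd hVd' O1
  obtain ⟨-, G2⟩ := own_get S.D S.E i0 s z hz0 P P' V V' hVd hVd' O2
  -- masks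
  have hown1 : ∀ w k (h : k < V.length) (h' : k < V'.length),
      (S.D.ev V[k].2 w = adr S.D z d ↔ S.D.ev V'[k].2 w = adr S.D z d) := by
    intro w k h h'
    exact (owner_iff S.D _ _ _).trans (by rw [(G1 k h h').2]; exact (owner_iff S.D _ _ _).symm)
  have hown2 : ∀ x k (h : k < V.length) (h' : k < V'.length),
      (S.D.ev V[k].2 x = adr S.D i0 s ↔ S.D.ev V'[k].2 x = adr S.D i0 s) := by
    intro x k h h'
    exact (owner_iff S.D _ _ _).trans (by rw [(G2 k h h').2]; exact (owner_iff S.D _ _ _).symm)
  -- equality of parities from equality of the lists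
  have hlamV : ∀ w, lam S z d w P = V.filterMap fun y =>
      if S.D.ev y.2 w = adr S.D z d then some (decide (Odd ((S.D.secL w y.2).count z))) else none := by
    intro w; rw [lam, hVd]
  have hlamV' : ∀ w, lam S z d w P' = V'.filterMap fun y =>
      if S.D.ev y.2 w = adr S.D z d then some (decide (Odd ((S.D.secL w y.2).count z))) else none := by
    intro w; rw [lam, hVd']
  have hmask1 : ∀ w k (h : k < V.length) (h' : k < V'.length),
      ((if S.D.ev V[k].2 w = adr S.D z d then
        some (decide (Odd ((S.D.secL w V[k].2).count z))) else none).isSome =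
      (if S.D.ev V'[k].2 w = adr S.D z d then
        some (decide (Odd ((S.D.secL w V'[k].2).count z))) else none).isSome) := by
    intro w k h h'
    by_cases c1 : S.D.ev V[k].2 w = adr S.D z d
    · rw [if_pos c1, if_pos ((hown1 w k h h').1 c1)]; rfl
    · rw [if_neg c1, if_neg fun hh => c1 ((hown1 w k h h').2 hh)]
  -- the nodes `w0`
  have hw0l : w0.length = d := by rw [hw0, List.length_replicate]
  obtain ⟨a, b, a', b', M, hM1, hM2, ha, hb, ha', hb'⟩ := hL1 P (hTd hP) w0 hw0l
  rw [hd, hVd] at hM2
  have hne : ∀ y ∈ V, (stpL S.D z d y.1).Nonempty := by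
    intro y hy
    exact nonempty_visit hV hS hz hn hp hd P y (by rw [hVd]; exact hy)
  have hcn : ∀ k, k ≤ V.length → ((V.take k).filterMap fun y =>
        if S.D.ev y.2 w0 = adr S.D z d then
        some (decide (Odd ((S.D.secL w0 y.2).count z))) else none).length =
      ((V.take k).filterMap fun y =>
        if S.D.ev y.2 w0 = adr S.D z d ∧ (stpL S.D z d y.1).Nonempty
        then some (stpL S.D z d y.1, S.D.secL w0 y.2) else none).length := by
    apply cn_eq _ _ V V rfl
    intro k h h'
    have h1 := hne _ (List.getElem_mem h)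
    by_cases c1 : S.D.ev V[k].2 w0 = adr S.D z d
    · rw [if_pos c1, if_pos ⟨c1, h1⟩]; rfl
    · rw [if_neg c1, if_neg fun hh => c1 hh.1]; rfl
  have hcn' : ∀ k, k ≤ V.length → ((V.take k).filterMap fun y =>
        if S.D.ev y.2 w0 = adr S.D z d then
        some (decide (Odd ((S.D.secL w0 y.2).count z))) else none).length =
      ((V'.take k).filterMap fun y =>
        if S.D.ev y.2 w0 = adr S.D z d then
        some (decide (Odd ((S.D.secL w0 y.2).count z))) else none).length :=
    cn_eq _ _ V V' hlen (hmask1 w0)
  -- the sequence of the abstract argument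
  have hmain : ∀ k, k < V.length → bet V z k - bet V' z k = 0 := by
    refine abs2 V.length (fun l => S.D.ev (pr V l).reverse (adr S.D z d))
      (fun l => S.D.ev (pr V l).reverse (adr S.D i0 s))
      (fun l => ∃ y, V[l]? = some y ∧ S.D.o ∈ stpL S.D i0 s y.1)
      (fun l => bet V z l - bet V' z l) w0
      (fun k => ((V.take k).filterMap fun y => if S.D.ev y.2 w0 = adr S.D z d then
        some (decide (Odd ((S.D.secL w0 y.2).count z))) else none).length)
      a'.length (a'.length + M.length - 1) ?_ ?_ ?_ ?_ ?_ ?_
    · -- the counter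
      intro k hk
      rw [cn_succ _ V k hk, pr_eq V k hk]
      by_cases c1 : S.D.ev V[k].2 w0 = adr S.D z d
      · rw [if_pos c1, if_pos ((owner_iff S.D _ _ _).1 c1)]; rfl
      · rw [if_neg c1, if_neg fun hh => c1 ((owner_iff S.D _ _ _).2 hh)]; rfl
    · -- the nodes `w ≠ w0`
      intro k hk hw
      have hk' : k < V'.length := by omega
      set w := S.D.ev (pr V k).reverse (adr S.D z d) with hwdef
      have hwl : w.length = d := by rw [hwdef, (b1 S.D).ev_length, adr_length]
      rw [diff_sum hC z d z hd P P' V V' hVd hVd' O1 w hwl k hk, sub_eq_zero]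
      have h1 : lam S z d w P = lam S z d w P' := congrFun E1 ⟨w, hwl, hw⟩
      rw [hlamV, hlamV'] at h1
      have h2 := mask_eq _ _ V V' hlen (hmask1 w) h1 k hk hk'
      have ho : S.D.ev V[k].2 w = adr S.D z d := by
        apply (owner_iff S.D _ _ _).2
        rw [hwdef, pr_eq V k hk]
      rw [if_pos ho, if_pos ((hown1 w k hk hk').1 ho)] at h2
      rw [pr_eq V k hk, pr_eq V' k hk']
      exact parity_cast (Option.some.inj h2)
    · -- the exits
      rintro k hk ⟨y, hy, hex⟩
      have hk' : k < V'.length := by omega
      rw [List.getElem?_eq_getElem hk, Option.some.injEq] at hy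
      subst hy
      set x := S.D.ev (pr V k).reverse (adr S.D i0 s) with hxdef
      have hxl : x.length = s := by rw [hxdef, (b1 S.D).ev_length, adr_length]
      rw [diff_sum hC i0 s z hz0 P P' V V' hVd hVd' O2 x hxl k hk, sub_eq_zero]
      have h1 : exl S i0 s x P = exl S i0 s x P' := congrFun E2 ⟨x, hxl⟩
      rw [exl, exl, hz0, hVd, hVd'] at h1
      have h2 := mask_eq _ _ V V' hlen (by
        intro k h h'
        have q1 := (G2 k h h').1
        have e1 := hown2 x k h h'
        simp only [e1, q1]
        split_ifs <;> rfl) h1 k hk hk'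
      have ho : S.D.ev V[k].2 x = adr S.D i0 s := by
        apply (owner_iff S.D _ _ _).2
        rw [hxdef, pr_eq V k hk]
      rw [if_pos ⟨ho, hex⟩, if_pos ⟨(hown2 x k hk hk').1 ho, by rw [← (G2 k hk hk').1]; exact hex⟩]
        at h2
      rw [pr_eq V k hk, pr_eq V' k hk']
      exact parity_cast (Option.some.inj h2)
    · -- the end
      intro x
      by_cases hm : V.length = 0
      · rw [hm]; simp
      · obtain ⟨m, hm'⟩ := Nat.exists_eq_succ_of_ne_zero hm
        by_cases hx : x.length = s
        · rw [hm', Nat.succ_eq_add_one, diff_sum hC i0 s z hz0 P P' V V' hVd hVd' O2 x hx m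
            (by omega), sub_eq_zero]
          have := congrFun hσ5 ⟨x, hx⟩
          simp only at this
          rw [← hlen, hm', Nat.succ_eq_add_one, Nat.add_sub_cancel] at this
          exact this
        · apply sum_eq_zero
          intro l hl
          rw [mem_filter] at hl
          exact absurd (by rw [← hl.2, (b1 S.D).ev_length, adr_length]) hx
    · -- the ends of `w0`
      intro k hk hw hcase
      have hk' : k < V'.length := by omega
      rw [diff_sum hC z d z hd P P' V V' hVd hVd' O1 w0 hw0l k hk, sub_eq_zero]
      have ho : S.D.ev V[k].2 w0 = adr S.D z d := by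
        apply (owner_iff S.D _ _ _).2
        rw [← pr_eq V k hk, hw]
      have ho' := (hown1 w0 k hk hk').1 ho
      have g1 := filterMap_get' (fun y : Finset L × List L =>
        if S.D.ev y.2 w0 = adr S.D z d then
        some (decide (Odd ((S.D.secL w0 y.2).count z))) else none) V k hk
        (decide (Odd ((S.D.secL w0 V[k].2).count z))) (by rw [if_pos ho])
      have g2 := filterMap_get' (fun y : Finset L × List L =>
        if S.D.ev y.2 w0 = adr S.D z d then
        some (decide (Odd ((S.D.secL w0 y.2).count z))) else none) V' k hk'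
        (decide (Odd ((S.D.secL w0 V'[k].2).count z))) (by rw [if_pos ho'])
      rw [← hcn' k hk.le] at g2
      rw [← hlamV] at g1
      rw [← hlamV'] at g2
      generalize hq : ((V.take k).filterMap fun y =>
        if S.D.ev y.2 w0 = adr S.D z d then
        some (decide (Odd ((S.D.secL w0 y.2).count z))) else none).length = q at *
      have hll : (lam S z d w0 P).length = a'.length + M.length + b'.length := by
        have := hcn V.length le_rfl
        rw [List.take_length, hM2, ← hlamV, List.length_append, List.length_append] at this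
        exact this
      have hll' : (lam S z d w0 P').length = a'.length + M.length + b'.length := by
        have := hcn' V.length le_rfl
        rw [List.take_length, hlen, List.take_length, ← hlamV, ← hlamV'] at this
        rw [← this, hll]
      rw [pr_eq V k hk, pr_eq V' k hk']
      apply parity_cast
      rcases hcase with h | h
      · have := congrArg (fun l => l[q]?) hσ3
        simp only [List.getElem?_take] at this
        rw [if_pos (by omega), if_pos (by omega), g1, g2] at this
        exact Option.some.inj this
      · have := congrArg (fun l => l[q - (a'.length + M.length + b'.length - (k1 + 1))]?) hσ4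
        simp only [List.getElem?_drop] at this
        rw [hll, hll', Nat.add_sub_cancel' (by omega), g1, g2] at this
        exact Option.some.inj this
    · -- far apart
      intro k' k hkk hk hw' hw hq' hq hx
      have hk1 : k' < V.length := by omega
      rw [hcn k' hk1.le] at hq'
      rw [hcn k hk.le] at hq
      have ho : S.D.ev V[k].2 w0 = adr S.D z d := by
        apply (owner_iff S.D _ _ _).2
        rw [← pr_eq V k hk, hw]
      have ho' : S.D.ev V[k'].2 w0 = adr S.D z d := by
        apply (owner_iff S.D _ _ _).2
        rw [← pr_eq V k' hk1, hw']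
      have g1 := filterMap_get' (fun y : Finset L × List L =>
        if S.D.ev y.2 w0 = adr S.D z d ∧ (stpL S.D z d y.1).Nonempty
        then some (stpL S.D z d y.1, S.D.secL w0 y.2) else none) V k hk
        (stpL S.D z d V[k].1, S.D.secL w0 V[k].2)
        (by rw [if_pos ⟨ho, hne _ (List.getElem_mem hk)⟩])
      have g2 := filterMap_get' (fun y : Finset L × List L =>
        if S.D.ev y.2 w0 = adr S.D z d ∧ (stpL S.D z d y.1).Nonempty
        then some (stpL S.D z d y.1, S.D.secL w0 y.2) else none) V k' hk1
        (stpL S.D z d V[k'].1, S.D.secL w0 V[k'].2)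
        (by rw [if_pos ⟨ho', hne _ (List.getElem_mem hk1)⟩])
      have hlt : ((V.take k').filterMap fun y =>
          if S.D.ev y.2 w0 = adr S.D z d ∧ (stpL S.D z d y.1).Nonempty
          then some (stpL S.D z d y.1, S.D.secL w0 y.2) else none).length <
          ((V.take k).filterMap fun y =>
          if S.D.ev y.2 w0 = adr S.D z d ∧ (stpL S.D z d y.1).Nonempty
          then some (stpL S.D z d y.1, S.D.secL w0 y.2) else none).length := by
        have e1 := cn_succ (fun y : Finset L × List L =>
          if S.D.ev y.2 w0 = adr S.D z d ∧ (stpL S.D z d y.1).Nonempty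
          then some (stpL S.D z d y.1, S.D.secL w0 y.2) else none) V k' hk1
        rw [show (if S.D.ev V[k'].2 w0 = adr S.D z d ∧ (stpL S.D z d V[k'].1).Nonempty
          then some (stpL S.D z d V[k'].1, S.D.secL w0 V[k'].2) else none) =
          some (stpL S.D z d V[k'].1, S.D.secL w0 V[k'].2) from
          if_pos ⟨ho', hne _ (List.getElem_mem hk1)⟩, Option.isSome_some, if_pos rfl] at e1
        have e2 : (V.take (k' + 1)) <+: V.take k := List.take_prefix_take_left (by omega)
        obtain ⟨r, hr⟩ := e2
        rw [← hr, List.filterMap_append, List.length_append]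
        omega
      rw [hM2] at g1 g2
      generalize hn1 : ((V.take k).filterMap fun y =>
          if S.D.ev y.2 w0 = adr S.D z d ∧ (stpL S.D z d y.1).Nonempty
          then some (stpL S.D z d y.1, S.D.secL w0 y.2) else none).length = q1 at *
      generalize hn2 : ((V.take k').filterMap fun y =>
          if S.D.ev y.2 w0 = adr S.D z d ∧ (stpL S.D z d y.1).Nonempty
          then some (stpL S.D z d y.1, S.D.secL w0 y.2) else none).length = q2 at *
      -- the visits of the node `w0`
      have t1 : (a ++ M ++ b)[a.length + (q1 - a'.length)]? =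
          some (stpL S.D z d V[k].1, S.D.secL w0 V[k].2) := by
        rw [List.append_assoc, List.getElem?_append_right (by omega), Nat.add_sub_cancel_left,
          List.getElem?_append_left (by omega)]
        rw [List.append_assoc, List.getElem?_append_right (by omega),
          List.getElem?_append_left (by omega)] at g1
        exact g1
      have t2 : (a ++ M ++ b)[a.length + (q2 - a'.length)]? =
          some (stpL S.D z d V[k'].1, S.D.secL w0 V[k'].2) := by
        rw [List.append_assoc, List.getElem?_append_right (by omega), Nat.add_sub_cancel_left,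
          List.getElem?_append_left (by omega)]
        rw [List.append_assoc, List.getElem?_append_right (by omega),
          List.getElem?_append_left (by omega)] at g2
        exact g2
      rw [← hM1] at t1 t2
      obtain ⟨u1, u2⟩ := List.getElem?_eq_some_iff.1 t1
      obtain ⟨v1, v2⟩ := List.getElem?_eq_some_iff.1 t2
      obtain ⟨y, v, r1, r2⟩ := visp_lt hV (st S.E z) (S.D.secL w0 P) _ _
        (show a.length + (q2 - a'.length) < a.length + (q1 - a'.length) by omega) u1 v1
      rw [u2, v2] at r1
      simp only at r1
      have hyz : y ≠ z := by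
        rintro rfl
        rw [st, if_pos rfl] at r2
        cases r2
      -- the factor of `P`
      obtain ⟨y', F', s1, -⟩ := visp_lt hV (st S.E z) P k k' hkk (by rw [hVd]; exact hk)
        (by rw [hVd]; exact hk1)
      simp only [hVd] at s1
      have hsec : S.D.secL (adr S.D z d) (y' :: F') = y :: v := by
        rw [s1, (tb0 S.D).secL_append, ho'] at r1
        exact List.append_cancel_left r1
      have hev : S.D.ev (y' :: F') (adr S.D z d) = adr S.D z d := by
        rw [s1, (b1 S.D).ev_append, ho'] at ho
        exact ho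
      obtain ⟨x', v', s2, -⟩ := hV.mem (st S.E z) P V[k] (by rw [hVd]; exact List.getElem_mem hk)
      have hfac : (y' :: F') <:+: P := by
        refine ⟨V[k'].2, x' :: v', ?_⟩
        rw [← s1, ← s2]
      have hFar := hF' d hdD (y' :: F') (hNF kF P (hTF hP) _ hfac) hev
        ⟨y, by rw [hsec]; exact List.mem_cons_self, hyz⟩ (adr S.D i0 s) (adr_length _ _ _)
      -- the exit
      set x := S.D.ev (pr V k).reverse (adr S.D i0 s) with hxdef
      have hxl : x.length = s := by rw [hxdef, (b1 S.D).ev_length, adr_length]
      have hox : S.D.ev V[k].2 x = adr S.D i0 s := by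
        apply (owner_iff S.D _ _ _).2
        rw [hxdef, pr_eq V k hk]
      have hox' : S.D.ev V[k'].2 x = adr S.D i0 s := by
        apply (owner_iff S.D _ _ _).2
        rw [← hx, pr_eq V k' hk1]
      obtain ⟨v3, w1, w2, w3⟩ := hCo i0 hi s x P hxl _ _ _ V[k'] V[k] (y' :: F')
        (by rw [hz0, hVd]; exact split3 V k' k hkk hk) s1 hox' hox hFar
      obtain ⟨l, l1, l2, l3⟩ := mem_mid V k' k hkk hk v3 w1
      refine ⟨l, l1, l2, ?_, v3, l3, w3⟩
      have hl4 : l < V.length := by omega
      rw [List.getElem?_eq_getElem hl4, Option.some.injEq] at l3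
      rw [pr_eq V l hl4, l3]
      exact (owner_iff S.D _ _ _).1 w2
  -- the marks
  have hcount : ∀ k, k < V.length →
      ((pr V k).count z : ZMod 2) = ((pr V' k).count z : ZMod 2) := by
    intro k
    induction k with
    | zero =>
      intro hk
      have := hmain 0 hk
      rw [bet, bet, if_pos rfl, if_pos rfl, sub_zero, sub_zero, sub_eq_zero] at this
      exact this
    | succ k ih =>
      intro hk
      have h1 := hmain (k + 1) hk
      have h2 := ih (by omega)
      rw [bet, bet, if_neg (Nat.succ_ne_zero k), if_neg (Nat.succ_ne_zero k),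
        Nat.add_sub_cancel, h2] at h1
      linear_combination h1
  rw [mk, mk, hVd, hVd']
  apply List.ext_getElem (by rw [List.length_map, List.length_map, hlen])
  intro k h h'
  rw [List.length_map] at h h'
  rw [List.getElem_map, List.getElem_map, (G1 k h h').1]
  have := hcount k h
  rw [pr_eq V k h, pr_eq V' k h'] at this
  rw [cast_parity this]

end R4.Mk
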