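import Pool.Agent.Work.MP_e3f5d9_al.MK0

/-! # Block MK11a: the abstract argument of the marks -/

set_option autoImplicit false

open Finset

namespace R4.Mk

/-- The abstract argument: `ow`, `ox` the owners, `ex` the exits, `δ` the differences of the
increments, `cn k` the number of visits before `k` that are owned by `w0`. -/
theorem abs2 {W X : Type} [DecidableEq W] [DecidableEq X] (m : ℕ) (ow : ℕ → W) (ox : ℕ → X)
    (ex : ℕ → Prop) (δ : ℕ → ZMod 2) (w0 : W) (cn : ℕ → ℕ) (a0 b0 : ℕ)
    (hc : ∀ k, k < m → cn (k + 1) = cn k + if ow k = w0 then 1 else 0)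
    (hw : ∀ k, k < m → ow k ≠ w0 → ∑ l ∈ range (k + 1) with ow l = ow k, δ l = 0)
    (hx : ∀ k, k < m → ex k → ∑ l ∈ range (k + 1) with ox l = ox k, δ l = 0)
    (hend : ∀ x, ∑ l ∈ range m with ox l = x, δ l = 0)
    (hlo : ∀ k, k < m → ow k = w0 → (cn k < a0 ∨ b0 ≤ cn k) →
      ∑ l ∈ range (k + 1) with ow l = w0, δ l = 0)
    (hfar : ∀ k' k, k' < k → k < m → ow k' = w0 → ow k = w0 → a0 ≤ cn k' → cn k ≤ b0 →
      ox k' = ox k → ∃ j, k' ≤ j ∧ j < k ∧ ox j = ox k ∧ ex j) :
    ∀ k, k < m → δ k = 0 := by
  -- `cn` is monotone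
  have hmono : ∀ n k, k + n ≤ m → cn k ≤ cn (k + n) := by
    intro n
    induction n with
    | zero => intro k _; exact le_rfl
    | succ n ih =>
      intro k hk
      have h1 := ih k (by omega)
      have h2 := hc (k + n) (by omega)
      have e : k + (n + 1) = k + n + 1 := by omega
      rw [e, h2]
      omega
  -- outside of `w0` the increments vanish
  have h1 : ∀ k, k < m → ow k ≠ w0 → δ k = 0 := by
    intro k
    induction k using Nat.strong_induction_on with
    | _ k ih =>
      intro hk hne
      have h := hw k hk hne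
      rw [range_add_one, filter_insert, if_pos rfl, sum_insert (by simp)] at h
      have h0 : ∑ l ∈ range k with ow l = ow k, δ l = 0 := by
        apply sum_eq_zero
        intro l hl
        rw [mem_filter, mem_range] at hl
        exact ih l hl.1 (lt_trans hl.1 hk) (by rw [hl.2]; exact hne)
      rw [h0, add_zero] at h
      exact h
  have h2 : ∀ k, k < m → δ k ≠ 0 → ow k = w0 := by
    intro k hk h
    by_contra hc
    exact h (h1 k hk hc)
  have h3 : ∀ k, k < m → δ k ≠ 0 → a0 ≤ cn k := by
    intro k
    induction k using Nat.strong_induction_on with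
    | _ k ih =>
      intro hk hne
      by_contra hcc
      rw [not_le] at hcc
      have h := hlo k hk (h2 k hk hne) (Or.inl hcc)
      rw [range_add_one, filter_insert, if_pos (h2 k hk hne), sum_insert (by simp)] at h
      have h0 : ∑ l ∈ range k with ow l = w0, δ l = 0 := by
        apply sum_eq_zero
        intro l hl
        rw [mem_filter, mem_range] at hl
        by_contra hd
        have h5 := ih l hl.1 (lt_trans hl.1 hk) hd
        have h6 := hmono (k - l) l (by omega)
        rw [Nat.add_sub_cancel' hl.1.le] at h6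
        omega
      rw [h0, add_zero] at h
      exact hne h
  have h4 : ∀ k, k < m → δ k ≠ 0 → cn k ≤ b0 := by
    intro k hk hne
    by_contra hcc
    rw [not_le] at hcc
    -- the sum before `k` vanishes
    have key : ∀ n, n ≤ k → b0 < cn n → ∑ l ∈ range n with ow l = w0, δ l = 0 := by
      intro n
      induction n with
      | zero => intro _ _; simp
      | succ n ih =>
        intro hn hb
        have hcn := hc n (by omega)
        by_cases ho : ow n = w0
        · apply hlo n (by omega) ho
          rw [if_pos ho] at hcn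
          omega
        · rw [range_add_one, filter_insert, if_neg ho]
          rw [if_neg ho] at hcn
          exact ih (by omega) (by omega)
    have e0 := key k le_rfl hcc
    have e1 := hlo k hk (h2 k hk hne) (Or.inr hcc.le)
    rw [range_add_one, filter_insert, if_pos (h2 _ hk hne), sum_insert (by simp), e0,
      add_zero] at e1
    exact hne e1
  -- the sum over the visits of an `x` up to `k`
  intro k hk
  by_contra hne
  set x := ox k with hxdef
  have hwk := h2 k hk hne
  -- a general step: a change of the same owner on one side gives an exit in between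
  have hpair : ∀ k' k'', k' < k'' → k'' < m → δ k' ≠ 0 → δ k'' ≠ 0 → ox k' = ox k'' →
      ∃ j, k' ≤ j ∧ j < k'' ∧ ox j = ox k'' ∧ ex j := by
    intro k' k'' hlt hm d1 d2 he
    exact hfar k' k'' hlt hm (h2 k' (lt_trans hlt hm) d1) (h2 k'' hm d2)
      (h3 k' (lt_trans hlt hm) d1) (h4 k'' hm d2) he
  by_cases hS : ∑ l ∈ range k with ox l = x, δ l = 0
  · -- the sum up to `k` inclusive is not zero
    have hS' : ∑ l ∈ range (k + 1) with ox l = x, δ l ≠ 0 := by
      rw [range_add_one, filter_insert, if_pos rfl, sum_insert (by simp), hS, add_zero]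
      exact hne
    -- the sum up to some later point vanishes
    have hlater : ∀ q, k + 1 ≤ q → q ≤ m → ∑ l ∈ range q with ox l = x, δ l = 0 →
        ∃ k'', k < k'' ∧ k'' < q ∧ ox k'' = x ∧ δ k'' ≠ 0 := by
      intro q hq hqm h0
      by_contra hno
      push Not at hno
      apply hS'
      rw [← h0]
      apply sum_subset
      · intro l hl
        rw [mem_filter, mem_range] at hl ⊢
        exact ⟨by omega, hl.2⟩
      · intro l hl hl'
        rw [mem_filter, mem_range] at hl hl'
        apply hno l _ hl.1 hl.2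
        by_contra hc
        exact hl' ⟨by omega, hl.2⟩
    by_cases hE : ∃ j, k ≤ j ∧ j < m ∧ ox j = x ∧ ex j
    · classical
      obtain ⟨j, ⟨hj1, hj2, hj3, hj4⟩, hmin⟩ : ∃ j, (k ≤ j ∧ j < m ∧ ox j = x ∧ ex j) ∧
          ∀ i, i < j → ¬ (k ≤ i ∧ i < m ∧ ox i = x ∧ ex i) :=
        ⟨Nat.find hE, Nat.find_spec hE, fun i hi => Nat.find_min hE hi⟩
      have h0 := hx j hj2 hj4
      rw [hj3] at h0
      obtain ⟨k'', g1, g2, g3, g4⟩ := hlater (j + 1) (by omega) (by omega) h0
      obtain ⟨i, i1, i2, i3, i4⟩ := hpair k k'' g1 (by omega) hne g4 (by rw [g3])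
      exact hmin i (by omega) ⟨i1, by omega, by rw [i3, g3], i4⟩
    · obtain ⟨k'', g1, g2, g3, g4⟩ := hlater m (by omega) le_rfl (hend x)
      obtain ⟨i, i1, i2, i3, i4⟩ := hpair k k'' g1 g2 hne g4 (by rw [g3])
      exact hE ⟨i, i1, by omega, by rw [i3, g3], i4⟩
  · -- the sum before `k` is not zero
    have hearlier : ∀ q, q ≤ k → ∑ l ∈ range q with ox l = x, δ l = 0 →
        ∃ k', q ≤ k' ∧ k' < k ∧ ox k' = x ∧ δ k' ≠ 0 := by
      intro q hq h0
      by_contra hno
      push Not at hno
      apply hS
      rw [← h0]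
      symm
      apply sum_subset
      · intro l hl
        rw [mem_filter, mem_range] at hl ⊢
        exact ⟨by omega, hl.2⟩
      · intro l hl hl'
        rw [mem_filter, mem_range] at hl hl'
        apply hno l _ hl.1 hl.2
        by_contra hc
        exact hl' ⟨by omega, hl.2⟩
    obtain ⟨k', g1, g2, g3, g4⟩ := hearlier 0 (Nat.zero_le _) (by simp)
    obtain ⟨i, i1, i2, i3, i4⟩ := hpair k' k g2 hk g4 hne (by rw [g3])
    -- the last exit before `k`
    obtain ⟨j, hj, hmax⟩ : ∃ j, (j < k ∧ ox j = x ∧ ex j) ∧
        ∀ i, j < i → i < k → ox i = x → ¬ ex i := by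
      classical
      have hne' : ((range k).filter fun j => ox j = x ∧ ex j).Nonempty :=
        ⟨i, by rw [mem_filter, mem_range]; exact ⟨i2, i3, i4⟩⟩
      refine ⟨((range k).filter fun j => ox j = x ∧ ex j).max' hne', ?_, ?_⟩
      · have := max'_mem _ hne'
        rw [mem_filter, mem_range] at this
        exact this
      · intro i h1' h2' h3' h4'
        have := le_max' ((range k).filter fun j => ox j = x ∧ ex j) i
          (by rw [mem_filter, mem_range]; exact ⟨h2', h3', h4'⟩)
        omega
    have h0 := hx j (by omega) hj.2.2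
    rw [hj.2.1] at h0
    obtain ⟨q, q1, q2, q3, q4⟩ := hearlier (j + 1) (by omega) h0
    obtain ⟨r, r1, r2, r3, r4⟩ := hpair q k q2 hk q4 hne (by rw [q3])
    exact hmax r (by omega) r2 r3 r4

end R4.Mk
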