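import Pool.Agent.Work.MP_e3f5d9_al.P1

/-!
# PRl: the rules `lift` and `lift'` of the pair calculus
-/

set_option autoImplicit false

open Finset

namespace R4

namespace LiftAux

/-! ### Determined features -/

lemma det_of_finite {L α γ I : Type} [Finite I] (T : Set (List L)) (Ψ : List L → α)
    (Φ : List L → γ) (σ : List L → I)
    (h : ∀ W ∈ T, ∀ W' ∈ T, Ψ W = Ψ W' → σ W = σ W' → Φ W = Φ W') : Det T Ψ Φ := by
  obtain ⟨n, ⟨e⟩⟩ := Finite.exists_equiv_fin I
  exact ⟨n, fun W => e (σ W), fun W hW W' hW' h1 h2 => h W hW W' hW' h1 (e.injective h2)⟩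

lemma det_fun {L α γ : Type} (T : Set (List L)) (Ψ : List L → α) (Φ : List L → γ)
    (h : ∀ W ∈ T, ∀ W' ∈ T, Ψ W = Ψ W' → Φ W = Φ W') : Det T Ψ Φ :=
  det_of_finite (I := Unit) T Ψ Φ (fun _ => ()) fun W hW W' hW' h1 _ => h W hW W' hW' h1

lemma det_near {L α γ : Type} [Finite γ] (T : Set (List L)) (Ψ : List L → α)
    (Φ : List L → List γ) (g : α → List γ) (k : ℕ) (h : ∀ W ∈ T, Near k (Φ W) (g (Ψ W))) :
    Det T Ψ Φ := by
  classical
  have hfin : Finite {l : List γ // l.length ≤ k} := (List.finite_length_le γ k).to_subtype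
  have h' : ∀ W, ∃ q : ({l : List γ // l.length ≤ k} × {l : List γ // l.length ≤ k}) ×
      (Fin (k + 1) × Fin (k + 1)), W ∈ T →
      Φ W = q.1.1.1 ++ ((g (Ψ W)).drop q.2.1).take
        (((g (Ψ W)).drop q.2.1).length - q.2.2) ++ q.1.2.1 := by
    intro W
    by_cases hW : W ∈ T
    · obtain ⟨a, b, a', b', m, h1, h2, h3, h4, h5, h6⟩ := h W hW
      refine ⟨((⟨a, h3⟩, ⟨b, h4⟩), (⟨a'.length, by omega⟩, ⟨b'.length, by omega⟩)), fun _ => ?_⟩
      simp only [h2, List.append_assoc, List.drop_left, h1, List.length_append,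
        Nat.add_sub_cancel]
      rw [List.take_left]
    · exact ⟨((⟨[], by simp⟩, ⟨[], by simp⟩), (0, 0)), fun h1 => absurd h1 hW⟩
  choose σ hσ using h'
  refine det_of_finite T Ψ Φ σ fun W hW W' hW' e1 e2 => ?_
  rw [hσ W hW, hσ W' hW', e1, e2]

/-! ### Classes -/

lemma sameCls_symm {L β γ : Type} {c : L → Option β} {c' : L → Option γ} (h : SameCls c c') :
    SameCls c' c := ⟨fun i => (h.1 i).symm, fun i j => (h.2 i j).symm⟩

lemma sameCls_map {L β γ : Type} (c : L → Option β) (φ : β → γ) (hφ : Function.Injective φ) :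
    SameCls c (fun i => (c i).map φ) := by
  refine ⟨fun i => by simp, fun i j => ?_⟩
  exact ⟨fun h => congrArg (Option.map φ) h, fun h => Option.map_injective hφ h⟩

variable {L : Type} [Fintype L] [DecidableEq L] {S : Setup L}

lemma known_same (hV : VisBasics L) (hK : KnownCalc S) {β γ : Type} [DecidableEq β]
    [DecidableEq γ] [Nonempty γ] {c : L → Option β} {c' : L → Option γ} (h : SameCls c c')
    (h1 : S.Known fun W => vis c none W) : S.Known fun W => vis c' none W := by
  obtain ⟨e, he⟩ := hV.same c c' h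
  refine hK.det _ _ h1 ⟨0, det_fun _ _ _ fun W _ W' _ h2 => ?_⟩
  show vis c' none W = vis c' none W'
  rw [he, he, h2]

lemma known_filter (hV : VisBasics L) (hK : KnownCalc S) {β : Type} [DecidableEq β]
    {c : L → Option β} (p : β → Bool) (h1 : S.Known fun W => vis c none W) :
    S.Known fun W => vis (fun x => (c x).filter p) none W := by
  refine hK.det _ _ h1 ⟨0, det_fun _ _ _ fun W _ W' _ h2 => ?_⟩
  show vis (fun x => (c x).filter p) none W = vis (fun x => (c x).filter p) none W'
  rw [hV.filter, hV.filter, h2]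

/-- The general lift. -/
lemma lift_gen (hN : NodeBasics S) (hK : KnownCalc S) (hL : LiftNear S) (hT : TkDet S)
    {β : Type} [DecidableEq β] [Finite β] (A : Finset L) (t : Bool) (c : L → Option β)
    (hA : A ∈ S.E) (hAt : (S.D.lp t A).Nonempty) (hc : ∀ x, x ∉ A → c x = none)
    (hcl : ∀ b, (cset c b).Nonempty → cset c b ∈ S.E ∧ (S.D.lp t (cset c b)).Nonempty)
    (h1 : S.Known fun W => vis (glR A c) none W) (h2 : S.K A {S.D.o}) :
    S.Known fun W => vis (S.kcl t A c) none W := by
  have ho : S.D.o ∉ A := S.full.norm A hA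
  have h3 : S.Known fun W => tk S.D.o (glR A c) none false W :=
    hK.det _ _ (hK.prod _ _ h1 h2) ⟨0, hT A c ho hc⟩
  refine hK.kid _ _ h3 ⟨0, fun a => ?_⟩
  refine det_near (S.N 0) _ _
    (fun l => ((l.filter fun z => z.2 == xor a t).map Prod.fst : List (Option β))) 2
    fun P hP => ?_
  exact hL A t c P ho hc (hN.clean 0 P hP A hA t hAt)
    (fun b hb => hN.clean 0 P hP _ (hcl b hb).1 t (hcl b hb).2) a

lemma list_three (l l' : List (Option Bool)) (h1 : l.filter (fun z => z.isSome) =
      l'.filter (fun z => z.isSome))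
    (h2 : l.filter (fun z => z != some false) = l'.filter (fun z => z != some false))
    (h3 : l.filter (fun z => z != some true) = l'.filter (fun z => z != some true)) :
    l = l' := by
  induction l generalizing l' with
  | nil =>
    cases l' with
    | nil => rfl
    | cons y t' =>
      exfalso
      rcases y with _ | y
      · simp at h2
      · simp at h1
  | cons x t ih =>
    cases l' with
    | nil =>
      exfalso
      rcases x with _ | x
      · simp at h2
      · simp at h1
    | cons y t' =>
      have key : x = y ∧ t = t' := by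
        rcases x with _ | _ | _ <;> rcases y with _ | _ | _ <;>
          simp at h1 h2 h3 <;>
          exact ⟨rfl, ih t' (by simpa using h1) (by simpa using h2) (by simpa using h3)⟩
      rw [key.1, key.2]

end LiftAux

open LiftAux in
/-- PRl, the rule `lift`. -/
theorem prl_lift {L : Type} [Fintype L] [DecidableEq L] (S : Setup L) (hN : NodeBasics S)
    (hK : KnownCalc S) (hV : VisBasics L) (hL : LiftNear S) (hT : TkDet S)
    (hm : ∀ X Y, S.D.Mono S.E X Y → S.D.Side S.E X → S.D.Side S.E Y → S.K X Y) :
    ∀ X ∈ S.E, ∀ Y ∈ S.E, Disjoint X Y → S.K X Y → S.K X {S.D.o} → S.K Y {S.D.o} →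
    ∀ t, (S.D.lp t X).Nonempty → (S.D.lp t Y).Nonempty → S.K (S.D.lp t X) (S.D.lp t Y) := by
  intro X hX Y hY hXY hKXY hKX hKY t ht ht'
  have hoX : S.D.o ∉ X := S.full.norm X hX
  have hoY : S.D.o ∉ Y := S.full.norm Y hY
  have hd : ∀ x, x ∈ X → x ∉ Y := fun x h1 h2 => Finset.disjoint_left.1 hXY h1 h2
  -- the alternation of `{o}ᶜ` and `{o}`
  have hbase : S.K ({S.D.o} : Finset L)ᶜ {S.D.o} := by
    have e1 : S.D.Side S.E ({S.D.o} : Finset L)ᶜ := by
      unfold KS.Side KS.nm
      rw [if_neg (by simp)]
      exact S.full.base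
    have e2 : S.D.Side S.E ({S.D.o} : Finset L) := by
      unfold KS.Side KS.nm
      rw [if_pos (by simp)]
      exact S.full.base
    have h1 := KS.Mono.triv (D := S.D) (E := S.E) ({S.D.o} : Finset L)ᶜ e1
    rw [compl_compl] at h1
    exact hm _ _ h1 e1 e2
  set g : L → Option (Option Bool) := glR ({S.D.o} : Finset L)ᶜ (pc X Y) with hg
  have k1 : S.Known fun W => vis (fun x => (g x).filter fun z => z.isSome) none W := by
    have e : (fun x => (g x).filter fun z => z.isSome) = fun i => (pc X Y i).map some := by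
      funext i
      simp only [hg, glR, mem_compl, mem_singleton, pc]
      by_cases h1 : i = S.D.o
      · subst h1; simp [hoX, hoY]
      · by_cases h2 : i ∈ X
        · simp [h1, h2]
        · by_cases h3 : i ∈ Y <;> simp [h1, h2, h3]
    rw [e]
    exact known_same hV hK (sameCls_map _ _ (Option.some_injective _)) hKXY
  have k2 : S.Known fun W => vis (fun x => (g x).filter fun z => z != some false) none W := by
    have e : (fun x => (g x).filter fun z => z != some false) =
        fun i => (pc X {S.D.o} i).map fun b => if b then some true else none := by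
      funext i
      simp only [hg, glR, mem_compl, mem_singleton, pc]
      by_cases h1 : i = S.D.o
      · subst h1; simp [hoX]
      · by_cases h2 : i ∈ X
        · simp [h1, h2]
        · by_cases h3 : i ∈ Y <;> simp [h1, h2, h3]
    rw [e]
    exact known_same hV hK (sameCls_map _ _ (by decide)) hKX
  have k3 : S.Known fun W => vis (fun x => (g x).filter fun z => z != some true) none W := by
    have e : (fun x => (g x).filter fun z => z != some true) =
        fun i => (pc Y {S.D.o} i).map fun b => if b then some false else none := by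
      funext i
      simp only [hg, glR, mem_compl, mem_singleton, pc]
      by_cases h1 : i = S.D.o
      · subst h1; simp [hoY]
      · by_cases h2 : i ∈ X
        · simp [h1, h2, hd i h2]
        · by_cases h3 : i ∈ Y <;> simp [h1, h2, h3]
    rw [e]
    exact known_same hV hK (sameCls_map _ _ (by decide)) hKY
  have k4 : S.Known fun W => vis g none W := by
    refine hK.det _ _ (hK.prod _ _ k1 (hK.prod _ _ k2 k3)) ⟨0, det_fun _ _ _ ?_⟩
    intro W _ W' _ h1
    simp only [Prod.mk.injEq] at h1
    obtain ⟨h1, h2, h3⟩ := h1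
    rw [hV.filter, hV.filter] at h1 h2 h3
    exact list_three _ _ h1 h2 h3
  have k5 := lift_gen hN hK hL hT ({S.D.o} : Finset L)ᶜ t (pc X Y) S.full.base
    (by
      obtain ⟨i, hi⟩ := ht
      refine ⟨i, ?_⟩
      simp only [KS.lp, mem_filter, mem_univ, true_and, mem_compl, mem_singleton] at hi ⊢
      exact ⟨hi.1, fun h1 => hoX (h1 ▸ hi.2)⟩)
    (by
      intro x hx
      simp only [mem_compl, mem_singleton, not_not] at hx
      subst hx
      simp [pc, hoX, hoY])
    (by
      intro b _
      have e1 : cset (pc X Y) true = X := by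
        ext i; simp only [cset, pc, mem_filter, mem_univ, true_and]
        by_cases h2 : i ∈ X
        · simp [h2]
        · by_cases h3 : i ∈ Y <;> simp [h2, h3]
      have e2 : cset (pc X Y) false = Y := by
        ext i; simp only [cset, pc, mem_filter, mem_univ, true_and]
        by_cases h2 : i ∈ X
        · simp [h2, hd i h2]
        · by_cases h3 : i ∈ Y <;> simp [h2, h3]
      cases b
      · rw [e2]; exact ⟨hY, ht'⟩
      · rw [e1]; exact ⟨hX, ht⟩)
    k4 hbase
  have k6 := known_filter hV hK (fun z => z.isSome) k5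
  have e : (fun x => (S.kcl t ({S.D.o} : Finset L)ᶜ (pc X Y) x).filter fun z => z.isSome) =
      fun i => (pc (S.D.lp t X) (S.D.lp t Y) i).map some := by
    funext i
    have hne : S.D.nxt i ≠ S.D.o := S.D.nxt_ne i
    simp only [Setup.kcl, mem_compl, mem_singleton, pc, KS.lp, mem_filter, mem_univ, true_and, hne,
      not_false_eq_true, and_true]
    by_cases h1 : S.D.side i = t
    · by_cases h2 : S.D.nxt i ∈ X
      · simp [h1, h2]
      · by_cases h3 : S.D.nxt i ∈ Y <;> simp [h1, h2, h3]
    · simp [h1]
  rw [e] at k6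
  exact known_same hV hK (sameCls_symm (sameCls_map _ _ (Option.some_injective _))) k6

open LiftAux in
/-- PRl, the rule `lift'`. -/
theorem prl_lift' {L : Type} [Fintype L] [DecidableEq L] (S : Setup L) (hN : NodeBasics S)
    (hK : KnownCalc S) (hV : VisBasics L) (hL : LiftNear S) (hT : TkDet S) :
    ∀ X ∈ S.E, ∀ A ∈ S.E, X ⊆ A → S.K X Aᶜ → S.K A {S.D.o} →
    ∀ t, (S.D.lp t X).Nonempty → S.K (S.D.lp t X) (S.D.lp t A)ᶜ := by
  intro X hX A hA hXA hKX hKA t ht
  set φ : Bool → Option Bool := fun b => if b then some true else none with hφ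
  have hφi : Function.Injective φ := by rw [hφ]; decide
  have e1 : glR A (pc X ∅) = fun i => (pc X Aᶜ i).map φ := by
    funext i
    simp only [glR, pc, mem_compl, notMem_empty, if_false, hφ]
    by_cases h1 : i ∈ A
    · by_cases h2 : i ∈ X <;> simp [h1, h2]
    · have h2 : i ∉ X := fun h3 => h1 (hXA h3)
      simp [h1, h2]
  have k1 : S.Known fun W => vis (glR A (pc X ∅)) none W := by
    rw [e1]
    exact known_same hV hK (sameCls_map _ _ hφi) hKX
  have hsub : S.D.lp t X ⊆ S.D.lp t A := by
    intro i hi
    simp only [KS.lp, mem_filter, mem_univ, true_and] at hi ⊢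
    exact ⟨hi.1, hXA hi.2⟩
  have k2 := lift_gen hN hK hL hT A t (pc X ∅) hA (ht.mono hsub)
    (by
      intro x hx
      have h2 : x ∉ X := fun h3 => hx (hXA h3)
      simp [pc, h2])
    (by
      intro b hb
      cases b
      · exfalso
        obtain ⟨i, hi⟩ := hb
        simp only [cset, pc, mem_filter, mem_univ, true_and, notMem_empty, if_false] at hi
        by_cases h2 : i ∈ X <;> simp [h2] at hi
      · have e : cset (pc X ∅) true = X := by
          ext i; simp only [cset, pc, mem_filter, mem_univ, true_and, notMem_empty, if_false]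
          by_cases h2 : i ∈ X <;> simp [h2]
        rw [e]; exact ⟨hX, ht⟩)
    k1 hKA
  have e2 : S.kcl t A (pc X ∅) = fun i => (pc (S.D.lp t X) (S.D.lp t A)ᶜ i).map φ := by
    funext i
    simp only [Setup.kcl, pc, mem_compl, notMem_empty, if_false, hφ, KS.lp, mem_filter, mem_univ,
      true_and]
    by_cases h1 : S.D.side i = t
    · by_cases h2 : S.D.nxt i ∈ X
      · simp [h1, h2, hXA h2]
      · by_cases h3 : S.D.nxt i ∈ A <;> simp [h1, h2, h3]
    · simp [h1]
  rw [e2] at k2
  exact known_same hV hK (sameCls_symm (sameCls_map _ _ hφi)) k2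

end R4
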