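import Pool.Agent.Work.MP_e3f5d9_al.MK11a
import Pool.Agent.Work.MP_e3f5d9_al.PRl

/-! # Block MK11b: auxiliary lemmas for the assembly of the periodic centre -/

set_option autoImplicit false

open Finset

namespace R4.Mk

namespace DetAux

section lists

variable {α β γ : Type}

lemma split1 (V : List α) (i : ℕ) (hi : i < V.length) :
    V = V.take i ++ V[i] :: V.drop (i + 1) := by
  rw [← List.drop_eq_getElem_cons hi, List.take_append_drop]

lemma split2 (V : List α) (i : ℕ) (hi : i + 1 < V.length) :
    V = V.take i ++ V[i] :: V[i + 1] :: V.drop (i + 2) := by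
  rw [← List.drop_eq_getElem_cons hi, ← List.drop_eq_getElem_cons (by omega),
    List.take_append_drop]

lemma split3 (V : List α) (i j : ℕ) (hij : i < j) (hj : j < V.length) :
    V = V.take i ++ V[i] :: ((V.drop (i + 1)).take (j - (i + 1))) ++ V[j] :: V.drop (j + 1) := by
  have h1 := split1 V i (by omega)
  have h2 : V.drop (i + 1) = (V.drop (i + 1)).take (j - (i + 1)) ++ V[j] :: V.drop (j + 1) := by
    have h := split1 (V.drop (i + 1)) (j - (i + 1)) (by rw [List.length_drop]; omega)
    rw [List.getElem_drop, List.drop_drop] at h
    have e1 : i + 1 + (j - (i + 1)) = j := by omega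
    have e2 : i + 1 + (j - (i + 1) + 1) = j + 1 := by omega
    simp only [e1, e2] at h
    exact h
  calc V = V.take i ++ V[i] :: V.drop (i + 1) := h1
    _ = _ := by
      conv_lhs => rw [h2]
      simp

lemma mem_mid (V : List α) (i j : ℕ) (hij : i < j) (hj : j < V.length) (v : α)
    (hv : v ∈ V[i] :: ((V.drop (i + 1)).take (j - (i + 1)))) :
    ∃ l, i ≤ l ∧ l < j ∧ V[l]? = some v := by
  rcases List.mem_cons.1 hv with rfl | hv
  · exact ⟨i, le_rfl, hij, by rw [List.getElem?_eq_getElem (by omega)]⟩
  · obtain ⟨n, hn, rfl⟩ := List.getElem_of_mem hv
    rw [List.length_take, List.length_drop] at hn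
    refine ⟨i + 1 + n, by omega, by omega, ?_⟩
    rw [List.getElem_take, List.getElem_drop, List.getElem?_eq_getElem (by omega)]

lemma filterMap_get (f : α → Option β) (V : List α) (k : ℕ) (hk : k < V.length) :
    (V.filterMap f) = (V.take k).filterMap f ++ ((f V[k]).toList ++ (V.drop (k + 1)).filterMap f) := by
  conv_lhs => rw [split1 V k hk]
  rw [List.filterMap_append, List.filterMap_cons]
  cases h : f V[k] <;> simp

lemma filterMap_get' (f : α → Option β) (V : List α) (k : ℕ) (hk : k < V.length) (b : β)
    (hb : f V[k] = some b) : (V.filterMap f)[((V.take k).filterMap f).length]? = some b := by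
  rw [filterMap_get f V k hk, hb]
  simp

lemma cn_succ (f : α → Option β) (V : List α) (k : ℕ) (hk : k < V.length) :
    ((V.take (k + 1)).filterMap f).length = ((V.take k).filterMap f).length +
      if (f V[k]).isSome then 1 else 0 := by
  rw [List.take_succ_eq_append_getElem hk, List.filterMap_append, List.length_append]
  cases h : f V[k] <;> simp [h]

/-- Lists with the same mask. -/
lemma cn_eq {α' β' : Type} (f : α → Option β) (f' : α' → Option β') (V : List α) (V' : List α')
    (hl : V.length = V'.length)
    (hm : ∀ k (h : k < V.length) (h' : k < V'.length), (f V[k]).isSome = (f' V'[k]).isSome) :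
    ∀ k, k ≤ V.length → ((V.take k).filterMap f).length = ((V'.take k).filterMap f').length := by
  intro k
  induction k with
  | zero => intro _; simp
  | succ k ih =>
    intro hk
    rw [cn_succ f V k (by omega), cn_succ f' V' k (by omega), ih (by omega),
      hm k (by omega) (by omega)]

lemma mask_eq (f f' : α → Option β) (V V' : List α) (hl : V.length = V'.length)
    (hm : ∀ k (h : k < V.length) (h' : k < V'.length), (f V[k]).isSome = (f' V'[k]).isSome)
    (he : V.filterMap f = V'.filterMap f') (k : ℕ) (h : k < V.length) (h' : k < V'.length) :
    f V[k] = f' V'[k] := by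
  have hk := hm k h h'
  cases h1 : f V[k] with
  | none =>
    rw [h1] at hk
    cases h2 : f' V'[k] with
    | none => rfl
    | some b => rw [h2] at hk; simp at hk
  | some b =>
    rw [h1] at hk
    cases h2 : f' V'[k] with
    | none => rw [h2] at hk; simp at hk
    | some b' =>
      have e1 := filterMap_get' f V k h b h1
      have e2 := filterMap_get' f' V' k h' b' h2
      rw [cn_eq f f' V V' hl hm k h.le, he] at e1
      rw [e1] at e2
      exact e2

/-- Alternating apart from the ends. -/
def AltE (e : ℕ) (l : List Bool) : Prop :=
  ∀ k (h : k + 1 < l.length), e ≤ k → k + 1 + e < l.length → l[k] ≠ l[k + 1]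

lemma altE_of (e : ℕ) (a m b : List Bool) (ha : a.length ≤ e) (hb : b.length ≤ e)
    (hm : m.IsChain (· ≠ ·)) : AltE e (a ++ m ++ b) := by
  intro k h h1 h2
  simp only [List.length_append] at h h2
  have hk : k - a.length + 1 < m.length := by omega
  have e1 : (a ++ m ++ b)[k]'(by simp; omega) = m[k - a.length]'(by omega) := by
    rw [List.getElem_append_left (by simp; omega), List.getElem_append_right (by omega)]
  have e2 : (a ++ m ++ b)[k + 1]'(by simp; omega) = m[k - a.length + 1]'(by omega) := by
    rw [List.getElem_append_left (by simp; omega), List.getElem_append_right (by omega)]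
    congr 1
    omega
  rw [e1, e2]
  exact List.isChain_iff_getElem.1 hm (k - a.length) hk

lemma altE_near (e k : ℕ) (l l' : List Bool) (h : AltE e l) (hn : Near k l l') :
    AltE (e + k) l' := by
  obtain ⟨a, b, a', b', m, rfl, rfl, ha, hb, ha', hb'⟩ := hn
  intro i h1 h2 h3
  simp only [List.length_append] at h1 h3
  have e1 : (a' ++ m ++ b')[i]'(by simp; omega) = m[i - a'.length]'(by omega) := by
    rw [List.getElem_append_left (by simp; omega), List.getElem_append_right (by omega)]
  have e2 : (a' ++ m ++ b')[i + 1]'(by simp; omega) = m[i + 1 - a'.length]'(by omega) := by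
    rw [List.getElem_append_left (by simp; omega), List.getElem_append_right (by omega)]
  have h4 := h (i - a'.length + a.length) (by simp; omega) (by omega) (by simp; omega)
  have e3 : (a ++ m ++ b)[i - a'.length + a.length]'(by simp; omega) =
      m[i - a'.length]'(by omega) := by
    rw [List.getElem_append_left (by simp; omega), List.getElem_append_right (by omega)]
    congr 1
    omega
  have e4 : (a ++ m ++ b)[i - a'.length + a.length + 1]'(by simp; omega) =
      m[i + 1 - a'.length]'(by omega) := by
    rw [List.getElem_append_left (by simp; omega), List.getElem_append_right (by omega)]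
    congr 1
    omega
  rw [e3, e4] at h4
  rw [e1, e2]
  exact h4

lemma altE_eq (e : ℕ) (l l' : List Bool) (hl : l.length = l'.length) (h : AltE e l)
    (h' : AltE e l') (h1 : l.take (e + 1) = l'.take (e + 1))
    (h2 : l.drop (l.length - e) = l'.drop (l'.length - e)) : l = l' := by
  apply List.ext_getElem hl
  intro k
  induction k with
  | zero =>
    intro g g'
    have := congrArg (fun z => z[0]?) h1
    simp only [List.getElem?_take] at this
    rw [if_pos (by omega), if_pos (by omega), List.getElem?_eq_getElem g,
      List.getElem?_eq_getElem g'] at this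
    exact Option.some.inj this
  | succ k ih =>
    intro g g'
    by_cases c1 : k + 1 < e + 1
    · have := congrArg (fun z => z[k + 1]?) h1
      simp only [List.getElem?_take] at this
      rw [if_pos c1, if_pos c1, List.getElem?_eq_getElem g, List.getElem?_eq_getElem g'] at this
      exact Option.some.inj this
    · by_cases c2 : k + 1 + e < l.length
      · have i1 := h k g (by omega) c2
        have i2 := h' k g' (by omega) (by omega)
        have i3 := ih (by omega) (by omega)
        rw [i3] at i1
        revert i1 i2
        cases l[k + 1] <;> cases l'[k + 1] <;> cases l'[k] <;> simp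
      · have := congrArg (fun z => z[k + 1 - (l.length - e)]?) h2
        simp only [List.getElem?_drop] at this
        have e1 : l.length - e + (k + 1 - (l.length - e)) = k + 1 := by omega
        have e2 : l'.length - e + (k + 1 - (l.length - e)) = k + 1 := by omega
        rw [e1, e2, List.getElem?_eq_getElem g, List.getElem?_eq_getElem g'] at this
        exact Option.some.inj this

end lists

end DetAux

end R4.Mk
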