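import Pool.Agent.Work.MP_e3f5d9_al.T0
import Pool.Agent.Work.MP_e3f5d9_al.B1p
import Pool.Agent.Work.MP_e3f5d9_al.B2a
import Pool.Agent.Work.MP_e3f5d9_al.B3
import Pool.Agent.Work.MP_e3f5d9_al.B4
import Pool.Agent.Work.MP_e3f5d9_al.B8

/-!
# R4, block TB0: facts on UT words
-/

set_option autoImplicit false

open Finset

namespace R4

namespace TB0Aux

variable {L : Type} [Fintype L] [DecidableEq L] (D : KS L)

/-- One arrow, raw words. -/
lemma arrow_raw {E : Finset (Finset L)} (hE : D.Mixing E) {A B : Finset L}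
    (hAB : D.Arrow E A B) (z : List L) :
    runs B (D.sec false z) + runs B (D.sec true z) ≤ runs A z + 2 := by
  obtain ⟨hA, hB, s, hs⟩ := hAB
  have hle : ∀ z, runs B z ≤ runs (D.lp s A) z + 1 := by
    intro z
    rw [← hs]
    unfold KS.nm
    split_ifs
    · exact (b1p L).runs_compl _ _
    · exact Nat.le_succ _
  have e1 := hle (D.sec false z)
  have e2 := hle (D.sec true z)
  have e5 := b2a D s A z (hE.norm A hA)
  omega

lemma low {E : Finset (Finset L)} (hE : D.Mixing E) : ∀ (n : ℕ) (A B : Finset L),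
    D.Path E n A B → ∀ W, D.tot (runs B) n W + 2 ≤ runs A W + 2 ^ (n + 1) := by
  intro n
  induction n with
  | zero =>
    intro A B h W
    obtain ⟨-, rfl⟩ := h
    rw [B3Aux.tot_zero]
    norm_num
  | succ n ih =>
    intro A B h W
    obtain ⟨C, hAC, hCB⟩ := h
    rw [B3Aux.tot_step]
    have e1 := ih C B hCB (D.sec false W)
    have e2 := ih C B hCB (D.sec true W)
    have e3 := arrow_raw D hE hAC W
    have e4 : 2 ^ (n + 1 + 1) = 2 * 2 ^ (n + 1) := by rw [pow_succ]; ring
    omega

lemma rr_le (B : Finset L) (n : ℕ) (W : List L) : D.tot (rr B) n W ≤ D.tot (runs B) n W :=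
  (b3 D).tot_mono _ _ _ _ fun z => (b1p L).runs_red B z

lemma secL_nil' (u : List Bool) : D.secL u [] = [] := by
  induction u with
  | nil => rfl
  | cons b u ih => rw [B3Aux.secL_cons, B1Aux.sec_nil, ih]

lemma secL_app : ∀ (u : List Bool) (X Y : List L),
    D.secL u (X ++ Y) = D.secL u X ++ D.secL (D.ev X u) Y := by
  intro u
  induction u with
  | nil =>
    intro X Y
    have : D.ev X [] = [] := List.length_eq_zero_iff.1 (by rw [B1Aux.ev_length]; rfl)
    rw [this, B3Aux.secL_nil, B3Aux.secL_nil, B3Aux.secL_nil]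
  | cons b u ih =>
    intro X Y
    rw [B3Aux.secL_cons, B3Aux.secL_cons, B1Aux.sec_append, ih, B1Aux.ev_cons, B3Aux.secL_cons]

/-- Splitting of a raw section. -/
lemma sec_split : ∀ (F : List L) (b : Bool) (P Q : List L), D.sec b F = P ++ Q →
    ∃ P' Q', F = P' ++ Q' ∧ D.sec b P' = P ∧
      D.sec (xor b (decide (Odd (P'.count D.o)))) Q' = Q := by
  intro F
  induction F with
  | nil =>
    intro b P Q h
    rw [B1Aux.sec_nil] at h
    obtain ⟨rfl, rfl⟩ := List.append_eq_nil_iff.1 h.symm
    exact ⟨[], [], rfl, B1Aux.sec_nil D b, B1Aux.sec_nil D _⟩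
  | cons j w ih =>
    intro b P Q h
    by_cases hP : P = []
    · subst hP
      refine ⟨[], j :: w, rfl, B1Aux.sec_nil D b, ?_⟩
      simpa using h
    · by_cases hj : j = D.o
      · subst hj
        rw [B1Aux.sec_o] at h
        obtain ⟨P', Q', rfl, h1, h2⟩ := ih (!b) P Q h
        refine ⟨D.o :: P', Q', rfl, ?_, ?_⟩
        · rw [B1Aux.sec_o, h1]
        · rw [List.count_cons_self, ← B1Aux.odd_succ, h2]
      · cases hp : D.pre b j with
        | none =>
          rw [B1Aux.sec_none D hj hp] at h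
          obtain ⟨P', Q', rfl, h1, h2⟩ := ih b P Q h
          refine ⟨j :: P', Q', rfl, ?_, ?_⟩
          · rw [B1Aux.sec_none D hj hp, h1]
          · rw [List.count_cons_of_ne hj, h2]
        | some i =>
          rw [B1Aux.sec_some D hj hp] at h
          cases P with
          | nil => exact absurd rfl hP
          | cons x P1 =>
            rw [List.cons_append, List.cons.injEq] at h
            obtain ⟨rfl, h⟩ := h
            obtain ⟨P', Q', rfl, h1, h2⟩ := ih b P1 Q h
            refine ⟨j :: P', Q', rfl, ?_, ?_⟩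
            · rw [B1Aux.sec_some D hj hp, h1]
            · rw [List.count_cons_of_ne hj, h2]

lemma factor : ∀ (u : List Bool) (F W' : List L), W' <:+: D.secL u F →
    ∃ (F' : List L) (X Y : List L), F = X ++ F' ++ Y ∧ W' = D.secL (D.ev X u) F' := by
  intro u
  induction u with
  | nil =>
    intro F W' h
    rw [B3Aux.secL_nil] at h
    obtain ⟨X, Y, h⟩ := h
    refine ⟨W', X, Y, h.symm, ?_⟩
    have : D.ev X [] = [] := List.length_eq_zero_iff.1 (by rw [B1Aux.ev_length]; rfl)
    rw [this, B3Aux.secL_nil]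
  | cons b u ih =>
    intro F W' h
    rw [B3Aux.secL_cons] at h
    obtain ⟨F1, X1, Y1, h1, h2⟩ := ih (D.sec b F) W' h
    rw [List.append_assoc] at h1
    obtain ⟨X, Q, rfl, h3, h4⟩ := sec_split D F b X1 (F1 ++ Y1) h1
    obtain ⟨F', Y, rfl, h5, -⟩ := sec_split D Q _ F1 Y1 h4
    refine ⟨F', X, Y, by rw [List.append_assoc], ?_⟩
    rw [h2, B1Aux.ev_cons, B3Aux.secL_cons, h3, h5]

lemma red_factor {F F' : List L} (hF : red F = F) (h : F' <:+: F) : red F' = F' := by
  apply (b1p L).red_id
  have h1 := (b1p L).red_chain F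
  rw [hF] at h1
  obtain ⟨X, Y, rfl⟩ := h
  exact (List.isChain_append.1 (List.isChain_append.1 h1).1).2.1

end TB0Aux

open TB0Aux in
/-- TB0. -/
theorem tb0 {L : Type} [Fintype L] [DecidableEq L] (D : KS L) : UTBasics D where
  low := by
    intro E hE n A B h W
    have := TB0Aux.low D hE n A B h W
    omega
  rr_le := TB0Aux.rr_le D
  unif := by
    intro E hE n0 θ k F hexp hUT u hu F' hF' A hA B hB
    have h1 := hUT.2 u hu F' hF' A hA B hB
    have h2 := B4Aux.path_step D (b1 D) (b1p L) (b2a D) (b3 D) hE (D.secL u F') n0 B B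
      (hexp.2 B hB B hB) 0
    rw [B3Aux.tot_zero] at h2
    simp only [zero_add] at h2
    omega
  secL_append := secL_app D
  factor := TB0Aux.factor D
  ut_factor := by
    intro E n0 θ k F F' h hF
    refine ⟨red_factor h.1 hF, fun u hu G hG => h.2 u hu G (hG.trans hF)⟩
  ut_mono := by
    intro E n0 θ k k' F hk h
    exact ⟨h.1, fun u hu => h.2 u (hu.trans hk)⟩

end R4
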