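import Pool.Agent.Work.MP_e3f5d9_al.MK11b
import Pool.Agent.Work.MP_e3f5d9_al.B1
import Pool.Agent.Work.MP_e3f5d9_al.TB0

/-! # Block MK11c: auxiliary lemmas for the assembly of the periodic centre, part 2 -/

set_option autoImplicit false

open Finset

namespace R4.Mk

namespace DetAux

variable {L : Type} [Fintype L] [DecidableEq L]

/-! ### Near -/

lemma near_filterMap {β γ : Type} (f : β → Option γ) {k : ℕ} {l l' : List β} (h : Near k l l') :
    Near k (l.filterMap f) (l'.filterMap f) := by
  obtain ⟨a, b, a', b', m, rfl, rfl, ha, hb, ha', hb'⟩ := h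
  refine ⟨a.filterMap f, b.filterMap f, a'.filterMap f, b'.filterMap f, m.filterMap f,
    by simp, by simp, ?_, ?_, ?_, ?_⟩ <;>
  exact le_trans (List.length_filterMap_le _ _) (by assumption)

/-! ### Determined features -/

lemma det_pi {α ι : Type} [Finite ι] {γ : ι → Type} (T : Set (List L)) (Ψ : List L → α)
    (Φ : ∀ i, List L → γ i) (h : ∀ i, Det T Ψ (Φ i)) : Det T Ψ (fun W i => Φ i W) := by
  choose N ρ hρ using h
  apply LiftAux.det_of_finite T Ψ _ (fun W => fun i => ρ i W)
  intro W hW W' hW' h1 h2
  funext i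
  exact hρ i W hW W' hW' h1 (congrFun h2 i)

lemma det_alt {α : Type} (T : Set (List L)) (Ψ : List L → α) (Φ : List L → List Bool) (e : ℕ)
    (h : ∀ W ∈ T, AltE e (Φ W))
    (hl : ∀ W ∈ T, ∀ W' ∈ T, Ψ W = Ψ W' → (Φ W).length = (Φ W').length) : Det T Ψ Φ := by
  have hfin : Finite {l : List Bool // l.length ≤ e + 1} :=
    (List.finite_length_le Bool (e + 1)).to_subtype
  have hf2 : ∀ l : List Bool, (l.drop (l.length - e)).length ≤ e + 1 := by
    intro l
    rw [List.length_drop]
    omega
  have hf1 : ∀ l : List Bool, (l.take (e + 1)).length ≤ e + 1 := by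
    intro l
    rw [List.length_take]
    omega
  apply LiftAux.det_of_finite T Ψ Φ (fun W =>
    ((⟨(Φ W).take (e + 1), hf1 _⟩ : {l : List Bool // l.length ≤ e + 1}),
      (⟨(Φ W).drop ((Φ W).length - e), hf2 _⟩ : {l : List Bool // l.length ≤ e + 1})))
  intro W hW W' hW' h1 h2
  rw [Prod.mk.injEq, Subtype.mk.injEq, Subtype.mk.injEq] at h2
  exact altE_eq e _ _ (hl W hW W' hW' h1) (h W hW) (h W' hW') h2.1 h2.2

/-! ### Visits -/

/-- The word before the `l`-th visit. -/
def pr (V : List (Finset L × List L)) (l : ℕ) : List L := ((V[l]?).map Prod.snd).getD []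

lemma pr_eq (V : List (Finset L × List L)) (l : ℕ) (h : l < V.length) : pr V l = V[l].2 := by
  rw [pr, List.getElem?_eq_getElem h]
  rfl

lemma visp_lt (hV : VispBasics L) {β : Type} [DecidableEq β] (c : L → Option β) (W : List L)
    (j : ℕ) : ∀ i, i < j → ∀ (hj : j < (visp c none [] W).length) (hi : i < (visp c none [] W).length),
    ∃ y v, (visp c none [] W)[j].2 = (visp c none [] W)[i].2 ++ y :: v ∧
      c y = some (visp c none [] W)[i].1 := by
  induction j with
  | zero => intro i h; omega
  | succ j ih =>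
    intro i hij hj hi
    have hstep : ∃ y v, (visp c none [] W)[j + 1].2 = (visp c none [] W)[j].2 ++ y :: v ∧
        c y = some (visp c none [] W)[j].1 := by
      obtain ⟨R, G, hR, h1, h2, -, -⟩ := hV.next c W _ _ _ _ (split2 _ j hj)
      obtain ⟨y, R', rfl⟩ := List.exists_cons_of_ne_nil hR
      exact ⟨y, R' ++ G, by rw [h1]; simp, h2 y (by simp)⟩
    rcases Nat.lt_succ_iff_lt_or_eq.1 hij with h | h
    · obtain ⟨y, v, h1, h2⟩ := ih i h (by omega) hi
      obtain ⟨y', v', h3, h4⟩ := hstep
      exact ⟨y, v ++ y' :: v', by rw [h3, h1]; simp, h2⟩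
    · subst h
      exact hstep

lemma visp_class (hV : VispBasics L) (E : Finset (Finset L)) (z : L) (W : List L)
    (y : Finset L × List L) (hy : y ∈ visp (st E z) none [] W) :
    ∃ x, x ≠ z ∧ y.1 = cl E z x := by
  obtain ⟨x, v, -, h⟩ := hV.mem _ W y hy
  unfold st at h
  by_cases hx : x = z
  · rw [if_pos hx] at h; cases h
  · rw [if_neg hx] at h
    exact ⟨x, hx, (Option.some.inj h).symm⟩

lemma adr_length (D : KS L) (i : L) : ∀ e, (adr D i e).length = e := by
  intro e
  induction e with
  | zero => rfl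
  | succ e ih => rw [adr, List.length_cons, ih]

lemma ctr_iter {D : KS L} {E : Finset (Finset L)} (hS : StarBasics D E) {i : L}
    (hi : Ctr D E i) : ∀ e, Ctr D E (D.nxt^[e] i) := by
  intro e
  induction e with
  | zero => exact hi
  | succ e ih => rw [Function.iterate_succ_apply']; exact hS.nxt _ ih

lemma stpL_nonempty {D : KS L} {E : Finset (Finset L)} (hS : StarBasics D E) {z : L}
    (hz : Ctr D E z) {n : ℕ} (hn : 0 < n) (hp : D.nxt^[n] z = z) : ∀ e x, x ≠ D.nxt^[e] z →
    (stpL D z e (cl E (D.nxt^[e] z) x)).Nonempty := by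
  intro e
  induction e with
  | zero =>
    intro x hx
    exact ⟨x, (hS.self z x hx).1⟩
  | succ e ih =>
    intro x hx
    rw [Function.iterate_succ_apply'] at hx ⊢
    rw [stpL]
    have hc := ctr_iter hS hz e
    have hper : D.nxt^[n] (D.nxt^[e] z) = D.nxt^[e] z := by
      rw [← Function.iterate_add_apply, Nat.add_comm, Function.iterate_add_apply, hp]
    have h1 := hS.per _ hc n hn hper x hx
    rcases hS.step _ hc x hx with h2 | ⟨y, hy, h2⟩
    · rw [h2] at h1
      exact absurd h1 (by simp)
    · rw [h2]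
      exact ih y hy

lemma owner_iff (D : KS L) (u : List L) (x a : List Bool) :
    D.ev u x = a ↔ D.ev u.reverse a = x := by
  constructor
  · rintro rfl
    exact (b1 D).ev_reverse u x
  · rintro rfl
    have := (b1 D).ev_reverse u.reverse a
    rwa [List.reverse_reverse] at this

/-- The increment of the number of letters `j` before the `l`-th visit. -/
def bet (V : List (Finset L × List L)) (j : L) (l : ℕ) : ZMod 2 :=
  ((pr V l).count j : ZMod 2) - if l = 0 then 0 else ((pr V (l - 1)).count j : ZMod 2)

lemma cnt_sum {D : KS L} {E : Finset (Finset L)} (hC : Cnt D E) (i : L) (x : List Bool)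
    (P : List L) (V : List (Finset L × List L)) (j : L) (hj : D.nxt^[x.length] i = j)
    (hV : visp (st E j) none [] P = V) : ∀ k, k < V.length →
    ((D.secL x (pr V k)).count i : ZMod 2) =
      ∑ l ∈ range (k + 1) with D.ev (pr V l).reverse (adr D i x.length) = x, bet V j l := by
  subst hj
  intro k
  induction k with
  | zero =>
    intro h
    have h1 := split1 V 0 h
    rw [List.take_zero, List.nil_append] at h1
    have h2 := hC.first i x P V[0] (V.drop 1) (by rw [hV]; exact h1)
    rw [pr_eq V 0 h, h2]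
    by_cases ho : D.ev V[0].2 x = adr D i x.length
    · rw [if_pos ho, range_one, filter_singleton, if_pos, sum_singleton, bet, if_pos rfl,
        pr_eq V 0 h, sub_zero]
      rw [pr_eq V 0 h]
      exact (owner_iff D _ _ _).1 ho
    · rw [if_neg ho, range_one, filter_singleton, if_neg, sum_empty, Nat.cast_zero]
      rw [pr_eq V 0 h]
      exact fun hh => ho ((owner_iff D _ _ _).2 hh)
  | succ k ih =>
    intro h
    have h0 := ih (by omega)
    have h2 := hC.next i x P V[k] V[k + 1] _ _ (by rw [hV]; exact split2 V k h)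
    rw [range_add_one, filter_insert]
    rw [pr_eq V k (by omega)] at h0
    by_cases ho : D.ev V[k + 1].2 x = adr D i x.length
    · rw [if_pos (by rw [pr_eq V (k + 1) h]; exact (owner_iff D _ _ _).1 ho),
        sum_insert (by simp), ← h0, bet, if_neg (Nat.succ_ne_zero k), Nat.add_sub_cancel,
        pr_eq V (k + 1) h, pr_eq V k (by omega)]
      rw [if_pos ho, if_pos ho] at h2
      have h3 : (((D.secL x V[k + 1].2).count i + V[k].2.count (D.nxt^[x.length] i) : ℕ) : ZMod 2)
        = (((D.secL x V[k].2).count i + V[k + 1].2.count (D.nxt^[x.length] i) : ℕ) : ZMod 2) := by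
        rw [h2]
      push_cast at h3
      linear_combination h3
    · rw [if_neg (by rw [pr_eq V (k + 1) h]; exact fun hh => ho ((owner_iff D _ _ _).2 hh)), ← h0,
        pr_eq V (k + 1) h]
      rw [if_neg ho, if_neg ho] at h2
      simp only [add_zero] at h2
      rw [h2]

end DetAux

end R4.Mk
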