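import Pool.Agent.Work.MP_e3f5d9_al.MK11c

/-! # Block MK11: the assembly of the periodic centre -/

set_option autoImplicit false

open Finset

namespace R4.Mk

open DetAux

namespace DetAux

variable {L : Type} [Fintype L] [DecidableEq L] (S : Setup L)

/-- The parities of the number of letters `z` read by `w`, at the visits owned by `w`. -/
noncomputable def lam (z : L) (d : ℕ) (w : List Bool) (P : List L) : List Bool :=
  (visp (st S.E z) none [] P).filterMap fun y =>
    if S.D.ev y.2 w = adr S.D z d then some (decide (Odd ((S.D.secL w y.2).count z))) else none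

/-- The parities of the number of letters `i` read by `x`, at the exits of `x`. -/
noncomputable def exl (i : L) (s : ℕ) (x : List Bool) (P : List L) : List Bool :=
  (visp (st S.E (S.D.nxt^[s] i)) none [] P).filterMap fun y =>
    if S.D.ev y.2 x = adr S.D i s ∧ S.D.o ∈ stpL S.D i s y.1
    then some (decide (Odd ((S.D.secL x y.2).count i))) else none

variable {S}

lemma anti_le (hN : NodeBasics S) {k k' : ℕ} (h : k ≤ k') : S.N k' ⊆ S.N k := by
  induction h with
  | refl => exact subset_rfl
  | step _ ih => exact (hN.anti _).trans ih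

lemma secL_mem (hN : NodeBasics S) (k : ℕ) : ∀ (x : List Bool) (P : List L),
    P ∈ S.N (k + x.length) → S.D.secL x P ∈ S.N k := by
  intro x
  induction x with
  | nil => intro P hP; exact hP
  | cons b x ih => intro P hP; exact ih _ (hN.kid _ P hP b)

lemma filter_map_eq {β γ : Type} (p : β → Prop) [DecidablePred p] (g : β → γ) (l : List β) :
    (l.filter fun y => decide (p y)).map g = l.filterMap fun y => if p y then some (g y) else none := by
  induction l with
  | nil => rfl
  | cons a l ih =>
    by_cases h : p a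
    · rw [List.filter_cons_of_pos (by simpa using h), List.map_cons, ih,
        List.filterMap_cons_some (by rw [if_pos h])]
    · rw [List.filter_cons_of_neg (by simpa using h), ih,
        List.filterMap_cons_none (by rw [if_neg h])]

lemma nonempty_visit (hV : VispBasics L) (hS : StarBasics S.D S.E) {z : L} (hz : Ctr S.D S.E z)
    {n : ℕ} (hn : 0 < n) (hp : S.D.nxt^[n] z = z) {d : ℕ} (hd : S.D.nxt^[d] z = z) (P : List L)
    (y : Finset L × List L) (hy : y ∈ visp (st S.E z) none [] P) :
    (stpL S.D z d y.1).Nonempty := by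
  obtain ⟨x, hx, h⟩ := visp_class hV S.E z P y hy
  rw [h]
  have := stpL_nonempty hS hz hn hp d x (by rw [hd]; exact hx)
  rwa [hd] at this

lemma lam_near (hV : VispBasics L) (hS : StarBasics S.D S.E) {z : L} (hz : Ctr S.D S.E z)
    {n : ℕ} (hn : 0 < n) (hp : S.D.nxt^[n] z = z) {d : ℕ} (hd : S.D.nxt^[d] z = z) (k : ℕ)
    (P : List L) (w : List Bool)
    (h : Near k (visp (st S.E z) none [] (S.D.secL w P))
      ((visp (st S.E (S.D.nxt^[d] z)) none [] P).filterMap fun y =>
        if S.D.ev y.2 w = adr S.D z d ∧ (stpL S.D z d y.1).Nonempty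
        then some (stpL S.D z d y.1, S.D.secL w y.2) else none)) :
    Near k ((mk S.E z (S.D.secL w P)).map Prod.snd) (lam S z d w P) := by
  have h1 := near_filterMap (fun y : Finset L × List L => some (decide (Odd (y.2.count z)))) h
  rw [hd, List.filterMap_filterMap] at h1
  convert h1 using 1
  · rw [mk, List.map_map, ← List.filterMap_eq_map]
    rfl
  · rw [lam]
    apply List.filterMap_congr
    intro y hy
    by_cases h2 : S.D.ev y.2 w = adr S.D z d
    · rw [if_pos h2, if_pos ⟨h2, nonempty_visit hV hS hz hn hp hd P y hy⟩]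
      rfl
    · rw [if_neg h2, if_neg fun hh => h2 hh.1]
      rfl

lemma exl_alt (hN : NodeBasics S) (hL : LiftPath S) (hB : Blk S) (c : L) (hc : ¬ Ctr S.D S.E c)
    (hi : Ctr S.D S.E (S.D.nxt c)) (s : ℕ) : ∃ K e : ℕ, ∀ P ∈ S.N K, ∀ x : List Bool,
    x.length = s → AltE e (exl S (S.D.nxt c) s x P) := by
  obtain ⟨kB, eB, hB'⟩ := hB c hc hi
  obtain ⟨k2, hL'⟩ := hL _ hi s
  refine ⟨kB + s, eB + k2, ?_⟩
  intro P hP x hx
  have hQ : S.D.secL x P ∈ S.N kB := secL_mem hN kB x P (by rw [hx]; exact hP)
  obtain ⟨a, m, b, h1, ha, hb, hm⟩ := hB' _ hQ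
  have h2 := altE_of eB a m b ha hb hm
  rw [← h1, filter_map_eq] at h2
  have h3 := near_filterMap (fun y : Finset L × List L => if S.D.o ∈ y.1 then
    some (decide (Odd (y.2.count (S.D.nxt c)))) else none)
    (hL' P (anti_le hN (by omega) hP) x hx)
  have h4 := altE_near _ _ _ _ h2 h3
  rw [List.filterMap_filterMap] at h4
  rw [exl]
  convert h4 using 1
  apply List.filterMap_congr
  intro y _
  by_cases c1 : S.D.ev y.2 x = adr S.D (S.D.nxt c) s
  · by_cases c2 : S.D.o ∈ stpL S.D (S.D.nxt c) s y.1
    · rw [if_pos ⟨c1, c2⟩, if_pos ⟨c1, ⟨_, c2⟩⟩]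
      simp [c2]
    · rw [if_neg fun hh => c2 hh.2]
      by_cases c3 : (stpL S.D (S.D.nxt c) s y.1).Nonempty
      · rw [if_pos ⟨c1, c3⟩]
        simp [c2]
      · rw [if_neg fun hh => c3 hh.2]
        rfl
  · rw [if_neg fun hh => c1 hh.1, if_neg fun hh => c1 hh.1]
    rfl

lemma own_get (D : KS L) (E : Finset (Finset L)) (i : L) (e : ℕ) (j : L) (hj : D.nxt^[e] i = j)
    (P P' : List L) (V V' : List (Finset L × List L)) (hV : visp (st E j) none [] P = V)
    (hV' : visp (st E j) none [] P' = V') (h : own D E i e P = own D E i e P') :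
    V.length = V'.length ∧ ∀ k (h1 : k < V.length) (h2 : k < V'.length), V[k].1 = V'[k].1 ∧
      D.ev V[k].2.reverse (adr D i e) = D.ev V'[k].2.reverse (adr D i e) := by
  subst hj hV hV'
  rw [own, own] at h
  have hl := congrArg List.length h
  rw [List.length_map, List.length_map] at hl
  refine ⟨hl, ?_⟩
  intro k h1 h2
  have := congrArg (fun l => l[k]?) h
  simp only [List.getElem?_map, List.getElem?_eq_getElem h1, List.getElem?_eq_getElem h2,
    Option.map_some, Option.some.injEq, Prod.mk.injEq] at this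
  exact this

lemma parity_cast {a b : ℕ} (h : decide (Odd a) = decide (Odd b)) : (a : ZMod 2) = (b : ZMod 2) := by
  rw [decide_eq_decide] at h
  rcases Nat.even_or_odd a with ha | ha
  · have hb : Even b := by
      rw [← Nat.not_odd_iff_even] at ha ⊢
      exact fun hh => ha (h.2 hh)
    rw [(ZMod.natCast_eq_zero_iff_even).2 ha, (ZMod.natCast_eq_zero_iff_even).2 hb]
  · rw [(ZMod.natCast_eq_one_iff_odd).2 ha, (ZMod.natCast_eq_one_iff_odd).2 (h.1 ha)]

lemma cast_parity {a b : ℕ} (h : (a : ZMod 2) = (b : ZMod 2)) : decide (Odd a) = decide (Odd b) := by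
  rw [decide_eq_decide, ← ZMod.natCast_eq_one_iff_odd, ← ZMod.natCast_eq_one_iff_odd, h]

/-- The sums of the differences of the increments. -/
lemma diff_sum {D : KS L} {E : Finset (Finset L)} (hC : Cnt D E) (i : L) (e : ℕ) (j : L)
    (hj : D.nxt^[e] i = j) (P P' : List L) (V V' : List (Finset L × List L))
    (hV : visp (st E j) none [] P = V) (hV' : visp (st E j) none [] P' = V')
    (h : own D E i e P = own D E i e P') (x : List Bool) (hx : x.length = e) (k : ℕ)
    (hk : k < V.length) :
    ∑ l ∈ range (k + 1) with D.ev (pr V l).reverse (adr D i e) = x, (bet V j l - bet V' j l) =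
      ((D.secL x (pr V k)).count i : ZMod 2) - ((D.secL x (pr V' k)).count i : ZMod 2) := by
  obtain ⟨hl, hg⟩ := own_get D E i e j hj P P' V V' hV hV' h
  subst hx
  rw [sum_sub_distrib, cnt_sum hC i x P V j hj hV k hk,
    cnt_sum hC i x P' V' j hj hV' k (by omega)]
  congr 1
  apply sum_congr _ fun _ _ => rfl
  ext l
  rw [mem_filter, mem_filter, mem_range]
  constructor
  · rintro ⟨h1, h2⟩
    refine ⟨h1, ?_⟩
    rw [pr_eq V' l (by omega), ← (hg l (by omega) (by omega)).2, ← pr_eq V l (by omega)]
    exact h2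
  · rintro ⟨h1, h2⟩
    refine ⟨h1, ?_⟩
    rw [pr_eq V l (by omega), (hg l (by omega) (by omega)).2, ← pr_eq V' l (by omega)]
    exact h2

end DetAux

end R4.Mk
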