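import Pool.Agent.Work.MP_e3f5d9_al.PRc1

/-!
# R4, block PRc (rule cycle)
-/

set_option autoImplicit false

open Finset

namespace R4

namespace PRcAux

section setup

variable {L : Type} [Fintype L] [DecidableEq L] {S : Setup L}
variable {ι G : Type} [Fintype ι] [Fintype G] [DecidableEq ι] [DecidableEq G]

/-- The hypotheses of the rule. -/
structure Hyp (S : Setup L) (C : Cy.CycData ι G) (X : G → Finset L) (t : ι → Bool) : Prop where
  disj : ∀ g g', g ≠ g' → C.pt g = C.pt g' → Disjoint (X g) (X g')
  ne : ∀ g, (X g).Nonempty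
  side : ∀ g, S.D.Side S.E (X g)
  ho : ∀ i, S.D.o ∈ X (C.o i)
  xf : ∀ g, g ≠ C.z (C.pt g) → X g = S.D.lp (t (C.pt g)) (X (C.f g))
  xz : ∀ i, X (C.z i) = (S.D.lp (t i) (X (C.o (C.σ i)))ᶜ)ᶜ
  kA : ∀ i, S.K (X (C.o i))ᶜ {S.D.o}
  m1 : S.D.Mono S.E {S.D.o} (X (C.o C.top))ᶜ
  m2 : S.D.Mono S.E (X (C.z C.top)) (X (C.o C.top))
  kK : ∀ g ∈ C.K, ∀ g' ∈ C.K, g ≠ g' → C.pt g = C.pt g' → S.K (X g) (X g')

open Classical in
/-- The class function of a vertex. -/
noncomputable def cl (C : Cy.CycData ι G) (X : G → Finset L) (i : ι) (x : L) : Option G :=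
  if h : ∃ g, C.pt g = i ∧ x ∈ X g then some h.choose else none

/-- The cut of a vertex. -/
def cA (C : Cy.CycData ι G) (X : G → Finset L) (i : ι) : Finset L := (X (C.o i))ᶜ

/-- The class function below the cut. -/
noncomputable def cl' (C : Cy.CycData ι G) (X : G → Finset L) (i : ι) (x : L) : Option G :=
  if x ∈ cA C X i then cl C X i x else none

/-- The germ of a token. -/
def gtok (C : Cy.CycData ι G) (i : ι) (u : Option G) : G := u.getD (C.o i)

variable {C : Cy.CycData ι G} {X : G → Finset L} {t : ι → Bool}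

lemma cl_some (H : Hyp S C X t) (i : ι) (x : L) (g : G) :
    cl C X i x = some g ↔ C.pt g = i ∧ x ∈ X g := by
  unfold cl
  constructor
  · intro h
    split_ifs at h with h'
    have := h'.choose_spec
    rw [Option.some.injEq] at h
    rw [h] at this
    exact this
  · rintro ⟨h1, h2⟩
    have h' : ∃ g, C.pt g = i ∧ x ∈ X g := ⟨g, h1, h2⟩
    rw [dif_pos h', Option.some.injEq]
    by_contra hne
    have h3 := h'.choose_spec
    exact Finset.disjoint_left.1 (H.disj _ g hne (h3.1.trans h1.symm)) h3.2 h2

lemma sigma_inj (C : Cy.CycData ι G) : Function.Injective C.σ :=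
  Finite.injective_iff_surjective.2 C.surj

lemma cA_o (H : Hyp S C X t) (i : ι) : S.D.o ∉ cA C X i := by
  simp [cA, H.ho i]

lemma cA_mem (H : Hyp S C X t) (i : ι) : cA C X i ∈ S.E := by
  have := H.side (C.o i)
  rw [KS.Side, KS.nm, if_pos (H.ho i)] at this
  exact this

lemma X_sub (H : Hyp S C X t) (i : ι) (g : G) (h1 : C.pt g = i) (h2 : g ≠ C.o i) :
    X g ⊆ cA C X i := by
  intro x hx
  rw [cA, mem_compl]
  intro hx'
  exact Finset.disjoint_left.1 (H.disj g (C.o i) h2 (h1.trans (C.pt_o i).symm)) hx hx'

lemma X_mem (H : Hyp S C X t) (i : ι) (g : G) (h1 : C.pt g = i) (h2 : g ≠ C.o i) :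
    X g ∈ S.E := by
  have := H.side g
  have ho : S.D.o ∉ X g := fun h => cA_o H i (X_sub H i g h1 h2 h)
  rw [KS.Side, KS.nm, if_neg ho] at this
  exact this

lemma cl'_some (H : Hyp S C X t) (i : ι) (x : L) (g : G) :
    cl' C X i x = some g ↔ C.pt g = i ∧ g ≠ C.o i ∧ x ∈ X g := by
  unfold cl'
  constructor
  · intro h
    split_ifs at h with hx
    have := (cl_some H i x g).1 h
    refine ⟨this.1, ?_, this.2⟩
    rintro rfl
    rw [cA, mem_compl] at hx
    exact hx this.2
  · rintro ⟨h1, h2, h3⟩
    rw [if_pos (X_sub H i g h1 h2 h3)]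
    exact (cl_some H i x g).2 ⟨h1, h3⟩

/-- The class function of a vertex, in terms of tokens. -/
lemma cl_tok (H : Hyp S C X t) (i : ι) (x : L) :
    cl C X i x = (glR (cA C X i) (cl' C X i) x).map (gtok C i) := by
  unfold glR
  by_cases hx : x ∈ cA C X i
  · rw [if_pos hx, cl', if_pos hx, Option.map_map]
    cases cl C X i x <;> rfl
  · rw [if_neg hx]
    refine (cl_some H i x (C.o i)).2 ⟨C.pt_o i, ?_⟩
    simpa [cA] using hx

lemma glR_inj (H : Hyp S C X t) (i : ι) (x y : L) (a b : Option G)
    (hx : glR (cA C X i) (cl' C X i) x = some a) (hy : glR (cA C X i) (cl' C X i) y = some b)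
    (h : gtok C i a = gtok C i b) : a = b := by
  have key : ∀ z a, glR (cA C X i) (cl' C X i) z = some (some a) → a ≠ C.o i := by
    intro z a hz
    unfold glR at hz
    split_ifs at hz with hzA
    · cases hc : cl' C X i z with
      | none => rw [hc] at hz; simp at hz
      | some g =>
        rw [hc] at hz
        simp only [Option.map_some, Option.some.injEq] at hz
        subst hz
        exact ((cl'_some H i z g).1 hc).2.1
    · simp at hz
  cases a with
  | none =>
    cases b with
    | none => rfl
    | some b => exact absurd h.symm (key y b hy)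
  | some a =>
    cases b with
    | none => exact absurd h (key x a hx)
    | some b => exact congrArg some h

/-- The class function of the child. -/
lemma cl_kcl (H : Hyp S C X t) (i : ι) (x : L) :
    cl C X i x = (S.kcl (t i) (cA C X (C.σ i)) (cl' C X (C.σ i)) x).map
      (fun u => C.f.symm (gtok C (C.σ i) u)) := by
  unfold Setup.kcl
  have hz : x ∈ X (C.z i) ↔ ¬ (S.D.side x = t i ∧ S.D.nxt x ∈ cA C X (C.σ i)) := by
    rw [H.xz i]
    simp [KS.lp, cA]
  by_cases hx : S.D.side x = t i ∧ S.D.nxt x ∈ cA C X (C.σ i)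
  · rw [if_pos hx, Option.map_map]
    cases hc : cl' C X (C.σ i) (S.D.nxt x) with
    | none =>
      simp only [Option.map_none]
      cases hc' : cl C X i x with
      | none => rfl
      | some g =>
        exfalso
        obtain ⟨h1, h2⟩ := (cl_some H i x g).1 hc'
        have hgz : g ≠ C.z i := by
          rintro rfl
          exact hz.1 h2 hx
        have h3 := H.xf g (by rw [h1]; exact hgz)
        rw [h3, h1] at h2
        have h4 : S.D.nxt x ∈ X (C.f g) := by
          simp only [KS.lp, mem_filter] at h2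
          exact h2.2.2
        have h5 : C.f g ≠ C.o (C.σ i) := by
          rw [← C.f_z i]
          intro e
          exact hgz (C.f.injective e)
        have := (cl'_some H (C.σ i) (S.D.nxt x) (C.f g)).2 ⟨by rw [C.pt_f, h1], h5, h4⟩
        rw [hc] at this
        cases this
    | some g =>
      obtain ⟨h1, h2, h3⟩ := (cl'_some H (C.σ i) _ g).1 hc
      simp only [Option.map_some, Function.comp]
      refine (cl_some H i x _).2 ?_
      have h4 : C.pt (C.f.symm g) = i := by
        apply sigma_inj C
        rw [← C.pt_f, Equiv.apply_symm_apply, h1]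
      refine ⟨h4, ?_⟩
      have h5 : C.f.symm g ≠ C.z (C.pt (C.f.symm g)) := by
        rw [h4]
        intro e
        have := congrArg C.f e
        rw [Equiv.apply_symm_apply, C.f_z] at this
        exact h2 this
      show x ∈ X (C.f.symm g)
      rw [H.xf _ h5, Equiv.apply_symm_apply, h4]
      simp only [KS.lp, mem_filter, mem_univ, true_and]
      exact ⟨hx.1, h3⟩
  · rw [if_neg hx]
    simp only [Option.map_some]
    refine (cl_some H i x _).2 ?_
    have e : C.f.symm (gtok C (C.σ i) none) = C.z i := by
      rw [Equiv.symm_apply_eq, C.f_z]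
      rfl
    rw [e]
    exact ⟨C.pt_z i, hz.2 hx⟩

lemma kcl_inj (H : Hyp S C X t) (i : ι) (x y : L) (a b : Option G)
    (hx : S.kcl (t i) (cA C X (C.σ i)) (cl' C X (C.σ i)) x = some a)
    (hy : S.kcl (t i) (cA C X (C.σ i)) (cl' C X (C.σ i)) y = some b)
    (h : C.f.symm (gtok C (C.σ i) a) = C.f.symm (gtok C (C.σ i) b)) : a = b := by
  have h := C.f.symm.injective h
  have key : ∀ z a, S.kcl (t i) (cA C X (C.σ i)) (cl' C X (C.σ i)) z = some (some a) →
      a ≠ C.o (C.σ i) := by
    intro z a hz
    unfold Setup.kcl at hz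
    split_ifs at hz with hzA
    · cases hc : cl' C X (C.σ i) (S.D.nxt z) with
      | none => rw [hc] at hz; simp at hz
      | some g =>
        rw [hc] at hz
        simp only [Option.map_some, Option.some.injEq] at hz
        subst hz
        exact ((cl'_some H (C.σ i) _ g).1 hc).2.1
    · simp at hz
  cases a with
  | none =>
    cases b with
    | none => rfl
    | some b => exact absurd h.symm (key y b hy)
  | some a =>
    cases b with
    | none => exact absurd h (key x a hx)
    | some b => exact congrArg some h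

/-- The star word of a vertex. -/
noncomputable def star (C : Cy.CycData ι G) (X : G → Finset L) (W : List L) (i : ι) : List G :=
  vis (cl C X i) none W

lemma star_tok (H : Hyp S C X t) (W : List L) (i : ι) :
    star C X W i = (vis (glR (cA C X i) (cl' C X i)) none W).map (gtok C i) := by
  have h := vis_map (glR (cA C X i) (cl' C X i)) (gtok C i) (glR_inj H i) W none (by simp)
  rw [← h]
  unfold star
  congr 1
  funext x
  exact cl_tok H i x

lemma star_kcl (H : Hyp S C X t) (W : List L) (i : ι) :
    star C X W i = (vis (S.kcl (t i) (cA C X (C.σ i)) (cl' C X (C.σ i))) none W).map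
      (fun u => C.f.symm (gtok C (C.σ i) u)) := by
  have h := vis_map (S.kcl (t i) (cA C X (C.σ i)) (cl' C X (C.σ i)))
    (fun u => C.f.symm (gtok C (C.σ i) u)) (kcl_inj H i) W none (by simp)
  rw [← h]
  unfold star
  congr 1
  funext x
  exact cl_kcl H i x

lemma star_pt (H : Hyp S C X t) (W : List L) (i : ι) : ∀ g ∈ star C X W i, C.pt g = i := by
  intro g hg
  obtain ⟨x, -, hx⟩ := vis_mem _ _ _ g hg
  exact ((cl_some H i x g).1 hx).1

lemma tok_o (H : Hyp S C X t) (W : List L) (i : ι) :
    ∀ u ∈ vis (glR (cA C X i) (cl' C X i)) none W, gtok C i u = gtok C i none → u = none := by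
  intro u hu h
  obtain ⟨x, -, hx⟩ := vis_mem _ _ _ u hu
  cases u with
  | none => rfl
  | some g =>
    exfalso
    unfold glR at hx
    split_ifs at hx with hxA
    · cases hc : cl' C X i x with
      | none => rw [hc] at hx; simp at hx
      | some g' =>
        rw [hc] at hx
        simp only [Option.map_some, Option.some.injEq] at hx
        subst hx
        exact ((cl'_some H i x g').1 hc).2.1 h
    · simp at hx

lemma count_map' {α β : Type} [BEq α] [LawfulBEq α] [BEq β] [LawfulBEq β] (h : α → β) (a : α) :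
    ∀ l : List α, (∀ u ∈ l, h u = h a → u = a) → (l.map h).count (h a) = l.count a := by
  intro l
  induction l with
  | nil => intro _; rfl
  | cons u l ih =>
    intro hl
    have ih' := ih (fun v hv => hl v (by simp [hv]))
    by_cases hu : u = a
    · subst hu
      rw [List.map_cons, List.count_cons_self, List.count_cons_self, ih']
    · rw [List.map_cons, List.count_cons_of_ne (fun e => hu (hl u (by simp) e)),
        List.count_cons_of_ne hu, ih']

/-- The owners of the blocks. -/
noncomputable def own' (C : Cy.CycData ι G) (X : G → Finset L) (tt : ι → Bool) (o : L)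
    (W : List L) (i : ι) : List Bool := (FB (TA o (cA C X i) W)).map fun q => xor q (tt i)

lemma star_len (H : Hyp S C X t) (tt : ι → Bool) (W : List L) (i : ι) :
    (star C X W i).count (C.o i) < (own' C X tt S.D.o W i).length := by
  rw [star_tok H, own', List.length_map]
  have := count_map' (gtok C i) none _ (tok_o H W i)
  have e : C.o i = gtok C i none := rfl
  rw [e, this]
  exact FB_len S.D.o (cA C X i) (cA_o H i) (cl' C X i) W

lemma empty_not_mem (S : Setup L) : (∅ : Finset L) ∉ S.E := by
  intro h
  have hC := S.full.base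
  have hpath := S.exp.2 ∅ h _ hC
  have key : ∀ n B, S.D.Path S.E n ∅ B → B = ∅ := by
    intro n
    induction n with
    | zero => rintro B ⟨-, rfl⟩; rfl
    | succ n ih =>
      rintro B ⟨C', ⟨-, -, s, hs⟩, h2⟩
      have e : S.D.lp s ∅ = ∅ := by simp [KS.lp]
      rw [e, KS.nm, if_neg (by simp)] at hs
      subst hs
      exact ih B h2
  have := key _ _ hpath
  have h2 : S.D.nxt S.D.o ∈ ({S.D.o}ᶜ : Finset L) := by simp [S.D.nxt_ne]
  rw [this] at h2
  simp at h2

/-- The lift for one node. -/
lemma star_lift (hN : NodeBasics S) (hL : LiftNear S) (H : Hyp S C X t) (tt : ι → Bool)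
    (htt : ∀ i, tt (C.σ i) = t i) (P : List L) (hP : P ∈ S.N 0) (a : Bool) (i : ι) :
    Near 3 (star C X (S.D.sec a P) i)
      ((Cy.own (C.o (C.σ i)) (star C X P (C.σ i)) (own' C X tt S.D.o P (C.σ i)) a).map
        C.f.symm) := by
  set A := cA C X (C.σ i) with hA
  set c := cl' C X (C.σ i) with hc
  have hoA : S.D.o ∉ A := cA_o H _
  have hlpA : (S.D.lp (t i) A).Nonempty := by
    rw [Finset.nonempty_iff_ne_empty]
    intro h0
    have h1 := H.xz i
    have h2 : X (C.z i) = univ := by
      rw [h1]
      have : S.D.lp (t i) (X (C.o (C.σ i)))ᶜ = ∅ := h0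
      rw [this]; simp
    have h3 := H.side (C.z i)
    rw [h2, KS.Side, KS.nm, if_pos (mem_univ _)] at h3
    simp only [compl_univ] at h3
    exact empty_not_mem S h3
  have hclean : S.D.Clean A (t i) P := hN.clean 0 P hP A (cA_mem H _) (t i) hlpA
  have hcs : ∀ b, (cset c b).Nonempty → S.D.Clean (cset c b) (t i) P := by
    rintro g ⟨x, hx⟩
    have hx' : c x = some g := by simpa [cset] using hx
    obtain ⟨h1, h2, h3⟩ := (cl'_some H (C.σ i) x g).1 hx'
    have e : cset c g = X g := by
      ext y
      simp only [cset, mem_filter, mem_univ, true_and]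
      rw [hc, cl'_some H (C.σ i) y g]
      exact ⟨fun h => h.2.2, fun h => ⟨h1, h2, h⟩⟩
    rw [e]
    refine hN.clean 0 P hP (X g) (X_mem H _ g h1 h2) (t i) ?_
    have h4 : C.pt (C.f.symm g) = i := by
      apply sigma_inj C
      rw [← C.pt_f, Equiv.apply_symm_apply, h1]
    have h5 : C.f.symm g ≠ C.z (C.pt (C.f.symm g)) := by
      rw [h4]
      intro e
      have := congrArg C.f e
      rw [Equiv.apply_symm_apply, C.f_z] at this
      exact h2 this
    have h6 := H.xf _ h5
    rw [Equiv.apply_symm_apply, h4] at h6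
    rw [← h6]
    exact H.ne _
  have hn := hL A (t i) c P hoA (by
    intro x hx
    rw [hc, cl', if_neg hx]) hclean hcs a
  obtain ⟨e0, e1, R, h0, h1, h2, h3⟩ := FB_own S.D.o A hoA c (xor a (t i)) P
  rw [h2] at hn
  have hn2 := near_front h0 h1 hn
  rw [← h3] at hn2
  have hn3 := near_map (fun u => C.f.symm (gtok C (C.σ i) u)) hn2
  rw [← star_kcl H] at hn3
  convert hn3 using 1
  have e1 : (fun u => C.f.symm (gtok C (C.σ i) u)) = C.f.symm ∘ gtok C (C.σ i) := rfl
  rw [e1, ← List.map_map, star_tok H, ← own_map none (gtok C (C.σ i)) _ _ _ (tok_o H P (C.σ i)),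
    own', own_xor, htt]
  rfl

lemma chain_map {α β : Type} (f : α → β) (l : List α) (hf : ∀ a ∈ l, ∀ b ∈ l, f a = f b → a = b)
    (h : l.IsChain (· ≠ ·)) : (l.map f).IsChain (· ≠ ·) := by
  induction l with
  | nil => simp
  | cons x l ih =>
    cases l with
    | nil => simp
    | cons y l =>
      rw [List.isChain_cons_cons] at h
      rw [List.map_cons, List.map_cons, List.isChain_cons_cons]
      refine ⟨fun e => h.1 (hf x (by simp) y (by simp) e), ?_⟩
      exact ih (fun a ha b hb => hf a (by simp [ha]) b (by simp [hb])) h.2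

lemma star_topB (hN : NodeBasics S) (H : Hyp S C X t) (tt : ι → Bool) (P : List L)
    (hP : P ∈ S.N 0) : (own' C X tt S.D.o P C.top).IsChain (· ≠ ·) := by
  apply chain_map
  · intro a _ b _ h
    cases a <;> cases b <;> simp_all
  · have hside : S.D.Side S.E {S.D.o} := by
      rw [KS.Side, KS.nm, if_pos (by simp)]
      exact S.full.base
    have hside' : S.D.Side S.E (cA C X C.top) := by
      rw [KS.Side, KS.nm, if_neg (cA_o H _)]
      exact cA_mem H _
    exact FB_chain S.D.o _ (cA_o H _) P (hN.rclean 0 P hP _ S.full.base)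
      (hN.alt 0 P hP _ _ H.m1 hside) (hN.alt 0 P hP _ _ (KS.Mono.symm _ _ H.m1) hside')

/-- The word of two germs. -/
lemma star_pair (hV : VisBasics L) (H : Hyp S C X t) (W : List L) (g g' : G) (hne : g ≠ g')
    (hpt : C.pt g = C.pt g') :
    (star C X W (C.pt g)).filter (fun h => decide (h = g ∨ h = g')) =
      (vis (pc (X g) (X g')) none W).map fun b => if b then g else g' := by
  unfold star
  rw [← hV.filter]
  have h := vis_map (pc (X g) (X g')) (fun b => if b then g else g') (by
    intro x y a b _ _ hab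
    cases a <;> cases b <;> simp_all) W none (by simp)
  rw [← h]
  congr 1
  funext x
  by_cases h1 : x ∈ X g
  · have e1 : cl C X (C.pt g) x = some g := (cl_some H _ x g).2 ⟨rfl, h1⟩
    have e2 : pc (X g) (X g') x = some true := by simp [pc, h1]
    rw [e1, e2]
    simp [Option.filter]
  · by_cases h2 : x ∈ X g'
    · have e1 : cl C X (C.pt g) x = some g' := (cl_some H _ x g').2 ⟨hpt.symm, h2⟩
      have e2 : pc (X g) (X g') x = some false := by simp [pc, h1, h2]
      rw [e1, e2]
      simp [Option.filter]
    · have e2 : pc (X g) (X g') x = none := by simp [pc, h1, h2]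
      rw [e2]
      cases hc : cl C X (C.pt g) x with
      | none => rfl
      | some h' =>
        have h3 := (cl_some H _ x h').1 hc
        have h4 : h' ≠ g := by rintro rfl; exact h1 h3.2
        have h5 : h' ≠ g' := by rintro rfl; exact h2 h3.2
        simp [Option.filter, h4, h5]

lemma star_single (hV : VisBasics L) (H : Hyp S C X t) (W : List L) (g : G) :
    (star C X W (C.pt g)).filter (fun h => decide (h = g)) =
      ((vis (pc (X g) (X g)ᶜ) none W).filter id).map fun _ => g := by
  unfold star
  rw [← hV.filter, ← hV.filter]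
  have h := vis_map (fun x => (pc (X g) (X g)ᶜ x).filter id) (fun _ => g) (by
    intro x y a b ha hb _
    have key : ∀ z c, (pc (X g) (X g)ᶜ z).filter id = some c → c = true := by
      intro z c hz
      rw [Option.filter_eq_some_iff] at hz
      simpa using hz.2
    rw [key x a ha, key y b hb]) W none (by simp)
  rw [← h]
  congr 1
  funext x
  by_cases h1 : x ∈ X g
  · have e1 : cl C X (C.pt g) x = some g := (cl_some H _ x g).2 ⟨rfl, h1⟩
    have e2 : pc (X g) (X g)ᶜ x = some true := by simp [pc, h1]
    rw [e1, e2]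
    simp [Option.filter]
  · have e2 : pc (X g) (X g)ᶜ x = some false := by simp [pc, h1]
    rw [e2]
    cases hc : cl C X (C.pt g) x with
    | none => rfl
    | some h' =>
      have h3 := (cl_some H _ x h').1 hc
      have h4 : h' ≠ g := by rintro rfl; exact h1 h3.2
      simp [Option.filter, h4]

/-- A feature with finitely many values is finite information. -/
lemma det_of {α γ δ : Type} {T : Set (List L)} (Ψ : List L → α) (Φ : List L → γ)
    (η : List L → δ) (hfin : (η '' T).Finite)
    (h : ∀ W ∈ T, ∀ W' ∈ T, Ψ W = Ψ W' → η W = η W' → Φ W = Φ W') : Det T Ψ Φ := by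
  classical
  refine ⟨hfin.toFinset.card + 1, fun W => if hW : η W ∈ hfin.toFinset then
    (hfin.toFinset.equivFin ⟨η W, hW⟩).castSucc else Fin.last _, ?_⟩
  intro W hW W' hW' h1 h2
  have m : η W ∈ hfin.toFinset := by rw [Set.Finite.mem_toFinset]; exact ⟨W, hW, rfl⟩
  have m' : η W' ∈ hfin.toFinset := by rw [Set.Finite.mem_toFinset]; exact ⟨W', hW', rfl⟩
  refine h W hW W' hW' h1 ?_
  simp only [dif_pos m, dif_pos m'] at h2
  have h3 := hfin.toFinset.equivFin.injective (Fin.castSucc_injective _ h2)
  exact congrArg Subtype.val h3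

lemma det_exact {α γ : Type} {T : Set (List L)} (Ψ : List L → α) (Φ : List L → γ)
    (h : ∀ W ∈ T, ∀ W' ∈ T, Ψ W = Ψ W' → Φ W = Φ W') : Det T Ψ Φ :=
  ⟨1, fun _ => 0, fun W hW W' hW' h1 _ => h W hW W' hW' h1⟩

lemma known_secL (hK : KnownCalc S) : ∀ (x : List Bool) {β : Type} (Φ : List L → β),
    S.Known Φ → S.Known fun P => Φ (S.D.secL x P) := by
  intro x
  induction x with
  | nil => intro β Φ h; exact h
  | cons b v ih =>
    intro β Φ h
    exact hK.down (fun Q => Φ (S.D.secL v Q)) b (ih Φ h)

lemma node_secL (hN : NodeBasics S) : ∀ (x : List Bool) (k : ℕ) (P : List L),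
    P ∈ S.N (k + x.length) → S.D.secL x P ∈ S.N k := by
  intro x
  induction x with
  | nil => intro k P h; exact h
  | cons b v ih =>
    intro k P h
    exact ih k _ (hN.kid (k + v.length) P h b)

lemma anti_le (hN : NodeBasics S) {k k' : ℕ} (h : k ≤ k') : S.N k' ⊆ S.N k := by
  induction h with
  | refl => exact subset_rfl
  | step _ ih => exact (hN.anti _).trans ih

/-- The known features of one node. -/
def kap0 (S : Setup L) (C : Cy.CycData ι G) (X : G → Finset L) (W : List L) :=
  ((fun i => vis (pc (cA C X i) {S.D.o}) none W), (fun i => vis (pc (cA C X i) (cA C X i)ᶜ) none W),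
    (fun p : {p : G × G // p.1 ∈ C.K ∧ p.2 ∈ C.K ∧ p.1 ≠ p.2 ∧ C.pt p.1 = C.pt p.2} =>
      vis (pc (X p.1.1) (X p.1.2)) none W),
    vis (pc (X (C.z C.top)) (X (C.o C.top))) none W, fun g => vis (pc (X g) (X g)ᶜ) none W)

lemma kap0_known (hK : KnownCalc S)
    (hM : ∀ X Y, S.D.Mono S.E X Y → S.D.Side S.E X → S.D.Side S.E Y → S.K X Y)
    (H : Hyp S C X t) : S.Known (kap0 S C X) := by
  have hside' : ∀ i, S.D.Side S.E (cA C X i) := by
    intro i
    rw [KS.Side, KS.nm, if_neg (cA_o H _)]
    exact cA_mem H _
  have hcompl : ∀ Y, S.D.Side S.E Y → S.D.Side S.E Yᶜ := by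
    intro Y hY
    unfold KS.Side KS.nm at hY ⊢
    by_cases ho : S.D.o ∈ Y
    · rw [if_pos ho] at hY
      rw [if_neg (by simpa using ho)]
      exact hY
    · rw [if_neg ho] at hY
      rw [if_pos (by simpa using ho), compl_compl]
      exact hY
  unfold kap0
  refine hK.prod _ _ (hK.pi (fun i W => vis (pc (cA C X i) {S.D.o}) none W) fun i => H.kA i) ?_
  refine hK.prod _ _ (hK.pi (fun i W => vis (pc (cA C X i) (cA C X i)ᶜ) none W) fun i => ?_) ?_
  · exact hM _ _ (KS.Mono.triv _ (hside' i)) (hside' i) (hcompl _ (hside' i))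
  refine hK.prod _ _ (hK.pi (fun (p : {p : G × G // p.1 ∈ C.K ∧ p.2 ∈ C.K ∧ p.1 ≠ p.2 ∧
    C.pt p.1 = C.pt p.2}) W => vis (pc (X p.1.1) (X p.1.2)) none W) fun p => ?_) ?_
  · exact H.kK _ p.2.1 _ p.2.2.1 p.2.2.2.1 p.2.2.2.2
  refine hK.prod _ _ (hM _ _ H.m2 (H.side _) (H.side _)) ?_
  refine hK.pi (fun g W => vis (pc (X g) (X g)ᶜ) none W) fun g => ?_
  exact hM _ _ (KS.Mono.triv _ (H.side g)) (H.side g) (hcompl _ (H.side g))

/-- The words restricted to `K`. -/
lemma star_K (hV : VisBasics L) (H : Hyp S C X t) (W W' : List L)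
    (h : kap0 S C X W = kap0 S C X W') (i : ι) :
    Cy.flt C.K (star C X W i) = Cy.flt C.K (star C X W' i) := by
  classical
  unfold kap0 at h
  simp only [Prod.mk.injEq] at h
  obtain ⟨-, -, h3, -, h5⟩ := h
  apply Cy.cy_pairs {g | g ∈ C.K ∧ C.pt g = i}
  · intro g hg
    have := Cy.mem_flt.1 hg
    exact ⟨this.2, star_pt H W i g this.1⟩
  · intro g hg
    have := Cy.mem_flt.1 hg
    exact ⟨this.2, star_pt H W' i g this.1⟩
  · rintro g ⟨hg, rfl⟩ g' ⟨hg', hpt⟩
    have hsub : ({g, g'} : Set G) ⊆ C.K := by
      intro x hx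
      rcases hx with rfl | hx
      · exact hg
      · rw [Set.mem_singleton_iff.1 hx]; exact hg'
    rw [Cy.flt_flt _ _ hsub, Cy.flt_flt _ _ hsub]
    by_cases hne : g = g'
    · subst hne
      have e : ∀ l : List G, Cy.flt {g, g} l = l.filter (fun h => decide (h = g)) := by
        intro l
        unfold Cy.flt
        apply List.filter_congr
        intro x _
        simp
      rw [e, e, star_single hV H, star_single hV H, congrFun h5 g]
    · have e : ∀ l : List G, Cy.flt {g, g'} l = l.filter (fun h => decide (h = g ∨ h = g')) := by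
        intro l
        unfold Cy.flt
        apply List.filter_congr
        intro x _
        simp
      have h6 := congrFun h3 ⟨(g, g'), hg, hg', hne, hpt.symm⟩
      simp only at h6
      rw [e, e, star_pair hV H W g g' hne hpt.symm, star_pair hV H W' g g' hne hpt.symm, h6]

lemma star_topK (hV : VisBasics L) (H : Hyp S C X t) (W : List L) :
    (star C X W C.top).filter (fun h => decide (h = C.z C.top ∨ h = C.o C.top)) =
      (vis (pc (X (C.z C.top)) (X (C.o C.top))) none W).map
        fun b => if b then C.z C.top else C.o C.top := by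
  have h := star_pair hV H W (C.z C.top) (C.o C.top) (fun e => C.o_top e.symm)
    ((C.pt_z _).trans (C.pt_o _).symm)
  rw [C.pt_z] at h
  exact h

lemma star_topW (hN : NodeBasics S) (hV : VisBasics L) (H : Hyp S C X t) (P : List L)
    (hP : P ∈ S.N 0) :
    ((star C X P C.top).filter (fun h => decide (h = C.z C.top ∨ h = C.o C.top))).IsChain
      (· ≠ ·) := by
  rw [star_topK hV H]
  apply chain_map
  · intro a _ b _ h
    have := C.o_top
    cases a <;> cases b <;> simp_all
  · refine hV.alt _ _ P (H.disj _ _ (fun e => C.o_top e.symm) ((C.pt_z _).trans (C.pt_o _).symm))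
      ?_ ?_
    · exact hN.alt 0 P hP _ _ H.m2 (H.side _)
    · exact hN.alt 0 P hP _ _ (KS.Mono.symm _ _ H.m2) (H.side _)

/-- The tokens of the cuts are determined. -/
lemma TA_det (hT : TkDet S) (H : Hyp S C X t) (i : ι) :
    Det (S.N 0) (kap0 S C X) (TA S.D.o (cA C X i)) := by
  obtain ⟨N, ρ, h⟩ := hT (cA C X i) (ind (cA C X i)) (cA_o H i) (by
    intro x hx
    simp [ind, hx])
  refine ⟨N, ρ, ?_⟩
  intro W hW W' hW' h1 h2
  refine h W hW W' hW' ?_ h2
  unfold kap0 at h1
  simp only [Prod.mk.injEq] at h1
  obtain ⟨g1, g2, -, -, -⟩ := h1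
  have e : ∀ W, vis (glR (cA C X i) (ind (cA C X i))) none W =
      (vis (pc (cA C X i) (cA C X i)ᶜ) none W).map fun b => if b then some () else none := by
    intro W
    have h := vis_map (pc (cA C X i) (cA C X i)ᶜ) (fun b => if b then some () else none) (by
      intro x y a b _ _ hab
      cases a <;> cases b <;> simp_all) W none (by simp)
    rw [← h]
    simp only [Option.map_none]
    congr 1
    funext x
    by_cases hx : x ∈ cA C X i <;> simp [glR, ind, pc, hx]
  simp only [Prod.mk.injEq]
  refine ⟨?_, congrFun g1 i⟩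
  rw [e, e, congrFun g2 i]

lemma runs_empty (W : List L) : runs ∅ W = 0 := by
  have : ∀ p, runsAux ∅ p W = 0 := by
    induction W with
    | nil => intro p; rfl
    | cons x W ih => intro p; rw [runsAux, if_neg (by simp)]; exact ih _
  exact this _

lemma star_bound (hN : NodeBasics S) (hV : VisBasics L) (H : Hyp S C X t) :
    ∃ B : ℕ, ∀ n, (star C X '' {W | W ∈ S.N 0 ∧ S.D.size W ≤ n}).Finite ∧
      (star C X '' {W | W ∈ S.N 0 ∧ S.D.size W ≤ n}).ncard ≤ B ^ (n + 1) := by
  obtain ⟨c, hc⟩ := hN.tight
  refine ⟨(Fintype.card G + 1) ^ (Fintype.card G * (c + 1) * Fintype.card ι), fun n => ?_⟩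
  set ℓ := Fintype.card G * (n + c + 1) with hℓ
  have hlen : ∀ s ∈ star C X '' {W | W ∈ S.N 0 ∧ S.D.size W ≤ n}, ∀ i, (s i).length ≤ ℓ := by
    rintro s ⟨W, ⟨hW, hn⟩, rfl⟩ i
    have h1 := hV.length (cl C X i) W
    have h2 : ∀ g, runs (cset (cl C X i) g) W ≤ n + c + 1 := by
      intro g
      by_cases hg : C.pt g = i
      · have e : cset (cl C X i) g = X g := by
          ext x
          simp only [cset, mem_filter, mem_univ, true_and, cl_some H]
          exact ⟨fun h => h.2, fun h => ⟨hg, h⟩⟩
        rw [e]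
        have h3 := hc W hW W (List.infix_refl W) _ (H.side g) _ S.full.base
        have h4 : runs (X g) W ≤ runs (S.D.nm (X g)) W + 1 := by
          unfold KS.nm
          split_ifs
          · have := (b1p L).runs_compl (X g)ᶜ W
            rwa [compl_compl] at this
          · omega
        unfold KS.size at hn
        omega
      · have e : cset (cl C X i) g = ∅ := by
          ext x
          simp only [cset, mem_filter, mem_univ, true_and, cl_some H, notMem_empty, iff_false]
          exact fun h => hg h.1
        rw [e, runs_empty]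
        omega
    unfold star
    rw [h1]
    refine (Finset.sum_le_sum fun g _ => h2 g).trans ?_
    simp [hℓ, Finset.card_univ]
  let F : (ι → List G) → (ι → Fin ℓ → Option G) := fun s i k => (s i)[k.1]?
  have hinj : Set.InjOn F (star C X '' {W | W ∈ S.N 0 ∧ S.D.size W ≤ n}) := by
    intro s hs s' hs' h
    funext i
    apply List.ext_getElem?
    intro k
    by_cases hk : k < ℓ
    · exact congrFun (congrFun h i) ⟨k, hk⟩
    · rw [List.getElem?_eq_none ((hlen s hs i).trans (by omega)),
        List.getElem?_eq_none ((hlen s' hs' i).trans (by omega))]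
  refine ⟨Set.Finite.of_injOn (Set.mapsTo_univ _ _) hinj Set.finite_univ, ?_⟩
  have h1 := Set.ncard_le_ncard_of_injOn F (fun a _ => Set.mem_univ _) hinj Set.finite_univ
  refine h1.trans ?_
  rw [Set.ncard_univ, Nat.card_eq_fintype_card]
  simp only [Fintype.card_fun, Fintype.card_option, Fintype.card_fin]
  rw [← pow_mul, ← pow_mul]
  apply Nat.pow_le_pow_right (by omega)
  rw [hℓ]
  have : n + c + 1 ≤ (c + 1) * (n + 1) := by nlinarith
  calc Fintype.card G * (n + c + 1) * Fintype.card ι
      ≤ Fintype.card G * ((c + 1) * (n + 1)) * Fintype.card ι :=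
        Nat.mul_le_mul_right _ (Nat.mul_le_mul_left _ this)
    _ = Fintype.card G * (c + 1) * Fintype.card ι * (n + 1) := by ring

/-- The garbage at the ends. -/
def IsGar (a b : List G) (v : List G × List G × List G × List G) : Prop :=
  (∃ m, a = v.1 ++ m ++ v.2.1 ∧ b = v.2.2.1 ++ m ++ v.2.2.2) ∧
    v.1.length ≤ 3 ∧ v.2.1.length ≤ 3 ∧ v.2.2.1.length ≤ 3 ∧ v.2.2.2.length ≤ 3

open Classical in
/-- A choice of the garbage. -/
noncomputable def garOf (a b : List G) : List G × List G × List G × List G :=
  if h : ∃ v, IsGar a b v then h.choose else ([], [], [], [])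

omit [Fintype G] [DecidableEq G] in
lemma garOf_len (a b : List G) : (garOf a b).1.length ≤ 3 ∧ (garOf a b).2.1.length ≤ 3 ∧
    (garOf a b).2.2.1.length ≤ 3 ∧ (garOf a b).2.2.2.length ≤ 3 := by
  unfold garOf
  split_ifs with h
  · exact h.choose_spec.2
  · simp

omit [Fintype G] [DecidableEq G] in
lemma garOf_spec (a b : List G) (h : Near 3 b a) : ∃ m, a = (garOf a b).1 ++ m ++ (garOf a b).2.1 ∧
    b = (garOf a b).2.2.1 ++ m ++ (garOf a b).2.2.2 := by
  have h' : ∃ v, IsGar a b v := by
    obtain ⟨x, y, x', y', m, h1, h2, g1, g2, g3, g4⟩ := h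
    exact ⟨(x', y', x, y), ⟨m, h2, h1⟩, g3, g4, g1, g2⟩
  unfold garOf
  rw [dif_pos h']
  exact h'.choose_spec.1

/-- The garbage of a node. -/
noncomputable def nodeGar (S : Setup L) (C : Cy.CycData ι G) (X : G → Finset L) (tt : ι → Bool)
    (P : List L) (x : List Bool) (c : Bool) (i : ι) : List G × List G × List G × List G :=
  garOf ((Cy.own (C.o (C.σ i)) (star C X (S.D.secL x P) (C.σ i))
    (own' C X tt S.D.o (S.D.secL x P) (C.σ i)) c).map C.f.symm)
    (star C X (S.D.sec c (S.D.secL x P)) i)

/-- The family of words of a node. -/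
noncomputable def famW (S : Setup L) (C : Cy.CycData ι G) (X : G → Finset L) (r : ℕ)
    (P : List L) (x : List Bool) (i : ι) : List G :=
  if x.length ≤ r then star C X (S.D.secL x P) i else []

/-- The family of owners. -/
noncomputable def famB (S : Setup L) (C : Cy.CycData ι G) (X : G → Finset L) (tt : ι → Bool)
    (r : ℕ) (P : List L) (x : List Bool) (i : ι) : List Bool :=
  if x.length ≤ r then own' C X tt S.D.o (S.D.secL x P) i else [true]

lemma fam_ok (hN : NodeBasics S) (hV : VisBasics L) (hL : LiftNear S) (H : Hyp S C X t)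
    (tt : ι → Bool) (htt : ∀ i, tt (C.σ i) = t i) (r : ℕ) (P : List L) (hP : P ∈ S.N r)
    (gar : List Bool → Bool → ι → List G × List G × List G × List G)
    (B : List Bool → ι → List Bool)
    (hgar : ∀ x c i, x.length < r → gar x c i = nodeGar S C X tt P x c i)
    (hB : ∀ x i, B x i = famB S C X tt r P x i) : Cy.Fam2 C r gar (famW S C X r P) B := by
  have hnode : ∀ x : List Bool, x.length ≤ r → S.D.secL x P ∈ S.N 0 := by
    intro x hx
    exact node_secL hN x 0 P (anti_le hN (by omega) hP)
  refine ⟨?_, ?_, ?_, ?_, ?_⟩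
  · intro x i g hg
    unfold famW at hg
    split_ifs at hg
    · exact star_pt H _ i g hg
    · simp at hg
  · intro x i
    rw [hB, famW, famB]
    split_ifs
    · exact star_len H tt _ i
    · simp
  · intro x c i hx
    rw [hgar x c i hx, hB, famW, famW, famB, if_pos hx.le, if_pos hx.le, if_pos (by simp; omega),
      PN1Aux.secL_snoc]
    exact garOf_spec _ _ (star_lift hN hL H tt htt _ (hnode x hx.le) c i)
  · intro x
    rw [hB, famB]
    split_ifs with h
    · exact star_topB hN H tt _ (hnode x h)
    · exact List.isChain_singleton _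
  · intro x
    have e : (famW S C X r P x C.top) =
        if x.length ≤ r then star C X (S.D.secL x P) C.top else [] := rfl
    rw [e]
    split_ifs with h
    · exact star_topW hN hV H _ (hnode x h)
    · simp

/-- The star words of the cycle are known. -/
theorem star_known (hN : NodeBasics S) (hK : KnownCalc S) (hO : Omit S) (hV : VisBasics L)
    (hL : LiftNear S) (hT : TkDet S)
    (hM : ∀ X Y, S.D.Mono S.E X Y → S.D.Side S.E X → S.D.Side S.E Y → S.K X Y)
    (H : Hyp S C X t) : S.Known (star C X) := by
  classical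
  obtain ⟨d0, hd0⟩ := Cy.cycleLemma2 C
  set r := d0 + 1 with hr
  -- the side of the preimage
  let tt : ι → Bool := fun j => t (Function.surjInv C.surj j)
  have htt : ∀ i, tt (C.σ i) = t i := by
    intro i
    show t (Function.surjInv C.surj (C.σ i)) = t i
    rw [sigma_inj C (Function.surjInv_eq C.surj (C.σ i))]
  have hdet := fun i => TA_det hT H i
  choose Nn ρ hρ using hdet
  obtain ⟨B0, hB0⟩ := star_bound hN hV H
  have hkap := kap0_known hK hM H
  have hfinx : Finite {x : List Bool // x.length ≤ r} := by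
    have := List.finite_length_le Bool r
    exact this.to_subtype
  have hfinx' : Finite {x : List Bool // x.length < r} := by
    have := List.finite_length_lt Bool r
    exact this.to_subtype
  refine hO (fun P => fun x : {x : List Bool // x.length ≤ r} => kap0 S C X (S.D.secL x.1 P))
    (star C X) r B0 (by omega)
    (hK.pi (fun (x : {x : List Bool // x.length ≤ r}) P => kap0 S C X (S.D.secL x.1 P))
      fun x => known_secL hK x.1 _ hkap) hB0 ⟨r, ?_⟩
  -- finite information
  let η : List L → (({x : List Bool // x.length < r} → Bool → ι →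
      List G × List G × List G × List G) ×
      ((x : {x : List Bool // x.length ≤ r}) → (i : ι) → Fin (Nn i))) := fun P =>
    (fun x c i => nodeGar S C X tt P x.1 c i, fun x i => ρ i (S.D.secL x.1 P))
  refine det_of _ _ η ?_ ?_
  · have h3 : {l : List G | l.length ≤ 3}.Finite := List.finite_length_le G 3
    have h4 : {v : List G × List G × List G × List G | v.1.length ≤ 3 ∧ v.2.1.length ≤ 3 ∧
        v.2.2.1.length ≤ 3 ∧ v.2.2.2.length ≤ 3}.Finite := by
      refine (h3.prod (h3.prod (h3.prod h3))).subset ?_
      rintro v ⟨a, b, c, d⟩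
      exact ⟨a, b, c, d⟩
    have h5 : {f : {x : List Bool // x.length < r} → Bool → ι →
        List G × List G × List G × List G | ∀ x c i, (f x c i).1.length ≤ 3 ∧
        (f x c i).2.1.length ≤ 3 ∧ (f x c i).2.2.1.length ≤ 3 ∧
        (f x c i).2.2.2.length ≤ 3}.Finite := by
      have := Set.Finite.pi' (fun _ : {x : List Bool // x.length < r} =>
        Set.Finite.pi' (fun _ : Bool => Set.Finite.pi' (fun _ : ι => h4)))
      exact this
    have h6 : (Set.univ : Set ((x : {x : List Bool // x.length ≤ r}) → (i : ι) →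
        Fin (Nn i))).Finite := Set.finite_univ
    refine (h5.prod h6).subset ?_
    rintro v ⟨P, -, rfl⟩
    exact ⟨fun x c i => garOf_len _ _, Set.mem_univ _⟩
  · intro P hP P' hP' h1 h2
    simp only [Prod.mk.injEq] at h1
    obtain ⟨hk, hd⟩ := h1
    have hk : ∀ x : List Bool, x.length ≤ r → kap0 S C X (S.D.secL x P) =
        kap0 S C X (S.D.secL x P') := fun x hx => congrFun hk ⟨x, hx⟩
    have hη := Prod.mk.inj h2
    have hg : ∀ (x : List Bool) c i, x.length < r → nodeGar S C X tt P x c i =
        nodeGar S C X tt P' x c i := fun x c i hx =>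
      congrFun (congrFun (congrFun hη.1 ⟨x, hx⟩) c) i
    have hρ' : ∀ (x : List Bool) i, x.length ≤ r → ρ i (S.D.secL x P) =
        ρ i (S.D.secL x P') := fun x i hx => congrFun (congrFun hη.2 ⟨x, hx⟩) i
    have hnode : ∀ Q ∈ S.N r, ∀ x : List Bool, x.length ≤ r → S.D.secL x Q ∈ S.N 0 := by
      intro Q hQ x hx
      exact node_secL hN x 0 Q (anti_le hN (by omega) hQ)
    have hTA : ∀ (x : List Bool) i, x.length ≤ r → TA S.D.o (cA C X i) (S.D.secL x P) =
        TA S.D.o (cA C X i) (S.D.secL x P') := fun x i hx =>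
      hρ i _ (hnode P hP x hx) _ (hnode P' hP' x hx) (hk x hx) (hρ' x i hx)
    have F1 := fam_ok hN hV hL H tt htt r P hP (nodeGar S C X tt P) (famB S C X tt r P)
      (fun x c i _ => rfl) (fun x i => rfl)
    have F2 := fam_ok hN hV hL H tt htt r P' hP' (nodeGar S C X tt P) (famB S C X tt r P)
      (fun x c i hx => hg x c i hx) (fun x i => by
        unfold famB
        split_ifs with h
        · rw [own', own', hTA x i h]
        · rfl)
    have key := hd0 r (by omega) (nodeGar S C X tt P) (famW S C X r P) (famW S C X r P')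
      (famB S C X tt r P) F1 F2 (by
        intro x i hx _
        unfold famW
        rw [if_pos hx, if_pos hx]
        exact star_K hV H _ _ (hk x hx) i) (by
        intro x hx
        have e1 : famW S C X r P x C.top = star C X (S.D.secL x P) C.top := by
          unfold famW; rw [if_pos hx]
        have e2 : famW S C X r P' x C.top = star C X (S.D.secL x P') C.top := by
          unfold famW; rw [if_pos hx]
        rw [e1, e2]
        have h := hk x hx
        have h3 : vis (pc (X (C.z C.top)) (X (C.o C.top))) none (S.D.secL x P) =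
            vis (pc (X (C.z C.top)) (X (C.o C.top))) none (S.D.secL x P') := by
          unfold kap0 at h
          simp only [Prod.mk.injEq] at h
          exact h.2.2.2.1
        have h4 := star_topK hV H (S.D.secL x P)
        have h5 := star_topK hV H (S.D.secL x P')
        rw [h3] at h4
        have h6 := h4.trans h5.symm
        convert h6 using 2) (List.replicate r false) (List.length_replicate ..) (by
        intro x hx hne
        funext i
        unfold famW
        rw [if_pos hx.le, if_pos hx.le]
        exact congrFun (congrFun hd ⟨x, hx, hne⟩) i)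
    -- all nodes of depth `r`
    have hall : ∀ x : List Bool, x.length = r → famW S C X r P x = famW S C X r P' x := by
      intro x hx
      by_cases hne : x = List.replicate r false
      · rw [hne]; exact key
      · funext i
        unfold famW
        rw [if_pos hx.le, if_pos hx.le]
        exact congrFun (congrFun hd ⟨x, hx, hne⟩) i
    have hup : ∀ k : ℕ, ∀ x : List Bool, x.length + k = r →
        famW S C X r P x = famW S C X r P' x := by
      intro k
      induction k with
      | zero => intro x hx; exact hall x (by omega)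
      | succ k ih =>
        intro x hx
        have hch : ∀ c, famW S C X r P (x ++ [c]) = famW S C X r P' (x ++ [c]) := by
          intro c
          apply ih
          simp; omega
        funext i'
        obtain ⟨i, rfl⟩ := C.surj i'
        apply Cy.cy_merge (C.o (C.σ i)) _ _ (famB S C X tt r P x (C.σ i)) ?_ (F1.len _ _)
          (F2.len _ _)
        intro c
        exact Cy.G2.own_of F1 F2 x c i (by omega) (congrFun (hch c) i)
    have h0 := hup r [] (by simp)
    have e : ∀ Q, famW S C X r Q [] = star C X Q := by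
      intro Q
      funext i
      unfold famW
      rw [if_pos (by simp)]
      rfl
    rw [e, e] at h0
    exact h0

end setup

end PRcAux

open PRcAux in
/-- PRc, the rule `cycle` of `PairRules`. -/
theorem prc {L : Type} [Fintype L] [DecidableEq L] (S : Setup L) (hN : NodeBasics S)
    (hK : KnownCalc S) (hO : Omit S) (hV : VisBasics L) (hL : LiftNear S) (hT : TkDet S)
    (hM : ∀ X Y, S.D.Mono S.E X Y → S.D.Side S.E X → S.D.Side S.E Y → S.K X Y)
    {ι G : Type} [Fintype ι] [Fintype G] [DecidableEq ι] [DecidableEq G]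
    (C : Cy.CycData ι G) (X : G → Finset L) (t : ι → Bool)
    (h1 : ∀ g g', g ≠ g' → C.pt g = C.pt g' → Disjoint (X g) (X g'))
    (h2 : ∀ g, (X g).Nonempty) (h3 : ∀ g, S.D.Side S.E (X g)) (h4 : ∀ i, S.D.o ∈ X (C.o i))
    (h5 : ∀ g, g ≠ C.z (C.pt g) → X g = S.D.lp (t (C.pt g)) (X (C.f g)))
    (h6 : ∀ i, X (C.z i) = (S.D.lp (t i) (X (C.o (C.σ i)))ᶜ)ᶜ)
    (h7 : ∀ i, S.K (X (C.o i))ᶜ {S.D.o})
    (h8 : S.D.Mono S.E {S.D.o} (X (C.o C.top))ᶜ)
    (h9 : S.D.Mono S.E (X (C.z C.top)) (X (C.o C.top)))
    (h10 : ∀ g ∈ C.K, ∀ g' ∈ C.K, g ≠ g' → C.pt g = C.pt g' → S.K (X g) (X g')) :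
    ∀ g g', g ≠ g' → C.pt g = C.pt g' → S.K (X g) (X g') := by
  intro g g' hne hpt
  have H : Hyp S C X t := ⟨h1, h2, h3, h4, h5, h6, h7, h8, h9, h10⟩
  have hk := star_known hN hK hO hV hL hT hM H
  refine hK.det (star C X) _ hk ⟨0, det_exact _ _ ?_⟩
  intro W _ W' _ h
  have e := star_pair hV H W g g' hne hpt
  have e' := star_pair hV H W' g g' hne hpt
  rw [h] at e
  have e2 := e.symm.trans e'
  have hinj : Function.Injective (fun b : Bool => if b then g else g') := by
    intro a b hab
    cases a <;> cases b <;> simp_all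
  exact List.map_injective_iff.2 hinj e2

end R4
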