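import Pool.Agent.Work.MP_e3f5d9_al.MK0
import Pool.Agent.Work.MP_e3f5d9_al.B1
import Pool.Agent.Work.MP_e3f5d9_al.PRl
import Pool.Agent.Work.MP_e3f5d9_al.PRc

/-!
# MK12: the marks of the periodic centres, and down the orbit
-/

set_option autoImplicit false
set_option linter.unusedSectionVars false

open Finset

namespace R4.Mk

open R4

namespace MK12

variable {L : Type} [Fintype L] [DecidableEq L]

/-- The visits and the marks of the child from the visits, the marks and the owners. -/
def go (D : KS L) (i : L) (a : Bool) : Bool → Bool → List (Finset L × Bool) →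
    List (Finset L × List Bool) → List (Finset L × Bool)
  | c, n, (Z, m) :: M, (_, w) :: O =>
    if w = [a] then
      (if (stp D i Z).Nonempty then (stp D i Z, xor c (xor m n)) :: go D i a (xor c (xor m n)) m M O
        else go D i a (xor c (xor m n)) m M O)
    else go D i a c m M O
  | _, _, _, _ => []

lemma stand (D : KS L) (u : List L) (a t : Bool) :
    D.ev u.reverse [t] = [a] ↔ D.ev u [a] = [t] := by
  constructor
  · intro h
    have := (b1 D).ev_reverse u.reverse [t]
    rw [List.reverse_reverse, h] at this
    exact this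
  · intro h
    have := (b1 D).ev_reverse u [a]
    rw [h] at this
    exact this

lemma ev_one (D : KS L) (u : List L) (a : Bool) :
    D.ev u [a] = [xor a (decide (Odd (u.count D.o)))] := by
  rw [(b1 D).ev_cons]
  congr 1
  exact List.length_eq_zero_iff.1 (by rw [(b1 D).ev_length]; rfl)

end MK12

open MK12 in
/-- MK12b. -/
theorem mk12_down {L : Type} [Fintype L] [DecidableEq L] (S : Setup L)
    (hK : KnownCalc S) (hC : Cnt S.D S.E) (hL : LiftStep S) (hO : Own S) : MkDown S := by
  classical
  intro hall i hi h
  have h1 : S.Known fun P => (mk S.E (S.D.nxt i) P, own S.D S.E i 1 P) :=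
    hK.prod _ _ h (hO hall i hi 1)
  refine hK.kid _ _ h1 ⟨0, fun a => ?_⟩
  refine LiftAux.det_near (S.N 0) _ _ (fun p => go S.D i a false false p.1 p.2) 2 fun P hP => ?_
  have h2 := hL i hi P hP a
  have h3 := PRcAux.near_map (fun z : Finset L × List L => (z.1, decide (Odd (z.2.count i)))) h2
  change Near 2 (mk S.E i (S.D.sec a P)) _ at h3
  refine Eq.mp ?_ h3
  congr 1
  set V := visp (st S.E (S.D.nxt i)) none [] P with hV
  have key : ∀ (R V1 : List (Finset L × List L)) (c n : Bool), V = V1 ++ R →
      ((V1 = [] ∧ c = false ∧ n = false) ∨ ∃ V2 y, V1 = V2 ++ [y] ∧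
        c = decide (Odd ((S.D.sec a y.2).count i)) ∧ n = decide (Odd (y.2.count (S.D.nxt i)))) →
      (R.filterMap fun z => if xor a (decide (Odd (z.2.count S.D.o))) = S.D.side i ∧
        (stp S.D i z.1).Nonempty then some (stp S.D i z.1, S.D.sec a z.2) else none).map
        (fun z => (z.1, decide (Odd (z.2.count i)))) =
      go S.D i a c n (R.map fun z => (z.1, decide (Odd (z.2.count (S.D.nxt i)))))
        (R.map fun z => (z.1, S.D.ev z.2.reverse (adr S.D i 1))) := by
    intro R
    induction R with
    | nil => intro V1 c n _ _; rfl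
    | cons z R ih =>
      intro V1 c n hVR hcn
      have hadr : adr S.D i 1 = [S.D.side i] := rfl
      have hcond : S.D.ev z.2 [a] = adr S.D i 1 ↔
          xor a (decide (Odd (z.2.count S.D.o))) = S.D.side i := by
        rw [ev_one, hadr, List.cons.injEq]
        simp
      have hw : S.D.ev z.2.reverse (adr S.D i 1) = [a] ↔
          xor a (decide (Odd (z.2.count S.D.o))) = S.D.side i := by
        rw [hadr, stand, ← hcond, hadr]
      have hc' : decide (Odd ((S.D.sec a z.2).count i)) =
          if xor a (decide (Odd (z.2.count S.D.o))) = S.D.side i then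
            xor c (xor (decide (Odd (z.2.count (S.D.nxt i)))) n) else c := by
        rcases hcn with ⟨rfl, rfl, rfl⟩ | ⟨V2, y, rfl, rfl, rfl⟩
        · have e := hC.first i [a] P z R hVR
          have e' : (S.D.sec a z.2).count i =
            if S.D.ev z.2 [a] = adr S.D i 1 then z.2.count (S.D.nxt i) else 0 := e
          rw [e']
          by_cases hx : xor a (decide (Odd (z.2.count S.D.o))) = S.D.side i
          · rw [if_pos (hcond.2 hx), if_pos hx]; simp
          · rw [if_neg (fun h => hx (hcond.1 h)), if_neg hx]; simp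
        · have hVR' : visp (st S.E (S.D.nxt i)) none [] P = V2 ++ y :: z :: R := by
            rw [← hV, hVR]; simp
          have e := hC.next i [a] P y z V2 R hVR'
          have e' : (S.D.sec a z.2).count i +
              (if S.D.ev z.2 [a] = adr S.D i 1 then y.2.count (S.D.nxt i) else 0) =
              (S.D.sec a y.2).count i +
              (if S.D.ev z.2 [a] = adr S.D i 1 then z.2.count (S.D.nxt i) else 0) := e
          by_cases hx : xor a (decide (Odd (z.2.count S.D.o))) = S.D.side i
          · rw [if_pos (hcond.2 hx), if_pos (hcond.2 hx)] at e'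
            rw [if_pos hx]
            have e2 : (Odd ((S.D.sec a z.2).count i) ↔ (Odd ((S.D.sec a y.2).count i) ↔
                (Odd (z.2.count (S.D.nxt i)) ↔ Odd (y.2.count (S.D.nxt i))))) := by
              simp only [Nat.odd_iff]
              omega
            by_cases g1 : Odd ((S.D.sec a y.2).count i) <;>
              by_cases g2 : Odd (z.2.count (S.D.nxt i)) <;>
              by_cases g3 : Odd (y.2.count (S.D.nxt i)) <;>
              simp [g1, g2, g3] at e2 ⊢ <;> exact e2
          · rw [if_neg (fun h => hx (hcond.1 h)), if_neg (fun h => hx (hcond.1 h))] at e'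
            rw [if_neg hx]
            congr 2
      have ih' := ih (V1 ++ [z]) (decide (Odd ((S.D.sec a z.2).count i)))
        (decide (Odd (z.2.count (S.D.nxt i)))) (by rw [hVR]; simp)
        (Or.inr ⟨V1, z, rfl, rfl, rfl⟩)
      rw [List.map_cons, List.map_cons, go]
      by_cases hx : xor a (decide (Odd (z.2.count S.D.o))) = S.D.side i
      · rw [if_pos (hw.2 hx)]
        rw [if_pos hx] at hc'
        by_cases hne : (stp S.D i z.1).Nonempty
        · rw [if_pos hne, List.filterMap_cons, if_pos ⟨hx, hne⟩, ← hc', ← ih']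
          rfl
        · rw [if_neg hne, List.filterMap_cons, if_neg (fun h => hne h.2), ← hc', ← ih']
      · rw [if_neg (fun h => hx (hw.1 h))]
        rw [if_neg hx] at hc'
        rw [List.filterMap_cons, if_neg (fun h => hx h.1)]
        rw [hc'] at ih'
        exact ih'
  exact key V [] false false rfl (Or.inl ⟨rfl, rfl, rfl⟩)

namespace MK12

variable {L : Type} [Fintype L] [DecidableEq L]

/-- The number of marked words of visits of nodes of bounded size. -/
lemma mk_bound (S : Setup L) (hN : NodeBasics S) (hV : VisBasics L) (hVp : VispBasics L)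
    (hB : StarBasics S.D S.E) (z : L) :
    ∃ B : ℕ, ∀ n, (mk S.E z '' {W | W ∈ S.N 0 ∧ S.D.size W ≤ n}).Finite ∧
      (mk S.E z '' {W | W ∈ S.N 0 ∧ S.D.size W ≤ n}).ncard ≤ B ^ (n + 1) := by
  classical
  obtain ⟨c, hc⟩ := hN.tight
  set G := Finset L with hG
  refine ⟨(Fintype.card (G × Bool) + 1) ^ (Fintype.card G * (c + 1)), fun n => ?_⟩
  set ℓ := Fintype.card G * (n + c + 1) with hℓ
  have hlen : ∀ s ∈ mk S.E z '' {W | W ∈ S.N 0 ∧ S.D.size W ≤ n}, s.length ≤ ℓ := by
    rintro s ⟨W, ⟨hW, hn⟩, rfl⟩
    have h1 := hV.length (st S.E z) W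
    have h0 : (mk S.E z W).length = (vis (st S.E z) none W).length := by
      rw [← hVp.fst (st S.E z) none [] W, List.length_map, mk, List.length_map]
    have h2 : ∀ g, runs (cset (st S.E z) g) W ≤ n + c + 1 := by
      intro g
      by_cases hg : ∃ x, x ≠ z ∧ cl S.E z x = g
      · obtain ⟨x, hx, rfl⟩ := hg
        have e : cset (st S.E z) (cl S.E z x) = cl S.E z x := by
          ext y
          simp only [cset, mem_filter, mem_univ, true_and, st]
          constructor
          · intro h
            split_ifs at h with h3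
            rw [Option.some.injEq] at h
            have := (hB.self z y h3).1
            rwa [h] at this
          · intro h
            have h3 : y ≠ z := by
              rintro rfl
              exact (hB.self y x hx).2 h
            rw [if_neg h3, hB.eqv z x y hx h]
        rw [e]
        have h3 := hc W hW W (List.infix_refl W) _ (hB.side z x hx) _ S.full.base
        have h4 : runs (cl S.E z x) W ≤ runs (S.D.nm (cl S.E z x)) W + 1 := by
          unfold KS.nm
          split_ifs
          · have := (b1p L).runs_compl (cl S.E z x)ᶜ W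
            rwa [compl_compl] at this
          · omega
        unfold KS.size at hn
        omega
      · have e : cset (st S.E z) g = ∅ := by
          ext y
          simp only [cset, mem_filter, mem_univ, true_and, st, notMem_empty, iff_false]
          intro h
          split_ifs at h with h3
          rw [Option.some.injEq] at h
          exact hg ⟨y, h3, h⟩
        rw [e, PRcAux.runs_empty]
        omega
    rw [h0, h1]
    refine (Finset.sum_le_sum fun g _ => h2 g).trans ?_
    rw [Finset.sum_const, Finset.card_univ, smul_eq_mul]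
  let F : List (G × Bool) → (Fin ℓ → Option (G × Bool)) := fun s k => s[k.1]?
  have hinj : Set.InjOn F (mk S.E z '' {W | W ∈ S.N 0 ∧ S.D.size W ≤ n}) := by
    intro s hs s' hs' h
    apply List.ext_getElem?
    intro k
    by_cases hk : k < ℓ
    · exact congrFun h ⟨k, hk⟩
    · rw [List.getElem?_eq_none ((hlen s hs).trans (by omega)),
        List.getElem?_eq_none ((hlen s' hs').trans (by omega))]
  refine ⟨Set.Finite.of_injOn (Set.mapsTo_univ _ _) hinj Set.finite_univ, ?_⟩
  have h1 := Set.ncard_le_ncard_of_injOn F (fun a _ => Set.mem_univ _) hinj Set.finite_univ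
  refine h1.trans ?_
  rw [Set.ncard_univ, Nat.card_eq_fintype_card, Fintype.card_fun, Fintype.card_option,
    Fintype.card_fin, ← pow_mul]
  apply Nat.pow_le_pow_right (by omega)
  rw [hℓ]
  have : n + c + 1 ≤ (c + 1) * (n + 1) := by nlinarith
  calc Fintype.card G * (n + c + 1) ≤ Fintype.card G * ((c + 1) * (n + 1)) :=
        Nat.mul_le_mul_left _ this
    _ = Fintype.card G * (c + 1) * (n + 1) := by ring

lemma ctr_iter {D : KS L} {E : Finset (Finset L)} (hB : StarBasics D E) {i : L}
    (hi : Ctr D E i) : ∀ n, Ctr D E (D.nxt^[n] i) := by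
  intro n
  induction n with
  | zero => exact hi
  | succ n ih =>
    rw [Function.iterate_succ_apply']
    exact hB.nxt _ ih

end MK12

open MK12 in
/-- MK12a. -/
theorem mk12_per {L : Type} [Fintype L] [DecidableEq L] (S : Setup L) (hN : NodeBasics S)
    (hK : KnownCalc S) (hV : VisBasics L) (hVp : VispBasics L) (hB : StarBasics S.D S.E)
    (hOm : Omit S) (hO : Own S) (hD : MkDet S) : MkPer S := by
  intro hall c s n hc hc' hn hper
  obtain ⟨d, hd, hdd, hk⟩ := hD c s n hc hc' hn hper
  obtain ⟨B, hBd⟩ := mk_bound S hN hV hVp hB (S.D.nxt^[s] (S.D.nxt c))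
  exact hOm _ _ d B hd
    (hK.prod _ _ (hO hall _ (ctr_iter hB hc' s) d) (hO hall _ hc' s)) hBd hk

open MK12 in
/-- MK12c. -/
theorem mk12_all {L : Type} [Fintype L] [DecidableEq L] (S : Setup L)
    (hB : StarBasics S.D S.E) (hP : MkPer S) (hM : MkDown S) : MkAll S := by
  classical
  intro ho hall i hi
  obtain ⟨n, hn⟩ := ho i
  have h0 : ¬ Ctr S.D S.E (S.D.nxt^[0] S.D.o) := fun h => h.1 rfl
  -- the last letter before `i` that is not a centre
  obtain ⟨k, hkn, hk, hk'⟩ : ∃ k, k < n ∧ ¬ Ctr S.D S.E (S.D.nxt^[k] S.D.o) ∧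
      Ctr S.D S.E (S.D.nxt^[k + 1] S.D.o) := by
    have h1 : ∃ m, Ctr S.D S.E (S.D.nxt^[m] S.D.o) := ⟨n, by rw [hn]; exact hi⟩
    have h2 := Nat.find_spec h1
    have h3 := fun m (hm : m < Nat.find h1) => Nat.find_min h1 hm
    have h4 : Nat.find h1 ≤ n := Nat.find_min' h1 (by rw [hn]; exact hi)
    have h5 : Nat.find h1 ≠ 0 := by
      intro h5
      rw [h5] at h2
      exact h0 h2
    refine ⟨Nat.find h1 - 1, by omega, h3 _ (by omega), ?_⟩
    rwa [Nat.sub_add_cancel (by omega)]
  set c := S.D.nxt^[k] S.D.o with hc
  rw [Function.iterate_succ_apply', ← hc] at hk'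
  have hi' : i = S.D.nxt^[n - (k + 1)] (S.D.nxt c) := by
    rw [← hn, hc, ← Function.iterate_succ_apply' S.D.nxt, ← Function.iterate_add_apply]
    congr 1
    omega
  -- periodicity
  obtain ⟨a, b, hab, he⟩ : ∃ a b : ℕ, a < b ∧
      S.D.nxt^[a] (S.D.nxt c) = S.D.nxt^[b] (S.D.nxt c) := by
    obtain ⟨a, b, hne, he⟩ := Finite.exists_ne_map_eq_of_infinite
      fun m : ℕ => S.D.nxt^[m] (S.D.nxt c)
    rcases Nat.lt_or_gt_of_ne hne with h | h
    · exact ⟨a, b, h, he⟩
    · exact ⟨b, a, h, he.symm⟩
  have hper : ∀ t, S.D.nxt^[b - a] (S.D.nxt^[a + t] (S.D.nxt c)) =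
      S.D.nxt^[a + t] (S.D.nxt c) := by
    intro t
    rw [← Function.iterate_add_apply, Nat.add_comm a t, Function.iterate_add_apply _ t a, he,
      ← Function.iterate_add_apply]
    congr 1
    omega
  have key : ∀ m, ∀ t, t + m = a + (n - (k + 1)) →
      S.Known (mk S.E (S.D.nxt^[t] (S.D.nxt c))) := by
    intro m
    induction m with
    | zero =>
      intro t ht
      rw [Nat.add_zero] at ht
      subst ht
      exact hP hall c _ (b - a) hk hk' (by omega) (hper _)
    | succ m ih =>
      intro t ht
      have h1 := ih (t + 1) (by omega)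
      rw [Function.iterate_succ_apply'] at h1
      exact hM hall _ (ctr_iter hB hk' t) h1
  rw [hi']
  exact key a _ (by omega)

end R4.Mk
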