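import Pool.Agent.Work.MP_e3f5d9_al.P1
import Pool.Agent.Work.MP_e3f5d9_al.B1

/-!
# PF: the end of the pair calculus for data whose letters are leaves
-/

set_option autoImplicit false

open Finset

namespace R4

namespace PFB

variable {L : Type} [DecidableEq L]

/-- The word of the visits to the letters. -/
def dst (w : List L) : List L := vis (fun x => some x) none w

lemma split (x : L) : ∀ w : List L, ∃ (m : ℕ) (w' : List L), w = List.replicate m x ++ w' ∧
    (∀ z v, w' = z :: v → z ≠ x)
  | [] => ⟨0, [], rfl, fun z v h => by simp at h⟩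
  | y :: w => by
    by_cases h : y = x
    · obtain ⟨m, w', h1, h2⟩ := split x w
      exact ⟨m + 1, w', by rw [h, h1, List.replicate_succ, List.cons_append], h2⟩
    · refine ⟨0, y :: w, rfl, fun z v h' => ?_⟩
      simp only [List.cons.injEq] at h'
      rw [← h'.1]; exact h

lemma vis_rep (x : L) (w : List L) : ∀ m : ℕ,
    vis (fun x : L => some x) (some x) (List.replicate m x ++ w) = vis (fun x => some x) (some x) w
  | 0 => rfl
  | m + 1 => by
    rw [List.replicate_succ, List.cons_append]
    simp only [vis, if_true]
    exact vis_rep x w m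

lemma vis_ne (x : L) (w : List L) (h : ∀ z v, w = z :: v → z ≠ x) :
    vis (fun x : L => some x) (some x) w = vis (fun x => some x) none w := by
  cases w with
  | nil => rfl
  | cons z v =>
    have := h z v rfl
    simp only [vis]
    rw [if_neg (by simpa using (fun h => this h.symm)), if_neg (by simp)]

lemma dst_split (x : L) (w : List L) (m : ℕ) (hm : m ≠ 0) (h : ∀ z v, w = z :: v → z ≠ x) :
    dst (List.replicate m x ++ w) = x :: dst w := by
  obtain ⟨k, rfl⟩ := Nat.exists_eq_succ_of_ne_zero hm
  unfold dst
  rw [List.replicate_succ, List.cons_append]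
  simp only [vis]
  rw [if_neg (by simp), vis_rep, vis_ne x w h]

/-- All complete runs of letters are odd. -/
def OddRuns (w : List L) : Prop :=
  ∀ (y x z : L) (m : ℕ), (y :: (List.replicate m x ++ [z])) <:+: w → m ≠ 0 → y ≠ x → z ≠ x → Odd m

omit [DecidableEq L] in
lemma OddRuns.sub {w w' : List L} (h : OddRuns w) (h' : w' <:+: w) : OddRuns w' :=
  fun y x z m h1 => h y x z m (h1.trans h')

/-- The word with the given visits and end runs. -/
def ff : List L → Fin 2 → Fin 2 → List L
  | [], _, _ => []
  | x :: v, a, b => List.replicate a.1 x ++ v ++ List.replicate b.1 ((x :: v).getLastD x)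

lemma filter_inj (hL : ∀ x : L, ∃ j, j ≠ x) : ∀ (w w' : List L),
    (∀ i j : L, i ≠ j → w.filter (fun x => x = i ∨ x = j) = w'.filter fun x => x = i ∨ x = j) →
    w = w'
  | [], [], _ => rfl
  | [], x :: v, h => by
    obtain ⟨j, hj⟩ := hL x
    have := h x j hj.symm
    simp at this
  | x :: v, [], h => by
    obtain ⟨j, hj⟩ := hL x
    have := h x j hj.symm
    simp at this
  | x :: v, y :: v', h => by
    have hxy : x = y := by
      by_contra hne
      have := h x y hne
      simp at this
      exact hne this.1
    subst hxy
    congr 1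
    refine filter_inj hL v v' fun i j hij => ?_
    have := h i j hij
    by_cases hx : x = i ∨ x = j
    · rw [List.filter_cons_of_pos (by simpa using hx), List.filter_cons_of_pos (by simpa using hx)]
        at this
      exact (List.cons.inj this).2
    · rw [List.filter_cons_of_neg (by simpa using hx), List.filter_cons_of_neg (by simpa using hx)]
        at this
      exact this

lemma same_pc (i j : L) (hij : i ≠ j) :
    SameCls (pc ({i} : Finset L) {j})
      (fun x => (some x).filter fun x => decide (x = i ∨ x = j)) := by
  have h1 : ∀ x, pc ({i} : Finset L) {j} x = if x = i then some true else if x = j then some false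
      else none := by
    intro x
    simp [pc]
  have h2 : ∀ x, ((some x).filter fun x => decide (x = i ∨ x = j)) =
      if x = i then some i else if x = j then some j else none := by
    intro x
    by_cases ha : x = i
    · subst ha; simp [Option.filter]
    · by_cases hb : x = j
      · subst hb; simp [Option.filter, ha]
      · simp [Option.filter, ha, hb]
  have hji : j ≠ i := hij.symm
  constructor
  · intro x
    show pc ({i} : Finset L) {j} x = none ↔ ((some x).filter fun x => decide (x = i ∨ x = j)) = none
    rw [h1, h2]
    split_ifs <;> simp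
  · intro x y
    show pc ({i} : Finset L) {j} x = pc ({i} : Finset L) {j} y ↔
      ((some x).filter fun x => decide (x = i ∨ x = j)) =
      ((some y).filter fun x => decide (x = i ∨ x = j))
    rw [h1, h1, h2, h2]
    split_ifs <;> simp [hij, hji]

end PFB

namespace PFB

variable {L : Type} [Fintype L] [DecidableEq L] (D : KS L)

lemma ev_rep (x : L) (w : List L) : ∀ m : ℕ,
    D.ev (List.replicate (m + 2) x ++ w) = D.ev (List.replicate m x ++ w) := by
  intro m
  funext y
  rw [List.replicate_succ, List.replicate_succ]
  simp only [List.cons_append]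
  rw [B1Aux.ev_cons', B1Aux.ev_cons', B1Aux.act_act]

lemma ev_rep_mod (x : L) (w : List L) (m : ℕ) :
    D.ev (List.replicate m x ++ w) = D.ev (List.replicate (m % 2) x ++ w) := by
  induction m using Nat.strong_induction_on with
  | _ m ih =>
    by_cases hm : m < 2
    · rw [Nat.mod_eq_of_lt hm]
    · obtain ⟨k, rfl⟩ : ∃ k, m = k + 2 := ⟨m - 2, by omega⟩
      rw [ev_rep, ih k (by omega)]
      simp

omit [Fintype L] in
lemma red_rep_even (x : L) : ∀ k : ℕ, red (List.replicate (2 * k) x) = []
  | 0 => rfl
  | k + 1 => by
    rw [show 2 * (k + 1) = 2 * k + 1 + 1 by ring, List.replicate_succ, List.replicate_succ,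
      B1Aux.red_cons_cons]
    exact red_rep_even x k

lemma ev_congr_append (u u' v : List L) (h : D.ev u = D.ev u') :
    D.ev (u ++ v) = D.ev (u' ++ v) := by
  funext x
  rw [B1Aux.ev_append, B1Aux.ev_append, h]

lemma ev_congr_append' (u v v' : List L) (h : D.ev v = D.ev v') :
    D.ev (u ++ v) = D.ev (u ++ v') := by
  funext x
  rw [B1Aux.ev_append, B1Aux.ev_append, h]

/-- The evaluation in terms of the visits, when all but the last run are odd. -/
lemma tail_ev : ∀ (n : ℕ) (W : List L) (y : L), W.length ≤ n → (∀ z v, W = z :: v → z ≠ y) →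
    OddRuns (y :: W) → ∃ b : Fin 2, ∀ y' : L, D.ev W = D.ev (dst W ++ (if W = [] then []
      else List.replicate b.1 ((dst W).getLastD y'))) := by
  intro n
  induction n with
  | zero =>
    intro W y hl _ _
    have : W = [] := List.eq_nil_of_length_eq_zero (by omega)
    subst this
    exact ⟨0, fun y' => rfl⟩
  | succ n ih =>
    intro W y hl hy hodd
    cases W with
    | nil => exact ⟨0, fun y' => rfl⟩
    | cons x V =>
      have hxy := hy x V rfl
      obtain ⟨m, W', h1, h2⟩ := split x V
      have hW : x :: V = List.replicate (m + 1) x ++ W' := by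
        rw [h1, List.replicate_succ, List.cons_append]
      rw [hW] at hodd hl ⊢
      rw [dst_split x W' (m + 1) (by omega) h2]
      have hne : List.replicate (m + 1) x ++ W' ≠ [] := by simp
      simp only [hne, if_false]
      cases hW' : W' with
      | nil =>
        refine ⟨⟨m % 2, Nat.mod_lt _ (by norm_num)⟩, fun y' => ?_⟩
        simp only [dst, vis, List.append_nil, List.getLastD_cons, List.getLastD_nil]
        have h3 := ev_rep_mod D x [] (m + 1)
        have h4 := ev_rep_mod D x [] (m % 2 + 1)
        simp only [List.append_nil] at h3 h4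
        rw [h3, List.cons_append, List.nil_append, ← List.replicate_succ, h4]
        congr 2
        omega
      | cons z V' =>
        have hzx := h2 z V' hW'
        have hmodd : Odd (m + 1) := by
          refine hodd y x z (m + 1) ⟨[], V', ?_⟩ (by omega) hxy.symm hzx
          rw [hW']
          simp
        have hsub : OddRuns (x :: W') := by
          refine hodd.sub ?_
          refine ⟨y :: List.replicate m x, [], ?_⟩
          rw [List.replicate_succ']
          simp
        obtain ⟨b, hb⟩ := ih W' x (by
          rw [List.length_append, List.length_replicate] at hl; omega) h2 hsub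
        refine ⟨b, fun y' => ?_⟩
        have hb' := hb x
        rw [hW'] at hb'
        simp only [reduceCtorEq, if_false] at hb'
        rw [ev_rep_mod, Nat.odd_iff.1 hmodd, List.getLastD_cons]
        rw [show List.replicate 1 x = [x] from rfl]
        have := ev_congr_append' D [x] _ _ hb'
        rw [this]
        simp

lemma ev_ff (W : List L) (hodd : OddRuns W) : ∃ a b : Fin 2, D.ev W = D.ev (ff (dst W) a b) := by
  cases W with
  | nil => exact ⟨0, 0, rfl⟩
  | cons x V =>
    obtain ⟨m, W', h1, h2⟩ := split x V
    have hW : x :: V = List.replicate (m + 1) x ++ W' := by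
      rw [h1, List.replicate_succ, List.cons_append]
    rw [hW] at hodd ⊢
    rw [dst_split x W' (m + 1) (by omega) h2]
    have hsub : OddRuns (x :: W') := by
      refine hodd.sub ⟨List.replicate m x, [], ?_⟩
      rw [List.replicate_succ']
      simp
    obtain ⟨b, hb⟩ := tail_ev D W'.length W' x le_rfl h2 hsub
    have hb' := hb x
    cases hW' : W' with
    | nil =>
      refine ⟨⟨(m + 1) % 2, Nat.mod_lt _ (by norm_num)⟩, 0, ?_⟩
      rw [ev_rep_mod]
      simp [ff, dst, vis]
    | cons z V' =>
      rw [hW'] at hb'
      simp only [reduceCtorEq, if_false] at hb'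
      refine ⟨⟨(m + 1) % 2, Nat.mod_lt _ (by norm_num)⟩, b, ?_⟩
      rw [ev_rep_mod]
      simp only [ff, List.getLastD_cons, List.append_assoc]
      exact ev_congr_append' D _ _ _ hb'

end PFB

open PFB in
/-- PF. -/
theorem pf {L : Type} [Fintype L] [DecidableEq L] (S : Setup L) (hN : NodeBasics S)
    (hC : KnownCalc S) (hV : VisBasics L) : RuleFin S := by
  intro hleaf hK
  have hL : ∀ x : L, ∃ j, j ≠ x := by
    intro x
    by_cases hx : x = S.D.o
    · exact ⟨S.D.nxt S.D.o, by rw [hx]; exact S.D.nxt_ne _⟩
    · exact ⟨S.D.o, fun h => hx h.symm⟩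
  -- all complete runs are odd
  have hodd : ∀ W ∈ S.N 0, OddRuns W := by
    intro W hW y x z m hinf hm hy hz
    by_contra hev
    rw [Nat.not_odd_iff_even] at hev
    obtain ⟨k, hk⟩ := hev
    have hred : red (List.replicate m x) = [] := by
      rw [hk, ← two_mul]
      exact red_rep_even x k
    have hne : List.replicate m x ≠ [] := by
      intro h
      rw [List.replicate_eq_nil_iff] at h
      exact hm h
    by_cases hx : x = S.D.o
    · refine hN.rclean 0 W hW _ S.full.base y (List.replicate m x) z hinf hne (Or.inr ?_) hred
      refine ⟨?_, ?_, ?_⟩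
      · rw [Finset.mem_compl, Finset.mem_singleton, ← hx]; exact hy
      · rw [Finset.mem_compl, Finset.mem_singleton, ← hx]; exact hz
      · intro j hj
        rw [List.eq_of_mem_replicate hj, Finset.mem_compl, Finset.mem_singleton, not_not]
        exact hx
    · refine hN.rclean 0 W hW _ (hleaf x hx) y (List.replicate m x) z hinf hne (Or.inl ?_) hred
      refine ⟨?_, ?_, ?_⟩
      · rw [Finset.mem_singleton]; exact hy
      · rw [Finset.mem_singleton]; exact hz
      · intro j hj
        rw [List.eq_of_mem_replicate hj, Finset.mem_singleton]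
  -- the known feature
  let Ψ : List L → ({p : L × L // p.1 ≠ p.2} → List Bool) :=
    fun W p => vis (pc {p.1.1} {p.1.2}) none W
  have hΨ : S.Known Ψ := hC.pi (fun (p : {p : L × L // p.1 ≠ p.2}) (W : List L) =>
    vis (pc {p.1.1} {p.1.2}) none W) (fun p => hK p.1.1 p.1.2 p.2)
  refine hC.det Ψ S.D.ev hΨ ⟨0, ?_⟩
  have hex : ∀ W : List L, ∃ ab : Fin 2 × Fin 2, W ∈ S.N 0 →
      S.D.ev W = S.D.ev (ff (dst W) ab.1 ab.2) := by
    intro W
    by_cases hW : W ∈ S.N 0
    · obtain ⟨a, b, h⟩ := ev_ff S.D W (hodd W hW)
      exact ⟨(a, b), fun _ => h⟩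
    · exact ⟨(0, 0), fun h => absurd h hW⟩
  choose ab hab using hex
  refine ⟨2 * 2, fun W => finProdFinEquiv (ab W), fun W hW W' hW' hΨW hρ => ?_⟩
  have hab' : ab W = ab W' := finProdFinEquiv.injective hρ
  have hdst : dst W = dst W' := by
    refine filter_inj hL _ _ fun i j hij => ?_
    have h1 : vis (pc {i} {j}) none W = vis (pc {i} {j}) none W' := congrFun hΨW ⟨(i, j), hij⟩
    obtain ⟨e, he⟩ := hV.same _ _ (same_pc i j hij)
    have h2 := he W
    have h3 := he W'
    rw [hV.filter (fun x => some x)] at h2 h3
    unfold dst
    rw [h2, h3, h1]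
  rw [hab W hW, hab W' hW', hab', hdst]

end R4
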