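import Pool.Agent.Work.MP_e3f5d9_al.MK0
import Pool.Agent.Work.MP_e3f5d9_al.PF
import Pool.Agent.Work.MP_e3f5d9_al.PRl
import Pool.Agent.Work.MP_e3f5d9_al.B1p

/-!
# MK13: the end of the stage of the marks

A perfect node is shortened by deleting pairs of equal neighbours which are not at the ends.  This
changes neither the visits to the sides nor the mark words.  In the word which remains there are no
equal neighbours except at the ends, so the mark word of a centre gives all its letters.
-/

set_option autoImplicit false
set_option linter.unusedSectionVars false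

open Finset

namespace R4.Mk

open R4

namespace FinAux

section words

variable {L β : Type} [DecidableEq L] [DecidableEq β]

/-- The visits with the parity of the number of letters `i` read before. -/
def tv (c : L → Option β) (i : L) : Option β → Bool → List L → List (β × Bool)
  | _, _, [] => []
  | p, q, x :: w => match c x with
    | none => tv c i none (xor q (decide (x = i))) w
    | some b => if p = some b then tv c i (some b) (xor q (decide (x = i))) w
        else (b, q) :: tv c i (some b) (xor q (decide (x = i))) w

lemma par_count (i x : L) (u : List L) : decide (Odd ((u ++ [x]).count i)) =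
    xor (decide (Odd (u.count i))) (decide (x = i)) := by
  rw [List.count_append, List.count_singleton]
  by_cases h : x = i
  · subst h
    simp only [beq_self_eq_true, if_true, decide_true, Bool.xor_true]
    by_cases h2 : Odd (u.count x)
    · have : ¬ Odd (u.count x + 1) := by
        rw [Nat.not_odd_iff_even]; exact h2.add_one
      simp [h2, this]
    · have : Odd (u.count x + 1) := by
        rw [Nat.not_odd_iff_even] at h2; exact h2.add_one
      simp [h2, this]
  · have : (x == i) = false := by simpa using h
    simp [this, h]

lemma tv_visp (c : L → Option β) (i : L) : ∀ (W : List L) (p : Option β) (u : List L),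
    (visp c p u W).map (fun z => (z.1, decide (Odd (z.2.count i)))) =
      tv c i p (decide (Odd (u.count i))) W := by
  intro W
  induction W with
  | nil => intro p u; rfl
  | cons x w ih =>
    intro p u
    unfold visp tv
    rw [← par_count]
    cases hc : c x with
    | none => exact ih _ _
    | some b =>
      simp only
      split_ifs with h
      · exact ih _ _
      · rw [List.map_cons, ih]

lemma tv_fst (c : L → Option β) (i : L) : ∀ (W : List L) (p : Option β) (q : Bool),
    (tv c i p q W).map Prod.fst = vis c p W := by
  intro W
  induction W with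
  | nil => intro p q; rfl
  | cons x w ih =>
    intro p q
    unfold tv vis
    cases hc : c x with
    | none => exact ih _ _
    | some b =>
      simp only
      split_ifs with h
      · exact ih _ _
      · rw [List.map_cons, ih]

/-- The class of the last letter. -/
def lst (c : L → Option β) : Option β → List L → Option β
  | p, [] => p
  | _, x :: u => lst c (c x) u

/-- The parity after a word. -/
def par (i : L) : Bool → List L → Bool
  | q, [] => q
  | q, x :: u => par i (xor q (decide (x = i))) u

lemma tv_cons_none (c : L → Option β) (i x : L) (w : List L) (p : Option β) (q : Bool)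
    (h : c x = none) : tv c i p q (x :: w) = tv c i none (xor q (decide (x = i))) w := by
  simp only [tv, h]

lemma tv_cons_eq (c : L → Option β) (i x : L) (w : List L) (b : β) (q : Bool)
    (h : c x = some b) : tv c i (some b) q (x :: w) = tv c i (some b) (xor q (decide (x = i))) w := by
  simp only [tv, h, if_true]

lemma tv_cons_ne (c : L → Option β) (i x : L) (w : List L) (p : Option β) (b : β) (q : Bool)
    (h : c x = some b) (hp : p ≠ some b) :
    tv c i p q (x :: w) = (b, q) :: tv c i (some b) (xor q (decide (x = i))) w := by
  simp only [tv, h, if_neg hp]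

lemma tv_append (c : L → Option β) (i : L) (v : List L) : ∀ (u : List L) (p : Option β) (q : Bool),
    tv c i p q (u ++ v) = tv c i p q u ++ tv c i (lst c p u) (par i q u) v := by
  intro u
  induction u with
  | nil => intro p q; rfl
  | cons x u ih =>
    intro p q
    rw [List.cons_append]
    show _ = _ ++ tv c i (lst c (c x) u) (par i (xor q (decide (x = i))) u) v
    cases hc : c x with
    | none => rw [tv_cons_none c i x _ _ _ hc, tv_cons_none c i x _ _ _ hc, ih]
    | some b =>
      by_cases h : p = some b
      · subst h
        rw [tv_cons_eq c i x _ _ _ hc, tv_cons_eq c i x _ _ _ hc, ih]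
      · rw [tv_cons_ne c i x _ _ _ _ hc h, tv_cons_ne c i x _ _ _ _ hc h, ih, List.cons_append]

lemma lst_concat (c : L → Option β) (a : L) : ∀ (u : List L) (p : Option β),
    lst c p (u ++ [a]) = c a := by
  intro u
  induction u with
  | nil => intro p; rfl
  | cons x u ih => intro p; exact ih _

lemma tv_del (c : L → Option β) (i x : L) (u v : List L) (p : Option β) (q : Bool)
    (h1 : ∀ b, c x = some b → lst c p u = some b ∨ ∃ y v', v = y :: v' ∧ c y = some b)
    (h2 : c x = none → ∀ y v', v = y :: v' → ∀ b, c y = some b → lst c p u ≠ some b) :
    tv c i p q (u ++ x :: x :: v) = tv c i p q (u ++ v) := by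
  rw [tv_append, tv_append]
  congr 1
  generalize lst c p u = p' at h1 h2 ⊢
  generalize par i q u = q' at h1 h2 ⊢
  have hxx : xor (xor q' (decide (x = i))) (decide (x = i)) = q' := by
    cases q' <;> cases decide (x = i) <;> rfl
  cases hc : c x with
  | none =>
    have e : tv c i p' q' (x :: x :: v) = tv c i none q' v := by
      simp only [tv, hc]
      rw [hxx]
    rw [e]
    cases v with
    | nil => rfl
    | cons y v' =>
      unfold tv
      cases hy : c y with
      | none => rfl
      | some b =>
        simp only
        rw [if_neg (by simp), if_neg (h2 hc y v' rfl b hy)]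
  | some b =>
    have e : tv c i p' q' (x :: x :: v) = if p' = some b then tv c i (some b) q' v
        else (b, q') :: tv c i (some b) q' v := by
      simp only [tv, hc, if_true]
      rw [hxx]
    rw [e]
    split_ifs with h
    · rw [h]
    · rcases h1 b hc with h3 | ⟨y, v', rfl, hy⟩
      · exact absurd h3 h
      · simp only [tv, hy, if_true]
        rw [if_neg h]

/-- No equal neighbours except at the ends. -/
def Alm (W : List L) : Prop := ∀ (u : List L) (x : L) (v : List L), W = u ++ x :: x :: v →
  u = [] ∨ v = []

/-- No equal neighbours except at the end. -/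
def EndC (W : List L) : Prop := ∀ (u : List L) (x : L) (v : List L), W = u ++ x :: x :: v → v = []

omit [DecidableEq L] in
lemma Alm.tail {x : L} {V : List L} (h : Alm (x :: V)) : EndC V := by
  intro u z v hv
  rcases h (x :: u) z v (by rw [hv]; rfl) with h1 | h1
  · exact absurd h1 (by simp)
  · exact h1

omit [DecidableEq L] in
lemma EndC.tail {x : L} {V : List L} (h : EndC (x :: V)) : EndC V := by
  intro u z v hv
  exact h (x :: u) z v (by rw [hv]; rfl)

lemma Alm.oddRuns {W : List L} (h : Alm W) : PFB.OddRuns W := by
  intro y x z m hinf hm _ _
  obtain ⟨s, t, hst⟩ := hinf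
  match m, hm with
  | 1, _ => exact odd_one
  | m + 2, _ =>
    exfalso
    rcases h (s ++ [y]) x (List.replicate m x ++ [z] ++ t) (by
      rw [← hst, List.replicate_succ, List.replicate_succ]
      simp) with h1 | h1
    · simp at h1
    · simp at h1

/-- The letters with the letter `i` as a class of its own. -/
def cp (c : L → Option β) (x : L) : Option (Option β) := some (c x)

/-- The word with the letters `i`, from the mark word: after a visit. -/
def gg : Bool → Bool → List (β × Bool) → List (Option β)
  | _, e, [] => if e then [none] else []
  | q, e, (b, r) :: l => (if q = r then [] else [none]) ++ some b :: gg r e l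

/-- The word with the letters `i`, from the mark word. -/
def gs (s e : Bool) : List (β × Bool) → List (Option β)
  | [] => if s then [none] else []
  | (b, r) :: l => (if s then [none] else []) ++ some b :: gg r e l

/-- The last letter is `i`. -/
def lf (i : L) : List L → Bool
  | [] => false
  | [x] => decide (x = i)
  | _ :: y :: w => lf i (y :: w)

lemma lf_cons (i x : L) (V : List L) (hV : V ≠ []) : lf i (x :: V) = lf i V := by
  cases V with
  | nil => exact absurd rfl hV
  | cons y w => rfl

lemma lf_cons_ne (i x : L) (V : List L) (hx : x ≠ i) : lf i (x :: V) = lf i V := by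
  cases V with
  | nil => simp [lf, hx]
  | cons y w => rfl

variable (c : L → Option β) (i : L) (hci : ∀ x, c x = none ↔ x = i)

include hci in
lemma gg_spec : ∀ (n : ℕ) (V : List L) (b : β) (q : Bool), V.length ≤ n → EndC V →
    vis (cp c) (some (some b)) V = gg q (lf i V) (tv c i (some b) q V) := by
  intro n
  induction n with
  | zero =>
    intro V b q hl _
    have : V = [] := List.eq_nil_of_length_eq_zero (by omega)
    subst this
    rfl
  | succ n ih =>
    intro V b q hl hE
    cases V with
    | nil => rfl
    | cons x V =>
      have hE1 := hE.tail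
      simp only [List.length_cons] at hl
      by_cases hx : x = i
      · subst hx
        have hcx : c x = none := (hci x).2 rfl
        have e1 : vis (cp c) (some (some b)) (x :: V) = none :: vis (cp c) (some none) V := by
          simp only [vis, cp, hcx]
          rw [if_neg (by simp)]
        have e2 : tv c x (some b) q (x :: V) = tv c x none (!q) V := by
          simp only [tv, hcx]
          simp
        rw [e1, e2]
        cases V with
        | nil => simp [vis, tv, gg, lf]
        | cons y V =>
          by_cases hy : y = x
          · subst hy
            have hV : V = [] := hE [] y V rfl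
            subst hV
            simp [vis, tv, gg, lf, cp, hcx]
          · have hcy : c y ≠ none := fun h => hy ((hci y).1 h)
            obtain ⟨b', hb'⟩ := Option.ne_none_iff_exists'.1 hcy
            have e3 : vis (cp c) (some none) (y :: V) =
                some b' :: vis (cp c) (some (some b')) V := by
              simp only [vis, cp, hb']
              rw [if_neg (by simp)]
            have e4 : tv c x none (!q) (y :: V) = (b', !q) :: tv c x (some b') (!q) V := by
              simp only [tv, hb']
              rw [if_neg (by simp)]
              simp [hy]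
            rw [e3, e4, lf_cons x x _ (by simp), lf_cons_ne x y V hy]
            simp only [List.length_cons] at hl
            rw [ih V b' (!q) (by omega) hE1.tail]
            simp [gg]
      · have hcx : c x ≠ none := fun h => hx ((hci x).1 h)
        obtain ⟨b', hb'⟩ := Option.ne_none_iff_exists'.1 hcx
        rw [lf_cons_ne i x V hx]
        by_cases hbb : b = b'
        · subst hbb
          have e3 : vis (cp c) (some (some b)) (x :: V) = vis (cp c) (some (some b)) V := by
            simp only [vis, cp, hb', if_true]
          have e4 : tv c i (some b) q (x :: V) = tv c i (some b) q V := by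
            simp only [tv, hb', if_true]
            simp [hx]
          rw [e3, e4]
          exact ih V b q (by omega) hE1
        · have e3 : vis (cp c) (some (some b)) (x :: V) =
              some b' :: vis (cp c) (some (some b')) V := by
            simp only [vis, cp, hb']
            rw [if_neg (by simpa using hbb)]
          have e4 : tv c i (some b) q (x :: V) = (b', q) :: tv c i (some b') q V := by
            simp only [tv, hb']
            rw [if_neg (by simpa using hbb)]
            simp [hx]
          rw [e3, e4, ih V b' q (by omega) hE1]
          simp [gg]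

include hci in
/-- In a word without equal neighbours in the middle the mark word gives all letters. -/
lemma gs_spec (W : List L) (hW : Alm W) : ∃ s e : Bool,
    vis (cp c) none W = gs s e (tv c i none false W) := by
  have key : ∀ (x : L) (V : List L) (q : Bool), x ≠ i → EndC V → ∃ b', c x = some b' ∧
      (∀ p, p ≠ some (some b') → vis (cp c) p (x :: V) =
        some b' :: gg q (lf i V) (tv c i (some b') q V)) ∧
      tv c i none q (x :: V) = (b', q) :: tv c i (some b') q V := by
    intro x V q hx hE
    have hcx : c x ≠ none := fun h => hx ((hci x).1 h)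
    obtain ⟨b', hb'⟩ := Option.ne_none_iff_exists'.1 hcx
    refine ⟨b', hb', ?_, ?_⟩
    · intro p hp
      rw [← gg_spec c i hci V.length V b' q le_rfl hE]
      simp only [vis, cp, hb']
      rw [if_neg hp]
    · simp only [tv, hb']
      rw [if_neg (by simp)]
      simp [hx]
  cases W with
  | nil => exact ⟨false, false, rfl⟩
  | cons x V =>
    have hE := hW.tail
    by_cases hx : x = i
    · have hcx : c x = none := (hci x).2 hx
      have e1 : vis (cp c) none (x :: V) = none :: vis (cp c) (some none) V := by
        simp only [vis, cp, hcx]
        rw [if_neg (by simp)]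
      have e2 : tv c i none false (x :: V) = tv c i none true V := by
        simp only [tv, hcx]
        simp [hx]
      rw [e1, e2]
      cases V with
      | nil => exact ⟨true, false, rfl⟩
      | cons y V =>
        by_cases hy : y = i
        · have hcy : c y = none := (hci y).2 hy
          have e3 : vis (cp c) (some none) (y :: V) = vis (cp c) (some none) V := by
            simp only [vis, cp, hcy, if_true]
          have e4 : tv c i none true (y :: V) = tv c i none false V := by
            simp only [tv, hcy]
            simp [hy]
          rw [e3, e4]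
          cases V with
          | nil => exact ⟨true, false, rfl⟩
          | cons z V =>
            by_cases hz : z = i
            · have hV : V = [] := by
                have := hE [] y V (by rw [hy, hz]; rfl)
                exact this
              subst hV
              refine ⟨true, false, ?_⟩
              have hcz : c z = none := (hci z).2 hz
              simp [vis, tv, gs, cp, hcz]
            · obtain ⟨b', _, h1, h2⟩ := key z V false hz hE.tail.tail
              refine ⟨true, lf i V, ?_⟩
              rw [h1 _ (by simp), h2]
              simp [gs]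
        · obtain ⟨b', _, h1, h2⟩ := key y V true hy hE.tail
          refine ⟨true, lf i V, ?_⟩
          rw [h1 _ (by simp), h2]
          simp [gs]
    · obtain ⟨b', _, h1, h2⟩ := key x V false hx hE
      refine ⟨false, lf i V, ?_⟩
      rw [h1 _ (by simp), h2]
      simp [gs]

end words

section cuts

variable {L : Type} [Fintype L] [DecidableEq L] (D : KS L) (E : Finset (Finset L))

/-- Complete runs of sides are non-trivial. -/
def RC (W : List L) : Prop := ∀ X, D.Side E X → ∀ (a : L) (R : List L) (b : L),
  (a :: (R ++ [b])) <:+: W → R ≠ [] → a ∉ X → b ∉ X → (∀ j ∈ R, j ∈ X) → red R ≠ []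

lemma side_compl {X : Finset L} (h : D.Side E X) : D.Side E Xᶜ := by
  unfold KS.Side KS.nm at h ⊢
  by_cases ho : D.o ∈ X
  · rw [if_pos ho] at h
    rw [if_neg (by simpa using ho)]
    exact h
  · rw [if_neg ho] at h
    rw [if_pos (by simpa using ho), compl_compl]
    exact h

lemma rc_of_rclean {W : List L} (h : ∀ A ∈ E, RClean A W) : RC D E W := by
  intro X hX a R b hinf hne ha hb hR
  unfold KS.Side KS.nm at hX
  by_cases ho : D.o ∈ X
  · rw [if_pos ho] at hX
    exact h _ hX a R b hinf hne (Or.inr ⟨by simpa using ha, by simpa using hb,
      fun j hj => by simpa using hR j hj⟩)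
  · rw [if_neg ho] at hX
    exact h _ hX a R b hinf hne (Or.inl ⟨ha, hb, hR⟩)

lemma rc_pair {u v : List L} {a x b : L} (h : RC D E ((u ++ [a]) ++ x :: x :: b :: v))
    {X : Finset L} (hX : D.Side E X) (hx : x ∈ X) : a ∈ X ∨ b ∈ X := by
  by_contra hcon
  push Not at hcon
  have := h X hX a [x, x] b ⟨u, v, by simp⟩ (by simp) hcon.1 hcon.2 (by simpa using hx)
  exact this (by simp [red])

lemma rc_del {u v : List L} {a x b : L} (h : RC D E ((u ++ [a]) ++ x :: x :: b :: v)) :
    RC D E ((u ++ [a]) ++ b :: v) := by
  intro X hX a' R b' hinf hne ha hb hR
  obtain ⟨s, t, hst⟩ := hinf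
  rw [List.append_assoc] at hst
  rcases List.append_eq_append_iff.1 hst with ⟨p, hp, hp'⟩ | ⟨p, hp, hp'⟩
  · rcases List.append_eq_append_iff.1 hp' with ⟨r, hr, hr'⟩ | ⟨r, hr, hr'⟩
    · -- inside of the first part
      refine h X hX a' R b' ⟨s, r ++ x :: x :: b :: v, ?_⟩ hne ha hb hR
      rw [hp, hr]
      simp
    · -- straddling: `a' :: (R ++ [b']) = p ++ r`, `b :: v = r ++ t`
      cases p with
      | nil =>
        -- inside of the second part
        simp only [List.nil_append] at hr
        refine h X hX a' R b' ⟨(u ++ [a]) ++ [x, x], t, ?_⟩ hne ha hb hR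
        rw [hr, hr']
        simp
      | cons a'' R1 =>
        simp only [List.cons_append, List.cons.injEq] at hr
        obtain ⟨rfl, hr⟩ := hr
        rcases List.append_eq_append_iff.1 hr with ⟨q, hq, hq'⟩ | ⟨q, hq, hq'⟩
        · -- `R1 = R ++ q`, `[b'] = q ++ r`
          cases r with
          | nil =>
            simp only [List.nil_append] at hr'
            simp only [List.append_nil] at hq'
            refine h X hX a' R b' ⟨s, x :: x :: b :: v, ?_⟩ hne ha hb hR
            rw [hp, hq, ← hq']
          | cons z r =>
            have hq0 : q = [] ∧ r = [] ∧ b' = z := by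
              cases q with
              | nil =>
                simp only [List.nil_append, List.cons.injEq] at hq'
                exact ⟨rfl, hq'.2.symm, hq'.1⟩
              | cons y q =>
                exfalso
                simp only [List.cons_append, List.cons.injEq] at hq'
                have := congrArg List.length hq'.2
                simp at this
            obtain ⟨rfl, rfl, rfl⟩ := hq0
            simp only [List.append_nil] at hq
            subst hq
            simp only [List.cons_append, List.nil_append, List.cons.injEq] at hr'
            obtain ⟨rfl, rfl⟩ := hr'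
            -- `R1 = R`, `b = b'`
            by_cases hx : x ∈ X
            · have h1 := h X hX a' (R1 ++ [x, x]) b ⟨s, v, by
                rw [hp]; simp⟩ (by simp) ha hb (by
                intro j hj
                rcases List.mem_append.1 hj with hj | hj
                · exact hR j hj
                · simp only [List.mem_cons, List.not_mem_nil, or_false, or_self] at hj
                  rw [hj]; exact hx)
              have e : red (R1 ++ [x, x]) = red R1 := by
                have := B1pAux.red_cancel x R1 []
                simpa using this
              rwa [e] at h1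
            · exact h X hX a' R1 x ⟨s, x :: b :: v, by rw [hp]; simp⟩ hne ha hx hR
        · -- `R = R1 ++ q`, `r = q ++ [b']`
          subst hq'
          by_cases hx : x ∈ X
          · have h1 := h X hX a' (R1 ++ x :: x :: q) b' ⟨s, t, by
              rw [hp, hr']; simp⟩ (by simp) ha hb (by
              intro j hj
              rcases List.mem_append.1 hj with hj | hj
              · exact hR j (by rw [hq]; exact List.mem_append_left _ hj)
              · simp only [List.mem_cons] at hj
                rcases hj with rfl | rfl | hj
                · exact hx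
                · exact hx
                · exact hR j (by rw [hq]; exact List.mem_append_right _ hj))
            have e : red (R1 ++ x :: x :: q) = red R := by
              rw [B1pAux.red_cancel x R1 q, hq]
            rwa [e] at h1
          · -- one of the two parts of `R` is empty
            rcases List.eq_nil_or_concat R1 with h1 | ⟨R2, y, h1⟩
            · subst h1
              simp only [List.nil_append] at hq
              subst hq
              refine h X hX x R b' ⟨(u ++ [a]) ++ [x], t, ?_⟩ hne hx hb hR
              rw [hr']
              simp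
            · cases q with
              | nil =>
                simp only [List.append_nil] at hq
                subst hq
                exact h X hX a' R x ⟨s, x :: b :: v, by rw [hp]; simp⟩ hne ha hx hR
              | cons z q =>
                exfalso
                have hz : z ∈ X := hR z (by rw [hq]; simp)
                have hy : y ∈ X := hR y (by rw [hq, h1]; simp)
                simp only [List.cons_append, List.cons.injEq] at hr'
                obtain ⟨rfl, _⟩ := hr'
                have ha2 : a = y := by
                  rw [h1] at hp
                  have e : s ++ a' :: (R2.concat y) = (s ++ a' :: R2) ++ [y] := by simp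
                  rw [e] at hp
                  have := List.append_inj_right' hp rfl
                  simpa using this
                have hX' := side_compl D E hX
                rcases rc_pair D E h hX' (by simpa using hx) with h2 | h2
                · rw [ha2] at h2
                  exact (mem_compl.1 h2) hy
                · exact (mem_compl.1 h2) hz
  · -- inside of the second part
    refine h X hX a' R b' ⟨(u ++ [a]) ++ [x, x] ++ p, t, ?_⟩ hne ha hb hR
    rw [hp']
    simp

/-- The classes of `c` are sides. -/
def Sides {β : Type} [DecidableEq β] (c : L → Option β) : Prop :=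
  ∀ b, (cset c b).Nonempty → D.Side E (cset c b)

lemma tv_pair {β : Type} [DecidableEq β] (c : L → Option β) (hc : Sides D E c) {u v : List L}
    {a x b : L} (h : RC D E ((u ++ [a]) ++ x :: x :: b :: v)) (i : L) (p : Option β) (q : Bool) :
    tv c i p q ((u ++ [a]) ++ x :: x :: b :: v) = tv c i p q ((u ++ [a]) ++ b :: v) := by
  have hmem : ∀ y d, y ∈ cset c d ↔ c y = some d := fun y d => by simp [cset]
  apply tv_del
  · intro d hd
    have hx : x ∈ cset c d := (hmem x d).2 hd
    rcases rc_pair D E h (hc d ⟨x, hx⟩) hx with h1 | h1
    · left
      rw [lst_concat]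
      exact (hmem a d).1 h1
    · exact Or.inr ⟨b, v, rfl, (hmem b d).1 h1⟩
  · intro hx y v' hv d hy
    simp only [List.cons.injEq] at hv
    obtain ⟨rfl, rfl⟩ := hv
    rw [lst_concat]
    intro ha
    have hX := side_compl D E (hc d ⟨b, (hmem b d).2 hy⟩)
    rcases rc_pair D E h hX (by rw [mem_compl, hmem, hx]; simp) with h1 | h1
    · exact (mem_compl.1 h1) ((hmem a d).2 ha)
    · exact (mem_compl.1 h1) ((hmem b d).2 hy)

lemma exists_nf : ∀ (n : ℕ) (W : List L), W.length ≤ n → RC D E W →
    ∃ W' : List L, Alm W' ∧ D.ev W' = D.ev W ∧
      ∀ {β : Type} [DecidableEq β] (c : L → Option β), Sides D E c → ∀ i,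
        tv c i none false W' = tv c i none false W := by
  intro n
  induction n with
  | zero =>
    intro W hl _
    have : W = [] := List.eq_nil_of_length_eq_zero (by omega)
    subst this
    exact ⟨[], fun u x v h => by simp at h, rfl, fun c _ i => rfl⟩
  | succ n ih =>
    intro W hl hRC
    by_cases hA : Alm W
    · exact ⟨W, hA, rfl, fun c _ i => rfl⟩
    · unfold Alm at hA
      push Not at hA
      obtain ⟨u, x, v, hW, hu, hv⟩ := hA
      obtain ⟨u, a, rfl⟩ := (List.eq_nil_or_concat u).resolve_left hu
      obtain ⟨b, v, rfl⟩ := List.exists_cons_of_ne_nil hv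
      rw [List.concat_eq_append] at hW
      subst hW
      obtain ⟨W', h1, h2, h3⟩ := ih ((u ++ [a]) ++ b :: v) (by
        simp only [List.length_append, List.length_cons, List.length_nil] at hl ⊢
        omega) (rc_del D E hRC)
      refine ⟨W', h1, ?_, ?_⟩
      · rw [h2]
        have := PFB.ev_congr_append' D (u ++ [a]) _ _ (PFB.ev_rep D x (b :: v) 0)
        simpa using this.symm
      · intro β _ c hc i
        rw [h3 c hc i, tv_pair D E c hc hRC]

end cuts

section kc

variable {L : Type} [Fintype L] [DecidableEq L] {S : Setup L}

open LiftAux

lemma same_g (hV : VisBasics L) (hC : KnownCalc S) (g : List L → List L) {β γ : Type}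
    [DecidableEq β] [DecidableEq γ] {c : L → Option β} {c' : L → Option γ} (h : SameCls c c')
    (h1 : S.Known fun W => vis c none (g W)) : S.Known fun W => vis c' none (g W) := by
  obtain ⟨e, he⟩ := hV.same c c' h
  refine hC.det _ _ h1 ⟨0, det_fun _ _ _ fun W _ W' _ h2 => ?_⟩
  show vis c' none (g W) = vis c' none (g W')
  have h3 : vis c none (g W) = vis c none (g W') := h2
  rw [he, he, h3]

lemma glue_g (hV : VisBasics L) (hC : KnownCalc S) (hG : VisGlue L) (g : List L → List L)
    (X Y A : Finset L) (hX : X ⊆ Aᶜ) (hY : Y ⊆ A)
    (h1 : S.Known fun W => vis (pc X A) none (g W))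
    (h2 : S.Known fun W => vis (pc Aᶜ Y) none (g W)) :
    S.Known fun W => vis (pc X Y) none (g W) := by
  have hXA : ∀ x ∈ X, x ∉ A := fun x hx => Finset.mem_compl.1 (hX hx)
  obtain ⟨G, hG⟩ := hG A (pc X Y) (by
    intro x hx y hy hc
    unfold pc at hc ⊢
    have h3 : x ∉ X := fun h => hXA x h hx
    have h4 : y ∉ Y := fun h => hy (hY h)
    by_cases h5 : y ∈ X <;> by_cases h6 : x ∈ Y <;> simp_all)
  have k1 : S.Known fun W => vis (glL A (pc X Y)) none (g W) := by
    refine same_g hV hC g (c := pc X A) ⟨?_, ?_⟩ h1
    · intro i
      unfold glL pc
      have h3 : i ∈ X → i ∉ A := hXA i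
      have h4 : i ∈ Y → i ∈ A := fun h => hY h
      by_cases h5 : i ∈ A <;> by_cases h6 : i ∈ X <;> by_cases h7 : i ∈ Y <;> simp_all
    · intro i j
      unfold glL pc
      have h3 : i ∈ X → i ∉ A := hXA i
      have h4 : i ∈ Y → i ∈ A := fun h => hY h
      have h3' : j ∈ X → j ∉ A := hXA j
      have h4' : j ∈ Y → j ∈ A := fun h => hY h
      by_cases h5 : i ∈ A <;> by_cases h6 : i ∈ X <;> by_cases h7 : i ∈ Y <;>
      by_cases h5' : j ∈ A <;> by_cases h6' : j ∈ X <;> by_cases h7' : j ∈ Y <;> simp_all
  have k2 : S.Known fun W => vis (glR A (pc X Y)) none (g W) := by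
    refine same_g hV hC g (c := pc Aᶜ Y) ⟨?_, ?_⟩ h2
    · intro i
      unfold glR pc
      have h3 : i ∈ X → i ∉ A := hXA i
      have h4 : i ∈ Y → i ∈ A := fun h => hY h
      by_cases h5 : i ∈ A <;> by_cases h6 : i ∈ X <;> by_cases h7 : i ∈ Y <;> simp_all
    · intro i j
      unfold glR pc
      have h3 : i ∈ X → i ∉ A := hXA i
      have h4 : i ∈ Y → i ∈ A := fun h => hY h
      have h3' : j ∈ X → j ∉ A := hXA j
      have h4' : j ∈ Y → j ∈ A := fun h => hY h
      by_cases h5 : i ∈ A <;> by_cases h6 : i ∈ X <;> by_cases h7 : i ∈ Y <;>
      by_cases h5' : j ∈ A <;> by_cases h6' : j ∈ X <;> by_cases h7' : j ∈ Y <;> simp_all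
  refine hC.det _ _ (hC.prod _ _ k1 k2) ⟨0, det_of_finite (I := Bool) _ _ _
    (fun W => (g W).head?.elim false fun x => decide (x ∈ A)) fun W _ W' _ h3 h4 => ?_⟩
  show vis (pc X Y) none (g W) = vis (pc X Y) none (g W')
  simp only [Prod.mk.injEq] at h3
  rw [hG, hG, h3.1, h3.2, h4]

end kc

end FinAux

open FinAux LiftAux in
/-- MK13. -/
theorem mk13 {L : Type} [Fintype L] [DecidableEq L] (S : Setup L) (hN : NodeBasics S)
    (hC : KnownCalc S) (hV : VisBasics L) (hG : VisGlue L) (hB : StarBasics S.D S.E) :
    MkFin S := by
  intro hK hM
  have hL : ∀ x : L, ∃ j, j ≠ x := by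
    intro x
    by_cases hx : x = S.D.o
    · exact ⟨S.D.nxt S.D.o, by rw [hx]; exact S.D.nxt_ne _⟩
    · exact ⟨S.D.o, fun h => hx h.symm⟩
  -- the shortened words
  have hex : ∀ W : List L, ∃ W' : List L, W ∈ S.N 0 → (Alm W' ∧ S.D.ev W' = S.D.ev W ∧
      ∀ {β : Type} [DecidableEq β] (c : L → Option β), Sides S.D S.E c → ∀ i,
        tv c i none false W' = tv c i none false W) := by
    intro W
    by_cases hW : W ∈ S.N 0
    · obtain ⟨W', h⟩ := exists_nf S.D S.E W.length W le_rfl
        (rc_of_rclean S.D S.E fun A hA => hN.rclean 0 W hW A hA)
      exact ⟨W', fun _ => h⟩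
    · exact ⟨[], fun h => absurd h hW⟩
  choose g hg using hex
  set K' : Finset L → Finset L → Prop := fun X Y => S.Known fun W => vis (pc X Y) none (g W)
    with hK'
  -- (a) sides
  have ha : ∀ X Y, S.D.Side S.E X → S.D.Side S.E Y → Disjoint X Y → K' X Y := by
    intro X Y hX hY hXY
    refine hC.det _ _ (hK X Y hX hY hXY) ⟨0, det_fun _ _ _ fun W hW W' hW' h2 => ?_⟩
    have hd : ∀ x, x ∈ X → x ∉ Y := fun x h1 h2 => Finset.disjoint_left.1 hXY h1 h2
    have hs : Sides S.D S.E (pc X Y) := by
      intro b _
      have e1 : cset (pc X Y) true = X := by
        ext i; simp only [cset, pc, mem_filter, mem_univ, true_and]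
        by_cases h2 : i ∈ X
        · simp [h2]
        · by_cases h3 : i ∈ Y <;> simp [h2, h3]
      have e2 : cset (pc X Y) false = Y := by
        ext i; simp only [cset, pc, mem_filter, mem_univ, true_and]
        by_cases h2 : i ∈ X
        · simp [h2, hd i h2]
        · by_cases h3 : i ∈ Y <;> simp [h2, h3]
      cases b
      · rw [e2]; exact hY
      · rw [e1]; exact hX
    have key : ∀ W ∈ S.N 0, vis (pc X Y) none (g W) = vis (pc X Y) none W := by
      intro W hW
      rw [← tv_fst (pc X Y) S.D.o (g W) none false, ← tv_fst (pc X Y) S.D.o W none false,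
        (hg W hW).2.2 (pc X Y) hs S.D.o]
    show vis (pc X Y) none (g W) = vis (pc X Y) none (g W')
    rw [key W hW, key W' hW']
    exact h2
  -- (b) centres
  have hb0 : ∀ i, Ctr S.D S.E i → S.Known fun W => vis (cp (st S.E i)) none (g W) := by
    intro i hi
    have hci : ∀ x, st S.E i x = none ↔ x = i := by
      intro x
      unfold st
      by_cases h : x = i <;> simp [h]
    have hs : Sides S.D S.E (st S.E i) := by
      intro b hb
      obtain ⟨x, hx⟩ := hb
      have hx' : st S.E i x = some b := by simpa [cset] using hx
      have hxi : x ≠ i := fun h => by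
        rw [(hci x).2 h] at hx'
        exact absurd hx' (by simp)
      have e0 : cl S.E i x = b := by
        unfold st at hx'
        rw [if_neg hxi] at hx'
        exact Option.some.inj hx'
      have e1 : cset (st S.E i) b = cl S.E i x := by
        ext y
        simp only [cset, mem_filter, mem_univ, true_and]
        unfold st
        by_cases hy : y = i
        · rw [if_pos hy]
          simp only [reduceCtorEq, false_iff]
          rw [hy]
          exact (hB.self i x hxi).2
        · rw [if_neg hy]
          simp only [Option.some.injEq]
          constructor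
          · intro h
            rw [e0, ← h]
            exact (hB.self i y hy).1
          · intro h
            rw [hB.eqv i x y hxi h, e0]
      rw [e1]
      exact hB.side i x hxi
    have hfl : ∀ W, ∃ f : Bool × Bool, W ∈ S.N 0 →
        vis (cp (st S.E i)) none (g W) = gs f.1 f.2 (mk S.E i W) := by
      intro W
      by_cases hW : W ∈ S.N 0
      · obtain ⟨s, e, h⟩ := gs_spec (st S.E i) i hci (g W) (hg W hW).1
        refine ⟨(s, e), fun _ => ?_⟩
        rw [h, (hg W hW).2.2 (st S.E i) hs i]
        have := tv_visp (st S.E i) i W none []
        simp only [List.count_nil, Nat.not_odd_zero, decide_false] at this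
        rw [← this]
        rfl
      · exact ⟨(false, false), fun h => absurd h hW⟩
    choose f hf using hfl
    refine hC.det _ _ (hM i hi) ⟨0, det_of_finite (I := Bool × Bool) _ _ _ f
      fun W hW W' hW' h1 h2 => ?_⟩
    show vis (cp (st S.E i)) none (g W) = vis (cp (st S.E i)) none (g W')
    rw [hf W hW, hf W' hW', h1, h2]
  have hb : ∀ i, Ctr S.D S.E i → ∀ x, x ≠ i → K' {i} (cl S.E i x) := by
    intro i hi x hx
    set p : Option (Finset L) → Bool := fun z => decide (z = none ∨ z = some (cl S.E i x)) with hp
    have h1 : S.Known fun W => vis (fun y => (cp (st S.E i) y).filter p) none (g W) := by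
      refine hC.det _ _ (hb0 i hi) ⟨0, det_fun _ _ _ fun W _ W' _ h2 => ?_⟩
      show vis (fun y => (cp (st S.E i) y).filter p) none (g W) =
        vis (fun y => (cp (st S.E i) y).filter p) none (g W')
      rw [hV.filter, hV.filter]
      exact congrArg _ h2
    have hmem : ∀ y, y ≠ i → (cl S.E i y = cl S.E i x ↔ y ∈ cl S.E i x) := by
      intro y hy
      constructor
      · intro h
        rw [← h]
        exact (hB.self i y hy).1
      · intro h
        exact hB.eqv i x y hx h
    have e1 : ∀ y, (cp (st S.E i) y).filter p = if y = i then some none else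
        if y ∈ cl S.E i x then some (some (cl S.E i x)) else none := by
      intro y
      unfold cp st
      by_cases hy : y = i
      · simp [hy, hp]
      · rw [if_neg hy, if_neg hy]
        by_cases h : y ∈ cl S.E i x
        · rw [if_pos h, (hmem y hy).2 h]
          simp [hp]
        · rw [if_neg h]
          have h2 : cl S.E i y ≠ cl S.E i x := fun h3 => h ((hmem y hy).1 h3)
          simp [hp, h2]
    have e2 : ∀ y, pc ({i} : Finset L) (cl S.E i x) y = if y = i then some true else
        if y ∈ cl S.E i x then some false else none := by
      intro y; simp [pc]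
    refine same_g hV hC g (c := fun y => (cp (st S.E i) y).filter p) ⟨?_, ?_⟩ h1
    · intro y
      show (cp (st S.E i) y).filter p = none ↔ _
      rw [e1, e2]
      split_ifs <;> simp
    · intro y z
      show (cp (st S.E i) y).filter p = (cp (st S.E i) z).filter p ↔ _
      rw [e1, e1, e2, e2]
      split_ifs <;> simp
  -- symmetry
  have hsym : ∀ X Y, Disjoint X Y → K' X Y → K' Y X := by
    intro X Y hXY h
    refine same_g hV hC g (c := pc X Y) ⟨?_, ?_⟩ h
    · intro i
      unfold pc
      by_cases h1 : i ∈ X <;> by_cases h2 : i ∈ Y <;> simp [h1, h2]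
    · intro i j
      unfold pc
      rw [Finset.disjoint_left] at hXY
      have hi := @hXY i
      have hj := @hXY j
      by_cases h1 : i ∈ X <;> by_cases h2 : i ∈ Y <;> by_cases h3 : j ∈ X <;>
        by_cases h4 : j ∈ Y <;> simp_all
  -- a letter and a side
  have hls : ∀ i X, S.D.Side S.E X → i ∉ X → X.Nonempty → K' {i} X := by
    intro i X hX hi hne
    by_cases hci : Ctr S.D S.E i
    · obtain ⟨x, hx⟩ := hne
      have hxi : x ≠ i := fun h => hi (h ▸ hx)
      have hsub := hB.sub i hci.1 X hX hi x hx
      have h1 := hB.self i x hxi
      refine glue_g hV hC hG g {i} X (cl S.E i x) ?_ hsub (hb i hci x hxi) ?_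
      · intro y hy
        rw [mem_singleton] at hy
        rw [hy, mem_compl]
        exact h1.2
      · refine ha _ _ (side_compl _ _ (hB.side i x hxi)) hX ?_
        rw [Finset.disjoint_left]
        intro y hy hy'
        exact (mem_compl.1 hy) (hsub hy')
    · have hs : S.D.Side S.E {i} := by
        unfold KS.Side KS.nm
        by_cases ho : i = S.D.o
        · rw [ho, if_pos (by simp)]
          exact S.full.base
        · rw [if_neg (by simpa using fun h => ho h.symm)]
          by_contra h
          exact hci ⟨ho, h⟩
      exact ha _ _ hs hX (by simpa using hi)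
  -- two letters
  have hll : ∀ i j, i ≠ j → K' {i} {j} := by
    intro i j hij
    obtain ⟨A, hA, hj, hi⟩ : ∃ A, S.D.Side S.E A ∧ j ∈ A ∧ i ∉ A := by
      obtain ⟨A, hA, h⟩ := S.full.sep i j hij
      have hs : S.D.Side S.E A := by
        unfold KS.Side KS.nm
        rw [if_neg (S.full.norm A hA)]
        exact hA
      by_cases hi : i ∈ A
      · refine ⟨Aᶜ, side_compl _ _ hs, ?_, ?_⟩
        · rw [mem_compl]; exact fun hj => h (iff_of_true hi hj)
        · simpa using hi
      · refine ⟨A, hs, ?_, hi⟩
        by_contra hj
        exact h (iff_of_false hi hj)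
    refine glue_g hV hC hG g {i} {j} A (by simpa using hi) (by simpa using hj)
      (hls i A hA hi ⟨j, hj⟩) ?_
    refine hsym _ _ ?_ (hls j Aᶜ (side_compl _ _ hA) (by simpa using hj) ⟨i, by simpa using hi⟩)
    simpa using hj
  -- the end
  let Ψ : List L → ({p : L × L // p.1 ≠ p.2} → List Bool) :=
    fun W p => vis (pc {p.1.1} {p.1.2}) none (g W)
  have hΨ : S.Known Ψ := hC.pi (fun (p : {p : L × L // p.1 ≠ p.2}) (W : List L) =>
    vis (pc {p.1.1} {p.1.2}) none (g W)) (fun p => hll p.1.1 p.1.2 p.2)
  have hex2 : ∀ W : List L, ∃ ab : Fin 2 × Fin 2, W ∈ S.N 0 →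
      S.D.ev W = S.D.ev (PFB.ff (PFB.dst (g W)) ab.1 ab.2) := by
    intro W
    by_cases hW : W ∈ S.N 0
    · obtain ⟨a, b, h⟩ := PFB.ev_ff S.D (g W) (hg W hW).1.oddRuns
      exact ⟨(a, b), fun _ => by rw [← (hg W hW).2.1, h]⟩
    · exact ⟨(0, 0), fun h => absurd h hW⟩
  choose ab hab using hex2
  refine hC.det Ψ S.D.ev hΨ ⟨0, det_of_finite (I := Fin 2 × Fin 2) _ _ _ ab
    fun W hW W' hW' hΨW hρ => ?_⟩
  have hdst : PFB.dst (g W) = PFB.dst (g W') := by
    refine PFB.filter_inj hL _ _ fun i j hij => ?_
    have h1 : vis (pc {i} {j}) none (g W) = vis (pc {i} {j}) none (g W') :=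
      congrFun hΨW ⟨(i, j), hij⟩
    obtain ⟨e, he⟩ := hV.same _ _ (PFB.same_pc i j hij)
    have h2 := he (g W)
    have h3 := he (g W')
    rw [hV.filter (fun x => some x)] at h2 h3
    unfold PFB.dst
    rw [h2, h3, h1]
  rw [hab W hW, hab W' hW', hρ, hdst]

end R4.Mk
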