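import Pool.Agent.Work.MP_e3f5d9_al.MK0

/-!
# R4, marks, block MK2: the stars of the letters (helper94)

`ph t y` is the letter in which the parent sees the letter `y` of the child of the side `t`:
`stp i Z` is the preimage of `Z` under `ph (side i)`.
-/

set_option autoImplicit false
set_option linter.unusedSectionVars false

open Finset

namespace R4.Mk

open R4

namespace MK2Aux

variable {L : Type} [Fintype L] [DecidableEq L] {D : KS L} {E : Finset (Finset L)}

/-! ### Sides -/

lemma side_iff {X : Finset L} : D.Side E X ↔ (D.o ∉ X ∧ X ∈ E) ∨ (D.o ∈ X ∧ Xᶜ ∈ E) := by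
  unfold KS.Side KS.nm
  by_cases h : D.o ∈ X
  · simp [h]
  · simp [h]

lemma side_of_mem (hE : D.Full E) {A : Finset L} (hA : A ∈ E) : D.Side E A :=
  side_iff.2 (Or.inl ⟨hE.norm A hA, hA⟩)

lemma side_compl {X : Finset L} (hX : D.Side E X) : D.Side E Xᶜ := by
  rw [side_iff] at hX ⊢
  rcases hX with ⟨h1, h2⟩ | ⟨h1, h2⟩
  · exact Or.inr ⟨by simpa using h1, by rw [compl_compl]; exact h2⟩
  · exact Or.inl ⟨by simpa using h1, h2⟩

lemma mem_of_side {X : Finset L} (hX : D.Side E X) (ho : D.o ∉ X) : X ∈ E := by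
  rcases side_iff.1 hX with h | h
  · exact h.2
  · exact absurd h.1 ho

lemma chain (hE : D.Full E) {X Y : Finset L} (hX : D.Side E X) (hY : D.Side E Y) {x i : L}
    (hxX : x ∈ X) (hxY : x ∈ Y) (hiX : i ∉ X) (hiY : i ∉ Y) : X ⊆ Y ∨ Y ⊆ X := by
  rcases side_iff.1 hX with ⟨-, h1⟩ | ⟨-, h1⟩ <;> rcases side_iff.1 hY with ⟨-, h2⟩ | ⟨-, h2⟩
  · rcases hE.lam X h1 Y h2 with h | h | h
    · exact absurd hxY (disjoint_left.1 h hxX)
    · exact Or.inl h
    · exact Or.inr h
  · rcases hE.lam X h1 Yᶜ h2 with h | h | h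
    · left
      intro z hz
      by_contra hzY
      exact disjoint_left.1 h hz (by simpa using hzY)
    · have := h hxX
      rw [mem_compl] at this
      exact absurd hxY this
    · exact absurd (h (by simpa using hiY)) hiX
  · rcases hE.lam Xᶜ h1 Y h2 with h | h | h
    · right
      intro z hz
      by_contra hzX
      exact disjoint_left.1 h (by simpa using hzX) hz
    · exact absurd (h (by simpa using hiX)) hiY
    · have := h hxY
      rw [mem_compl] at this
      exact absurd hxX this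
  · rcases hE.lam Xᶜ h1 Yᶜ h2 with h | h | h
    · exact absurd (show i ∈ Yᶜ by simpa using hiY) (disjoint_left.1 h (by simpa using hiX))
    · right
      intro z hz
      by_contra hzX
      have := h (show z ∈ Xᶜ by simpa using hzX)
      rw [mem_compl] at this
      exact this hz
    · left
      intro z hz
      by_contra hzY
      have := h (show z ∈ Yᶜ by simpa using hzY)
      rw [mem_compl] at this
      exact this hz

lemma mem_cl (hE : D.Full E) {i x y : L} :
    y ∈ cl E i x ↔ ∃ X, D.Side E X ∧ x ∈ X ∧ y ∈ X ∧ i ∉ X := by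
  unfold cl
  rw [mem_filter]
  constructor
  · rintro ⟨-, A, hA, ⟨h1, h2, h3⟩ | ⟨h1, h2, h3⟩⟩
    · exact ⟨A, side_of_mem hE hA, h1, h2, h3⟩
    · exact ⟨Aᶜ, side_compl (side_of_mem hE hA), by simpa using h1, by simpa using h2,
        by simpa using h3⟩
  · rintro ⟨X, hX, h1, h2, h3⟩
    refine ⟨mem_univ _, ?_⟩
    rcases side_iff.1 hX with ⟨-, h⟩ | ⟨-, h⟩
    · exact ⟨X, h, Or.inl ⟨h1, h2, h3⟩⟩
    · exact ⟨Xᶜ, h, Or.inr ⟨by simpa using h1, by simpa using h2, by simpa using h3⟩⟩

lemma sub_cl (hE : D.Full E) {i x : L} {X : Finset L} (hX : D.Side E X) (hx : x ∈ X)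
    (hi : i ∉ X) : X ⊆ cl E i x := fun _ hy => (mem_cl hE).2 ⟨X, hX, hx, hy, hi⟩

lemma exists_side (hE : D.Full E) {i x : L} (h : x ≠ i) : ∃ X, D.Side E X ∧ x ∈ X ∧ i ∉ X := by
  obtain ⟨A, hA, hs⟩ := hE.sep x i h
  by_cases hx : x ∈ A
  · exact ⟨A, side_of_mem hE hA, hx, fun hi => hs ⟨fun _ => hi, fun _ => hx⟩⟩
  · refine ⟨Aᶜ, side_compl (side_of_mem hE hA), by simpa using hx, ?_⟩
    rw [mem_compl, not_not]
    by_contra hi
    exact hs ⟨fun h => absurd h hx, fun h => absurd h hi⟩

lemma self_mem (hE : D.Full E) {i x : L} (h : x ≠ i) : x ∈ cl E i x := by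
  obtain ⟨X, hX, hx, hi⟩ := exists_side hE h
  exact (mem_cl hE).2 ⟨X, hX, hx, hx, hi⟩

lemma centre_notMem (hE : D.Full E) {i x : L} : i ∉ cl E i x := by
  intro h
  obtain ⟨X, -, -, h1, h2⟩ := (mem_cl hE).1 h
  exact h2 h1

lemma cl_side (hE : D.Full E) {i x : L} (h : x ≠ i) : D.Side E (cl E i x) := by
  classical
  obtain ⟨X0, hX0, hx0, hi0⟩ := exists_side hE h
  obtain ⟨M, hM, hmax⟩ := exists_max_image
    (univ.filter fun X : Finset L => D.Side E X ∧ x ∈ X ∧ i ∉ X) card
    ⟨X0, mem_filter.2 ⟨mem_univ _, hX0, hx0, hi0⟩⟩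
  rw [mem_filter] at hM
  obtain ⟨-, hM, hxM, hiM⟩ := hM
  have : cl E i x = M := by
    apply Subset.antisymm
    · intro y hy
      obtain ⟨X, hX, hx, hyX, hi⟩ := (mem_cl hE).1 hy
      rcases chain hE hX hM hx hxM hi hiM with h1 | h1
      · exact h1 hyX
      · have := hmax X (mem_filter.2 ⟨mem_univ _, hX, hx, hi⟩)
        rw [eq_of_subset_of_card_le h1 this]
        exact hyX
    · exact sub_cl hE hM hxM hiM
  rw [this]; exact hM

lemma cl_eqv (hE : D.Full E) {i x y : L} (h : x ≠ i) (hy : y ∈ cl E i x) :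
    cl E i y = cl E i x := by
  have hyi : y ≠ i := fun h' => centre_notMem hE (h' ▸ hy)
  have h1 : cl E i x ⊆ cl E i y := sub_cl hE (cl_side hE h) hy (centre_notMem hE)
  have h2 : x ∈ cl E i y := h1 (self_mem hE h)
  exact Subset.antisymm (sub_cl hE (cl_side hE hyi) h2 (centre_notMem hE)) h1

/-! ### The smallest cut -/

lemma cap_spec (hE : D.Full E) {i : L} (hi : i ≠ D.o) : cap E i ∈ E ∧ i ∈ cap E i := by
  obtain ⟨M, hM, hmin⟩ := exists_min_image (E.filter fun A => i ∈ A) card
    ⟨{D.o}ᶜ, mem_filter.2 ⟨hE.base, by simpa using hi⟩⟩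
  rw [mem_filter] at hM
  have h1 : cap E i = M := by
    unfold cap
    ext x
    rw [mem_filter]
    constructor
    · intro h
      exact h.2 M hM.1 hM.2
    · intro hx
      refine ⟨mem_univ _, fun A hA hiA => ?_⟩
      rcases hE.lam M hM.1 A hA with h | h | h
      · exact absurd hiA (disjoint_left.1 h hM.2)
      · exact h hx
      · have := hmin A (mem_filter.2 ⟨hA, hiA⟩)
        rw [eq_of_subset_of_card_le h this]
        exact hx
  rw [h1]
  exact hM

lemma cap_sub {i : L} {A : Finset L} (hA : A ∈ E) (hi : i ∈ A) : cap E i ⊆ A := by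
  intro x hx
  unfold cap at hx
  rw [mem_filter] at hx
  exact hx.2 A hA hi

lemma cl_out (hE : D.Full E) {i : L} (hi : i ≠ D.o) : cl E i D.o = (cap E i)ᶜ := by
  obtain ⟨h1, h2⟩ := cap_spec hE hi
  apply Subset.antisymm
  · intro y hy
    unfold cl at hy
    rw [mem_filter] at hy
    obtain ⟨-, A, hA, ⟨h3, -, -⟩ | ⟨-, h4, h5⟩⟩ := hy
    · exact absurd h3 (hE.norm A hA)
    · rw [mem_compl]
      exact fun h => h4 (cap_sub hA h5 h)
  · refine sub_cl hE (side_compl (side_of_mem hE h1)) ?_ (by simpa using h2)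
    rw [mem_compl]; exact hE.norm _ h1

lemma cl_inn (hE : D.Full E) {i x : L} (hi : i ≠ D.o) (hxi : x ≠ i) (hx : x ∈ cap E i) :
    cl E i x ∈ E ∧ cl E i x ⊆ cap E i := by
  obtain ⟨h1, h2⟩ := cap_spec hE hi
  have ho : D.o ∉ cl E i x := by
    intro h
    have h3 := cl_eqv hE hxi h
    rw [cl_out hE hi] at h3
    have := self_mem hE hxi
    rw [← h3, mem_compl] at this
    exact this hx
  have h4 := mem_of_side (cl_side hE hxi) ho
  refine ⟨h4, ?_⟩
  rcases hE.lam _ h4 _ h1 with h | h | h
  · exact absurd hx (disjoint_left.1 h (self_mem hE hxi))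
  · exact h
  · exact absurd (h h2) (centre_notMem hE)

/-! ### Pull-backs -/

variable (D) in
/-- How the parent sees the letter `y` of the child of the side `t`. -/
def ph (t : Bool) (y : L) : L := if D.side y = t then D.nxt y else D.o

lemma mem_lp {t : Bool} {A : Finset L} {y : L} : y ∈ D.lp t A ↔ D.side y = t ∧ D.nxt y ∈ A := by
  simp [KS.lp]

lemma mem_lp_ph {t : Bool} {A : Finset L} (hA : D.o ∉ A) {y : L} :
    y ∈ D.lp t A ↔ ph D t y ∈ A := by
  rw [mem_lp, ph]
  by_cases h : D.side y = t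
  · simp [h]
  · simp [h, hA]

lemma mem_stp {i : L} {Z : Finset L} {y : L} : y ∈ stp D i Z ↔ ph D (D.side i) y ∈ Z := by
  unfold stp
  by_cases h : D.o ∈ Z
  · rw [if_pos h, mem_compl, mem_lp_ph (by simpa using h), mem_compl, not_not]
  · rw [if_neg h, mem_lp_ph h]

lemma path_empty {n : ℕ} {B : Finset L} (h : D.Path E n ∅ B) : B = ∅ := by
  induction n with
  | zero => exact h.2.symm
  | succ n ih =>
    obtain ⟨C, ⟨_, _, s, hs⟩, h2⟩ := h
    have : C = ∅ := by
      rw [← hs]
      have : D.lp s (∅ : Finset L) = ∅ := by simp [KS.lp]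
      rw [this, KS.nm, if_neg (by simp)]
    subst this
    exact ih h2

lemma nonempty (hE : D.Full E) {A : Finset L} (hA : A ∈ E) : A.Nonempty := by
  by_contra hne
  rw [not_nonempty_iff_eq_empty] at hne
  subst hne
  obtain ⟨n, _, hn⟩ := hE.mix
  have h1 := path_empty (hn _ hA _ hE.base)
  have h2 : D.nxt D.o ∈ ({D.o} : Finset L)ᶜ := by simp [D.nxt_ne]
  rw [h1] at h2
  simp at h2

lemma last_arrow {n : ℕ} {A B : Finset L} (hn : 0 < n) (h : D.Path E n A B) :
    ∃ C, D.Arrow E C B := by
  induction n generalizing A with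
  | zero => omega
  | succ n ih =>
    obtain ⟨C, h1, h2⟩ := h
    rcases Nat.eq_zero_or_pos n with rfl | h0
    · obtain ⟨_, rfl⟩ := h2
      exact ⟨A, h1⟩
    · exact ih h0 h2

/-- Every side comes from a cut. -/
lemma arrow (hE : D.Full E) {X : Finset L} (hX : D.Side E X) :
    ∃ A ∈ E, ∃ s, X = D.lp s A ∨ X = (D.lp s A)ᶜ := by
  obtain ⟨n, h0, hn⟩ := hE.mix
  obtain ⟨C, h1, _, s, hs⟩ := last_arrow h0 (hn _ hE.base _ hX)
  refine ⟨C, h1, s, ?_⟩
  unfold KS.nm at hs
  by_cases hX : D.o ∈ X
  · rw [if_pos hX] at hs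
    by_cases hY : D.o ∈ D.lp s C
    · rw [if_pos hY] at hs
      exact Or.inl (compl_injective hs.symm)
    · rw [if_neg hY] at hs
      right; rw [hs, compl_compl]
  · rw [if_neg hX] at hs
    by_cases hY : D.o ∈ D.lp s C
    · rw [if_pos hY] at hs
      exact Or.inr hs.symm
    · rw [if_neg hY] at hs
      exact Or.inl hs.symm

lemma univ_notSide (hE : D.Full E) : ¬ D.Side E (univ : Finset L) := by
  intro h
  rcases side_iff.1 h with ⟨h1, -⟩ | ⟨-, h1⟩
  · exact h1 (mem_univ _)
  · rw [compl_univ] at h1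
    exact not_nonempty_empty (nonempty hE h1)

/-- Both sides are populated. -/
lemma side_ex (hE : D.Full E) (t : Bool) : ∃ y, D.side y = t := by
  by_contra hne
  push Not at hne
  have h1 : D.lp (!t) ({D.o} : Finset L)ᶜ = univ := by
    ext i
    rw [mem_lp]
    simp only [mem_compl, mem_singleton, D.nxt_ne, not_false_eq_true, and_true, mem_univ,
      iff_true]
    have := hne i
    revert this
    cases D.side i <;> cases t <;> simp
  have h2 := hE.closed _ hE.base (!t) (by rw [h1]; exact ⟨D.o, mem_univ _⟩)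
  rw [h1] at h2
  exact univ_notSide hE h2

lemma stp_side (hE : D.Full E) {i : L} {Z : Finset L} (hZ : D.Side E Z)
    (h1 : (stp D i Z).Nonempty) (h2 : i ∉ stp D i Z) : D.Side E (stp D i Z) := by
  unfold stp at h1 h2 ⊢
  rcases side_iff.1 hZ with ⟨ho, hZE⟩ | ⟨ho, hZE⟩
  · rw [if_neg ho] at h1 ⊢
    exact hE.closed _ hZE _ h1
  · rw [if_pos ho] at h2 ⊢
    rw [mem_compl, not_not] at h2
    exact side_compl (hE.closed _ hZE _ ⟨i, h2⟩)

lemma ph_self (i : L) : ph D (D.side i) i = D.nxt i := by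
  unfold ph; rw [if_pos rfl]

lemma ph_ne {i y : L} (h : y ≠ i) : ph D (D.side i) y ≠ D.nxt i := by
  unfold ph
  by_cases hs : D.side y = D.side i
  · rw [if_pos hs]
    exact fun h' => h (D.inj _ _ h' hs)
  · rw [if_neg hs]
    exact (D.nxt_ne i).symm

lemma cl_stp (hE : D.Full E) {i y : L} (h : y ≠ i) :
    cl E i y = stp D i (cl E (D.nxt i) (ph D (D.side i) y)) := by
  set t := D.side i with ht
  set j := D.nxt i with hj
  have hne : ph D t y ≠ j := ph_ne h
  have hy : y ∈ stp D i (cl E j (ph D t y)) := mem_stp.2 (self_mem hE hne)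
  have hi : i ∉ stp D i (cl E j (ph D t y)) := by
    rw [mem_stp, ph_self]
    exact centre_notMem hE
  apply Subset.antisymm
  · obtain ⟨A, hA, s, hs⟩ := arrow hE (cl_side hE h)
    have hyM := self_mem hE h
    have hiM : i ∉ cl E i y := centre_notMem hE
    have hoA := hE.norm A hA
    intro z hz
    rw [mem_stp]
    by_cases hst : s = t
    · subst hst
      rcases hs with hs | hs
      · rw [hs, mem_lp_ph hoA] at hz hyM hiM
        rw [ht, ph_self] at hiM
        exact sub_cl hE (side_of_mem hE hA) hyM hiM hz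
      · rw [hs, mem_compl, mem_lp_ph hoA] at hz hyM hiM
        rw [not_not, ht, ph_self] at hiM
        refine sub_cl hE (side_compl (side_of_mem hE hA)) ?_ ?_ ?_
        · rw [mem_compl]; exact hyM
        · rw [mem_compl, not_not]; exact hiM
        · rw [mem_compl]; exact hz
    · rcases hs with hs | hs
      · rw [hs, mem_lp] at hz hyM
        have e1 : ph D t z = D.o := by
          unfold ph; rw [if_neg]; rw [hz.1]; exact hst
        have e2 : ph D t y = D.o := by
          unfold ph; rw [if_neg]; rw [hyM.1]; exact hst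
        rw [← ht, e1, e2]
        rw [e2] at hne
        exact self_mem hE hne
      · exfalso
        rw [hs, mem_compl, mem_lp, not_not] at hiM
        exact hst hiM.1.symm
  · refine sub_cl hE ?_ hy hi
    exact stp_side hE (cl_side hE hne) ⟨y, hy⟩ hi

/-! ### The number of classes -/

/-- The classes at `i`. -/
def cls (E : Finset (Finset L)) (i : L) : Finset (Finset L) := (univ.erase i).image (cl E i)

lemma cls_sub (hE : D.Full E) (i : L) : cls E i ⊆
    ((cls E (D.nxt i)).filter fun Z => (stp D i Z).Nonempty).image (stp D i) := by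
  intro M hM
  unfold cls at hM
  rw [mem_image] at hM
  obtain ⟨y, hy, rfl⟩ := hM
  have hyi : y ≠ i := ne_of_mem_erase hy
  rw [mem_image]
  refine ⟨cl E (D.nxt i) (ph D (D.side i) y), ?_, (cl_stp hE hyi).symm⟩
  rw [mem_filter]
  constructor
  · unfold cls
    exact mem_image_of_mem _ (mem_erase.2 ⟨ph_ne hyi, mem_univ _⟩)
  · exact ⟨y, mem_stp.2 (self_mem hE (ph_ne hyi))⟩

lemma cls_card (hE : D.Full E) (i : L) : (cls E i).card ≤
    ((cls E (D.nxt i)).filter fun Z => (stp D i Z).Nonempty).card :=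
  (card_le_card (cls_sub hE i)).trans card_image_le

lemma cls_iter (hE : D.Full E) (i : L) (n : ℕ) : (cls E i).card ≤ (cls E (D.nxt^[n] i)).card := by
  induction n with
  | zero => exact le_rfl
  | succ n ih =>
    rw [Function.iterate_succ_apply']
    exact ih.trans ((cls_card hE _).trans (card_le_card (filter_subset _ _)))

lemma all_pop (hE : D.Full E) {i : L} {n : ℕ} (hn : 0 < n) (h : D.nxt^[n] i = i) {x : L}
    (hx : x ≠ D.nxt i) : (stp D i (cl E (D.nxt i) x)).Nonempty := by
  have h1 := cls_card hE i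
  have h2 := cls_iter hE (D.nxt i) (n - 1)
  have e : (n - 1).succ = n := by omega
  rw [← Function.iterate_succ_apply, e, h] at h2
  have h3 : (cls E (D.nxt i)).filter (fun Z => (stp D i Z).Nonempty) = cls E (D.nxt i) :=
    eq_of_subset_of_card_le (filter_subset _ _) (h2.trans h1)
  have h4 : cl E (D.nxt i) x ∈ cls E (D.nxt i) := by
    unfold cls
    exact mem_image_of_mem _ (mem_erase.2 ⟨hx, mem_univ _⟩)
  rw [← h3, mem_filter] at h4
  exact h4.2

/-! ### The end of a chain of centres -/

lemma single_side (hE : D.Full E) {c : L} (hc : ¬ Ctr D E c) : D.Side E ({c} : Finset L) := by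
  unfold Ctr at hc
  rw [side_iff]
  by_cases h : c = D.o
  · subst h
    exact Or.inr ⟨mem_singleton_self _, hE.base⟩
  · left
    refine ⟨by rw [mem_singleton]; exact fun h' => h h'.symm, ?_⟩
    by_contra h'
    exact hc ⟨h, h'⟩

lemma lp_single (hE : D.Full E) {c : L} (hc : D.Side E ({c} : Finset L)) :
    D.lp (D.side c) (cap E (D.nxt c)) = {c} := by
  have hcap := cap_spec hE (D.nxt_ne c)
  apply Subset.antisymm
  · obtain ⟨A, hA, s, hs⟩ := arrow hE hc
    intro y hy
    rw [mem_lp] at hy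
    rcases hs with hs | hs
    · have h1 : c ∈ D.lp s A := by rw [← hs]; exact mem_singleton_self c
      rw [mem_lp] at h1
      rw [hs, mem_lp]
      refine ⟨by rw [hy.1]; exact h1.1, cap_sub hA h1.2 hy.2⟩
    · -- `c` is the only letter of its side
      have hall : ∀ z, z ≠ c → D.side z = s := by
        intro z hz
        have : z ∈ D.lp s A := by
          by_contra h
          have : z ∈ ({c} : Finset L) := by rw [hs, mem_compl]; exact h
          rw [mem_singleton] at this
          exact hz this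
        exact (mem_lp.1 this).1
      have hcs : D.side c ≠ s := by
        intro h
        obtain ⟨z, hz⟩ := side_ex hE (!s)
        by_cases hzc : z = c
        · subst hzc
          rw [h] at hz
          cases s <;> simp at hz
        · rw [hall z hzc] at hz
          cases s <;> simp at hz
      rw [mem_singleton]
      by_contra hyc
      rw [hall y hyc] at hy
      exact hcs hy.1.symm
  · intro y hy
    rw [mem_singleton] at hy
    subst hy
    rw [mem_lp]
    exact ⟨rfl, hcap.2⟩

lemma ctr_nxt (hE : D.Full E) {i : L} (hi : Ctr D E i) : Ctr D E (D.nxt i) := by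
  refine ⟨D.nxt_ne i, fun h => ?_⟩
  have h1 : D.lp (D.side i) {D.nxt i} = {i} := by
    ext y
    rw [mem_lp, mem_singleton, mem_singleton]
    constructor
    · rintro ⟨h1, h2⟩
      exact D.inj _ _ h2 h1
    · rintro rfl
      exact ⟨rfl, rfl⟩
  have h2 := hE.closed _ h (D.side i) (by rw [h1]; exact ⟨i, mem_singleton_self i⟩)
  rw [h1, KS.nm, if_neg (by rw [mem_singleton]; exact fun h => hi.1 h.symm)] at h2
  exact hi.2 h2

end MK2Aux

open MK2Aux

theorem mk2 {L : Type} [Fintype L] [DecidableEq L] (D : KS L) (E : Finset (Finset L))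
    (hE : D.Full E) : StarBasics D E where
  cap_mem _ hi := cap_spec hE hi
  self _ _ h := ⟨self_mem hE h, centre_notMem hE⟩
  eqv _ _ _ h hy := cl_eqv hE h hy
  side _ _ h := cl_side hE h
  out _ hi := cl_out hE hi
  inn _ _ hi hx hc := cl_inn hE hi hx hc
  sub _ _ _ hX hi _ hx := sub_cl hE hX hx hi
  nxt _ hi := ctr_nxt hE hi
  step i hi x hx := by
    rcases (stp D i (cl E (D.nxt i) x)).eq_empty_or_nonempty with h | ⟨y, hy⟩
    · exact Or.inl h
    · right
      have hyi : y ≠ i := by
        rintro rfl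
        rw [mem_stp, ph_self] at hy
        exact centre_notMem hE hy
      refine ⟨y, hyi, ?_⟩
      rw [cl_stp hE hyi, cl_eqv hE hx (mem_stp.1 hy)]
  cl_eq i _ y hy := cl_stp hE hy
  last c hc _ := lp_single hE (single_side hE hc)
  per _ _ _ hn h _ hx := all_pop hE hn h hx

end R4.Mk
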