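import Pool.Agent.Work.MP_e3f5d9_al.P1
import Pool.Agent.Work.MP_e3f5d9_al.B1

/-!
# PV3: the exact lift

The word `P` is annotated with the side of the child (`ann`).  `κ` is the class that the child sees
or would see, `v` says whether the letter is produced.  All letters: the filtered token word, up to
one initial token.  Visible letters: the visits of the child.  By `Clean` nothing is lost between
two visible letters.
-/

set_option autoImplicit false

open Finset

namespace R4

namespace PV3Aux

section gen

variable {X γ : Type} [DecidableEq γ]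

/-- Emission. -/
def em (p : Option γ) : Option γ → List γ
  | none => []
  | some b => if p = some b then [] else [b]

lemma em_self (p : Option γ) : em p p = [] := by
  cases p with
  | none => rfl
  | some b => simp [em]

lemma em_none (p : Option γ) : em p none = [] := rfl

lemma em_ne {p : Option γ} {b : γ} (h : p ≠ some b) : em p (some b) = [b] := by
  simp [em, h]

lemma em_length (p k : Option γ) : (em p k).length ≤ 1 := by
  cases k with
  | none => simp [em]
  | some b => simp only [em]; split_ifs <;> simp

lemma em_reverse (p k : Option γ) : (em p k).reverse = em p k := by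
  cases k with
  | none => simp [em]
  | some b => simp only [em]; split_ifs <;> simp

lemma vis_nil (c : X → Option γ) (p : Option γ) : vis c p [] = [] := by simp [vis]

lemma vis_cons (c : X → Option γ) (p : Option γ) (x : X) (w : List X) :
    vis c p (x :: w) = em p (c x) ++ vis c (c x) w := by
  rw [vis]
  cases h : c x with
  | none => simp [em]
  | some b =>
    dsimp only [em]
    split_ifs <;> simp

lemma vis_append (c : X → Option γ) (x : X) (w : List X) : ∀ (u : List X) (p : Option γ),
    vis c p (u ++ x :: w) = vis c p (u ++ [x]) ++ vis c (c x) w := by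
  intro u
  induction u with
  | nil => intro p; simp [vis_cons, vis_nil]
  | cons y u ih => intro p; rw [List.cons_append, vis_cons, ih, List.cons_append, vis_cons,
      List.append_assoc]

lemma vis_const (c : X → Option γ) (k : Option γ) : ∀ R : List X, (∀ j ∈ R, c j = k) →
    vis c k R = [] := by
  intro R
  induction R with
  | nil => intro _; exact vis_nil c k
  | cons z R ih =>
    intro h
    rw [vis_cons, h z (by simp), em_self, ih fun j hj => h j (by simp [hj])]
    rfl

lemma vis_reverse (c : X → Option γ) : ∀ l : List X,
    vis c none l.reverse = (vis c none l).reverse := by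
  intro l
  induction l with
  | nil => simp [vis_nil]
  | cons x l ih =>
    cases l with
    | nil => simp [vis_cons, vis_nil, em_reverse]
    | cons y l =>
      rw [List.reverse_cons] at ih
      have e1 : (x :: y :: l).reverse = l.reverse ++ y :: [x] := by simp
      rw [e1, vis_append, ih, vis_cons c none x, vis_cons c none y, vis_cons c (c x) y,
        vis_cons c (c y) x, vis_nil, List.append_nil]
      simp only [List.reverse_append, em_reverse]
      cases hx : c x with
      | none => simp [em]
      | some g =>
        cases hy : c y with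
        | none => simp [em]
        | some g' =>
          by_cases h : g = g'
          · subst h
            simp [em]
          · simp [em, h, Ne.symm h]

lemma fac_trans {l1 l2 l3 : List X} (h : l1 <:+: l2) (h' : l2 <:+: l3) : l1 <:+: l3 := h.trans h'

/-- No complete run of `q`. -/
def NoC (q : X → Prop) (l : List X) : Prop :=
  ∀ (x : X) (R : List X) (y : X), (x :: (R ++ [y])) <:+: l → ¬ q x → ¬ q y → R ≠ [] →
    (∀ j ∈ R, q j) → False

lemma NoC.mono {q : X → Prop} {l l' : List X} (h : NoC q l) (hl : l' <:+: l) : NoC q l' :=
  fun x R y hf => h x R y (hf.trans hl)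

lemma NoC.rev {q : X → Prop} {l : List X} (h : NoC q l) : NoC q l.reverse := by
  rintro x R y ⟨s, r, hs⟩ hx hy hR hq
  refine h y R.reverse x ⟨r.reverse, s.reverse, ?_⟩ hy hx (by simpa using hR) (by simpa using hq)
  have := congrArg List.reverse hs
  simp only [List.reverse_reverse] at this
  rw [← this]
  simp

lemma split_first {q : X → Prop} : ∀ r : List X, (∃ n ∈ r, ¬ q n) →
    ∃ r1 n r2, r = r1 ++ n :: r2 ∧ ¬ q n ∧ ∀ j ∈ r1, q j := by
  intro r
  induction r with
  | nil => rintro ⟨n, hn, -⟩; simp at hn
  | cons z r ih =>
    rintro ⟨n, hn, hq⟩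
    by_cases hz : q z
    · have : ∃ n ∈ r, ¬ q n := by
        refine ⟨n, ?_, hq⟩
        rcases List.mem_cons.1 hn with rfl | h
        · exact absurd hz hq
        · exact h
      obtain ⟨r1, n', r2, rfl, h1, h2⟩ := ih this
      refine ⟨z :: r1, n', r2, rfl, h1, ?_⟩
      intro j hj
      rcases List.mem_cons.1 hj with rfl | h
      · exact hz
      · exact h2 j h
    · exact ⟨[], z, r, rfl, hz, by simp⟩

lemma split_last {q : X → Prop} (r : List X) (h : ∃ n ∈ r, ¬ q n) :
    ∃ r1 n r2, r = r1 ++ n :: r2 ∧ ¬ q n ∧ ∀ j ∈ r2, q j := by
  obtain ⟨r1, n, r2, h1, h2, h3⟩ := split_first (q := q) r.reverse (by simpa using h)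
  refine ⟨r2.reverse, n, r1.reverse, ?_, h2, by simpa using h3⟩
  have := congrArg List.reverse h1
  simp only [List.reverse_reverse] at this
  rw [this]
  simp

lemma NoC.two {q : X → Prop} {s r : List X} {z : X} (h : NoC q (s ++ z :: r)) (hz : q z)
    (hs : ∃ n ∈ s, ¬ q n) (hr : ∃ n ∈ r, ¬ q n) : False := by
  obtain ⟨s1, x, s2, rfl, h1, h2⟩ := split_last s hs
  obtain ⟨r1, y, r2, rfl, h3, h4⟩ := split_first r hr
  refine h x (s2 ++ z :: r1) y ⟨s1, r2, by simp⟩ h1 h3 (by simp) ?_
  intro j hj
  rcases List.mem_append.1 hj with h5 | h5
  · exact h2 j h5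
  · rcases List.mem_cons.1 h5 with rfl | h6
    · exact hz
    · exact h4 j h6

lemma NoC.to_end {q : X → Prop} {R : List X} {x z : X} (h : NoC q (x :: z :: R)) (hx : ¬ q x)
    (hz : q z) : ∀ j ∈ R, q j := by
  intro j hj
  by_contra hq
  exact NoC.two (s := [x]) (z := z) (r := R) h hz ⟨x, by simp, hx⟩ ⟨j, hj, hq⟩

/-- Between two visible letters. -/
lemma between (c : X → Option γ) (y : X) : ∀ (R : List X) (x : X),
    (∀ g, NoC (fun z => c z = some g) (x :: (R ++ [y]))) →
    (∀ g, c x = some g → c y = some g → ∀ z ∈ R, c z = some g) →
    vis c (c x) (R ++ [y]) = em (c x) (c y) := by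
  intro R
  induction R with
  | nil => intro x _ _; simp [vis_cons, vis_nil]
  | cons z R ih =>
    intro x h1 h2
    have hsuf : (z :: (R ++ [y])) <:+: (x :: (z :: R ++ [y])) := ⟨[x], [], by simp⟩
    rw [List.cons_append, vis_cons]
    by_cases hzx : c z = c x
    · rw [hzx, em_self, List.nil_append, ← hzx]
      rw [ih z (fun g => (h1 g).mono hsuf)
        (fun g hg hy w hw => h2 g (hzx ▸ hg) hy w (by simp [hw]))]
    · cases hz : c z with
      | none =>
        rw [em_none, List.nil_append]
        have := ih z (fun g => (h1 g).mono hsuf) (fun g hg => by rw [hz] at hg; cases hg)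
        rw [hz] at this
        rw [this]
        cases hy : c y with
        | none => rfl
        | some g =>
          have hx : c x ≠ some g := by
            intro hx
            have := h2 g hx hy z (by simp)
            rw [hz] at this
            cases this
          rw [em_ne hx, em_ne (by simp)]
      | some g =>
        have hx : c x ≠ some g := fun h => hzx (hz.trans h.symm)
        have hall : ∀ j ∈ R ++ [y], c j = some g :=
          NoC.to_end (q := fun z => c z = some g) (h1 g) hx hz
        rw [vis_const c (some g) _ hall, hall y (by simp), List.append_nil]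

end gen

section abs

variable {X β : Type} [DecidableEq β]

/-- Inside an owned visit. -/
lemma tail_own (κ : X → Option (Option β)) : ∀ (R : List X) (z : X), κ z = none →
    (∀ j ∈ R, κ j ≠ some none) → (∀ b, NoC (fun j => κ j = some (some b)) (z :: R)) →
    (vis κ none R).length ≤ 1 := by
  intro R
  induction R with
  | nil => intro z _ _ _; simp [vis_nil]
  | cons y R ih =>
    intro z hz ho hn
    rw [vis_cons]
    have hsuf : (y :: R) <:+: (z :: y :: R) := ⟨[z], [], by simp⟩
    cases hy : κ y with
    | none =>
      rw [em_none, List.nil_append]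
      exact ih y hy (fun j hj => ho j (by simp [hj])) fun b => (hn b).mono hsuf
    | some g =>
      cases g with
      | none => exact absurd hy (ho y (by simp))
      | some b =>
        have hall := NoC.to_end (hn b) (by rw [hz]; simp) hy
        rw [vis_const κ _ R hall, List.append_nil]
        exact em_length _ _

/-- After the last visible letter. -/
lemma suffix_bound (κ : X → Option (Option β)) : ∀ (R : List X) (x : X),
    NoC (fun j => κ j ≠ some none) (x :: R) →
    (∀ b, NoC (fun j => κ j = some (some b)) (x :: R)) →
    (vis κ (κ x) R).length ≤ 2 ∧ (κ x = some none → (vis κ (κ x) R).length ≤ 1) := by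
  intro R
  induction R with
  | nil => intro x _ _; simp [vis_nil]
  | cons z R ih =>
    intro x ho hn
    have hsuf : (z :: R) <:+: (x :: z :: R) := ⟨[x], [], by simp⟩
    have ih' := ih z (ho.mono hsuf) fun b => (hn b).mono hsuf
    rw [vis_cons, List.length_append]
    have hem := em_length (κ x) (κ z)
    have key : κ z ≠ κ x → κ z ≠ none → κ z ≠ some none → (vis κ (κ z) R).length = 0 := by
      intro h1 h2 h3
      obtain ⟨g, hg⟩ := Option.ne_none_iff_exists'.1 h2
      cases g with
      | none => exact absurd hg h3
      | some b =>
        have hall := NoC.to_end (hn b) (fun h => h1 (hg.trans h.symm)) hg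
        rw [hg, vis_const κ _ R hall]
        rfl
    by_cases hx : κ x = some none
    · have goal : (em (κ x) (κ z)).length + (vis κ (κ z) R).length ≤ 1 := by
        by_cases hz : κ z = some none
        · rw [hx, hz, em_self]
          have := ih'.2 hz
          rw [hz] at this
          simpa using this
        · by_cases hz' : κ z = none
          · rw [hz', em_none]
            have hall := NoC.to_end ho (by simpa using hx) hz
            have := tail_own κ R z hz' hall fun b => (hn b).mono hsuf
            simpa using this
          · have := key (by rw [hx]; exact hz) hz' hz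
            omega
      exact ⟨by omega, fun _ => goal⟩
    · refine ⟨?_, fun h => absurd h hx⟩
      by_cases hz : κ z = some none
      · have := ih'.2 hz
        omega
      · by_cases hz' : κ z = none
        · have := ih'.1
          rw [hz', em_none]
          rw [hz'] at this
          simpa using this
        · by_cases hzx : κ z = κ x
          · have := ih'.1
            rw [hzx, em_self]
            rw [hzx] at this
            simpa using this
          · have := key hzx hz' hz
            omega

variable (v : X → Bool)

/-- Complete runs are visible. -/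
def C1 (q : X → Prop) (l : List X) : Prop :=
  ∀ (x : X) (R : List X) (y : X), (x :: (R ++ [y])) <:+: l → ¬ q x → ¬ q y → R ≠ [] →
    (∀ j ∈ R, q j) → ∃ j ∈ R, v j = true

/-- Two runs are separated. -/
def C2 (q : X → Prop) (l : List X) : Prop :=
  ∀ (x : X) (R : List X) (y : X), (x :: (R ++ [y])) <:+: l → q x → q y → v x = true → v y = true →
    (∃ j ∈ R, ¬ q j) → ∃ j ∈ R, v j = true

lemma inner {F : List X} {x y : X} {R : List X} (h : (x :: (R ++ [y])) <:+: F) :
    ∀ j ∈ R, j ∈ F.tail.dropLast := by
  obtain ⟨s, r, rfl⟩ := h
  intro j hj
  have e : ∃ s', (s ++ (x :: (R ++ [y])) ++ r).tail = s' ++ R ++ [y] ++ r := by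
    cases s with
    | nil => exact ⟨[], by simp⟩
    | cons a s => exact ⟨s ++ [x], by simp⟩
  obtain ⟨s', e⟩ := e
  rw [e]
  rcases List.eq_nil_or_concat r with rfl | ⟨r', z, rfl⟩
  · rw [List.append_nil, List.dropLast_concat]
    exact List.mem_append_right _ hj
  · rw [List.concat_eq_append, ← List.append_assoc, List.dropLast_concat]
    simp [hj]

lemma NoC.of {q : X → Prop} {W F : List X} (h : C1 v q W) (hF : F <:+: W)
    (hv : ∀ j ∈ F.tail.dropLast, v j = false) : NoC q F := by
  intro x R y hf hx hy hR hq
  obtain ⟨j, hj, hj'⟩ := h x R y (hf.trans hF) hx hy hR hq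
  rw [hv j (inner hf j hj)] at hj'
  cases hj'

/-- The hypotheses on the annotated word. -/
structure Good (κ : X → Option (Option β)) (W : List X) : Prop where
  c1o : C1 v (fun j => κ j ≠ some none) W
  c2o : C2 v (fun j => κ j ≠ some none) W
  c1 : ∀ b, C1 v (fun j => κ j = some (some b)) W
  c2 : ∀ b, C2 v (fun j => κ j = some (some b)) W

variable {v}

lemma between' {κ : X → Option (Option β)} {W : List X} (hW : Good v κ W) {x y : X} {R : List X}
    (hf : (x :: (R ++ [y])) <:+: W) (hx : v x = true) (hy : v y = true)
    (hR : ∀ j ∈ R, v j = false) : vis κ (κ x) (R ++ [y]) = em (κ x) (κ y) := by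
  have hin : ∀ j ∈ (x :: (R ++ [y])).tail.dropLast, v j = false := by simpa using hR
  have hno := NoC.of v hW.c1o hf hin
  have hnb := fun b => NoC.of v (hW.c1 b) hf hin
  have hinv : ¬ ∃ j ∈ R, v j = true := by
    rintro ⟨j, hj, hj'⟩
    rw [hR j hj] at hj'
    cases hj'
  have e0 : x :: (R ++ [y]) = [x] ++ (R ++ [y]) := rfl
  refine between κ y R x ?_ ?_
  · intro g
    cases g with
    | some b => exact hnb b
    | none =>
      intro x' R' y' hf' hx' hy' hR' hq
      have hmem := inner hf'
      have hin' : (x :: (R ++ [y])).tail.dropLast = R := by simp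
      rw [hin'] at hmem
      obtain ⟨a, R'', rfl⟩ := List.exists_cons_of_ne_nil hR'
      have ha : κ a = some none := hq a (by simp)
      obtain ⟨s, r, hs⟩ := hf'
      -- `x` is owned
      have hxo : κ x ≠ some none := by
        intro hxn
        cases s with
        | nil =>
          simp only [List.nil_append, List.cons_append, List.cons.injEq] at hs
          exact hx' (hs.1 ▸ hxn)
        | cons s0 s =>
          have hs' := hs
          simp only [List.cons_append, List.cons.injEq] at hs'
          refine NoC.two (q := fun j => κ j ≠ some none) (s := s0 :: s) (z := x')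
            (r := (a :: R'') ++ [y'] ++ r) ?_ hx' ⟨s0, by simp, ?_⟩ ⟨a, by simp, by simpa using ha⟩
          · rw [← hs] at hno
            simpa using hno
          · rw [hs'.1]
            simpa using hxn
      have hyo : κ y ≠ some none := by
        intro hyn
        rcases List.eq_nil_or_concat r with rfl | ⟨r', z, rfl⟩
        · have e1 : (s ++ (x' :: (a :: R''))) ++ [y'] = (x :: R) ++ [y] := by
            rw [List.append_nil] at hs
            rw [List.cons_append, ← hs]
            simp
          have e2 := (List.append_inj' e1 rfl).2
          simp only [List.cons.injEq, and_true] at e2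
          exact hy' (e2 ▸ hyn)
        · have e1 : (s ++ (x' :: ((a :: R'') ++ [y'])) ++ r') ++ [z] = (x :: R) ++ [y] := by
            have e1' : (x :: R) ++ [y] = x :: (R ++ [y]) := rfl
            rw [e1', ← hs]
            simp
          have e2 := (List.append_inj' e1 rfl).2
          simp only [List.cons.injEq, and_true] at e2
          refine NoC.two (q := fun j => κ j ≠ some none) (s := s ++ x' :: (a :: R'')) (z := y')
            (r := r' ++ [z]) ?_ hy' ⟨a, by simp, by simpa using ha⟩ ⟨z, by simp, ?_⟩
          · rw [← hs] at hno
            simpa using hno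
          · rw [e2]
            simpa using hyn
      exact hinv (hW.c2o x R y hf hxo hyo hx hy ⟨a, hmem a (by simp), by simpa using ha⟩)
  · intro g hgx hgy z hz
    cases g with
    | some b =>
      by_contra hne
      exact hinv (hW.c2 b x R y hf hgx hgy hx hy ⟨z, hz, hne⟩)
    | none =>
      by_contra hne
      obtain ⟨R1, R2, rfl⟩ := List.append_of_mem hz
      refine NoC.two (q := fun j => κ j ≠ some none) (s := x :: R1) (z := z) (r := R2 ++ [y])
        (by simpa using hno) hne ⟨x, by simp, by simpa using hgx⟩ ⟨y, by simp, by simpa using hgy⟩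

/-- From a visible letter on. -/
lemma from_visible {κ : X → Option (Option β)} {W : List X} (hW : Good v κ W) :
    ∀ (n : ℕ) (w : List X) (x : X), w.length ≤ n → (x :: w) <:+: W → v x = true →
      ∃ b : List (Option β), b.length ≤ 2 ∧ vis κ (κ x) w = vis κ (κ x) (w.filter v) ++ b := by
  intro n
  induction n with
  | zero =>
    intro w x hw _ _
    have : w = [] := List.length_eq_zero_iff.1 (by omega)
    subst this
    exact ⟨[], by simp, by simp⟩
  | succ n ih =>
    intro w x hw hf hx
    by_cases h : ∃ j ∈ w, ¬ v j = false
    · obtain ⟨R, y, w', rfl, hy, hR⟩ := split_first (q := fun j => v j = false) w h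
      have hy' : v y = true := by simpa using hy
      obtain ⟨b, hb, e⟩ := ih w' y (by simp at hw; omega)
        (fac_trans ⟨x :: R, [], by simp⟩ hf) hy'
      refine ⟨b, hb, ?_⟩
      have e2 : (R ++ y :: w').filter v = y :: w'.filter v := by
        rw [List.filter_append, List.filter_cons_of_pos hy']
        have : R.filter v = [] := by
          rw [List.filter_eq_nil_iff]
          intro j hj
          simp [hR j hj]
        rw [this, List.nil_append]
      rw [vis_append, between' hW (fac_trans ⟨[], w', by simp⟩ hf) hx hy' hR, e, e2,
        vis_cons, List.append_assoc]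
    · push Not at h
      have e2 : w.filter v = [] := by
        rw [List.filter_eq_nil_iff]
        intro j hj
        simp [h j hj]
      rw [e2, vis_nil]
      refine ⟨_, ?_, (List.nil_append _).symm⟩
      have hin : ∀ j ∈ (x :: w).tail.dropLast, v j = false := fun j hj =>
        h j (List.mem_of_mem_dropLast hj)
      exact (suffix_bound κ w x (NoC.of v hW.c1o hf hin) fun b => NoC.of v (hW.c1 b) hf hin).1

/-- The abstract statement. -/
lemma all_visible {κ : X → Option (Option β)} {W : List X} (hW : Good v κ W) :
    ∃ a b : List (Option β), a.length ≤ 2 ∧ b.length ≤ 2 ∧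
      vis κ none W = a ++ vis κ none (W.filter v) ++ b := by
  by_cases h : ∃ j ∈ W, ¬ v j = false
  · obtain ⟨R, x, w, rfl, hx, hR⟩ := split_first (q := fun j => v j = false) W h
    have hx' : v x = true := by simpa using hx
    obtain ⟨b, hb, e⟩ := from_visible hW w.length w x le_rfl ⟨R, [], by simp⟩ hx'
    have e2 : (R ++ x :: w).filter v = x :: w.filter v := by
      rw [List.filter_append, List.filter_cons_of_pos hx']
      have : R.filter v = [] := by
        rw [List.filter_eq_nil_iff]
        intro j hj
        simp [hR j hj]
      rw [this, List.nil_append]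
    have hf : (R ++ [x]) <:+: (R ++ x :: w) := ⟨[], w, by simp⟩
    have hin : ∀ j ∈ (R ++ [x]).tail.dropLast, v j = false := by
      intro j hj
      apply hR
      cases R with
      | nil => simp at hj
      | cons r R =>
        rw [List.cons_append, List.tail_cons, List.dropLast_concat] at hj
        simp [hj]
    have h1 := (NoC.of v hW.c1o hf hin).rev
    have h2 := fun b => (NoC.of v (hW.c1 b) hf hin).rev
    rw [List.reverse_append, List.reverse_singleton, List.singleton_append] at h1
    simp only [List.reverse_append, List.reverse_singleton, List.singleton_append] at h2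
    have h3 := (suffix_bound κ R.reverse x h1 h2).1
    have e3 : vis κ none (R ++ [x]) = (vis κ (κ x) R.reverse).reverse ++ em none (κ x) := by
      have := vis_reverse κ (x :: R.reverse)
      rw [List.reverse_cons, List.reverse_reverse] at this
      rw [this, vis_cons, List.reverse_append, em_reverse]
    refine ⟨(vis κ (κ x) R.reverse).reverse, b, by simpa using h3, hb, ?_⟩
    rw [vis_append, e3, e2, vis_cons κ none, e]
    simp
  · push Not at h
    have e2 : W.filter v = [] := by
      rw [List.filter_eq_nil_iff]
      intro j hj
      simp [h j hj]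
    rw [e2, vis_nil]
    simp only [List.append_nil]
    cases W with
    | nil => exact ⟨[], [], by simp, by simp, by simp [vis_nil]⟩
    | cons x w =>
      have hin : ∀ j ∈ (x :: w).tail.dropLast, v j = false := fun j hj =>
        h j (List.mem_cons_of_mem _ (List.mem_of_mem_dropLast hj))
      have hf : (x :: w) <:+: (x :: w) := ⟨[], [], by simp⟩
      refine ⟨em none (κ x), vis κ (κ x) w, (em_length _ _).trans (by omega), ?_, vis_cons _ _ _ _⟩
      exact (suffix_bound κ w x (NoC.of v hW.c1o hf hin) fun b => NoC.of v (hW.c1 b) hf hin).1

end abs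

section conc

variable {L β : Type} [DecidableEq L] [DecidableEq β]

/-- The word with the side of the child before every letter. -/
def ann (o : L) : Bool → List L → List (L × Bool)
  | _, [] => []
  | s, x :: w => (x, s) :: ann o (xor s (decide (x = o))) w

/-- Parity of the number of letters `o`. -/
def par (o : L) (w : List L) : Bool := decide (Odd (w.count o))

lemma par_cons (o x : L) (w : List L) : par o (x :: w) = xor (decide (x = o)) (par o w) := by
  unfold par
  by_cases h : x = o
  · subst h
    rw [List.count_cons_self]
    by_cases h' : Odd (w.count x)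
    · have : ¬ Odd (w.count x + 1) := by rw [Nat.odd_add_one]; exact fun h => h h'
      simp [h', this]
    · have : Odd (w.count x + 1) := by rw [Nat.odd_add_one]; exact h'
      simp [h', this]
  · rw [List.count_cons_of_ne h]
    simp [h]

lemma ann_split (o : L) : ∀ (P : List L) (s : Bool) (U V : List (L × Bool)),
    ann o s P = U ++ V → ∃ P1 P2, P = P1 ++ P2 ∧ U = ann o s P1 ∧ V = ann o (xor s (par o P1)) P2 := by
  intro P
  induction P with
  | nil =>
    intro s U V h
    obtain ⟨rfl, rfl⟩ := List.append_eq_nil_iff.1 h.symm
    exact ⟨[], [], rfl, rfl, rfl⟩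
  | cons x P ih =>
    intro s U V h
    cases U with
    | nil => exact ⟨[], x :: P, rfl, rfl, by simpa [par] using h.symm⟩
    | cons u U =>
      rw [ann, List.cons_append, List.cons.injEq] at h
      obtain ⟨P1, P2, rfl, h1, h2⟩ := ih _ U V h.2
      refine ⟨x :: P1, P2, rfl, ?_, ?_⟩
      · rw [ann, ← h.1, ← h1]
      · rw [h2, par_cons, Bool.xor_assoc]

lemma ann_nil_iff (o : L) (s : Bool) (P : List L) : ann o s P = [] ↔ P = [] := by
  cases P <;> simp [ann]

/-- If the side at the beginning is `t` and all letters are in `B`, then all sides are `t`. -/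
lemma ann_side {o : L} {B : Finset L} (ho : o ∉ B) (t : Bool) : ∀ P : List L, (∀ j ∈ P, j ∈ B) →
    ∀ z ∈ ann o t P, z.2 = t := by
  intro P
  induction P with
  | nil => intro _ z hz; simp [ann] at hz
  | cons x P ih =>
    intro h z hz
    have hx : x ≠ o := fun e => ho (e ▸ h x (by simp))
    rw [ann] at hz
    simp only [hx, decide_false, Bool.xor_false] at hz
    rcases List.mem_cons.1 hz with rfl | hz
    · rfl
    · exact ih (fun j hj => h j (by simp [hj])) z hz

lemma ann_fst {o : L} (s : Bool) : ∀ (P : List L) (z : L × Bool), z ∈ ann o s P → z.1 ∈ P := by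
  intro P
  induction P generalizing s with
  | nil => intro z hz; simp [ann] at hz
  | cons x P ih =>
    intro z hz
    rw [ann] at hz
    rcases List.mem_cons.1 hz with rfl | hz
    · simp
    · exact List.mem_cons_of_mem _ (ih _ z hz)

lemma ann_mem {o : L} (s : Bool) : ∀ (P : List L) (x : L), x ∈ P → ∃ s', (x, s') ∈ ann o s P := by
  intro P
  induction P generalizing s with
  | nil => intro x hx; simp at hx
  | cons y P ih =>
    intro x hx
    rcases List.mem_cons.1 hx with rfl | hx
    · exact ⟨s, by simp [ann]⟩
    · obtain ⟨s', hs'⟩ := ih (xor s (decide (y = o))) x hx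
      exact ⟨s', by simp [ann, hs']⟩

lemma par_of_not_mem {o : L} (P : List L) (h : o ∉ P) : par o P = false := by
  unfold par
  rw [List.count_eq_zero_of_not_mem h]
  rfl

/-- The factors of the annotated word. -/
lemma ann_factor {o : L} {a : Bool} {P : List L} {x y : L × Bool} {R : List (L × Bool)}
    (h : (x :: (R ++ [y])) <:+: ann o a P) :
    ∃ R0 : List L, (x.1 :: (R0 ++ [y.1])) <:+: P ∧ R = ann o (xor x.2 (decide (x.1 = o))) R0 ∧
      y.2 = xor (xor x.2 (decide (x.1 = o))) (par o R0) := by
  obtain ⟨U, V, h⟩ := h
  rw [List.append_assoc] at h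
  obtain ⟨P1, P2, rfl, -, h2⟩ := ann_split o P a _ _ h.symm
  cases P2 with
  | nil => simp [ann] at h2
  | cons z P2 =>
    rw [ann, List.cons_append, List.cons.injEq] at h2
    obtain ⟨h3, h4⟩ := h2
    rw [List.append_assoc] at h4
    obtain ⟨R0, P3, rfl, h5, h6⟩ := ann_split o P2 _ _ _ h4.symm
    cases P3 with
    | nil => simp [ann] at h6
    | cons w P3 =>
      rw [ann, List.singleton_append, List.cons.injEq] at h6
      refine ⟨R0, ⟨P1, P3, ?_⟩, ?_, ?_⟩
      · rw [h3, h6.1]
        simp
      · rw [h5, h3]
      · rw [h6.1, h3]

variable [Fintype L] (D : KS L)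

/-- Visible letters. -/
noncomputable def vb (z : L × Bool) : Bool := decide (z.1 ≠ D.o) && (D.pre z.2 z.1).isSome

/-- The class of a letter for the child. -/
def ka (A : Finset L) (t : Bool) (c : L → Option β) (z : L × Bool) : Option (Option β) :=
  if z.1 ∈ A ∧ z.2 = t then (c z.1).map some else some none

lemma vis_child (A : Finset L) (t : Bool) (c : L → Option β) :
    ∀ (P : List L) (s : Bool) (p : Option (Option β)),
      vis (fun i => if D.side i = t ∧ D.nxt i ∈ A then (c (D.nxt i)).map some else some none) p
        (D.sec s P) = vis (ka A t c) p ((ann D.o s P).filter (vb D)) := by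
  intro P
  induction P with
  | nil => intro s p; rw [B1Aux.sec_nil, ann, List.filter_nil, vis_nil, vis_nil]
  | cons x P ih =>
    intro s p
    by_cases hx : x = D.o
    · subst hx
      rw [B1Aux.sec_o, ann, List.filter_cons_of_neg (by simp [vb]), ih]
      simp
    · cases hp : D.pre s x with
      | none =>
        rw [B1Aux.sec_none D hx hp, ann, List.filter_cons_of_neg (by simp [vb, hp]), ih]
        simp [hx]
      | some i =>
        obtain ⟨h1, h2⟩ := (B1Aux.pre_eq D s x i).1 hp
        rw [B1Aux.sec_some D hx hp, ann, List.filter_cons_of_pos (by simp [vb, hp, hx]), vis_cons,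
          vis_cons, ih]
        have e : (if D.side i = t ∧ D.nxt i ∈ A then (c (D.nxt i)).map some else some none) =
            ka A t c (x, s) := by
          unfold ka
          rw [h1, h2]
          simp only [and_comm]
        rw [e]
        simp [hx]

lemma exists_visible (s : Bool) (P : List L) (h : D.sec s P ≠ []) :
    ∃ j ∈ ann D.o s P, vb D j = true := by
  induction P generalizing s with
  | nil => rw [B1Aux.sec_nil] at h; exact absurd rfl h
  | cons x P ih =>
    by_cases hx : x = D.o
    · subst hx
      rw [B1Aux.sec_o] at h
      obtain ⟨j, hj, hj'⟩ := ih _ h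
      refine ⟨j, ?_, hj'⟩
      rw [ann]
      simp [hj]
    · cases hp : D.pre s x with
      | none =>
        rw [B1Aux.sec_none D hx hp] at h
        obtain ⟨j, hj, hj'⟩ := ih _ h
        refine ⟨j, ?_, hj'⟩
        rw [ann]
        simp [hj, hx]
      | some i => exact ⟨(x, s), by simp [ann], by simp [vb, hx, hp]⟩

/-- `Clean` in the annotated word. -/
lemma c1_of_clean {B : Finset L} {t : Bool} {P : List L} (ho : D.o ∉ B) (h : D.Clean B t P)
    (a : Bool) : C1 (vb D) (fun z : L × Bool => z.1 ∈ B ∧ z.2 = t) (ann D.o a P) := by
  intro x R y hf hx hy hR hq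
  obtain ⟨R0, hf0, rfl, hy2⟩ := ann_factor hf
  have hR0 : R0 ≠ [] := fun e => hR ((ann_nil_iff _ _ _).2 e)
  have hall : ∀ j ∈ R0, j ∈ B := by
    intro j hj
    obtain ⟨s', hs'⟩ := ann_mem (o := D.o) (xor x.2 (decide (x.1 = D.o))) R0 j hj
    exact (hq _ hs').1
  obtain ⟨r, R1, rfl⟩ := List.exists_cons_of_ne_nil hR0
  have hside : xor x.2 (decide (x.1 = D.o)) = t :=
    (hq (r, xor x.2 (decide (x.1 = D.o))) (by rw [ann]; exact List.mem_cons_self)).2
  have hxB : x.1 ∉ B := by
    intro hxB
    have hne : x.1 ≠ D.o := fun e => ho (e ▸ hxB)
    rw [decide_eq_false hne, Bool.xor_false] at hside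
    exact hx ⟨hxB, hside⟩
  have hyB : y.1 ∉ B := by
    intro hyB
    rw [hside, par_of_not_mem (r :: R1) (fun ho' => ho (hall _ ho')), Bool.xor_false] at hy2
    exact hy ⟨hyB, hy2⟩
  rw [hside]
  exact exists_visible D t (r :: R1) (h.1 x.1 (r :: R1) y.1 hf0 hxB hyB (by simp) hall)

lemma c2_of_clean {B : Finset L} {t : Bool} {P : List L} (ho : D.o ∉ B) (h : D.Clean B t P)
    (a : Bool) : C2 (vb D) (fun z : L × Bool => z.1 ∈ B ∧ z.2 = t) (ann D.o a P) := by
  intro x R y hf hx hy hvx hvy hex
  obtain ⟨R0, hf0, rfl, hy2⟩ := ann_factor hf
  have hne : x.1 ≠ D.o := fun e => ho (e ▸ hx.1)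
  have hside : xor x.2 (decide (x.1 = D.o)) = t := by
    rw [decide_eq_false hne, Bool.xor_false, hx.2]
  rw [hside] at hy2 hex ⊢
  have hpar : par D.o R0 = false := by
    rw [hy.2] at hy2
    revert hy2
    cases t <;> cases par D.o R0 <;> simp
  have heven : Even (R0.count D.o) := by
    unfold par at hpar
    rw [decide_eq_false_iff_not, Nat.not_odd_iff_even] at hpar
    exact hpar
  have hv : ∀ z : L × Bool, vb D z = true → z.2 = t → D.pre t z.1 ≠ none := by
    intro z hz hzt
    unfold vb at hz
    rw [Bool.and_eq_true, hzt] at hz
    intro e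
    rw [e] at hz
    simp at hz
  have hex' : ∃ j ∈ R0, j ∉ B := by
    by_contra hcon
    push Not at hcon
    obtain ⟨z, hz, hz'⟩ := hex
    exact hz' ⟨hcon _ (ann_fst _ _ _ hz), ann_side ho t R0 hcon z hz⟩
  exact exists_visible D t R0 (h.2 x.1 R0 y.1 hf0 hx.1 hy.1 (hv x hvx hx.2) (hv y hvy hy.2)
    heven hex')

omit [DecidableEq β] [Fintype L] in
lemma ka_own (A : Finset L) (t : Bool) (c : L → Option β) (z : L × Bool) :
    ka A t c z ≠ some none ↔ (z.1 ∈ A ∧ z.2 = t) := by
  unfold ka
  split_ifs with h
  · refine ⟨fun _ => h, fun _ e => ?_⟩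
    cases hc : c z.1 with
    | none => rw [hc] at e; simp at e
    | some b => rw [hc] at e; simp at e
  · exact ⟨fun e => absurd rfl e, fun e => absurd e h⟩

lemma ka_cls {A : Finset L} (t : Bool) {c : L → Option β} (hc : ∀ x, x ∉ A → c x = none)
    (b : β) (z : L × Bool) :
    ka A t c z = some (some b) ↔ (z.1 ∈ cset c b ∧ z.2 = t) := by
  unfold ka cset
  rw [Finset.mem_filter]
  split_ifs with h
  · cases hcz : c z.1 with
    | none => simp
    | some b' => simp [h.2]
  · constructor
    · intro e
      simp at e
    · rintro ⟨⟨-, h1⟩, h2⟩
      refine absurd ⟨?_, h2⟩ h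
      by_contra hA
      rw [hc _ hA] at h1
      cases h1

lemma good {A : Finset L} {t : Bool} {c : L → Option β} {P : List L} (hoA : D.o ∉ A)
    (hc : ∀ x, x ∉ A → c x = none) (hA : D.Clean A t P)
    (hb : ∀ b, (cset c b).Nonempty → D.Clean (cset c b) t P) (a : Bool) :
    Good (vb D) (ka A t c) (ann D.o a P) := by
  have hob : ∀ b, D.o ∉ cset c b := by
    intro b h
    rw [cset, Finset.mem_filter, hc _ hoA] at h
    cases h.2
  have e1 : (fun z : L × Bool => ka A t c z ≠ some none) = fun z => z.1 ∈ A ∧ z.2 = t := by
    funext z
    exact propext (ka_own A t c z)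
  have e2 : ∀ b, (fun z : L × Bool => ka A t c z = some (some b)) =
      fun z => z.1 ∈ cset c b ∧ z.2 = t := by
    intro b
    funext z
    exact propext (ka_cls t hc b z)
  refine ⟨?_, ?_, ?_, ?_⟩
  · rw [e1]
    exact c1_of_clean D hoA hA a
  · rw [e1]
    exact c2_of_clean D hoA hA a
  · intro b
    rw [e2]
    rcases (cset c b).eq_empty_or_nonempty with h | h
    · intro x R y _ _ _ hR hq
      obtain ⟨r, R', rfl⟩ := List.exists_cons_of_ne_nil hR
      have := (hq r (by simp)).1
      rw [h] at this
      simp at this
    · exact c1_of_clean D (hob b) (hb b h) a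
  · intro b
    rw [e2]
    rcases (cset c b).eq_empty_or_nonempty with h | h
    · intro x R y _ hx
      have := hx.1
      rw [h] at this
      simp at this
    · exact c2_of_clean D (hob b) (hb b h) a

omit [Fintype L] in
lemma tk_cons (o : L) (c : L → Option β) (p : Option β) (q : Bool) (x : L) (w : List L) :
    tk o c p q (x :: w) = (em p (c x)).map (fun b => (b, q)) ++
      tk o c (c x) (xor q (decide (x = o))) w := by
  rw [tk]
  cases h : c x with
  | none => simp [em]
  | some b =>
    dsimp only [em]
    split_ifs <;> simp

omit [Fintype L] in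
/-- The filtered token word is the visit word of all letters, once the states are in tune. -/
lemma tk_all {o : L} {A : Finset L} (ho : o ∉ A) (t a : Bool) (c : L → Option β) :
    ∀ (P : List L) (q : Bool) (p p' : Option (Option β)),
      ((p = p' ∧ xor a q = t) ∨ (p' = some none ∧ (xor a q = t → p = some none))) →
      ((tk o (glR A c) p q P).filter fun z => z.2 == xor a t).map Prod.fst =
        vis (ka A t c) p' (ann o (xor a q) P) := by
  intro P
  induction P with
  | nil => intro q p p' _; simp [tk, ann, vis_nil]
  | cons x P ih =>
    intro q p p' hinv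
    rw [tk_cons, ann, vis_cons, List.filter_append, List.map_append]
    have hem : ∀ l : List (Option β), ((l.map fun b => (b, q)).filter fun z => z.2 == xor a t).map
        Prod.fst = if xor a q = t then l else [] := by
      intro l
      by_cases h : xor a q = t
      · rw [if_pos h]
        have h' : (q == xor a t) = true := by
          rw [← h]; cases a <;> cases q <;> rfl
        rw [List.filter_eq_self.2]
        · rw [List.map_map]
          exact List.map_id _
        · intro z hz
          obtain ⟨b, -, rfl⟩ := List.mem_map.1 hz
          exact h'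
      · rw [if_neg h]
        have h' : (q == xor a t) = false := by
          cases a <;> cases q <;> cases t <;> simp_all
        rw [List.filter_eq_nil_iff.2]
        · simp
        · intro z hz
          obtain ⟨b, -, rfl⟩ := List.mem_map.1 hz
          simp [h']
    rw [hem, Bool.xor_assoc]
    by_cases hs : xor a q = t
    · -- the states agree
      have hpp : p = p' := by
        rcases hinv with h | h
        · exact h.1
        · rw [h.1, h.2 hs]
      subst hpp
      rw [if_pos hs]
      have hk : ka A t c (x, xor a q) = glR A c x := by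
        unfold ka glR
        simp [hs]
      rw [hk]
      congr 1
      apply ih
      by_cases hx : x = o
      · right
        subst hx
        have : glR A c x = some none := by unfold glR; rw [if_neg ho]
        exact ⟨this, fun _ => this⟩
      · left
        refine ⟨rfl, ?_⟩
        rw [decide_eq_false hx, Bool.xor_false]
        exact hs
    · rw [if_neg hs]
      have hp' : p' = some none := by
        rcases hinv with h | h
        · exact absurd h.2 hs
        · exact h.1
      subst hp'
      have hk : ka A t c (x, xor a q) = some none := by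
        unfold ka
        simp [hs]
      rw [hk, em_self]
      congr 1
      apply ih
      right
      refine ⟨rfl, fun h => ?_⟩
      by_cases hx : x = o
      · subst hx
        unfold glR
        rw [if_neg ho]
      · rw [decide_eq_false hx, Bool.xor_false] at h
        exact absurd h hs

omit [Fintype L] in
lemma tk_start {o : L} {A : Finset L} (ho : o ∉ A) (t a : Bool) (c : L → Option β)
    (P : List L) : vis (ka A t c) none (ann o a P) =
      ((tk o (glR A c) none false P).filter fun z => z.2 == xor a t).map Prod.fst ∨
    vis (ka A t c) none (ann o a P) = none ::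
      ((tk o (glR A c) none false P).filter fun z => z.2 == xor a t).map Prod.fst := by
  by_cases h : a = t
  · left
    rw [tk_all ho t a c P false none none (Or.inl ⟨rfl, by simpa using h⟩), Bool.xor_false]
  · cases P with
    | nil => left; simp [tk, ann, vis_nil]
    | cons x P =>
      right
      rw [tk_all ho t a c (x :: P) false none (some none)
        (Or.inr ⟨rfl, fun h' => absurd (by simpa using h') h⟩), Bool.xor_false, ann, vis_cons,
        vis_cons]
      have hk : ka A t c (x, a) = some none := by
        unfold ka
        simp [h]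
      rw [hk, em_self]
      rfl

end conc

end PV3Aux

open PV3Aux in
/-- PV3. -/
theorem pv3 {L : Type} [Fintype L] [DecidableEq L] (S : Setup L) : LiftNear S := by
  intro β _ A t c P hoA hc hA hb a
  obtain ⟨u, w, hu, hw, e⟩ := all_visible (good S.D hoA hc hA hb a)
  have e1 : vis (S.kcl t A c) none (S.D.sec a P) =
      vis (ka A t c) none ((ann S.D.o a P).filter (vb S.D)) := vis_child S.D A t c P a none
  rw [e1]
  rcases tk_start hoA t a c P with h | h
  · rw [← h, e]
    exact ⟨[], [], u, w, _, by simp, rfl, by simp, by simp, hu, hw⟩
  · rw [h] at e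
    cases u with
    | cons x u =>
      rw [List.cons_append, List.cons_append, List.cons.injEq] at e
      rw [e.2]
      exact ⟨[], [], u, w, _, by simp, rfl, by simp, by simp, by simp at hu; omega, hw⟩
    | nil =>
      rw [List.nil_append] at e
      cases hl : vis (ka A t c) none ((ann S.D.o a P).filter (vb S.D)) with
      | nil =>
        rw [hl, List.nil_append] at e
        refine ⟨[], [], [], _, [], by simp, by simp; rfl, by simp, by simp, by simp, ?_⟩
        have := congrArg List.length e
        simp only [List.length_cons] at this
        omega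
      | cons y l =>
        rw [hl, List.cons_append, List.cons.injEq] at e
        rw [e.2]
        exact ⟨[y], [], [], w, l, by simp, by simp, by simp, by simp, by simp, hw⟩

end R4
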