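import Pool.Agent.Work.MP_e3f5d9_al.MK0
import Pool.Agent.Work.MP_e3f5d9_al.PV3

/-!
# MK3: the lift with prefixes

The proof of `PV3.lean` with a tag at every position (the word read so far by the child); the tag
does not change along letters that are not produced.
-/

set_option autoImplicit false

open Finset

namespace R4.Mk

namespace MK3Aux

open R4.PV3Aux

section gen

variable {X γ U : Type} [DecidableEq γ]

/-- The visits with the tag of their first letter. -/
def vt (c : X → Option γ) (τ : X → U) : Option γ → List X → List (γ × U)
  | _, [] => []
  | p, x :: w => (em p (c x)).map (fun b => (b, τ x)) ++ vt c τ (c x) w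

variable (c : X → Option γ) (τ : X → U)

lemma vt_nil (p : Option γ) : vt c τ p [] = [] := rfl

lemma vt_cons (p : Option γ) (x : X) (w : List X) :
    vt c τ p (x :: w) = (em p (c x)).map (fun b => (b, τ x)) ++ vt c τ (c x) w := rfl

lemma vt_append (x : X) (w : List X) : ∀ (u : List X) (p : Option γ),
    vt c τ p (u ++ x :: w) = vt c τ p (u ++ [x]) ++ vt c τ (c x) w := by
  intro u
  induction u with
  | nil => intro p; simp [vt_cons, vt_nil]
  | cons y u ih => intro p; rw [List.cons_append, vt_cons, ih, List.cons_append, vt_cons,
      List.append_assoc]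

lemma vt_const {τ : X → U} (u : U) : ∀ (l : List X) (p : Option γ), (∀ j ∈ l, τ j = u) →
    vt c τ p l = (vis c p l).map fun b => (b, u) := by
  intro l
  induction l with
  | nil => intro p _; simp [vt_nil, vis_nil]
  | cons x l ih =>
    intro p h
    rw [vt_cons, vis_cons, List.map_append, h x (by simp), ih _ fun j hj => h j (by simp [hj])]

lemma vt_length : ∀ (l : List X) (p : Option γ), (vt c τ p l).length = (vis c p l).length := by
  intro l
  induction l with
  | nil => intro p; simp [vt_nil, vis_nil]
  | cons x l ih => intro p; rw [vt_cons, vis_cons, List.length_append, List.length_append,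
      List.length_map, ih]

end gen

section abs

variable {X β U : Type} [DecidableEq β] {v : X → Bool}

/-- The tag does not change along invisible letters. -/
def Still (v : X → Bool) (τ : X → U) (W : List X) : Prop :=
  ∀ x y : X, [x, y] <:+: W → v x = false → τ y = τ x

lemma Still.const {τ : X → U} {W : List X} (h : Still v τ W) (y : X) : ∀ R : List X,
    (R ++ [y]) <:+: W → (∀ j ∈ R, v j = false) → ∀ j ∈ R, τ j = τ y := by
  intro R
  induction R with
  | nil => intro _ _ j hj; simp at hj
  | cons x R ih =>
    intro hf hv
    have h1 : (R ++ [y]) <:+: W := fac_trans ⟨[x], [], by simp⟩ hf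
    have ih' := ih h1 fun j hj => hv j (by simp [hj])
    have h2 : τ x = τ y := by
      cases R with
      | nil => exact (h x y (by simpa using hf) (hv x (by simp))).symm
      | cons z R =>
        have := h x z (fac_trans ⟨[], R ++ [y], by simp⟩ hf) (hv x (by simp))
        rw [← this]
        exact ih' z (by simp)
    intro j hj
    rcases List.mem_cons.1 hj with rfl | hj
    · exact h2
    · exact ih' j hj

lemma from_visible_t {κ : X → Option (Option β)} {τ : X → U} {W : List X} (hW : Good v κ W)
    (ht : Still v τ W) : ∀ (n : ℕ) (w : List X) (x : X), w.length ≤ n → (x :: w) <:+: W →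
      v x = true → ∃ b : List (Option β × U), b.length ≤ 2 ∧
        vt κ τ (κ x) w = vt κ τ (κ x) (w.filter v) ++ b := by
  intro n
  induction n with
  | zero =>
    intro w x hw _ _
    have : w = [] := List.length_eq_zero_iff.1 (by omega)
    subst this
    exact ⟨[], by simp, by simp⟩
  | succ n ih =>
    intro w x hw hf hx
    by_cases h : ∃ j ∈ w, ¬ v j = false
    · obtain ⟨R, y, w', rfl, hy, hR⟩ := split_first (q := fun j => v j = false) w h
      have hy' : v y = true := by simpa using hy
      obtain ⟨b, hb, e⟩ := ih w' y (by simp at hw; omega)
        (fac_trans ⟨x :: R, [], by simp⟩ hf) hy'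
      refine ⟨b, hb, ?_⟩
      have e2 : (R ++ y :: w').filter v = y :: w'.filter v := by
        rw [List.filter_append, List.filter_cons_of_pos hy']
        have : R.filter v = [] := by
          rw [List.filter_eq_nil_iff]
          intro j hj
          simp [hR j hj]
        rw [this, List.nil_append]
      have hf' : (x :: (R ++ [y])) <:+: W := fac_trans ⟨[], w', by simp⟩ hf
      have hc := ht.const y R (fac_trans ⟨[x], [], by simp⟩ hf') hR
      have e3 : vt κ τ (κ x) (R ++ [y]) = (em (κ x) (κ y)).map fun b => (b, τ y) := by
        rw [vt_const κ (τ y) (R ++ [y]) (κ x), between' hW hf' hx hy' hR]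
        intro j hj
        rcases List.mem_append.1 hj with hj | hj
        · exact hc j hj
        · rw [List.mem_singleton.1 hj]
      rw [vt_append, e3, e, e2, vt_cons, List.append_assoc]
    · push Not at h
      have e2 : w.filter v = [] := by
        rw [List.filter_eq_nil_iff]
        intro j hj
        simp [h j hj]
      rw [e2, vt_nil]
      refine ⟨_, ?_, (List.nil_append _).symm⟩
      rw [vt_length]
      have hin : ∀ j ∈ (x :: w).tail.dropLast, v j = false := fun j hj =>
        h j (List.mem_of_mem_dropLast hj)
      exact (suffix_bound κ w x (NoC.of v hW.c1o hf hin) fun b => NoC.of v (hW.c1 b) hf hin).1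

/-- The abstract statement. -/
lemma all_visible_t {κ : X → Option (Option β)} {τ : X → U} {W : List X} (hW : Good v κ W)
    (ht : Still v τ W) : ∃ a b : List (Option β × U), a.length ≤ 2 ∧ b.length ≤ 2 ∧
      vt κ τ none W = a ++ vt κ τ none (W.filter v) ++ b := by
  by_cases h : ∃ j ∈ W, ¬ v j = false
  · obtain ⟨R, x, w, rfl, hx, hR⟩ := split_first (q := fun j => v j = false) W h
    have hx' : v x = true := by simpa using hx
    obtain ⟨b, hb, e⟩ := from_visible_t hW ht w.length w x le_rfl ⟨R, [], by simp⟩ hx'
    have e2 : (R ++ x :: w).filter v = x :: w.filter v := by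
      rw [List.filter_append, List.filter_cons_of_pos hx']
      have : R.filter v = [] := by
        rw [List.filter_eq_nil_iff]
        intro j hj
        simp [hR j hj]
      rw [this, List.nil_append]
    have hf : (R ++ [x]) <:+: (R ++ x :: w) := ⟨[], w, by simp⟩
    have hin : ∀ j ∈ (R ++ [x]).tail.dropLast, v j = false := by
      intro j hj
      apply hR
      cases R with
      | nil => simp at hj
      | cons r R =>
        rw [List.cons_append, List.tail_cons, List.dropLast_concat] at hj
        simp [hj]
    have h1 := (NoC.of v hW.c1o hf hin).rev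
    have h2 := fun b => (NoC.of v (hW.c1 b) hf hin).rev
    rw [List.reverse_append, List.reverse_singleton, List.singleton_append] at h1
    simp only [List.reverse_append, List.reverse_singleton, List.singleton_append] at h2
    have h3 := (suffix_bound κ R.reverse x h1 h2).1
    have e3 : vis κ none (R ++ [x]) = (vis κ (κ x) R.reverse).reverse ++ em none (κ x) := by
      have := vis_reverse κ (x :: R.reverse)
      rw [List.reverse_cons, List.reverse_reverse] at this
      rw [this, vis_cons, List.reverse_append, em_reverse]
    have hc := ht.const x R hf hR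
    have e4 : vt κ τ none (R ++ [x]) = ((vis κ (κ x) R.reverse).reverse.map fun b => (b, τ x)) ++
        (em none (κ x)).map fun b => (b, τ x) := by
      rw [vt_const κ (τ x) (R ++ [x]) none, e3, List.map_append]
      intro j hj
      rcases List.mem_append.1 hj with hj | hj
      · exact hc j hj
      · rw [List.mem_singleton.1 hj]
    refine ⟨(vis κ (κ x) R.reverse).reverse.map fun b => (b, τ x), b, by simpa using h3, hb, ?_⟩
    rw [vt_append, e4, e2, vt_cons κ τ none, e]
    simp
  · push Not at h
    have e2 : W.filter v = [] := by
      rw [List.filter_eq_nil_iff]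
      intro j hj
      simp [h j hj]
    rw [e2, vt_nil]
    simp only [List.append_nil]
    cases W with
    | nil => exact ⟨[], [], by simp, by simp, by simp [vt_nil]⟩
    | cons x w =>
      have hin : ∀ j ∈ (x :: w).tail.dropLast, v j = false := fun j hj =>
        h j (List.mem_cons_of_mem _ (List.mem_of_mem_dropLast hj))
      have hf : (x :: w) <:+: (x :: w) := ⟨[], [], by simp⟩
      refine ⟨(em none (κ x)).map fun b => (b, τ x), vt κ τ (κ x) w, ?_, ?_, vt_cons _ _ _ _ _⟩
      · rw [List.length_map]
        exact (em_length _ _).trans (by omega)
      · rw [vt_length]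
        exact (suffix_bound κ w x (NoC.of v hW.c1o hf hin)
          fun b => NoC.of v (hW.c1 b) hf hin).1

end abs

section conc

variable {L β : Type} [DecidableEq L] [DecidableEq β] [Fintype L] (D : KS L)

/-- The word with the side and the prefix of the child before every letter. -/
noncomputable def annT : Bool → List L → List L → List ((L × Bool) × List L)
  | _, _, [] => []
  | s, Q, x :: w => ((x, s), Q) :: annT (xor s (decide (x = D.o))) (Q ++ D.sec s [x]) w

lemma annT_fst : ∀ (P : List L) (s : Bool) (Q : List L),
    (annT D s Q P).map Prod.fst = ann D.o s P := by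
  intro P
  induction P with
  | nil => intro s Q; rfl
  | cons x P ih => intro s Q; rw [annT, List.map_cons, ih, ann]

lemma annT_still : ∀ (P : List L) (s : Bool) (Q : List L),
    Still (fun z : (L × Bool) × List L => vb D z.1) Prod.snd (annT D s Q P) := by
  intro P
  induction P with
  | nil =>
    rintro s Q x y ⟨a, b, h⟩
    rw [annT] at h
    simp at h
  | cons x P ih =>
    rintro s Q y z ⟨a, b, h⟩ hv
    cases a with
    | nil =>
      rw [annT] at h
      simp only [List.nil_append, List.cons_append, List.cons.injEq] at h
      obtain ⟨rfl, h⟩ := h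
      cases P with
      | nil => rw [annT] at h; simp at h
      | cons x' P =>
        rw [annT, List.cons.injEq] at h
        rw [h.1]
        dsimp only at hv ⊢
        have : D.sec s [x] = [] := by
          by_cases hx : x = D.o
          · subst hx
            rw [B1Aux.sec_o, B1Aux.sec_nil]
          · cases hp : D.pre s x with
            | none => rw [B1Aux.sec_none D hx hp, B1Aux.sec_nil]
            | some i => simp [vb, hx, hp] at hv
        rw [this, List.append_nil]
    | cons a0 a =>
      rw [annT] at h
      simp only [List.cons_append, List.cons.injEq] at h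
      exact ih _ _ y z ⟨a, b, h.2⟩ hv

omit [DecidableEq β] in
/-- Good words are pulled back. -/
lemma good_map {X Y : Type} {f : Y → X} {v : X → Bool} {κ : X → Option (Option β)} {W : List Y}
    (h : Good v κ (W.map f)) : Good (fun y => v (f y)) (fun y => κ (f y)) W := by
  have key : ∀ {x : Y} {R : List Y} {y : Y}, (x :: (R ++ [y])) <:+: W →
      (f x :: (R.map f ++ [f y])) <:+: W.map f := by
    rintro x R y ⟨s, r, rfl⟩
    exact ⟨s.map f, r.map f, by simp⟩
  have ex : ∀ {R : List Y}, (∃ j ∈ R.map f, v j = true) → ∃ j ∈ R, v (f j) = true := by
    rintro R ⟨j, hj, hv⟩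
    obtain ⟨i, hi, rfl⟩ := List.mem_map.1 hj
    exact ⟨i, hi, hv⟩
  refine ⟨?_, ?_, ?_, ?_⟩
  · intro x R y hf hx hy hR hq
    refine ex (h.c1o _ _ _ (key hf) hx hy (by simpa using hR) ?_)
    intro j hj
    obtain ⟨i, hi, rfl⟩ := List.mem_map.1 hj
    exact hq i hi
  · intro x R y hf hx hy hvx hvy he
    obtain ⟨j, hj, hj'⟩ := he
    exact ex (h.c2o _ _ _ (key hf) hx hy hvx hvy ⟨f j, List.mem_map.2 ⟨j, hj, rfl⟩, hj'⟩)
  · intro b x R y hf hx hy hR hq
    refine ex (h.c1 b _ _ _ (key hf) hx hy (by simpa using hR) ?_)
    intro j hj
    obtain ⟨i, hi, rfl⟩ := List.mem_map.1 hj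
    exact hq i hi
  · intro b x R y hf hx hy hvx hvy he
    obtain ⟨j, hj, hj'⟩ := he
    exact ex (h.c2 b _ _ _ (key hf) hx hy hvx hvy ⟨f j, List.mem_map.2 ⟨j, hj, rfl⟩, hj'⟩)

omit [DecidableEq L] [Fintype L] in
lemma visp_cons {γ : Type} [DecidableEq γ] (c : L → Option γ) (p : Option γ) (u : List L) (x : L)
    (w : List L) : visp c p u (x :: w) = (em p (c x)).map (fun b => (b, u)) ++
      visp c (c x) (u ++ [x]) w := by
  rw [visp]
  cases h : c x with
  | none => simp [PV3Aux.em]
  | some b =>
    dsimp only [PV3Aux.em]
    split_ifs <;> simp

lemma visp_child (A : Finset L) (t : Bool) (c : L → Option β) :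
    ∀ (P : List L) (s : Bool) (Q : List L) (p : Option (Option β)),
      visp (fun i => if D.side i = t ∧ D.nxt i ∈ A then (c (D.nxt i)).map some else some none) p Q
        (D.sec s P) = vt (fun z : (L × Bool) × List L => ka A t c z.1) Prod.snd p
          ((annT D s Q P).filter fun z => vb D z.1) := by
  intro P
  induction P with
  | nil => intro s Q p; rw [B1Aux.sec_nil, annT, List.filter_nil, vt_nil, visp]
  | cons x P ih =>
    intro s Q p
    by_cases hx : x = D.o
    · subst hx
      rw [B1Aux.sec_o, annT, List.filter_cons_of_neg (by simp [vb]), ih, B1Aux.sec_o,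
        B1Aux.sec_nil]
      simp
    · cases hp : D.pre s x with
      | none =>
        rw [B1Aux.sec_none D hx hp, annT, List.filter_cons_of_neg (by simp [vb, hp]), ih,
          B1Aux.sec_none D hx hp, B1Aux.sec_nil]
        simp [hx]
      | some i =>
        obtain ⟨h1, h2⟩ := (B1Aux.pre_eq D s x i).1 hp
        rw [B1Aux.sec_some D hx hp, annT, List.filter_cons_of_pos (by simp [vb, hp, hx]),
          visp_cons, vt_cons, ih, B1Aux.sec_some D hx hp, B1Aux.sec_nil]
        have e : (if D.side i = t ∧ D.nxt i ∈ A then (c (D.nxt i)).map some else some none) =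
            ka A t c (x, s) := by
          unfold ka
          rw [h1, h2]
          simp only [and_comm]
        rw [e]
        simp [hx]

lemma sec_snoc (a : Bool) (U : List L) (x : L) :
    D.sec a (U ++ [x]) = D.sec a U ++ D.sec (xor a (par D.o U)) [x] := by
  rw [B1Aux.sec_append]
  rfl

omit [Fintype L] in
lemma par_snoc (o x : L) (U : List L) : par o (U ++ [x]) = xor (par o U) (decide (x = o)) := by
  unfold par
  rw [List.count_append]
  by_cases h : x = o
  · subst h
    by_cases h' : Odd (U.count x)
    · have : ¬ Odd (U.count x + 1) := by rw [Nat.odd_add_one]; exact fun h => h h'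
      simp [h', this]
    · have : Odd (U.count x + 1) := by rw [Nat.odd_add_one]; exact h'
      simp [h', this]
  · have : [x].count o = 0 := List.count_eq_zero_of_not_mem (by simpa using Ne.symm h)
    rw [this]
    simp [h]

/-- All letters: the owned visits, once the states are in tune. -/
lemma visp_all {A : Finset L} (ho : D.o ∉ A) (t a : Bool) (c : L → Option β) :
    ∀ (P U : List L) (p p' : Option (Option β)),
      ((p = p' ∧ xor a (par D.o U) = t) ∨
        (p' = some none ∧ (xor a (par D.o U) = t → p = some none))) →
      ((visp (glR A c) p U P).filter fun z => xor a (decide (Odd (z.2.count D.o))) == t).map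
          (fun z => (z.1, D.sec a z.2)) =
        vt (fun z : (L × Bool) × List L => ka A t c z.1) Prod.snd p'
          (annT D (xor a (par D.o U)) (D.sec a U) P) := by
  intro P
  induction P with
  | nil => intro U p p' _; simp [visp, annT, vt_nil]
  | cons x P ih =>
    intro U p p' hinv
    rw [visp_cons, annT, vt_cons, List.filter_append, List.map_append]
    have hem : ∀ l : List (Option β), ((l.map fun b => (b, U)).filter fun z =>
        xor a (decide (Odd (z.2.count D.o))) == t).map (fun z => (z.1, D.sec a z.2)) =
          if xor a (par D.o U) = t then l.map (fun b => (b, D.sec a U)) else [] := by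
      intro l
      by_cases h : xor a (par D.o U) = t
      · rw [if_pos h, List.filter_eq_self.2, List.map_map]
        · rfl
        · intro z hz
          obtain ⟨b, -, rfl⟩ := List.mem_map.1 hz
          simpa [par] using h
      · rw [if_neg h, List.filter_eq_nil_iff.2]
        · rfl
        · intro z hz
          obtain ⟨b, -, rfl⟩ := List.mem_map.1 hz
          simpa [par] using h
    rw [hem, Bool.xor_assoc, ← par_snoc, ← sec_snoc]
    by_cases hs : xor a (par D.o U) = t
    · have hpp : p = p' := by
        rcases hinv with h | h
        · exact h.1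
        · rw [h.1, h.2 hs]
      subst hpp
      rw [if_pos hs]
      have hk : ka A t c (x, xor a (par D.o U)) = glR A c x := by
        unfold ka glR
        simp [hs]
      rw [hk]
      congr 1
      apply ih
      rw [par_snoc, ← Bool.xor_assoc, hs]
      by_cases hx : x = D.o
      · right
        subst hx
        have : glR A c D.o = some none := by unfold glR; rw [if_neg ho]
        exact ⟨this, fun _ => this⟩
      · left
        refine ⟨rfl, ?_⟩
        rw [decide_eq_false hx, Bool.xor_false]
    · rw [if_neg hs]
      have hp' : p' = some none := by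
        rcases hinv with h | h
        · exact absurd h.2 hs
        · exact h.1
      subst hp'
      have hk : ka A t c (x, xor a (par D.o U)) = some none := by
        unfold ka
        simp [hs]
      rw [hk, em_self, List.map_nil]
      congr 1
      apply ih
      right
      refine ⟨rfl, fun h => ?_⟩
      by_cases hx : x = D.o
      · subst hx
        unfold glR
        rw [if_neg ho]
      · rw [par_snoc, decide_eq_false hx, Bool.xor_false] at h
        exact absurd h hs

lemma visp_start {A : Finset L} (ho : D.o ∉ A) (t a : Bool) (c : L → Option β) (P : List L) :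
    vt (fun z : (L × Bool) × List L => ka A t c z.1) Prod.snd none (annT D a [] P) =
      ((visp (glR A c) none [] P).filter fun z => xor a (decide (Odd (z.2.count D.o))) == t).map
        (fun z => (z.1, D.sec a z.2)) ∨
    vt (fun z : (L × Bool) × List L => ka A t c z.1) Prod.snd none (annT D a [] P) = (none, []) ::
      ((visp (glR A c) none [] P).filter fun z => xor a (decide (Odd (z.2.count D.o))) == t).map
        (fun z => (z.1, D.sec a z.2)) := by
  have e0 : par D.o ([] : List L) = false := rfl
  by_cases h : a = t
  · left
    rw [visp_all D ho t a c P [] none none (Or.inl ⟨rfl, by rw [e0]; simpa using h⟩), e0,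
      Bool.xor_false, B1Aux.sec_nil]
  · cases P with
    | nil => left; simp [visp, annT, vt_nil]
    | cons x P =>
      right
      rw [visp_all D ho t a c (x :: P) [] none (some none)
        (Or.inr ⟨rfl, fun h' => absurd (by rw [e0] at h'; simpa using h') h⟩), e0,
        Bool.xor_false, B1Aux.sec_nil, annT, vt_cons, vt_cons]
      have hk : ka A t c (x, a) = some none := by
        unfold ka
        simp [h]
      dsimp only
      rw [hk, em_self]
      rfl

end conc

end MK3Aux

open MK3Aux PV3Aux in
/-- MK3. -/
theorem mk3 {L : Type} [Fintype L] [DecidableEq L] (S : Setup L) : LiftP S := by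
  intro β _ A t c P hoA hc hA hb a
  have hg : Good (fun z : (L × Bool) × List L => vb S.D z.1) (fun z => ka A t c z.1)
      (annT S.D a [] P) := by
    apply good_map
    rw [annT_fst]
    exact good S.D hoA hc hA hb a
  obtain ⟨u, w, hu, hw, e⟩ := all_visible_t hg (annT_still S.D P a [])
  have e1 : visp (S.kcl t A c) none [] (S.D.sec a P) =
      vt (fun z : (L × Bool) × List L => ka A t c z.1) Prod.snd none
        ((annT S.D a [] P).filter fun z => vb S.D z.1) := visp_child S.D A t c P a [] none
  rw [e1]
  rcases visp_start S.D hoA t a c P with h | h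
  · rw [← h, e]
    exact ⟨[], [], u, w, _, by simp, rfl, by simp, by simp, hu, hw⟩
  · rw [h] at e
    cases u with
    | cons x u =>
      rw [List.cons_append, List.cons_append, List.cons.injEq] at e
      rw [e.2]
      exact ⟨[], [], u, w, _, by simp, rfl, by simp, by simp, by simp at hu; omega, hw⟩
    | nil =>
      rw [List.nil_append] at e
      cases hl : vt (fun z : (L × Bool) × List L => ka A t c z.1) Prod.snd none
          ((annT S.D a [] P).filter fun z => vb S.D z.1) with
      | nil =>
        rw [hl, List.nil_append] at e
        refine ⟨[], [], [], _, [], by simp, by simp; rfl, by simp, by simp, by simp, ?_⟩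
        have := congrArg List.length e
        simp only [List.length_cons] at this
        omega
      | cons y l =>
        rw [hl, List.cons_append, List.cons.injEq] at e
        rw [e.2]
        exact ⟨[y], [], [], w, l, by simp, by simp, by simp, by simp, by simp, hw⟩

end R4.Mk
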