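import Pool.Agent.Work.MP_e3f5d9_al.MK0
import Pool.Agent.Work.MP_e3f5d9_al.MK12

/-!
# MK4: the lift of the star of a centre
-/

set_option autoImplicit false
set_option linter.unusedSectionVars false

open Finset

namespace R4.Mk

open R4

namespace MK4

section near

variable {β γ : Type}

lemma near_mono {k k' : ℕ} (h : k ≤ k') {l l' : List β} (hn : Near k l l') : Near k' l l' := by
  obtain ⟨a, b, a', b', m, h1, h2, h3, h4, h5, h6⟩ := hn
  exact ⟨a, b, a', b', m, h1, h2, by omega, by omega, by omega, by omega⟩

lemma near_filterMap {k : ℕ} {l l' : List β} (f : β → Option γ) (hn : Near k l l') :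
    Near k (l.filterMap f) (l'.filterMap f) := by
  obtain ⟨a, b, a', b', m, rfl, rfl, h1, h2, h3, h4⟩ := hn
  have hle : ∀ l : List β, l.length ≤ k → (l.filterMap f).length ≤ k :=
    fun l hl => (List.length_filterMap_le f l).trans hl
  exact ⟨a.filterMap f, b.filterMap f, a'.filterMap f, b'.filterMap f, m.filterMap f, by simp,
    by simp, hle _ h1, hle _ h2, hle _ h3, hle _ h4⟩

lemma near_trans {k k' : ℕ} {l l' l'' : List β} (h : Near k l l') (h' : Near k' l' l'') :
    Near (k + k') l l'' := by
  obtain ⟨a, b, a', b', m, rfl, h2, ha, hb, ha', hb'⟩ := h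
  obtain ⟨c, d, c', d', n, h3, rfl, hc, hd, hc', hd'⟩ := h'
  have e1 : a' ++ (m ++ b') = c ++ (n ++ d) := by
    rw [← List.append_assoc, ← List.append_assoc, ← h2, h3]
  -- alignment at the front
  obtain ⟨e, f, K, hM, hN, he, hf⟩ : ∃ e f K : List β, m ++ b' = e ++ K ∧ n ++ d = f ++ K ∧
      e.length ≤ k' ∧ f.length ≤ k := by
    rcases List.append_eq_append_iff.1 e1 with ⟨e, h4, h5⟩ | ⟨f, h4, h5⟩
    · refine ⟨e, [], n ++ d, h5, rfl, ?_, by simp⟩
      have := congrArg List.length h4
      rw [List.length_append] at this
      omega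
    · refine ⟨[], f, m ++ b', rfl, h5, by simp, ?_⟩
      have := congrArg List.length h4
      rw [List.length_append] at this
      omega
  rcases List.append_eq_append_iff.1 hM with ⟨e', h4, h5⟩ | ⟨m1, h4, h5⟩
  · -- `m` is short
    subst h4
    have hb2 := congrArg List.length h5
    simp only [List.length_append] at hb2 he
    rcases List.append_eq_append_iff.1 hN with ⟨f', h6, h7⟩ | ⟨n1, h6, h7⟩
    · subst h6
      simp only [List.length_append] at hf
      refine ⟨a ++ m, b, c' ++ n, d', [], by simp, by simp, ?_, by omega, ?_, by omega⟩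
      · rw [List.length_append]; omega
      · rw [List.length_append]; omega
    · subst h6
      have hK := congrArg List.length h7
      rw [List.length_append] at hK
      refine ⟨a ++ m, b, c' ++ f, n1 ++ d', [], by simp, by simp, ?_, by omega, ?_, ?_⟩
      · rw [List.length_append]; omega
      · rw [List.length_append]; omega
      · rw [List.length_append]; omega
  · subst h4
    rcases List.append_eq_append_iff.1 hN with ⟨f', h6, h7⟩ | ⟨n1, h6, h7⟩
    · subst h6
      have hK := congrArg List.length h5
      have hd2 := congrArg List.length h7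
      simp only [List.length_append] at hf hK hd2
      refine ⟨a ++ e, m1 ++ b, c' ++ n, d', [], by simp, by simp, ?_, ?_, ?_, by omega⟩
      · rw [List.length_append]; omega
      · rw [List.length_append]; omega
      · rw [List.length_append]; omega
    · subst h6
      rw [h5] at h7
      rcases List.append_eq_append_iff.1 h7 with ⟨f', h8, h9⟩ | ⟨e', h8, h9⟩
      · subst h8
        have h10 := congrArg List.length h9
        rw [List.length_append] at h10
        refine ⟨a ++ e, b, c' ++ f, f' ++ d', m1, by simp, by simp, ?_, by omega, ?_, ?_⟩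
        · rw [List.length_append]; omega
        · rw [List.length_append]; omega
        · rw [List.length_append]; omega
      · subst h8
        have h10 := congrArg List.length h9
        rw [List.length_append] at h10
        refine ⟨a ++ e, e' ++ b, c' ++ f, d', n1, by simp, by simp, ?_, ?_, ?_, by omega⟩
        · rw [List.length_append]; omega
        · rw [List.length_append]; omega
        · rw [List.length_append]; omega

lemma filter_map_eq (F : β → Bool) (f : β → γ) (l : List β) :
    (l.filter F).map f = l.filterMap fun z => if F z = true then some (f z) else none := by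
  induction l with
  | nil => rfl
  | cons x l ih =>
    by_cases h : F x = true
    · rw [List.filter_cons_of_pos h, List.map_cons, List.filterMap_cons, if_pos h, ih]
    · rw [List.filter_cons_of_neg h, List.filterMap_cons, if_neg h, ih]

end near

section step

variable {L : Type} [Fintype L] [DecidableEq L]

/-- A letter and a class: the other letters of `{i}ᶜ` are reached. -/
lemma compl_ne (S : Setup L) {A : Finset L} (hA : A ∈ S.E) (t : Bool)
    (hne : (S.D.lp t A).Nonempty) : ((S.D.lp t A)ᶜ).Nonempty := by
  by_contra h
  rw [not_nonempty_iff_eq_empty, compl_eq_empty_iff] at h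
  have h1 := S.full.closed A hA t hne
  rw [h, KS.nm, if_pos (mem_univ _), compl_univ] at h1
  exact PRcAux.empty_not_mem S h1

end step

end MK4

open MK4 in
/-- MK4a. -/
theorem mk4_step {L : Type} [Fintype L] [DecidableEq L] (S : Setup L) (hN : NodeBasics S)
    (hVp : VispBasics L) (hB : StarBasics S.D S.E) (hL : LiftP S) : LiftStep S := by
  classical
  intro i hi P hP a
  set D := S.D with hD
  set E := S.E with hE
  set j := D.nxt i with hj
  set t := D.side i with ht
  have hjc : Ctr D E j := hB.nxt i hi
  have hjo : j ≠ D.o := hjc.1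
  set A := cap E j with hA
  have hAE : A ∈ E := (hB.cap_mem j hjo).1
  have hjA : j ∈ A := (hB.cap_mem j hjo).2
  have hoA : D.o ∉ A := S.full.norm A hAE
  have hout : cl E j D.o = Aᶜ := hB.out j hjo
  have hmemlp : ∀ (B : Finset L) (y : L), y ∈ D.lp t B ↔ D.side y = t ∧ D.nxt y ∈ B := by
    intro B y
    simp [KS.lp]
  have hiA : (D.lp t A).Nonempty := ⟨i, (hmemlp A i).2 ⟨rfl, hjA⟩⟩
  have hstA : stp D i Aᶜ = (D.lp t A)ᶜ := by
    unfold stp
    rw [if_pos (by rw [mem_compl]; exact hoA), compl_compl]
  have hpopA : (stp D i Aᶜ).Nonempty := by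
    rw [hstA]
    exact compl_ne S hAE t hiA
  have hclA : ∀ x, x ≠ j → x ∈ A → cl E j x ∈ E ∧ cl E j x ⊆ A := fun x h1 h2 =>
    hB.inn j x hjo h1 h2
  have hst : ∀ x, x ≠ j → x ∈ A → stp D i (cl E j x) = D.lp t (cl E j x) := by
    intro x h1 h2
    unfold stp
    rw [if_neg (fun h => hoA ((hclA x h1 h2).2 h))]
  have hclo : ∀ x, x ∉ A → cl E j x = Aᶜ := by
    intro x hx
    rw [← hout]
    exact hB.eqv j D.o x (fun h => hjo h.symm) (by rw [hout, mem_compl]; exact hx)
  set c : L → Option (Finset L) := fun x =>
    if x ∈ A ∧ x ≠ j ∧ (stp D i (cl E j x)).Nonempty then some (cl E j x) else none with hc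
  have hc_some : ∀ x Z, c x = some Z ↔ x ∈ A ∧ x ≠ j ∧ (stp D i (cl E j x)).Nonempty ∧
      cl E j x = Z := by
    intro x Z
    simp only [hc]
    split_ifs with h
    · simp [h]
    · simp only [false_iff]
      rintro ⟨h1, h2, h3, -⟩
      exact h ⟨h1, h2, h3⟩
  have hcA : ∀ x, x ∉ A → c x = none := by
    intro x hx
    simp only [hc]
    rw [if_neg (fun h => hx h.1)]
  have hcs : ∀ b, (cset c b).Nonempty → cset c b = b ∧ b ∈ E ∧ (D.lp t b).Nonempty := by
    rintro b ⟨x, hx⟩
    simp only [cset, mem_filter, mem_univ, true_and, hc_some] at hx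
    obtain ⟨h1, h2, h3, rfl⟩ := hx
    refine ⟨?_, (hclA x h2 h1).1, ?_⟩
    · ext y
      simp only [cset, mem_filter, mem_univ, true_and, hc_some]
      constructor
      · rintro ⟨h4, h5, -, h6⟩
        rw [← h6]
        exact (hB.self j y h5).1
      · intro h4
        have h5 : y ≠ j := by
          rintro rfl
          exact (hB.self _ x h2).2 h4
        have h6 := hB.eqv j x y h2 h4
        exact ⟨(hclA x h2 h1).2 h4, h5, by rw [h6]; exact h3, h6⟩
    · rw [← hst x h2 h1]
      exact h3
  have hlift := hL A t c P hoA hcA (hN.clean 0 P hP A hAE t hiA) (by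
    intro b hb
    obtain ⟨h1, h2, h3⟩ := hcs b hb
    rw [h1]
    exact hN.clean 0 P hP b h2 t h3) a
  -- relabelling of the child
  set g : Option (Finset L) → Finset L := fun z => z.elim (stp D i Aᶜ) (stp D i) with hg
  have hkcl : ∀ y, st E i y = (S.kcl t A c y).map g := by
    intro y
    unfold st Setup.kcl
    by_cases hyi : y = i
    · subst hyi
      rw [if_pos rfl, if_pos ⟨rfl, hjA⟩]
      have : c (D.nxt y) = none := by
        simp only [hc]
        rw [if_neg (fun h => h.2.1 rfl)]
      rw [this]
      rfl
    · rw [if_neg hyi, hB.cl_eq i hi y hyi]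
      by_cases hs : D.side y = t
      · rw [if_pos hs]
        have hyj : D.nxt y ≠ j := fun h => hyi (D.inj y i h hs)
        by_cases hyA : D.nxt y ∈ A
        · rw [if_pos ⟨hs, hyA⟩]
          have h1 : (stp D i (cl E j (D.nxt y))).Nonempty := by
            have h2 := hB.cl_eq i hi y hyi
            rw [if_pos hs] at h2
            rw [← hj] at h2
            rw [← h2]
            exact ⟨y, (hB.self i y hyi).1⟩
          rw [(hc_some _ _).2 ⟨hyA, hyj, h1, rfl⟩]
          rfl
        · rw [if_neg (fun h => hyA h.2), ← hj, hclo _ hyA]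
          rfl
      · rw [if_neg hs, if_neg (fun h => hs h.1), ← hj, hout]
        rfl
  have hkv : ∀ y b, S.kcl t A c y = some b → y ≠ i ∧ cl E i y = g b ∧
      (∀ Z, b = some Z → D.side y = t ∧ D.nxt y ∈ A ∧ D.nxt y ≠ j ∧ Z = cl E j (D.nxt y)) := by
    intro y b hb
    have h1 := hkcl y
    rw [hb, Option.map_some] at h1
    unfold st at h1
    split_ifs at h1 with h2
    rw [Option.some.injEq] at h1
    refine ⟨h2, h1, ?_⟩
    rintro Z rfl
    unfold Setup.kcl at hb
    split_ifs at hb with h3
    · cases h4 : c (D.nxt y) with
      | none => rw [← hD, h4] at hb; simp at hb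
      | some Z' =>
        rw [← hD, h4] at hb
        simp only [Option.map_some, Option.some.injEq] at hb
        subst hb
        obtain ⟨h5, h6, h7, h8⟩ := (hc_some _ _).1 h4
        exact ⟨h3.1, h5, h6, h8.symm⟩
    · simp at hb
  have hinjk : ∀ x y b b', S.kcl t A c x = some b → S.kcl t A c y = some b' → g b = g b' →
      b = b' := by
    have key : ∀ x y Z b', S.kcl t A c x = some (some Z) → S.kcl t A c y = some b' →
        g (some Z) = g b' → some Z = b' := by
      intro x y Z b' hx hy hgg
      obtain ⟨h1, h2, h3⟩ := hkv x _ hx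
      obtain ⟨h4, h5, h6, h7⟩ := h3 Z rfl
      have h8 : x ∈ g b' := by
        rw [← hgg, ← h2]
        exact (hB.self i x h1).1
      cases b' with
      | none =>
        exfalso
        change x ∈ stp D i Aᶜ at h8
        rw [hstA, mem_compl, hmemlp] at h8
        exact h8 ⟨h4, h5⟩
      | some Z' =>
        obtain ⟨h1', h2', h3'⟩ := hkv y _ hy
        obtain ⟨h4', h5', h6', h7'⟩ := h3' Z' rfl
        change x ∈ stp D i Z' at h8
        rw [h7', hst _ h6' h5', hmemlp] at h8
        rw [h7, h7', hB.eqv j _ _ h6' h8.2]
    intro x y b b' hx hy hgg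
    cases b with
    | some Z => exact key x y Z b' hx hy hgg
    | none =>
      cases b' with
      | none => rfl
      | some Z' => exact (key y x Z' none hy hx hgg.symm).symm
  have e1 : visp (st E i) none [] (D.sec a P) =
      (visp (S.kcl t A c) none [] (D.sec a P)).map fun z => (g z.1, z.2) := by
    have h1 := hVp.map g (S.kcl t A c) (D.sec a P) hinjk
    rw [← h1]
    congr 1
    funext y
    exact hkcl y
  -- relabelling of the parent
  set p : Finset L → Bool := fun Z => decide (stp D i Z).Nonempty with hp
  set g' : Option (Finset L) → Finset L := fun z => z.elim Aᶜ id with hg'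
  have hglR : ∀ x, (st E j x).filter p = (glR A c x).map g' := by
    intro x
    unfold st glR
    by_cases hxA : x ∈ A
    · rw [if_pos hxA]
      by_cases hxj : x = j
      · rw [if_pos hxj]
        have : c x = none := by
          simp only [hc]
          rw [if_neg (fun h => h.2.1 hxj)]
        rw [this]
        rfl
      · rw [if_neg hxj]
        by_cases hpx : (stp D i (cl E j x)).Nonempty
        · rw [(hc_some _ _).2 ⟨hxA, hxj, hpx, rfl⟩]
          simp [Option.filter, hp, hpx, hg']
        · have : c x = none := by
            simp only [hc]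
            rw [if_neg (fun h => hpx h.2.2)]
          rw [this]
          simp [Option.filter, hp, hpx]
    · rw [if_neg hxA, if_neg (fun h => hxA (by rw [h]; exact hjA)), hclo x hxA]
      simp [Option.filter, hp, hpopA, hg']
  have hinjg : ∀ x y b b', glR A c x = some b → glR A c y = some b' → g' b = g' b' → b = b' := by
    have hval : ∀ x Z, glR A c x = some (some Z) → x ∈ A ∧ x ∈ Z := by
      intro x Z hx
      unfold glR at hx
      split_ifs at hx with h1
      · cases h2 : c x with
        | none => rw [h2] at hx; simp at hx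
        | some Z' =>
          rw [h2] at hx
          simp only [Option.map_some, Option.some.injEq] at hx
          subst hx
          obtain ⟨h3, h4, h5, h6⟩ := (hc_some _ _).1 h2
          rw [← h6]
          exact ⟨h1, (hB.self j x h4).1⟩
      · simp at hx
    intro x y b b' hx hy hbb
    cases b with
    | none =>
      cases b' with
      | none => rfl
      | some Z' =>
        exfalso
        obtain ⟨h1, h2⟩ := hval y Z' hy
        simp only [hg', Option.elim_none, Option.elim_some, id] at hbb
        rw [← hbb, mem_compl] at h2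
        exact h2 h1
    | some Z =>
      cases b' with
      | none =>
        exfalso
        obtain ⟨h1, h2⟩ := hval x Z hx
        simp only [hg', Option.elim_none, Option.elim_some, id] at hbb
        rw [hbb, mem_compl] at h2
        exact h2 h1
      | some Z' =>
        simp only [hg', Option.elim_some, id] at hbb
        rw [hbb]
  have e2 : ((visp (st E j) none [] P).filter fun z => p z.1) =
      (visp (glR A c) none [] P).map fun z => (g' z.1, z.2) := by
    rw [← hVp.filter, ← hVp.map g' (glR A c) P hinjg]
    congr 1
    funext x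
    exact hglR x
  -- conclusion
  have h1 := PRcAux.near_map (fun z : Option (Finset L) × List L => (g z.1, z.2)) hlift
  rw [← e1] at h1
  refine Eq.mp ?_ h1
  congr 1
  rw [List.map_map]
  have e3 : (visp (st E j) none [] P).filterMap (fun z =>
      if xor a (decide (Odd (z.2.count D.o))) = t ∧ (stp D i z.1).Nonempty
      then some (stp D i z.1, D.sec a z.2) else none) =
      ((visp (st E j) none [] P).filter fun z => p z.1).filterMap (fun z =>
      if (xor a (decide (Odd (z.2.count D.o))) == t) = true
      then some (stp D i z.1, D.sec a z.2) else none) := by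
    rw [List.filterMap_filter]
    congr 1
    funext z
    by_cases h3 : (stp D i z.1).Nonempty
    · simp [hp, h3]
    · simp [hp, h3]
  rw [e3, e2, List.filterMap_map, filter_map_eq]
  congr 1
  funext z
  have h4 : stp D i (g' z.1) = g z.1 := by
    cases h5 : z.1 with
    | none => rfl
    | some Z => rfl
  simp only [Function.comp_apply, h4]
  rfl

namespace MK4

variable {L : Type} [Fintype L] [DecidableEq L]

lemma stp_empty (D : KS L) (i : L) : stp D i ∅ = ∅ := by
  unfold stp
  rw [if_neg (by simp)]
  simp [KS.lp]

lemma stpL_empty (D : KS L) (i : L) : ∀ e, stpL D i e ∅ = ∅ := by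
  intro e
  induction e with
  | zero => rfl
  | succ e ih => rw [stpL, stp_empty, ih]

end MK4

open MK4 in
/-- MK4b. -/
theorem mk4_path {L : Type} [Fintype L] [DecidableEq L] (S : Setup L) (hN : NodeBasics S)
    (hVp : VispBasics L) (hB : StarBasics S.D S.E) (hL : LiftStep S) : LiftPath S := by
  classical
  intro i hi e
  induction e with
  | zero =>
    refine ⟨0, fun P _ x hx => ?_⟩
    have hx0 : x = [] := List.length_eq_zero_iff.1 hx
    subst hx0
    have h1 : (visp (st S.E (S.D.nxt^[0] i)) none [] P).filterMap (fun z =>
        if S.D.ev z.2 [] = adr S.D i 0 ∧ (stpL S.D i 0 z.1).Nonempty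
        then some (stpL S.D i 0 z.1, S.D.secL [] z.2) else none) =
        visp (st S.E i) none [] P := by
      change (visp (st S.E i) none [] P).filterMap _ = _
      conv_rhs => rw [← List.filterMap_some (l := visp (st S.E i) none [] P)]
      apply List.filterMap_congr
      intro z hz
      obtain ⟨y, v, -, h2⟩ := hVp.mem (st S.E i) P z hz
      have h3 : z.1.Nonempty := by
        unfold st at h2
        split_ifs at h2 with h4
        rw [Option.some.injEq] at h2
        rw [← h2]
        exact ⟨y, (hB.self i y h4).1⟩
      have h4 : S.D.ev z.2 [] = adr S.D i 0 :=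
        List.length_eq_zero_iff.1 (by rw [(b1 S.D).ev_length]; rfl)
      rw [if_pos ⟨h4, h3⟩]
      rfl
    rw [h1]
    exact ⟨[], [], [], [], visp (st S.E i) none [] P, by simp [KS.secL], by simp, by simp, by simp,
      by simp, by simp⟩
  | succ e ih =>
    obtain ⟨k, hk⟩ := ih
    refine ⟨k + 2, fun P hP x hx => ?_⟩
    obtain ⟨b, y, rfl⟩ : ∃ b y, x = b :: y := by
      cases x with
      | nil => simp at hx
      | cons b y => exact ⟨b, y, rfl⟩
    have hy : y.length = e := by simpa using hx
    have h1 := hk _ (hN.kid e P hP b) y hy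
    have h0 : P ∈ S.N 0 := by
      have := PRcAux.anti_le hN (Nat.zero_le (e + 1))
      exact this hP
    have h2 := hL (S.D.nxt^[e] i) (MK12.ctr_iter hB hi e) P h0 b
    rw [← Function.iterate_succ_apply' S.D.nxt] at h2
    have h3 := near_filterMap (fun z : Finset L × List L =>
      if S.D.ev z.2 y = adr S.D i e ∧ (stpL S.D i e z.1).Nonempty
      then some (stpL S.D i e z.1, S.D.secL y z.2) else none) h2
    have h4 := near_trans h1 h3
    refine Eq.mp ?_ h4
    congr 1
    rw [List.filterMap_filterMap]
    congr 1
    funext z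
    have h5 : S.D.ev z.2 (b :: y) = adr S.D i (e + 1) ↔
        xor b (decide (Odd (z.2.count S.D.o))) = S.D.side (S.D.nxt^[e] i) ∧
          S.D.ev (S.D.sec b z.2) y = adr S.D i e := by
      rw [(b1 S.D).ev_cons, adr, List.cons.injEq]
    by_cases h6 : xor b (decide (Odd (z.2.count S.D.o))) = S.D.side (S.D.nxt^[e] i) ∧
        (stp S.D (S.D.nxt^[e] i) z.1).Nonempty
    · rw [if_pos h6]
      simp only [Option.bind_some]
      by_cases h7 : S.D.ev (S.D.sec b z.2) y = adr S.D i e ∧
          (stpL S.D i e (stp S.D (S.D.nxt^[e] i) z.1)).Nonempty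
      · rw [if_pos h7, if_pos ⟨h5.2 ⟨h6.1, h7.1⟩, h7.2⟩]
        rfl
      · rw [if_neg h7, if_neg (fun h => h7 ⟨(h5.1 h.1).2, h.2⟩)]
    · rw [if_neg h6]
      simp only [Option.bind_none]
      rw [if_neg]
      rintro ⟨h7, h8⟩
      apply h6
      refine ⟨(h5.1 h7).1, ?_⟩
      by_contra h9
      rw [not_nonempty_iff_eq_empty] at h9
      rw [stpL, h9, stpL_empty] at h8
      simp at h8

end R4.Mk
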