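import Pool.Agent.Work.MP_e3f5d9_al.MK0
import Pool.Agent.Work.MP_e3f5d9_al.TB0

/-!
# MK5: factors of perfect nodes are perfect nodes
-/

set_option autoImplicit false

open Finset

namespace R4.Mk

open R4

namespace MK5

variable {L : Type} [Fintype L] [DecidableEq L] (D : KS L)

/-- Factors of a factor. -/
theorem trans_fac {u v w : List L} (h1 : u <:+: v) (h2 : v <:+: w) : u <:+: w :=
  List.IsInfix.trans h1 h2

/-- Every section of a factor is a factor of a section. -/
theorem secL_fac (F' X Y : List L) (u : List Bool) :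
    ∃ v : List Bool, v.length = u.length ∧ D.secL u F' <:+: D.secL v (X ++ F' ++ Y) := by
  have hB := b1 D
  have hU := tb0 D
  refine ⟨D.ev X.reverse u, hB.ev_length _ _, ?_⟩
  have h : D.ev X (D.ev X.reverse u) = u := by
    have := hB.ev_reverse X.reverse u
    rwa [List.reverse_reverse] at this
  refine ⟨D.secL (D.ev X.reverse u) X, D.secL (D.ev F' u) Y, ?_⟩
  rw [List.append_assoc X, hU.secL_append, h, hU.secL_append, List.append_assoc]

/-- Factors of perfect words are perfect. -/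
theorem perf_fac {E : Finset (Finset L)} {n0 θ d k : ℕ} {F F' : List L}
    (h : D.Perf E n0 θ d k F) (X Y : List L) (hF : F = X ++ F' ++ Y) :
    D.Perf E n0 θ d k F' := by
  have hfac : F' <:+: F := ⟨X, Y, hF.symm⟩
  refine ⟨(tb0 D).ut_factor _ _ _ _ _ _ h.ut hfac, ?_, ?_, ?_⟩
  · intro u hu A hA x R y hxy
    obtain ⟨v, hv, hs⟩ := secL_fac D F' X Y u
    rw [← hF] at hs
    exact h.rclean v (by omega) A hA x R y (trans_fac hxy hs)
  · intro u hu A hA t ht
    obtain ⟨v, hv, hs⟩ := secL_fac D F' X Y u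
    rw [← hF] at hs
    obtain ⟨h1, h2⟩ := h.clean v (by omega) A hA t ht
    exact ⟨fun x R y hxy => h1 x R y (trans_fac hxy hs),
      fun x R y hxy => h2 x R y (trans_fac hxy hs)⟩
  · intro u hdu hu X' Y' hm hX' x R y hxy
    obtain ⟨v, hv, hs⟩ := secL_fac D F' X Y u
    rw [← hF] at hs
    exact h.alt v (by omega) (by omega) X' Y' hm hX' x R y (trans_fac hxy hs)

end MK5

/-- MK5. -/
theorem mk5 {L : Type} [Fintype L] [DecidableEq L] (S : Setup L) : NodeFactor S := by
  intro k W hW W' hW'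
  obtain ⟨F, u, hu, hP, rfl⟩ := hW
  obtain ⟨F', X, Y, hF, hW⟩ := (tb0 S.D).factor u F W' hW'
  refine ⟨F', S.D.ev X u, ?_, ?_, hW⟩
  · rw [(b1 S.D).ev_length]; exact hu
  · rw [(b1 S.D).ev_length]
    exact MK5.perf_fac S.D hP X Y hF

end R4.Mk
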