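import Pool.Agent.Work.MP_e3f5d9_al.MK0
import Pool.Agent.Work.MP_e3f5d9_al.B1

/-!
# MK6: the owners are known
-/

set_option autoImplicit false

open Finset

namespace R4.Mk

open R4

namespace MK6

/-! ### Finite information -/

section det

variable {L : Type}

lemma det_of_fin {α γ δ : Type} {S : Set (List L)} {Ψ : List L → α} {Φ : List L → γ}
    (ρ : List L → δ) (hρ : (ρ '' S).Finite)
    (h : ∀ W ∈ S, ∀ W' ∈ S, Ψ W = Ψ W' → ρ W = ρ W' → Φ W = Φ W') : Det S Ψ Φ := by
  classical
  let _ : Fintype (ρ '' S) := hρ.fintype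
  let e := Fintype.equivFin (ρ '' S)
  by_cases hS : S.Nonempty
  · obtain ⟨W0, hW0⟩ := hS
    refine ⟨Fintype.card (ρ '' S), fun W => if hW : W ∈ S then e ⟨ρ W, W, hW, rfl⟩
      else e ⟨ρ W0, W0, hW0, rfl⟩, ?_⟩
    intro W hW W' hW' h1 h2
    refine h W hW W' hW' h1 ?_
    simp only [hW, hW', dif_pos] at h2
    have := e.injective h2
    exact congrArg Subtype.val this
  · refine ⟨1, fun _ => 0, fun W hW => ?_⟩
    exact absurd ⟨W, hW⟩ hS

lemma lists_finite {γ : Type} {s : Set γ} (hs : s.Finite) (k : ℕ) :
    {l : List γ | l.length ≤ k ∧ ∀ x ∈ l, x ∈ s}.Finite := by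
  have : Finite s := hs
  have h := (List.finite_length_le (α := s) k).image (List.map Subtype.val)
  refine h.subset ?_
  rintro l ⟨h1, h2⟩
  refine ⟨l.attachWith (· ∈ s) h2, ?_, ?_⟩
  · show (l.attachWith _ h2).length ≤ k
    rw [List.length_attachWith]; exact h1
  · exact List.attachWith_map_subtype_val h2

/-- A list that is near to a known list is determined up to finite information. -/
lemma det_near {γ : Type} {S : Set (List L)} (l l' : List L → List γ) (k : ℕ) {s : Set γ}
    (hs : s.Finite) (h : ∀ P ∈ S, Near k (l P) (l' P)) (h' : ∀ P ∈ S, ∀ x ∈ l' P, x ∈ s) :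
    Det S l l' := by
  classical
  have hex : ∀ P : List L, ∃ d : (ℕ × ℕ) × (List γ × List γ), P ∈ S →
      ∃ a b m : List γ, l P = a ++ m ++ b ∧ l' P = d.2.1 ++ m ++ d.2.2 ∧ a.length = d.1.1 ∧
        b.length = d.1.2 ∧ d.1.1 ≤ k ∧ d.1.2 ≤ k ∧ d.2.1.length ≤ k ∧ d.2.2.length ≤ k := by
    intro P
    by_cases hP : P ∈ S
    · obtain ⟨a, b, a', b', m, h1, h2, h3, h4, h5, h6⟩ := h P hP
      exact ⟨((a.length, b.length), (a', b')), fun _ => ⟨a, b, m, h1, h2, rfl, rfl, h3, h4, h5, h6⟩⟩
    · exact ⟨((0, 0), ([], [])), fun hP' => absurd hP' hP⟩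
  choose d hd using hex
  refine det_of_fin d ?_ ?_
  · have h1 : (Set.Iic k ×ˢ Set.Iic k : Set (ℕ × ℕ)).Finite :=
      (Set.finite_Iic k).prod (Set.finite_Iic k)
    have h2 := lists_finite hs k
    refine (h1.prod (h2.prod h2)).subset ?_
    rintro _ ⟨P, hP, rfl⟩
    obtain ⟨a, b, m, e1, e2, e3, e4, e5, e6, e7, e8⟩ := hd P hP
    have hm := h' P hP
    rw [e2] at hm
    refine ⟨⟨e5, e6⟩, ⟨e7, fun x hx => ?_⟩, ⟨e8, fun x hx => ?_⟩⟩
    · exact hm x (by simp [hx])
    · exact hm x (by simp [hx])
  · intro P hP P' hP' hl hρ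
    obtain ⟨a, b, m, e1, e2, e3, e4, e5, e6, e7, e8⟩ := hd P hP
    obtain ⟨a2, b2, m2, f1, f2, f3, f4, f5, f6, f7, f8⟩ := hd P' hP'
    rw [hρ] at e3 e4 e2
    have hlen : a.length = a2.length := by rw [e3, f3]
    have hlenb : b.length = b2.length := by rw [e4, f4]
    rw [e1, f1, List.append_assoc, List.append_assoc] at hl
    obtain ⟨_, hl2⟩ := List.append_inj hl hlen
    obtain ⟨hl3, _⟩ := List.append_inj' hl2 hlenb
    rw [e2, f2, hl3]

end det

lemma Near.map {β γ : Type} {k : ℕ} {l l' : List β} (h : Near k l l') (f : β → γ) :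
    Near k (l.map f) (l'.map f) := by
  obtain ⟨a, b, a', b', m, h1, h2, h3, h4, h5, h6⟩ := h
  exact ⟨a.map f, b.map f, a'.map f, b'.map f, m.map f, by rw [h1]; simp, by rw [h2]; simp,
    by simpa, by simpa, by simpa, by simpa⟩

/-! ### Words that are determined by pairs -/

lemma filter_inj {α : Type} [DecidableEq α] (C : α → Prop) (hC : ∀ x, C x → ∃ j, C j ∧ j ≠ x) :
    ∀ (w w' : List α), (∀ x ∈ w, C x) → (∀ x ∈ w', C x) →
    (∀ i j : α, C i → C j → i ≠ j →
      w.filter (fun x => x = i ∨ x = j) = w'.filter fun x => x = i ∨ x = j) → w = w'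
  | [], [], _, _, _ => rfl
  | [], x :: v, _, h2, h => by
    obtain ⟨j, hjC, hj⟩ := hC x (h2 x (by simp))
    have := h x j (h2 x (by simp)) hjC hj.symm
    simp at this
  | x :: v, [], h1, _, h => by
    obtain ⟨j, hjC, hj⟩ := hC x (h1 x (by simp))
    have := h x j (h1 x (by simp)) hjC hj.symm
    simp at this
  | x :: v, y :: v', h1, h2, h => by
    have hxy : x = y := by
      by_contra hne
      have := h x y (h1 x (by simp)) (h2 y (by simp)) hne
      simp at this
      exact hne this.1
    subst hxy
    congr 1
    refine filter_inj C hC v v' (fun z hz => h1 z (by simp [hz])) (fun z hz => h2 z (by simp [hz]))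
      fun i j hi hj hij => ?_
    have := h i j hi hj hij
    by_cases hx : x = i ∨ x = j
    · rw [List.filter_cons_of_pos (by simpa using hx), List.filter_cons_of_pos (by simpa using hx)]
        at this
      exact (List.cons.inj this).2
    · rw [List.filter_cons_of_neg (by simpa using hx), List.filter_cons_of_neg (by simpa using hx)]
        at this
      exact this

variable {L : Type} [Fintype L] [DecidableEq L]

lemma known_of {S : Setup L} (hC : KnownCalc S) {α β : Type} {Ψ : List L → α} {Φ : List L → β}
    (h : S.Known Ψ) (h' : ∀ W W', Ψ W = Ψ W' → Φ W = Φ W') : S.Known Φ :=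
  hC.det Ψ Φ h ⟨0, 1, fun _ => 0, fun W _ W' _ e _ => h' W W' e⟩

/-- Classes at `j`. -/
def IsCl (E : Finset (Finset L)) (j : L) (X : Finset L) : Prop := ∃ x, x ≠ j ∧ X = cl E j x

lemma mem_cl_iff {D : KS L} {E : Finset (Finset L)} (hSt : StarBasics D E) {j : L} {X : Finset L}
    (hX : IsCl E j X) (y : L) : y ∈ X ↔ y ≠ j ∧ cl E j y = X := by
  obtain ⟨x, hx, rfl⟩ := hX
  constructor
  · intro hy
    refine ⟨?_, hSt.eqv j x y hx hy⟩
    rintro rfl
    exact (hSt.self y x hx).2 hy
  · rintro ⟨h1, h2⟩
    rw [← h2]
    exact (hSt.self j y h1).1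

lemma isCl_other {D : KS L} {E : Finset (Finset L)} (hSt : StarBasics D E) {j : L}
    (hj : Ctr D E j) (X : Finset L) (_ : IsCl E j X) : ∃ Y, IsCl E j Y ∧ Y ≠ X := by
  by_cases h : X = cl E j D.o
  · -- there is a letter in the cap
    obtain ⟨hc1, hc2⟩ := hSt.cap_mem j hj.1
    have hne : cap E j ≠ {j} := by
      intro h'
      exact hj.2 (h' ▸ hc1)
    have : ∃ x ∈ cap E j, x ≠ j := by
      by_contra hcon
      push Not at hcon
      apply hne
      ext y
      rw [Finset.mem_singleton]
      exact ⟨fun hy => hcon y hy, fun hy => hy ▸ hc2⟩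
    obtain ⟨x, hx1, hx2⟩ := this
    refine ⟨cl E j x, ⟨x, hx2, rfl⟩, fun h' => ?_⟩
    have h3 : x ∈ cl E j x := (hSt.self j x hx2).1
    rw [h', h, hSt.out j hj.1, Finset.mem_compl] at h3
    exact h3 hx1
  · exact ⟨cl E j D.o, ⟨D.o, fun h' => hj.1 h'.symm, rfl⟩, fun h' => h h'.symm⟩

/-- The star words are known. -/
lemma star_known (S : Setup L) (hC : KnownCalc S) (hV : VisBasics L) (hP : VispBasics L)
    (hSt : StarBasics S.D S.E) (hK : AllK S) (j : L) (hj : Ctr S.D S.E j) :
    S.Known fun W => vis (st S.E j) none W := by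
  let I := {p : Finset L × Finset L // IsCl S.E j p.1 ∧ IsCl S.E j p.2 ∧ p.1 ≠ p.2}
  have hpi := hC.pi (ι := I) (β := fun _ => List Bool)
    (fun p W => vis (pc p.1.1 p.1.2) none W) (by
      rintro ⟨⟨X, Y⟩, hX, hY, hXY⟩
      have hdis : Disjoint X Y := by
        rw [Finset.disjoint_left]
        intro x hx hy
        rw [mem_cl_iff hSt hX] at hx
        rw [mem_cl_iff hSt hY] at hy
        exact hXY (hx.2.symm.trans hy.2)
      refine hK X Y ?_ ?_ hdis
      · obtain ⟨x, hx, rfl⟩ := hX
        exact hSt.side j x hx
      · obtain ⟨x, hx, rfl⟩ := hY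
        exact hSt.side j x hx)
  refine known_of hC hpi ?_
  intro W W' hW
  have hmem : ∀ W : List L, ∀ X ∈ vis (st S.E j) none W, IsCl S.E j X := by
    intro W X hX
    rw [← hP.fst _ _ [] W, List.mem_map] at hX
    obtain ⟨z, hz, rfl⟩ := hX
    obtain ⟨x, v, _, hx⟩ := hP.mem _ _ z hz
    unfold st at hx
    split_ifs at hx with h
    exact ⟨x, h, (Option.some.inj hx).symm⟩
  refine filter_inj (IsCl S.E j) (isCl_other hSt hj) _ _ (hmem W) (hmem W') ?_
  intro X Y hX hY hXY
  have h1 : vis (pc X Y) none W = vis (pc X Y) none W' := congrFun hW ⟨(X, Y), hX, hY, hXY⟩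
  have hsame : SameCls (pc X Y)
      (fun x => (st S.E j x).filter fun Z => decide (Z = X ∨ Z = Y)) := by
    have hpc : ∀ x, pc X Y x = if x ≠ j ∧ cl S.E j x = X then some true else
        if x ≠ j ∧ cl S.E j x = Y then some false else none := by
      intro x
      unfold pc
      rw [if_congr (mem_cl_iff hSt hX x) rfl (if_congr (mem_cl_iff hSt hY x) rfl rfl)]
    have hst : ∀ x, ((st S.E j x).filter fun Z => decide (Z = X ∨ Z = Y)) =
        if x ≠ j ∧ cl S.E j x = X then some X else
        if x ≠ j ∧ cl S.E j x = Y then some Y else none := by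
      intro x
      unfold st
      by_cases h1 : x = j
      · simp [h1]
      · by_cases h2 : cl S.E j x = X
        · simp [h1, h2, Option.filter]
        · by_cases h3 : cl S.E j x = Y
          · simp [h1, h3, Option.filter, hXY.symm]
          · simp [h1, h2, h3, Option.filter]
    constructor
    · intro x
      show pc X Y x = none ↔ ((st S.E j x).filter fun Z => decide (Z = X ∨ Z = Y)) = none
      rw [hpc, hst]
      split_ifs <;> simp
    · intro x y
      show pc X Y x = pc X Y y ↔ ((st S.E j x).filter fun Z => decide (Z = X ∨ Z = Y)) =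
        ((st S.E j y).filter fun Z => decide (Z = X ∨ Z = Y))
      rw [hpc, hpc, hst, hst]
      split_ifs <;> simp [hXY, hXY.symm]
  obtain ⟨e, he⟩ := hV.same _ _ hsame
  have h2 := he W
  have h3 := he W'
  rw [hV.filter] at h2 h3
  rw [h2, h3, h1]

/-! ### Parities of the visits -/

/-- The visits at `j` with the parity of the number of letters `o` before. -/
def par (S : Setup L) (j : L) (P : List L) : List (Finset L × Bool) :=
  (visp (st S.E j) none [] P).map fun z => (z.1, decide (Odd (z.2.count S.D.o)))

lemma par_known (S : Setup L) (hC : KnownCalc S) (hV : VisBasics L) (hP : VispBasics L)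
    (hSt : StarBasics S.D S.E) (hT : TkDet S) (hK : AllK S) (j : L) (hj : Ctr S.D S.E j) :
    S.Known (par S j) := by
  obtain ⟨hA, hjA⟩ := hSt.cap_mem j hj.1
  set A := cap S.E j with hAdef
  have hoA : S.D.o ∉ A := S.full.norm A hA
  let c : L → Option (Finset L) := fun x => if x ∈ A ∧ x ≠ j then some (cl S.E j x) else none
  have hcl_out : ∀ x, x ∉ A → cl S.E j x = Aᶜ := by
    intro x hx
    have h1 := hSt.out j hj.1
    rw [← h1]
    refine hSt.eqv j S.D.o x (fun h => hj.1 h.symm) ?_
    rw [h1, Finset.mem_compl]; exact hx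
  have hne_out : ∀ x, x ∉ A → x ≠ j := fun x hx h => hx (h ▸ hjA)
  have hcl_in : ∀ x, x ∈ A → x ≠ j → cl S.E j x ≠ Aᶜ := by
    intro x hx hxj h
    have h1 := (hSt.self j x hxj).1
    rw [h, Finset.mem_compl] at h1
    exact h1 hx
  have hgl : ∀ x, glR A c x = if x = j then none else if x ∈ A then some (some (cl S.E j x))
      else some none := by
    intro x
    unfold glR
    show (if x ∈ A then (if x ∈ A ∧ x ≠ j then some (cl S.E j x) else none).map some
      else some none) = _
    by_cases h1 : x = j
    · subst h1; simp [hjA]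
    · by_cases h2 : x ∈ A <;> simp [h1, h2]
  -- the star word determines the word of the classes `glR`
  have hsame : SameCls (st S.E j) (glR A c) := by
    constructor
    · intro x
      rw [hgl]; unfold st
      split_ifs <;> simp
    · intro x y
      rw [hgl, hgl]; unfold st
      by_cases hx : x = j
      · by_cases hy : y = j
        · simp [hx, hy]
        · by_cases hyA : y ∈ A <;> simp [hx, hy, hyA]
      · by_cases hy : y = j
        · by_cases hxA : x ∈ A <;> simp [hx, hy, hxA]
        · by_cases hxA : x ∈ A
          · by_cases hyA : y ∈ A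
            · simp [hx, hy, hxA, hyA]
            · simp only [hx, hy, hxA, hyA, if_true, if_false, hcl_out y hyA, Option.some.injEq,
                reduceCtorEq, iff_false]
              exact hcl_in x hxA hx
          · by_cases hyA : y ∈ A
            · simp only [hx, hy, hxA, hyA, if_true, if_false, hcl_out x hxA, Option.some.injEq,
                reduceCtorEq, iff_false]
              exact fun h => hcl_in y hyA hy h.symm
            · simp [hx, hy, hxA, hyA, hcl_out x hxA, hcl_out y hyA]
  have hk1 : S.Known fun W => vis (glR A c) none W := by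
    obtain ⟨e, he⟩ := hV.same _ _ hsame
    refine known_of hC (star_known S hC hV hP hSt hK j hj) ?_
    intro W W' h
    show vis (glR A c) none W = vis (glR A c) none W'
    rw [he, he, h]
  have hk2 : S.Known fun W => vis (pc A {S.D.o}) none W := by
    refine hK A {S.D.o} ?_ ?_ ?_
    · unfold KS.Side KS.nm
      rw [if_neg hoA]; exact hA
    · unfold KS.Side KS.nm
      rw [if_pos (Finset.mem_singleton_self _)]
      exact S.full.base
    · rw [Finset.disjoint_singleton_right]; exact hoA
  have hk3 := hC.prod _ _ hk1 hk2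
  have hk4 := hC.det _ _ hk3 ⟨0, hT A c hoA (fun x hx => by
    show (if x ∈ A ∧ x ≠ j then some (cl S.E j x) else none) = none
    rw [if_neg (fun h => hx h.1)])⟩
  refine known_of hC hk4 ?_
  intro W W' h
  let g : Option (Finset L) → Finset L := fun b => b.getD Aᶜ
  have hmap : ∀ W, visp (st S.E j) none [] W =
      (visp (glR A c) none [] W).map fun z => (g z.1, z.2) := by
    intro W
    rw [← hP.map g]
    · congr 1
      funext x
      rw [hgl]; unfold st
      by_cases hx : x = j
      · simp [hx]
      · by_cases hxA : x ∈ A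
        · simp [hx, hxA, g]
        · simp [hx, hxA, g, hcl_out x hxA]
    · intro x y b b' hb hb' hgb
      rw [hgl] at hb hb'
      split_ifs at hb with h1 h2 <;> split_ifs at hb' with h3 h4 <;>
        simp only [Option.some.injEq] at hb hb' <;> subst hb <;> subst hb'
      · simp only [g, Option.getD_some] at hgb
        rw [hgb]
      · simp only [g, Option.getD_some, Option.getD_none] at hgb
        exact absurd hgb (hcl_in x h2 h1)
      · simp only [g, Option.getD_some, Option.getD_none] at hgb
        exact absurd hgb.symm (hcl_in y h4 h3)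
      · rfl
  have hpar : ∀ W, par S j W = (tk S.D.o (glR A c) none false W).map fun z => (g z.1, z.2) := by
    intro W
    unfold par
    rw [hmap, hP.tk]
    simp only [List.map_map]
    congr 1
    funext z
    simp
  rw [hpar, hpar, h]

/-! ### Owners -/

section owners

variable (D : KS L)

lemma odd_append (a b : ℕ) : decide (Odd (a + b)) = xor (decide (Odd a)) (decide (Odd b)) := by
  by_cases ha : Odd a <;> by_cases hb : Odd b
  · simp [ha, hb, Nat.odd_add, Nat.not_even_iff_odd]
  · simp only [ha, hb, decide_true, decide_false, Bool.xor_false, decide_eq_true_eq]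
    rw [Nat.odd_add]; simp only [ha, true_iff]; exact Nat.not_odd_iff_even.1 hb
  · simp only [ha, hb, decide_true, decide_false, Bool.false_xor, decide_eq_true_eq]
    rw [Nat.odd_add]; simp only [ha, false_iff]; exact Nat.not_even_iff_odd.2 hb
  · simp only [ha, hb, decide_false, Bool.xor_false, decide_eq_false_iff_not]
    rw [Nat.odd_add]; simp only [ha, false_iff, not_not]; exact Nat.not_odd_iff_even.1 hb

lemma sec_single_rev (b : Bool) (x : L) : (D.sec b [x]).reverse = D.sec b [x] := by
  by_cases hx : x = D.o
  · subst hx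
    rw [B1Aux.sec_o, B1Aux.sec_nil]; rfl
  · cases hp : D.pre b x with
    | none => rw [B1Aux.sec_none D hx hp, B1Aux.sec_nil]; rfl
    | some i => rw [B1Aux.sec_some D hx hp, B1Aux.sec_nil]; rfl

lemma sec_single_par (b : Bool) (x : L) :
    D.sec (xor b (decide (Odd (([x] : List L).count D.o)))) [x] = D.sec b [x] := by
  by_cases hx : x = D.o
  · subst hx
    rw [B1Aux.sec_o, B1Aux.sec_o, B1Aux.sec_nil, B1Aux.sec_nil]
  · have : ([x] : List L).count D.o = 0 := by
      rw [List.count_eq_zero]; simpa using fun h => hx h.symm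
    rw [this]; simp

/-- Section of the reversed word. -/
lemma sec_reverse : ∀ (u : List L) (t : Bool),
    D.sec t u.reverse = (D.sec (xor t (decide (Odd (u.count D.o)))) u).reverse
  | [], t => by simp [B1Aux.sec_nil]
  | x :: u, t => by
    have hcount : (x :: u).count D.o = ([x] : List L).count D.o + u.count D.o := by
      rw [← List.count_append]; rfl
    rw [List.reverse_cons, B1Aux.sec_append, sec_reverse u t, List.count_reverse, hcount,
      odd_append]
    rw [show (x :: u) = [x] ++ u from rfl, B1Aux.sec_append, List.reverse_append]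
    have e1 : xor (xor t (xor (decide (Odd (([x] : List L).count D.o)))
        (decide (Odd (u.count D.o))))) (decide (Odd (([x] : List L).count D.o))) =
        xor t (decide (Odd (u.count D.o))) := by
      cases t <;> cases decide (Odd (([x] : List L).count D.o)) <;>
        cases decide (Odd (u.count D.o)) <;> rfl
    rw [e1]
    congr 1
    have e2 : xor t (xor (decide (Odd (([x] : List L).count D.o)))
        (decide (Odd (u.count D.o)))) = xor (xor t (decide (Odd (u.count D.o))))
          (decide (Odd (([x] : List L).count D.o))) := by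
      cases t <;> cases decide (Odd (([x] : List L).count D.o)) <;>
        cases decide (Odd (u.count D.o)) <;> rfl
    rw [e2, sec_single_par, sec_single_rev]

/-- The owner of a visit with prefix `u`, one level. -/
lemma ev_reverse_cons (u : List L) (t : Bool) (v : List Bool) :
    D.ev u.reverse (t :: v) = (xor t (decide (Odd (u.count D.o)))) ::
      D.ev (D.sec (xor t (decide (Odd (u.count D.o)))) u).reverse v := by
  rw [B1Aux.ev_cons, List.count_reverse, sec_reverse]

omit [Fintype L] [DecidableEq L] in
lemma adr_length (i : L) : ∀ e, (adr D i e).length = e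
  | 0 => rfl
  | e + 1 => by simp [adr, adr_length i e]

omit [Fintype L] [DecidableEq L] in
lemma iter_ne (i : L) (e : ℕ) : D.nxt^[e + 1] i ≠ D.o := by
  rw [Function.iterate_succ_apply']; exact D.nxt_ne _

/-- The letter `nxt^[e] i` fixes the address of `i`. -/
lemma act_adr (i : L) : ∀ e, D.act (D.nxt^[e] i) (adr D i e) = adr D i e
  | 0 => by simp [adr]
  | e + 1 => by
    have hp : D.pre (D.side (D.nxt^[e] i)) (D.nxt^[e + 1] i) = some (D.nxt^[e] i) := by
      rw [B1Aux.pre_eq]
      exact ⟨by rw [Function.iterate_succ_apply'], rfl⟩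
    show D.act (D.nxt^[e + 1] i) (D.side (D.nxt^[e] i) :: adr D i e) = _
    rw [B1Aux.act_some D (iter_ne D i e) hp, act_adr i e]
    rfl

lemma ev_adr (i : L) (e : ℕ) : ∀ G : List L, (∀ x ∈ G, x = D.nxt^[e] i) →
    D.ev G (adr D i e) = adr D i e
  | [], _ => B1Aux.ev_nil D _
  | x :: G, h => by
    rw [B1Aux.ev_cons', h x (by simp), act_adr]
    exact ev_adr i e G fun y hy => h y (by simp [hy])

lemma ev_silent (t : Bool) (v : List Bool) : ∀ R : List L,
    (∀ x ∈ R, x ≠ D.o ∧ D.pre t x = none) → D.ev R (t :: v) = t :: v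
  | [], _ => B1Aux.ev_nil D _
  | x :: R, h => by
    rw [B1Aux.ev_cons', B1Aux.act_none D (h x (by simp)).1 (h x (by simp)).2]
    exact ev_silent t v R fun y hy => h y (by simp [hy])

end owners

/-! ### Lists with the same keys -/

lemma same_of_filterMap {α κ γ : Type} (key : α → κ) (cond : κ → Prop) [DecidablePred cond]
    (g : α → γ) : ∀ (Z Z' : List α), Z.map key = Z'.map key →
    Z.filterMap (fun z => if cond (key z) then some (g z) else none) =
      Z'.filterMap (fun z => if cond (key z) then some (g z) else none) →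
    List.Forall₂ (fun z z' => cond (key z) → g z = g z') Z Z'
  | [], [], _, _ => List.Forall₂.nil
  | [], _ :: _, h, _ => by simp at h
  | _ :: _, [], h, _ => by simp at h
  | z :: Z, z' :: Z', h, h' => by
    simp only [List.map_cons, List.cons.injEq] at h
    by_cases hc : cond (key z)
    · have hc' : cond (key z') := h.1 ▸ hc
      rw [List.filterMap_cons_some (b := g z) (by rw [if_pos hc]),
        List.filterMap_cons_some (b := g z') (by rw [if_pos hc'])] at h'
      rw [List.cons.injEq] at h'
      exact List.Forall₂.cons (fun _ => h'.1) (same_of_filterMap key cond g Z Z' h.2 h'.2)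
    · have hc' : ¬ cond (key z') := fun hh => hc (h.1 ▸ hh)
      rw [List.filterMap_cons_none (by rw [if_neg hc]),
        List.filterMap_cons_none (by rw [if_neg hc'])] at h'
      exact List.Forall₂.cons (fun hh => absurd hh hc) (same_of_filterMap key cond g Z Z' h.2 h')

/-- Unpopulated visits have the owner of the next visit. -/
lemma owners_eq {α κ γ : Type} (key : α → κ) (pop : κ → Prop) (g : α → γ) :
    ∀ (Z Z' : List α), Z.map key = Z'.map key →
    List.Forall₂ (fun z z' => pop (key z) → g z = g z') Z Z' →
    Z.IsChain (fun z z' => ¬ pop (key z) → g z = g z') →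
    Z'.IsChain (fun z z' => ¬ pop (key z) → g z = g z') →
    (Z.getLast?.map g) = (Z'.getLast?.map g) → Z.map g = Z'.map g
  | [], [], _, _, _, _, _ => rfl
  | [], _ :: _, h, _, _, _, _ => by simp at h
  | _ :: _, [], h, _, _, _, _ => by simp at h
  | [z], [z'], _, _, _, _, hl => by
    simp only [List.getLast?_singleton, Option.map_some, Option.some.injEq] at hl
    simp [hl]
  | [_], _ :: _ :: _, h, _, _, _, _ => by simp at h
  | _ :: _ :: _, [_], h, _, _, _, _ => by simp at h
  | z :: z1 :: Z, z' :: z1' :: Z', h, hf, hc, hc', hl => by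
    have h1 : (z1 :: Z).map key = (z1' :: Z').map key := by
      simp only [List.map_cons, List.cons.injEq] at h ⊢
      exact h.2
    have h0 : key z = key z' := by
      simp only [List.map_cons, List.cons.injEq] at h
      exact h.1
    rw [List.isChain_cons_cons] at hc hc'
    rw [List.forall₂_cons] at hf
    have hl1 : ((z1 :: Z).getLast?.map g) = ((z1' :: Z').getLast?.map g) := by
      rw [List.getLast?_cons_cons, List.getLast?_cons_cons] at hl
      exact hl
    have ih := owners_eq key pop g (z1 :: Z) (z1' :: Z') h1 hf.2 hc.2 hc'.2 hl1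
    have hz : g z = g z' := by
      by_cases hp : pop (key z)
      · exact hf.1 hp
      · rw [hc.1 hp, hc'.1 (h0 ▸ hp)]
        simp only [List.map_cons, List.cons.injEq] at ih
        exact ih.1
    show g z :: (z1 :: Z).map g = g z' :: (z1' :: Z').map g
    rw [hz, ih]

lemma forall_and {α : Type} {R1 R2 R3 : α → α → Prop} : ∀ {Z Z' : List α},
    List.Forall₂ R1 Z Z' → List.Forall₂ R2 Z Z' → List.Forall₂ R3 Z Z' →
    List.Forall₂ (fun z z' => R1 z z' ∧ R2 z z' ∧ R3 z z') Z Z'
  | _, _, List.Forall₂.nil, _, _ => List.Forall₂.nil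
  | _, _, List.Forall₂.cons h1 t1, h2, h3 => by
    rw [List.forall₂_cons] at h2 h3
    exact List.Forall₂.cons ⟨h1, h2.1, h3.1⟩ (forall_and t1 h2.2 h3.2)

lemma forall_key {α κ : Type} (key : α → κ) : ∀ (Z Z' : List α), Z.map key = Z'.map key →
    List.Forall₂ (fun z z' => key z = key z') Z Z'
  | [], [], _ => List.Forall₂.nil
  | [], _ :: _, h => by simp at h
  | _ :: _, [], h => by simp at h
  | z :: Z, z' :: Z', h => by
    simp only [List.map_cons, List.cons.injEq] at h
    exact List.Forall₂.cons h.1 (forall_key key Z Z' h.2)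

lemma chain_of {α : Type} {R : α → α → Prop} : ∀ (Z : List α),
    (∀ V1 z z' V2, Z = V1 ++ z :: z' :: V2 → R z z') → Z.IsChain R
  | [], _ => List.IsChain.nil
  | [_], _ => List.IsChain.singleton _
  | z :: z' :: Z, h => by
    rw [List.isChain_cons_cons]
    exact ⟨h [] z z' Z rfl, chain_of (z' :: Z) fun V1 y y' V2 e => h (z :: V1) y y' V2 (by rw [e]; rfl)⟩

omit [DecidableEq L] in
lemma exists_other (D : KS L) (t : Bool) : ∃ y, D.side y ≠ t := by
  by_contra hcon
  push Not at hcon
  have hinj : Function.Injective D.nxt := fun a b h => D.inj a b h (by rw [hcon a, hcon b])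
  obtain ⟨x, hx⟩ := (Finite.injective_iff_surjective.1 hinj) D.o
  exact D.nxt_ne x hx

/-- The class of `o` is populated. -/
lemma pop_o {D : KS L} {E : Finset (Finset L)} (hSt : StarBasics D E) {i : L} (hi : Ctr D E i) :
    (stp D i (cl E (D.nxt i) D.o)).Nonempty := by
  obtain ⟨y, hy⟩ := exists_other D (D.side i)
  have hyi : y ≠ i := fun h => hy (by rw [h])
  have h1 := hSt.cl_eq i hi y hyi
  rw [if_neg hy] at h1
  rw [← h1]
  exact ⟨y, (hSt.self i y hyi).1⟩

end MK6

open MK6 in
/-- MK6. -/
theorem mk6 {L : Type} [Fintype L] [DecidableEq L] (S : Setup L) (hC : KnownCalc S) (hV : VisBasics L) (hP : VispBasics L)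
    (hSt : StarBasics S.D S.E) (hT : TkDet S) (hL : LiftStep S) : Own S := by
  intro hK i hi e
  have hctr : ∀ e, Ctr S.D S.E (S.D.nxt^[e] i) := by
    intro e
    induction e with
    | zero => exact hi
    | succ e ih => rw [Function.iterate_succ_apply']; exact hSt.nxt _ ih
  induction e with
  | zero =>
    refine known_of hC (star_known S hC hV hP hSt hK i hi) ?_
    intro W W' h
    have hown : ∀ W, own S.D S.E i 0 W = (vis (st S.E i) none W).map fun b => (b, ([] : List Bool)) := by
      intro W
      unfold own
      rw [← hP.fst (st S.E i) none [] W, List.map_map]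
      apply List.map_congr_left
      intro z _
      have hl : (S.D.ev z.2.reverse (adr S.D i 0)).length = 0 := by
        rw [B1Aux.ev_length]; rfl
      show (z.1, S.D.ev z.2.reverse (adr S.D i 0)) = (z.1, [])
      rw [List.eq_nil_of_length_eq_zero hl]
    rw [hown, hown, h]
  | succ e ih =>
    set j1 := S.D.nxt^[e] i with hj1
    have hj : S.D.nxt^[e + 1] i = S.D.nxt j1 := Function.iterate_succ_apply' _ _ _
    set t := S.D.side j1 with ht
    let key : Finset L × List L → Finset L × Bool := fun z => (z.1, decide (Odd (z.2.count S.D.o)))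
    let pop : Finset L × Bool → Prop := fun κ => (stp S.D j1 κ.1).Nonempty
    let cond : Bool → Finset L × Bool → Prop := fun a κ => xor a κ.2 = t ∧ pop κ
    let g : Finset L × List L → List Bool := fun z => S.D.ev z.2.reverse (adr S.D i (e + 1))
    let ga : Bool → Finset L × List L → Finset L × List Bool :=
      fun a z => (stp S.D j1 z.1, S.D.ev (S.D.sec a z.2).reverse (adr S.D i e))
    let vz : List L → List (Finset L × List L) := fun P => visp (st S.E (S.D.nxt j1)) none [] P
    classical
    let l : Bool → List L → List (Finset L × List Bool) := fun a P => own S.D S.E i e (S.D.sec a P)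
    let l' : Bool → List L → List (Finset L × List Bool) := fun a P =>
      (vz P).filterMap fun z => if cond a (key z) then some (ga a z) else none
    have hnear : ∀ a, ∀ P ∈ S.N 0, Near 2 (l a P) (l' a P) := by
      intro a P hPN
      have h1 := MK6.Near.map (hL j1 (hctr e) P hPN a)
        (fun z => (z.1, S.D.ev z.2.reverse (adr S.D i e)))
      rw [List.map_filterMap] at h1
      have h2 : (fun z : Finset L × List L => Option.map
          (fun z : Finset L × List L => (z.1, S.D.ev z.2.reverse (adr S.D i e)))
          (if xor a (decide (Odd (z.2.count S.D.o))) = S.D.side j1 ∧ (stp S.D j1 z.1).Nonempty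
            then some (stp S.D j1 z.1, S.D.sec a z.2) else none)) =
          fun z => if cond a (key z) then some (ga a z) else none := by
        funext z
        by_cases hc : xor a (decide (Odd (z.2.count S.D.o))) = S.D.side j1 ∧
            (stp S.D j1 z.1).Nonempty
        · rw [if_pos hc, if_pos (show cond a (key z) from hc)]
          rfl
        · rw [if_neg hc, if_neg (show ¬ cond a (key z) from hc)]
          rfl
      rw [h2] at h1
      exact h1
    have hs : {p : Finset L × List Bool | p.2.length = e}.Finite := by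
      refine ((Set.finite_univ (α := Finset L)).prod (List.finite_length_eq Bool e)).subset ?_
      rintro ⟨a, b⟩ hb
      exact ⟨Set.mem_univ _, hb⟩
    have hmem : ∀ a, ∀ P ∈ S.N 0, ∀ x ∈ l' a P, x ∈ {p : Finset L × List Bool | p.2.length = e} := by
      intro a P _ x hx
      simp only [l', List.mem_filterMap] at hx
      obtain ⟨z, _, hz⟩ := hx
      split_ifs at hz with hc
      rw [← Option.some.inj hz]
      show (S.D.ev (S.D.sec a z.2).reverse (adr S.D i e)).length = e
      rw [B1Aux.ev_length, adr_length]
    have hdet : ∀ a, Det (S.N 0) (l a) (l' a) := fun a =>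
      det_near (l a) (l' a) 2 hs (hnear a) (hmem a)
    obtain ⟨n0, ρ0, hρ0⟩ := hdet false
    obtain ⟨n1, ρ1, hρ1⟩ := hdet true
    let ρl : List L → Option (List Bool) := fun P => (vz P).getLast?.map g
    have hknown : S.Known fun P => ((par S (S.D.nxt j1) P, l false P), l true P) :=
      hC.prod _ _ (hC.prod _ _ (par_known S hC hV hP hSt hT hK _ (hj ▸ hctr (e + 1)))
        (hC.down _ false ih)) (hC.down _ true ih)
    refine hC.det _ _ hknown ⟨0, ?_⟩
    have hrange : ((fun P => ((ρ0 P, ρ1 P), ρl P)) '' S.N 0).Finite := by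
      have h3 : (insert none (some '' {v : List Bool | v.length = e + 1})).Finite :=
        ((List.finite_length_eq Bool (e + 1)).image some).insert none
      refine ((Set.finite_univ (α := Fin n0 × Fin n1)).prod h3).subset ?_
      rintro _ ⟨P, _, rfl⟩
      refine ⟨Set.mem_univ _, ?_⟩
      show ρl P ∈ _
      simp only [ρl]
      cases hv : (vz P).getLast? with
      | none => left; rfl
      | some z =>
        right
        refine ⟨g z, ?_, rfl⟩
        show (S.D.ev z.2.reverse (adr S.D i (e + 1))).length = e + 1
        rw [B1Aux.ev_length, adr_length]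
    refine det_of_fin (fun P => ((ρ0 P, ρ1 P), ρl P)) hrange ?_
    intro P hPN P' hPN' hΨ hρ
    simp only [Prod.mk.injEq] at hΨ hρ
    obtain ⟨⟨hpar, hl0⟩, hl1⟩ := hΨ
    obtain ⟨⟨hr0, hr1⟩, hrl⟩ := hρ
    have e0 := hρ0 P hPN P' hPN' hl0 hr0
    have e1 := hρ1 P hPN P' hPN' hl1 hr1
    have hkey : (vz P).map key = (vz P').map key := hpar
    have f0 := same_of_filterMap key (cond false) (ga false) _ _ hkey e0
    have f1 := same_of_filterMap key (cond true) (ga true) _ _ hkey e1
    have fk := forall_key key _ _ hkey
    have hf : List.Forall₂ (fun z z' => pop (key z) → g z = g z') (vz P) (vz P') := by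
      refine (forall_and fk f0 f1).imp ?_
      rintro z z' ⟨hk, h0, h1⟩ hp
      have hk2 : decide (Odd (z.2.count S.D.o)) = decide (Odd (z'.2.count S.D.o)) :=
        (Prod.mk.inj hk).2
      have hadr : adr S.D i (e + 1) = t :: adr S.D i e := rfl
      have hga : ∀ a, a = xor t (decide (Odd (z.2.count S.D.o))) → ga a z = ga a z' := by
        intro a ha
        have hc : cond a (key z) := by
          refine ⟨?_, hp⟩
          show xor a (decide (Odd (z.2.count S.D.o))) = t
          rw [ha]
          cases t <;> cases decide (Odd (z.2.count S.D.o)) <;> rfl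
        cases a with
        | false => exact h0 hc
        | true => exact h1 hc
      show S.D.ev z.2.reverse (adr S.D i (e + 1)) = S.D.ev z'.2.reverse (adr S.D i (e + 1))
      rw [hadr, ev_reverse_cons, ev_reverse_cons, ← hk2]
      have := congrArg Prod.snd (hga _ rfl)
      simp only [ga] at this
      rw [this]
    have hchain : ∀ P, (vz P).IsChain (fun z z' => ¬ pop (key z) → g z = g z') := by
      intro P
      refine chain_of _ ?_
      intro V1 z z' V2 hV
      intro hnp
      obtain ⟨R, G, _, hz', hR, hG, _⟩ := hP.next _ _ z z' V1 V2 hV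
      have hRj : ∀ x ∈ R, x ≠ S.D.nxt j1 ∧ cl S.E (S.D.nxt j1) x = z.1 := by
        intro x hx
        have h1 := hR x hx
        unfold st at h1
        split_ifs at h1 with h2
        exact ⟨h2, Option.some.inj h1⟩
      have hGj : ∀ x ∈ G, x = S.D.nxt^[e + 1] i := by
        intro x hx
        have h1 := hG x hx
        unfold st at h1
        split_ifs at h1 with h2
        rw [hj]; exact h2
      have hemp : stp S.D j1 z.1 = ∅ := Finset.not_nonempty_iff_eq_empty.1 hnp
      have hoz : ∀ x ∈ R, S.D.o ∉ z.1 := by
        intro x hx ho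
        obtain ⟨h1, h2⟩ := hRj x hx
        have h3 : cl S.E (S.D.nxt j1) S.D.o = z.1 := by
          rw [← h2]; exact hSt.eqv _ x S.D.o h1 (h2 ▸ ho)
        apply hnp
        show (stp S.D j1 z.1).Nonempty
        rw [← h3]
        exact pop_o hSt (hctr e)
      show S.D.ev z.2.reverse (adr S.D i (e + 1)) = S.D.ev z'.2.reverse (adr S.D i (e + 1))
      rw [hz', List.reverse_append, List.reverse_append, B1Aux.ev_append, B1Aux.ev_append,
        ev_adr S.D i (e + 1) G.reverse (fun x hx => hGj x (List.mem_reverse.1 hx))]
      show S.D.ev z.2.reverse (adr S.D i (e + 1)) =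
        S.D.ev z.2.reverse (S.D.ev R.reverse (t :: adr S.D i e))
      rw [ev_silent]
      · rfl
      · intro x hx
        rw [List.mem_reverse] at hx
        obtain ⟨h1, h2⟩ := hRj x hx
        have hxz : x ∈ z.1 := by rw [← h2]; exact (hSt.self _ x h1).1
        have ho := hoz x hx
        refine ⟨fun h => ho (h ▸ hxz), ?_⟩
        unfold stp at hemp
        rw [if_neg ho] at hemp
        cases hpre : S.D.pre t x with
        | none => rfl
        | some y =>
          rw [B1Aux.pre_eq] at hpre
          have : y ∈ S.D.lp (S.D.side j1) z.1 := by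
            simp only [KS.lp, Finset.mem_filter, Finset.mem_univ, true_and]
            exact ⟨hpre.2, hpre.1 ▸ hxz⟩
          rw [hemp] at this
          exact absurd this (Finset.notMem_empty y)
    have hmap := owners_eq key pop g (vz P) (vz P') hkey hf (hchain P) (hchain P') hrl
    have hfst : (vz P).map Prod.fst = (vz P').map Prod.fst := by
      have := congrArg (List.map Prod.fst) hkey
      simpa [List.map_map, Function.comp_def, key] using this
    have hfin : ∀ P, own S.D S.E i (e + 1) P = (vz P).map fun z => (z.1, g z) := by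
      intro P
      unfold own
      rw [hj]
    rw [hfin, hfin, ← List.zip_map', ← List.zip_map', hfst, hmap]

end R4.Mk
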