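import Pool.Agent.Work.MP_e3f5d9_al.TB1a

/-!
# R4, block TB1: reduction to UT words, part b (window words)
-/

set_option autoImplicit false

open Finset

namespace R4

namespace TB1Aux

variable {L : Type} [Fintype L] [DecidableEq L] (D : KS L)

lemma path_into {E : Finset (Finset L)} {n0 : ℕ} (hexp : D.Exp E n0) :
    ∀ t, ∀ A ∈ E, ∃ A' ∈ E, D.Path E t A' A := by
  intro t
  induction t with
  | zero => intro A hA; exact ⟨A, hA, hA, rfl⟩
  | succ t ih =>
    intro A hA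
    obtain ⟨C, hC, hCA⟩ := ih A hA
    obtain ⟨m, rfl⟩ : ∃ m, n0 = m + 1 := ⟨n0 - 1, by have := hexp.1; omega⟩
    obtain ⟨A', hA', harr⟩ := B4Aux.path_in D m C C (hexp.2 C hC C hC)
    exact ⟨A', hA', C, harr, hCA⟩

lemma sum_swap {ι : Type} (V : Finset ι) (T : Finset ℕ) (E : Finset (Finset L))
    (f : ι → ℕ → Finset L → Finset L → ℕ) :
    ∑ v ∈ V, ∑ t ∈ T, ∑ A ∈ E, ∑ B ∈ E, f v t A B =
      ∑ t ∈ T, ∑ A ∈ E, ∑ B ∈ E, ∑ v ∈ V, f v t A B := by
  rw [Finset.sum_comm]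
  refine Finset.sum_congr rfl fun t _ => ?_
  rw [Finset.sum_comm]
  refine Finset.sum_congr rfl fun A _ => ?_
  rw [Finset.sum_comm]

lemma low_bound {E : Finset (Finset L)} {k n0 j0 M r : ℕ} {w : List L}
    (hw : D.Win E w j0 (j0 + (k + n0)) M r) {t : ℕ} (ht : t ≤ k) {B : Finset L} (hB : B ∈ E) :
    M ≤ ∑ v ∈ lev j0, D.tot (rr B) (t + n0) (red (D.secL v w)) + r := by
  have e1 : ∑ v ∈ lev j0, D.tot (rr B) (t + n0) (red (D.secL v w)) =
      D.tot (rr B) (j0 + (t + n0)) w := by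
    rw [tot_tot, tot_lev]
    refine Finset.sum_congr rfl fun v _ => ?_
    apply (b3 D).tot_red
    intro z
    unfold rr
    rw [red_red (b1p L)]
  rw [e1]
  exact (hw (j0 + (t + n0)) (by omega) (by omega) B hB).1

lemma up_bound {E : Finset (Finset L)} (hE : D.Mixing E) {k n0 j0 M r : ℕ} (hexp : D.Exp E n0)
    {w : List L} (hw : D.Win E w j0 (j0 + (k + n0)) M r) (hr : 2 ^ (j0 + k + n0 + 1) ≤ r)
    {t : ℕ} (ht : t ≤ k) {A : Finset L} (hA : A ∈ E) :
    ∑ v ∈ lev j0, (D.tot (runs A) t (red (D.secL v w)) + 2 ^ (t + (n0 + 1))) ≤ M + 3 * r := by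
  obtain ⟨A', hA', hp⟩ := path_into D hexp t A hA
  have e1 : ∀ v ∈ lev j0, D.tot (runs A) t (red (D.secL v w)) + 2 ^ (t + (n0 + 1)) ≤
      rr A' (D.secL v w) + (2 ^ (t + 1) + 2 ^ (t + (n0 + 1))) := by
    intro v _
    have := TB0Aux.low D hE t A' A hp (red (D.secL v w))
    have h2 : rr A' (D.secL v w) = runs A' (red (D.secL v w)) := rfl
    omega
  have e2 := Finset.sum_le_sum e1
  rw [Finset.sum_add_distrib (f := fun v => rr A' (D.secL v w)), ← tot_lev D (rr A') j0 w,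
    Finset.sum_const, card_lev, smul_eq_mul, mul_add, ← pow_add, ← pow_add] at e2
  have e3 := (hw j0 le_rfl (by omega) A' hA').2
  have e4 : 2 ^ (j0 + (t + 1)) ≤ r :=
    (Nat.pow_le_pow_right (by norm_num) (by omega)).trans hr
  have e5 : 2 ^ (j0 + (t + (n0 + 1))) ≤ r :=
    (Nat.pow_le_pow_right (by norm_num) (by omega)).trans hr
  calc _ ≤ _ := e2
    _ ≤ _ := by omega

lemma win_cut {E : Finset (Finset L)} (hE : D.Mixing E) {n0 θ : ℕ} (k : ℕ) (hexp : D.Exp E n0)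
    (hθ : 2 ^ (n0 + 1) + 2 ≤ θ) {w : List L} {j0 M r : ℕ}
    (hw : D.Win E w j0 (j0 + (k + n0)) M r) (hr : 2 ^ (j0 + k + n0 + 1) ≤ r) :
    ∃ (ps : List Bool → List (List L)) (s : List Bool → ℕ),
      (∀ v, (ps v).flatten = red (D.secL v w) ∧ (∀ p ∈ ps v, D.UT E n0 θ k p) ∧
        (ps v).length = 2 * s v + 1) ∧
      ∑ v ∈ lev j0, s v ≤ (k + 1) * (E.card * (E.card * (4 * r))) := by
  choose ps s h1 h2 h3 h4 using fun v : List Bool =>
    cut D hE k hexp hθ (red (D.secL v w)) (red_red (b1p L) _)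
  refine ⟨ps, s, fun v => ⟨h1 v, h2 v, h3 v⟩, ?_⟩
  have e1 := Finset.sum_le_sum (s := lev j0) (fun v _ => h4 v)
  rw [Finset.sum_add_distrib, sum_swap, sum_swap] at e1
  have e2 : ∑ t ∈ range (k + 1), ∑ A ∈ E, ∑ B ∈ E, ∑ v ∈ lev j0,
      (D.tot (runs A) t (red (D.secL v w)) + 2 ^ (t + (n0 + 1))) ≤
      ∑ _t ∈ range (k + 1), ∑ _A ∈ E, ∑ _B ∈ E, (M + 3 * r) := by
    refine Finset.sum_le_sum fun t ht => Finset.sum_le_sum fun A hA => Finset.sum_le_sum fun B _ => ?_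
    exact up_bound D hE hexp hw hr (by rw [Finset.mem_range] at ht; omega) hA
  have e3 : ∑ _t ∈ range (k + 1), ∑ _A ∈ E, ∑ _B ∈ E, M ≤
      ∑ t ∈ range (k + 1), ∑ _A ∈ E, ∑ B ∈ E,
        ∑ v ∈ lev j0, D.tot (rr B) (t + n0) (red (D.secL v w)) +
      ∑ _t ∈ range (k + 1), ∑ _A ∈ E, ∑ _B ∈ E, r := by
    simp only [← Finset.sum_add_distrib]
    refine Finset.sum_le_sum fun t ht => Finset.sum_le_sum fun A _ => Finset.sum_le_sum fun B hB => ?_
    exact low_bound D hw (by rw [Finset.mem_range] at ht; omega) hB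
  simp only [Finset.sum_const, Finset.card_range, smul_eq_mul] at e2 e3 ⊢
  have e4 : (k + 1) * (E.card * (E.card * (M + 3 * r))) =
      (k + 1) * (E.card * (E.card * M)) + 3 * ((k + 1) * (E.card * (E.card * r))) := by ring
  have e5 : (k + 1) * (E.card * (E.card * (4 * r))) =
      4 * ((k + 1) * (E.card * (E.card * r))) := by ring
  rw [e5]
  rw [e4] at e2
  simp only [Finset.sum_const, Finset.card_range, smul_eq_mul] at e1
  omega

lemma length_eq (z : List L) : z.length = ∑ i, z.count i := by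
  induction z with
  | nil => simp
  | cons x z ih => simp [List.count_cons, Finset.sum_add_distrib, ih]

lemma win_length (j0 : ℕ) (w : List L) :
    ∑ v ∈ lev j0, (red (D.secL v w)).length ≤ Fintype.card L * w.length := by
  calc ∑ v ∈ lev j0, (red (D.secL v w)).length
      ≤ ∑ v ∈ lev j0, ∑ i, (D.secL v w).count i := by
        refine Finset.sum_le_sum fun v _ => ?_
        rw [length_eq]
        exact Finset.sum_le_sum fun i _ => (b1p L).count_red i _
    _ = ∑ i, ∑ v ∈ lev j0, (D.secL v w).count i := Finset.sum_comm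
    _ = ∑ i, w.count (D.nxt^[j0] i) := by
        refine Finset.sum_congr rfl fun i _ => ?_
        rw [← tot_lev D (List.count i) j0 w, (b3 D).tot_count]
    _ ≤ ∑ _i : L, w.length := Finset.sum_le_sum fun i _ => List.count_le_length
    _ = _ := by simp

/-! ### Counting of compositions -/

/-- Elements of UT words of length at most `ℓ`. -/
def AA (E : Finset (Finset L)) (n0 θ k ℓ : ℕ) : Set (List Bool → List Bool) :=
  {g | ∃ F : List L, D.UT E n0 θ k F ∧ F.length ≤ ℓ ∧ D.ev F = g}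

/-- Elements of products of `m` UT words of total length at most `Λ`. -/
def BB (E : Finset (Finset L)) (n0 θ k m Λ : ℕ) : Set (List Bool → List Bool) :=
  {g | ∃ ps : List (List L), ps.length = m ∧ (∀ p ∈ ps, D.UT E n0 θ k p) ∧
    ps.flatten.length ≤ Λ ∧ D.ev ps.flatten = g}

lemma bb_sub (E : Finset (Finset L)) (n0 θ k m Λ : ℕ) :
    BB D E n0 θ k (m + 1) Λ ⊆ ⋃ ℓ ∈ range (Λ + 1),
      (fun p : (List Bool → List Bool) × (List Bool → List Bool) => p.2 ∘ p.1) ''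
        (AA D E n0 θ k ℓ ×ˢ BB D E n0 θ k m (Λ - ℓ)) := by
  rintro g ⟨ps, h1, h2, h3, rfl⟩
  match ps, h1, h2, h3 with
  | p :: ps, h1, h2, h3 =>
    rw [List.flatten_cons, List.length_append] at h3
    rw [Set.mem_iUnion₂]
    refine ⟨p.length, by rw [Finset.mem_range]; omega, (D.ev p, D.ev ps.flatten), ⟨?_, ?_⟩, ?_⟩
    · exact ⟨p, h2 p List.mem_cons_self, le_rfl, rfl⟩
    · exact ⟨ps, by simpa using h1, fun q hq => h2 q (List.mem_cons_of_mem _ hq), by omega, rfl⟩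
    · funext x
      rw [List.flatten_cons, B1Aux.ev_append]
      rfl

lemma bb_count {E : Finset (Finset L)} {n0 θ k : ℕ} {ε C S : ℝ} (hε : 0 < ε) (hC : 0 ≤ C)
    (hS : C ≤ S * (1 - Real.exp (-ε))) (hS0 : 0 ≤ S)
    (h : ∀ ℓ : ℕ, (AA D E n0 θ k ℓ).Finite ∧ ((AA D E n0 θ k ℓ).ncard : ℝ) ≤
      C * Real.exp (ε * ℓ)) :
    ∀ m Λ : ℕ, (BB D E n0 θ k m Λ).Finite ∧
      ((BB D E n0 θ k m Λ).ncard : ℝ) ≤ S ^ m * Real.exp (2 * ε * Λ) := by
  intro m
  induction m with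
  | zero =>
    intro Λ
    have hsub : BB D E n0 θ k 0 Λ ⊆ {D.ev []} := by
      rintro g ⟨ps, h1, -, -, rfl⟩
      rw [List.length_eq_zero_iff] at h1
      subst h1
      rfl
    refine ⟨(Set.finite_singleton _).subset hsub, ?_⟩
    have h1 := Set.ncard_le_ncard hsub (Set.finite_singleton _)
    rw [Set.ncard_singleton] at h1
    have h2 : (1 : ℝ) ≤ Real.exp (2 * ε * Λ) := Real.one_le_exp (by positivity)
    rw [pow_zero, one_mul]
    refine le_trans ?_ h2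
    exact_mod_cast h1
  | succ m ih =>
    intro Λ
    have hfin : ∀ ℓ ∈ range (Λ + 1),
        ((fun p : (List Bool → List Bool) × (List Bool → List Bool) => p.2 ∘ p.1) ''
        (AA D E n0 θ k ℓ ×ˢ BB D E n0 θ k m (Λ - ℓ))).Finite := fun ℓ _ =>
      ((h ℓ).1.prod (ih (Λ - ℓ)).1).image _
    have hU : (⋃ ℓ ∈ range (Λ + 1),
      (fun p : (List Bool → List Bool) × (List Bool → List Bool) => p.2 ∘ p.1) ''
        (AA D E n0 θ k ℓ ×ˢ BB D E n0 θ k m (Λ - ℓ))).Finite :=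
      Set.Finite.biUnion (Finset.finite_toSet _) (fun ℓ hℓ => hfin ℓ hℓ)
    refine ⟨hU.subset (bb_sub D E n0 θ k m Λ), ?_⟩
    have e1 : (BB D E n0 θ k (m + 1) Λ).ncard ≤
        ∑ ℓ ∈ range (Λ + 1), (AA D E n0 θ k ℓ).ncard * (BB D E n0 θ k m (Λ - ℓ)).ncard := by
      refine (Set.ncard_le_ncard (bb_sub D E n0 θ k m Λ) hU).trans ?_
      refine (Finset.set_ncard_biUnion_le _ _).trans ?_
      refine Finset.sum_le_sum fun ℓ _ => ?_
      rw [← Set.ncard_prod]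
      exact Set.ncard_image_le ((h ℓ).1.prod (ih (Λ - ℓ)).1)
    have e2 : ∀ ℓ ∈ range (Λ + 1), ((AA D E n0 θ k ℓ).ncard : ℝ) *
        ((BB D E n0 θ k m (Λ - ℓ)).ncard : ℝ) ≤
        C * (S ^ m * Real.exp (2 * ε * Λ)) * Real.exp (-ε) ^ ℓ := by
      intro ℓ hℓ
      have hle : ℓ ≤ Λ := by rw [Finset.mem_range] at hℓ; omega
      have e3 : C * (S ^ m * Real.exp (2 * ε * Λ)) * Real.exp (-ε) ^ ℓ =
          (C * Real.exp (ε * ℓ)) * (S ^ m * Real.exp (2 * ε * ((Λ - ℓ : ℕ) : ℝ))) := by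
        rw [← Real.exp_nat_mul, Nat.cast_sub hle]
        have : Real.exp (2 * ε * (Λ : ℝ)) * Real.exp ((ℓ : ℝ) * -ε) =
            Real.exp (ε * ℓ) * Real.exp (2 * ε * ((Λ : ℝ) - ℓ)) := by
          rw [← Real.exp_add, ← Real.exp_add]
          congr 1
          ring
        calc C * (S ^ m * Real.exp (2 * ε * Λ)) * Real.exp (↑ℓ * -ε)
            = C * S ^ m * (Real.exp (2 * ε * (Λ : ℝ)) * Real.exp ((ℓ : ℝ) * -ε)) := by ring
          _ = _ := by rw [this]; ring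
      rw [e3]
      exact mul_le_mul (h ℓ).2 (ih (Λ - ℓ)).2 (Nat.cast_nonneg _) (by positivity)
    have e4 : (∑ ℓ ∈ range (Λ + 1), Real.exp (-ε) ^ ℓ) * (1 - Real.exp (-ε)) ≤ 1 := by
      rw [geom_sum_mul_neg]
      have := pow_nonneg (Real.exp_pos (-ε)).le (Λ + 1)
      linarith
    calc ((BB D E n0 θ k (m + 1) Λ).ncard : ℝ)
        ≤ ∑ ℓ ∈ range (Λ + 1), ((AA D E n0 θ k ℓ).ncard : ℝ) *
            ((BB D E n0 θ k m (Λ - ℓ)).ncard : ℝ) := by exact_mod_cast e1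
      _ ≤ ∑ ℓ ∈ range (Λ + 1), C * (S ^ m * Real.exp (2 * ε * Λ)) * Real.exp (-ε) ^ ℓ :=
          Finset.sum_le_sum e2
      _ = C * (S ^ m * Real.exp (2 * ε * Λ)) * ∑ ℓ ∈ range (Λ + 1), Real.exp (-ε) ^ ℓ := by
          rw [Finset.mul_sum]
      _ ≤ (S * (1 - Real.exp (-ε))) * (S ^ m * Real.exp (2 * ε * Λ)) *
            ∑ ℓ ∈ range (Λ + 1), Real.exp (-ε) ^ ℓ := by
          refine mul_le_mul_of_nonneg_right (mul_le_mul_of_nonneg_right hS (by positivity)) ?_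
          exact Finset.sum_nonneg fun ℓ _ => pow_nonneg (Real.exp_pos _).le _
      _ = S ^ (m + 1) * Real.exp (2 * ε * Λ) *
            ((∑ ℓ ∈ range (Λ + 1), Real.exp (-ε) ^ ℓ) * (1 - Real.exp (-ε))) := by
          rw [pow_succ]; ring
      _ ≤ S ^ (m + 1) * Real.exp (2 * ε * Λ) * 1 :=
          mul_le_mul_of_nonneg_left e4 (by positivity)
      _ = _ := mul_one _

/-- Tuples of elements. -/
def UU (E : Finset (Finset L)) (n0 θ k j P Λ : ℕ) : Set ((Fin j → Bool) → List Bool → List Bool) :=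
  {h | ∃ m l : (Fin j → Bool) → ℕ, (∀ v, h v ∈ BB D E n0 θ k (m v) (l v)) ∧
    ∑ v, m v ≤ P ∧ ∑ v, l v ≤ Λ}

lemma uu_count {E : Finset (Finset L)} {n0 θ k : ℕ} {ε S : ℝ} (hε : 0 < ε) (hS1 : 1 ≤ S)
    (h : ∀ m Λ : ℕ, (BB D E n0 θ k m Λ).Finite ∧
      ((BB D E n0 θ k m Λ).ncard : ℝ) ≤ S ^ m * Real.exp (2 * ε * Λ)) (j P Λ : ℕ) :
    (UU D E n0 θ k j P Λ).Finite ∧ ((UU D E n0 θ k j P Λ).ncard : ℝ) ≤
      ((P + 1 : ℕ) : ℝ) ^ 2 ^ j * ((Λ + 1 : ℕ) : ℝ) ^ 2 ^ j * (S ^ P * Real.exp (2 * ε * Λ)) := by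
  classical
  let I := Fin j → Bool
  set T : Finset ((I → ℕ) × (I → ℕ)) :=
    ((Fintype.piFinset fun _ : I => range (P + 1)) ×ˢ
      (Fintype.piFinset fun _ : I => range (Λ + 1))).filter
      (fun q => ∑ v, q.1 v ≤ P ∧ ∑ v, q.2 v ≤ Λ) with hT
  set X : Finset (I → List Bool → List Bool) :=
    T.biUnion fun q => Fintype.piFinset fun v => (h (q.1 v) (q.2 v)).1.toFinset with hX
  have hsub : UU D E n0 θ k j P Λ ⊆ (X : Set (I → List Bool → List Bool)) := by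
    rintro g ⟨m, l, h1, h2, h3⟩
    rw [Finset.mem_coe, hX, Finset.mem_biUnion]
    refine ⟨(m, l), ?_, ?_⟩
    · rw [hT, Finset.mem_filter, Finset.mem_product]
      refine ⟨⟨?_, ?_⟩, h2, h3⟩
      · rw [Fintype.mem_piFinset]
        intro v
        rw [Finset.mem_range]
        exact Nat.lt_succ_of_le
          ((Finset.single_le_sum (f := m) (fun _ _ => Nat.zero_le _) (Finset.mem_univ v)).trans h2)
      · rw [Fintype.mem_piFinset]
        intro v
        rw [Finset.mem_range]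
        exact Nat.lt_succ_of_le
          ((Finset.single_le_sum (f := l) (fun _ _ => Nat.zero_le _) (Finset.mem_univ v)).trans h3)
    · rw [Fintype.mem_piFinset]
      intro v
      rw [Set.Finite.mem_toFinset]
      exact h1 v
  refine ⟨X.finite_toSet.subset hsub, ?_⟩
  have e1 : (UU D E n0 θ k j P Λ).ncard ≤ X.card := by
    have := Set.ncard_le_ncard hsub X.finite_toSet
    rwa [Set.ncard_coe_finset] at this
  have e2 : ∀ q ∈ T, (((Fintype.piFinset fun v => (h (q.1 v) (q.2 v)).1.toFinset).card : ℕ) : ℝ) ≤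
      S ^ P * Real.exp (2 * ε * Λ) := by
    intro q hq
    rw [hT, Finset.mem_filter] at hq
    rw [Fintype.card_piFinset, Nat.cast_prod]
    calc ∏ v, (((h (q.1 v) (q.2 v)).1.toFinset.card : ℕ) : ℝ)
        ≤ ∏ v, (S ^ q.1 v * Real.exp (2 * ε * q.2 v)) := by
          refine Finset.prod_le_prod (fun _ _ => Nat.cast_nonneg _) fun v _ => ?_
          rw [← Set.ncard_eq_toFinset_card _ (h (q.1 v) (q.2 v)).1]
          exact (h (q.1 v) (q.2 v)).2
      _ = S ^ (∑ v, q.1 v) * Real.exp (2 * ε * ((∑ v, q.2 v : ℕ) : ℝ)) := by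
          rw [Finset.prod_mul_distrib, Finset.prod_pow_eq_pow_sum, ← Real.exp_sum, Nat.cast_sum,
            Finset.mul_sum]
      _ ≤ _ := by
          refine mul_le_mul (pow_le_pow_right₀ hS1 hq.2.1) ?_ (Real.exp_pos _).le (by positivity)
          apply Real.exp_le_exp.2
          have : ((∑ v, q.2 v : ℕ) : ℝ) ≤ Λ := by exact_mod_cast hq.2.2
          exact mul_le_mul_of_nonneg_left this (by positivity)
  have e3 : T.card ≤ (P + 1) ^ 2 ^ j * (Λ + 1) ^ 2 ^ j := by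
    refine (Finset.card_filter_le _ _).trans ?_
    rw [Finset.card_product, Fintype.card_piFinset, Fintype.card_piFinset]
    simp [I]
  calc ((UU D E n0 θ k j P Λ).ncard : ℝ) ≤ (X.card : ℝ) := by exact_mod_cast e1
    _ ≤ ((∑ q ∈ T, (Fintype.piFinset fun v => (h (q.1 v) (q.2 v)).1.toFinset).card : ℕ) : ℝ) := by
        exact_mod_cast Finset.card_biUnion_le
    _ = ∑ q ∈ T, (((Fintype.piFinset fun v => (h (q.1 v) (q.2 v)).1.toFinset).card : ℕ) : ℝ) := by
        push_cast; rfl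
    _ ≤ ∑ _q ∈ T, S ^ P * Real.exp (2 * ε * Λ) := Finset.sum_le_sum e2
    _ = (T.card : ℝ) * (S ^ P * Real.exp (2 * ε * Λ)) := by
        rw [Finset.sum_const, nsmul_eq_mul]
    _ ≤ _ := by
        refine mul_le_mul_of_nonneg_right ?_ (by positivity)
        have : ((T.card : ℕ) : ℝ) ≤ (((P + 1) ^ 2 ^ j * (Λ + 1) ^ 2 ^ j : ℕ) : ℝ) := by
          exact_mod_cast e3
        push_cast at this ⊢
        exact this

end TB1Aux

end R4
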