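import Pool.Agent.Work.MP_e3f5d9_al.P1
import Pool.Agent.Work.MP_e3f5d9_al.TB1b

/-!
# R4, block PN1: basic facts on perfect nodes
-/

set_option autoImplicit false

open Finset

namespace R4

namespace PN1Aux

variable {L : Type} [Fintype L] [DecidableEq L] (D : KS L)

lemma perf_mono {E : Finset (Finset L)} {n0 θ d k k' : ℕ} {F : List L} (hk : k' ≤ k)
    (h : D.Perf E n0 θ d k F) : D.Perf E n0 θ d k' F where
  ut := (tb0 D).ut_mono _ _ _ _ _ _ (by omega) h.ut
  rclean u hu A hA := h.rclean u (hu.trans hk) A hA
  clean u hu A hA t ht := h.clean u (hu.trans hk) A hA t ht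
  alt u hu hu' X Y hX hS := h.alt u hu (hu'.trans hk) X Y hX hS

lemma secL_snoc (u : List Bool) (b : Bool) (F : List L) :
    D.secL (u ++ [b]) F = D.sec b (D.secL u F) := by
  rw [secL_append]; rfl

omit [Fintype L] in
lemma lead (o : L) (w : List L) : ∃ k w', w = List.replicate k o ++ w' ∧
    (w' = [] ∨ ∃ y w'', w' = y :: w'' ∧ y ≠ o) := by
  induction w with
  | nil => exact ⟨0, [], rfl, Or.inl rfl⟩
  | cons x w ih =>
    by_cases hx : x = o
    · obtain ⟨k, w', hw, h⟩ := ih
      exact ⟨k + 1, w', by rw [hx, hw]; rfl, h⟩
    · exact ⟨0, x :: w, rfl, Or.inr ⟨x, w, rfl, hx⟩⟩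

lemma sec_rep (k : ℕ) : ∀ (a : Bool) (w : List L),
    D.sec a (List.replicate k D.o ++ w) = D.sec (xor a (decide (Odd k))) w := by
  induction k with
  | zero => intro a w; simp
  | succ k ih =>
    intro a w
    rw [List.replicate_succ, List.cons_append, B1Aux.sec_o, ih]
    congr 1
    by_cases h : Odd k
    · have h' : ¬ Odd (k + 1) := by
        rw [Nat.odd_add_one]; exact fun g => g h
      cases a <;> simp [h, h']
    · have h' : Odd (k + 1) := by
        rw [Nat.odd_add_one]; exact h
      cases a <;> simp [h, h']

omit [Fintype L] in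
lemma red_rep (o : L) (k : ℕ) (h : red (List.replicate k o) ≠ []) : Odd k := by
  induction k using Nat.strong_induction_on with
  | _ k ih =>
    match k, ih, h with
    | 0, _, h => exact absurd rfl h
    | 1, _, _ => exact odd_one
    | k + 2, ih, h =>
      have e : red (List.replicate (k + 2) o) = red (List.replicate k o) := by
        rw [List.replicate_succ, List.replicate_succ]
        exact B1Aux.red_cons_cons o _
      rw [e] at h
      have := ih k (by omega) h
      rw [Nat.odd_add]
      simpa using this

lemma aux_rep (o : L) (k : ℕ) (p : Bool) (w : List L) (hk : 0 < k) :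
    runsAux ({o}ᶜ : Finset L) p (List.replicate k o ++ w) = runsAux ({o}ᶜ : Finset L) false w := by
  induction k generalizing p with
  | zero => omega
  | succ k ih =>
    rw [List.replicate_succ, List.cons_append, runsAux, if_neg (by simp)]
    rcases Nat.eq_zero_or_pos k with rfl | hk'
    · rfl
    · exact ih false hk'

/-- A child reads letters of the side `t` in every second run of letters different from `o`. -/
lemma half (t : Bool) : ∀ (n : ℕ) (w : List L), w.length ≤ n → ∀ (x : L), x ≠ D.o →
    RClean ({D.o}ᶜ : Finset L) (x :: w) → ∀ (a p : Bool),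
    (a = t → 2 * runsAux (univ.filter fun i => D.side i = t) p (D.sec a w) ≤
      runsAux ({D.o}ᶜ : Finset L) true w + (if p then 0 else 2)) ∧
    (a ≠ t → 2 * runsAux (univ.filter fun i => D.side i = t) p (D.sec a w) ≤
      runsAux ({D.o}ᶜ : Finset L) true w + 1) := by
  intro n
  induction n with
  | zero =>
    intro w hw x hx hc a p
    obtain rfl : w = [] := List.length_eq_zero_iff.1 (by omega)
    rw [B1Aux.sec_nil]
    simp [runsAux]
  | succ n ih =>
    intro w hw x hx hc a p
    obtain ⟨k, w', rfl, h⟩ := lead D.o w
    rcases Nat.eq_zero_or_pos k with rfl | hk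
    · rcases h with rfl | ⟨y, w'', rfl, hy⟩
      · rw [List.replicate_zero, List.append_nil, B1Aux.sec_nil]
        simp [runsAux]
      · rw [List.replicate_zero, List.nil_append] at hw hc ⊢
        have hc' : RClean ({D.o}ᶜ : Finset L) (y :: w'') := by
          intro x' R y' hi hR hh
          exact hc x' R y' (hi.trans (List.suffix_cons x (y :: w'')).isInfix) hR hh
        have hlen : w''.length ≤ n := by simpa using hw
        have hyC : y ∈ ({D.o}ᶜ : Finset L) := by simpa using hy
        rw [runsAux, if_pos hyC, if_pos rfl, zero_add]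
        cases hp : D.pre a y with
        | none =>
          rw [B1Aux.sec_none D hy hp]
          exact ih w'' hlen y hy hc' a p
        | some i =>
          rw [B1Aux.sec_some D hy hp]
          have hi := (B1Aux.pre_eq D a y i).1 hp
          constructor
          · intro ha
            have e := (ih w'' hlen y hy hc' a true).1 ha
            rw [if_pos rfl] at e
            have hm : i ∈ (univ.filter fun i => D.side i = t) := by
              simp [hi.2, ha]
            rw [runsAux, if_pos hm]
            cases p <;> simp <;> omega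
          · intro ha
            have e := (ih w'' hlen y hy hc' a false).2 ha
            have hm : i ∉ (univ.filter fun i => D.side i = t) := by
              simp [hi.2, ha]
            rw [runsAux, if_neg hm]
            exact e
    · rw [sec_rep, aux_rep D.o k true w' hk]
      rcases h with rfl | ⟨y, w'', rfl, hy⟩
      · rw [B1Aux.sec_nil]
        simp [runsAux]
      · have hodd : Odd k := by
          have := hc x (List.replicate k D.o) y (by
            refine ⟨[], w'', ?_⟩
            simp) (by
              intro h0
              have := congrArg List.length h0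
              rw [List.length_replicate, List.length_nil] at this
              omega) (Or.inr ⟨by simpa using hx, by simpa using hy, by
                intro j hj
                have := List.eq_of_mem_replicate hj
                simp [this]⟩)
          exact red_rep D.o k this
        have hc' : RClean ({D.o}ᶜ : Finset L) (y :: w'') := by
          intro x' R y' hi hR hh
          refine hc x' R y' (hi.trans ?_) hR hh
          exact (((List.suffix_append _ _).trans (List.suffix_cons _ _))).isInfix
        have hlen : w''.length ≤ n := by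
          have := hw
          rw [List.length_append, List.length_replicate, List.length_cons] at this
          omega
        have hyC : y ∈ ({D.o}ᶜ : Finset L) := by simpa using hy
        have hxor : xor a (decide (Odd k)) = !a := by
          cases a <;> simp [hodd]
        rw [hxor, runsAux, if_pos hyC]
        simp only [Bool.false_eq_true, if_false]
        cases hp : D.pre (!a) y with
        | none =>
          rw [B1Aux.sec_none D hy hp]
          constructor
          · intro ha
            have e := (ih w'' hlen y hy hc' (!a) p).2 (by cases a <;> cases t <;> simp_all)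
            split_ifs <;> omega
          · intro ha
            have e := (ih w'' hlen y hy hc' (!a) p).1 (by cases a <;> cases t <;> simp_all)
            cases p <;> simp at e ⊢ <;> omega
        | some i =>
          rw [B1Aux.sec_some D hy hp]
          have hi := (B1Aux.pre_eq D (!a) y i).1 hp
          constructor
          · intro ha
            have hne : (!a) ≠ t := by cases a <;> cases t <;> simp_all
            have e := (ih w'' hlen y hy hc' (!a) false).2 hne
            have hm : i ∉ (univ.filter fun i => D.side i = t) := by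
              simp [hi.2, hne]
            rw [runsAux, if_neg hm]
            split_ifs <;> omega
          · intro ha
            have heq : (!a) = t := by cases a <;> cases t <;> simp_all
            have e := (ih w'' hlen y hy hc' (!a) true).1 heq
            rw [if_pos rfl] at e
            have hm : i ∈ (univ.filter fun i => D.side i = t) := by
              simp [hi.2, heq]
            rw [runsAux, if_pos hm]
            cases p <;> simp <;> omega

lemma half_word (t a : Bool) (W : List L) (hc : RClean ({D.o}ᶜ : Finset L) W) :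
    2 * runs (univ.filter fun i => D.side i = t) (D.sec a W) ≤ runs ({D.o}ᶜ : Finset L) W + 2 := by
  obtain ⟨k, w', rfl, h⟩ := lead D.o W
  rcases h with rfl | ⟨y, w, rfl, hy⟩
  · rw [sec_rep, B1Aux.sec_nil]
    simp [runs, runsAux]
  · have hc' : RClean ({D.o}ᶜ : Finset L) (y :: w) := by
      intro x' R y' hi hR hh
      exact hc x' R y' (hi.trans (List.suffix_append _ _).isInfix) hR hh
    have e : runs ({D.o}ᶜ : Finset L) (List.replicate k D.o ++ y :: w) =
        1 + runsAux ({D.o}ᶜ : Finset L) true w := by
      have hyC : y ∈ ({D.o}ᶜ : Finset L) := by simpa using hy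
      have e' : runsAux ({D.o}ᶜ : Finset L) false (List.replicate k D.o ++ y :: w) =
          runsAux ({D.o}ᶜ : Finset L) false (y :: w) := by
        rcases Nat.eq_zero_or_pos k with rfl | hk
        · rfl
        · exact aux_rep D.o k false _ hk
      rw [runs, e', runsAux, if_pos hyC]
      simp
    rw [sec_rep, e]
    generalize xor a (decide (Odd k)) = a'
    rw [runs]
    have h1 := fun p => half D t _ w le_rfl y hy hc' a' p
    cases hp : D.pre a' y with
    | none =>
      rw [B1Aux.sec_none D hy hp]
      have := h1 false
      by_cases ha : a' = t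
      · have := this.1 ha
        simp at this ⊢; omega
      · have := this.2 ha
        omega
    | some i =>
      rw [B1Aux.sec_some D hy hp]
      have hi := (B1Aux.pre_eq D a' y i).1 hp
      by_cases ha : a' = t
      · have := (h1 true).1 ha
        have hm : i ∈ (univ.filter fun i => D.side i = t) := by simp [hi.2, ha]
        rw [runsAux, if_pos hm]
        simp at this ⊢; omega
      · have := (h1 false).2 ha
        have hm : i ∉ (univ.filter fun i => D.side i = t) := by simp [hi.2, ha]
        rw [runsAux, if_neg hm]
        omega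

lemma path_out {E : Finset (Finset L)} {n0 : ℕ} (hexp : D.Exp E n0) :
    ∀ (m : ℕ), ∀ A ∈ E, ∃ B ∈ E, D.Path E m A B := by
  intro m
  induction m with
  | zero => intro A hA; exact ⟨A, hA, hA, rfl⟩
  | succ m ih =>
    intro A hA
    obtain ⟨n, rfl⟩ : ∃ n, n0 = n + 1 := ⟨n0 - 1, by have := hexp.1; omega⟩
    obtain ⟨C, hAC, -⟩ := hexp.2 A hA A hA
    obtain ⟨B, hB, hCB⟩ := ih C hAC.2.1
    exact ⟨B, hB, C, hAC, hCB⟩

lemma first_step {E : Finset (Finset L)} {C' : Finset L}
    (h : D.Arrow E ({D.o}ᶜ : Finset L) C') :
    C' = univ.filter fun i => D.side i = !(D.side D.o) := by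
  obtain ⟨-, -, s, rfl⟩ := h
  by_cases hs : s = D.side D.o
  · have : D.o ∈ D.lp s ({D.o}ᶜ : Finset L) := by
      simp [KS.lp, hs, D.nxt_ne]
    rw [KS.nm, if_pos this]
    ext i
    simp only [KS.lp, mem_compl, mem_filter, mem_univ, true_and, mem_singleton, D.nxt_ne,
      not_false_eq_true, and_true, hs]
    cases D.side i <;> cases D.side D.o <;> simp
  · have : D.o ∉ D.lp s ({D.o}ᶜ : Finset L) := by
      simp only [KS.lp, mem_filter, mem_univ, true_and, not_and]
      intro h; exact absurd h.symm hs
    rw [KS.nm, if_neg this]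
    ext i
    simp only [KS.lp, mem_compl, mem_filter, mem_univ, true_and, mem_singleton, D.nxt_ne,
      not_false_eq_true, and_true]
    cases hs' : s <;> cases ho : D.side D.o <;> simp_all

end PN1Aux

open PN1Aux in
/-- PN1. -/
theorem pn1 {L : Type} [Fintype L] [DecidableEq L] (S : Setup L) : NodeBasics S := by
  have hmix : S.D.Mixing S.E := S.full.toMixing
  have htight : ∀ W ∈ S.N 0, ∀ W', W' <:+: W → ∀ A ∈ S.E, ∀ B ∈ S.E,
      runs A W' ≤ runs B W' + (S.θ + 2 ^ (S.n0 + 1)) := by
    rintro W ⟨F, u, hu, hP, rfl⟩ W' hW' A hA B hB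
    obtain ⟨F', X, Y, hF, rfl⟩ := (tb0 S.D).factor u F W' hW'
    have h := (tb0 S.D).unif S.E hmix S.n0 S.θ _ F S.exp hP.ut (S.D.ev X u)
      (by rw [B1Aux.ev_length]; omega) F' ⟨X, Y, hF.symm⟩ A hA B hB
    have h2 : rr B (S.D.secL (S.D.ev X u) F') ≤ runs B (S.D.secL (S.D.ev X u) F') :=
      (b1p L).runs_red B _
    omega
  refine ⟨?_, ?_, ?_, ?_, ?_, ?_, ⟨_, htight⟩, ?_⟩
  · rintro k W ⟨F, u, hu, hP, rfl⟩
    exact ⟨F, u, by omega, perf_mono S.D (by omega) hP, rfl⟩
  · rintro k W ⟨F, u, hu, hP, rfl⟩ b
    refine ⟨F, u ++ [b], ?_, ?_, (secL_snoc S.D u b F).symm⟩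
    · rw [List.length_append, List.length_singleton]; omega
    · refine perf_mono S.D ?_ hP
      rw [List.length_append, List.length_singleton]; omega
  · rintro k W ⟨F, u, hu, hP, rfl⟩
    have hne : u ≠ [] := by
      rintro rfl
      simp at hu
    obtain ⟨u', b, rfl⟩ : ∃ u' b, u = u' ++ [b] :=
      ⟨u.dropLast, u.getLast hne, (List.dropLast_append_getLast hne).symm⟩
    rw [List.length_append, List.length_singleton] at hu hP
    exact ⟨S.D.secL u' F, ⟨F, u', by omega, perf_mono S.D (by omega) hP, rfl⟩, b,
      secL_snoc S.D u' b F⟩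
  · rintro k W ⟨F, u, hu, hP, rfl⟩ A hA t ht
    exact hP.clean u (by omega) A hA t ht
  · rintro k W ⟨F, u, hu, hP, rfl⟩ A hA
    exact hP.rclean u (by omega) A hA
  · rintro k W ⟨F, u, hu, hP, rfl⟩ X Y hX hS
    exact hP.alt u (by omega) (by omega) X Y hX hS
  · obtain ⟨m, hm⟩ : ∃ m, S.n0 = m + 1 := ⟨S.n0 - 1, by have := S.exp.1; omega⟩
    have hC := hmix.base
    obtain ⟨B, hB, hCB⟩ := path_out S.D S.exp m _ hC
    obtain ⟨A0, hA0, hA0C⟩ := B4Aux.path_in S.D m _ _ (by
      have := S.exp.2 _ hC _ hC
      rwa [hm] at this)
    obtain ⟨C', hCC', hC'B⟩ : S.D.Path S.E (m + 1) ({S.D.o}ᶜ : Finset L) B := by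
      have := S.exp.2 _ hC _ hB
      rwa [hm] at this
    have hC' := first_step S.D hCC'
    refine ⟨2 * (S.θ + 2 ^ (S.n0 + 1)) + 6 + 4 * 2 ^ (m + 1) + 2 * S.θ, ?_⟩
    intro W hW
    have ht := htight W hW W (List.infix_refl W) A0 hA0 _ hC
    have har := TB0Aux.arrow_raw S.D hmix hA0C W
    obtain ⟨F, u, hu, hP, rfl⟩ := hW
    have hut := hP.ut.2 u (by omega) F (List.infix_refl F) _ hC B hB
    rw [hm, B3Aux.tot_step] at hut
    have hT : ∀ a, S.D.tot (rr B) m (S.D.sec a (S.D.secL u F)) ≤
        runs ({S.D.o}ᶜ : Finset L) (S.D.sec a (S.D.secL u F)) + 2 ^ (m + 1) := fun a =>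
      ((tb0 S.D).rr_le B m _).trans ((tb0 S.D).low S.E hmix m _ _ hCB _)
    have hT' : ∀ a, S.D.tot (rr B) m (S.D.sec a (S.D.secL u F)) ≤
        runs C' (S.D.sec a (S.D.secL u F)) + 2 ^ (m + 1) := fun a =>
      ((tb0 S.D).rr_le B m _).trans ((tb0 S.D).low S.E hmix m _ _ hC'B _)
    have hh : ∀ a, 2 * runs C' (S.D.sec a (S.D.secL u F)) ≤
        runs ({S.D.o}ᶜ : Finset L) (S.D.secL u F) + 2 := fun a => by
      rw [hC']
      exact half_word S.D _ a _ (hP.rclean u (by omega) _ hC)
    have h1 := hT false
    have h2 := hT true
    have h3 := hT' false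
    have h4 := hT' true
    have h5 := hh false
    have h6 := hh true
    unfold KS.size
    intro b
    cases b <;> constructor <;> omega

end R4
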