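import Pool.Agent.Work.MP_e3f5d9_al.MK0
import Pool.Agent.Work.MP_e3f5d9_al.PN1

/-!
# R4, marks, block MK7: between two visits outside of `cap (nxt c)` there is an odd number of
letters `nxt c`, if `c` is not a centre (helper94)
-/

set_option autoImplicit false
set_option linter.unusedSectionVars false

open Finset

namespace R4.Mk

open R4

namespace MK7Aux

/-! ### Lists -/

section lists

variable {α : Type}

/-- If all neighbours that are at least `e` away from the ends are different, then the list is a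
chain up to the ends. -/
lemma chain_mid (l : List α) (e : ℕ)
    (h : ∀ V1 p q V2, l = V1 ++ p :: q :: V2 → e ≤ V1.length → e ≤ V2.length → p ≠ q) :
    ∃ a m b : List α, l = a ++ m ++ b ∧ a.length ≤ e ∧ b.length ≤ e ∧ m.IsChain (· ≠ ·) := by
  refine ⟨l.take e, (l.drop e).take (l.length - 2 * e), (l.drop e).drop (l.length - 2 * e),
    ?_, ?_, ?_, ?_⟩
  · rw [List.append_assoc, List.take_append_drop, List.take_append_drop]
  · rw [List.length_take]; omega
  · rw [List.length_drop, List.length_drop]; omega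
  · rw [List.isChain_iff_forall_rel_of_append_cons_cons]
    intro p q V1 V2 hm
    have hlen := congrArg List.length hm
    rw [List.length_take, List.length_drop, List.length_append, List.length_cons,
      List.length_cons] at hlen
    refine h (l.take e ++ V1) p q (V2 ++ (l.drop e).drop (l.length - 2 * e)) ?_ ?_ ?_
    · conv_lhs => rw [← List.take_append_drop e l,
        ← List.take_append_drop (l.length - 2 * e) (l.drop e), hm]
      simp
    · rw [List.length_append, List.length_take]; omega
    · rw [List.length_append, List.length_drop, List.length_drop]; omega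

lemma last_occ [DecidableEq α] {x : α} {l : List α} (h : x ∈ l) :
    ∃ a b, l = a ++ x :: b ∧ x ∉ b := by
  obtain ⟨a, b, h1, h2⟩ := List.eq_append_cons_of_mem (List.mem_reverse.2 h)
  refine ⟨b.reverse, a.reverse, ?_, by simpa using h2⟩
  have := congrArg List.reverse h1
  simpa using this

end lists

/-! ### Runs -/

section runs

variable {L : Type} [Fintype L] [DecidableEq L]

lemma runs_split (A : Finset L) (U : List L) (x : L) (W : List L) (hx : x ∉ A) :
    runs A (U ++ x :: W) = runs A U + runs A W := by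
  obtain ⟨q, hq⟩ := TB1Aux.flag A U false
  have h1 := hq (x :: W)
  unfold runs
  rw [h1, runsAux, if_neg hx]

lemma runs_mono (A : Finset L) (U W : List L) : runs A U ≤ runs A (U ++ W) := by
  obtain ⟨q, hq⟩ := TB1Aux.flag A U false
  unfold runs
  rw [hq W]; omega

lemma runs_pos {A : Finset L} {x : L} {G : List L} (hx : x ∈ A) : 1 ≤ runs A (x :: G) := by
  unfold runs
  rw [runsAux, if_pos hx]
  simp

/-- A run outside followed by a run inside of `A`. -/
lemma runs_block (A : Finset L) (U R G : List L) (hR : R ≠ []) (hRA : ∀ x ∈ R, x ∉ A)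
    (hG : G ≠ []) (hGA : ∀ x ∈ G, x ∈ A) : runs A U + 1 ≤ runs A (U ++ R ++ G) := by
  obtain ⟨R', x, rfl⟩ := List.eq_nil_or_concat R |>.resolve_left hR
  rw [List.concat_eq_append] at hRA
  have hx : x ∉ A := hRA x (by simp)
  obtain ⟨y, G', rfl⟩ := List.exists_cons_of_ne_nil hG
  have hy : y ∈ A := hGA y (by simp)
  have e : U ++ (R'.concat x) ++ (y :: G') = (U ++ R') ++ x :: (y :: G') := by
    simp
  rw [e, runs_split A _ x _ hx]
  have h1 := runs_mono A U R'
  have h2 := runs_pos (G := G') hy
  omega

end runs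

/-! ### Sections -/

section secs

variable {L : Type} [Fintype L] [DecidableEq L] (D : KS L)

/-- The letter which is read first. -/
lemma sec_eq_cons : ∀ (F : List L) (b : Bool) (x : L) (Q : List L), D.sec b F = x :: Q →
    ∃ F1 j F2, F = F1 ++ j :: F2 ∧ D.sec b F1 = [] ∧ j ≠ D.o ∧
      D.pre (xor b (decide (Odd (F1.count D.o)))) j = some x ∧
      D.sec (xor b (decide (Odd (F1.count D.o)))) F2 = Q := by
  intro F
  induction F with
  | nil => intro b x Q h; rw [B1Aux.sec_nil] at h; exact absurd h (by simp)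
  | cons j w ih =>
    intro b x Q h
    by_cases hj : j = D.o
    · subst hj
      rw [B1Aux.sec_o] at h
      obtain ⟨F1, k, F2, rfl, h1, h2, h3, h4⟩ := ih (!b) x Q h
      refine ⟨D.o :: F1, k, F2, rfl, ?_, h2, ?_, ?_⟩
      · rw [B1Aux.sec_o, h1]
      · rw [List.count_cons_self, ← B1Aux.odd_succ]; exact h3
      · rw [List.count_cons_self, ← B1Aux.odd_succ]; exact h4
    · cases hp : D.pre b j with
      | none =>
        rw [B1Aux.sec_none D hj hp] at h
        obtain ⟨F1, k, F2, rfl, h1, h2, h3, h4⟩ := ih b x Q h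
        refine ⟨j :: F1, k, F2, rfl, ?_, h2, ?_, ?_⟩
        · rw [B1Aux.sec_none D hj hp, h1]
        · rw [List.count_cons_of_ne hj]; exact h3
        · rw [List.count_cons_of_ne hj]; exact h4
      | some i =>
        rw [B1Aux.sec_some D hj hp, List.cons.injEq] at h
        obtain ⟨rfl, rfl⟩ := h
        refine ⟨[], j, w, rfl, B1Aux.sec_nil D b, hj, ?_, ?_⟩
        · simpa using hp
        · simp

lemma count_zero {A : Finset L} {G : List L} (hA : ∀ x ∈ G, x ∈ A) {o : L} (ho : o ∉ A) :
    G.count o = 0 := by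
  rw [List.count_eq_zero]
  intro h
  exact ho (hA _ h)

lemma count_zero_of {A : Finset L} {G : List L} (hA : ∀ x ∈ G, x ∉ A) {i : L} (hi : i ∈ A) :
    G.count i = 0 := by
  rw [List.count_eq_zero]
  intro h
  exact hA _ h hi

/-- The section of a word of `A` if only the letter `c` is read. -/
lemma secA {A : Finset L} {t : Bool} {c : L} (ho : D.o ∉ A) (hlp : D.lp t A = {c}) :
    ∀ G : List L, (∀ x ∈ G, x ∈ A) → D.sec t G = List.replicate (G.count (D.nxt c)) c := by
  have hc : c ∈ D.lp t A := by rw [hlp]; exact mem_singleton_self c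
  unfold KS.lp at hc
  rw [mem_filter] at hc
  intro G
  induction G with
  | nil => intro _; rw [B1Aux.sec_nil]; simp
  | cons j G ih =>
    intro hG
    have hj : j ∈ A := hG j List.mem_cons_self
    have hjo : j ≠ D.o := fun h => ho (h ▸ hj)
    have ih' := ih fun x hx => hG x (List.mem_cons_of_mem _ hx)
    by_cases h : j = D.nxt c
    · have hp : D.pre t j = some c := (B1Aux.pre_eq D t j c).2 ⟨h.symm, hc.2.1⟩
      rw [B1Aux.sec_some D hjo hp, ih', h, List.count_cons_self, List.replicate_succ]
    · have hp : D.pre t j = none := by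
        cases hp : D.pre t j with
        | none => rfl
        | some k =>
          exfalso
          obtain ⟨h1, h2⟩ := (B1Aux.pre_eq D t j k).1 hp
          have hk : k ∈ D.lp t A := by
            unfold KS.lp
            rw [mem_filter]
            exact ⟨mem_univ _, h2, h1 ▸ hj⟩
          rw [hlp, mem_singleton] at hk
          subst hk
          exact h h1.symm
      rw [B1Aux.sec_none D hjo hp, ih', List.count_cons_of_ne h]

lemma dec_add (m n : ℕ) :
    decide (Odd (m + n)) = xor (decide (Odd m)) (decide (Odd n)) := by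
  by_cases h1 : Odd m <;> by_cases h2 : Odd n <;> simp [Nat.odd_add, h1, h2]
  exact Nat.not_odd_iff_even.1 h2

lemma xor_even {t : Bool} {k : ℕ} (h : xor t (decide (Odd k)) = t) : Even k := by
  rw [← Nat.not_odd_iff_even]
  intro ho
  simp [ho] at h

/-- The main lemma on complete runs of `A`. -/
lemma odd_run {E : Finset (Finset L)} {A : Finset L} {t a : Bool} {c : L} {Q U G V : List L}
    (ho : D.o ∉ A) (hlp : D.lp t A = {c})
    (hQ : Q = U ++ G ++ V) (hG : G ≠ []) (hGA : ∀ x ∈ G, x ∈ A)
    (hU : ∃ U' x, U = U' ++ [x] ∧ x ∉ A) (hV : ∃ y V', V = y :: V' ∧ y ∉ A)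
    (ha : xor a (decide (Odd (U.count D.o))) = t)
    (hcl : D.Clean A t Q) (hrc : ∀ B ∈ E, RClean B (D.sec a Q))
    (hbase : ({D.o} : Finset L)ᶜ ∈ E)
    (hc : c = D.o ∨ {c} ∈ E) (hU0 : D.sec a U ≠ []) (hV0 : D.sec t V ≠ []) :
    Odd (G.count (D.nxt c)) := by
  obtain ⟨U', x, hUx, hx⟩ := hU
  obtain ⟨y, V', hVy, hy⟩ := hV
  have hcm : c ∈ D.lp t A := by rw [hlp]; exact mem_singleton_self c
  unfold KS.lp at hcm
  rw [mem_filter] at hcm
  obtain ⟨-, hct, hcA⟩ := hcm
  have hpre : D.pre t (D.nxt c) = some c := (B1Aux.pre_eq D t _ c).2 ⟨rfl, hct⟩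
  have hpne : D.pre t (D.nxt c) ≠ none := by rw [hpre]; simp
  have hsG := secA D ho hlp G hGA
  -- the run is seen
  have hm : G.count (D.nxt c) ≠ 0 := by
    intro h0
    have h1 := hcl.1 x G y ⟨U', V', by rw [hQ, hUx, hVy]; simp⟩ hx hy hG hGA
    rw [hsG, h0] at h1
    exact h1 rfl
  have hmem : D.nxt c ∈ G := by
    by_contra h
    exact hm (List.count_eq_zero.2 h)
  -- the letter before
  obtain ⟨P, p, hP⟩ : ∃ P p, D.sec a U = P ++ [p] := by
    rcases List.eq_nil_or_concat (D.sec a U) with h | ⟨P, p, h⟩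
    · exact absurd h hU0
    · exact ⟨P, p, by rw [h, List.concat_eq_append]⟩
  have hpc : p ≠ c := by
    intro hpc
    rw [hpc] at hP
    obtain ⟨F1, F2, hF, -, h2⟩ := TB0Aux.sec_split D U a P [c] hP
    obtain ⟨S1, j, S2, hS, -, hjo, h4, h5⟩ := sec_eq_cons D F2 _ c [] h2
    obtain ⟨hj, hjt⟩ := (B1Aux.pre_eq D _ j c).1 h4
    have hpos : xor (xor a (decide (Odd (F1.count D.o)))) (decide (Odd (S1.count D.o))) = t := by
      rw [← hjt]; exact hct
    rw [hpos] at h5
    have hU2 : U = (F1 ++ S1) ++ j :: S2 := by rw [hF, hS]; simp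
    have hS2 : x ∈ S2 := by
      rcases List.eq_nil_or_concat S2 with h | ⟨S3, x', h⟩
      · exfalso
        subst h
        rw [hUx] at hU2
        have := (List.append_inj' hU2 rfl).2
        rw [List.cons.injEq] at this
        apply hx
        rw [this.1, ← hj]
        exact hcA
      · rw [List.concat_eq_append] at h
        subst h
        rw [hUx] at hU2
        have h6 : U' ++ [x] = ((F1 ++ S1) ++ j :: S3) ++ [x'] := by rw [hU2]; simp
        have := (List.append_inj' h6 rfl).2
        rw [List.cons.injEq] at this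
        rw [this.1]
        simp
    obtain ⟨G1, G2, hG1, hnG1⟩ := List.eq_append_cons_of_mem hmem
    have hG1A : ∀ z ∈ G1, z ∈ A := fun z hz => hGA z (by rw [hG1]; simp [hz])
    have hcount : U.count D.o = F1.count D.o + (S1.count D.o + S2.count D.o) := by
      rw [hU2]
      simp only [List.count_append, List.count_cons_of_ne hjo]
      omega
    have hev : Even (S2.count D.o) := by
      apply xor_even (t := t)
      rw [hcount, dec_add, dec_add] at ha
      rw [← ha]
      conv_lhs => rw [ha, ← hpos]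
      simp only [Bool.xor_assoc]
    have h7 := hcl.2 (D.nxt c) (S2 ++ G1) (D.nxt c)
      ⟨F1 ++ S1, G2 ++ V, by rw [hQ, hU2, hG1, hj]; simp⟩ hcA hcA hpne hpne
      (by rw [List.count_append, count_zero hG1A ho, add_zero]; exact hev)
      ⟨x, by simp [hS2], hx⟩
    apply h7
    rw [B1Aux.sec_append, h5]
    have e1 : decide (Odd (S2.count D.o)) = false := by
      rw [decide_eq_false_iff_not, Nat.not_odd_iff_even]; exact hev
    rw [e1, Bool.xor_false, secA D ho hlp G1 hG1A, List.count_eq_zero.2 hnG1]
    rfl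
  -- the letter after
  obtain ⟨q, Q', hQ'⟩ := List.exists_cons_of_ne_nil hV0
  have hqc : q ≠ c := by
    intro hqc
    rw [hqc] at hQ'
    obtain ⟨F1, j, F2, hF, h1, hjo, h3, -⟩ := sec_eq_cons D V t c Q' hQ'
    obtain ⟨hj, hjt⟩ := (B1Aux.pre_eq D _ j c).1 h3
    obtain ⟨G1, G2, hG1, hnG2⟩ := last_occ hmem
    have hG2A : ∀ z ∈ G2, z ∈ A := fun z hz => hGA z (by rw [hG1]; simp [hz])
    have hev : Even (F1.count D.o) := by
      apply xor_even (t := t)
      rw [← hjt]; exact hct
    have hF1 : y ∈ F1 := by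
      cases F1 with
      | nil =>
        exfalso
        rw [hVy, List.nil_append, List.cons.injEq] at hF
        apply hy
        rw [hF.1, ← hj]
        exact hcA
      | cons z F3 =>
        rw [hVy, List.cons_append, List.cons.injEq] at hF
        rw [hF.1]
        exact List.mem_cons_self
    have h7 := hcl.2 (D.nxt c) (G2 ++ F1) (D.nxt c)
      ⟨U ++ G1, F2, by rw [hQ, hF, hG1, hj]; simp⟩ hcA hcA hpne hpne
      (by rw [List.count_append, count_zero hG2A ho, zero_add]; exact hev)
      ⟨y, by simp [hF1], hy⟩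
    apply h7
    rw [B1Aux.sec_append, secA D ho hlp G2 hG2A, List.count_eq_zero.2 hnG2, count_zero hG2A ho]
    simpa using h1
  -- the run of the child
  have hsQ : D.sec a Q = P ++ p :: (List.replicate (G.count (D.nxt c)) c ++ [q]) ++ Q' := by
    rw [hQ, B1Aux.sec_append, B1Aux.sec_append, ha, hsG, hP, List.count_append,
      count_zero hGA ho, add_zero, ha, hQ']
    simp
  have hinf : p :: (List.replicate (G.count (D.nxt c)) c ++ [q]) <:+: D.sec a Q :=
    ⟨P, Q', hsQ.symm⟩
  have hne : List.replicate (G.count (D.nxt c)) c ≠ [] := by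
    intro h
    exact hm (by simpa using h)
  refine PN1Aux.red_rep c _ ?_
  rcases hc with hc | hc
  · refine hrc _ hbase p _ q hinf hne (Or.inr ⟨?_, ?_, ?_⟩)
    · rw [mem_compl, mem_singleton, ← hc]; exact hpc
    · rw [mem_compl, mem_singleton, ← hc]; exact hqc
    · intro j hj
      rw [mem_compl, mem_singleton, not_not, ← hc]
      exact List.eq_of_mem_replicate hj
  · refine hrc _ hc p _ q hinf hne (Or.inl ⟨?_, ?_, ?_⟩)
    · rw [mem_singleton]; exact hpc
    · rw [mem_singleton]; exact hqc
    · intro j hj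
      rw [mem_singleton]
      exact List.eq_of_mem_replicate hj

end secs

/-! ### Visits -/

section vis

variable {L : Type} [Fintype L] [DecidableEq L]

/-- The number of visits before and after a visit, if there is only one class with the
complement `A`. -/
lemma visits_before {β : Type} [DecidableEq β] (hV : VispBasics L) (A : Finset L) (b₀ : β)
    (c' : L → Option β) (h1 : ∀ x, x ∈ A → c' x = none) (h2 : ∀ x, x ∉ A → c' x = some b₀)
    (Q : List L) : ∀ (n : ℕ) (V1 : List (β × List L)) (z : β × List L) (V2),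
    V1.length = n → visp c' none [] Q = V1 ++ z :: V2 → n ≤ runs A z.2 := by
  intro n
  induction n with
  | zero => intro V1 z V2 _ _; exact Nat.zero_le _
  | succ n ih =>
    intro V1 z V2 hn h
    rcases List.eq_nil_or_concat V1 with h0 | ⟨V0, z0, h0⟩
    · subst h0; simp at hn
    · rw [List.concat_eq_append] at h0
      subst h0
      rw [List.length_append, List.length_singleton] at hn
      have h' : visp c' none [] Q = V0 ++ z0 :: z :: V2 := by rw [h]; simp
      have e1 := ih V0 z0 (z :: V2) (by omega) h'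
      obtain ⟨R, G, hR, hz, hRc, hGc, hne⟩ := hV.next c' Q z0 z V0 V2 h'
      have hb : ∀ z ∈ visp c' none [] Q, z.1 = b₀ := by
        intro z hz
        obtain ⟨x, v, -, hx⟩ := hV.mem c' Q z hz
        by_cases hxA : x ∈ A
        · rw [h1 x hxA] at hx; exact absurd hx (by simp)
        · rw [h2 x hxA] at hx; exact (Option.some.inj hx).symm
      have hG : G ≠ [] := by
        intro hG
        apply hne hG
        rw [hb z0 (by rw [h']; simp), hb z (by rw [h']; simp)]
      rw [hz]
      refine (Nat.add_le_add_right e1 1).trans (runs_block A z0.2 R G hR ?_ hG ?_)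
      · intro x hx hxA
        have := hRc x hx
        rw [h1 x hxA] at this
        exact absurd this (by simp)
      · intro x hx
        by_contra hxA
        have := hGc x hx
        rw [h2 x hxA] at this
        exact absurd this (by simp)

lemma visits_after {β : Type} [DecidableEq β] (hV : VispBasics L) (A : Finset L) (b₀ : β)
    (c' : L → Option β) (h1 : ∀ x, x ∈ A → c' x = none) (h2 : ∀ x, x ∉ A → c' x = some b₀)
    (Q : List L) : ∀ (V2 V1 : List (β × List L)) (z : β × List L) (V : List L),
    visp c' none [] Q = V1 ++ z :: V2 → Q = z.2 ++ V → V2.length ≤ runs A V := by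
  intro V2
  induction V2 with
  | nil => intro V1 z V _ _; exact Nat.zero_le _
  | cons z' V3 ih =>
    intro V1 z V h hQ
    obtain ⟨R, G, hR, hz, hRc, hGc, hne⟩ := hV.next c' Q z z' V1 V3 h
    have hb : ∀ z ∈ visp c' none [] Q, z.1 = b₀ := by
      intro z hz
      obtain ⟨x, v, -, hx⟩ := hV.mem c' Q z hz
      by_cases hxA : x ∈ A
      · rw [h1 x hxA] at hx; exact absurd hx (by simp)
      · rw [h2 x hxA] at hx; exact (Option.some.inj hx).symm
    have hG : G ≠ [] := by
      intro hG
      apply hne hG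
      rw [hb z (by rw [h]; simp), hb z' (by rw [h]; simp)]
    obtain ⟨x, v, hx, hxc⟩ := hV.mem c' Q z' (by rw [h]; simp)
    have hxA : x ∉ A := by
      intro hxA
      rw [h1 x hxA] at hxc
      exact absurd hxc (by simp)
    have e1 := ih (V1 ++ [z]) z' (x :: v) (by rw [h]; simp) hx
    have e2 : V = ([] ++ R ++ G) ++ x :: v := by
      rw [hz] at hx
      rw [hQ] at hx
      have : z.2 ++ V = z.2 ++ (R ++ G ++ x :: v) := by rw [hx]; simp
      rw [List.append_cancel_left this]; simp
    rw [e2, runs_split A _ x _ hxA]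
    have e3 := runs_block A [] R G hR (fun y hy hyA => by
      have := hRc y hy
      rw [h1 y hyA] at this
      exact absurd this (by simp)) hG (fun y hy => by
      by_contra hyA
      have := hGc y hy
      rw [h2 y hyA] at this
      exact absurd this (by simp))
    have e4 := runs_split A [] x v hxA
    rw [List.nil_append] at e4
    have e5 : runs A ([] : List L) = 0 := rfl
    rw [e4] at e1
    rw [List.length_cons]
    omega

end vis

end MK7Aux

open MK7Aux

theorem mk7 {L : Type} [Fintype L] [DecidableEq L] (S : Setup L) (hN : NodeBasics S)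
    (hV : VispBasics L) (hSt : StarBasics S.D S.E) (hF : NodeFactor S) : Blk S := by
  intro c hc hi
  obtain ⟨c1, hc1⟩ := hN.tight
  obtain ⟨c2, hc2⟩ := hN.size_kid
  set i := S.D.nxt c with hidef
  set A := cap S.E i with hA
  have hAE : A ∈ S.E := (hSt.cap_mem i hi.1).1
  have hiA : i ∈ A := (hSt.cap_mem i hi.1).2
  have ho : S.D.o ∉ A := S.full.toMixing.norm A hAE
  have hbase := S.full.toMixing.base
  set t := S.D.side c with ht
  have hlp : S.D.lp t A = {c} := hSt.last c hc hi
  have hlpn : (S.D.lp t A).Nonempty := by rw [hlp]; exact ⟨c, mem_singleton_self c⟩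
  have hcc : c = S.D.o ∨ ({c} : Finset L) ∈ S.E := by
    by_contra h
    push Not at h
    exact hc ⟨h.1, h.2⟩
  -- the class function
  have h1 : ∀ x, x ∈ A → (st S.E i x).filter (fun b => decide (S.D.o ∈ b)) = none := by
    intro x hx
    unfold st
    by_cases hxi : x = i
    · rw [if_pos hxi]; rfl
    · rw [if_neg hxi, Option.filter_some, if_neg]
      have := (hSt.inn i x hi.1 hxi hx).2
      simpa using fun h => ho (this h)
  have h2 : ∀ x, x ∉ A → (st S.E i x).filter (fun b => decide (S.D.o ∈ b)) = some (Aᶜ) := by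
    intro x hx
    have hxi : x ≠ i := fun h => hx (h ▸ hiA)
    have e1 := hSt.out i hi.1
    have e2 : cl S.E i x = cl S.E i S.D.o := by
      refine hSt.eqv i S.D.o x (Ne.symm hi.1) ?_
      rw [e1, mem_compl]; exact hx
    unfold st
    rw [if_neg hxi, e2, e1, Option.filter_some, if_pos]
    rw [decide_eq_true_eq, mem_compl]; exact ho
  refine ⟨1, c1 + c2 + 1, ?_⟩
  intro Q hQ
  rw [← hV.filter (st S.E i) (fun b => decide (S.D.o ∈ b)) Q]
  refine chain_mid _ _ ?_
  intro W1 p q W2 hW hl1 hl2
  obtain ⟨V1, V2', hv, hv1, hv2⟩ := List.map_eq_append_iff.1 hW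
  obtain ⟨z, V2'', rfl, hz1, hz2⟩ := List.map_eq_cons_iff.1 hv2
  obtain ⟨z', V2, rfl, hz1', hz2'⟩ := List.map_eq_cons_iff.1 hz2
  rw [← hv1, List.length_map] at hl1
  rw [← hz2', List.length_map] at hl2
  obtain ⟨R, G, hR, hzz, hRc, hGc, hne⟩ := hV.next _ Q z z' V1 V2 hv
  have hRA : ∀ x ∈ R, x ∉ A := by
    intro x hx hxA
    have := hRc x hx
    rw [h1 x hxA] at this
    exact absurd this (by simp)
  have hGA : ∀ x ∈ G, x ∈ A := by
    intro x hx
    by_contra hxA
    have := hGc x hx
    rw [h2 x hxA] at this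
    exact absurd this (by simp)
  have hcnt1 := visits_before hV A (Aᶜ) _ h1 h2 Q V1.length V1 z (z' :: V2) rfl hv
  obtain ⟨y, V', hQV, hyc⟩ := hV.mem _ Q z' (by rw [hv]; simp)
  have hyA : y ∉ A := by
    intro hyA
    rw [h1 y hyA] at hyc
    exact absurd hyc (by simp)
  have hcnt2 := visits_after hV A (Aᶜ) _ h1 h2 Q V2 (V1 ++ [z]) z' (y :: V')
    (by rw [hv]; simp) hQV
  have hG : G ≠ [] := by
    intro hG
    apply hne hG
    obtain ⟨x1, v1, -, hx1⟩ := hV.mem _ Q z (by rw [hv]; simp)
    by_cases hx1A : x1 ∈ A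
    · rw [h1 x1 hx1A] at hx1; exact absurd hx1 (by simp)
    · rw [h2 x1 hx1A] at hx1
      rw [h2 y hyA] at hyc
      rw [← Option.some.inj hx1, ← Option.some.inj hyc]
  have hQN : Q ∈ S.N 0 := hN.anti 0 hQ
  have hQ3 : Q = (z.2 ++ R) ++ G ++ (y :: V') := by rw [← hzz]; exact hQV
  -- a factor with nothing to read is small
  have small : ∀ W, W <:+: Q → ∀ b, S.D.sec b W = [] → runs A W ≤ c1 + c2 := by
    intro W hW b hb
    have hWN := hF 0 Q hQN W hW
    have e1 := (hc2 W hWN b).2
    rw [hb] at e1
    have e2 : S.D.size [] = 0 := rfl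
    rw [e2] at e1
    have e3 := hc1 W hWN W (List.infix_refl W) A hAE _ hbase
    unfold KS.size at e1
    omega
  obtain ⟨a, ha⟩ : ∃ a, xor a (decide (Odd ((z.2 ++ R).count S.D.o))) = t := by
    refine ⟨xor t (decide (Odd ((z.2 ++ R).count S.D.o))), ?_⟩
    rw [Bool.xor_assoc, Bool.xor_self, Bool.xor_false]
  have hU0 : S.D.sec a (z.2 ++ R) ≠ [] := by
    intro h
    have e1 := small (z.2 ++ R) ⟨[], G ++ (y :: V'), by rw [hQ3]; simp⟩ a h
    have e2 := runs_mono A z.2 R
    omega
  have hV0 : S.D.sec t (y :: V') ≠ [] := by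
    intro h
    have e1 := small (y :: V') ⟨(z.2 ++ R) ++ G, [], by rw [hQ3]; simp⟩ t h
    omega
  have hodd := odd_run S.D (E := S.E) ho hlp hQ3 hG hGA
    (by
      rcases List.eq_nil_or_concat R with h | ⟨R', x, h⟩
      · exact absurd h hR
      · rw [List.concat_eq_append] at h
        refine ⟨z.2 ++ R', x, by rw [h]; simp, hRA x (by rw [h]; simp)⟩)
    ⟨y, V', rfl, hyA⟩ ha (hN.clean 0 Q hQN A hAE t hlpn)
    (fun B hB => hN.rclean 0 _ (hN.kid 0 Q hQ a) B hB) hbase hcc hU0 hV0
  rw [← hz1, ← hz1', hzz, List.count_append, List.count_append, count_zero_of hRA hiA]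
  rw [← hidef] at hodd
  intro h
  rw [add_zero, dec_add] at h
  have e1 : decide (Odd (G.count i)) = true := by rw [decide_eq_true_eq]; exact hodd
  rw [e1, Bool.xor_true] at h
  revert h
  cases decide (Odd (z.2.count i)) <;> simp

end R4.Mk
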