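import Pool.Agent.Work.MP_e3f5d9_al.P0

/-!
# MKD: exact doubling of the number of transitions, for arbitrary words

`tr A W` is the number of adjacent pairs of `W` with exactly one letter in `A`.

* `tr_sec` (D1): `tr (lp s A) (sec b W) ≤ tr A W` if `o ∉ A`;
* `tr_sec_two` (D2): `2 * tr (lp s {o}ᶜ) (sec b W) ≤ tr {o}ᶜ W`;
* `tr_path`: along a path of cuts from `A` to `B`;
* `mkd`, `mkd'`: `2 ^ j * tr B (secL x W) ≤ tr {o}ᶜ W` for long `x`;
* `mkd_far`: if a long section of `u F v` is `z V z` and `V` contains a letter `≠ z`, then `F` has
  many transitions and many runs.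
-/

set_option autoImplicit false

open Finset

namespace R4

section tr

variable {L : Type} [DecidableEq L]

/-- Number of transitions; the flag says whether the letter before is in `A`. -/
def trAux (A : Finset L) : Bool → List L → ℕ
  | _, [] => 0
  | p, x :: w => (if p = decide (x ∈ A) then 0 else 1) + trAux A (decide (x ∈ A)) w

/-- Number of adjacent pairs of letters with exactly one letter in `A`. -/
def tr (A : Finset L) : List L → ℕ
  | [] => 0
  | x :: w => trAux A (decide (x ∈ A)) w

namespace MKD

@[simp] theorem trAux_nil (A : Finset L) (p : Bool) : trAux A p [] = 0 := rfl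

theorem trAux_cons (A : Finset L) (p : Bool) (x : L) (w : List L) :
    trAux A p (x :: w) = (if p = decide (x ∈ A) then 0 else 1) + trAux A (decide (x ∈ A)) w := rfl

@[simp] theorem tr_nil (A : Finset L) : tr A ([] : List L) = 0 := rfl

theorem tr_cons (A : Finset L) (x : L) (w : List L) :
    tr A (x :: w) = trAux A (decide (x ∈ A)) w := rfl

theorem trAux_ge_tr (A : Finset L) (p : Bool) (w : List L) : tr A w ≤ trAux A p w := by
  cases w with
  | nil => simp
  | cons x w => rw [tr_cons, trAux_cons]; omega

theorem trAux_le_tr (A : Finset L) (p : Bool) (w : List L) : trAux A p w ≤ tr A w + 1 := by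
  cases w with
  | nil => simp
  | cons x w =>
    rw [tr_cons, trAux_cons]
    split_ifs <;> omega

theorem trAux_not_le (A : Finset L) (p q : Bool) (w : List L) :
    trAux A p w ≤ trAux A q w + 1 := (trAux_le_tr A p w).trans
  (Nat.add_le_add_right (trAux_ge_tr A q w) 1)

theorem tr_le_length (A : Finset L) (w : List L) : tr A w ≤ w.length := by
  have h : ∀ (w : List L) (p : Bool), trAux A p w ≤ w.length := by
    intro w
    induction w with
    | nil => intro p; simp
    | cons x w ih =>
      intro p
      rw [trAux_cons, List.length_cons]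
      have := ih (decide (x ∈ A))
      split_ifs <;> omega
  exact (trAux_ge_tr A false w).trans (h w false)

/-- Append. -/
theorem trAux_append (A : Finset L) (u v : List L) (p : Bool) :
    trAux A p u + tr A v ≤ trAux A p (u ++ v) ∧
      trAux A p (u ++ v) ≤ trAux A p u + tr A v + 1 := by
  induction u generalizing p with
  | nil =>
    have h1 := trAux_ge_tr A p v
    have h2 := trAux_le_tr A p v
    simp only [List.nil_append, trAux_nil]
    omega
  | cons x u ih =>
    have := ih (decide (x ∈ A))
    rw [List.cons_append, trAux_cons, trAux_cons]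
    omega

theorem tr_append_le (A : Finset L) (u v : List L) : tr A (u ++ v) ≤ tr A u + tr A v + 1 := by
  cases u with
  | nil => simp
  | cons x u =>
    rw [List.cons_append, tr_cons, tr_cons]
    exact (trAux_append A u v _).2

theorem le_tr_append (A : Finset L) (u v : List L) : tr A u + tr A v ≤ tr A (u ++ v) := by
  cases u with
  | nil => simp
  | cons x u =>
    rw [List.cons_append, tr_cons, tr_cons]
    exact (trAux_append A u v _).1

/-- A factor has fewer transitions. -/
theorem tr_factor (A : Finset L) {u w : List L} (h : u <:+: w) : tr A u ≤ tr A w := by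
  obtain ⟨s, t, rfl⟩ := h
  have h1 := le_tr_append A (s ++ u) t
  have h2 := le_tr_append A s u
  omega

/-- Adding one letter at each end. -/
theorem tr_wrap_le (A : Finset L) (x y : L) (w : List L) :
    tr A (x :: (w ++ [y])) ≤ tr A w + 2 := by
  have h1 := trAux_append A w [y] (decide (x ∈ A))
  have h2 := trAux_le_tr A (decide (x ∈ A)) w
  rw [tr_cons]
  by_cases hw : w = []
  · subst hw
    simp [trAux_cons]
    split_ifs <;> omega
  · -- at most one new transition at each end
    have h3 : tr A [y] = 0 := rfl
    omega

/-- A letter on the other side of `A` inside gives two transitions. -/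
theorem two_le_tr (A : Finset L) (z : L) (w : List L) (y : L) (hy : y ∈ w)
    (h : ¬ (z ∈ A ↔ y ∈ A)) : 2 ≤ tr A (z :: (w ++ [z])) := by
  have key : ∀ (v : List L) (p : Bool), p ≠ decide (z ∈ A) → 1 ≤ trAux A p (v ++ [z]) := by
    intro v
    induction v with
    | nil => intro p hp; simp [trAux_cons, hp]
    | cons x v ih =>
      intro p hp
      rw [List.cons_append, trAux_cons]
      by_cases hx : p = decide (x ∈ A)
      · have := ih (decide (x ∈ A)) (by rw [← hx]; exact hp)
        omega
      · rw [if_neg hx]; omega
  have key2 : ∀ (v : List L), y ∈ v → 2 ≤ trAux A (decide (z ∈ A)) (v ++ [z]) := by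
    intro v
    induction v with
    | nil => intro h; simp at h
    | cons x v ih =>
      intro hyv
      rw [List.cons_append, trAux_cons]
      by_cases hx : decide (z ∈ A) = decide (x ∈ A)
      · rw [← hx]
        have hyv' : y ∈ v := by
          rcases List.mem_cons.1 hyv with h1 | h1
          · subst h1
            exact absurd (by simpa using hx) h
          · exact h1
        have := ih hyv'
        omega
      · rw [if_neg hx]
        have := key v (decide (x ∈ A)) (Ne.symm hx)
        omega
  rw [tr_cons]
  exact key2 w hy

/-- The recursion with two letters. -/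
theorem tr_cons_cons (A : Finset L) (x y : L) (w : List L) :
    tr A (x :: y :: w) = (if (x ∈ A ↔ y ∈ A) then 0 else 1) + tr A (y :: w) := by
  rw [tr_cons, tr_cons, trAux_cons]
  congr 1
  by_cases hx : x ∈ A <;> by_cases hy : y ∈ A <;> simp [hx, hy]

/-- Letters on both sides of `A` give a transition. -/
theorem one_le_tr (A : Finset L) (w : List L) (x y : L) (hx : x ∈ w) (hy : y ∈ w) (hxA : x ∈ A)
    (hyA : y ∉ A) : 1 ≤ tr A w := by
  cases w with
  | nil => simp at hx
  | cons z w =>
    rw [tr_cons]
    have key : ∀ (v : List L) (p : Bool) (u : L), u ∈ v → p ≠ decide (u ∈ A) →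
        1 ≤ trAux A p v := by
      intro v
      induction v with
      | nil => intro p u h; simp at h
      | cons a v ih =>
        intro p u hu hp
        rw [trAux_cons]
        by_cases ha : p = decide (a ∈ A)
        · rcases List.mem_cons.1 hu with h1 | h1
          · subst h1; exact absurd ha hp
          · have := ih (decide (a ∈ A)) u h1 (by rw [← ha]; exact hp)
            omega
        · rw [if_neg ha]; omega
    by_cases hz : z ∈ A
    · have hy' : y ∈ w := by
        rcases List.mem_cons.1 hy with h1 | h1
        · subst h1; exact absurd hz hyA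
        · exact h1
      exact key w _ y hy' (by simp [hz, hyA])
    · have hx' : x ∈ w := by
        rcases List.mem_cons.1 hx with h1 | h1
        · subst h1; exact absurd hxA hz
        · exact h1
      exact key w _ x hx' (by simp [hz, hxA])

/-- Transitions and runs. -/
theorem trAux_le_runs (A : Finset L) (w : List L) (p : Bool) :
    trAux A p w ≤ 2 * runsAux A p w + (if p then 1 else 0) := by
  induction w generalizing p with
  | nil => simp
  | cons x w ih =>
    rw [trAux_cons]
    by_cases hx : x ∈ A
    · have := ih true
      cases p <;> simp [runsAux, hx] at this ⊢ <;> omega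
    · have := ih false
      cases p <;> simp [runsAux, hx] at this ⊢ <;> omega

theorem tr_le_runs (A : Finset L) (w : List L) : tr A w ≤ 2 * runs A w := by
  have h1 := trAux_ge_tr A false w
  have h2 := trAux_le_runs A w false
  simp only [Bool.false_eq_true, if_false, Nat.add_zero] at h2
  exact h1.trans h2

theorem runs_le_tr (A : Finset L) (w : List L) : 2 * runs A w ≤ tr A w + 2 := by
  have key : ∀ (w : List L) (p : Bool), 2 * runsAux A p w ≤
      trAux A p w + (if p then 0 else 1) := by
    intro w
    induction w with
    | nil => intro p; simp [runsAux]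
    | cons x w ih =>
      intro p
      rw [trAux_cons]
      by_cases hx : x ∈ A
      · have := ih true
        cases p <;> simp [runsAux, hx] at this ⊢ <;> omega
      · have := ih false
        cases p <;> simp [runsAux, hx] at this ⊢ <;> omega
  have h1 := key w false
  have h2 := trAux_le_tr A false w
  simp only [Bool.false_eq_true, if_false] at h1
  unfold runs
  omega

/-! ### Complements -/

theorem trAux_compl [Fintype L] (A : Finset L) (w : List L) (p : Bool) :
    trAux Aᶜ (!p) w = trAux A p w := by
  induction w generalizing p with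
  | nil => rfl
  | cons x w ih =>
    rw [trAux_cons, trAux_cons]
    have h1 : decide (x ∈ Aᶜ) = !decide (x ∈ A) := by
      by_cases hx : x ∈ A <;> simp [hx]
    rw [h1, ih]
    congr 1
    cases p <;> by_cases hx : x ∈ A <;> simp [hx]

theorem tr_compl [Fintype L] (A : Finset L) (w : List L) : tr Aᶜ w = tr A w := by
  cases w with
  | nil => rfl
  | cons x w =>
    rw [tr_cons, tr_cons]
    have h1 : decide (x ∈ Aᶜ) = !decide (x ∈ A) := by
      by_cases hx : x ∈ A <;> simp [hx]
    rw [h1, trAux_compl]

end MKD

end tr

namespace MKD

variable {L : Type} [Fintype L] [DecidableEq L] (D : KS L)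

theorem tr_nm (A : Finset L) (w : List L) : tr (D.nm A) w = tr A w := by
  unfold KS.nm
  split_ifs
  · exact tr_compl A w
  · rfl

theorem sec_o (b : Bool) (w : List L) : D.sec b (D.o :: w) = D.sec (!b) w := by
  simp [KS.sec]

theorem sec_none {b : Bool} {j : L} (hj : j ≠ D.o) (h : D.pre b j = none) (w : List L) :
    D.sec b (j :: w) = D.sec b w := by
  simp [KS.sec, hj, h]

theorem sec_some {b : Bool} {j i : L} (hj : j ≠ D.o) (h : D.pre b j = some i) (w : List L) :
    D.sec b (j :: w) = i :: D.sec b w := by
  simp [KS.sec, hj, h]

theorem pre_spec {b : Bool} {j i : L} (h : D.pre b j = some i) : D.nxt i = j ∧ D.side i = b := by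
  unfold KS.pre at h
  split_ifs at h with h1
  have := h1.choose_spec
  simp only [Option.some.injEq] at h
  rw [h] at this
  exact this

/-- The state of the crossing argument in which the child has no credit. -/
def St (s p q b : Bool) : Prop := q = (p && (b == s))

theorem crossing (A : Finset L) (s : Bool) (ho : D.o ∉ A) (W : List L) : ∀ (p q b : Bool),
    (St s p q b → trAux (D.lp s A) q (D.sec b W) ≤ trAux A p W) ∧
      trAux (D.lp s A) q (D.sec b W) ≤ trAux A p W + 1 := by
  induction W with
  | nil => intro p q b; simp [KS.sec]
  | cons x W ih =>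
    intro p q b
    by_cases hx : x = D.o
    · subst hx
      rw [sec_o, trAux_cons]
      have hd : decide (D.o ∈ A) = false := by simpa using ho
      rw [hd]
      have h1 := ih false q (!b)
      refine ⟨fun hs => ?_, ?_⟩
      · cases p
        · have hs' : St s false q (!b) := by
            unfold St at hs ⊢
            simpa using hs
          simpa using h1.1 hs'
        · have := h1.2
          simp only [Bool.true_eq_false, if_false]
          omega
      · have := h1.2
        split_ifs <;> omega
    · cases hp : D.pre b x with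
      | none =>
        rw [sec_none D hx hp, trAux_cons]
        have h1 := ih (decide (x ∈ A)) q b
        refine ⟨fun hs => ?_, ?_⟩
        · by_cases hpx : p = decide (x ∈ A)
          · rw [if_pos hpx]
            have := h1.1 (by rw [← hpx]; exact hs)
            omega
          · rw [if_neg hpx]
            have := h1.2
            omega
        · have := h1.2
          split_ifs <;> omega
      | some i =>
        obtain ⟨hi1, hi2⟩ := pre_spec D hp
        rw [sec_some D hx hp, trAux_cons, trAux_cons]
        have hq : decide (i ∈ D.lp s A) = (decide (x ∈ A) && (b == s)) := by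
          unfold KS.lp
          simp only [mem_filter, mem_univ, true_and, hi1, hi2]
          by_cases h1 : b = s <;> by_cases h2 : x ∈ A <;> simp [h1, h2]
        rw [hq]
        have h1 := (ih (decide (x ∈ A)) (decide (x ∈ A) && (b == s)) b).1 rfl
        refine ⟨fun hs => ?_, ?_⟩
        · unfold St at hs
          have h2 : (if q = (decide (x ∈ A) && (b == s)) then 0 else 1) ≤
              (if p = decide (x ∈ A) then 0 else 1) := by
            rw [hs]
            by_cases h3 : p = decide (x ∈ A)
            · rw [if_pos (by rw [h3]), if_pos h3]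
            · rw [if_neg h3]
              split_ifs <;> omega
          omega
        · have h2 : (if q = (decide (x ∈ A) && (b == s)) then 0 else 1) ≤ 1 := by
            split_ifs <;> omega
          omega

theorem tr_sec_aux (A : Finset L) (s : Bool) (ho : D.o ∉ A) (W : List L) : ∀ (p b : Bool),
    tr (D.lp s A) (D.sec b W) ≤ trAux A p W := by
  induction W with
  | nil => intro p b; simp [KS.sec]
  | cons x W ih =>
    intro p b
    rw [trAux_cons]
    by_cases hx : x = D.o
    · subst hx
      rw [sec_o]
      have := ih (decide (D.o ∈ A)) (!b)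
      omega
    · cases hp : D.pre b x with
      | none =>
        rw [sec_none D hx hp]
        have := ih (decide (x ∈ A)) b
        omega
      | some i =>
        obtain ⟨hi1, hi2⟩ := pre_spec D hp
        rw [sec_some D hx hp, tr_cons]
        have hq : decide (i ∈ D.lp s A) = (decide (x ∈ A) && (b == s)) := by
          unfold KS.lp
          simp only [mem_filter, mem_univ, true_and, hi1, hi2]
          by_cases h1 : b = s <;> by_cases h2 : x ∈ A <;> simp [h1, h2]
        rw [hq]
        have := (crossing D A s ho W (decide (x ∈ A)) (decide (x ∈ A) && (b == s)) b).1 rfl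
        omega

/-- (D1). -/
theorem tr_sec (A : Finset L) (s : Bool) (ho : D.o ∉ A) (b : Bool) (W : List L) :
    tr (D.lp s A) (D.sec b W) ≤ tr A W := by
  cases W with
  | nil => simp [KS.sec]
  | cons x W =>
    rw [tr_cons]
    by_cases hx : x = D.o
    · subst hx
      rw [sec_o]
      exact tr_sec_aux D A s ho W _ _
    · cases hp : D.pre b x with
      | none =>
        rw [sec_none D hx hp]
        exact tr_sec_aux D A s ho W _ _
      | some i =>
        obtain ⟨hi1, hi2⟩ := pre_spec D hp
        rw [sec_some D hx hp, tr_cons]
        have hq : decide (i ∈ D.lp s A) = (decide (x ∈ A) && (b == s)) := by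
          unfold KS.lp
          simp only [mem_filter, mem_univ, true_and, hi1, hi2]
          by_cases h1 : b = s <;> by_cases h2 : x ∈ A <;> simp [h1, h2]
        rw [hq]
        exact (crossing D A s ho W (decide (x ∈ A)) (decide (x ∈ A) && (b == s)) b).1 rfl

/-- Membership of the letter read by a child in the pull back of `{o}ᶜ`. -/
theorem mem_lp_o {s b : Bool} {x i : L} (hp : D.pre b x = some i) :
    decide (i ∈ D.lp s ({D.o} : Finset L)ᶜ) = (b == s) := by
  obtain ⟨hi1, hi2⟩ := pre_spec D hp
  have h : x ≠ D.o := by rw [← hi1]; exact D.nxt_ne i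
  unfold KS.lp
  simp only [mem_filter, mem_univ, true_and, hi1, hi2, mem_compl, mem_singleton]
  by_cases h1 : b = s <;> simp [h1, h]

/-- The credit of the doubling argument. -/
def cr (s p q b : Bool) : ℕ := if p = false then 1 else if q = (b == s) then 0 else 2

theorem doubling (s : Bool) (W : List L) : ∀ (p q b : Bool),
    2 * trAux (D.lp s ({D.o} : Finset L)ᶜ) q (D.sec b W) ≤
      trAux ({D.o} : Finset L)ᶜ p W + cr s p q b := by
  induction W with
  | nil => intro p q b; simp [KS.sec]
  | cons x W ih =>
    intro p q b
    by_cases hx : x = D.o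
    · subst hx
      rw [sec_o, trAux_cons]
      have hd : decide (D.o ∈ ({D.o} : Finset L)ᶜ) = false := by simp
      rw [hd]
      have h1 := ih false q (!b)
      have h2 : cr s false q (!b) = 1 := by simp [cr]
      rw [h2] at h1
      cases p
      · have h3 : cr s false q b = 1 := by simp [cr]
        rw [h3, if_pos rfl]
        omega
      · rw [if_neg (by simp)]
        omega
    · have hd : decide (x ∈ ({D.o} : Finset L)ᶜ) = true := by simpa using hx
      cases hp : D.pre b x with
      | none =>
        rw [sec_none D hx hp, trAux_cons, hd]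
        have h1 := ih true q b
        cases p
        · have h2 : cr s true q b ≤ 2 := by unfold cr; split_ifs <;> omega
          have h3 : cr s false q b = 1 := by simp [cr]
          rw [h3, if_neg (by simp)]
          omega
        · rw [if_pos rfl]
          omega
      | some i =>
        rw [sec_some D hx hp, trAux_cons, trAux_cons, hd, mem_lp_o D hp]
        have h1 := ih true (b == s) b
        have h2 : cr s true (b == s) b = 0 := by simp [cr]
        rw [h2] at h1
        by_cases hq : q = (b == s)
        · rw [if_pos hq]
          omega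
        · rw [if_neg hq]
          cases p
          · have h3 : cr s false q b = 1 := by simp [cr]
            rw [h3, if_neg (by simp)]
            omega
          · have h3 : cr s true q b = 2 := by simp [cr, hq]
            rw [h3, if_pos rfl]
            omega

theorem tr_sec_two_aux (s : Bool) (W : List L) : ∀ (p b : Bool),
    2 * tr (D.lp s ({D.o} : Finset L)ᶜ) (D.sec b W) ≤ trAux ({D.o} : Finset L)ᶜ p W := by
  induction W with
  | nil => intro p b; simp [KS.sec]
  | cons x W ih =>
    intro p b
    rw [trAux_cons]
    by_cases hx : x = D.o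
    · subst hx
      rw [sec_o]
      have := ih (decide (D.o ∈ ({D.o} : Finset L)ᶜ)) (!b)
      omega
    · cases hp : D.pre b x with
      | none =>
        rw [sec_none D hx hp]
        have := ih (decide (x ∈ ({D.o} : Finset L)ᶜ)) b
        omega
      | some i =>
        have hd : decide (x ∈ ({D.o} : Finset L)ᶜ) = true := by simpa using hx
        rw [sec_some D hx hp, tr_cons, mem_lp_o D hp, hd]
        have h1 := doubling D s W true (b == s) b
        have h2 : cr s true (b == s) b = 0 := by simp [cr]
        omega

/-- (D2). -/
theorem tr_sec_two (s b : Bool) (W : List L) :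
    2 * tr (D.lp s ({D.o} : Finset L)ᶜ) (D.sec b W) ≤ tr ({D.o} : Finset L)ᶜ W := by
  cases W with
  | nil => simp [KS.sec]
  | cons x W =>
    rw [tr_cons]
    by_cases hx : x = D.o
    · subst hx
      rw [sec_o]
      exact tr_sec_two_aux D s W _ _
    · cases hp : D.pre b x with
      | none =>
        rw [sec_none D hx hp]
        exact tr_sec_two_aux D s W _ _
      | some i =>
        have hd : decide (x ∈ ({D.o} : Finset L)ᶜ) = true := by simpa using hx
        rw [sec_some D hx hp, tr_cons, mem_lp_o D hp, hd]
        have h1 := doubling D s W true (b == s) b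
        have h2 : cr s true (b == s) b = 0 := by simp [cr]
        omega

/-- Transitions along a path of cuts. -/
theorem tr_path (E : Finset (Finset L)) (hE : D.Mixing E) : ∀ (n : ℕ) (A B : Finset L),
    D.Path E n A B → ∀ (x : List Bool), x.length = n → ∀ W : List L,
      tr B (D.secL x W) ≤ tr A W := by
  intro n
  induction n with
  | zero =>
    intro A B h x hx W
    obtain ⟨_, rfl⟩ := h
    rw [List.length_eq_zero_iff.1 hx]
    exact le_rfl
  | succ n ih =>
    intro A B h x hx W
    obtain ⟨C, ⟨hA, hC, s, hs⟩, h'⟩ := h
    cases x with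
    | nil => simp at hx
    | cons b x =>
      simp only [List.length_cons, Nat.add_right_cancel_iff] at hx
      have h1 := ih C B h' x hx (D.sec b W)
      have h2 := tr_sec D A s (hE.norm A hA) b W
      rw [← tr_nm D (D.lp s A), hs] at h2
      exact h1.trans h2

theorem path_empty (E : Finset (Finset L)) : ∀ (n : ℕ) (B : Finset L), D.Path E n ∅ B → B = ∅ := by
  intro n
  induction n with
  | zero => intro B h; exact h.2.symm
  | succ n ih =>
    intro B h
    obtain ⟨C, ⟨_, _, s, hs⟩, h'⟩ := h
    have : D.lp s ∅ = ∅ := by
      unfold KS.lp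
      ext i
      simp
    rw [this] at hs
    unfold KS.nm at hs
    rw [if_neg (by simp)] at hs
    rw [← hs] at h'
    exact ih B h'

theorem empty_not_mem (E : Finset (Finset L)) (hE : D.Mixing E) : ∅ ∉ E := by
  intro h
  obtain ⟨n, _, hn⟩ := hE.mix
  have h1 := path_empty D E n _ (hn ∅ h _ hE.base)
  have h2 : D.nxt D.o ∈ ({D.o} : Finset L)ᶜ := by simpa using D.nxt_ne D.o
  rw [h1] at h2
  simp at h2

/-- All cuts that occur in arrows are non-trivial. -/
theorem lp_nonempty (E : Finset (Finset L)) (hE : D.Mixing E) (s : Bool) :
    (D.lp s ({D.o} : Finset L)ᶜ).Nonempty := by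
  obtain ⟨n, hn0, hn⟩ := hE.mix
  obtain ⟨m, rfl⟩ := Nat.exists_eq_succ_of_ne_zero hn0.ne'
  obtain ⟨C, ⟨_, hC, t, ht⟩, _⟩ := hn _ hE.base _ hE.base
  have hCne : C ≠ ∅ := fun h => empty_not_mem D E hE (h ▸ hC)
  by_contra hemp
  rw [Finset.not_nonempty_iff_eq_empty] at hemp
  -- all letters are on the side `!s`
  have hall : ∀ i, D.side i = !s := by
    intro i
    by_contra h
    have : i ∈ D.lp s ({D.o} : Finset L)ᶜ := by
      unfold KS.lp
      simp only [mem_filter, mem_univ, true_and, mem_compl, mem_singleton]
      refine ⟨?_, D.nxt_ne i⟩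
      cases h1 : D.side i <;> cases h2 : s <;> simp_all
    rw [hemp] at this
    simp at this
  by_cases hts : t = s
  · subst hts
    rw [hemp] at ht
    unfold KS.nm at ht
    rw [if_neg (by simp)] at ht
    exact hCne ht.symm
  · have ht' : t = !s := by cases t <;> cases s <;> simp_all
    have huniv : D.lp t ({D.o} : Finset L)ᶜ = univ := by
      ext i
      unfold KS.lp
      simp only [mem_filter, mem_univ, true_and, mem_compl, mem_singleton, iff_true]
      exact ⟨by rw [ht']; exact hall i, D.nxt_ne i⟩
    rw [huniv] at ht
    unfold KS.nm at ht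
    rw [if_pos (mem_univ _), compl_univ] at ht
    exact hCne ht.symm

/-- Paths of all lengths `≥ n0`. -/
theorem path_ge (E : Finset (Finset L)) (n0 : ℕ) (hn : D.Exp E n0) (n : ℕ) (h : n0 ≤ n) :
    ∀ A ∈ E, ∀ B ∈ E, D.Path E n A B := by
  induction n, h using Nat.le_induction with
  | base => exact hn.2
  | succ n _ ih =>
    intro A hA B hB
    obtain ⟨hn0, hp⟩ := hn
    obtain ⟨m, hm⟩ := Nat.exists_eq_succ_of_ne_zero hn0.ne'
    have h1 := hp A hA B hB
    rw [hm] at h1
    obtain ⟨C, hC, _⟩ := h1
    exact ⟨C, hC, ih C hC.2.1 B hB⟩

theorem secL_append' (x y : List Bool) (W : List L) :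
    D.secL (x ++ y) W = D.secL y (D.secL x W) := by
  induction x generalizing W with
  | nil => rfl
  | cons b x ih => exact ih _

/-- One doubling step. -/
theorem tr_double (E : Finset (Finset L)) (hE : D.Full E) (n0 : ℕ) (hn : D.Exp E n0)
    (B : Finset L) (hB : B ∈ E) (x : List Bool) (hx : n0 + 1 ≤ x.length) (W : List L) :
    2 * tr B (D.secL x W) ≤ tr ({D.o} : Finset L)ᶜ W := by
  cases x with
  | nil => simp at hx
  | cons b x =>
    have hne := lp_nonempty D E hE.toMixing false
    have hC := hE.closed _ hE.base false hne
    simp only [List.length_cons] at hx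
    have hp := path_ge D E n0 hn x.length (by omega) _ hC B hB
    have h1 := tr_path D E hE.toMixing _ _ _ hp x rfl (D.sec b W)
    rw [tr_nm] at h1
    have h2 := tr_sec_two D false b W
    show 2 * tr B (D.secL x (D.sec b W)) ≤ _
    omega

end MKD

open MKD in
/-- MKD, lengths `≥ (j + 1) (n0 + 1)`. -/
theorem mkd' {L : Type} [Fintype L] [DecidableEq L] (D : KS L) (E : Finset (Finset L))
    (hE : D.Full E) (n0 : ℕ) (hn : D.Exp E n0) (B : Finset L) (hB : B ∈ E) (j : ℕ) :
    ∀ (x : List Bool), (j + 1) * (n0 + 1) ≤ x.length → ∀ W : List L,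
      2 ^ (j + 1) * tr B (D.secL x W) ≤ tr ({D.o} : Finset L)ᶜ W := by
  induction j with
  | zero =>
    intro x hx W
    have := tr_double D E hE n0 hn B hB x (by omega) W
    simpa using this
  | succ j ih =>
    intro x hx W
    have e : x = x.take (n0 + 1) ++ x.drop (n0 + 1) := (List.take_append_drop _ _).symm
    have hl : n0 + 1 ≤ x.length := by nlinarith
    have h1 := ih (x.drop (n0 + 1)) (by
      rw [List.length_drop]
      have : (j + 1 + 1) * (n0 + 1) = (j + 1) * (n0 + 1) + (n0 + 1) := by ring
      omega) (D.secL (x.take (n0 + 1)) W)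
    rw [← secL_append', ← e] at h1
    have h2 := tr_double D E hE n0 hn _ hE.base (x.take (n0 + 1)) (by
      rw [List.length_take]; omega) W
    calc 2 ^ (j + 1 + 1) * tr B (D.secL x W) = 2 * (2 ^ (j + 1) * tr B (D.secL x W)) := by ring
      _ ≤ 2 * tr ({D.o} : Finset L)ᶜ (D.secL (x.take (n0 + 1)) W) := Nat.mul_le_mul_left 2 h1
      _ ≤ _ := h2

open MKD in
/-- MKD, lengths `≥ n0 + j (n0 + 1)`. -/
theorem mkd {L : Type} [Fintype L] [DecidableEq L] (D : KS L) (E : Finset (Finset L))
    (hE : D.Full E) (n0 : ℕ) (hn : D.Exp E n0) (B : Finset L) (hB : B ∈ E) (j : ℕ)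
    (x : List Bool) (hx : n0 + j * (n0 + 1) ≤ x.length) (W : List L) :
    2 ^ j * tr B (D.secL x W) ≤ tr ({D.o} : Finset L)ᶜ W := by
  cases j with
  | zero =>
    have hp := path_ge D E n0 hn x.length (by omega) _ hE.base B hB
    simpa using tr_path D E hE.toMixing _ _ _ hp x rfl W
  | succ j =>
    exact mkd' D E hE n0 hn B hB j x (by omega) W

open MKD in
/-- The form used for marks: virtual marks `u`, `v` at the ends of the word `F`. -/
theorem mkd_far {L : Type} [Fintype L] [DecidableEq L] (D : KS L) (E : Finset (Finset L))
    (hE : D.Full E) (n0 : ℕ) (hn : D.Exp E n0) (j : ℕ) (x : List Bool)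
    (hx : n0 + j * (n0 + 1) ≤ x.length) (u v z y : L) (F V : List L)
    (h : D.secL x (u :: (F ++ [v])) = z :: (V ++ [z])) (hy : y ∈ V) (hyz : y ≠ z) :
    2 ^ (j + 1) ≤ tr ({D.o} : Finset L)ᶜ F + 2 ∧ 2 ^ j ≤ runs ({D.o} : Finset L)ᶜ F + 1 := by
  obtain ⟨B, hB, hsep⟩ := hE.sep z y hyz.symm
  have h1 := mkd D E hE n0 hn B hB j x hx (u :: (F ++ [v]))
  rw [h] at h1
  have h2 := two_le_tr B z V y hy hsep
  have h3 := tr_wrap_le ({D.o} : Finset L)ᶜ u v F
  have h4 := tr_le_runs ({D.o} : Finset L)ᶜ F
  have h5 : 2 ^ j * 2 ≤ 2 ^ j * tr B (z :: (V ++ [z])) := Nat.mul_le_mul_left _ h2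
  have h6 : 2 ^ (j + 1) = 2 ^ j * 2 := pow_succ 2 j
  omega

end R4
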