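import Pool.Agent.Work.MP_e3f5d9_al.MK0
import Pool.Agent.Work.MP_e3f5d9_al.MKD
import Pool.Agent.Work.MP_e3f5d9_al.PN1
import Pool.Agent.Work.MP_e3f5d9_al.TB0

/-!
# MK8: growth, bound, far
-/

set_option autoImplicit false

open Finset

namespace R4.Mk

open R4 MKD

namespace MK8

variable {L : Type} [Fintype L] [DecidableEq L] (D : KS L)

theorem pre_nxt' (i : L) : D.pre (D.side i) (D.nxt i) = some i := by
  have hex : ∃ j, D.nxt j = D.nxt i ∧ D.side j = D.side i := ⟨i, rfl, rfl⟩
  unfold KS.pre
  rw [dif_pos hex]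
  congr 1
  exact D.inj _ _ hex.choose_spec.1 hex.choose_spec.2

theorem act_adr (z : L) : ∀ n : ℕ, D.act (D.nxt^[n] z) (adr D z n) = adr D z n := by
  intro n
  induction n with
  | zero => simp [adr, KS.act]
  | succ n ih =>
    rw [Function.iterate_succ_apply', adr, KS.act, if_neg (D.nxt_ne _), pre_nxt']
    show D.side (D.nxt^[n] z) :: D.act (D.nxt^[n] z) (adr D z n) = _
    rw [ih]

theorem secL_adr (z : L) : ∀ n : ℕ, D.secL (adr D z n) [D.nxt^[n] z] = [z] := by
  intro n
  induction n with
  | zero => rfl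
  | succ n ih =>
    rw [Function.iterate_succ_apply', adr, KS.secL, sec_some D (D.nxt_ne _) (pre_nxt' D _)]
    exact ih

theorem length_adr (z : L) (n : ℕ) : (adr D z n).length = n := by
  induction n with
  | zero => rfl
  | succ n ih => rw [adr, List.length_cons, ih]

end MK8

open MK8

variable {L : Type} [Fintype L] [DecidableEq L]

/-- The size of an ancestor. -/
theorem MK8.size_secL (S : Setup L) (hN : NodeBasics S) : ∃ c : ℕ, ∀ (s : ℕ) (x : List Bool),
    x.length = s → ∀ F ∈ S.N s, S.D.size F + c ≤ 2 ^ s * (S.D.size (S.D.secL x F) + c) := by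
  obtain ⟨c, hc⟩ := hN.size_kid
  refine ⟨c, fun s => ?_⟩
  induction s with
  | zero =>
    intro x hx F _
    rw [List.length_eq_zero_iff.1 hx]
    simp [KS.secL]
  | succ s ih =>
    intro x hx F hF
    cases x with
    | nil => simp at hx
    | cons b x =>
      simp only [List.length_cons, Nat.add_right_cancel_iff] at hx
      have hF0 : F ∈ S.N 0 := by
        have : ∀ k, S.N k ⊆ S.N 0 := by
          intro k
          induction k with
          | zero => exact subset_rfl
          | succ k ih => exact (hN.anti k).trans ih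
        exact this _ hF
      have h1 := (hc F hF0 b).2
      have h2 := ih x hx (S.D.sec b F) (hN.kid s F hF b)
      have h3 : 2 ^ (s + 1) * (S.D.size (S.D.secL (b :: x) F) + c) =
          2 * (2 ^ s * (S.D.size (S.D.secL x (S.D.sec b F)) + c)) := by
        rw [pow_succ]
        show 2 ^ s * 2 * (S.D.size (S.D.secL x (S.D.sec b F)) + c) = _
        ring
      rw [h3]
      omega

theorem MK8.size_no_o (D : KS L) (w : List L) (h : D.o ∉ w) : D.size w ≤ 1 := by
  have key : ∀ (w : List L), D.o ∉ w → runsAux ({D.o} : Finset L)ᶜ true w = 0 := by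
    intro w
    induction w with
    | nil => intro _; rfl
    | cons x w ih =>
      intro h
      have hx : x ∈ ({D.o} : Finset L)ᶜ := by
        simp only [mem_compl, mem_singleton]
        exact fun hx => h (by rw [hx]; simp)
      simp [runsAux, hx, ih fun h' => h (List.mem_cons_of_mem _ h')]
  cases w with
  | nil => simp [KS.size, runs, runsAux]
  | cons x w =>
    have hx : x ∈ ({D.o} : Finset L)ᶜ := by
      simp only [mem_compl, mem_singleton]
      exact fun hx => h (by rw [hx]; simp)
    unfold KS.size runs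
    simp [runsAux, hx, key w fun h' => h (List.mem_cons_of_mem _ h')]

/-- MK8a, `Bound`. -/
theorem mk8a (S : Setup L) (hN : NodeBasics S) : Bound S := by
  intro s
  obtain ⟨c, hc⟩ := MK8.size_secL S hN
  refine ⟨s, 2 ^ s * (1 + c), fun F hF x hx ho => ?_⟩
  have h1 := hc s x hx F hF
  have h2 := MK8.size_no_o S.D _ ho
  have : 2 ^ s * (S.D.size (S.D.secL x F) + c) ≤ 2 ^ s * (1 + c) :=
    Nat.mul_le_mul_left _ (by omega)
  omega

/-- MK8b, `Far`. -/
theorem mk8b (S : Setup L) (hN : NodeBasics S) : Far S := by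
  intro z _ s
  obtain ⟨k, C, hC⟩ := mk8a S hN s
  refine ⟨k, S.n0 + (C + 2) * (S.n0 + 1), fun n hn F hF hev hi x hx => ?_⟩
  by_contra ho
  have h1 := hC F hF x hx ho
  obtain ⟨i, hi, hiz⟩ := hi
  have hUT := tb0 S.D
  have h2 : S.D.secL (adr S.D z n) (S.D.nxt^[n] z :: (F ++ [S.D.nxt^[n] z])) =
      z :: (S.D.secL (adr S.D z n) F ++ [z]) := by
    have e1 : S.D.nxt^[n] z :: (F ++ [S.D.nxt^[n] z]) =
        [S.D.nxt^[n] z] ++ (F ++ [S.D.nxt^[n] z]) := rfl
    have e2 : S.D.ev [S.D.nxt^[n] z] (adr S.D z n) = adr S.D z n := by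
      simp only [KS.ev]
      exact act_adr S.D z n
    rw [e1, hUT.secL_append, secL_adr, e2, hUT.secL_append, hev, secL_adr]
    rfl
  have h3 := (mkd_far S.D S.E S.full S.n0 S.exp (C + 2) (adr S.D z n)
    (by rw [length_adr]; exact hn) _ _ z i F _ h2 hi hiz).2
  have h5 : C + 2 < 2 ^ (C + 2) := Nat.lt_two_pow_self
  have h6 : runs ({S.D.o} : Finset L)ᶜ F = S.D.size F := rfl
  omega

end R4.Mk
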