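import Pool.Agent.Work.MP_e3f5d9_al.MK8

/-!
# MK9, MK10: `Cont` and `Cnt`
-/

set_option autoImplicit false

open Finset

namespace R4.Mk

open R4 MKD MK8

namespace MK9

variable {L : Type} [Fintype L] [DecidableEq L] (D : KS L)

/-! ### Letters of sections -/

theorem mem_sec {i : L} : ∀ {w : List L} {b : Bool}, i ∈ D.sec b w → D.nxt i ∈ w := by
  intro w
  induction w with
  | nil => intro b h; simp [KS.sec] at h
  | cons a w ih =>
    intro b h
    by_cases ha : a = D.o
    · subst ha
      rw [sec_o] at h
      exact List.mem_cons_of_mem _ (ih h)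
    · cases hp : D.pre b a with
      | none =>
        rw [sec_none D ha hp] at h
        exact List.mem_cons_of_mem _ (ih h)
      | some l =>
        rw [sec_some D ha hp] at h
        rcases List.mem_cons.1 h with h1 | h1
        · rw [h1, (pre_spec D hp).1]; simp
        · exact List.mem_cons_of_mem _ (ih h1)

theorem mem_secL {i : L} : ∀ {x : List Bool} {w : List L}, i ∈ D.secL x w →
    D.nxt^[x.length] i ∈ w := by
  intro x
  induction x with
  | nil => intro w h; exact h
  | cons b x ih =>
    intro w h
    rw [List.length_cons, Function.iterate_succ_apply']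
    exact mem_sec D (ih h)

theorem sec_sing_o (b : Bool) : D.sec b [D.o] = [] := by rw [sec_o]; rfl

theorem sec_sing_none {b : Bool} {z : L} (hz : z ≠ D.o) (h : D.pre b z = none) :
    D.sec b [z] = [] := by rw [sec_none D hz h]; rfl

theorem sec_sing_some {b : Bool} {z l : L} (hz : z ≠ D.o) (h : D.pre b z = some l) :
    D.sec b [z] = [l] := by rw [sec_some D hz h]; rfl

theorem secL_nil (x : List Bool) : D.secL x [] = [] := by
  induction x with
  | nil => rfl
  | cons b x ih => exact ih

/-- A letter that is read at a position as `i` is `nxt^[e] i`, and the position is the address. -/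
theorem read_eq {i : L} : ∀ {x : List Bool} {z : L}, i ∈ D.secL x [z] →
    x = adr D i x.length ∧ z = D.nxt^[x.length] i := by
  intro x
  induction x with
  | nil =>
    intro z h
    have : i = z := by simpa [KS.secL] using h
    exact ⟨rfl, this.symm⟩
  | cons b x ih =>
    intro z h
    have h0 : i ∈ D.secL x (D.sec b [z]) := h
    by_cases hz : z = D.o
    · subst hz
      rw [sec_sing_o, secL_nil] at h0
      simp at h0
    · cases hp : D.pre b z with
      | none =>
        rw [sec_sing_none D hz hp, secL_nil] at h0
        simp at h0
      | some l =>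
        rw [sec_sing_some D hz hp] at h0
        obtain ⟨h1, h2⟩ := ih h0
        obtain ⟨h3, h4⟩ := pre_spec D hp
        rw [List.length_cons, Function.iterate_succ_apply', ← h2, h3]
        refine ⟨?_, rfl⟩
        rw [adr, ← h2, h4, ← h1]

/-! ### Action -/

theorem act_o' (b : Bool) (x : List Bool) : D.act D.o (b :: x) = (!b) :: x := by
  simp [KS.act]

theorem act_none' {z : L} {b : Bool} (hz : z ≠ D.o) (h : D.pre b z = none) (x : List Bool) :
    D.act z (b :: x) = b :: x := by
  simp [KS.act, hz, h]

theorem act_some' {z l : L} {b : Bool} (hz : z ≠ D.o) (h : D.pre b z = some l) (x : List Bool) :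
    D.act z (b :: x) = b :: D.act l x := by
  simp [KS.act, hz, h]

theorem ev_snoc (u : List L) (a : L) (x : List Bool) :
    D.ev (u ++ [a]) x = D.act a (D.ev u x) := by
  rw [(b1 D).ev_append]; rfl

theorem secL_cons (x : List Bool) (a : L) (w : List L) :
    D.secL x (a :: w) = D.secL x [a] ++ D.secL (D.act a x) w := by
  have h := (tb0 D).secL_append x [a] w
  simpa [KS.ev] using h

/-! ### The transport of classes along a position -/

variable (E : Finset (Finset L)) (i : L)

/-- One step of the transport, to the point `nxt^[p] i`. -/
def arg (p : ℕ) (a : Bool) (Z : Finset L) : Finset L :=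
  if a = D.side (D.nxt^[p] i) then stp D (D.nxt^[p] i) Z
  else (D.lp (D.side (D.nxt^[p] i)) (cap E (D.nxt^[p + 1] i)))ᶜ

/-- The transport along a position. -/
def sg : List Bool → Finset L → Finset L
  | [], Z => Z
  | a :: q, Z => sg q (arg D E i q.length a Z)

/-- The sets that are transported: nothing, the point itself, classes. -/
def Good (p : ℕ) (Z : Finset L) : Prop :=
  Z = ∅ ∨ Z = {D.nxt^[p] i} ∨ ∃ x, x ≠ D.nxt^[p] i ∧ Z = cl E (D.nxt^[p] i) x

/-- (A), one step. -/
theorem arg_mem {p : ℕ} {a : Bool} {Z : Finset L} {z l : L} (hz : z ∈ Z)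
    (hp : D.pre a z = some l) : l ∈ arg D E i p a Z := by
  obtain ⟨h1, h2⟩ := pre_spec D hp
  unfold arg
  split_ifs with ha
  · unfold stp
    split_ifs with ho
    · simp only [mem_compl, KS.lp, mem_filter, mem_univ, true_and, not_and, not_not]
      intro _
      rw [h1]; exact hz
    · simp only [KS.lp, mem_filter, mem_univ, true_and]
      exact ⟨by rw [h2]; exact ha, by rw [h1]; exact hz⟩
  · simp only [mem_compl, KS.lp, mem_filter, mem_univ, true_and, not_and]
    intro h3
    exact absurd (h2.symm.trans h3) ha

/-- (A). -/
theorem sg_mem : ∀ (q : List Bool) (Z : Finset L) (z l : L), z ∈ Z → l ∈ D.secL q [z] →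
    l ∈ sg D E i q Z := by
  intro q
  induction q with
  | nil =>
    intro Z z l hz hl
    have : l = z := by simpa [KS.secL] using hl
    rw [this]; exact hz
  | cons a q ih =>
    intro Z z l hz hl
    have h0 : l ∈ D.secL q (D.sec a [z]) := hl
    by_cases hzo : z = D.o
    · subst hzo
      rw [sec_sing_o, secL_nil] at h0
      simp at h0
    · cases hp : D.pre a z with
      | none =>
        rw [sec_sing_none D hzo hp, secL_nil] at h0
        simp at h0
      | some l' =>
        rw [sec_sing_some D hzo hp] at h0
        exact ih _ l' l (arg_mem D E i hz hp) h0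

/-- (B). -/
theorem sg_indep : ∀ (q : List Bool) (Z Z' : Finset L), q ≠ adr D i q.length →
    sg D E i q Z = sg D E i q Z' := by
  intro q
  induction q with
  | nil => intro Z Z' h; exact absurd rfl h
  | cons a q ih =>
    intro Z Z' h
    by_cases hq : q = adr D i q.length
    · have ha : a ≠ D.side (D.nxt^[q.length] i) := by
        intro ha
        apply h
        rw [List.length_cons, adr, ← ha, ← hq]
      show sg D E i q _ = sg D E i q _
      unfold arg
      rw [if_neg ha, if_neg ha]
    · exact ih _ _ hq

theorem sg_adr : ∀ (e : ℕ) (Z : Finset L), sg D E i (adr D i e) Z = stpL D i e Z := by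
  intro e
  induction e with
  | zero => intro Z; rfl
  | succ e ih =>
    intro Z
    rw [adr, sg, length_adr, arg, if_pos rfl, ih, stpL]

variable (hE : StarBasics D E)

include hE in
theorem ctr_iter (hi : Ctr D E i) : ∀ p, Ctr D E (D.nxt^[p] i) := by
  intro p
  induction p with
  | zero => exact hi
  | succ p ih => rw [Function.iterate_succ_apply']; exact hE.nxt _ ih

/-- The point itself. -/
theorem stp_self (j : L) : stp D j {D.nxt j} = {j} := by
  have h : D.o ∉ ({D.nxt j} : Finset L) := by
    simpa using (D.nxt_ne j).symm
  unfold stp
  rw [if_neg h]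
  ext y
  simp only [KS.lp, mem_filter, mem_univ, true_and, mem_singleton]
  constructor
  · rintro ⟨h1, h2⟩; exact D.inj _ _ h2 h1
  · rintro rfl; exact ⟨rfl, rfl⟩

theorem stpL_self (e : ℕ) : stpL D i e {D.nxt^[e] i} = {i} := by
  induction e with
  | zero => rfl
  | succ e ih => rw [stpL, Function.iterate_succ_apply', stp_self, ih]

include hE in
/-- The class of `o` at a point `≠ o`. -/
theorem cl_o {j x : L} (hj : j ≠ D.o) (hx : x ≠ j) (ho : D.o ∈ cl E j x) :
    cl E j x = (cap E j)ᶜ := by
  rw [← hE.out j hj]
  exact (hE.eqv j x D.o hx ho).symm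

include hE in
theorem good_o (hi : Ctr D E i) {p : ℕ} {Z : Finset L} (hZ : Good D E i (p + 1) Z)
    (ho : D.o ∈ Z) : Z = (cap E (D.nxt^[p + 1] i))ᶜ := by
  have hj : D.nxt^[p + 1] i ≠ D.o := by
    rw [Function.iterate_succ_apply']; exact D.nxt_ne _
  rcases hZ with rfl | rfl | ⟨x, hx, rfl⟩
  · simp at ho
  · exact absurd (mem_singleton.1 ho).symm hj
  · exact cl_o D E hE hj hx ho

include hE in
/-- The other side is the transport of the class of `o`. -/
theorem arg_other (hi : Ctr D E i) (p : ℕ) :
    (D.lp (D.side (D.nxt^[p] i)) (cap E (D.nxt^[p + 1] i)))ᶜ =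
      stp D (D.nxt^[p] i) (cl E (D.nxt^[p + 1] i) D.o) := by
  have hj : D.nxt^[p + 1] i ≠ D.o := by
    rw [Function.iterate_succ_apply']; exact D.nxt_ne _
  have ho : D.o ∈ cl E (D.nxt^[p + 1] i) D.o := (hE.self _ _ hj.symm).1
  unfold stp
  rw [if_pos ho, hE.out _ hj, compl_compl]

include hE in
theorem good_arg (hi : Ctr D E i) {p : ℕ} {Z : Finset L} (hZ : Good D E i (p + 1) Z) (a : Bool) :
    Good D E i p (arg D E i p a Z) := by
  have hc := ctr_iter D E i hE hi p
  have hstep : ∀ x, x ≠ D.nxt^[p + 1] i →
      Good D E i p (stp D (D.nxt^[p] i) (cl E (D.nxt^[p + 1] i) x)) := by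
    intro x hx
    rw [Function.iterate_succ_apply'] at hx ⊢
    rcases hE.step _ hc x hx with h | ⟨y, hy, h⟩
    · exact Or.inl h
    · exact Or.inr (Or.inr ⟨y, hy, h⟩)
  unfold arg
  split_ifs with ha
  · rcases hZ with rfl | rfl | ⟨x, hx, rfl⟩
    · left
      unfold stp
      rw [if_neg (by simp)]
      unfold KS.lp
      simp
    · right; left
      rw [Function.iterate_succ_apply']
      exact stp_self D _
    · exact hstep x hx
  · rw [arg_other D E i hE hi p]
    exact hstep _ (by rw [Function.iterate_succ_apply']; exact (D.nxt_ne _).symm)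

include hE in
/-- (C). -/
theorem sg_act (hi : Ctr D E i) : ∀ (q : List Bool) (Z : Finset L) (z : L),
    Good D E i q.length Z → z ∈ Z → sg D E i (D.act z q) Z = sg D E i q Z := by
  intro q
  induction q with
  | nil => intro Z z _ _; simp [KS.act]
  | cons a q ih =>
    intro Z z hZ hz
    rw [List.length_cons] at hZ
    by_cases hzo : z = D.o
    · subst hzo
      rw [act_o']
      have hZ' := good_o D E i hE hi hZ hz
      have key : ∀ b, arg D E i q.length b Z =
          (D.lp (D.side (D.nxt^[q.length] i)) (cap E (D.nxt^[q.length + 1] i)))ᶜ := by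
        intro b
        unfold arg
        split_ifs with hb
        · unfold stp
          rw [if_pos hz, hZ', compl_compl]
        · rfl
      show sg D E i q (arg D E i q.length (!a) Z) = sg D E i q (arg D E i q.length a Z)
      rw [key, key]
    · cases hp : D.pre a z with
      | none => rw [act_none' D hzo hp]
      | some l =>
        rw [act_some' D hzo hp]
        have h1 : (D.act l q).length = q.length := (b1 D).act_length _ _
        show sg D E i (D.act l q) (arg D E i (D.act l q).length a Z) = sg D E i q _
        rw [h1]
        exact ih _ l (good_arg D E i hE hi hZ a) (arg_mem D E i hz hp)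

/-! ### Visits with prefixes -/

section visits

variable {β : Type} [DecidableEq β] (c : L → Option β)

theorem visp_fac : ∀ (w : List L) (p : Option β) (u : List L) (v : β × List L),
    v ∈ visp c p u w → ∃ t, v.2 = u ++ t := by
  intro w
  induction w with
  | nil => intro p u v h; simp [visp] at h
  | cons a w ih =>
    intro p u v h
    simp only [visp] at h
    cases hc : c a with
    | none =>
      rw [hc] at h
      obtain ⟨t, ht⟩ := ih _ _ _ h
      exact ⟨a :: t, by rw [ht]; simp⟩
    | some b =>
      rw [hc] at h
      simp only at h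
      by_cases hp : p = some b
      · rw [if_pos hp] at h
        obtain ⟨t, ht⟩ := ih _ _ _ h
        exact ⟨a :: t, by rw [ht]; simp⟩
      · rw [if_neg hp] at h
        rcases List.mem_cons.1 h with h1 | h1
        · exact ⟨[], by rw [h1]; simp⟩
        · obtain ⟨t, ht⟩ := ih _ _ _ h1
          exact ⟨a :: t, by rw [ht]; simp⟩

/-- The visits from a given one on. -/
theorem visp_split : ∀ (w : List L) (p : Option β) (u : List L) (V1 : List (β × List L))
    (y : β × List L) (V : List (β × List L)), visp c p u w = V1 ++ y :: V →
    ∃ w', u ++ w = y.2 ++ w' ∧ visp c none y.2 w' = y :: V := by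
  intro w
  induction w with
  | nil => intro p u V1 y V h; simp [visp] at h
  | cons a w ih =>
    intro p u V1 y V h
    simp only [visp] at h
    cases hc : c a with
    | none =>
      rw [hc] at h
      obtain ⟨w', h1, h2⟩ := ih _ _ _ _ _ h
      exact ⟨w', by rw [← h1]; simp, h2⟩
    | some b =>
      rw [hc] at h
      simp only at h
      by_cases hp : p = some b
      · rw [if_pos hp] at h
        obtain ⟨w', h1, h2⟩ := ih _ _ _ _ _ h
        exact ⟨w', by rw [← h1]; simp, h2⟩
      · rw [if_neg hp] at h
        cases V1 with
        | nil =>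
          simp only [List.nil_append, List.cons.injEq] at h
          obtain ⟨rfl, h⟩ := h
          refine ⟨a :: w, rfl, ?_⟩
          simp only [visp, hc, reduceCtorEq, if_false]
          rw [h]
        | cons v V1 =>
          simp only [List.cons_append, List.cons.injEq] at h
          obtain ⟨w', h1, h2⟩ := ih _ _ _ _ _ h.2
          exact ⟨w', by rw [← h1]; simp, h2⟩

end visits

/-- The invariant: the node does not stand in an exit. -/
def Inv (p : Option (Finset L)) (q : List Bool) : Prop :=
  match p with
  | none => q ≠ adr D i q.length → D.o ∉ sg D E i q {D.nxt^[q.length] i}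
  | some b => D.o ∉ sg D E i q b

include hE in
theorem main (hi : Ctr D E i) (x : List Bool) : ∀ (w : List L) (p : Option (Finset L))
    (u : List L) (V2 : List (Finset L × List L)) (y' : Finset L × List L)
    (V3 : List (Finset L × List L)) (F : List L),
    visp (st E (D.nxt^[x.length] i)) p u w = V2 ++ y' :: V3 → y'.2 = u ++ F →
    (∀ v ∈ V2, D.ev v.2 x = adr D i x.length → D.o ∉ stpL D i x.length v.1) →
    Inv D E i p (D.ev u x) → (∀ b, p = some b → Good D E i x.length b) →
    D.o ∉ D.secL (D.ev u x) F := by
  intro w
  induction w with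
  | nil => intro p u V2 y' V3 F h; simp [visp] at h
  | cons a w ih =>
    intro p u V2 y' V3 F h hF hV hInv hgood
    have hlen : (D.ev u x).length = x.length := (b1 D).ev_length _ _
    have hlen' : (D.act a (D.ev u x)).length = x.length := by
      rw [(b1 D).act_length]; exact hlen
    -- the rest of the word after the letter `a`
    have hcons : ∀ p', y' ∈ visp (st E (D.nxt^[x.length] i)) p' (u ++ [a]) w →
        ∃ F', F = a :: F' ∧ y'.2 = (u ++ [a]) ++ F' := by
      intro p' hy
      obtain ⟨t, ht⟩ := visp_fac _ _ _ _ _ hy
      refine ⟨t, ?_, ht⟩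
      rw [hF] at ht
      have : u ++ F = u ++ (a :: t) := by rw [ht]; simp
      exact List.append_cancel_left this
    -- one letter of a set `Z` in the direction of which there is no `o`
    have hstepZ : ∀ (Z : Finset L) (p' : Option (Finset L)) (V2' : List (Finset L × List L)),
        a ∈ Z → Good D E i x.length Z → D.o ∉ sg D E i (D.ev u x) Z →
        visp (st E (D.nxt^[x.length] i)) p' (u ++ [a]) w = V2' ++ y' :: V3 →
        (∀ v ∈ V2', D.ev v.2 x = adr D i x.length → D.o ∉ stpL D i x.length v.1) →
        (p' = some Z ∨ (p' = none ∧ Z = {D.nxt^[x.length] i})) →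
        D.o ∉ D.secL (D.ev u x) F := by
      intro Z p' V2' haZ hZ ho hv hV' hp'
      obtain ⟨F', hF1, hF2⟩ := hcons p' (by rw [hv]; simp)
      have hact := sg_act D E i hE hi (D.ev u x) Z a (by rw [hlen]; exact hZ) haZ
      have hnew : Inv D E i p' (D.ev (u ++ [a]) x) := by
        rw [ev_snoc]
        rcases hp' with rfl | ⟨rfl, rfl⟩
        · show D.o ∉ sg D E i (D.act a (D.ev u x)) Z
          rw [hact]; exact ho
        · show _ → D.o ∉ sg D E i (D.act a (D.ev u x)) _
          intro _
          rw [hlen', hact]; exact ho
      have hgood' : ∀ b, p' = some b → Good D E i x.length b := by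
        intro b hb
        rcases hp' with rfl | ⟨rfl, rfl⟩
        · rw [← Option.some.inj hb]; exact hZ
        · simp at hb
      have h1 := ih p' (u ++ [a]) V2' y' V3 F' hv hF2 hV' hnew hgood'
      rw [hF1, secL_cons, List.mem_append]
      rintro (h2 | h2)
      · exact ho (sg_mem D E i _ Z a _ haZ h2)
      · rw [ev_snoc] at h1
        exact h1 h2
    simp only [visp] at h
    by_cases haj : a = D.nxt^[x.length] i
    · -- the letter at the centre
      have hc : st E (D.nxt^[x.length] i) a = none := by simp [st, haj]
      rw [hc] at h
      refine hstepZ {D.nxt^[x.length] i} none V2 (by simp [haj]) (Or.inr (Or.inl rfl)) ?_ h hV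
        (Or.inr ⟨rfl, rfl⟩)
      by_cases hq : D.ev u x = adr D i x.length
      · rw [hq, sg_adr, stpL_self]
        simpa using fun h : D.o = i => hi.1 h.symm
      · have hq' : D.ev u x ≠ adr D i (D.ev u x).length := by rw [hlen]; exact hq
        cases p with
        | none =>
          have := hInv hq'
          rwa [hlen] at this
        | some b =>
          have : D.o ∉ sg D E i (D.ev u x) b := hInv
          rwa [sg_indep D E i _ b _ hq'] at this
    · -- a letter of a class
      set b := cl E (D.nxt^[x.length] i) a with hb
      have hc : st E (D.nxt^[x.length] i) a = some b := by simp [st, haj, hb]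
      rw [hc] at h
      simp only at h
      have hab : a ∈ b := (hE.self _ _ haj).1
      have hgb : Good D E i x.length b := Or.inr (Or.inr ⟨a, haj, hb⟩)
      by_cases hp : p = some b
      · rw [if_pos hp] at h
        refine hstepZ b (some b) V2 hab hgb ?_ h hV (Or.inl rfl)
        rw [hp] at hInv
        exact hInv
      · rw [if_neg hp] at h
        cases V2 with
        | nil =>
          simp only [List.nil_append, List.cons.injEq] at h
          have : F = [] := by
            have h1 : u = u ++ F := by rw [← hF, ← h.1]
            exact List.self_eq_append_right.1 h1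
          rw [this, secL_nil]
          simp
        | cons v V2 =>
          simp only [List.cons_append, List.cons.injEq] at h
          obtain ⟨hv, h⟩ := h
          refine hstepZ b (some b) V2 hab hgb ?_ h
            (fun v' hv' => hV v' (List.mem_cons_of_mem _ hv')) (Or.inl rfl)
          by_cases hq : D.ev u x = adr D i x.length
          · have h1 := hV v (by simp) (by rw [← hv]; exact hq)
            rw [← hv] at h1
            rw [hq, sg_adr]
            exact h1
          · have hq' : D.ev u x ≠ adr D i (D.ev u x).length := by rw [hlen]; exact hq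
            cases p with
            | none =>
              have := hInv hq'
              rwa [sg_indep D E i _ _ b hq'] at this
            | some b' =>
              have : D.o ∉ sg D E i (D.ev u x) b' := hInv
              rwa [sg_indep D E i _ _ b hq'] at this

end MK9

open MK9

variable {L : Type} [Fintype L] [DecidableEq L]

/-- MK9. -/
theorem mk9 (D : KS L) (E : Finset (Finset L)) (hE : StarBasics D E) : Cont D E := by
  intro i hi s x P hx V1 V2 V3 y y' F h hF hy hy' ho
  subst hx
  by_contra hcon
  push Not at hcon
  rw [List.append_assoc] at h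
  obtain ⟨w', h1, h2⟩ := visp_split _ _ _ _ _ _ _ h
  have := main D E i hE hi x w' none y.2 (y :: V2) y' V3 F (by rw [h2]; simp) hF
    (fun v hv hv' => hcon v hv hv') (by
      show D.ev y.2 x ≠ adr D i (D.ev y.2 x).length → _
      intro h3
      rw [(b1 D).ev_length] at h3
      exact absurd hy h3) (by simp)
  rw [hy] at this
  exact this ho

/-! ### MK10 -/

namespace MK10

variable (D : KS L)

theorem act_eq_adr (i : L) (x : List Bool) :
    D.act (D.nxt^[x.length] i) x = adr D i x.length ↔ x = adr D i x.length := by
  constructor
  · intro h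
    have h1 := (b1 D).act_act (D.nxt^[x.length] i) x
    rw [h, act_adr] at h1
    exact h1.symm
  · intro h
    conv_lhs => rw [h]
    rw [length_adr]
    exact act_adr D i _

theorem ev_pow (i : L) (x : List Bool) : ∀ m : ℕ,
    D.ev (List.replicate m (D.nxt^[x.length] i)) x = adr D i x.length ↔
      x = adr D i x.length := by
  intro m
  induction m with
  | zero => simp [KS.ev]
  | succ m ih =>
    rw [List.replicate_succ', ev_snoc]
    have hl : (D.ev (List.replicate m (D.nxt^[x.length] i)) x).length = x.length :=
      (b1 D).ev_length _ _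
    have h := act_eq_adr D i (D.ev (List.replicate m (D.nxt^[x.length] i)) x)
    rw [hl] at h
    rw [h, ih]

theorem count_pow (i : L) : ∀ (m : ℕ) (x : List Bool),
    (D.secL x (List.replicate m (D.nxt^[x.length] i))).count i =
      if x = adr D i x.length then m else 0 := by
  intro m
  induction m with
  | zero => intro x; simp [secL_nil]
  | succ m ih =>
    intro x
    rw [List.replicate_succ, secL_cons, List.count_append]
    have hl : (D.act (D.nxt^[x.length] i) x).length = x.length := (b1 D).act_length _ _
    have h1 := ih (D.act (D.nxt^[x.length] i) x)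
    rw [hl] at h1
    rw [h1]
    have h2 := act_eq_adr D i x
    by_cases hx : x = adr D i x.length
    · rw [if_pos hx, if_pos (h2.2 hx)]
      have h3 : D.secL x [D.nxt^[x.length] i] = [i] := by
        conv_lhs => rw [hx]
        rw [length_adr]
        exact secL_adr D i _
      rw [h3]
      simp
      omega
    · rw [if_neg hx, if_neg fun h => hx (h2.1 h)]
      have : i ∉ D.secL x [D.nxt^[x.length] i] := fun h => hx (read_eq D h).1
      rw [List.count_eq_zero_of_not_mem this]

theorem count_none (i : L) (x : List Bool) (R : List L) (h : D.nxt^[x.length] i ∉ R) :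
    (D.secL x R).count i = 0 :=
  List.count_eq_zero_of_not_mem fun h1 => h (mem_secL D h1)

theorem eq_replicate {j : L} {G : List L} (h : ∀ x ∈ G, x = j) :
    G = List.replicate G.length j := List.eq_replicate_iff.2 ⟨rfl, h⟩

end MK10

open MK10

/-- MK10. -/
theorem mk10 (D : KS L) (E : Finset (Finset L)) (hV : VispBasics L) : Cnt D E := by
  have hst : ∀ j x : L, st E j x = none → x = j := by
    intro j x h
    unfold st at h
    by_contra hne
    rw [if_neg hne] at h
    simp at h
  constructor
  · intro i x P y V h
    have h1 := hV.first _ _ _ _ h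
    have h2 := eq_replicate fun a ha => hst _ a (h1 a ha)
    rw [h2, count_pow]
    have h3 := ev_pow D i x y.2.length
    have h4 : (List.replicate y.2.length (D.nxt^[x.length] i)).count (D.nxt^[x.length] i) =
        y.2.length := by simp
    rw [h4]
    by_cases hx : x = adr D i x.length
    · rw [if_pos hx, if_pos (h3.2 hx)]
    · rw [if_neg hx, if_neg fun h => hx (h3.1 h)]
  · intro i x P y y' V1 V2 h
    obtain ⟨R, G, hR, hy, hRc, hGc, _⟩ := hV.next _ _ _ _ _ _ h
    have hG := eq_replicate fun a ha => hst _ a (hGc a ha)
    set m := G.length with hm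
    have hRj : D.nxt^[x.length] i ∉ R := by
      intro hj
      have := hRc _ hj
      simp [st] at this
    have hU := tb0 D
    set x1 := D.ev (y.2 ++ R) x with hx1
    have hl : (D.ev y.2 x).length = x.length := (b1 D).ev_length _ _
    have hl1 : x1.length = x.length := (b1 D).ev_length _ _
    have e1 : (D.secL x y'.2).count i = (D.secL x y.2).count i +
        (if x1 = adr D i x.length then m else 0) := by
      rw [hy, hU.secL_append, hU.secL_append, List.count_append, List.count_append]
      have h1 : (D.secL (D.ev y.2 x) R).count i = 0 :=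
        count_none D i _ R (by rw [hl]; exact hRj)
      have h2 := count_pow D i m x1
      rw [hl1] at h2
      rw [h1, ← hx1]
      rw [← hG] at h2
      rw [h2]
      omega
    have e2 : (D.ev y'.2 x = adr D i x.length) ↔ x1 = adr D i x.length := by
      rw [hy, (b1 D).ev_append, ← hx1]
      have h2 := ev_pow D i x1 m
      rw [hl1, ← hG] at h2
      exact h2
    have e3 : y'.2.count (D.nxt^[x.length] i) = y.2.count (D.nxt^[x.length] i) + m := by
      rw [hy, List.count_append, List.count_append, List.count_eq_zero_of_not_mem hRj]
      have : G.count (D.nxt^[x.length] i) = m := by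
        conv_lhs => rw [hG]
        simp
      omega
    rw [e1, e3]
    by_cases hx : x1 = adr D i x.length
    · rw [if_pos hx, if_pos (e2.2 hx), if_pos (e2.2 hx)]
      omega
    · rw [if_neg hx, if_neg fun h => hx (e2.1 h), if_neg fun h => hx (e2.1 h)]

end R4.Mk
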