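import Pool.Agent.Work.MP_e3f5d9_al.B1
import Pool.Agent.Work.MP_e3f5d9_al.B1p
import Pool.Agent.Work.MP_e3f5d9_al.B2a
import Pool.Agent.Work.MP_e3f5d9_al.B2b
import Pool.Agent.Work.MP_e3f5d9_al.B2c
import Pool.Agent.Work.MP_e3f5d9_al.B2d
import Pool.Agent.Work.MP_e3f5d9_al.B3
import Pool.Agent.Work.MP_e3f5d9_al.B4
import Pool.Agent.Work.MP_e3f5d9_al.B5
import Pool.Agent.Work.MP_e3f5d9_al.B6
import Pool.Agent.Work.MP_e3f5d9_al.B7
import Pool.Agent.Work.MP_e3f5d9_al.B8
import Pool.Agent.Work.MP_e3f5d9_al.B9a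
import Pool.Agent.Work.MP_e3f5d9_al.B9b
import Pool.Agent.Work.MP_e3f5d9_al.B9cd
import Pool.Agent.Work.MP_e3f5d9_al.B10
import Pool.Agent.Work.MP_e3f5d9_al.B11
import Pool.Agent.Work.MP_e3f5d9_al.B12

/-!
# Stage 0: rigid kneading systems have intermediate growth
-/

set_option autoImplicit false

namespace R4

/-- A rigid kneading system has subexponential growth. -/
theorem rigid_subexp {L : Type} [Fintype L] [DecidableEq L] (D : KS L)
    (E : Finset (Finset L)) (hE : D.Rigid E) : SubexpGam D :=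
  b8 D (b1 D) (b1p L) (b3 D) (b4 D (b1 D) (b1p L) (b2a D) (b3 D))
    (b5 D (b1 D) (b1p L) (b2b D) (b2c D) (b2d D) (b3 D)) (b6c D) b7 E hE

/-- If the colliding letters generate a finite group, the growth is superpolynomial. -/
theorem superpoly {L : Type} [Fintype L] [DecidableEq L] (D : KS L)
    (hFO : ∀ p q, p ≠ q → D.nxt p = D.nxt q → D.FO p q) : Superpoly D.gam := by
  obtain ⟨C, I, h⟩ := b9b D (b9a D (b1 D) hFO)
  exact b9d D.gam C I (b9c D).1 (b9c D).2 h

/-- Stage 0. -/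
theorem stage0 {L : Type} [Fintype L] [DecidableEq L] (D : KS L)
    (E : Finset (Finset L)) (hE : D.Rigid E)
    (hFO : ∀ p q, p ≠ q → D.nxt p = D.nxt q → D.FO p q) : IntermediateGrowth D.grp :=
  b10 D (b1 D) (rigid_subexp D E hE) (superpoly D hFO)

end R4

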