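import Pool.Agent.Work.MP_e3f5d9_al.B1
import Pool.Agent.Work.MP_e3f5d9_al.B1p
import Pool.Agent.Work.MP_e3f5d9_al.B2a
import Pool.Agent.Work.MP_e3f5d9_al.B2b
import Pool.Agent.Work.MP_e3f5d9_al.B2c
import Pool.Agent.Work.MP_e3f5d9_al.B2d
import Pool.Agent.Work.MP_e3f5d9_al.B3
import Pool.Agent.Work.MP_e3f5d9_al.B4
import Pool.Agent.Work.MP_e3f5d9_al.B5
import Pool.Agent.Work.MP_e3f5d9_al.B6
import Pool.Agent.Work.MP_e3f5d9_al.B7
import Pool.Agent.Work.MP_e3f5d9_al.B8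
import Pool.Agent.Work.MP_e3f5d9_al.B9a
import Pool.Agent.Work.MP_e3f5d9_al.B9cd
import Pool.Agent.Work.MP_e3f5d9_al.B10
import Pool.Agent.Work.MP_e3f5d9_al.B11
import Pool.Agent.Work.MP_e3f5d9_al.B12Ex

/-!
# Assembly of the stage 0 theorem
-/

set_option autoImplicit false

open Finset

namespace R4

/-- Rigid systems have subexponential growth. -/
theorem subexp_of_rigid {L : Type} [Fintype L] [DecidableEq L] (D : KS L)
    {E : Finset (Finset L)} (hE : D.Rigid E) : SubexpGam D :=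
  b8 D (b1 D) (b1p L) (b3 D) (b4 D (b1 D) (b1p L) (b2a D) (b3 D))
    (b5 D (b1 D) (b1p L) (b2b D) (b2c D) (b2d D) (b3 D)) (b6c D) b7 E hE

/-- Systems with colliding letters of finite order have superpolynomial growth. -/
theorem superpoly_of_FO {L : Type} [Fintype L] [DecidableEq L] (D : KS L)
    (h : ∀ p q, p ≠ q → D.nxt p = D.nxt q → D.FO p q) : Superpoly D.gam := by
  obtain ⟨C, I, hCI⟩ := b9b D (b9a D (b1 D) h)
  exact b9d D.gam C I (b9c D).1 (b9c D).2 hCI

/-- The stage 0 theorem. -/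
theorem growth_of_rigid {L : Type} [Fintype L] [DecidableEq L] (D : KS L)
    {E : Finset (Finset L)} (hE : D.Rigid E)
    (h : ∀ p q, p ≠ q → D.nxt p = D.nxt q → D.FO p q) : IntermediateGrowth D.grp :=
  b10 D (b1 D) (subexp_of_rigid D hE) (superpoly_of_FO D h)

/-- The stage 0 theorem for kneading data. -/
theorem growth_of_stage0 {v w : List Bool} (h : Stage0 v w) :
    ∃ D : KS (Fin (v.length + w.length)), D.o.1 = 0 ∧ D.nxt = ksNxt v w ∧ D.side = ksSide v w ∧
      IntermediateGrowth D.grp := by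
  obtain ⟨D, h0, hn, hs⟩ := b11 v w h.1
  obtain ⟨⟨E, hE⟩, hFO⟩ := h.2 D h0 hn hs
  exact ⟨D, h0, hn, hs, growth_of_rigid D hE hFO⟩

theorem growth_one (a b : ℕ) (hb : 1 ≤ b) :
    ∃ D : KS (Fin (([true] : List Bool).length + (Ex.w1 a b).length)), D.o.1 = 0 ∧
      D.nxt = ksNxt [true] (Ex.w1 a b) ∧ D.side = ksSide [true] (Ex.w1 a b) ∧
      IntermediateGrowth D.grp :=
  growth_of_stage0 (Ex.stage0_one a b hb)

theorem growth_two (k : ℕ) :
    ∃ D : KS (Fin ((Ex.v2 k).length + ([false] : List Bool).length)), D.o.1 = 0 ∧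
      D.nxt = ksNxt (Ex.v2 k) [false] ∧ D.side = ksSide (Ex.v2 k) [false] ∧
      IntermediateGrowth D.grp :=
  growth_of_stage0 (Ex.stage0_two k)

end R4
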