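import Pool.Agent.Work.MP_e3f5d9_al.T0

/-!
# Interface of the general theorem: perfect words

A UT word is cut into boundedly many pieces on which all local rules hold *exactly*: every complete
run of a cut is seen by the child which stands on the right side (`Clean`), it is non-trivial after
reduction (`RClean`), and monotone pairs alternate exactly (`Alt`).

* PB1 `CleanCount`, PB2 `RCleanCount`, PB3 `AltCount`: disjoint violations cost runs (exact).
* PB4 `ViolBound`: in a node of a UT word the number of disjoint violations is bounded, by a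
  constant that does not depend on `k` (PB1-PB3 with `UTBasics`, `TClosure`).
* PB5 `CutPerf`: greedy cut (maximal perfect prefix, next letter, ...; single letters are perfect;
  fix a node `u` and a type of violation, the pieces `p_i x_i` which are bad there give disjoint
  violating factors of `secL u F`, `Factor` lemma for the sections of the pieces).
* PB6 `RLPerf`: if the elements of perfect nodes are few, the growth is subexponential.
-/

set_option autoImplicit false

open Finset

namespace R4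

section words

variable {L : Type} [DecidableEq L]

/-- Every complete run of `A` or of its complement is non-trivial after reduction. -/
def RClean (A : Finset L) (W : List L) : Prop :=
  ∀ (x : L) (R : List L) (y : L), (x :: (R ++ [y])) <:+: W → R ≠ [] →
    ((x ∉ A ∧ y ∉ A ∧ ∀ j ∈ R, j ∈ A) ∨ (x ∈ A ∧ y ∈ A ∧ ∀ j ∈ R, j ∉ A)) → red R ≠ []

/-- Every complete run of the complement of `X` contains a letter of `Y`. -/
def Alt (X Y : Finset L) (W : List L) : Prop :=
  ∀ (x : L) (R : List L) (y : L), (x :: (R ++ [y])) <:+: W → x ∈ X → y ∈ X → R ≠ [] →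
    (∀ j ∈ R, j ∉ X) → ∃ j ∈ R, j ∈ Y

end words

namespace KS

variable {L : Type} [Fintype L] [DecidableEq L] (D : KS L)

/-- Every complete run of `A` is seen on the side `t`; two runs of `A` which are read on the side
`t` by the same child are separated in its word. (`D.sec t R` is what the child that stands on the
side `t` at the beginning of `R` reads.) -/
def Clean (A : Finset L) (t : Bool) (W : List L) : Prop :=
  (∀ (x : L) (R : List L) (y : L), (x :: (R ++ [y])) <:+: W → x ∉ A → y ∉ A → R ≠ [] →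
    (∀ j ∈ R, j ∈ A) → D.sec t R ≠ []) ∧
  (∀ (x : L) (R : List L) (y : L), (x :: (R ++ [y])) <:+: W → x ∈ A → y ∈ A →
    D.pre t x ≠ none → D.pre t y ≠ none → Even (R.count D.o) → (∃ j ∈ R, j ∉ A) → D.sec t R ≠ [])

/-- Full classes of cuts. -/
structure Full (E : Finset (Finset L)) : Prop extends D.Mixing E where
  closed : ∀ A ∈ E, ∀ t, (D.lp t A).Nonempty → D.nm (D.lp t A) ∈ E
  lam : ∀ A ∈ E, ∀ B ∈ E, Disjoint A B ∨ A ⊆ B ∨ B ⊆ A
  sep : ∀ i j, i ≠ j → ∃ A ∈ E, ¬ (i ∈ A ↔ j ∈ A)

/-- Perfect top words: all nodes of level at most `k` are clean, the nodes of the levels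
`d, ..., k` alternate. -/
structure Perf (E : Finset (Finset L)) (n0 θ d k : ℕ) (F : List L) : Prop where
  ut : D.UT E n0 θ (k + d) F
  rclean : ∀ u : List Bool, u.length ≤ k → ∀ A ∈ E, RClean A (D.secL u F)
  clean : ∀ u : List Bool, u.length ≤ k → ∀ A ∈ E, ∀ t, (D.lp t A).Nonempty →
    D.Clean A t (D.secL u F)
  alt : ∀ u : List Bool, d ≤ u.length → u.length ≤ k → ∀ X Y, D.Mono E X Y → D.Side E X →
    Alt X Y (D.secL u F)

/-- Perfect nodes: at least `k` perfect generations above and below. -/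
def PNode (E : Finset (Finset L)) (n0 θ d k : ℕ) (W : List L) : Prop :=
  ∃ (F : List L) (u : List Bool), k + d ≤ u.length ∧ D.Perf E n0 θ d (u.length + k) F ∧
    W = D.secL u F

/-- The size of a node. -/
def size (W : List L) : ℕ := runs ({D.o}ᶜ : Finset L) W

/-- The feature `Φ` of perfect nodes takes subexponentially many values. -/
def Known {β : Type} (E : Finset (Finset L)) (n0 θ d : ℕ) (Φ : List L → β) : Prop :=
  ∀ ε : ℝ, 0 < ε → ∃ (k : ℕ) (C : ℝ), ∀ n : ℕ,
    (Φ '' {W | D.PNode E n0 θ d k W ∧ D.size W ≤ n}).Finite ∧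
    ((Φ '' {W | D.PNode E n0 θ d k W ∧ D.size W ≤ n}).ncard : ℝ) ≤ C * Real.exp (ε * n)

end KS

/-- PB1. Disjoint violations of `Clean` cost crossings. -/
def CleanCount {L : Type} [Fintype L] [DecidableEq L] (D : KS L) : Prop :=
  ∀ (A : Finset L) (t : Bool) (Ws : List (List L)), D.o ∉ A → (∀ V ∈ Ws, ¬ D.Clean A t V) →
    Ws.length + (runs (D.lp t A) (D.sec false Ws.flatten) +
      runs (D.lp t A) (D.sec true Ws.flatten)) ≤ runs A Ws.flatten

/-- PB2. Disjoint violations of `RClean` are lost by the reduction. -/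
def RCleanCount (L : Type) [Fintype L] [DecidableEq L] : Prop :=
  ∀ (A : Finset L) (Ws : List (List L)), (∀ V ∈ Ws, ¬ RClean A V) →
    Ws.length + runs A (red Ws.flatten) ≤ runs A Ws.flatten

/-- PB3. Disjoint violations of `Alt`. -/
def AltCount (L : Type) [Fintype L] [DecidableEq L] : Prop :=
  ∀ (X Y : Finset L) (Ws : List (List L)), Disjoint X Y → (∀ V ∈ Ws, ¬ Alt X Y V) →
    Ws.length + blk X Y Ws.flatten ≤ runs X Ws.flatten + 1

/-- PB4. The number of disjoint violations in a node of a UT word is bounded. -/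
def ViolBound {L : Type} [Fintype L] [DecidableEq L] (D : KS L) : Prop :=
  ∀ E, D.Full E → ∀ n0 θ, D.Exp E n0 → ∃ c d : ℕ, ∀ k F, D.UT E n0 θ (k + d) F →
    ∀ u : List Bool, u.length ≤ k → ∀ Ws : List (List L), Ws.flatten <:+: D.secL u F →
    (∀ A ∈ E, (∀ V ∈ Ws, ¬ RClean A V) → Ws.length ≤ c) ∧
    (∀ A ∈ E, ∀ t, (D.lp t A).Nonempty → (∀ V ∈ Ws, ¬ D.Clean A t V) → Ws.length ≤ c) ∧
    (∀ X Y, D.Mono E X Y → D.Side E X → d ≤ u.length → (∀ V ∈ Ws, ¬ Alt X Y V) → Ws.length ≤ c)

/-- PB5. UT words are products of boundedly many perfect words. -/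
def CutPerf {L : Type} [Fintype L] [DecidableEq L] (D : KS L) : Prop :=
  ∀ E, D.Full E → ∀ n0 θ, D.Exp E n0 → ∃ d : ℕ, 0 < d ∧ ∀ k, ∃ c : ℕ, ∀ F,
    D.UT E n0 θ (k + d) F →
    ∃ Fs : List (List L), Fs.flatten = F ∧ Fs.length ≤ c ∧ ∀ V ∈ Fs, D.Perf E n0 θ d k V

/-- PB6. Reduction of the growth to perfect nodes. -/
def RLPerf {L : Type} [Fintype L] [DecidableEq L] (D : KS L) : Prop :=
  ∀ E, D.Full E → ∀ n0, D.Exp E n0 → ∃ d : ℕ, 0 < d ∧
    (D.Known E n0 (2 ^ (n0 + 2)) d D.ev → SubexpGam D)

end R4
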