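import Pool.Agent.Work.MP_e3f5d9_al.P0
import Pool.Agent.Work.MP_e3f5d9_al.CY0

/-!
# Interface of the general theorem: token words, determined features, the exact lift

Everything is about perfect nodes (`P0.lean`).  A class function `c : L → Option β` gives the word
`vis c none W` of the visits: the classes of the maximal runs, letters with `c x = none` separate
and are dropped.  A vertex is a cut `A` of `E`; its star word is the word of visits to the maximal
cuts below `A` (tokens `some B`) and to the complement of `A` (token `none`); its letter `ann A` is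
the word of the visits to `A` and to `o`.

`Det S Ψ Φ`: on the set `S` the feature `Φ` is determined by `Ψ` up to finite information.
`S.K X Y` (`X`, `Y` disjoint): the word of the visits to `X` and to `Y` is known.

Blocks:
* PN1 `NodeBasics`; PN2 `KnownCalc`; PN3 `Omit` (counting lemma: one descendant may be omitted);
* PV1 `VisBasics`; PV2 `VisGlue`; PV3 `LiftNear` (automaton induction); PV4 `TkDet`;
* the rules of the pair calculus (`PairRules`), one block each: PRm `mono`, PRg `glue`, PRl `lift` and
  `lift'`, PRc `cycle`, PRa `alpha`;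
* PF `RuleFin`: if all letters are leaves and all pairs of letters are known, then the growth is
  subexponential (with PB6).

Notes.
PN2: `N k` is decreasing, `size` of a child is half of the size of the parent up to a constant, so the
number of values of `Φ (sec b P)` for `size (sec b P) ≤ n` is at most the number of values of the
parents of size `≤ 2 n + c`.
PN3: `a k n` = number of values on `N k`, size `≤ n`; `a (k + r) n ≤ (known) * N * ∏_{x ≠ w} a k (n / 2 ^ r + c)`,
i.e. the rates satisfy `h (k + r) ≤ ε + (1 - 2 ^ (-r)) h k`; `h 0 ≤ log B`.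
PV3: parity of the child: the child `a` stands on the side `a xor q` after `q` letters `o`.  Let `V` be a
visit to `A` with parity `q = a xor t` (an owned visit).  Its complete runs of classes are seen
(`Clean` for the classes), equal consecutive tokens are separated by a letter without class (second
part of `Clean` for the class), between two owned visits the child reads a letter outside of
`lp t A` (second part of `Clean` for `A`), an owned visit without class is seen (first part for `A`).
The errors occur only at the first and at the last owned visit: at most two tokens at each end.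
PV4: complete `o`-runs have odd length (`RClean {o}ᶜ`); the first run is finite information.
PRl: `SameCls` of the classes of the child with `kcl`; `TkDet`; `LiftNear` gives `Det` up to finite
information (the ends); classes without lift are dropped first (`VisBasics.filter`); `KnownCalc.kid`.
PRc: `Omit` with `r = d'` from `cycleLemma2` (CY2), `W x i` the star word at `y_i` of the node
`secL x P`, `B x i` the list of the owners of its blocks (parity of the visit to `A_i` xor `t`; if the
word starts outside of `A_i` then the first block is the single letter `o i` and gets the owner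
different from the next one; last empty block alike), garbage `gar` from `LiftNear` as finite
information, owners from `S.K A_i {o}`.
-/

set_option autoImplicit false

open Finset

namespace R4

section tokens

variable {L β : Type} [DecidableEq β]

/-- The word of the visits. The first argument is the class function, the second one the class of
the letter before. -/
def vis (c : L → Option β) : Option β → List L → List β
  | _, [] => []
  | p, x :: w => match c x with
    | none => vis c none w
    | some b => if p = some b then vis c (some b) w else b :: vis c (some b) w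

/-- The visits with the parity of the number of letters `o` before the first letter of the
visit. -/
def tk [DecidableEq L] (o : L) (c : L → Option β) : Option β → Bool → List L → List (β × Bool)
  | _, _, [] => []
  | p, q, x :: w => match c x with
    | none => tk o c none (xor q (decide (x = o))) w
    | some b => if p = some b then tk o c (some b) (xor q (decide (x = o))) w
        else (b, q) :: tk o c (some b) (xor q (decide (x = o))) w

/-- Two lists are equal up to at most `k` entries at each end. -/
def Near (k : ℕ) (l l' : List β) : Prop :=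
  ∃ a b a' b' m : List β, l = a ++ m ++ b ∧ l' = a' ++ m ++ b' ∧
    a.length ≤ k ∧ b.length ≤ k ∧ a'.length ≤ k ∧ b'.length ≤ k

/-- The class functions `c` and `c'` have the same classes. -/
def SameCls {γ : Type} (c : L → Option β) (c' : L → Option γ) : Prop :=
  (∀ i, c i = none ↔ c' i = none) ∧ ∀ i j, c i = c j ↔ c' i = c' j

/-- The feature `Φ` is determined by `Ψ` up to finite information. -/
def Det {α γ : Type} (S : Set (List L)) (Ψ : List L → α) (Φ : List L → γ) : Prop :=
  ∃ (N : ℕ) (ρ : List L → Fin N), ∀ W ∈ S, ∀ W' ∈ S, Ψ W = Ψ W' → ρ W = ρ W' → Φ W = Φ W'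

variable [DecidableEq L]

/-- Outside `A` the classes of `c`, one class (`none`) for `A`. -/
def glL (A : Finset L) (c : L → Option β) (x : L) : Option (Option β) :=
  if x ∈ A then some none else (c x).map some

/-- Inside `A` the classes of `c`, one class (`none`) for the complement. -/
def glR (A : Finset L) (c : L → Option β) (x : L) : Option (Option β) :=
  if x ∈ A then (c x).map some else some none

/-- The letters of the class `b`. -/
def cset [Fintype L] (c : L → Option β) (b : β) : Finset L := univ.filter fun x => c x = some b

end tokens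

/-- The general setting. -/
structure Setup (L : Type) [Fintype L] [DecidableEq L] where
  D : KS L
  E : Finset (Finset L)
  n0 : ℕ
  θ : ℕ
  d : ℕ
  full : D.Full E
  exp : D.Exp E n0
  dpos : 0 < d

/-- The class function of the pair `X`, `Y`. -/
def pc {L : Type} [DecidableEq L] (X Y : Finset L) (x : L) : Option Bool :=
  if x ∈ X then some true else if x ∈ Y then some false else none

namespace Setup

variable {L : Type} [Fintype L] [DecidableEq L] (S : Setup L)

/-- Perfect nodes. -/
def N (k : ℕ) : Set (List L) := {W | S.D.PNode S.E S.n0 S.θ S.d k W}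

/-- Known features. -/
def Known {β : Type} (Φ : List L → β) : Prop := S.D.Known S.E S.n0 S.θ S.d Φ

/-- The visits to `X` and to `Y` are known. -/
def K (X Y : Finset L) : Prop := S.Known fun W => vis (pc X Y) none W

/-- The classes of the children on the side `t`, induced by the classes below the cut `A`. -/
def kcl {β : Type} (t : Bool) (A : Finset L) (c : L → Option β) (i : L) : Option (Option β) :=
  if S.D.side i = t ∧ S.D.nxt i ∈ A then (c (S.D.nxt i)).map some else some none

end Setup

/-- PN1. -/
structure NodeBasics {L : Type} [Fintype L] [DecidableEq L] (S : Setup L) : Prop where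
  anti : ∀ k, S.N (k + 1) ⊆ S.N k
  kid : ∀ k, ∀ W ∈ S.N (k + 1), ∀ b, S.D.sec b W ∈ S.N k
  par : ∀ k, ∀ W ∈ S.N (k + 1), ∃ P ∈ S.N k, ∃ b, W = S.D.sec b P
  clean : ∀ k, ∀ W ∈ S.N k, ∀ A ∈ S.E, ∀ t, (S.D.lp t A).Nonempty → S.D.Clean A t W
  rclean : ∀ k, ∀ W ∈ S.N k, ∀ A ∈ S.E, RClean A W
  alt : ∀ k, ∀ W ∈ S.N k, ∀ X Y, S.D.Mono S.E X Y → S.D.Side S.E X → Alt X Y W
  tight : ∃ c : ℕ, ∀ W ∈ S.N 0, ∀ W', W' <:+: W → ∀ A ∈ S.E, ∀ B ∈ S.E,
    runs A W' ≤ runs B W' + c
  size_kid : ∃ c : ℕ, ∀ W ∈ S.N 0, ∀ b, 2 * S.D.size (S.D.sec b W) ≤ S.D.size W + c ∧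
    S.D.size W ≤ 2 * S.D.size (S.D.sec b W) + c

/-- PN2. The calculus of known features. -/
structure KnownCalc {L : Type} [Fintype L] [DecidableEq L] (S : Setup L) : Prop where
  det : ∀ {α β : Type} (Ψ : List L → α) (Φ : List L → β), S.Known Ψ →
    (∃ k, Det (S.N k) Ψ Φ) → S.Known Φ
  prod : ∀ {α β : Type} (Ψ : List L → α) (Φ : List L → β), S.Known Ψ → S.Known Φ →
    S.Known fun W => (Ψ W, Φ W)
  pi : ∀ {ι : Type} [Finite ι] {β : ι → Type} (Φ : ∀ i, List L → β i), (∀ i, S.Known (Φ i)) →
    S.Known fun W i => Φ i W
  kid : ∀ {α β : Type} (Ψ : List L → α) (Φ : List L → β), S.Known Ψ →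
    (∃ k, ∀ b, Det (S.N k) Ψ fun P => Φ (S.D.sec b P)) → S.Known Φ
  down : ∀ {β : Type} (Φ : List L → β) (b : Bool), S.Known Φ → S.Known fun P => Φ (S.D.sec b P)

/-- PN3. The counting lemma: a feature that is determined by known features and by the features of
all descendants of depth `r` except one is known. -/
def Omit {L : Type} [Fintype L] [DecidableEq L] (S : Setup L) : Prop :=
  ∀ {α β : Type} (κ : List L → α) (Φ : List L → β) (r B : ℕ), 0 < r → S.Known κ →
    (∀ n, (Φ '' {W | W ∈ S.N 0 ∧ S.D.size W ≤ n}).Finite ∧
      (Φ '' {W | W ∈ S.N 0 ∧ S.D.size W ≤ n}).ncard ≤ B ^ (n + 1)) →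
    (∃ k, Det (S.N k) (fun P => (κ P, fun x : {x : List Bool // x.length = r ∧
      x ≠ List.replicate r false} => Φ (S.D.secL x.1 P))) Φ) → S.Known Φ

/-- PV1. -/
structure VisBasics (L : Type) [Fintype L] [DecidableEq L] : Prop where
  filter : ∀ {β : Type} [DecidableEq β] (c : L → Option β) (p : β → Bool) (W : List L),
    vis (fun x => (c x).filter p) none W = (vis c none W).filter p
  same : ∀ {β γ : Type} [DecidableEq β] [DecidableEq γ] (c : L → Option β) (c' : L → Option γ),
    SameCls c c' → ∃ e : List β → List γ, ∀ W, vis c' none W = e (vis c none W)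
  chain : ∀ {β : Type} [DecidableEq β] (c : L → Option β), (∀ x, c x ≠ none) → ∀ W,
    (vis c none W).IsChain (· ≠ ·)
  length : ∀ {β : Type} [DecidableEq β] [Fintype β] (c : L → Option β) (W : List L),
    (vis c none W).length = ∑ b, runs (cset c b) W
  tk_fst : ∀ {β : Type} [DecidableEq β] (o : L) (c : L → Option β) (p : Option β) (q : Bool)
    (W : List L), (tk o c p q W).map Prod.fst = vis c p W
  alt : ∀ (X Y : Finset L) (W : List L), Disjoint X Y → Alt X Y W → Alt Y X W →
    (vis (fun x => if x ∈ X then some true else if x ∈ Y then some false else none) none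
      W).IsChain (· ≠ ·)

/-- PV2. Gluing of the visits inside and outside of a cut. -/
def VisGlue (L : Type) [DecidableEq L] : Prop :=
  ∀ {β : Type} [DecidableEq β] (A : Finset L) (c : L → Option β),
    (∀ x ∈ A, ∀ y, y ∉ A → c x = c y → c x = none) →
    ∃ G : Bool → List (Option β) → List (Option β) → List β, ∀ W,
      vis c none W = G (W.head?.elim false fun x => decide (x ∈ A))
        (vis (glL A c) none W) (vis (glR A c) none W)

/-- PV3. The exact lift: the visits of the child `a` at a vertex are the visits of the parent at the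
image of the vertex which happen while the child stands on the side `t`. -/
def LiftNear {L : Type} [Fintype L] [DecidableEq L] (S : Setup L) : Prop :=
  ∀ {β : Type} [DecidableEq β] (A : Finset L) (t : Bool) (c : L → Option β) (P : List L),
    S.D.o ∉ A → (∀ x, x ∉ A → c x = none) → S.D.Clean A t P →
    (∀ b, (cset c b).Nonempty → S.D.Clean (cset c b) t P) → ∀ a : Bool,
    Near 2 (vis (S.kcl t A c) none (S.D.sec a P))
      (((tk S.D.o (glR A c) none false P).filter fun z => z.2 == xor a t).map Prod.fst)

/-- PV4. The parities are determined by the visits to `A` and `o`. -/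
def TkDet {L : Type} [Fintype L] [DecidableEq L] (S : Setup L) : Prop :=
  ∀ {β : Type} [DecidableEq β] (A : Finset L) (c : L → Option β), S.D.o ∉ A →
    (∀ x, x ∉ A → c x = none) →
    Det (S.N 0) (fun W => (vis (glR A c) none W, vis (pc A {S.D.o}) none W))
      (fun W => tk S.D.o (glR A c) none false W)

/-- The classes at `α`: `kk i` is the number of leading sides `true` of the itinerary of `i`; `N` is
the set of the letters `i ≠ α` (the fixed point `α` itself may be a letter). -/
structure KS.IsKk {L : Type} [Fintype L] [DecidableEq L] (D : KS L) (N : Finset L) (kk : L → ℕ) :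
    Prop where
  oN : D.o ∈ N
  mem_false : ∀ i, D.side i = false → i ∈ N
  mem_true : ∀ i, D.side i = true → (i ∈ N ↔ D.nxt i ∈ N)
  zero : ∀ i, D.side i = false → kk i = 0
  succ : ∀ i ∈ N, D.side i = true → kk i = kk (D.nxt i) + 1
  ho : D.side D.o = true

/-- The rules of the pair calculus. The relation `K` is meant for disjoint sets. -/
structure PairRules {L : Type} [Fintype L] [DecidableEq L] (D : KS L) (E : Finset (Finset L))
    (K : Finset L → Finset L → Prop) : Prop where
  symm : ∀ X Y, Disjoint X Y → K X Y → K Y X
  mono : ∀ X Y, D.Mono E X Y → D.Side E X → D.Side E Y → K X Y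
  glue : ∀ X Y A, X ⊆ Aᶜ → Y ⊆ A → K X A → K Aᶜ Y → K X Y
  lift : ∀ X ∈ E, ∀ Y ∈ E, Disjoint X Y → K X Y → K X {D.o} → K Y {D.o} →
    ∀ t, (D.lp t X).Nonempty → (D.lp t Y).Nonempty → K (D.lp t X) (D.lp t Y)
  lift' : ∀ X ∈ E, ∀ A ∈ E, X ⊆ A → K X Aᶜ → K A {D.o} →
    ∀ t, (D.lp t X).Nonempty → K (D.lp t X) (D.lp t A)ᶜ
  alpha : ∀ N kk, D.IsKk N kk → ∀ a b, ¬ a ≡ b [MOD kk D.o + 1] →
    K (N.filter fun i => kk D.o + 1 ∣ kk i + a) (N.filter fun i => kk D.o + 1 ∣ kk i + b)
  cycle : ∀ {ι G : Type} [Fintype ι] [Fintype G] [DecidableEq ι] [DecidableEq G]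
    (C : Cy.CycData ι G) (X : G → Finset L) (t : ι → Bool),
    (∀ g g', g ≠ g' → C.pt g = C.pt g' → Disjoint (X g) (X g')) →
    (∀ g, (X g).Nonempty) → (∀ g, D.Side E (X g)) → (∀ i, D.o ∈ X (C.o i)) →
    (∀ g, g ≠ C.z (C.pt g) → X g = D.lp (t (C.pt g)) (X (C.f g))) →
    (∀ i, X (C.z i) = (D.lp (t i) (X (C.o (C.σ i)))ᶜ)ᶜ) →
    (∀ i, K (X (C.o i))ᶜ {D.o}) →
    D.Mono E {D.o} (X (C.o C.top))ᶜ → D.Mono E (X (C.z C.top)) (X (C.o C.top)) →
    (∀ g ∈ C.K, ∀ g' ∈ C.K, g ≠ g' → C.pt g = C.pt g' → K (X g) (X g')) →
    ∀ g g', g ≠ g' → C.pt g = C.pt g' → K (X g) (X g')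

/-- Soundness of the pair calculus. -/
def Soundness {L : Type} [Fintype L] [DecidableEq L] (S : Setup L) : Prop :=
  PairRules S.D S.E S.K

/-- PF. The end for data whose letters are leaves. -/
def RuleFin {L : Type} [Fintype L] [DecidableEq L] (S : Setup L) : Prop :=
  (∀ i, i ≠ S.D.o → {i} ∈ S.E) → (∀ i j, i ≠ j → S.K {i} {j}) → S.Known S.D.ev

end R4
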