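import Pool.Agent.Work.MP_e3f5d9_al.P0
import Pool.Agent.Work.MP_e3f5d9_al.B2Aux

/-!
# R4, block PB1: disjoint violations of `Clean` cost crossings

`sv p g h W` is the exact loss in the crossing law: `p` says whether the parent is inside an
`A`-run, `g` and `h` are the flags of the children which stand on the side `t` and on the other
side.
-/

set_option autoImplicit false
set_option linter.unusedSectionVars false

open Finset

namespace R4

namespace PB1Aux

open B2Aux

variable {L : Type} [Fintype L] [DecidableEq L] (D : KS L)

/-- Credit for an `A`-run which has not been used by a child. -/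
def cr (p g : Bool) : ℕ := if p && !g then 1 else 0

/-- The loss. -/
noncomputable def sv (A : Finset L) (t : Bool) : Bool → Bool → Bool → List L → ℕ
  | p, g, _, [] => cr p g
  | p, g, h, j :: W =>
    if j = D.o then cr p g + sv A t false h g W
    else if j ∈ A then (if !p && g then 1 else 0) +
      sv A t true (g || ex D t j) (h && !(ex D (!t) j)) W
    else cr p g + sv A t false (g && !(ex D t j)) (h && !(ex D (!t) j)) W

/-- The exact identity. -/
lemma identity {A : Finset L} (hA : D.o ∉ A) (t : Bool) : ∀ (W : List L) (p g h : Bool),
    (runsAux (D.lp t A) g (D.sec t W) + runsAux (D.lp t A) h (D.sec (!t) W)) + sv D A t p g h W =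
      runsAux A p W + cr p g := by
  intro W
  induction W with
  | nil => intro p g h; simp [KS.sec, runsAux, sv]
  | cons j W ih =>
    intro p g h
    by_cases hj : j = D.o
    · subst hj
      rw [B2Aux.sec_o, B2Aux.sec_o, runsAux_out hA, Bool.not_not]
      have := ih false h g
      simp only [sv, if_true]
      have h0 : cr false h = 0 := by simp [cr]
      omega
    · -- the child on the other side
      have hoth : runsAux (D.lp t A) h (D.sec (!t) (j :: W)) =
          runsAux (D.lp t A) (h && !(ex D (!t) j)) (D.sec (!t) W) := by
        rcases hp : D.pre (!t) j with _ | i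
        · rw [B2Aux.sec_none D hj hp]; simp [ex, hp]
        · rw [B2Aux.sec_some D hj hp, runsAux_out (B2Aux.not_mem_lp D hp)]; simp [ex, hp]
      rw [hoth]
      by_cases hjA : j ∈ A
      · simp only [sv, if_neg hj, if_pos hjA]
        rw [runsAux_in hjA]
        rcases hp : D.pre t j with _ | i
        · rw [B2Aux.sec_none D hj hp]
          have h2 := ih true g (h && !(ex D (!t) j))
          have h3 : ex D t j = false := by simp [ex, hp]
          rw [h3]
          simp only [Bool.or_false]
          cases p <;> cases g <;> simp [cr, nu] at h2 ⊢ <;> omega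
        · rw [B2Aux.sec_some D hj hp, runsAux_in ((B2Aux.mem_lp D hp).2 hjA)]
          have h2 := ih true true (h && !(ex D (!t) j))
          have h3 : ex D t j = true := by simp [ex, hp]
          rw [h3]
          simp only [Bool.or_true]
          cases p <;> cases g <;> simp [cr, nu] at h2 ⊢ <;> omega
      · simp only [sv, if_neg hj, if_neg hjA]
        rw [runsAux_out hjA]
        rcases hp : D.pre t j with _ | i
        · rw [B2Aux.sec_none D hj hp]
          have h2 := ih false g (h && !(ex D (!t) j))
          have h3 : ex D t j = false := by simp [ex, hp]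
          rw [h3]
          have h4 : cr false g = 0 := by simp [cr]
          simp only [Bool.not_false, Bool.and_true]
          omega
        · rw [B2Aux.sec_some D hj hp, runsAux_out (fun h5 => hjA ((B2Aux.mem_lp D hp).1 h5))]
          have h2 := ih false false (h && !(ex D (!t) j))
          have h3 : ex D t j = true := by simp [ex, hp]
          rw [h3]
          have h4 : cr false false = 0 := by simp [cr]
          simp only [Bool.not_true, Bool.and_false]
          omega

/-- Lower bound for all states. -/
def Lo (A : Finset L) (t : Bool) (n : ℕ) (W : List L) : Prop := ∀ p g h, n ≤ sv D A t p g h W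

lemma Lo.skip {A : Finset L} {t : Bool} {n : ℕ} {W : List L} (hW : Lo D A t n W) :
    ∀ U : List L, Lo D A t n (U ++ W) := by
  intro U
  induction U with
  | nil => exact hW
  | cons j U ih =>
    intro p g h
    rw [List.cons_append]
    simp only [sv]
    split_ifs
    · exact (ih _ _ _).trans (Nat.le_add_left _ _)
    · exact (ih _ _ _).trans (Nat.le_add_left _ _)
    · exact (ih _ _ _).trans (Nat.le_add_left _ _)
    · exact (ih _ _ _).trans (Nat.le_add_left _ _)

/-- Reading nothing on the side `t`. -/
lemma sec_cons_nil {t : Bool} {j : L} {R : List L} (hj : j ≠ D.o) (h : D.sec t (j :: R) = []) :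
    ex D t j = false ∧ D.sec t R = [] := by
  rcases hp : D.pre t j with _ | i
  · rw [B2Aux.sec_none D hj hp] at h
    exact ⟨by simp [ex, hp], h⟩
  · rw [B2Aux.sec_some D hj hp] at h
    exact absurd h (by simp)

/-- An unseen run of `A`. -/
lemma unseen {A : Finset L} (hA : D.o ∉ A) {t : Bool} {n : ℕ} {y : L} (hy : y ∉ A) {W : List L}
    (hW : Lo D A t n W) : ∀ (R : List L), (∀ j ∈ R, j ∈ A) → D.sec t R = [] → ∀ (g h : Bool),
    n + cr true g ≤ sv D A t true g h (R ++ y :: W) := by
  intro R
  induction R with
  | nil =>
    intro _ _ g h
    simp only [List.nil_append, sv, if_neg hy]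
    split_ifs
    · have := hW false h g; omega
    · have := hW false (g && !(ex D t y)) (h && !(ex D (!t) y)); omega
  | cons j R ih =>
    intro h1 h2 g h
    have hjA := h1 j List.mem_cons_self
    have hj : j ≠ D.o := fun e => hA (e ▸ hjA)
    obtain ⟨h3, h4⟩ := sec_cons_nil D hj h2
    simp only [List.cons_append, sv, if_neg hj, if_pos hjA, h3, Bool.or_false]
    have := ih (fun i hi => h1 i (List.mem_cons_of_mem _ hi)) h4 g (h && !(ex D (!t) j))
    omega

lemma unseen_run {A : Finset L} (hA : D.o ∉ A) {t : Bool} {n : ℕ} {y : L} (hy : y ∉ A) {W : List L}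
    (hW : Lo D A t n W) (R : List L) (hR : R ≠ []) (h1 : ∀ j ∈ R, j ∈ A) (h2 : D.sec t R = [])
    (g h : Bool) : n + 1 ≤ sv D A t false g h (R ++ y :: W) := by
  obtain ⟨j, R, rfl⟩ := List.exists_cons_of_ne_nil hR
  have hjA := h1 j List.mem_cons_self
  have hj : j ≠ D.o := fun e => hA (e ▸ hjA)
  obtain ⟨h3, h4⟩ := sec_cons_nil D hj h2
  simp only [List.cons_append, sv, if_neg hj, if_pos hjA, h3, Bool.or_false]
  have := unseen D hA hy hW R (fun i hi => h1 i (List.mem_cons_of_mem _ hi)) h4 g
    (h && !(ex D (!t) j))
  cases g <;> simp [cr] at this ⊢ <;> omega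

/-- Two runs of `A` which are not separated for the child on the side `t`. -/
lemma unsep {A : Finset L} (hA : D.o ∉ A) {t : Bool} {n : ℕ} {y : L} (hy : y ∈ A) {W : List L}
    (hW : Lo D A t n W) : ∀ (R : List L),
    (D.sec t R = [] → Even (R.count D.o) → ∀ p h, (p = false ∨ ∃ j ∈ R, j ∉ A) →
      n + 1 ≤ sv D A t p true h (R ++ y :: W)) ∧
    (D.sec (!t) R = [] → ¬ Even (R.count D.o) → ∀ p g,
      n + 1 ≤ sv D A t p g true (R ++ y :: W)) := by
  have hyo : y ≠ D.o := fun e => hA (e ▸ hy)
  intro R
  induction R with
  | nil =>
    refine ⟨fun _ _ p h hp => ?_, fun _ h0 => absurd (by simp) h0⟩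
    have hp' : p = false := by
      rcases hp with hp | ⟨j, hj, -⟩
      · exact hp
      · simp at hj
    subst hp'
    simp only [List.nil_append, sv, if_neg hyo, if_pos hy]
    have := hW true (true || ex D t y) (h && !(ex D (!t) y))
    simp
    simp at this
    omega
  | cons j R ih =>
    obtain ⟨ih1, ih2⟩ := ih
    by_cases hj : j = D.o
    · subst hj
      refine ⟨fun h1 h2 p h _ => ?_, fun h1 h2 p g => ?_⟩
      · rw [B2Aux.sec_o] at h1
        rw [List.count_cons_self, Nat.even_add_one] at h2
        simp only [List.cons_append, sv, if_true]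
        have := ih2 h1 h2 false h
        omega
      · rw [B2Aux.sec_o, Bool.not_not] at h1
        rw [List.count_cons_self, Nat.even_add_one, not_not] at h2
        simp only [List.cons_append, sv, if_true]
        have := ih1 h1 h2 false g (Or.inl rfl)
        omega
    · refine ⟨fun h1 h2 p h hp => ?_, fun h1 h2 p g => ?_⟩
      · obtain ⟨h3, h4⟩ := sec_cons_nil D hj h1
        rw [List.count_cons_of_ne hj] at h2
        by_cases hjA : j ∈ A
        · simp only [List.cons_append, sv, if_neg hj, if_pos hjA, h3, Bool.or_false]
          cases p with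
          | false =>
            have := (Lo.skip D hW (R ++ [y])) true true (h && !(ex D (!t) j))
            rw [List.append_assoc] at this
            simp only [List.singleton_append] at this
            simp
            omega
          | true =>
            have := ih1 h4 h2 true (h && !(ex D (!t) j)) (Or.inr (by
              rcases hp with hp | ⟨i, hi, hiA⟩
              · simp at hp
              · rcases List.mem_cons.1 hi with rfl | hi
                · exact absurd hjA hiA
                · exact ⟨i, hi, hiA⟩))
            omega
        · simp only [List.cons_append, sv, if_neg hj, if_neg hjA, h3, Bool.not_false,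
            Bool.and_true]
          have := ih1 h4 h2 false (h && !(ex D (!t) j)) (Or.inl rfl)
          omega
      · obtain ⟨h3, h4⟩ := sec_cons_nil D hj h1
        rw [List.count_cons_of_ne hj] at h2
        by_cases hjA : j ∈ A
        · simp only [List.cons_append, sv, if_neg hj, if_pos hjA, h3, Bool.not_false,
            Bool.and_true]
          have := ih2 h4 h2 true (g || ex D t j)
          omega
        · simp only [List.cons_append, sv, if_neg hj, if_neg hjA, h3, Bool.not_false,
            Bool.and_true]
          have := ih2 h4 h2 false (g && !(ex D t j))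
          omega

lemma split_factor {x : L} {R : List L} {y : L} {V : List L} (h : (x :: (R ++ [y])) <:+: V) :
    ∃ P Q, V = P ++ x :: (R ++ y :: Q) := by
  obtain ⟨P, Q, h⟩ := h
  exact ⟨P, Q, by rw [← h]; simp⟩

lemma gain {A : Finset L} (hA : D.o ∉ A) {t : Bool} {n : ℕ} {W V : List L} (hW : Lo D A t n W)
    (hV : ¬ D.Clean A t V) : Lo D A t (n + 1) (V ++ W) := by
  unfold KS.Clean at hV
  rw [not_and_or] at hV
  rcases hV with hV | hV
  · push Not at hV
    obtain ⟨x, R, y, h1, hx, hy, hR, hRA, hs⟩ := hV
    obtain ⟨P, Q, rfl⟩ := split_factor h1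
    have e : P ++ x :: (R ++ y :: Q) ++ W = P ++ (x :: (R ++ y :: (Q ++ W))) := by simp
    rw [e]
    apply Lo.skip
    have hW' := Lo.skip D hW Q
    intro p g h
    simp only [sv, if_neg hx]
    split_ifs
    · have := unseen_run D hA hy hW' R hR hRA hs h g
      omega
    · have := unseen_run D hA hy hW' R hR hRA hs (g && !(ex D t x)) (h && !(ex D (!t) x))
      omega
  · push Not at hV
    obtain ⟨x, R, y, h1, hx, hy, hpx, hpy, hc, hj, hs⟩ := hV
    obtain ⟨P, Q, rfl⟩ := split_factor h1
    have e : P ++ x :: (R ++ y :: Q) ++ W = P ++ (x :: (R ++ y :: (Q ++ W))) := by simp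
    rw [e]
    apply Lo.skip
    have hW' := Lo.skip D hW Q
    have hxo : x ≠ D.o := fun e => hA (e ▸ hx)
    intro p g h
    have hex : ex D t x = true := by
      unfold ex
      exact Option.isSome_iff_ne_none.2 hpx
    simp only [sv, if_neg hxo, if_pos hx, hex, Bool.or_true]
    have := (unsep D hA hy hW' R).1 hs hc true (h && !(ex D (!t) x)) (Or.inr hj)
    omega

lemma all_gain {A : Finset L} (hA : D.o ∉ A) {t : Bool} : ∀ (Ws : List (List L)),
    (∀ V ∈ Ws, ¬ D.Clean A t V) → Lo D A t Ws.length Ws.flatten := by
  intro Ws
  induction Ws with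
  | nil => intro _ p g h; exact Nat.zero_le _
  | cons V Ws ih =>
    intro hV
    rw [List.flatten_cons, List.length_cons]
    exact gain D hA (ih (fun U hU => hV U (List.mem_cons_of_mem _ hU))) (hV V List.mem_cons_self)

end PB1Aux

open PB1Aux in
/-- PB1. -/
theorem pb1 {L : Type} [Fintype L] [DecidableEq L] (D : KS L) : CleanCount D := by
  intro A t Ws hA hV
  have h1 := all_gain D hA Ws hV false false false
  have h2 := identity D hA t Ws.flatten false false false
  have h3 : cr false false = 0 := by simp [cr]
  have h4 : runs (D.lp t A) (D.sec false Ws.flatten) + runs (D.lp t A) (D.sec true Ws.flatten) =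
      runsAux (D.lp t A) false (D.sec t Ws.flatten) +
        runsAux (D.lp t A) false (D.sec (!t) Ws.flatten) := by
    unfold runs
    cases t
    · simp
    · simp [Nat.add_comm]
  have h5 : runs A Ws.flatten = runsAux A false Ws.flatten := rfl
  omega

end R4
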