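import Pool.Agent.Work.MP_e3f5d9_al.P0
import Pool.Agent.Work.MP_e3f5d9_al.B1p
import Pool.Agent.Work.MP_e3f5d9_al.B2Aux

/-!
# R4, block PB2: disjoint trivial runs are lost by the reduction

The run `R` of every violating factor is deleted: this changes the number of runs by one and does
not change the reduced word.
-/

set_option autoImplicit false
set_option linter.unusedSectionVars false

open Finset

namespace R4

namespace PB2Aux

open B2Aux

variable {L : Type} [Fintype L] [DecidableEq L]

/-- A prefix contributes a constant, given the flag after it. -/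
lemma pre_flag (A : Finset L) (u : List L) (p : Bool) : ∃ (c : ℕ) (q : Bool), ∀ v,
    runsAux A p (u ++ v) = c + runsAux A q v := B1pAux.flag_append A u p

/-- A run of `A`. -/
lemma run_in {A : Finset L} : ∀ (R : List L), R ≠ [] → (∀ j ∈ R, j ∈ A) → ∀ (p : Bool) (v : List L),
    runsAux A p (R ++ v) = nu p + runsAux A true v := by
  intro R
  induction R with
  | nil => intro h; exact absurd rfl h
  | cons x R ih =>
    intro _ h p v
    rw [List.cons_append, runsAux_in (h x List.mem_cons_self)]
    by_cases hR : R = []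
    · subst hR; rfl
    · rw [ih hR (fun j hj => h j (List.mem_cons_of_mem _ hj))]
      simp [nu]

/-- A run of the complement. -/
lemma run_out {A : Finset L} : ∀ (R : List L), R ≠ [] → (∀ j ∈ R, j ∉ A) → ∀ (p : Bool) (v : List L),
    runsAux A p (R ++ v) = runsAux A false v := by
  intro R
  induction R with
  | nil => intro h; exact absurd rfl h
  | cons x R ih =>
    intro _ h p v
    rw [List.cons_append, runsAux_out (h x List.mem_cons_self)]
    by_cases hR : R = []
    · subst hR; rfl
    · rw [ih hR (fun j hj => h j (List.mem_cons_of_mem _ hj))]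

/-- Complete runs. -/
def Comp (A : Finset L) (x : L) (R : List L) (y : L) : Prop :=
  (x ∉ A ∧ y ∉ A ∧ ∀ j ∈ R, j ∈ A) ∨ (x ∈ A ∧ y ∈ A ∧ ∀ j ∈ R, j ∉ A)

/-- Deletion of a complete run. -/
lemma del {A : Finset L} {x : L} {R : List L} {y : L} (hR : R ≠ []) (h : Comp A x R y)
    (p : Bool) (P T : List L) :
    runsAux A p (P ++ x :: (R ++ y :: T)) = runsAux A p (P ++ x :: y :: T) + 1 := by
  obtain ⟨c, q, hc⟩ := pre_flag A P p
  rw [hc, hc]
  rcases h with ⟨h1, h2, h3⟩ | ⟨h1, h2, h3⟩
  · rw [runsAux_out h1, runsAux_out h1, run_in R hR h3, runsAux_out h2, runsAux_out h2]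
    simp [nu]; omega
  · rw [runsAux_in h1, runsAux_in h1, run_out R hR h3, runsAux_in h2, runsAux_in h2]
    simp [nu]; omega

/-- Simultaneous deletion of one complete run in each factor. -/
lemma collect {A : Finset L} {g : List L → Prop} {r : List L → List L → Prop} (h0 : r [] [])
    (hl : ∀ P T T', r T T' → r (P ++ T) (P ++ T'))
    (hg : ∀ R T T', g R → r T T' → r (R ++ T) T') :
    ∀ Ws : List (List L), (∀ V ∈ Ws, ∃ P x R y Q, V = P ++ x :: (R ++ y :: Q) ∧ R ≠ [] ∧
      Comp A x R y ∧ g R) →
    ∃ W', (∀ p, runsAux A p Ws.flatten = runsAux A p W' + Ws.length) ∧ r Ws.flatten W' := by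
  intro Ws
  induction Ws with
  | nil => intro _; exact ⟨[], fun p => rfl, h0⟩
  | cons V Ws ih =>
    intro h
    obtain ⟨W'', h1, h2⟩ := ih (fun V hV => h V (List.mem_cons_of_mem _ hV))
    obtain ⟨P, x, R, y, Q, rfl, hR, hc, hgR⟩ := h V List.mem_cons_self
    refine ⟨(P ++ x :: y :: Q) ++ W'', fun p => ?_, ?_⟩
    · rw [List.flatten_cons, List.length_cons]
      have e1 : (P ++ x :: (R ++ y :: Q)) ++ Ws.flatten = P ++ x :: (R ++ y :: (Q ++ Ws.flatten)) := by
        simp
      have e2 : P ++ x :: y :: (Q ++ Ws.flatten) = (P ++ x :: y :: Q) ++ Ws.flatten := by simp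
      rw [e1, del hR hc, e2]
      obtain ⟨c, q, hcq⟩ := pre_flag A (P ++ x :: y :: Q) p
      rw [hcq, hcq, h1 q]
      omega
    · rw [List.flatten_cons]
      have e1 : (P ++ x :: (R ++ y :: Q)) ++ Ws.flatten
          = (P ++ [x]) ++ (R ++ ((y :: Q) ++ Ws.flatten)) := by simp
      have e2 : (P ++ x :: y :: Q) ++ W'' = (P ++ [x]) ++ ((y :: Q) ++ W'') := by simp
      rw [e1, e2]
      exact hl _ _ _ (hg _ _ _ hgR (hl _ _ _ h2))

lemma split_factor {x : L} {R : List L} {y : L} {V : List L} (h : (x :: (R ++ [y])) <:+: V) :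
    ∃ P Q, V = P ++ x :: (R ++ y :: Q) := by
  obtain ⟨P, Q, h⟩ := h
  exact ⟨P, Q, by rw [← h]; simp⟩

end PB2Aux

open PB2Aux in
/-- PB2. -/
theorem pb2 (L : Type) [Fintype L] [DecidableEq L] : RCleanCount L := by
  intro A Ws h
  obtain ⟨W', h1, h2⟩ := collect (A := A) (g := fun R => red R = []) (r := fun u v => red u = red v)
    rfl
    (fun P T T' hT => by
      change red (P ++ T) = red (P ++ T')
      rw [(b1p L).red_append, (b1p L).red_append P T', hT])
    (fun R T T' hR hT => by
      change red (R ++ T) = red T'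
      rw [(b1p L).red_append, show red R = [] from hR, List.nil_append, hT,
        (b1p L).red_id _ ((b1p L).red_chain T')])
    Ws (fun V hV => by
      have h3 := h V hV
      unfold RClean at h3
      push Not at h3
      obtain ⟨x, R, y, h4, hR, h5, h6⟩ := h3
      obtain ⟨P, Q, h7⟩ := split_factor h4
      exact ⟨P, x, R, y, Q, h7, hR, h5, h6⟩)
  have h3 : runs A Ws.flatten = runs A W' + Ws.length := h1 false
  have h4 : red Ws.flatten = red W' := h2
  have h5 := (b1p L).runs_red A W'
  rw [h4, h3]
  omega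

end R4
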