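import Pool.Agent.Work.MP_e3f5d9_al.PB2

/-!
# R4, block PB3: disjoint violations of the alternation
-/

set_option autoImplicit false
set_option linter.unusedSectionVars false

open Finset

namespace R4

namespace PB3Aux

open B2Aux PB2Aux

variable {L : Type} [Fintype L] [DecidableEq L]

lemma blk_le_runs {X Y : Finset L} (hd : Disjoint X Y) : ∀ w : List L,
    blkAux X Y true w ≤ runsAux X false w ∧ ∀ g, blkAux X Y false w ≤ runsAux X g w + 1 := by
  intro w
  induction w with
  | nil => exact ⟨le_refl _, fun g => Nat.zero_le _⟩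
  | cons x w ih =>
    obtain ⟨h1, h2⟩ := ih
    by_cases hY : x ∈ Y
    · have hX : x ∉ X := fun h => (Finset.disjoint_left.1 hd) h hY
      rw [blkAux_in hY, blkAux_in hY, runsAux_out hX]
      refine ⟨by simp only [nu, if_true]; omega, fun g => ?_⟩
      rw [runsAux_out hX]
      simp only [nu]
      simp
      omega
    · by_cases hX : x ∈ X
      · rw [blkAux_left hX hY, blkAux_left hX hY, runsAux_in hX]
        refine ⟨?_, fun g => ?_⟩
        · have := h2 true
          simp [nu]; omega
        · rw [runsAux_in hX]
          have := h2 true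
          omega
      · rw [blkAux_out hX hY, blkAux_out hX hY, runsAux_out hX]
        refine ⟨h1, fun g => ?_⟩
        rw [runsAux_out hX]
        exact h2 false

end PB3Aux

open PB2Aux B2Aux PB3Aux in
/-- PB3. -/
theorem pb3 (L : Type) [Fintype L] [DecidableEq L] : AltCount L := by
  intro X Y Ws hd h
  obtain ⟨W', h1, h2⟩ := collect (A := X) (g := fun R => ∀ j ∈ R, j ∉ X ∧ j ∉ Y)
    (r := fun u v => (u.filter fun x => x ∈ X ∨ x ∈ Y) = v.filter fun x => x ∈ X ∨ x ∈ Y)
    rfl
    (fun P T T' hT => by
      change List.filter _ (P ++ T) = List.filter _ (P ++ T')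
      rw [List.filter_append, List.filter_append, hT])
    (fun R T T' hR hT => by
      change List.filter _ (R ++ T) = List.filter _ T'
      rw [List.filter_append, hT]
      have : (R.filter fun x => decide (x ∈ X ∨ x ∈ Y)) = [] := by
        rw [List.filter_eq_nil_iff]
        intro j hj
        have := hR j hj
        simp [this.1, this.2]
      rw [this, List.nil_append])
    Ws (fun V hV => by
      have h3 := h V hV
      unfold Alt at h3
      push Not at h3
      obtain ⟨x, R, y, h4, hx, hy, hR, h5, h6⟩ := h3
      obtain ⟨P, Q, h7⟩ := split_factor h4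
      exact ⟨P, x, R, y, Q, h7, hR, Or.inr ⟨hx, hy, h5⟩, fun j hj => ⟨h5 j hj, h6 j hj⟩⟩)
  have h3 : runs X Ws.flatten = runs X W' + Ws.length := h1 false
  have h4 : blk X Y Ws.flatten = blk X Y W' := by
    unfold blk
    have h5 : (Ws.flatten.filter fun x => decide (x ∈ X ∨ x ∈ Y))
      = W'.filter fun x => decide (x ∈ X ∨ x ∈ Y) := h2
    rw [h5]
  have h5 : blk X Y W' ≤ runs X W' + 1 := (blk_le_runs hd W').2 false
  rw [h4, h3]
  omega

end R4
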