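import Pool.Agent.Work.MP_e3f5d9_al.T0
import Pool.Agent.Work.MP_e3f5d9_al.B5
import Pool.Agent.Work.MP_e3f5d9_al.B8

/-!
# R4, block TB3: the closure for the nodes of UT words
-/

set_option autoImplicit false

open Finset

namespace R4

namespace TB3Aux

variable {L : Type} [Fintype L] [DecidableEq L] (D : KS L)

lemma runsAux_filter (Y : Finset L) (q : L → Bool) (hq : ∀ x ∈ Y, q x = true) (w : List L) :
    ∀ p p' : Bool, (p' = true → p = true) → runsAux Y p (w.filter q) ≤ runsAux Y p' w := by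
  induction w with
  | nil => intro p p' _; simp [runsAux]
  | cons x w ih =>
    intro p p' h
    by_cases hx : x ∈ Y
    · rw [List.filter_cons_of_pos (hq x hx)]
      simp only [runsAux, if_pos hx]
      have := ih true true (fun h => h)
      cases p' with
      | true => rw [h rfl]; simpa using this
      | false =>
        cases p <;> simp <;> omega
    · by_cases hqx : q x = true
      · rw [List.filter_cons_of_pos hqx]
        simp only [runsAux, if_neg hx]
        exact ih false false (fun h => h)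
      · rw [List.filter_cons_of_neg hqx]
        simp only [runsAux, if_neg hx]
        exact ih p false (by simp)

lemma blk_le_runs (X Y : Finset L) (w : List L) : blk X Y w ≤ runs Y w := by
  unfold blk runs
  apply runsAux_filter
  · intro x hx
    simp [hx]
  · simp

lemma bb_le_rr (X Y : Finset L) (w : List L) : bb X Y w ≤ rr Y w := blk_le_runs _ _ _

/-- The facts about a Side set at a tight word. -/
lemma side' (h1' : WordBasics L) (E : Finset (Finset L)) (A0 : Finset L) (hA0 : A0 ∈ E) (K : ℕ)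
    (W : List L) (hW : ∀ A ∈ E, ∀ B ∈ E, runs A W ≤ rr B W + K) (X : Finset L)
    (hX : D.Side E X) :
    (rr X W ≤ runs A0 W + (K + 1) ∧ runs A0 W ≤ rr X W + (K + 1)) ∧
    (rr Xᶜ W ≤ runs A0 W + (K + 1) ∧ runs A0 W ≤ rr Xᶜ W + (K + 1)) := by
  have e0 : rr A0 W ≤ runs A0 W := h1'.runs_red _ _
  have e1 : rr Xᶜ W ≤ rr X W + 1 := h1'.runs_compl _ _
  have e2 : rr X W ≤ rr Xᶜ W + 1 := by
    have := h1'.runs_compl Xᶜ (red W)
    rwa [compl_compl] at this
  have hX' : D.nm X ∈ E := hX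
  have e3 := hW _ hX' A0 hA0
  have e4 := hW A0 hA0 _ hX'
  have e5 : rr (D.nm X) W ≤ runs (D.nm X) W := h1'.runs_red _ _
  unfold KS.nm at e3 e4 e5
  by_cases ho : D.o ∈ X
  · simp only [ho, if_true] at e3 e4 e5
    omega
  · simp only [ho, if_false] at e3 e4 e5
    omega

lemma secL_snoc (u : List Bool) (b : Bool) (F : List L) :
    D.secL (u ++ [b]) F = D.sec b (D.secL u F) := by
  rw [secL_append]
  rfl

lemma path_last {E : Finset (Finset L)} :
    ∀ (n : ℕ) (A B : Finset L), D.Path E (n + 1) A B → ∃ C, C ∈ E ∧ D.Arrow E C B := by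
  intro n
  induction n with
  | zero =>
    intro A B h
    obtain ⟨C, hAC, hC, rfl⟩ := h
    exact ⟨A, hAC.1, hAC⟩
  | succ n ih =>
    intro A B h
    obtain ⟨C, hAC, hCB⟩ := h
    exact ih C B hCB

lemma mono_disjoint (E : Finset (Finset L)) (X Y : Finset L) (h : D.Mono E X Y) :
    Disjoint X Y := by
  induction h with
  | triv X _ => exact disjoint_compl_right
  | symm X Y _ ih => exact ih.symm
  | image s Y Y' _ hd _ _ => exact hd
  | lift s Y Y' _ hd _ _ _ _ _ _ => exact B5Aux.disj_lp' D s Y Y' hd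
  | glue X Y Z _ hX hZ _ _ _ _ =>
    rw [Finset.disjoint_left]
    intro i hi hi'
    exact (Finset.mem_compl.1 (hX hi)) (hZ hi')
  | typeB s Y Y' _ _ hd _ _ _ _ _ _ _ _ _ _ => exact B5Aux.disj_lp D s Y Y' hd

/-- The uniform constant. -/
def K0 (n0 θ : ℕ) : ℕ := θ + 2 ^ (n0 + 1)

lemma tight (hU : UTBasics D) {E : Finset (Finset L)} (hE : D.Mixing E) {n0 θ k : ℕ}
    {F : List L} (hexp : D.Exp E n0) (hF : D.UT E n0 θ k F) {F' : List L} (hF' : F' <:+: F)
    {u : List Bool} (hu : u.length ≤ k) :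
    ∀ A ∈ E, ∀ B ∈ E, runs A (D.secL u F') ≤ rr B (D.secL u F') + K0 n0 θ := by
  intro A hA B hB
  have := hU.unif E hE n0 θ k F hexp hF u hu F' hF' A hA B hB
  unfold K0
  omega

lemma kids (hU : UTBasics D) (h1' : WordBasics L) {E : Finset (Finset L)} (hE : D.Mixing E)
    {n0 θ k : ℕ} {F : List L} (hexp : D.Exp E n0) (hF : D.UT E n0 θ k F) {F' : List L}
    (hF' : F' <:+: F) {u : List Bool} (hu : u.length + 1 ≤ k) :
    runs ({D.o}ᶜ) (D.secL u F') ≤ runs ({D.o}ᶜ) (D.sec false (D.secL u F')) +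
      runs ({D.o}ᶜ) (D.sec true (D.secL u F')) + (θ + 2 * K0 n0 θ + 2 ^ (n0 + 1)) ∧
    runs ({D.o}ᶜ) (D.sec false (D.secL u F')) + runs ({D.o}ᶜ) (D.sec true (D.secL u F')) ≤
      runs ({D.o}ᶜ) (D.secL u F') + (K0 n0 θ + 4) := by
  obtain ⟨hn0, hpath⟩ := hexp
  have hexp : D.Exp E n0 := ⟨hn0, hpath⟩
  obtain ⟨m, rfl⟩ : ∃ m, n0 = m + 1 := ⟨n0 - 1, by omega⟩
  have hA0 : ({D.o}ᶜ : Finset L) ∈ E := hE.base
  have tW := tight D hU hE hexp hF hF' (u := u) (by omega)
  have tf := tight D hU hE hexp hF hF' (u := u ++ [false]) (by simp; omega)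
  have tt := tight D hU hE hexp hF hF' (u := u ++ [true]) (by simp; omega)
  rw [secL_snoc] at tf tt
  set W := D.secL u F' with hW
  constructor
  · obtain ⟨C, hAC, hCB⟩ := hpath _ hA0 _ hA0
    have e1 := hF.2 u (by omega) F' hF' _ hA0 _ hA0
    rw [← hW] at e1
    have e2 := hU.rr_le ({D.o}ᶜ) (m + 1) W
    have e3 : D.tot (runs ({D.o}ᶜ)) (m + 1) W = D.tot (runs ({D.o}ᶜ)) m (D.sec false W) +
      D.tot (runs ({D.o}ᶜ)) m (D.sec true W) := rfl
    have e4 := hU.low E hE m C _ hCB (D.sec false W)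
    have e5 := hU.low E hE m C _ hCB (D.sec true W)
    have e6 := tf C hAC.2.1 _ hA0
    have e7 := tt C hAC.2.1 _ hA0
    have e8 : rr ({D.o}ᶜ) (D.sec false W) ≤ runs ({D.o}ᶜ) (D.sec false W) := h1'.runs_red _ _
    have e9 : rr ({D.o}ᶜ) (D.sec true W) ≤ runs ({D.o}ᶜ) (D.sec true W) := h1'.runs_red _ _
    have e10 : 2 ^ (m + 1 + 1) = 2 ^ (m + 1) + 2 ^ (m + 1) := by ring
    rw [e10]
    omega
  · obtain ⟨C, hC, hCA⟩ := path_last D m _ _ (hpath _ hA0 _ hA0)
    have hp : D.Path E 1 C ({D.o}ᶜ) := ⟨_, hCA, hA0, rfl⟩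
    have e1 := hU.low E hE 1 C _ hp W
    have e2 : D.tot (runs ({D.o}ᶜ)) 1 W = runs ({D.o}ᶜ) (D.sec false W) +
      runs ({D.o}ᶜ) (D.sec true W) := rfl
    have e3 := tW C hC _ hA0
    have e4 : rr ({D.o}ᶜ) W ≤ runs ({D.o}ᶜ) W := h1'.runs_red _ _
    norm_num at e1
    omega

/-- The induction claim. -/
def Claim (E : Finset (Finset L)) (n0 θ : ℕ) (X Y : Finset L) : Prop :=
  ∃ c d : ℕ, ∀ k F, D.UT E n0 θ k F → ∀ u : List Bool, d ≤ u.length → u.length + d ≤ k →
    ∀ F', F' <:+: F → runs ({D.o}ᶜ) (D.secL u F') ≤ bb X Y (D.secL u F') + c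

end TB3Aux

open TB3Aux B5Aux in
/-- TB3 without the assumption on the sides. -/
theorem tb3_claim {L : Type} [Fintype L] [DecidableEq L] (D : KS L) (h1 : Basics D)
    (h1' : WordBasics L) (h2b : IneqImage D) (h2c : IneqLift D) (h2d : IneqTypeB D)
    (h3 : TotBasics D) (hU : UTBasics D) (E : Finset (Finset L)) (hE : D.Mixing E) (n0 θ : ℕ)
    (hexp : D.Exp E n0) (X Y : Finset L) (hXY : D.Mono E X Y) : Claim D E n0 θ X Y := by
  have hA0 : ({D.o}ᶜ : Finset L) ∈ E := hE.base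
  have hso : D.Side E {D.o} := by
    unfold KS.Side KS.nm
    simpa using hE.base
  induction hXY with
  | triv X hX =>
    refine ⟨K0 n0 θ + 1, 0, fun k F hF u _ hu F' hF' => ?_⟩
    have h := (side' D h1' E _ hA0 _ _ (tight D hU hE hexp hF hF' (u := u) (by omega)) X hX).2.2
    have e : bb X Xᶜ (D.secL u F') = rr Xᶜ (D.secL u F') := by
      have := h1'.blk_compl Xᶜ (red (D.secL u F'))
      rw [compl_compl] at this
      exact this
    rw [e]
    exact h
  | symm X Y hm ih =>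
    obtain ⟨c, d, h⟩ := ih
    refine ⟨c + 1, d, fun k F hF u hu1 hu2 F' hF' => ?_⟩
    have h' := h k F hF u hu1 hu2 F' hF'
    have := h1'.blk_symm X Y (red (D.secL u F')) (mono_disjoint D E X Y hm)
    unfold bb at h' ⊢
    omega
  | image s Y Y' ho hd _ ih =>
    obtain ⟨c, d, h⟩ := ih
    refine ⟨2 * c + (θ + 2 * K0 n0 θ + 2 ^ (n0 + 1)), d + 1, fun k F hF u hu1 hu2 F' hF' => ?_⟩
    have hf := h k F hF (u ++ [false]) (by simp; omega) (by simp; omega) F' hF'
    have ht := h k F hF (u ++ [true]) (by simp; omega) (by simp; omega) F' hF'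
    rw [secL_snoc] at hf ht
    have a := step_image D h1 h1' h2b h3 s Y Y' ho hd 0 (D.secL u F')
    have b := (kids D hU h1' hE hexp hF hF' (u := u) (by omega)).1
    simp only [KS.tot] at a
    omega
  | lift s Y Y' ho hd hs1 hs2 hs3 hs4 _ ih =>
    obtain ⟨c, d, h⟩ := ih
    refine ⟨c + 20 * (K0 n0 θ + 1) + 20 + 2 * (θ + 2 * K0 n0 θ + 2 ^ (n0 + 1)), d + 1,
      fun k F hF u' hu1 hu2 F' hF' => ?_⟩
    obtain ⟨u, b, rfl⟩ : ∃ u b, u' = u ++ [b] := by
      rcases List.eq_nil_or_concat u' with rfl | ⟨u, b, rfl⟩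
      · simp at hu1
      · exact ⟨u, b, by simp⟩
    simp only [List.length_append, List.length_cons, List.length_nil] at hu1 hu2
    have h' := h k F hF u (by omega) (by omega) F' hF'
    have a := step_lift D h1 h1' h2c h3 s Y Y' ho hd 0 (D.secL u F')
    have tW := tight D hU hE hexp hF hF' (u := u) (by omega)
    have tf := tight D hU hE hexp hF hF' (u := u ++ [false]) (by simp; omega)
    have tt := tight D hU hE hexp hF hF' (u := u ++ [true]) (by simp; omega)
    have kd := kids D hU h1' hE hexp hF hF' (u := u) (by omega)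
    rw [secL_snoc] at tf tt ⊢
    set W := D.secL u F' with hW
    have s1 := (side' D h1' E _ hA0 _ _ tW _ hs1).2.1
    have s2 := (side' D h1' E _ hA0 _ _ tW _ hs2).1.1
    have s3f := (side' D h1' E _ hA0 _ _ tf _ hs3).2.2
    have s3t := (side' D h1' E _ hA0 _ _ tt _ hs3).2.2
    have s4f := (side' D h1' E _ hA0 _ _ tf _ hs4).1
    have s4t := (side' D h1' E _ hA0 _ _ tt _ hs4).1
    rw [compl_compl] at s3f s3t
    have u1 := bb_le_rr (D.lp s Yᶜ)ᶜ (D.lp s Y') (D.sec false W)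
    have u2 := bb_le_rr (D.lp s Yᶜ)ᶜ (D.lp s Y') (D.sec true W)
    simp only [KS.tot] at a
    clear tW tf tt h hF hU
    obtain ⟨k1, -⟩ := kd
    obtain ⟨s4f1, s4f2⟩ := s4f
    obtain ⟨s4t1, s4t2⟩ := s4t
    generalize K0 n0 θ = κ at *
    generalize 2 ^ (n0 + 1) = τ at *
    cases b
    · clear u1 s4f1
      linarith
    · clear u2 s4t1
      linarith
  | glue X Y Z hs hX hZ _ _ ih1 ih2 =>
    obtain ⟨c1, d1, H1⟩ := ih1
    obtain ⟨c2, d2, H2⟩ := ih2
    refine ⟨c1 + c2 + (K0 n0 θ + 1), max d1 d2, fun k F hF u hu1 hu2 F' hF' => ?_⟩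
    have m1 := le_max_left d1 d2
    have m2 := le_max_right d1 d2
    have a1 := H1 k F hF u (by omega) (by omega) F' hF'
    have a2 := H2 k F hF u (by omega) (by omega) F' hF'
    have a3 := (side' D h1' E _ hA0 _ _ (tight D hU hE hexp hF hF' (u := u) (by omega)) Y hs).1.1
    have a4 := h1'.blk_glue X Y Z (red (D.secL u F')) hX hZ
    unfold bb at a1 a2 ⊢
    unfold rr at a3
    omega
  | typeB s Y Y' ho ho' hd hs1 hs2 hs3 hs4 _ _ _ ih1 ih2 ih3 =>
    obtain ⟨c1, d1, H1⟩ := ih1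
    obtain ⟨c2, d2, H2⟩ := ih2
    obtain ⟨c3, d3, H3⟩ := ih3
    refine ⟨4 * c1 + 4 * c2 + 4 * c3 + 40 * (K0 n0 θ + 1) + 40 +
      5 * (θ + 2 * K0 n0 θ + 2 ^ (n0 + 1)), max d1 (max d2 d3) + 1,
      fun k F hF u' hu1 hu2 F' hF' => ?_⟩
    have m1 : d1 ≤ max d1 (max d2 d3) := le_max_left _ _
    have m2 : d2 ≤ max d1 (max d2 d3) := le_trans (le_max_left _ _) (le_max_right _ _)
    have m3 : d3 ≤ max d1 (max d2 d3) := le_trans (le_max_right _ _) (le_max_right _ _)
    obtain ⟨u, b, rfl⟩ : ∃ u b, u' = u ++ [b] := by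
      rcases List.eq_nil_or_concat u' with rfl | ⟨u, b, rfl⟩
      · simp at hu1
      · exact ⟨u, b, by simp⟩
    simp only [List.length_append, List.length_cons, List.length_nil] at hu1 hu2
    have a1 := H1 k F hF u (by omega) (by omega) F' hF'
    have a2 := H2 k F hF u (by omega) (by omega) F' hF'
    have a3 := H3 k F hF u (by omega) (by omega) F' hF'
    have a4 := step_typeB D h1 h1' h2d h3 s Y Y' ho ho' hd 0 (D.secL u F')
    have tW := tight D hU hE hexp hF hF' (u := u) (by omega)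
    have tf := tight D hU hE hexp hF hF' (u := u ++ [false]) (by simp; omega)
    have tt := tight D hU hE hexp hF hF' (u := u ++ [true]) (by simp; omega)
    have kd := kids D hU h1' hE hexp hF hF' (u := u) (by omega)
    rw [secL_snoc] at tf tt ⊢
    set W := D.secL u F' with hW
    have s0 := (side' D h1' E _ hA0 _ _ tW _ hso).1.1
    have s1 := (side' D h1' E _ hA0 _ _ tW _ hs1).1.1
    have s2 := (side' D h1' E _ hA0 _ _ tW _ hs2).1.1
    have s3f := (side' D h1' E _ hA0 _ _ tf _ hs3).1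
    have s3t := (side' D h1' E _ hA0 _ _ tt _ hs3).1
    have s4f := (side' D h1' E _ hA0 _ _ tf _ hs4).1
    have s4t := (side' D h1' E _ hA0 _ _ tt _ hs4).1
    have u1 := bb_le_rr (D.lp s Y) (D.lp s Y') (D.sec false W)
    have u2 := bb_le_rr (D.lp s Y) (D.lp s Y') (D.sec true W)
    simp only [KS.tot, pow_zero, mul_one] at a4
    clear tW tf tt H1 H2 H3 hF hU m1 m2 m3
    obtain ⟨k1, k2⟩ := kd
    obtain ⟨s3f1, s3f2⟩ := s3f
    obtain ⟨s3t1, s3t2⟩ := s3t
    obtain ⟨s4f1, s4f2⟩ := s4f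
    obtain ⟨s4t1, s4t2⟩ := s4t
    generalize K0 n0 θ = κ at *
    generalize 2 ^ (n0 + 1) = τ at *
    cases b
    · linarith
    · linarith

open TB3Aux in
/-- TB3. -/
theorem tb3 {L : Type} [Fintype L] [DecidableEq L] (D : KS L) (h1 : Basics D)
    (h1' : WordBasics L) (h2b : IneqImage D) (h2c : IneqLift D) (h2d : IneqTypeB D)
    (h3 : TotBasics D) (hU : UTBasics D) : TClosure D := by
  intro E hE n0 θ hexp X Y hXY _
  obtain ⟨c, d, h⟩ := tb3_claim D h1 h1' h2b h2c h2d h3 hU E hE n0 θ hexp X Y hXY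
  refine ⟨c + K0 n0 θ, d, fun k F hF u hu1 hu2 F' hF' A hA => ?_⟩
  have e1 := h k F hF u hu1 hu2 F' hF'
  have e2 := tight D hU hE hexp hF hF' (u := u) (by omega) A hA _ hE.base
  have e3 : rr ({D.o}ᶜ) (D.secL u F') ≤ runs ({D.o}ᶜ) (D.secL u F') := h1'.runs_red _ _
  omega

end R4
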