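import Pool.Agent.Work.MP_e3f5d9_al.PB3
import Pool.Agent.Work.MP_e3f5d9_al.TB0
import Pool.Agent.Work.MP_e3f5d9_al.TB3

/-!
# R4, block PB4: boundedly many disjoint violations in the nodes of UT words
-/

set_option autoImplicit false
set_option linter.unusedSectionVars false

open Finset

namespace R4

namespace PB4Aux

variable {L : Type} [Fintype L] [DecidableEq L] (D : KS L)

lemma nm_le (A : Finset L) (z : List L) : runs (D.nm A) z ≤ runs A z + 1 := by
  unfold KS.nm
  split_ifs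
  · exact (b1p L).runs_compl _ _
  · exact Nat.le_succ _

lemma le_nm (A : Finset L) (z : List L) : runs A z ≤ runs (D.nm A) z + 1 := by
  unfold KS.nm
  split_ifs
  · have := (b1p L).runs_compl Aᶜ z
    rwa [compl_compl] at this
  · exact Nat.le_succ _

/-- Constants for the pair `X`, `Y`. -/
lemma pair_const (hT : TClosure D) {E : Finset (Finset L)} (hE : D.Mixing E) (n0 θ : ℕ)
    (hexp : D.Exp E n0) (X Y : Finset L) : ∃ c d : ℕ, D.Mono E X Y → D.Side E X →
    ∀ k F, D.UT E n0 θ k F → ∀ u : List Bool, d ≤ u.length → u.length + d ≤ k →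
      ∀ F', F' <:+: F → ∀ A ∈ E, runs A (D.secL u F') ≤ bb X Y (D.secL u F') + c := by
  by_cases h : D.Mono E X Y ∧ D.Side E X
  · obtain ⟨c, d, hcd⟩ := hT E hE n0 θ hexp X Y h.1 (Or.inl h.2)
    exact ⟨c, d, fun _ _ => hcd⟩
  · exact ⟨0, 0, fun h1 h2 => absurd ⟨h1, h2⟩ h⟩

end PB4Aux

open PB4Aux TB3Aux in
/-- PB4. -/
theorem pb4 {L : Type} [Fintype L] [DecidableEq L] (D : KS L) (hC : CleanCount D)
    (hT : TClosure D) : ViolBound D := by
  classical
  intro E hE n0 θ hexp
  have hM : D.Mixing E := hE.toMixing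
  have hU := tb0 D
  choose cf df hcd using pair_const D hT hM n0 θ hexp
  have hcS : ∀ X Y, cf X Y ≤ ∑ X, ∑ Y, cf X Y := fun X Y =>
    (Finset.single_le_sum (f := fun Y => cf X Y) (fun _ _ => Nat.zero_le _)
      (Finset.mem_univ Y)).trans (Finset.single_le_sum (f := fun X => ∑ Y, cf X Y)
      (fun _ _ => Nat.zero_le _) (Finset.mem_univ X))
  have hdS : ∀ X Y, df X Y ≤ ∑ X, ∑ Y, df X Y := fun X Y =>
    (Finset.single_le_sum (f := fun Y => df X Y) (fun _ _ => Nat.zero_le _)
      (Finset.mem_univ Y)).trans (Finset.single_le_sum (f := fun X => ∑ Y, df X Y)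
      (fun _ _ => Nat.zero_le _) (Finset.mem_univ X))
  set cS : ℕ := ∑ X, ∑ Y, cf X Y with hcSd
  set dS : ℕ := ∑ X, ∑ Y, df X Y with hdSd
  refine ⟨θ + 5 * K0 n0 θ + 2 ^ (n0 + 1) + cS + 4, dS + 1, ?_⟩
  intro k F hF u hu Ws hWs
  obtain ⟨F', X0, Y0, hFF, hW⟩ := hU.factor u F _ hWs
  have hF' : F' <:+: F := ⟨X0, Y0, hFF.symm⟩
  have hlen : (D.ev X0 u).length = u.length := (b1 D).ev_length X0 u
  set u' := D.ev X0 u with hu'
  have hulen : u'.length ≤ k + (dS + 1) := by omega
  set W := D.secL u' F' with hWd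
  have tW := TB3Aux.tight D hU hM hexp hF hF' hulen
  rw [← hWd] at tW
  have hpos : 0 < 2 ^ (n0 + 1) := Nat.two_pow_pos _
  refine ⟨fun A hA hV => ?_, fun A hA t hne hV => ?_, fun X Y hXY hX hd hV => ?_⟩
  · have e1 := pb2 L A Ws hV
    rw [hW] at e1
    have e2 := tW A hA A hA
    have e3 : rr A W = runs A (red W) := rfl
    omega
  · have e1 := hC A t Ws (hM.norm A hA) hV
    rw [hW] at e1
    have hB : D.nm (D.lp t A) ∈ E := hE.closed A hA t hne
    have hA0 : ({D.o}ᶜ : Finset L) ∈ E := hM.base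
    have tf := TB3Aux.tight D hU hM hexp hF hF' (u := u' ++ [false]) (by simp; omega)
    have tt := TB3Aux.tight D hU hM hexp hF hF' (u := u' ++ [true]) (by simp; omega)
    rw [secL_snoc, ← hWd] at tf tt
    have e2 := (kids D hU (b1p L) hM hexp hF hF' (u := u') (by omega)).1
    rw [← hWd] at e2
    have e3 := tW A hA _ hA0
    have e4 : rr ({D.o}ᶜ) W ≤ runs ({D.o}ᶜ) W := (b1p L).runs_red _ _
    have e5 := tf _ hA0 _ hB
    have e6 := tt _ hA0 _ hB
    have e7 : rr (D.nm (D.lp t A)) (D.sec false W) ≤ runs (D.nm (D.lp t A)) (D.sec false W) :=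
      (b1p L).runs_red _ _
    have e8 : rr (D.nm (D.lp t A)) (D.sec true W) ≤ runs (D.nm (D.lp t A)) (D.sec true W) :=
      (b1p L).runs_red _ _
    have e9 := nm_le D (D.lp t A) (D.sec false W)
    have e10 := nm_le D (D.lp t A) (D.sec true W)
    omega
  · have hXYd := mono_disjoint D E X Y hXY
    have e1 := pb3 L X Y Ws hXYd hV
    rw [hW] at e1
    have e2 := hcd X Y hXY hX _ F hF u' (by have := hdS X Y; omega)
      (by have := hdS X Y; omega) F' hF' (D.nm X) hX
    rw [← hWd] at e2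
    have e3 := le_nm D X W
    have e4 : bb X Y W ≤ blk X Y W := (b1p L).blk_red X Y W
    have e5 := hcS X Y
    omega

end R4
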