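import Pool.Agent.Work.MP_e3f5d9_al.TB0

/-!
# R4, block TB1: reduction to UT words, part a (cutting of words)
-/

set_option autoImplicit false

open Finset

namespace R4

namespace TB1Aux

/-- Binary words of length `t`. -/
def lev (t : ℕ) : Finset (List Bool) :=
  (Finset.univ : Finset (Fin t → Bool)).map ⟨List.ofFn, List.ofFn_injective⟩

lemma mem_lev (t : ℕ) (l : List Bool) : l ∈ lev t ↔ l.length = t := by
  constructor
  · intro h
    simp only [lev, Finset.mem_map, Finset.mem_univ, true_and, Function.Embedding.coeFn_mk] at h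
    obtain ⟨v, rfl⟩ := h
    exact List.length_ofFn
  · intro h
    subst h
    simp only [lev, Finset.mem_map, Finset.mem_univ, true_and, Function.Embedding.coeFn_mk]
    exact ⟨l.get, List.ofFn_get l⟩

lemma sum_lev {M : Type} [AddCommMonoid M] (t : ℕ) (f : List Bool → M) :
    ∑ u ∈ lev t, f u = ∑ v : Fin t → Bool, f (List.ofFn v) := by
  simp [lev]

lemma card_lev (t : ℕ) : (lev t).card = 2 ^ t := by
  simp [lev]

variable {L : Type} [Fintype L] [DecidableEq L] (D : KS L)

lemma tot_lev (F : List L → ℕ) (t : ℕ) (W : List L) :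
    D.tot F t W = ∑ u ∈ lev t, F (D.secL u W) := by
  rw [sum_lev, (b3 D).tot_secL]

lemma sum_ev {M : Type} [AddCommMonoid M] (t : ℕ) (X : List L) (f : List Bool → M) :
    ∑ u ∈ lev t, f (D.ev X u) = ∑ u ∈ lev t, f u := by
  refine Finset.sum_nbij' (D.ev X) (D.ev X.reverse) ?_ ?_ ?_ ?_ ?_
  · intro u hu
    rw [mem_lev] at hu ⊢
    rw [B1Aux.ev_length, hu]
  · intro u hu
    rw [mem_lev] at hu ⊢
    rw [B1Aux.ev_length, hu]
  · intro u _
    exact B1Aux.ev_reverse D X u
  · intro u _
    have := B1Aux.ev_reverse D X.reverse u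
    rwa [List.reverse_reverse] at this
  · intro u _
    rfl

omit [Fintype L] in
lemma flag (A : Finset L) : ∀ (u : List L) (p : Bool), ∃ q : Bool, ∀ v,
    runsAux A p (u ++ v) = runsAux A p u + runsAux A q v := by
  intro u
  induction u with
  | nil => intro p; exact ⟨p, fun v => by simp [runsAux]⟩
  | cons x u ih =>
    intro p
    by_cases h : x ∈ A
    · obtain ⟨q, hq⟩ := ih true
      refine ⟨q, fun v => ?_⟩
      rw [List.cons_append, runsAux, runsAux, if_pos h, if_pos h, hq v]
      omega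
    · obtain ⟨q, hq⟩ := ih false
      refine ⟨q, fun v => ?_⟩
      rw [List.cons_append, runsAux, runsAux, if_neg h, if_neg h, hq v]

omit [Fintype L] in
lemma aux_le (A : Finset L) (v : List L) (q : Bool) : runsAux A q v ≤ runsAux A false v ∧
    runsAux A false v ≤ runsAux A q v + 1 := by
  cases v with
  | nil => simp [runsAux]
  | cons y v =>
    by_cases h : y ∈ A
    · simp only [runsAux, if_pos h]
      cases q <;> simp
      omega
    · simp [runsAux, if_neg h]

omit [Fintype L] in
lemma runs_app_le (A : Finset L) (V W : List L) : runs A (V ++ W) ≤ runs A V + runs A W := by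
  obtain ⟨q, hq⟩ := flag A V false
  unfold runs
  rw [hq W]
  have := (aux_le A W q).1
  omega

omit [Fintype L] in
lemma runs_app_ge (A : Finset L) (V W : List L) : runs A V + runs A W ≤ runs A (V ++ W) + 1 := by
  obtain ⟨q, hq⟩ := flag A V false
  unfold runs
  rw [hq W]
  have := (aux_le A W q).2
  omega

lemma rr_app_le (B : Finset L) (V W : List L) : rr B (V ++ W) ≤ rr B V + rr B W := by
  unfold rr
  rw [(b1p L).red_append V W]
  exact ((b1p L).runs_red B _).trans (runs_app_le B _ _)

lemma tot_app_le (B : Finset L) (n : ℕ) (V W : List L) :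
    D.tot (rr B) n (V ++ W) ≤ D.tot (rr B) n V + D.tot (rr B) n W := by
  rw [tot_lev, tot_lev, tot_lev, ← sum_ev D n V (fun u => rr B (D.secL u W)),
    ← Finset.sum_add_distrib]
  refine Finset.sum_le_sum fun u _ => ?_
  rw [TB0Aux.secL_app]
  exact rr_app_le B _ _

/-- The defect of the node `u` of the word `X`. -/
noncomputable def dfc (n0 : ℕ) (A B : Finset L) (u : List Bool) (X : List L) : ℤ :=
  (runs A (D.secL u X) : ℤ) - (D.tot (rr B) n0 (D.secL u X) : ℤ)

lemma dfc_app (n0 : ℕ) (A B : Finset L) (u : List Bool) (X Y : List L) :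
    dfc D n0 A B u X + dfc D n0 A B (D.ev X u) Y ≤ dfc D n0 A B u (X ++ Y) + 1 := by
  unfold dfc
  rw [TB0Aux.secL_app]
  have h1 := runs_app_ge A (D.secL u X) (D.secL (D.ev X u) Y)
  have h2 := tot_app_le D B n0 (D.secL u X) (D.secL (D.ev X u) Y)
  omega

lemma dfc_low {E : Finset (Finset L)} (hE : D.Mixing E) {n0 : ℕ} {A B : Finset L}
    (hp : D.Path E n0 A B) (u : List Bool) (X : List L) :
    2 ≤ dfc D n0 A B u X + 2 ^ (n0 + 1) := by
  have h1 := TB0Aux.low D hE n0 A B hp (D.secL u X)
  have h2 := TB0Aux.rr_le D B n0 (D.secL u X)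
  unfold dfc
  have h3 : ((2 ^ (n0 + 1) : ℕ) : ℤ) = 2 ^ (n0 + 1) := by push_cast; rfl
  omega

/-- The word `b` contains a bad factor for the node `u`. -/
def Bad (n0 θ : ℕ) (A B : Finset L) (u : List Bool) (b : List L) : Prop :=
  ∃ X F' Y : List L, b = X ++ F' ++ Y ∧
    D.tot (rr B) n0 (D.secL (D.ev X u) F') + θ < runs A (D.secL (D.ev X u) F')

/-- Number of bad words of the list, starting at the node `u`. -/
noncomputable def cnt (n0 θ : ℕ) (A B : Finset L) : List Bool → List (List L) → ℕ
  | _, [] => 0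
  | u, b :: bs => (open Classical in if Bad D n0 θ A B u b then 1 else 0) +
      cnt n0 θ A B (D.ev b u) bs

lemma gap {E : Finset (Finset L)} (hE : D.Mixing E) {n0 θ : ℕ} {A B : Finset L}
    (hp : D.Path E n0 A B) (hθ : 2 ^ (n0 + 1) + 2 ≤ θ) (R : List L) :
    ∀ (bs : List (List L)) (G : List L) (u : List Bool),
    (cnt D n0 θ A B (D.ev G u) bs : ℤ) ≤ dfc D n0 A B u (G ++ (bs.flatten ++ R)) + 2 ^ (n0 + 1) := by
  intro bs
  induction bs with
  | nil =>
    intro G u
    have := dfc_low D hE hp u (G ++ (([] : List (List L)).flatten ++ R))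
    simp only [cnt]
    push_cast
    omega
  | cons b bs ih =>
    intro G u
    rw [cnt]
    by_cases hb : Bad D n0 θ A B (D.ev G u) b
    · rw [if_pos hb]
      obtain ⟨X, F', Y, rfl, hF⟩ := hb
      have e0 : D.ev X (D.ev G u) = D.ev (G ++ X) u := (B1Aux.ev_append D G X u).symm
      rw [e0] at hF
      have e1 := ih Y (D.ev F' (D.ev (G ++ X) u))
      have e2 : D.ev Y (D.ev F' (D.ev (G ++ X) u)) = D.ev (X ++ F' ++ Y) (D.ev G u) := by
        rw [B1Aux.ev_append, B1Aux.ev_append, B1Aux.ev_append]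
      rw [e2] at e1
      have e3 := dfc_app D n0 A B u (G ++ X) (F' ++ (Y ++ (bs.flatten ++ R)))
      have e4 := dfc_app D n0 A B (D.ev (G ++ X) u) F' (Y ++ (bs.flatten ++ R))
      have e5 : G ++ (((X ++ F' ++ Y) :: bs).flatten ++ R) =
          (G ++ X) ++ (F' ++ (Y ++ (bs.flatten ++ R))) := by
        simp [List.append_assoc]
      rw [e5]
      have e6 := dfc_low D hE hp u (G ++ X)
      have e7 : (θ : ℤ) + 1 ≤ dfc D n0 A B (D.ev (G ++ X) u) F' := by
        unfold dfc
        omega
      have h3 : ((2 ^ (n0 + 1) : ℕ) : ℤ) = 2 ^ (n0 + 1) := by push_cast; rfl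
      have h4 : (2 : ℤ) ^ (n0 + 1) + 2 ≤ θ := by
        rw [← h3]
        exact_mod_cast hθ
      push_cast
      omega
    · rw [if_neg hb]
      have e1 := ih (G ++ b) u
      rw [B1Aux.ev_append] at e1
      have e5 : G ++ ((b :: bs).flatten ++ R) = (G ++ b) ++ (bs.flatten ++ R) := by
        simp [List.append_assoc]
      rw [e5]
      push_cast
      omega

/-- The word `b` is not uniformly tight. -/
def NG (E : Finset (Finset L)) (n0 θ k : ℕ) (b : List L) : Prop :=
  ∃ u : List Bool, u.length ≤ k ∧ ∃ F', F' <:+: b ∧ ∃ A ∈ E, ∃ B ∈ E,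
    D.tot (rr B) n0 (D.secL u F') + θ < runs A (D.secL u F')

lemma ng_bad {E : Finset (Finset L)} {n0 θ k : ℕ} {b : List L} (h : NG D E n0 θ k b) :
    ∃ t ∈ range (k + 1), ∃ A ∈ E, ∃ B ∈ E, ∃ u ∈ lev t, Bad D n0 θ A B u b := by
  obtain ⟨u, hu, F', ⟨X, Y, rfl⟩, A, hA, B, hB, hlt⟩ := h
  have hrev := B1Aux.ev_reverse D X.reverse u
  rw [List.reverse_reverse] at hrev
  refine ⟨u.length, by rw [Finset.mem_range]; omega, A, hA, B, hB, D.ev X.reverse u, ?_,
    X, F', Y, rfl, ?_⟩
  · rw [mem_lev, B1Aux.ev_length]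
  · rw [hrev]
    exact hlt

lemma count_le {E : Finset (Finset L)} {n0 θ k : ℕ} : ∀ bs : List (List L),
    (∀ b ∈ bs, NG D E n0 θ k b) →
    bs.length ≤ ∑ t ∈ range (k + 1), ∑ A ∈ E, ∑ B ∈ E, ∑ u ∈ lev t, cnt D n0 θ A B u bs := by
  intro bs
  induction bs with
  | nil => intro _; simp
  | cons b bs ih =>
    intro h
    have h1 := ih (fun c hc => h c (List.mem_cons_of_mem _ hc))
    obtain ⟨t, ht, A, hA, B, hB, u, hu, hbad⟩ := ng_bad D (h b List.mem_cons_self)
    simp only [cnt, Finset.sum_add_distrib]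
    have e1 : ∀ t A B, ∑ u ∈ lev t, cnt D n0 θ A B (D.ev b u) bs =
        ∑ u ∈ lev t, cnt D n0 θ A B u bs :=
      fun t A B => sum_ev D t b (fun u => cnt D n0 θ A B u bs)
    simp only [e1]
    rw [List.length_cons]
    have e2 : 1 ≤ ∑ t ∈ range (k + 1), ∑ A ∈ E, ∑ B ∈ E, ∑ u ∈ lev t,
        (open Classical in if Bad D n0 θ A B u b then 1 else 0) := by
      calc 1 = (open Classical in if Bad D n0 θ A B u b then 1 else 0) := by rw [if_pos hbad]
        _ ≤ ∑ u ∈ lev t, (open Classical in if Bad D n0 θ A B u b then 1 else 0) :=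
          Finset.single_le_sum
            (f := fun u => (open Classical in if Bad D n0 θ A B u b then 1 else 0))
            (fun _ _ => Nat.zero_le _) hu
        _ ≤ ∑ B ∈ E, ∑ u ∈ lev t, (open Classical in if Bad D n0 θ A B u b then 1 else 0) :=
          Finset.single_le_sum
            (f := fun B => ∑ u ∈ lev t, (open Classical in if Bad D n0 θ A B u b then 1 else 0))
            (fun _ _ => Nat.zero_le _) hB
        _ ≤ ∑ A ∈ E, ∑ B ∈ E, ∑ u ∈ lev t,
              (open Classical in if Bad D n0 θ A B u b then 1 else 0) :=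
          Finset.single_le_sum
            (f := fun A => ∑ B ∈ E, ∑ u ∈ lev t,
              (open Classical in if Bad D n0 θ A B u b then 1 else 0))
            (fun _ _ => Nat.zero_le _) hA
        _ ≤ _ :=
          Finset.single_le_sum
            (f := fun t => ∑ A ∈ E, ∑ B ∈ E, ∑ u ∈ lev t,
              (open Classical in if Bad D n0 θ A B u b then 1 else 0))
            (fun _ _ => Nat.zero_le _) ht
    omega

/-! ### The greedy pieces -/

lemma ut_or {E : Finset (Finset L)} {n0 θ k : ℕ} {F : List L} (hF : red F = F) :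
    D.UT E n0 θ k F ∨ NG D E n0 θ k F := by
  by_cases h : NG D E n0 θ k F
  · exact Or.inr h
  · left
    refine ⟨hF, fun u hu F' hF' A hA B hB => ?_⟩
    by_contra hcon
    push Not at hcon
    exact h ⟨u, hu, F', hF', A, hA, B, hB, hcon⟩

omit [Fintype L] in
lemma runs_le (A : Finset L) (w : List L) : runs A w ≤ w.length := by
  have : ∀ (w : List L) (p : Bool), runsAux A p w ≤ w.length := by
    intro w
    induction w with
    | nil => intro p; simp [runsAux]
    | cons x w ih =>
      intro p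
      simp only [runsAux, List.length_cons]
      split_ifs
      · have := ih true; omega
      · have := ih true; omega
      · have := ih false; omega
  exact this w false

lemma sec_len (b : Bool) (w : List L) : (D.sec b w).length ≤ w.length := by
  induction w generalizing b with
  | nil => rw [B1Aux.sec_nil]
  | cons j w ih =>
    by_cases hj : j = D.o
    · subst hj
      rw [B1Aux.sec_o, List.length_cons]
      exact (ih _).trans (Nat.le_succ _)
    · cases hp : D.pre b j with
      | none =>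
        rw [B1Aux.sec_none D hj hp, List.length_cons]
        exact (ih _).trans (Nat.le_succ _)
      | some i =>
        rw [B1Aux.sec_some D hj hp, List.length_cons, List.length_cons]
        exact Nat.succ_le_succ (ih _)

lemma secL_len (u : List Bool) (w : List L) : (D.secL u w).length ≤ w.length := by
  induction u generalizing w with
  | nil => rw [B3Aux.secL_nil]
  | cons b u ih =>
    rw [B3Aux.secL_cons]
    exact (ih _).trans (sec_len D b w)

lemma ut_short {E : Finset (Finset L)} {n0 θ k : ℕ} (hθ : 1 ≤ θ) {F : List L}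
    (hF : F.length ≤ 1) : D.UT E n0 θ k F := by
  refine ⟨?_, fun u _ F' hF' A _ B _ => ?_⟩
  · match F, hF with
    | [], _ => rfl
    | [x], _ => rfl
  · have h1 := runs_le A (D.secL u F')
    have h2 := secL_len D u F'
    have h3 := hF'.length_le
    omega

lemma greedy {E : Finset (Finset L)} {n0 θ k : ℕ} (hθ : 1 ≤ θ) : ∀ (n : ℕ) (Q : List L),
    Q.length ≤ n → red Q = Q → ∃ (bs : List (List L)) (R : List L), Q = bs.flatten ++ R ∧
      D.UT E n0 θ k R ∧ ∀ b ∈ bs, NG D E n0 θ k b ∧ ∃ p x, b = p ++ [x] ∧ D.UT E n0 θ k p := by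
  intro n
  induction n with
  | zero =>
    intro Q hQ _
    exact ⟨[], Q, rfl, ut_short D hθ (by omega), by simp⟩
  | succ n ih =>
    intro Q hQ hred
    rcases ut_or D (E := E) (n0 := n0) (θ := θ) (k := k) hred with h | h
    · exact ⟨[], Q, rfl, h, by simp⟩
    · classical
      have hex : ∃ i, NG D E n0 θ k (Q.take i) := ⟨Q.length, by rw [List.take_length]; exact h⟩
      set i := Nat.find hex with hi
      have hNG : NG D E n0 θ k (Q.take i) := Nat.find_spec hex
      have hnot : ∀ j, j < i → ¬ NG D E n0 θ k (Q.take j) := fun j hj => Nat.find_min hex hj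
      have hnotUT : ∀ F, D.UT E n0 θ k F → ¬ NG D E n0 θ k F := by
        rintro F hF ⟨u, hu, F', hF', A, hA, B, hB, hlt⟩
        have := hF.2 u hu F' hF' A hA B hB
        omega
      have hi0 : i ≠ 0 := by
        intro h0
        rw [h0] at hNG
        exact hnotUT _ (ut_short D hθ (by simp)) hNG
      obtain ⟨m, hm⟩ : ∃ m, i = m + 1 := ⟨i - 1, by omega⟩
      have hile : i ≤ Q.length := by
        rw [hi]
        exact Nat.find_min' hex (by rw [List.take_length]; exact h)
      have hmlt : m < Q.length := by omega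
      have htake : Q.take i = Q.take m ++ [Q[m]] := by
        rw [hm]
        exact (List.take_append_getElem hmlt).symm
      have hUTm : D.UT E n0 θ k (Q.take m) := by
        have hr : red (Q.take m) = Q.take m :=
          TB0Aux.red_factor hred (List.take_prefix m Q).isInfix
        rcases ut_or D (E := E) (n0 := n0) (θ := θ) (k := k) hr with h1 | h1
        · exact h1
        · exact absurd h1 (hnot m (by omega))
      obtain ⟨bs, R, h1, h2, h3⟩ := ih (Q.drop i) (by rw [List.length_drop]; omega)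
        (TB0Aux.red_factor hred (List.drop_suffix i Q).isInfix)
      refine ⟨Q.take i :: bs, R, ?_, h2, ?_⟩
      · rw [List.flatten_cons, List.append_assoc, ← h1, List.take_append_drop]
      · intro b hb
        rcases List.mem_cons.1 hb with rfl | hb
        · exact ⟨hNG, Q.take m, Q[m], htake, hUTm⟩
        · exact h3 b hb

lemma pieces {E : Finset (Finset L)} {n0 θ k : ℕ} (hθ : 1 ≤ θ) (R : List L)
    (hR : D.UT E n0 θ k R) : ∀ bs : List (List L),
    (∀ b ∈ bs, ∃ p x, b = p ++ [x] ∧ D.UT E n0 θ k p) →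
    ∃ ps : List (List L), ps.length = 2 * bs.length + 1 ∧ (∀ p ∈ ps, D.UT E n0 θ k p) ∧
      ps.flatten = bs.flatten ++ R := by
  intro bs
  induction bs with
  | nil => intro _; exact ⟨[R], rfl, by simpa using hR, by simp⟩
  | cons b bs ih =>
    intro h
    obtain ⟨ps, h1, h2, h3⟩ := ih (fun c hc => h c (List.mem_cons_of_mem _ hc))
    obtain ⟨p, x, rfl, hp⟩ := h b List.mem_cons_self
    refine ⟨p :: [x] :: ps, ?_, ?_, ?_⟩
    · simp only [List.length_cons, h1]
      omega
    · intro q hq
      simp only [List.mem_cons] at hq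
      rcases hq with rfl | rfl | hq
      · exact hp
      · exact ut_short D hθ (by simp)
      · exact h2 q hq
    · simp [h3, List.append_assoc]

lemma cut {E : Finset (Finset L)} (hE : D.Mixing E) {n0 θ : ℕ} (k : ℕ) (hexp : D.Exp E n0)
    (hθ : 2 ^ (n0 + 1) + 2 ≤ θ) (Q : List L) (hQ : red Q = Q) :
    ∃ (ps : List (List L)) (s : ℕ), ps.flatten = Q ∧ (∀ p ∈ ps, D.UT E n0 θ k p) ∧
      ps.length = 2 * s + 1 ∧
      s + ∑ t ∈ range (k + 1), ∑ _A ∈ E, ∑ B ∈ E, D.tot (rr B) (t + n0) Q ≤
        ∑ t ∈ range (k + 1), ∑ A ∈ E, ∑ _B ∈ E, (D.tot (runs A) t Q + 2 ^ (t + (n0 + 1))) := by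
  have hθ1 : 1 ≤ θ := le_trans (le_trans (by norm_num) (Nat.le_add_left 2 _)) hθ
  obtain ⟨bs, R, h1, h2, h3⟩ := greedy D (E := E) (n0 := n0) (k := k) hθ1 Q.length Q le_rfl hQ
  obtain ⟨ps, h4, h5, h6⟩ := pieces D hθ1 R h2 bs (fun b hb => (h3 b hb).2)
  refine ⟨ps, bs.length, h6.trans h1.symm, h5, h4, ?_⟩
  have h7 := count_le D bs (fun b hb => (h3 b hb).1)
  have key : ∀ t, ∀ A ∈ E, ∀ B ∈ E,
      (∑ u ∈ lev t, cnt D n0 θ A B u bs) + D.tot (rr B) (t + n0) Q ≤
        D.tot (runs A) t Q + 2 ^ (t + (n0 + 1)) := by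
    intro t A hA B hB
    have e1 : ∀ u ∈ lev t, (cnt D n0 θ A B u bs : ℕ) + D.tot (rr B) n0 (D.secL u Q) ≤
        runs A (D.secL u Q) + 2 ^ (n0 + 1) := by
      intro u _
      have e2 := gap D hE (hexp.2 A hA B hB) hθ R bs [] u
      rw [B1Aux.ev_nil, List.nil_append, ← h1] at e2
      unfold dfc at e2
      have e3 : ((2 ^ (n0 + 1) : ℕ) : ℤ) = 2 ^ (n0 + 1) := by push_cast; rfl
      rw [← e3] at e2
      omega
    have e2 := Finset.sum_le_sum e1
    rw [Finset.sum_add_distrib, Finset.sum_add_distrib, Finset.sum_const, card_lev,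
      ← tot_lev D (fun z => D.tot (rr B) n0 z) t Q, ← tot_lev D (runs A) t Q, ← tot_tot,
      smul_eq_mul, ← pow_add] at e2
    exact e2
  calc bs.length + ∑ t ∈ range (k + 1), ∑ _A ∈ E, ∑ B ∈ E, D.tot (rr B) (t + n0) Q
      ≤ (∑ t ∈ range (k + 1), ∑ A ∈ E, ∑ B ∈ E, ∑ u ∈ lev t, cnt D n0 θ A B u bs) +
        ∑ t ∈ range (k + 1), ∑ _A ∈ E, ∑ B ∈ E, D.tot (rr B) (t + n0) Q :=
        Nat.add_le_add_right h7 _
    _ = ∑ t ∈ range (k + 1), ∑ A ∈ E, ∑ B ∈ E,
          ((∑ u ∈ lev t, cnt D n0 θ A B u bs) + D.tot (rr B) (t + n0) Q) := by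
        simp only [Finset.sum_add_distrib]
    _ ≤ _ := by
        refine Finset.sum_le_sum fun t _ => Finset.sum_le_sum fun A hA =>
          Finset.sum_le_sum fun B hB => key t A hA B hB

end TB1Aux

end R4
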