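import Pool.Agent.Work.MP_e3f5d9_al.P0
import Pool.Agent.Work.MP_e3f5d9_al.TB1a

/-!
# R4, block PB5: UT words are products of boundedly many perfect words

Take a decomposition into perfect words with the smallest number of pieces; two neighbouring pieces
are not perfect together, and the number of these pairs is bounded by `ViolBound`.
-/

set_option autoImplicit false
set_option linter.unusedSectionVars false

open Finset

namespace R4

namespace PB5Aux

open TB1Aux

variable {L : Type} [Fintype L] [DecidableEq L] (D : KS L)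

/-- Types of violations. -/
abbrev Ix (L : Type) := Finset L ⊕ ((Finset L × Bool) ⊕ (Finset L × Finset L))

/-- The violation of type `τ` occurs in the word (of a node of level `n`). -/
def Bad (E : Finset (Finset L)) (d n : ℕ) : Ix L → List L → Prop
  | .inl A, V => A ∈ E ∧ ¬ RClean A V
  | .inr (.inl p), V => p.1 ∈ E ∧ (D.lp p.2 p.1).Nonempty ∧ ¬ D.Clean p.1 p.2 V
  | .inr (.inr p), V => D.Mono E p.1 p.2 ∧ D.Side E p.1 ∧ d ≤ n ∧ ¬ Alt p.1 p.2 V

lemma bad_super {E : Finset (Finset L)} {d n : ℕ} {τ : Ix L} {V V' : List L} (h : V <:+: V')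
    (hb : Bad D E d n τ V) : Bad D E d n τ V' := by
  rcases τ with A | p | p
  · exact ⟨hb.1, fun hc => hb.2 fun x R y hx => hc x R y (hx.trans h)⟩
  · exact ⟨hb.1, hb.2.1, fun hc => hb.2.2 ⟨fun x R y hx => hc.1 x R y (hx.trans h),
      fun x R y hx => hc.2 x R y (hx.trans h)⟩⟩
  · exact ⟨hb.1, hb.2.1, hb.2.2.1, fun hc => hb.2.2.2 fun x R y hx => hc x R y (hx.trans h)⟩

/-- Sections of a list of words. -/
noncomputable def secs : List Bool → List (List L) → List (List L)
  | _, [] => []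
  | u, Z :: Zs => D.secL u Z :: secs (D.ev Z u) Zs

lemma secs_flatten : ∀ (Zs : List (List L)) (u : List Bool),
    (secs D u Zs).flatten = D.secL u Zs.flatten := by
  intro Zs
  induction Zs with
  | nil =>
    intro u
    simp only [secs, List.flatten_nil]
    have h := secL_len D u ([] : List L)
    exact (List.length_eq_zero_iff.1 (Nat.le_zero.1 h)).symm
  | cons Z Zs ih =>
    intro u
    simp only [secs, List.flatten_cons]
    rw [(tb0 D).secL_append, ih]

/-- Merging of the pieces without violation. -/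
lemma group (Q : List L → Prop) [DecidablePred Q] (hQ : ∀ V V' : List L, V <:+: V' → Q V → Q V') :
    ∀ Ws : List (List L), ∃ (Ws' : List (List L)) (P : List L), Ws.flatten = P ++ Ws'.flatten ∧
      (∀ V ∈ Ws', Q V) ∧ Ws'.length = Ws.countP (fun V => decide (Q V)) := by
  intro Ws
  induction Ws with
  | nil => exact ⟨[], [], rfl, by simp, rfl⟩
  | cons V Ws ih =>
    obtain ⟨Ws', P, h1, h2, h3⟩ := ih
    by_cases hV : Q V
    · refine ⟨(V ++ P) :: Ws', [], ?_, ?_, ?_⟩
      · simp [h1]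
      · intro U hU
        rcases List.mem_cons.1 hU with rfl | hU
        · exact hQ V _ ⟨[], P, by simp⟩ hV
        · exact h2 U hU
      · rw [List.length_cons, h3, List.countP_cons_of_pos (by simpa using hV)]
    · refine ⟨Ws', V ++ P, ?_, h2, ?_⟩
      · simp [h1]
      · rw [h3, List.countP_cons_of_neg (by simpa using hV)]

open Classical in
/-- The number of pieces with the violation `τ` at the node `u`. -/
noncomputable def cnt (E : Finset (Finset L)) (d : ℕ) (τ : Ix L) (u : List Bool)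
    (Zs : List (List L)) : ℕ :=
  (secs D u Zs).countP fun V => decide (Bad D E d u.length τ V)

lemma cnt_le {E : Finset (Finset L)} {n0 θ c d k : ℕ}
    (hv : ∀ k F, D.UT E n0 θ (k + d) F →
      ∀ u : List Bool, u.length ≤ k → ∀ Ws : List (List L), Ws.flatten <:+: D.secL u F →
      (∀ A ∈ E, (∀ V ∈ Ws, ¬ RClean A V) → Ws.length ≤ c) ∧
      (∀ A ∈ E, ∀ t, (D.lp t A).Nonempty → (∀ V ∈ Ws, ¬ D.Clean A t V) → Ws.length ≤ c) ∧
      (∀ X Y, D.Mono E X Y → D.Side E X → d ≤ u.length → (∀ V ∈ Ws, ¬ Alt X Y V) →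
        Ws.length ≤ c)) {Zs : List (List L)} (hF : D.UT E n0 θ (k + d) Zs.flatten)
    (τ : Ix L) (u : List Bool) (hu : u.length ≤ k) : cnt D E (d + 1) τ u Zs ≤ c := by
  classical
  obtain ⟨Ws', P, h1, h2, h3⟩ := group (fun V => Bad D E (d + 1) u.length τ V)
    (fun V V' h => bad_super D h) (secs D u Zs)
  have h4 : cnt D E (d + 1) τ u Zs = Ws'.length := by
    rw [h3]
    unfold cnt
    congr!
  rw [h4]
  have h5 : Ws'.flatten <:+: D.secL u Zs.flatten := by
    rw [← secs_flatten, h1]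
    exact ⟨P, [], by simp⟩
  have h6 := hv k Zs.flatten hF u hu Ws' h5
  rcases Ws' with _ | ⟨W, Ws'⟩
  · exact Nat.zero_le _
  · have hW := h2 W List.mem_cons_self
    rcases τ with A | p | p
    · exact h6.1 A hW.1 fun V hV => (h2 V hV).2
    · exact h6.2.1 p.1 hW.1 p.2 hW.2.1 fun V hV => (h2 V hV).2.2
    · exact h6.2.2 p.1 p.2 hW.1 hW.2.1 (Nat.le_of_succ_le hW.2.2.1) fun V hV => (h2 V hV).2.2.2

open Classical in
lemma cnt_cons (E : Finset (Finset L)) (d : ℕ) (τ : Ix L) (u : List Bool) (Z : List L)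
    (Zs : List (List L)) : cnt D E d τ u (Z :: Zs) =
      cnt D E d τ (D.ev Z u) Zs + (if Bad D E d u.length τ (D.secL u Z) then 1 else 0) := by
  unfold cnt
  simp only [secs]
  rw [List.countP_cons, B1Aux.ev_length]
  congr 1
  simp

lemma count_all {E : Finset (Finset L)} {d k : ℕ} : ∀ Zs : List (List L),
    (∀ Z ∈ Zs, ∃ u : List Bool, u.length ≤ k ∧ ∃ τ, Bad D E d u.length τ (D.secL u Z)) →
    Zs.length ≤ ∑ t ∈ range (k + 1), ∑ τ : Ix L, ∑ u ∈ lev t, cnt D E d τ u Zs := by
  classical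
  intro Zs
  induction Zs with
  | nil => intro _; simp
  | cons Z Zs ih =>
    intro h
    have h1 := ih (fun c hc => h c (List.mem_cons_of_mem _ hc))
    obtain ⟨u, hu, τ, hbad⟩ := h Z List.mem_cons_self
    simp only [cnt_cons, Finset.sum_add_distrib]
    have e1 : ∀ t (τ : Ix L), ∑ u ∈ lev t, cnt D E d τ (D.ev Z u) Zs =
        ∑ u ∈ lev t, cnt D E d τ u Zs :=
      fun t τ => sum_ev D t Z (fun u => cnt D E d τ u Zs)
    simp only [e1]
    rw [List.length_cons]
    have e2 : 1 ≤ ∑ t ∈ range (k + 1), ∑ τ : Ix L, ∑ u ∈ lev t,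
        (if Bad D E d u.length τ (D.secL u Z) then 1 else 0) := by
      calc 1 = (if Bad D E d u.length τ (D.secL u Z) then 1 else 0) := by rw [if_pos hbad]
        _ ≤ ∑ u ∈ lev u.length, (if Bad D E d u.length τ (D.secL u Z) then 1 else 0) :=
          Finset.single_le_sum
            (f := fun u : List Bool => (if Bad D E d u.length τ (D.secL u Z) then 1 else 0))
            (fun _ _ => Nat.zero_le _) ((mem_lev _ _).2 rfl)
        _ ≤ ∑ τ : Ix L, ∑ u ∈ lev u.length, (if Bad D E d u.length τ (D.secL u Z) then 1 else 0) :=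
          Finset.single_le_sum
            (f := fun τ : Ix L => ∑ u ∈ lev u.length,
              (if Bad D E d u.length τ (D.secL u Z) then 1 else 0))
            (fun _ _ => Nat.zero_le _) (Finset.mem_univ τ)
        _ ≤ _ :=
          Finset.single_le_sum
            (f := fun t => ∑ τ : Ix L, ∑ u ∈ lev t,
              (if Bad D E d u.length τ (D.secL u Z) then 1 else 0))
            (fun _ _ => Nat.zero_le _) (Finset.mem_range.2 (Nat.lt_succ_of_le hu))
    omega

/-! ### Minimal decompositions -/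

/-- Neighbouring pairs. -/
def pairUp : List (List L) → List (List L)
  | a :: b :: t => (a ++ b) :: pairUp t
  | _ => []

lemma pairUp_spec : ∀ (n : ℕ) (Fs : List (List L)), Fs.length ≤ n →
    (∃ Q, Fs.flatten = (pairUp Fs).flatten ++ Q) ∧ Fs.length ≤ 2 * (pairUp Fs).length + 1 ∧
    ∀ Z ∈ pairUp Fs, ∃ Xs a b Ys, Fs = Xs ++ a :: b :: Ys ∧ Z = a ++ b := by
  intro n
  induction n with
  | zero =>
    intro Fs hF
    have : Fs = [] := List.length_eq_zero_iff.1 (Nat.le_zero.1 hF)
    subst this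
    exact ⟨⟨[], rfl⟩, by simp, by simp [pairUp]⟩
  | succ n ih =>
    intro Fs hF
    match Fs, hF with
    | [], _ => exact ⟨⟨[], rfl⟩, by simp, by simp [pairUp]⟩
    | [a], _ => exact ⟨⟨a, by simp [pairUp]⟩, by simp, by simp [pairUp]⟩
    | a :: b :: t, hF =>
      obtain ⟨⟨Q, h1⟩, h2, h3⟩ := ih t (by simp only [List.length_cons] at hF; omega)
      refine ⟨⟨Q, ?_⟩, ?_, ?_⟩
      · simp [pairUp, h1]
      · simp only [pairUp, List.length_cons]; omega
      · intro Z hZ
        simp only [pairUp, List.mem_cons] at hZ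
        rcases hZ with rfl | hZ
        · exact ⟨[], a, b, t, rfl, rfl⟩
        · obtain ⟨Xs, a', b', Ys, h4, h5⟩ := h3 Z hZ
          exact ⟨a :: b :: Xs, a', b', Ys, by rw [h4]; rfl, h5⟩

lemma mem_factor {Fs : List (List L)} {V : List L} (h : V ∈ Fs) : V <:+: Fs.flatten := by
  obtain ⟨s, t, rfl⟩ := List.append_of_mem h
  exact ⟨s.flatten, t.flatten, by simp⟩

lemma perf_short {E : Finset (Finset L)} {n0 θ d k : ℕ} {V : List L} (hV : V.length ≤ 1)
    (hu : D.UT E n0 θ (k + d) V) : D.Perf E n0 θ d k V := by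
  have key : ∀ (u : List Bool) (x : L) (R : List L) (y : L),
      ¬ (x :: (R ++ [y])) <:+: D.secL u V := by
    intro u x R y ⟨P, Q, h⟩
    have h1 := congrArg List.length h
    have h2 := secL_len D u V
    simp only [List.length_append, List.length_cons, List.length_nil] at h1
    omega
  exact ⟨hu, fun u _ A _ x R y h => absurd h (key u x R y),
    fun u _ A _ t _ => ⟨fun x R y h => absurd h (key u x R y),
      fun x R y h => absurd h (key u x R y)⟩,
    fun u _ _ X Y _ _ x R y h => absurd h (key u x R y)⟩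

lemma bad_of_not_perf {E : Finset (Finset L)} {n0 θ d k : ℕ} {V : List L}
    (hu : D.UT E n0 θ (k + d) V) (h : ¬ D.Perf E n0 θ d k V) :
    ∃ u : List Bool, u.length ≤ k ∧ ∃ τ, Bad D E d u.length τ (D.secL u V) := by
  by_contra hcon
  push Not at hcon
  apply h
  refine ⟨hu, fun u hk A hA => ?_, fun u hk A hA t ht => ?_, fun u hd hk X Y hXY hX => ?_⟩
  · by_contra h1
    exact hcon u hk (.inl A) ⟨hA, h1⟩
  · by_contra h1
    exact hcon u hk (.inr (.inl (A, t))) ⟨hA, ht, h1⟩
  · by_contra h1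
    exact hcon u hk (.inr (.inr (X, Y))) ⟨hXY, hX, hd, h1⟩

end PB5Aux

open PB5Aux TB1Aux in
/-- PB5. -/
theorem pb5 {L : Type} [Fintype L] [DecidableEq L] (D : KS L) (hV : ViolBound D) : CutPerf D := by
  classical
  intro E hE n0 θ hexp
  obtain ⟨c, d, hv⟩ := hV E hE n0 θ hexp
  refine ⟨d + 1, Nat.succ_pos d, fun k =>
    ⟨2 * (∑ t ∈ range (k + 1), ∑ _τ : Ix L, ∑ _u ∈ lev t, c) + 1, fun F hF => ?_⟩⟩
  have hU := tb0 D
  -- a decomposition
  have hex : ∃ m, ∃ Fs : List (List L), Fs.flatten = F ∧ Fs.length = m ∧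
      ∀ V ∈ Fs, D.Perf E n0 θ (d + 1) k V := by
    refine ⟨_, F.map (fun x => [x]), ?_, rfl, ?_⟩
    · induction F with
      | nil => rfl
      | cons x F ih =>
        simp only [List.map_cons, List.flatten_cons]
        have h2 : D.UT E n0 θ (k + (d + 1)) F := hU.ut_factor _ _ _ _ _ _ hF ⟨[x], [], by simp⟩
        rw [ih h2]
        rfl
    · intro V hV'
      obtain ⟨x, hx, rfl⟩ := List.mem_map.1 hV'
      apply perf_short D (by simp)
      obtain ⟨s, t, rfl⟩ := List.append_of_mem hx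
      exact hU.ut_factor _ _ _ _ _ _ hF ⟨s, t, by simp⟩
  obtain ⟨Fs, h1, h2, h3⟩ := Nat.find_spec hex
  have hmin : ∀ Fs' : List (List L), Fs'.flatten = F → (∀ V ∈ Fs', D.Perf E n0 θ (d + 1) k V) →
      Fs.length ≤ Fs'.length := by
    intro Fs' h4 h5
    rw [h2]
    exact Nat.find_min' hex ⟨Fs', h4, rfl, h5⟩
  refine ⟨Fs, h1, ?_, h3⟩
  obtain ⟨⟨Q, h4⟩, h5, h6⟩ := pairUp_spec Fs.length Fs le_rfl
  set Zs := pairUp Fs with hZs
  have hfac : Zs.flatten <:+: F := ⟨[], Q, by rw [← h1, h4]; simp⟩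
  have hUZ : D.UT E n0 θ (k + (d + 1)) Zs.flatten := hU.ut_factor _ _ _ _ _ _ hF hfac
  have hUZ' : D.UT E n0 θ (k + d) Zs.flatten := hU.ut_mono _ _ _ _ _ _ (by omega) hUZ
  have hbad : ∀ Z ∈ Zs, ∃ u : List Bool, u.length ≤ k ∧
      ∃ τ, Bad D E (d + 1) u.length τ (D.secL u Z) := by
    intro Z hZ
    apply bad_of_not_perf D (hU.ut_factor _ _ _ _ _ _ hUZ (mem_factor hZ))
    intro hp
    obtain ⟨Xs, a, b, Ys, h7, rfl⟩ := h6 Z hZ
    have h8 := hmin (Xs ++ (a ++ b) :: Ys) (by rw [← h1, h7]; simp) (by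
      intro V hV'
      rw [List.mem_append, List.mem_cons] at hV'
      rcases hV' with hV' | rfl | hV'
      · exact h3 V (by rw [h7]; simp [hV'])
      · exact hp
      · exact h3 V (by rw [h7]; simp [hV']))
    rw [h7] at h8
    simp only [List.length_append, List.length_cons] at h8
    omega
  have h7 := count_all D Zs hbad
  have h8 : ∑ t ∈ range (k + 1), ∑ τ : Ix L, ∑ u ∈ lev t, cnt D E (d + 1) τ u Zs ≤
      ∑ t ∈ range (k + 1), ∑ _τ : Ix L, ∑ _u ∈ lev t, c := by
    refine Finset.sum_le_sum fun t ht => Finset.sum_le_sum fun τ _ => Finset.sum_le_sum fun u hu => ?_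
    rw [Finset.mem_range] at ht
    rw [mem_lev] at hu
    exact cnt_le D hv hUZ' τ u (by omega)
  omega

end R4
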