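import Pool.Agent.Work.MP_e3f5d9_al.T0
import Pool.Agent.Work.MP_e3f5d9_al.B8

/-!
# R4, block TB2: the reduction to nodes with ancestors
-/

set_option autoImplicit false

open Finset

namespace R4

namespace TB2Aux

variable {L : Type} [Fintype L] [DecidableEq L] (D : KS L)

lemma length_eq_sum (z : List L) : z.length = ∑ i, z.count i := by
  induction z with
  | nil => simp
  | cons x z ih =>
    simp only [List.length_cons, List.count_cons]
    rw [Finset.sum_add_distrib, ← ih]
    simp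

lemma sum_length (h3 : TotBasics D) (k : ℕ) (F : List L) :
    ∑ v : Fin k → Bool, (D.secL (List.ofFn v) F).length ≤ Fintype.card L * F.length := by
  have h : ∑ v : Fin k → Bool, (D.secL (List.ofFn v) F).length =
      ∑ i : L, D.tot (List.count i) k F := by
    simp only [h3.tot_secL]
    rw [Finset.sum_comm]
    exact Finset.sum_congr rfl fun v _ => length_eq_sum _
  rw [h]
  calc ∑ i : L, D.tot (List.count i) k F ≤ ∑ _i : L, F.length := by
        apply Finset.sum_le_sum
        intro i _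
        rw [h3.tot_count]
        exact List.count_le_length
    _ = Fintype.card L * F.length := by simp

lemma finite_ev (P : List L → Prop) (m : ℕ) :
    {g : List Bool → List Bool | ∃ W : List L, P W ∧ W.length ≤ m ∧ D.ev W = g}.Finite := by
  have hfin : {l : List L | l.length ≤ m}.Finite := List.finite_length_le L m
  refine (hfin.image (fun l => D.ev l)).subset ?_
  rintro g ⟨w, -, hw, rfl⟩
  exact ⟨w, hw, rfl⟩

/-- The number of elements given by words whose sections of level `k` satisfy `P`. -/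
lemma card_level (h1 : Basics D) (h3 : TotBasics D) (k : ℕ) (Q P : List L → Prop)
    (hQP : ∀ F, Q F → ∀ u : List Bool, u.length = k → P (D.secL u F)) (C δ : ℝ) (hC : 0 ≤ C)
    (hδ : 0 ≤ δ)
    (hN : ∀ m : ℕ, (Set.ncard {g : List Bool → List Bool | ∃ W : List L, P W ∧ W.length ≤ m ∧
      D.ev W = g} : ℝ) ≤ C * Real.exp (δ * m)) (ℓ : ℕ) :
    (Set.ncard {g : List Bool → List Bool | ∃ F : List L, Q F ∧ F.length ≤ ℓ ∧ D.ev F = g} : ℝ)
      ≤ (((List.finite_length_eq Bool k).toFinset.card : ℝ) ^ (2 ^ k) * C ^ (2 ^ k)) *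
        ((Fintype.card L * ℓ + 1 : ℕ) : ℝ) ^ (2 ^ k) *
        Real.exp (δ * (Fintype.card L * ℓ : ℕ)) := by
  classical
  set S := {g : List Bool → List Bool | ∃ F : List L, Q F ∧ F.length ≤ ℓ ∧ D.ev F = g} with hS
  let W : (List Bool → List Bool) → List L := fun g =>
    if h : ∃ F : List L, Q F ∧ F.length ≤ ℓ ∧ D.ev F = g then h.choose else []
  have hW : ∀ g ∈ S, Q (W g) ∧ (W g).length ≤ ℓ ∧ D.ev (W g) = g := by
    intro g hg
    have hg' : ∃ F : List L, Q F ∧ F.length ≤ ℓ ∧ D.ev F = g := hg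
    simp only [W, dif_pos hg']
    exact hg'.choose_spec
  set c := Fintype.card L with hc
  let A : Finset ((Fin k → Bool) → List Bool) :=
    Fintype.piFinset fun _ => (List.finite_length_eq Bool k).toFinset
  let N : ℕ → Finset (List Bool → List Bool) := fun m => (finite_ev D P m).toFinset
  let Λ : Finset ((Fin k → Bool) → ℕ) :=
    (Fintype.piFinset fun _ => Finset.range (c * ℓ + 1)).filter fun f => ∑ v, f v ≤ c * ℓ
  let T : Finset (Σ _ : ((Fin k → Bool) → ℕ), ((Fin k → Bool) → (List Bool → List Bool))) :=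
    Λ.sigma fun f => Fintype.piFinset fun v => N (f v)
  let Φ : (List Bool → List Bool) → ((Fin k → Bool) → List Bool) ×
      (Σ _ : ((Fin k → Bool) → ℕ), ((Fin k → Bool) → (List Bool → List Bool))) :=
    fun g => (fun v => D.ev (W g) (List.ofFn v),
      ⟨fun v => (D.secL (List.ofFn v) (W g)).length, fun v => D.ev (D.secL (List.ofFn v) (W g))⟩)
  have hmaps : ∀ g ∈ S, Φ g ∈ (↑(A ×ˢ T) : Set _) := by
    intro g hg
    obtain ⟨hQ, hl, hev⟩ := hW g hg
    have hsum : ∑ v : Fin k → Bool, (D.secL (List.ofFn v) (W g)).length ≤ c * ℓ :=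
      (sum_length D h3 k (W g)).trans (Nat.mul_le_mul_left _ hl)
    simp only [Finset.coe_product, Set.mem_prod, Finset.mem_coe]
    refine ⟨?_, ?_⟩
    · simp only [A, Fintype.mem_piFinset, Set.Finite.mem_toFinset, Set.mem_ofPred_eq, Φ]
      intro v
      rw [h1.ev_length]
      simp
    · simp only [T, Finset.mem_sigma, Λ, Finset.mem_filter, Fintype.mem_piFinset, Φ,
        Finset.mem_range, N, Set.Finite.mem_toFinset, Set.mem_ofPred_eq]
      refine ⟨⟨fun v => ?_, hsum⟩, fun v => ?_⟩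
      · have := Finset.single_le_sum
          (f := fun v : Fin k → Bool => (D.secL (List.ofFn v) (W g)).length)
          (fun _ _ => Nat.zero_le _) (Finset.mem_univ v)
        omega
      · exact ⟨_, hQP _ hQ _ (by simp), le_rfl, rfl⟩
  have hinj : Set.InjOn Φ S := by
    intro g hg g' hg' hΦ
    simp only [Φ, Prod.mk.injEq, Sigma.mk.injEq, heq_eq_eq] at hΦ
    rw [← (hW g hg).2.2, ← (hW g' hg').2.2]
    apply ev_ext D h1 k
    · intro v hv
      have := congrFun hΦ.1 (fun i => v.get (i.cast hv.symm))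
      have e : List.ofFn (fun i : Fin k => v.get (i.cast hv.symm)) = v := by
        subst hv
        simp
      simpa only [e] using this
    · intro v hv
      have := congrFun hΦ.2.2 (fun i => v.get (i.cast hv.symm))
      have e : List.ofFn (fun i : Fin k => v.get (i.cast hv.symm)) = v := by
        subst hv
        simp
      simpa only [e] using this
  have hle : S.ncard ≤ (A ×ˢ T).card := by
    have := Set.ncard_le_ncard_of_injOn Φ hmaps hinj (Finset.finite_toSet _)
    rwa [Set.ncard_coe_finset] at this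
  have hA : A.card = (List.finite_length_eq Bool k).toFinset.card ^ (2 ^ k) := by
    simp only [A, Fintype.card_piFinset, Finset.prod_const, Finset.card_univ]
    congr 1
    simp
  have hT : (T.card : ℝ) ≤ ((c * ℓ + 1 : ℕ) : ℝ) ^ (2 ^ k) *
      (C ^ (2 ^ k) * Real.exp (δ * (c * ℓ : ℕ))) := by
    simp only [T, Finset.card_sigma, Fintype.card_piFinset]
    push_cast
    calc ∑ f ∈ Λ, ∏ v, ((N (f v)).card : ℝ)
        ≤ ∑ _f ∈ Λ, (C ^ (2 ^ k) * Real.exp (δ * (c * ℓ : ℕ))) := by
          apply Finset.sum_le_sum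
          intro f hf
          have hf' : ∑ v, f v ≤ c * ℓ := (Finset.mem_filter.1 hf).2
          calc ∏ v, ((N (f v)).card : ℝ) ≤ ∏ v : Fin k → Bool, (C * Real.exp (δ * f v)) := by
                apply Finset.prod_le_prod
                · intro v _; exact Nat.cast_nonneg _
                · intro v _
                  have := hN (f v)
                  rwa [Set.ncard_eq_toFinset_card _ (finite_ev D P (f v))] at this
            _ = C ^ (2 ^ k) * Real.exp (δ * (∑ v, f v : ℕ)) := by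
                rw [Finset.prod_mul_distrib, ← Real.exp_sum, ← Finset.mul_sum]
                simp
            _ ≤ C ^ (2 ^ k) * Real.exp (δ * (c * ℓ : ℕ)) := by
                apply mul_le_mul_of_nonneg_left _ (pow_nonneg hC _)
                apply Real.exp_le_exp.2
                apply mul_le_mul_of_nonneg_left _ hδ
                exact_mod_cast hf'
      _ = (Λ.card : ℝ) * (C ^ (2 ^ k) * Real.exp (δ * (c * ℓ : ℕ))) := by
          rw [Finset.sum_const, nsmul_eq_mul]
      _ ≤ ((c : ℝ) * ℓ + 1) ^ (2 ^ k) * (C ^ (2 ^ k) * Real.exp (δ * (c * ℓ : ℕ))) := by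
          apply mul_le_mul_of_nonneg_right
          · have : Λ.card ≤ (c * ℓ + 1) ^ (2 ^ k) := by
              refine (Finset.card_filter_le _ _).trans ?_
              simp [Fintype.card_piFinset]
            exact_mod_cast this
          · positivity
      _ = _ := by push_cast; ring
  calc (S.ncard : ℝ) ≤ ((A ×ˢ T).card : ℝ) := by exact_mod_cast hle
    _ = (A.card : ℝ) * (T.card : ℝ) := by rw [Finset.card_product]; push_cast; ring
    _ ≤ (A.card : ℝ) * (((c * ℓ + 1 : ℕ) : ℝ) ^ (2 ^ k) *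
      (C ^ (2 ^ k) * Real.exp (δ * (c * ℓ : ℕ)))) :=
        mul_le_mul_of_nonneg_left hT (Nat.cast_nonneg _)
    _ = _ := by rw [hA]; push_cast; ring

lemma poly_le_exp (c m : ℕ) (δ : ℝ) (hδ : 0 < δ) :
    ∃ K : ℝ, 0 ≤ K ∧ ∀ ℓ : ℕ, ((c * ℓ + 1 : ℕ) : ℝ) ^ m ≤ K * Real.exp (δ * ℓ) := by
  set η := δ / (c + 1) with hη
  have hc : (0 : ℝ) < c + 1 := by positivity
  have hη0 : 0 < η := div_pos hδ hc
  refine ⟨m.factorial / η ^ m * Real.exp η, by positivity, fun ℓ => ?_⟩
  have h := Real.pow_div_factorial_le_exp (η * ((c * ℓ + 1 : ℕ) : ℝ)) (by positivity) m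
  rw [div_le_iff₀ (by positivity), mul_pow] at h
  have h2 : Real.exp (η * ((c * ℓ + 1 : ℕ) : ℝ)) ≤ Real.exp η * Real.exp (δ * ℓ) := by
    rw [← Real.exp_add]
    apply Real.exp_le_exp.2
    have h3 : η * (c + 1) = δ := by rw [hη]; field_simp
    have h4 : η * (c : ℝ) ≤ δ := by nlinarith
    have h5 : (0 : ℝ) ≤ ℓ := Nat.cast_nonneg _
    push_cast
    nlinarith
  calc ((c * ℓ + 1 : ℕ) : ℝ) ^ m = (η ^ m * ((c * ℓ + 1 : ℕ) : ℝ) ^ m) / η ^ m := by
        field_simp
    _ ≤ (Real.exp (η * ((c * ℓ + 1 : ℕ) : ℝ)) * m.factorial) / η ^ m := by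
        gcongr
    _ ≤ (Real.exp η * Real.exp (δ * ℓ) * m.factorial) / η ^ m := by
        gcongr
    _ = _ := by ring

end TB2Aux

open TB2Aux in
/-- TB2. -/
theorem tb2 {L : Type} [Fintype L] [DecidableEq L] (D : KS L) (h1 : Basics D)
    (h3 : TotBasics D) (hRL : RL D) : RLNode D := by
  intro E hE n0 hn0 H
  apply hRL E hE n0 hn0
  intro ε hε
  set c := Fintype.card L with hc
  set δ := ε / (2 * (c + 1)) with hδ
  have hc0 : (0 : ℝ) < 2 * (c + 1) := by positivity
  have hδ0 : 0 < δ := div_pos hε hc0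
  obtain ⟨k, C, hC⟩ := H δ hδ0
  have hC0 : 0 ≤ C := by
    have := hC 0
    have h2 : (0 : ℝ) ≤ C * Real.exp (δ * (0 : ℕ)) := le_trans (Nat.cast_nonneg _) this
    simpa using h2
  obtain ⟨K, hK0, hK⟩ := poly_le_exp c (2 ^ k) (ε / 2) (by positivity)
  refine ⟨2 * k, (((List.finite_length_eq Bool k).toFinset.card : ℝ) ^ (2 ^ k) * C ^ (2 ^ k)) * K,
    fun ℓ => ⟨?_, ?_⟩⟩
  · exact finite_ev D (fun F => D.UT E n0 (2 ^ (n0 + 2)) (2 * k) F) ℓ
  · have h := card_level D h1 h3 k (fun F => D.UT E n0 (2 ^ (n0 + 2)) (2 * k) F)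
      (fun W => D.Node E n0 (2 ^ (n0 + 2)) k W)
      (fun F hF u hu => ⟨F, u, hF, hu, rfl⟩) C δ hC0 hδ0.le hC ℓ
    refine h.trans ?_
    have h2 : δ * ((c * ℓ : ℕ) : ℝ) ≤ ε / 2 * ℓ := by
      have h3 : δ * (2 * (c + 1)) = ε := by rw [hδ]; field_simp
      have h4 : (0 : ℝ) ≤ ℓ := Nat.cast_nonneg _
      have h5 : δ * c ≤ ε / 2 := by nlinarith
      push_cast
      nlinarith
    have h3 : Real.exp (δ * ((c * ℓ : ℕ) : ℝ)) ≤ Real.exp (ε / 2 * ℓ) := Real.exp_le_exp.2 h2
    have h4 := hK ℓ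
    have h5 : Real.exp (ε * ℓ) = Real.exp (ε / 2 * ℓ) * Real.exp (ε / 2 * ℓ) := by
      rw [← Real.exp_add]; congr 1; ring
    rw [h5]
    have hB : (0 : ℝ) ≤ ((List.finite_length_eq Bool k).toFinset.card : ℝ) ^ (2 ^ k) *
      C ^ (2 ^ k) := by positivity
    calc ((List.finite_length_eq Bool k).toFinset.card : ℝ) ^ (2 ^ k) * C ^ (2 ^ k) *
        ((c * ℓ + 1 : ℕ) : ℝ) ^ (2 ^ k) * Real.exp (δ * ((c * ℓ : ℕ) : ℝ))
        ≤ ((List.finite_length_eq Bool k).toFinset.card : ℝ) ^ (2 ^ k) * C ^ (2 ^ k) *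
        (K * Real.exp (ε / 2 * ℓ)) * Real.exp (ε / 2 * ℓ) := by
          apply mul_le_mul _ h3 (Real.exp_pos _).le
          · exact mul_nonneg hB (mul_nonneg hK0 (Real.exp_pos _).le)
          · exact mul_le_mul_of_nonneg_left h4 hB
      _ = _ := by ring

end R4
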