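import Pool.Agent.Work.MP_e3f5d9_al.PB5
import Pool.Agent.Work.MP_e3f5d9_al.TB2

/-!
# R4, block PB6: reduction of the growth to perfect nodes
-/

set_option autoImplicit false
set_option linter.unusedSectionVars false

open Finset

namespace R4

namespace PB6Aux

variable {L : Type} [Fintype L] [DecidableEq L] (D : KS L)

/-- Elements of words of length at most `ℓ` with the property `Q`. -/
def AA (Q : List L → Prop) (ℓ : ℕ) : Set (List Bool → List Bool) :=
  {g | ∃ F : List L, Q F ∧ F.length ≤ ℓ ∧ D.ev F = g}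

/-- Elements of products of `m` words with the property `Q` of total length at most `Λ`. -/
def BB (Q : List L → Prop) (m Λ : ℕ) : Set (List Bool → List Bool) :=
  {g | ∃ ps : List (List L), ps.length = m ∧ (∀ p ∈ ps, Q p) ∧
    ps.flatten.length ≤ Λ ∧ D.ev ps.flatten = g}

lemma bb_sub (Q : List L → Prop) (m Λ : ℕ) :
    BB D Q (m + 1) Λ ⊆ ⋃ ℓ ∈ range (Λ + 1),
      (fun p : (List Bool → List Bool) × (List Bool → List Bool) => p.2 ∘ p.1) ''
        (AA D Q ℓ ×ˢ BB D Q m (Λ - ℓ)) := by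
  rintro g ⟨ps, h1, h2, h3, rfl⟩
  match ps, h1, h2, h3 with
  | p :: ps, h1, h2, h3 =>
    rw [List.flatten_cons, List.length_append] at h3
    rw [Set.mem_iUnion₂]
    refine ⟨p.length, by rw [Finset.mem_range]; omega, (D.ev p, D.ev ps.flatten), ⟨?_, ?_⟩, ?_⟩
    · exact ⟨p, h2 p List.mem_cons_self, le_rfl, rfl⟩
    · exact ⟨ps, by simpa using h1, fun q hq => h2 q (List.mem_cons_of_mem _ hq), by omega, rfl⟩
    · funext x
      rw [List.flatten_cons, B1Aux.ev_append]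
      rfl

lemma bb_count {Q : List L → Prop} {ε C : ℝ} (hε : 0 ≤ ε) (hC : 0 ≤ C)
    (h : ∀ ℓ : ℕ, (AA D Q ℓ).Finite ∧ ((AA D Q ℓ).ncard : ℝ) ≤ C * Real.exp (ε * ℓ)) :
    ∀ m Λ : ℕ, (BB D Q m Λ).Finite ∧
      ((BB D Q m Λ).ncard : ℝ) ≤ (C * (Λ + 1)) ^ m * Real.exp (ε * Λ) := by
  intro m
  induction m with
  | zero =>
    intro Λ
    have hsub : BB D Q 0 Λ ⊆ {D.ev []} := by
      rintro g ⟨ps, h1, -, -, rfl⟩
      rw [List.length_eq_zero_iff] at h1
      subst h1
      rfl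
    refine ⟨(Set.finite_singleton _).subset hsub, ?_⟩
    have h1 := Set.ncard_le_ncard hsub (Set.finite_singleton _)
    rw [Set.ncard_singleton] at h1
    have h2 : (1 : ℝ) ≤ Real.exp (ε * Λ) := Real.one_le_exp (by positivity)
    rw [pow_zero, one_mul]
    refine le_trans ?_ h2
    exact_mod_cast h1
  | succ m ih =>
    intro Λ
    have hfin : ∀ ℓ ∈ range (Λ + 1),
        ((fun p : (List Bool → List Bool) × (List Bool → List Bool) => p.2 ∘ p.1) ''
        (AA D Q ℓ ×ˢ BB D Q m (Λ - ℓ))).Finite := fun ℓ _ =>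
      ((h ℓ).1.prod (ih (Λ - ℓ)).1).image _
    have hU : (⋃ ℓ ∈ range (Λ + 1),
      (fun p : (List Bool → List Bool) × (List Bool → List Bool) => p.2 ∘ p.1) ''
        (AA D Q ℓ ×ˢ BB D Q m (Λ - ℓ))).Finite :=
      Set.Finite.biUnion (Finset.finite_toSet _) (fun ℓ hℓ => hfin ℓ hℓ)
    refine ⟨hU.subset (bb_sub D Q m Λ), ?_⟩
    have e1 : (BB D Q (m + 1) Λ).ncard ≤
        ∑ ℓ ∈ range (Λ + 1), (AA D Q ℓ).ncard * (BB D Q m (Λ - ℓ)).ncard := by
      refine (Set.ncard_le_ncard (bb_sub D Q m Λ) hU).trans ?_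
      refine (Finset.set_ncard_biUnion_le _ _).trans ?_
      refine Finset.sum_le_sum fun ℓ _ => ?_
      rw [← Set.ncard_prod]
      exact Set.ncard_image_le ((h ℓ).1.prod (ih (Λ - ℓ)).1)
    have e2 : ∀ ℓ ∈ range (Λ + 1), ((AA D Q ℓ).ncard : ℝ) *
        ((BB D Q m (Λ - ℓ)).ncard : ℝ) ≤ C * ((C * (Λ + 1)) ^ m * Real.exp (ε * Λ)) := by
      intro ℓ hℓ
      have hle : ℓ ≤ Λ := by rw [Finset.mem_range] at hℓ; omega
      have hle' : ((Λ - ℓ : ℕ) : ℝ) ≤ Λ := by exact_mod_cast Nat.sub_le Λ ℓ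
      have e3 : Real.exp (ε * Λ) = Real.exp (ε * ℓ) * Real.exp (ε * ((Λ - ℓ : ℕ) : ℝ)) := by
        rw [← Real.exp_add, Nat.cast_sub hle]
        congr 1
        ring
      have e4 : (C * (((Λ - ℓ : ℕ) : ℝ) + 1)) ^ m ≤ (C * ((Λ : ℝ) + 1)) ^ m := by
        apply pow_le_pow_left₀ (by positivity)
        apply mul_le_mul_of_nonneg_left _ hC
        linarith
      calc ((AA D Q ℓ).ncard : ℝ) * ((BB D Q m (Λ - ℓ)).ncard : ℝ)
          ≤ (C * Real.exp (ε * ℓ)) * ((C * (((Λ - ℓ : ℕ) : ℝ) + 1)) ^ m *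
            Real.exp (ε * ((Λ - ℓ : ℕ) : ℝ))) :=
            mul_le_mul (h ℓ).2 (ih (Λ - ℓ)).2 (Nat.cast_nonneg _) (by positivity)
        _ ≤ (C * Real.exp (ε * ℓ)) * ((C * ((Λ : ℝ) + 1)) ^ m *
            Real.exp (ε * ((Λ - ℓ : ℕ) : ℝ))) := by
            apply mul_le_mul_of_nonneg_left _ (by positivity)
            exact mul_le_mul_of_nonneg_right e4 (Real.exp_pos _).le
        _ = _ := by rw [e3]; ring
    calc ((BB D Q (m + 1) Λ).ncard : ℝ)
        ≤ ∑ ℓ ∈ range (Λ + 1), ((AA D Q ℓ).ncard : ℝ) *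
            ((BB D Q m (Λ - ℓ)).ncard : ℝ) := by exact_mod_cast e1
      _ ≤ ∑ _ℓ ∈ range (Λ + 1), C * ((C * (Λ + 1)) ^ m * Real.exp (ε * Λ)) :=
          Finset.sum_le_sum e2
      _ = (C * (Λ + 1)) ^ (m + 1) * Real.exp (ε * Λ) := by
          rw [Finset.sum_const, Finset.card_range, nsmul_eq_mul, pow_succ]
          push_cast
          ring

lemma size_le (W : List L) : D.size W ≤ W.length := TB1Aux.runs_le _ _

end PB6Aux

open PB6Aux TB2Aux in
/-- PB6. -/
theorem pb6 {L : Type} [Fintype L] [DecidableEq L] (D : KS L) (hRL : RL D) (hCP : CutPerf D) :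
    RLPerf D := by
  classical
  intro E hE n0 hexp
  obtain ⟨d, hd, hcut⟩ := hCP E hE n0 (2 ^ (n0 + 2)) hexp
  refine ⟨d, hd, fun hK => ?_⟩
  have hU := tb0 D
  apply hRL E hE.toMixing n0 hexp
  intro ε hε
  set c := Fintype.card L with hc
  set δ := ε / (4 * (c + 1)) with hδ
  have hc0 : (0 : ℝ) < 4 * (c + 1) := by positivity
  have hδ0 : 0 < δ := div_pos hε hc0
  obtain ⟨k, C, hC⟩ := hK δ hδ0
  set θ := 2 ^ (n0 + 2) with hθ
  set P : List L → Prop := fun W => D.PNode E n0 θ d k W with hP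
  have hN : ∀ m : ℕ, (Set.ncard {g : List Bool → List Bool | ∃ W : List L, P W ∧ W.length ≤ m ∧
      D.ev W = g} : ℝ) ≤ C * Real.exp (δ * m) := by
    intro m
    obtain ⟨h1, h2⟩ := hC m
    refine le_trans ?_ h2
    have hsub : {g : List Bool → List Bool | ∃ W : List L, P W ∧ W.length ≤ m ∧ D.ev W = g} ⊆
        D.ev '' {W | D.PNode E n0 θ d k W ∧ D.size W ≤ m} := by
      rintro g ⟨W, hW, hl, rfl⟩
      exact ⟨W, ⟨hW, (size_le D W).trans hl⟩, rfl⟩
    exact_mod_cast Set.ncard_le_ncard hsub h1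
  have hC0 : 0 ≤ C := by
    have := hN 0
    have h2 : (0 : ℝ) ≤ C * Real.exp (δ * (0 : ℕ)) := le_trans (Nat.cast_nonneg _) this
    simpa using h2
  set j := k + d with hj
  set Q : List L → Prop := fun F => D.Perf E n0 θ d (j + k) F with hQ
  have hQP : ∀ F, Q F → ∀ u : List Bool, u.length = j → P (D.secL u F) := by
    intro F hF u hu
    exact ⟨F, u, by omega, by rw [hu]; exact hF, rfl⟩
  -- the elements of perfect words
  obtain ⟨K, hK0, hKb⟩ := poly_le_exp c (2 ^ j) (ε / 4) (by positivity)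
  set B : ℝ := ((((List.finite_length_eq Bool j).toFinset.card : ℝ) ^ (2 ^ j) * C ^ (2 ^ j)) * K)
    with hB
  have hB0 : 0 ≤ B := by positivity
  have hAA : ∀ ℓ : ℕ, (AA D Q ℓ).Finite ∧ ((AA D Q ℓ).ncard : ℝ) ≤
      B * Real.exp (ε / 2 * ℓ) := by
    intro ℓ
    refine ⟨finite_ev D Q ℓ, ?_⟩
    have h := card_level D (b1 D) (b3 D) j Q P hQP C δ hC0 hδ0.le hN ℓ
    refine h.trans ?_
    have h2 : δ * ((c * ℓ : ℕ) : ℝ) ≤ ε / 4 * ℓ := by
      have h3 : δ * (4 * (c + 1)) = ε := by rw [hδ]; field_simp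
      have h4 : (0 : ℝ) ≤ ℓ := Nat.cast_nonneg _
      have h5 : δ * c ≤ ε / 4 := by nlinarith
      push_cast
      nlinarith
    have h3 : Real.exp (δ * ((c * ℓ : ℕ) : ℝ)) ≤ Real.exp (ε / 4 * ℓ) := Real.exp_le_exp.2 h2
    have h4 := hKb ℓ
    have h5 : Real.exp (ε / 2 * ℓ) = Real.exp (ε / 4 * ℓ) * Real.exp (ε / 4 * ℓ) := by
      rw [← Real.exp_add]; congr 1; ring
    rw [h5]
    have hB1 : (0 : ℝ) ≤ ((List.finite_length_eq Bool j).toFinset.card : ℝ) ^ (2 ^ j) *
      C ^ (2 ^ j) := by positivity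
    calc ((List.finite_length_eq Bool j).toFinset.card : ℝ) ^ (2 ^ j) * C ^ (2 ^ j) *
        ((c * ℓ + 1 : ℕ) : ℝ) ^ (2 ^ j) * Real.exp (δ * ((c * ℓ : ℕ) : ℝ))
        ≤ ((List.finite_length_eq Bool j).toFinset.card : ℝ) ^ (2 ^ j) * C ^ (2 ^ j) *
        (K * Real.exp (ε / 4 * ℓ)) * Real.exp (ε / 4 * ℓ) := by
          apply mul_le_mul _ h3 (Real.exp_pos _).le
          · exact mul_nonneg hB1 (mul_nonneg hK0 (Real.exp_pos _).le)
          · exact mul_le_mul_of_nonneg_left h4 hB1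
      _ = _ := by rw [hB]; ring
  have hBB := bb_count D (Q := Q) (by positivity : (0 : ℝ) ≤ ε / 2) hB0 hAA
  obtain ⟨m, hm⟩ := hcut (j + k)
  obtain ⟨K2, hK20, hK2⟩ := poly_le_exp 1 m (ε / 2) (by positivity)
  refine ⟨j + k + d, B ^ m * K2, fun ℓ => ⟨?_, ?_⟩⟩
  · exact finite_ev D (fun F => D.UT E n0 θ (j + k + d) F) ℓ
  · have hsub : {g : List Bool → List Bool | ∃ F : List L, D.UT E n0 θ (j + k + d) F ∧
        F.length ≤ ℓ ∧ D.ev F = g} ⊆ BB D Q m ℓ := by
      rintro g ⟨F, hF, hl, rfl⟩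
      obtain ⟨Fs, h1, h2, h3⟩ := hm F hF
      have hnil : Q [] := by
        have h4 : D.UT E n0 θ (j + k + d) [] := hU.ut_factor _ _ _ _ _ _ hF ⟨[], F, by simp⟩
        exact PB5Aux.perf_short D (by simp) h4
      refine ⟨Fs ++ List.replicate (m - Fs.length) [], ?_, ?_, ?_, ?_⟩
      · rw [List.length_append, List.length_replicate]; omega
      · intro p hp
        rw [List.mem_append] at hp
        rcases hp with hp | hp
        · exact h3 p hp
        · rw [List.eq_of_mem_replicate hp]; exact hnil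
      · have : (Fs ++ List.replicate (m - Fs.length) ([] : List L)).flatten = F := by
          rw [List.flatten_append, h1]
          have : (List.replicate (m - Fs.length) ([] : List L)).flatten = [] := by
            rw [List.flatten_eq_nil_iff]
            intro l hl
            exact List.eq_of_mem_replicate hl
          rw [this, List.append_nil]
        rw [this]
        exact hl
      · have : (Fs ++ List.replicate (m - Fs.length) ([] : List L)).flatten = F := by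
          rw [List.flatten_append, h1]
          have : (List.replicate (m - Fs.length) ([] : List L)).flatten = [] := by
            rw [List.flatten_eq_nil_iff]
            intro l hl
            exact List.eq_of_mem_replicate hl
          rw [this, List.append_nil]
        rw [this]
    have h1 : ((Set.ncard {g : List Bool → List Bool | ∃ F : List L,
        D.UT E n0 θ (j + k + d) F ∧ F.length ≤ ℓ ∧ D.ev F = g} : ℕ) : ℝ) ≤
        ((BB D Q m ℓ).ncard : ℝ) := by
      exact_mod_cast Set.ncard_le_ncard hsub (hBB m ℓ).1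
    refine h1.trans ((hBB m ℓ).2.trans ?_)
    have h2 := hK2 ℓ
    have h3 : Real.exp (ε * ℓ) = Real.exp (ε / 2 * ℓ) * Real.exp (ε / 2 * ℓ) := by
      rw [← Real.exp_add]; congr 1; ring
    rw [h3, mul_pow]
    have h4 : ((ℓ : ℝ) + 1) ^ m ≤ K2 * Real.exp (ε / 2 * ℓ) := by
      have : ((1 * ℓ + 1 : ℕ) : ℝ) = (ℓ : ℝ) + 1 := by push_cast; ring
      rw [← this]
      exact h2
    calc B ^ m * ((ℓ : ℝ) + 1) ^ m * Real.exp (ε / 2 * ℓ)
        ≤ B ^ m * (K2 * Real.exp (ε / 2 * ℓ)) * Real.exp (ε / 2 * ℓ) := by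
          apply mul_le_mul_of_nonneg_right _ (Real.exp_pos _).le
          exact mul_le_mul_of_nonneg_left h4 (by positivity)
      _ = _ := by ring

end R4
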