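import Pool.Agent.Work.MP_e3f5d9_al.TB1b

/-!
# R4, block TB1: reduction to UT words
-/

set_option autoImplicit false

open Finset

namespace R4

namespace TB1Aux

/-- Polynomials are subexponential. -/
lemma poly (c δ : ℝ) (hc : 0 ≤ c) (hδ : 0 < δ) (K : ℕ) : ∃ C : ℝ, 0 ≤ C ∧ ∀ n : ℕ,
    (c * ((n : ℝ) + 1)) ^ K ≤ C * Real.exp (δ * n) := by
  refine ⟨c ^ K * (Nat.factorial K / δ ^ K * Real.exp δ), by positivity, fun n => ?_⟩
  have h := Real.pow_div_factorial_le_exp (δ * ((n : ℝ) + 1)) (by positivity) K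
  have hK : (0 : ℝ) < (Nat.factorial K : ℝ) := by exact_mod_cast Nat.factorial_pos K
  rw [div_le_iff₀ hK, mul_pow] at h
  have h2 : ((n : ℝ) + 1) ^ K ≤ Nat.factorial K / δ ^ K * Real.exp (δ * ((n : ℝ) + 1)) := by
    rw [div_mul_eq_mul_div, le_div_iff₀ (by positivity)]
    calc ((n : ℝ) + 1) ^ K * δ ^ K = δ ^ K * ((n : ℝ) + 1) ^ K := mul_comm _ _
      _ ≤ _ := h
      _ = _ := mul_comm _ _
  calc (c * ((n : ℝ) + 1)) ^ K = c ^ K * ((n : ℝ) + 1) ^ K := mul_pow _ _ _
    _ ≤ c ^ K * (Nat.factorial K / δ ^ K * Real.exp (δ * ((n : ℝ) + 1))) :=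
        mul_le_mul_of_nonneg_left h2 (by positivity)
    _ = _ := by
        rw [mul_add, mul_one, Real.exp_add]
        ring

variable {L : Type} [Fintype L] [DecidableEq L] (D : KS L)

/-- Elements of the words with composition data at the level `j`. -/
def TT (E : Finset (Finset L)) (n0 θ k j P Λ : ℕ) : Set (List Bool → List Bool) :=
  {g | ∃ w : List L, D.ev w = g ∧
    (fun v : Fin j → Bool => D.ev (D.secL (List.ofFn v) w)) ∈ UU D E n0 θ k j P Λ}

lemma tt_count {E : Finset (Finset L)} {n0 θ k j P Λ : ℕ}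
    (hU : (UU D E n0 θ k j P Λ).Finite) :
    (TT D E n0 θ k j P Λ).Finite ∧ (TT D E n0 θ k j P Λ).ncard ≤
      (Set.pi Set.univ fun _ : Fin j → Bool => {l : List Bool | l.length = j}).ncard *
        (UU D E n0 θ k j P Λ).ncard := by
  classical
  let W : (List Bool → List Bool) → List L := fun g =>
    if h : ∃ w : List L, D.ev w = g ∧
      (fun v : Fin j → Bool => D.ev (D.secL (List.ofFn v) w)) ∈ UU D E n0 θ k j P Λ
    then h.choose else []
  have hW : ∀ g ∈ TT D E n0 θ k j P Λ, D.ev (W g) = g ∧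
      (fun v : Fin j → Bool => D.ev (D.secL (List.ofFn v) (W g))) ∈ UU D E n0 θ k j P Λ := by
    intro g hg
    have hg' : ∃ w : List L, D.ev w = g ∧
      (fun v : Fin j → Bool => D.ev (D.secL (List.ofFn v) w)) ∈ UU D E n0 θ k j P Λ := hg
    simp only [W, dif_pos hg']
    exact hg'.choose_spec
  let F : (List Bool → List Bool) → ((Fin j → Bool) → List Bool) ×
      ((Fin j → Bool) → List Bool → List Bool) :=
    fun g => (fun v => D.ev (W g) (List.ofFn v), fun v => D.ev (D.secL (List.ofFn v) (W g)))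
  have hT : ((Set.pi Set.univ fun _ : Fin j → Bool => {l : List Bool | l.length = j}) ×ˢ
      (UU D E n0 θ k j P Λ)).Finite := by
    apply Set.Finite.prod _ hU
    apply Set.Finite.pi
    intro v
    exact List.finite_length_eq Bool j
  have hmaps : ∀ g ∈ TT D E n0 θ k j P Λ, F g ∈
      ((Set.pi Set.univ fun _ : Fin j → Bool => {l : List Bool | l.length = j}) ×ˢ
      (UU D E n0 θ k j P Λ)) := by
    intro g hg
    refine ⟨?_, (hW g hg).2⟩
    intro v _
    simp [F, B1Aux.ev_length]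
  have hinj : Set.InjOn F (TT D E n0 θ k j P Λ) := by
    intro g hg g' hg' hF
    simp only [F, Prod.mk.injEq] at hF
    rw [← (hW g hg).1, ← (hW g' hg').1]
    apply ev_ext D (b1 D) j
    · intro v hv
      subst hv
      have := congrFun hF.1 v.get
      simpa using this
    · intro v hv
      subst hv
      have := congrFun hF.2 v.get
      simpa using this
  rw [← Set.ncard_prod]
  exact ⟨Set.Finite.of_injOn hmaps hinj hT, Set.ncard_le_ncard_of_injOn F hmaps hinj hT⟩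

lemma cover {E : Finset (Finset L)} (hE : D.Mixing E) {n0 θ : ℕ} (k : ℕ) (hexp : D.Exp E n0)
    (hθ : 2 ^ (n0 + 1) + 2 ≤ θ) {w : List L} {n j0 M r : ℕ} (hn : w.length ≤ n)
    (hw : D.Win E w j0 (j0 + (k + n0)) M r) (hr : 2 ^ (j0 + k + n0 + 1) ≤ r) :
    D.ev w ∈ TT D E n0 θ k j0
      ((8 * ((k + 1) * (E.card * E.card)) + 1) * r) (Fintype.card L * n) := by
  obtain ⟨ps, s, h1, h2⟩ := win_cut D hE k hexp hθ hw hr
  refine ⟨w, rfl, fun v => 2 * s (List.ofFn v) + 1, fun v => (red (D.secL (List.ofFn v) w)).length,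
    ?_, ?_, ?_⟩
  · intro v
    obtain ⟨e1, e2, e3⟩ := h1 (List.ofFn v)
    refine ⟨ps (List.ofFn v), e3, e2, by rw [e1], ?_⟩
    rw [e1, B1Aux.ev_red]
  · rw [sum_lev] at h2
    rw [Finset.sum_add_distrib, ← Finset.mul_sum]
    have e4 : 2 ^ j0 ≤ r := (Nat.pow_le_pow_right (by norm_num) (by omega)).trans hr
    have e5 : ∑ _v : Fin j0 → Bool, 1 = 2 ^ j0 := by simp
    rw [e5]
    have e6 : (8 * ((k + 1) * (E.card * E.card)) + 1) * r =
        2 * ((k + 1) * (E.card * (E.card * (4 * r)))) + r := by ring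
    rw [e6]
    omega
  · have := win_length D j0 w
    rw [sum_lev] at this
    exact this.trans (Nat.mul_le_mul_left _ hn)

end TB1Aux

open TB1Aux in
/-- TB1. -/
theorem tb1 {L : Type} [Fintype L] [DecidableEq L] (D : KS L) : RL D := by
  intro E hE n0 hexp hyp δ hδ
  have hθ : 2 ^ (n0 + 1) + 2 ≤ 2 ^ (n0 + 2) := by
    have h1 : 2 ^ (n0 + 2) = 2 ^ (n0 + 1) + 2 ^ (n0 + 1) := by rw [pow_succ 2 (n0 + 1)]; ring
    have h2 : 2 ≤ 2 ^ (n0 + 1) := by
      calc 2 = 2 ^ 1 := by norm_num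
        _ ≤ _ := Nat.pow_le_pow_right (by norm_num) (by omega)
    omega
  set a : ℝ := (Fintype.card L : ℝ) + 1 with ha
  have ha0 : 0 < a := by positivity
  set ε : ℝ := δ / (8 * a) with hε
  have hε0 : 0 < ε := by positivity
  obtain ⟨k, C, hC⟩ := hyp ε hε0
  have hC1 : 1 ≤ C := by
    have h0 := (hC 0).2
    have hmem : D.ev [] ∈ {g : List Bool → List Bool | ∃ F : List L,
        D.UT E n0 (2 ^ (n0 + 2)) k F ∧ F.length ≤ 0 ∧ D.ev F = g} :=
      ⟨[], ut_short D (Nat.one_le_two_pow) (by simp), by simp, rfl⟩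
    have h1 : 1 ≤ {g : List Bool → List Bool | ∃ F : List L,
        D.UT E n0 (2 ^ (n0 + 2)) k F ∧ F.length ≤ 0 ∧ D.ev F = g}.ncard :=
      (Set.ncard_pos (hC 0).1).2 ⟨_, hmem⟩
    have h2 : (1 : ℝ) ≤ ({g : List Bool → List Bool | ∃ F : List L,
        D.UT E n0 (2 ^ (n0 + 2)) k F ∧ F.length ≤ 0 ∧ D.ev F = g}.ncard : ℝ) := by
      exact_mod_cast h1
    have h3 := h2.trans h0
    simpa using h3
  have hq : Real.exp (-ε) < 1 := by
    rw [Real.exp_lt_one_iff]
    linarith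
  have hq0 := Real.exp_pos (-ε)
  set S : ℝ := C / (1 - Real.exp (-ε)) with hS
  have hS1 : 1 ≤ S := by
    rw [hS, le_div_iff₀ (by linarith)]
    linarith
  have hSC : C ≤ S * (1 - Real.exp (-ε)) := by
    rw [hS, div_mul_cancel₀]
    linarith
  have hBB := bb_count D (E := E) (n0 := n0) (θ := 2 ^ (n0 + 2)) (k := k) hε0 (by linarith) hSC
    (by linarith) hC
  -- the constants
  set K1 : ℕ := 8 * ((k + 1) * (E.card * E.card)) + 1 with hK1
  obtain ⟨N, hN⟩ := exists_nat_gt ((K1 : ℝ) * Real.log S * (4 / δ))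
  have hlogS : 0 ≤ Real.log S := Real.log_nonneg hS1
  have hNpos : 0 < N := by
    have h1 : (0 : ℝ) ≤ (K1 : ℝ) * Real.log S * (4 / δ) := by positivity
    have h2 : (0 : ℝ) < N := lt_of_le_of_lt h1 hN
    exact_mod_cast h2
  obtain ⟨J, C', hCJ, hwin⟩ := b4 D (b1 D) (b1p L) (b2a D) (b3 D) E hE (k + n0) N hNpos
  set c : ℝ := (K1 : ℝ) * ((C' : ℝ) + 1) + a + 1 with hc
  have hc0 : 0 ≤ c := by positivity
  choose Cp hCp0 hCp using fun j : ℕ => poly c (δ / 4) hc0 (by positivity) (2 ^ j + 2 ^ j)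
  set A : ℕ → ℕ := fun j =>
    (Set.pi Set.univ fun _ : Fin j → Bool => {l : List Bool | l.length = j}).ncard with hA
  refine ⟨∑ j ∈ range (J + 1), (A j : ℝ) * (Cp j * S ^ (K1 * C')), fun n => ?_⟩
  set r : ℕ := n / N + C' with hr
  set P : ℕ := K1 * r with hP
  set Λ : ℕ := Fintype.card L * n with hΛ
  have hUU := fun j => uu_count D hε0 hS1 hBB j P Λ
  have hTT := fun j => tt_count D (hUU j).1
  have hcover : {g : List Bool → List Bool | ∃ w : List L, w.length ≤ n ∧ D.ev w = g} ⊆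
      ⋃ j ∈ range (J + 1), TT D E n0 (2 ^ (n0 + 2)) k j P Λ := by
    rintro g ⟨w, hw, rfl⟩
    obtain ⟨j0, M, hj0, -, hwi⟩ := hwin n w hw
    rw [Set.mem_iUnion₂]
    refine ⟨j0, by rw [Finset.mem_range]; omega, ?_⟩
    refine cover D hE k hexp hθ hw hwi ?_
    calc 2 ^ (j0 + k + n0 + 1) ≤ 2 ^ (J + 1) := Nat.pow_le_pow_right (by norm_num) (by omega)
      _ ≤ C' := hCJ
      _ ≤ r := Nat.le_add_left _ _
  have hfinU : (⋃ j ∈ range (J + 1), TT D E n0 (2 ^ (n0 + 2)) k j P Λ).Finite :=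
    Set.Finite.biUnion (Finset.finite_toSet _) (fun j _ => (hTT j).1)
  have hgam : D.gam n = ({g : List Bool → List Bool |
      ∃ w : List L, w.length ≤ n ∧ D.ev w = g}).ncard := rfl
  rw [hgam]
  have e1 : ({g : List Bool → List Bool | ∃ w : List L, w.length ≤ n ∧ D.ev w = g}).ncard ≤
      ∑ j ∈ range (J + 1), (TT D E n0 (2 ^ (n0 + 2)) k j P Λ).ncard :=
    (Set.ncard_le_ncard hcover hfinU).trans (Finset.set_ncard_biUnion_le _ _)
  -- numerical bounds
  have hdiv : ((n / N : ℕ) : ℝ) ≤ (n : ℝ) / N := Nat.cast_div_le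
  have hNR : (0 : ℝ) < N := by exact_mod_cast hNpos
  have hrn : (r : ℝ) ≤ (C' + 1) * ((n : ℝ) + 1) := by
    have h1 : r ≤ n + C' := by
      have := Nat.div_le_self n N
      omega
    have h2 : (r : ℝ) ≤ (n : ℝ) + C' := by exact_mod_cast h1
    have h3 : (0 : ℝ) ≤ (C' : ℝ) * n := by positivity
    nlinarith
  have hP1 : ((P + 1 : ℕ) : ℝ) ≤ c * ((n : ℝ) + 1) := by
    rw [hP, hc]
    push_cast
    have h1 : (K1 : ℝ) * r ≤ K1 * ((C' + 1) * ((n : ℝ) + 1)) :=
      mul_le_mul_of_nonneg_left hrn (by positivity)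
    have h2 : (0 : ℝ) ≤ a * ((n : ℝ) + 1) := by positivity
    have h3 : (0 : ℝ) ≤ n := by positivity
    nlinarith
  have hΛ1 : ((Λ + 1 : ℕ) : ℝ) ≤ c * ((n : ℝ) + 1) := by
    rw [hΛ, hc, ha]
    push_cast
    have h1 : (0 : ℝ) ≤ (K1 : ℝ) * ((C' : ℝ) + 1) * ((n : ℝ) + 1) := by positivity
    have h2 : (0 : ℝ) ≤ n := by positivity
    have h3 : (0 : ℝ) ≤ (Fintype.card L : ℝ) := by positivity
    nlinarith
  have hSP : S ^ P ≤ S ^ (K1 * C') * Real.exp (δ / 4 * n) := by
    rw [hP, hr, mul_add, pow_add, mul_comm]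
    refine mul_le_mul_of_nonneg_left ?_ (by positivity)
    have hS0 : 0 < S := by linarith
    calc S ^ (K1 * (n / N)) = Real.exp (((K1 * (n / N) : ℕ) : ℝ) * Real.log S) := by
          rw [Real.exp_nat_mul, Real.exp_log hS0]
      _ ≤ Real.exp (δ / 4 * n) := by
          apply Real.exp_le_exp.2
          push_cast
          have h1 : (K1 : ℝ) * Real.log S * (4 / δ) ≤ N := hN.le
          have h2 : (K1 : ℝ) * Real.log S ≤ N * (δ / 4) := by
            have := mul_le_mul_of_nonneg_right h1 (by positivity : (0 : ℝ) ≤ δ / 4)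
            calc (K1 : ℝ) * Real.log S = (K1 : ℝ) * Real.log S * (4 / δ) * (δ / 4) := by
                  field_simp
              _ ≤ _ := this
          calc (K1 : ℝ) * ((n / N : ℕ) : ℝ) * Real.log S
              = (K1 * Real.log S) * ((n / N : ℕ) : ℝ) := by ring
            _ ≤ (K1 * Real.log S) * ((n : ℝ) / N) :=
                mul_le_mul_of_nonneg_left hdiv (by positivity)
            _ ≤ (N * (δ / 4)) * ((n : ℝ) / N) :=
                mul_le_mul_of_nonneg_right h2 (by positivity)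
            _ = δ / 4 * n := by field_simp
  have hexpΛ : Real.exp (2 * ε * Λ) ≤ Real.exp (δ / 4 * n) := by
    apply Real.exp_le_exp.2
    rw [hε, hΛ]
    push_cast
    have h1 : (Fintype.card L : ℝ) ≤ a := by rw [ha]; linarith
    calc 2 * (δ / (8 * a)) * ((Fintype.card L : ℝ) * n)
        = (δ / 4) * ((Fintype.card L : ℝ) / a) * n := by field_simp; ring
      _ ≤ (δ / 4) * 1 * n := by
          refine mul_le_mul_of_nonneg_right (mul_le_mul_of_nonneg_left ?_ (by positivity))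
            (by positivity)
          rw [div_le_one ha0]
          exact h1
      _ = _ := by ring
  have hj : ∀ j, ((TT D E n0 (2 ^ (n0 + 2)) k j P Λ).ncard : ℝ) ≤
      (A j : ℝ) * (Cp j * S ^ (K1 * C')) * Real.exp (δ * n) := by
    intro j
    calc ((TT D E n0 (2 ^ (n0 + 2)) k j P Λ).ncard : ℝ)
        ≤ (A j : ℝ) * ((UU D E n0 (2 ^ (n0 + 2)) k j P Λ).ncard : ℝ) := by
          exact_mod_cast (hTT j).2
      _ ≤ (A j : ℝ) * (((P + 1 : ℕ) : ℝ) ^ 2 ^ j * ((Λ + 1 : ℕ) : ℝ) ^ 2 ^ j *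
            (S ^ P * Real.exp (2 * ε * Λ))) :=
          mul_le_mul_of_nonneg_left (hUU j).2 (Nat.cast_nonneg _)
      _ ≤ (A j : ℝ) * ((c * ((n : ℝ) + 1)) ^ 2 ^ j * (c * ((n : ℝ) + 1)) ^ 2 ^ j *
            ((S ^ (K1 * C') * Real.exp (δ / 4 * n)) * Real.exp (δ / 4 * n))) := by
          refine mul_le_mul_of_nonneg_left ?_ (Nat.cast_nonneg _)
          refine mul_le_mul (mul_le_mul (pow_le_pow_left₀ (Nat.cast_nonneg _) hP1 _)
            (pow_le_pow_left₀ (Nat.cast_nonneg _) hΛ1 _) (by positivity) (by positivity))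
            (mul_le_mul hSP hexpΛ (Real.exp_pos _).le (by positivity)) (by positivity)
            (by positivity)
      _ = (A j : ℝ) * ((c * ((n : ℝ) + 1)) ^ (2 ^ j + 2 ^ j) *
            ((S ^ (K1 * C') * Real.exp (δ / 4 * n)) * Real.exp (δ / 4 * n))) := by
          rw [pow_add]
      _ ≤ (A j : ℝ) * ((Cp j * Real.exp (δ / 4 * n)) *
            ((S ^ (K1 * C') * Real.exp (δ / 4 * n)) * Real.exp (δ / 4 * n))) := by
          refine mul_le_mul_of_nonneg_left ?_ (Nat.cast_nonneg _)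
          exact mul_le_mul_of_nonneg_right (hCp j n) (by positivity)
      _ = (A j : ℝ) * (Cp j * S ^ (K1 * C')) * (Real.exp (δ / 4 * n) *
            (Real.exp (δ / 4 * n) * Real.exp (δ / 4 * n))) := by ring
      _ ≤ (A j : ℝ) * (Cp j * S ^ (K1 * C')) * Real.exp (δ * n) := by
          refine mul_le_mul_of_nonneg_left ?_ (mul_nonneg (Nat.cast_nonneg _)
            (mul_nonneg (hCp0 j) (by positivity)))
          rw [← Real.exp_add, ← Real.exp_add]
          apply Real.exp_le_exp.2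
          have : (0 : ℝ) ≤ δ * n := by positivity
          nlinarith
  calc ((({g : List Bool → List Bool | ∃ w : List L, w.length ≤ n ∧ D.ev w = g}).ncard : ℕ) : ℝ)
      ≤ ((∑ j ∈ range (J + 1), (TT D E n0 (2 ^ (n0 + 2)) k j P Λ).ncard : ℕ) : ℝ) := by
        exact_mod_cast e1
    _ = ∑ j ∈ range (J + 1), ((TT D E n0 (2 ^ (n0 + 2)) k j P Λ).ncard : ℝ) := by push_cast; rfl
    _ ≤ ∑ j ∈ range (J + 1), (A j : ℝ) * (Cp j * S ^ (K1 * C')) * Real.exp (δ * n) :=
        Finset.sum_le_sum fun j _ => hj j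
    _ = _ := by rw [Finset.sum_mul]

end R4
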