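import Pool.Agent.Work.MP_e3f5d9_al.PB1
import Pool.Agent.Work.MP_e3f5d9_al.PB4
import Pool.Agent.Work.MP_e3f5d9_al.PB6
import Pool.Agent.Work.MP_e3f5d9_al.TB1
import Pool.Agent.Work.MP_e3f5d9_al.B2b
import Pool.Agent.Work.MP_e3f5d9_al.B2c
import Pool.Agent.Work.MP_e3f5d9_al.B2d

/-!
# R4: the blocks PB1-PB6 without hypotheses
-/

set_option autoImplicit false

namespace R4

variable {L : Type} [Fintype L] [DecidableEq L] (D : KS L)

theorem violBound : ViolBound D :=
  pb4 D (pb1 D) (tb3 D (b1 D) (b1p L) (b2b D) (b2c D) (b2d D) (b3 D) (tb0 D))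

theorem cutPerf : CutPerf D := pb5 D (violBound D)

theorem rlPerf : RLPerf D := pb6 D (tb1 D) (cutPerf D)

end R4
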