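import Pool.Agent.Work.MP_e3f5d9_al.P1

/-!
# PN2: the calculus of known features
-/

set_option autoImplicit false

open Finset

namespace R4

/-- The basic counting lemma. -/
theorem PN2.det_count {σ α β : Type} (T : Set σ) (Ψ : σ → α) (Φ : σ → β) (N : ℕ) (ρ : σ → Fin N)
    (h : ∀ W ∈ T, ∀ W' ∈ T, Ψ W = Ψ W' → ρ W = ρ W' → Φ W = Φ W') (hf : (Ψ '' T).Finite) :
    (Φ '' T).Finite ∧ (Φ '' T).ncard ≤ (Ψ '' T).ncard * N := by
  classical
  rcases T.eq_empty_or_nonempty with rfl | ⟨w0, hw0⟩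
  · simp
  set P : Set (α × Fin N) := (Ψ '' T) ×ˢ (Set.univ : Set (Fin N)) with hP
  have hPf : P.Finite := hf.prod Set.finite_univ
  set g : α × Fin N → β := fun z =>
    if hz : ∃ W ∈ T, Ψ W = z.1 ∧ ρ W = z.2 then Φ hz.choose else Φ w0 with hg
  have hsub : Φ '' T ⊆ g '' P := by
    rintro _ ⟨W, hW, rfl⟩
    refine ⟨(Ψ W, ρ W), ⟨⟨W, hW, rfl⟩, Set.mem_univ _⟩, ?_⟩
    have hz : ∃ W' ∈ T, Ψ W' = (Ψ W, ρ W).1 ∧ ρ W' = (Ψ W, ρ W).2 := ⟨W, hW, rfl, rfl⟩
    simp only [hg]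
    rw [dif_pos hz]
    exact h _ hz.choose_spec.1 _ hW hz.choose_spec.2.1 hz.choose_spec.2.2
  refine ⟨(hPf.image g).subset hsub, ?_⟩
  calc (Φ '' T).ncard ≤ (g '' P).ncard := Set.ncard_le_ncard hsub (hPf.image g)
    _ ≤ P.ncard := Set.ncard_image_le hPf
    _ = (Ψ '' T).ncard * N := by
        rw [hP, Set.ncard_prod, Set.ncard_univ, Nat.card_eq_fintype_card, Fintype.card_fin]

theorem PN2.known_def {L : Type} [Fintype L] [DecidableEq L] (S : Setup L) {β : Type}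
    (Φ : List L → β) : S.Known Φ ↔ ∀ ε : ℝ, 0 < ε → ∃ (k : ℕ) (C : ℝ), ∀ n : ℕ,
    (Φ '' {W | W ∈ S.N k ∧ S.D.size W ≤ n}).Finite ∧
    ((Φ '' {W | W ∈ S.N k ∧ S.D.size W ≤ n}).ncard : ℝ) ≤ C * Real.exp (ε * n) := Iff.rfl

theorem PN2.anti_le {L : Type} [Fintype L] [DecidableEq L] (S : Setup L)
    (hN : NodeBasics S) {k l : ℕ} (h : k ≤ l) : S.N l ⊆ S.N k := by
  induction h with
  | refl => exact subset_rfl
  | step _ ih => exact (hN.anti _).trans ih

theorem PN2.nonneg {x C y : ℝ} (hx : 0 ≤ x) (h : x ≤ C * Real.exp y) : 0 ≤ C := by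
  by_contra hC
  push Not at hC
  have := mul_neg_of_neg_of_pos hC (Real.exp_pos y)
  linarith

/-- The monotone form of known features: for every `ε` there is a constant such that from a level on
the bound holds. -/
theorem PN2.known_ge {L : Type} [Fintype L] [DecidableEq L] (S : Setup L) (hN : NodeBasics S)
    {β : Type} {Φ : List L → β} (h : S.Known Φ) (ε : ℝ) (hε : 0 < ε) : ∃ (k : ℕ) (C : ℝ), 0 ≤ C ∧
    ∀ l, k ≤ l → ∀ n : ℕ,
    (Φ '' {W | W ∈ S.N l ∧ S.D.size W ≤ n}).Finite ∧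
    ((Φ '' {W | W ∈ S.N l ∧ S.D.size W ≤ n}).ncard : ℝ) ≤ C * Real.exp (ε * n) := by
  obtain ⟨k, C, hk⟩ := h ε hε
  refine ⟨k, C, PN2.nonneg (Nat.cast_nonneg _) (hk 0).2, fun l hl n => ?_⟩
  have hsub : Φ '' {W | W ∈ S.N l ∧ S.D.size W ≤ n} ⊆ Φ '' {W | W ∈ S.N k ∧ S.D.size W ≤ n} :=
    Set.image_mono fun W hW => ⟨PN2.anti_le S hN hl hW.1, hW.2⟩
  refine ⟨(hk n).1.subset hsub, le_trans ?_ (hk n).2⟩
  exact_mod_cast Set.ncard_le_ncard hsub (hk n).1

/-- PN2. -/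
theorem pn2 {L : Type} [Fintype L] [DecidableEq L] (S : Setup L) (hN : NodeBasics S) :
    KnownCalc S := by
  classical
  refine ⟨?_, ?_, ?_, ?_, ?_⟩
  · -- det
    intro α β Ψ Φ hΨ ⟨k0, N, ρ, hdet⟩ ε hε
    obtain ⟨k, C, hC, hk⟩ := PN2.known_ge S hN hΨ ε hε
    refine ⟨max k k0, C * N, fun n => ?_⟩
    have h1 := hk (max k k0) (le_max_left _ _) n
    have h2 := PN2.det_count {W | W ∈ S.N (max k k0) ∧ S.D.size W ≤ n} Ψ Φ N ρ
      (fun W hW W' hW' => hdet W (PN2.anti_le S hN (le_max_right _ _) hW.1) W'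
        (PN2.anti_le S hN (le_max_right _ _) hW'.1)) h1.1
    refine ⟨h2.1, ?_⟩
    have h3 : ((Φ '' {W | W ∈ S.N (max k k0) ∧ S.D.size W ≤ n}).ncard : ℝ) ≤
        ((Ψ '' {W | W ∈ S.N (max k k0) ∧ S.D.size W ≤ n}).ncard : ℝ) * N := by
      exact_mod_cast h2.2
    refine h3.trans ?_
    calc _ ≤ (C * Real.exp (ε * n)) * N := by
            exact mul_le_mul_of_nonneg_right h1.2 (Nat.cast_nonneg _)
      _ = C * N * Real.exp (ε * n) := by ring
  · -- prod
    intro α β Ψ Φ hΨ hΦ ε hε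
    obtain ⟨k, C, hC, hk⟩ := PN2.known_ge S hN hΨ (ε / 2) (by positivity)
    obtain ⟨k', C', hC', hk'⟩ := PN2.known_ge S hN hΦ (ε / 2) (by positivity)
    refine ⟨max k k', C * C', fun n => ?_⟩
    have h1 := hk (max k k') (le_max_left _ _) n
    have h2 := hk' (max k k') (le_max_right _ _) n
    set T := {W | W ∈ S.N (max k k') ∧ S.D.size W ≤ n}
    have hsub : (fun W => (Ψ W, Φ W)) '' T ⊆ (Ψ '' T) ×ˢ (Φ '' T) := by
      rintro _ ⟨W, hW, rfl⟩
      exact ⟨⟨W, hW, rfl⟩, ⟨W, hW, rfl⟩⟩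
    have hf : ((Ψ '' T) ×ˢ (Φ '' T)).Finite := h1.1.prod h2.1
    refine ⟨hf.subset hsub, ?_⟩
    have h3 : (((fun W => (Ψ W, Φ W)) '' T).ncard : ℝ) ≤
        ((Ψ '' T).ncard : ℝ) * ((Φ '' T).ncard : ℝ) := by
      have := Set.ncard_le_ncard hsub hf
      rw [Set.ncard_prod] at this
      exact_mod_cast this
    refine h3.trans ?_
    calc _ ≤ (C * Real.exp (ε / 2 * n)) * (C' * Real.exp (ε / 2 * n)) :=
          mul_le_mul h1.2 h2.2 (Nat.cast_nonneg _) (by positivity)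
      _ = C * C' * Real.exp (ε * n) := by
          have : Real.exp (ε * n) = Real.exp (ε / 2 * n) * Real.exp (ε / 2 * n) := by
            rw [← Real.exp_add]; ring_nf
          rw [this]; ring
  · -- pi
    intro ι hι β Φ hΦ ε hε
    haveI := Fintype.ofFinite ι
    set q : ℝ := (Fintype.card ι : ℝ) + 1 with hq
    have hq0 : 0 < q := by positivity
    choose k C hC hk using fun i => PN2.known_ge S hN (hΦ i) (ε / q) (by positivity)
    set K := univ.sup k with hK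
    refine ⟨K, ∏ i, C i, fun n => ?_⟩
    have h1 := fun i => hk i K (Finset.le_sup (mem_univ i)) n
    set T := {W | W ∈ S.N K ∧ S.D.size W ≤ n}
    set P : Finset (∀ i, β i) := Fintype.piFinset fun i => (h1 i).1.toFinset with hP
    have hsub : (fun W i => Φ i W) '' T ⊆ (P : Set (∀ i, β i)) := by
      rintro _ ⟨W, hW, rfl⟩
      simp only [hP, Finset.mem_coe, Fintype.mem_piFinset, Set.Finite.mem_toFinset]
      exact fun i => ⟨W, hW, rfl⟩
    refine ⟨P.finite_toSet.subset hsub, ?_⟩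
    have h3 : (((fun W i => Φ i W) '' T).ncard : ℝ) ≤ (P.card : ℝ) := by
      have := Set.ncard_le_ncard hsub P.finite_toSet
      rw [Set.ncard_coe_finset] at this
      exact_mod_cast this
    refine h3.trans ?_
    rw [hP, Fintype.card_piFinset]
    push_cast
    calc ∏ i, (((h1 i).1.toFinset).card : ℝ) ≤ ∏ i, (C i * Real.exp (ε / q * n)) := by
          refine Finset.prod_le_prod (fun i _ => Nat.cast_nonneg _) fun i _ => ?_
          rw [← Set.ncard_eq_toFinset_card _ (h1 i).1]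
          exact (h1 i).2
      _ = (∏ i, C i) * Real.exp (ε / q * n) ^ Fintype.card ι := by
          rw [Finset.prod_mul_distrib]; simp
      _ ≤ (∏ i, C i) * Real.exp (ε * n) := by
          refine mul_le_mul_of_nonneg_left ?_ (Finset.prod_nonneg fun i _ => hC i)
          rw [← Real.exp_nat_mul]
          refine Real.exp_le_exp.2 ?_
          have h4 : (Fintype.card ι : ℝ) * (ε / q * n) = ((Fintype.card ι : ℝ) / q) * (ε * n) := by
            field_simp
          rw [h4]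
          have h5 : (Fintype.card ι : ℝ) / q ≤ 1 := by
            rw [div_le_one hq0]; linarith
          have h6 : 0 ≤ ε * n := by positivity
          nlinarith
  · -- kid
    intro α β Ψ Φ hΨ ⟨k0, hdet⟩ ε hε
    obtain ⟨c, hc⟩ := hN.size_kid
    obtain ⟨k, C, hC, hk⟩ := PN2.known_ge S hN hΨ (ε / 2) (by positivity)
    choose N ρ hdet using hdet
    set K := max k k0 with hK
    refine ⟨K + 1, (N false + N true) * C * Real.exp (ε / 2 * c), fun n => ?_⟩
    have h1 := hk K (le_max_left _ _) (2 * n + c)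
    set T := {W | W ∈ S.N K ∧ S.D.size W ≤ 2 * n + c} with hT
    have h2 : ∀ b, _ := fun b => PN2.det_count T Ψ (fun P => Φ (S.D.sec b P)) (N b) (ρ b)
      (fun W hW W' hW' => hdet b W (PN2.anti_le S hN (le_max_right _ _) hW.1) W'
        (PN2.anti_le S hN (le_max_right _ _) hW'.1)) h1.1
    have hsub : Φ '' {W | W ∈ S.N (K + 1) ∧ S.D.size W ≤ n} ⊆
        ((fun P => Φ (S.D.sec false P)) '' T) ∪ ((fun P => Φ (S.D.sec true P)) '' T) := by
      rintro _ ⟨W, ⟨hW, hWn⟩, rfl⟩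
      obtain ⟨P, hP, b, rfl⟩ := hN.par K W hW
      have hP0 : P ∈ S.N 0 := PN2.anti_le S hN (Nat.zero_le _) hP
      have hPn : S.D.size P ≤ 2 * n + c := by
        have := (hc P hP0 b).2
        omega
      cases b
      · exact Or.inl ⟨P, ⟨hP, hPn⟩, rfl⟩
      · exact Or.inr ⟨P, ⟨hP, hPn⟩, rfl⟩
    have hf := (h2 false).1.union (h2 true).1
    refine ⟨hf.subset hsub, ?_⟩
    have h3 : (Φ '' {W | W ∈ S.N (K + 1) ∧ S.D.size W ≤ n}).ncard ≤
        (Ψ '' T).ncard * N false + (Ψ '' T).ncard * N true :=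
      (Set.ncard_le_ncard hsub hf).trans ((Set.ncard_union_le _ _).trans
        (add_le_add (h2 false).2 (h2 true).2))
    have h4 : ((Φ '' {W | W ∈ S.N (K + 1) ∧ S.D.size W ≤ n}).ncard : ℝ) ≤
        ((Ψ '' T).ncard : ℝ) * (N false + N true) := by
      have : ((Φ '' {W | W ∈ S.N (K + 1) ∧ S.D.size W ≤ n}).ncard : ℝ) ≤
        ((Ψ '' T).ncard : ℝ) * N false + ((Ψ '' T).ncard : ℝ) * N true := by exact_mod_cast h3
      linarith
    refine h4.trans ?_
    calc _ ≤ (C * Real.exp (ε / 2 * ((2 * n + c : ℕ) : ℝ))) * ((N false : ℝ) + N true) :=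
          mul_le_mul_of_nonneg_right h1.2 (by positivity)
      _ = (N false + N true) * C * Real.exp (ε / 2 * c) * Real.exp (ε * n) := by
          have : Real.exp (ε / 2 * ((2 * n + c : ℕ) : ℝ)) =
              Real.exp (ε / 2 * c) * Real.exp (ε * n) := by
            rw [← Real.exp_add]; push_cast; ring_nf
          rw [this]; ring
  · -- down
    intro β Φ b hΦ ε hε
    obtain ⟨c, hc⟩ := hN.size_kid
    obtain ⟨k, C, hC, hk⟩ := PN2.known_ge S hN hΦ ε hε
    refine ⟨k + 1, C * Real.exp (ε * c), fun n => ?_⟩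
    have h1 := hk k le_rfl (n + c)
    set T := {W | W ∈ S.N k ∧ S.D.size W ≤ n + c} with hT
    have hsub : (fun P => Φ (S.D.sec b P)) '' {W | W ∈ S.N (k + 1) ∧ S.D.size W ≤ n} ⊆
        Φ '' T := by
      rintro _ ⟨W, ⟨hW, hWn⟩, rfl⟩
      refine ⟨S.D.sec b W, ⟨hN.kid k W hW b, ?_⟩, rfl⟩
      have hW0 : W ∈ S.N 0 := PN2.anti_le S hN (Nat.zero_le _) hW
      have := (hc W hW0 b).1
      omega
    refine ⟨h1.1.subset hsub, ?_⟩
    have h3 : (((fun P => Φ (S.D.sec b P)) '' {W | W ∈ S.N (k + 1) ∧ S.D.size W ≤ n}).ncard : ℝ) ≤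
        ((Φ '' T).ncard : ℝ) := by exact_mod_cast Set.ncard_le_ncard hsub h1.1
    refine h3.trans (h1.2.trans (le_of_eq ?_))
    have : Real.exp (ε * ((n + c : ℕ) : ℝ)) = Real.exp (ε * c) * Real.exp (ε * n) := by
      rw [← Real.exp_add]; push_cast; ring_nf
    rw [this]; ring

end R4
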