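import Pool.Agent.Work.MP_e3f5d9_al.P1

/-!
# PN3: the counting lemma
-/

set_option autoImplicit false

open Finset

namespace R4

namespace OmitAux

lemma ncard_pi {ι β : Type} [Fintype ι] (s : Set β) :
    (Set.univ.pi fun _ : ι => s).ncard = s.ncard ^ Fintype.card ι := by
  unfold Set.ncard
  rw [Set.encard_pi_eq_prod_encard]
  have := map_prod ENat.toNatHom (fun _ : ι => s.encard) Finset.univ
  simp only [prod_const, card_univ] at this ⊢
  exact this

/-- Counting. -/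
lemma count {α β X : Type} {ι : Type} [Fintype ι] (T : Set X) (κ : X → α) (N : ℕ) (ρ : X → Fin N)
    (ch : X → ι → β) (Φ : X → β) (Sκ : Set α) (Sφ : Set β) (h1 : Sκ.Finite) (h2 : Sφ.Finite)
    (hκ : ∀ W ∈ T, κ W ∈ Sκ) (hch : ∀ W ∈ T, ∀ x, ch W x ∈ Sφ)
    (det : ∀ W ∈ T, ∀ W' ∈ T, κ W = κ W' → ch W = ch W' → ρ W = ρ W' → Φ W = Φ W') :
    (Φ '' T).Finite ∧ (Φ '' T).ncard ≤ Sκ.ncard * N * Sφ.ncard ^ Fintype.card ι := by
  classical
  rcases T.eq_empty_or_nonempty with hT | ⟨W0, _⟩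
  · subst hT; simp
  set G : X → (α × Fin N) × (ι → β) := fun W => ((κ W, ρ W), ch W) with hG
  set U : Set ((α × Fin N) × (ι → β)) := (Sκ ×ˢ Set.univ) ×ˢ (Set.univ.pi fun _ : ι => Sφ) with hU
  have hUf : U.Finite := (h1.prod Set.finite_univ).prod (Set.Finite.pi fun _ => h2)
  have hUc : U.ncard = Sκ.ncard * N * Sφ.ncard ^ Fintype.card ι := by
    rw [hU, Set.ncard_prod, Set.ncard_prod, ncard_pi, Set.ncard_univ, Nat.card_fin]
  set g : β → (α × Fin N) × (ι → β) := fun y =>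
    G (if h : ∃ W ∈ T, Φ W = y then h.choose else W0) with hg
  have hgy : ∀ y ∈ Φ '' T, ∃ W ∈ T, Φ W = y ∧ g y = G W := by
    intro y hy
    have h : ∃ W ∈ T, Φ W = y := hy
    refine ⟨h.choose, h.choose_spec.1, h.choose_spec.2, ?_⟩
    rw [hg]
    simp only [dif_pos h]
  have hmaps : Set.MapsTo g (Φ '' T) U := by
    intro y hy
    obtain ⟨W, hW, _, h4⟩ := hgy y hy
    rw [h4]
    exact ⟨⟨hκ W hW, Set.mem_univ _⟩, fun x _ => hch W hW x⟩
  have hinj : Set.InjOn g (Φ '' T) := by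
    intro y hy y' hy' he
    obtain ⟨W, hW, h3, h4⟩ := hgy y hy
    obtain ⟨W', hW', h3', h4'⟩ := hgy y' hy'
    rw [h4, h4'] at he
    rw [← h3, ← h3']
    simp only [hG, Prod.mk.injEq] at he
    exact det W hW W' hW' he.1.1 he.2 he.1.2
  refine ⟨Set.Finite.of_injOn hmaps hinj hUf, ?_⟩
  rw [← hUc]
  exact Set.ncard_le_ncard_of_injOn g hmaps hinj hUf

/-- The index type of the descendants. -/
abbrev Ix (r : ℕ) : Type := {x : List Bool // x.length = r ∧ x ≠ List.replicate r false}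

/-- All words of length `r`. -/
def toV (r : ℕ) : Option (Ix r) → List.Vector Bool r
  | none => ⟨List.replicate r false, by simp⟩
  | some y => ⟨y.1, y.2.1⟩

lemma toV_inj (r : ℕ) : Function.Injective (toV r) := by
  intro x y h
  cases x with
  | none =>
    cases y with
    | none => rfl
    | some y =>
      exfalso
      exact y.2.2 (congrArg Subtype.val h).symm
  | some x =>
    cases y with
    | none =>
      exfalso
      exact x.2.2 (congrArg Subtype.val h)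
    | some y =>
      congr 1
      have h1 : (toV r (some x)).1 = (toV r (some y)).1 := congrArg Subtype.val h
      exact Subtype.ext h1

instance (r : ℕ) : Finite (Ix r) := by
  have h := Finite.of_injective _ (toV_inj r)
  exact Finite.of_injective (fun x : Ix r => some x) (Option.some_injective _)

noncomputable instance (r : ℕ) : Fintype (Ix r) := Fintype.ofFinite _

lemma Ix_card (r : ℕ) : Fintype.card (Ix r) + 1 ≤ 2 ^ r := by
  have h := Fintype.card_le_of_injective _ (toV_inj r)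
  rw [Fintype.card_option] at h
  have h2 : Fintype.card (List.Vector Bool r) = 2 ^ r := by rw [card_vector]; simp
  omega

variable {L : Type} [Fintype L] [DecidableEq L] {S : Setup L}

lemma N_anti (h : NodeBasics S) {k k' : ℕ} (hk : k ≤ k') : S.N k' ⊆ S.N k := by
  induction k', hk using Nat.le_induction with
  | base => exact subset_rfl
  | succ n _ ih => exact (h.anti n).trans ih

lemma secL_node (h : NodeBasics S) {c : ℕ} (hc : ∀ W ∈ S.N 0, ∀ b,
    2 * S.D.size (S.D.sec b W) ≤ S.D.size W + c) (x : List Bool) : ∀ (k : ℕ) (W : List L),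
    W ∈ S.N (k + x.length) → S.D.secL x W ∈ S.N k ∧
      2 ^ x.length * S.D.size (S.D.secL x W) + c ≤ S.D.size W + 2 ^ x.length * c := by
  induction x with
  | nil => intro k W hW; exact ⟨hW, by simp [KS.secL]⟩
  | cons b v ih =>
    intro k W hW
    rw [List.length_cons, ← add_assoc] at hW
    obtain ⟨h1, h2⟩ := ih k (S.D.sec b W) (h.kid _ W hW b)
    have h3 := hc W (N_anti h (Nat.zero_le _) hW) b
    refine ⟨h1, ?_⟩
    rw [List.length_cons, pow_succ]
    show 2 ^ v.length * 2 * S.D.size (S.D.secL v (S.D.sec b W)) + c ≤ _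
    nlinarith

/-- The growth rate of the values of a feature on the nodes of the class `k`. -/
def Rate (S : Setup L) {β : Type} (Φ : List L → β) (k : ℕ) (h : ℝ) : Prop :=
  ∃ C : ℝ, ∀ n : ℕ, (Φ '' {W | W ∈ S.N k ∧ S.D.size W ≤ n}).Finite ∧
    ((Φ '' {W | W ∈ S.N k ∧ S.D.size W ≤ n}).ncard : ℝ) ≤ C * Real.exp (h * n)

lemma Rate.mono (hS : NodeBasics S) {β : Type} {Φ : List L → β} {k k' : ℕ} {h h' : ℝ}
    (hk : k ≤ k') (hh : h ≤ h') (hR : Rate S Φ k h) : Rate S Φ k' h' := by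
  obtain ⟨C, hC⟩ := hR
  refine ⟨max C 0, fun n => ?_⟩
  obtain ⟨h1, h2⟩ := hC n
  have hsub : Φ '' {W | W ∈ S.N k' ∧ S.D.size W ≤ n} ⊆ Φ '' {W | W ∈ S.N k ∧ S.D.size W ≤ n} :=
    Set.image_mono fun W hW => ⟨N_anti hS hk hW.1, hW.2⟩
  refine ⟨h1.subset hsub, ?_⟩
  calc ((Φ '' {W | W ∈ S.N k' ∧ S.D.size W ≤ n}).ncard : ℝ)
      ≤ (Φ '' {W | W ∈ S.N k ∧ S.D.size W ≤ n}).ncard := by
        exact_mod_cast Set.ncard_le_ncard hsub h1
    _ ≤ C * Real.exp (h * n) := h2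
    _ ≤ max C 0 * Real.exp (h * n) :=
        mul_le_mul_of_nonneg_right (le_max_left _ _) (Real.exp_pos _).le
    _ ≤ max C 0 * Real.exp (h' * n) := by
        apply mul_le_mul_of_nonneg_left _ (le_max_right _ _)
        exact Real.exp_le_exp.2 (mul_le_mul_of_nonneg_right hh (Nat.cast_nonneg n))

/-- One step of the counting lemma. -/
lemma Rate.step (hS : NodeBasics S) {α β : Type} {κ : List L → α} {Φ : List L → β} {r : ℕ}
    {ε h : ℝ} (hh : 0 ≤ h) {k0 k1 k : ℕ} (hκ : Rate S κ k0 ε)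
    (hdet : Det (S.N k1) (fun P => (κ P, fun x : Ix r => Φ (S.D.secL x.1 P))) Φ)
    (hR : Rate S Φ k h) : ∃ k', Rate S Φ k' (ε + (1 - (1 / 2) ^ r) * h) := by
  obtain ⟨c, hc⟩ := hS.size_kid
  have hc1 : ∀ W ∈ S.N 0, ∀ b, 2 * S.D.size (S.D.sec b W) ≤ S.D.size W + c :=
    fun W hW b => (hc W hW b).1
  obtain ⟨N, ρ, hρ⟩ := hdet
  obtain ⟨Cκ, hCκ⟩ := hκ
  obtain ⟨C, hC⟩ := hR
  set k' := max (max k0 k1) (k + r) with hk'
  set M := Fintype.card (Ix r) with hM
  have hM1 : M + 1 ≤ 2 ^ r := Ix_card r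
  refine ⟨k', (max Cκ 0) * N * ((max C 1) ^ M * Real.exp (h * c * 2 ^ r)), fun n => ?_⟩
  set m := n / 2 ^ r + c with hm
  obtain ⟨h1, h2⟩ := hCκ n
  obtain ⟨h3, h4⟩ := hC m
  obtain ⟨h5, h6⟩ := count {W | W ∈ S.N k' ∧ S.D.size W ≤ n} κ N ρ
    (fun P => fun x : Ix r => Φ (S.D.secL x.1 P)) Φ
    (κ '' {W | W ∈ S.N k0 ∧ S.D.size W ≤ n}) (Φ '' {W | W ∈ S.N k ∧ S.D.size W ≤ m}) h1 h3
    (fun W hW => ⟨W, ⟨N_anti hS ((le_max_left _ _).trans (le_max_left _ _)) hW.1, hW.2⟩, rfl⟩)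
    (by
      intro W hW x
      obtain ⟨h7, h8⟩ := secL_node hS hc1 x.1 k W (by
        rw [x.2.1]
        exact N_anti hS (le_max_right _ _) hW.1)
      refine ⟨_, ⟨h7, ?_⟩, rfl⟩
      rw [x.2.1] at h8
      have h9 : S.D.size W ≤ n := hW.2
      rw [hm, ← Nat.add_mul_div_left n c (by positivity : 0 < 2 ^ r), Nat.le_div_iff_mul_le
        (by positivity)]
      rw [mul_comm]
      omega)
    (by
      intro W hW W' hW' e1 e2 e3
      refine hρ W (N_anti hS ((le_max_right _ _).trans (le_max_left _ _)) hW.1) W'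
        (N_anti hS ((le_max_right _ _).trans (le_max_left _ _)) hW'.1) ?_ e3
      exact Prod.ext e1 e2)
  refine ⟨h5, ?_⟩
  have h7 : ((Φ '' {W | W ∈ S.N k' ∧ S.D.size W ≤ n}).ncard : ℝ) ≤
      ((κ '' {W | W ∈ S.N k0 ∧ S.D.size W ≤ n}).ncard : ℝ) * N *
        ((Φ '' {W | W ∈ S.N k ∧ S.D.size W ≤ m}).ncard : ℝ) ^ M := by exact_mod_cast h6
  refine h7.trans ?_
  have hmr : (m : ℝ) ≤ (n : ℝ) / 2 ^ r + c := by
    rw [hm]
    push_cast
    have : ((n / 2 ^ r : ℕ) : ℝ) ≤ (n : ℝ) / ((2 ^ r : ℕ) : ℝ) := Nat.cast_div_le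
    push_cast at this
    linarith
  have h8 : ((κ '' {W | W ∈ S.N k0 ∧ S.D.size W ≤ n}).ncard : ℝ) ≤
      max Cκ 0 * Real.exp (ε * n) := h2.trans
    (mul_le_mul_of_nonneg_right (le_max_left _ _) (Real.exp_pos _).le)
  have h9 : ((Φ '' {W | W ∈ S.N k ∧ S.D.size W ≤ m}).ncard : ℝ) ≤
      max C 1 * Real.exp (h * m) := h4.trans
    (mul_le_mul_of_nonneg_right (le_max_left _ _) (Real.exp_pos _).le)
  have hmax0 : (0 : ℝ) ≤ max Cκ 0 := le_max_right _ _
  have hmax1 : (1 : ℝ) ≤ max C 1 := le_max_right _ _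
  have hMr : (M : ℝ) ≤ 2 ^ r - 1 := by
    have : ((M + 1 : ℕ) : ℝ) ≤ ((2 ^ r : ℕ) : ℝ) := by exact_mod_cast hM1
    push_cast at this
    linarith
  have h10 : ((Φ '' {W | W ∈ S.N k ∧ S.D.size W ≤ m}).ncard : ℝ) ^ M ≤
      (max C 1) ^ M * Real.exp (h * c * 2 ^ r) * Real.exp ((1 - (1 / 2) ^ r) * h * n) := by
    calc ((Φ '' {W | W ∈ S.N k ∧ S.D.size W ≤ m}).ncard : ℝ) ^ M
        ≤ (max C 1 * Real.exp (h * m)) ^ M := pow_le_pow_left₀ (Nat.cast_nonneg _) h9 M
      _ = (max C 1) ^ M * Real.exp (M * (h * m)) := by rw [mul_pow, ← Real.exp_nat_mul]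
      _ ≤ (max C 1) ^ M * (Real.exp (h * c * 2 ^ r) * Real.exp ((1 - (1 / 2) ^ r) * h * n)) := by
          apply mul_le_mul_of_nonneg_left _ (by positivity)
          rw [← Real.exp_add]
          apply Real.exp_le_exp.2
          have hm0 : (0 : ℝ) ≤ m := Nat.cast_nonneg m
          have hn0 : (0 : ℝ) ≤ n := Nat.cast_nonneg n
          have hc0 : (0 : ℝ) ≤ c := Nat.cast_nonneg c
          have hp : (0 : ℝ) < 2 ^ r := by positivity
          calc (M : ℝ) * (h * m) ≤ (2 ^ r - 1) * (h * m) :=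
                mul_le_mul_of_nonneg_right hMr (mul_nonneg hh hm0)
            _ ≤ (2 ^ r - 1) * (h * ((n : ℝ) / 2 ^ r + c)) := by
                apply mul_le_mul_of_nonneg_left _ ((Nat.cast_nonneg M).trans hMr)
                exact mul_le_mul_of_nonneg_left hmr hh
            _ = (1 - (1 / 2) ^ r) * h * n + (2 ^ r - 1) * (h * c) := by
                rw [one_div, inv_pow]
                field_simp
            _ ≤ (1 - (1 / 2) ^ r) * h * n + 2 ^ r * (h * c) := by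
                have := mul_nonneg hh hc0
                nlinarith
            _ = h * c * 2 ^ r + (1 - (1 / 2) ^ r) * h * n := by ring
      _ = _ := by ring
  calc ((κ '' {W | W ∈ S.N k0 ∧ S.D.size W ≤ n}).ncard : ℝ) * N *
        ((Φ '' {W | W ∈ S.N k ∧ S.D.size W ≤ m}).ncard : ℝ) ^ M
      ≤ (max Cκ 0 * Real.exp (ε * n)) * N *
        ((max C 1) ^ M * Real.exp (h * c * 2 ^ r) * Real.exp ((1 - (1 / 2) ^ r) * h * n)) := by
        apply mul_le_mul _ h10 (by positivity) (by positivity)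
        exact mul_le_mul_of_nonneg_right h8 (Nat.cast_nonneg N)
    _ = max Cκ 0 * N * ((max C 1) ^ M * Real.exp (h * c * 2 ^ r)) *
        (Real.exp (ε * n) * Real.exp ((1 - (1 / 2) ^ r) * h * n)) := by ring
    _ = max Cκ 0 * N * ((max C 1) ^ M * Real.exp (h * c * 2 ^ r)) *
        Real.exp ((ε + (1 - (1 / 2) ^ r) * h) * n) := by
        rw [← Real.exp_add]
        congr 2
        ring

end OmitAux

open OmitAux in
/-- PN3. -/
theorem pn3 {L : Type} [Fintype L] [DecidableEq L] (S : Setup L) (hS : NodeBasics S) :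
    Omit S := by
  intro α β κ Φ r B _ hκ hB hdet
  obtain ⟨k1, hk1⟩ := hdet
  intro δ hδ
  set q : ℝ := 1 - (1 / 2) ^ r with hq
  have hq0 : 0 ≤ q := by
    have : ((1 : ℝ) / 2) ^ r ≤ 1 := pow_le_one₀ (by norm_num) (by norm_num)
    rw [hq]; linarith
  have hq1 : q < 1 := by
    have : (0 : ℝ) < (1 / 2) ^ r := by positivity
    rw [hq]; linarith
  set H : ℝ := Real.log (B + 1) with hH
  have hH0 : 0 ≤ H := Real.log_nonneg (by have : (0 : ℝ) ≤ B := Nat.cast_nonneg B; linarith)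
  have hstart : Rate S Φ 0 H := by
    refine ⟨B + 1, fun n => ?_⟩
    obtain ⟨h1, h2⟩ := hB n
    refine ⟨h1, ?_⟩
    have hB0 : (0 : ℝ) ≤ B := Nat.cast_nonneg B
    have h3 : ((Φ '' {W | W ∈ S.N 0 ∧ S.D.size W ≤ n}).ncard : ℝ) ≤ (B : ℝ) ^ (n + 1) := by
      exact_mod_cast h2
    calc ((Φ '' {W | W ∈ S.N 0 ∧ S.D.size W ≤ n}).ncard : ℝ) ≤ (B : ℝ) ^ (n + 1) := h3
      _ ≤ ((B : ℝ) + 1) ^ (n + 1) := pow_le_pow_left₀ hB0 (by linarith) _
      _ = (B + 1) * Real.exp (H * n) := by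
          rw [pow_succ', mul_comm H, Real.exp_nat_mul, hH, Real.exp_log (by linarith)]
  have hiter : ∀ j : ℕ, ∃ k, Rate S Φ k (δ / 2 + q ^ j * H) := by
    intro j
    induction j with
    | zero => exact ⟨0, hstart.mono hS le_rfl (by rw [pow_zero, one_mul]; linarith)⟩
    | succ j ih =>
      obtain ⟨k, hk⟩ := ih
      obtain ⟨k0, C0, hC0⟩ := hκ ((1 / 2) ^ r * (δ / 2)) (by positivity)
      have hκ' : Rate S κ k0 ((1 / 2) ^ r * (δ / 2)) := ⟨C0, hC0⟩
      obtain ⟨k', hk'⟩ := Rate.step hS (h := δ / 2 + q ^ j * H) (by positivity) hκ' hk1 hk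
      refine ⟨k', ?_⟩
      have e : (1 / 2) ^ r * (δ / 2) + (1 - (1 / 2) ^ r) * (δ / 2 + q ^ j * H) =
          δ / 2 + q ^ (j + 1) * H := by
        rw [← hq, pow_succ, hq]; ring
      rwa [e] at hk'
  obtain ⟨j, hj⟩ : ∃ j : ℕ, q ^ j * H ≤ δ / 2 := by
    have h1 : Filter.Tendsto (fun j : ℕ => q ^ j * H) Filter.atTop (nhds (0 * H)) :=
      (tendsto_pow_atTop_nhds_zero_of_lt_one hq0 hq1).mul_const H
    rw [zero_mul] at h1
    exact (h1.eventually (ge_mem_nhds (by linarith : (0 : ℝ) < δ / 2))).exists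
  obtain ⟨k, hk⟩ := hiter j
  obtain ⟨C, hC⟩ := hk.mono hS le_rfl (h' := δ) (by linarith)
  exact ⟨k, C, hC⟩

end R4
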