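import Pool.Agent.Work.MP_e3f5d9_al.PRa1
import Pool.Agent.Work.MP_e3f5d9_al.TB2
import Pool.Agent.Work.MP_e3f5d9_al_h92.C3
import Pool.Agent.Work.MP_e3f5d9_al_helper94.AL5

/-!
# R4, block PRa: the rule alpha on perfect nodes

The word of the visits of a perfect node to the arms at alpha is a product of boundedly many words
of the class `Good C j`, if the node has `j` generations below. So it is known by the alpha lemma.
-/

set_option autoImplicit false
set_option linter.unusedSectionVars false

open Finset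

namespace R4

namespace PRa

open R4.Al R4.Cut

variable {L : Type} [Fintype L] [DecidableEq L]

/-- The class of a letter at alpha. -/
def cl (N : Finset L) (kk : L → ℕ) (q : ℕ) (i : L) : Option (ZMod q) :=
  if i ∈ N then some (-(kk i : ZMod q)) else none

lemma toKN {D : KS L} {N : Finset L} {kk : L → ℕ} (h : D.IsKk N kk) : IsKN D N kk :=
  ⟨h.mem_false, h.mem_true, h.zero, h.succ, h.ho, h.oN⟩

section count

/-- Products of at most `c` words of a class of subexponential growth. -/
theorem cut_count' {q : ℕ} [NeZero q] (G : List (ZMod q) → Prop) (h0 : G []) (K ε : ℝ)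
    (hK : 1 ≤ K) (hε : 0 ≤ ε)
    (hG : ∀ n : ℕ, (Set.ncard {w : List (ZMod q) | w.length ≤ n ∧ G w} : ℝ) ≤
      K * Real.exp (ε * n)) : ∀ (c n : ℕ),
    (Set.ncard {w : List (ZMod q) | w.length ≤ n ∧ Al.Cut c G w} : ℝ) ≤
      (((n : ℝ) + 1) * K) ^ c * Real.exp (ε * n) := by
  classical
  haveI : Fintype (ZMod q) := ZMod.fintype q
  have hfin : ∀ (P : List (ZMod q) → Prop) (n : ℕ), {w : List (ZMod q) | w.length ≤ n ∧ P w}.Finite := by
    intro P n
    exact (List.finite_length_le (ZMod q) n).subset (fun w hw => hw.1)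
  intro c
  induction c with
  | zero =>
    intro n
    have h1 : {w : List (ZMod q) | w.length ≤ n ∧ Al.Cut 0 G w} ⊆ {[]} := by
      rintro w ⟨-, ps, h1, h2, -⟩
      have h3 : ps = [] := List.length_eq_zero_iff.1 (Nat.le_zero.1 h2)
      subst h3
      exact h1.symm
    have h2 := Set.ncard_le_ncard h1 (Set.finite_singleton _)
    rw [Set.ncard_singleton] at h2
    have h3 : (1 : ℝ) ≤ Real.exp (ε * n) := Real.one_le_exp (by positivity)
    have h4 : ((Set.ncard {w : List (ZMod q) | w.length ≤ n ∧ Al.Cut 0 G w} : ℕ) : ℝ) ≤ 1 := by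
      exact_mod_cast h2
    rw [pow_zero, one_mul]
    exact h4.trans h3
  | succ c ih =>
    intro n
    set S : ℕ → Set (List (ZMod q)) := fun m => {w | w.length ≤ m ∧ Al.Cut c G w} with hS
    set T : ℕ → Set (List (ZMod q)) := fun m => {w | w.length ≤ m ∧ G w} with hT
    have h1 : {w : List (ZMod q) | w.length ≤ n ∧ Al.Cut (c + 1) G w} ⊆
        ⋃ i ∈ range (n + 1), Set.image2 (· ++ ·) (T i) (S (n - i)) := by
      rintro w ⟨hw, ps, h1, h2, h3⟩
      rw [Set.mem_iUnion₂]
      cases ps with
      | nil =>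
        have : w = [] := h1.symm
        subst this
        exact ⟨0, by simp, [], ⟨by simp, h0⟩, [], ⟨by simp, Al.Cut.nil _⟩, rfl⟩
      | cons p ps =>
        rw [List.flatten_cons] at h1
        have h4 : p.length + ps.flatten.length = w.length := by
          rw [← h1, List.length_append]
        refine ⟨p.length, by rw [Finset.mem_range]; omega, p, ⟨le_rfl, h3 p List.mem_cons_self⟩,
          ps.flatten, ⟨by omega, ps, rfl, by simpa using h2,
            fun p' hp' => h3 p' (List.mem_cons_of_mem _ hp')⟩, h1⟩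
    have hfinU : (⋃ i ∈ range (n + 1), Set.image2 (· ++ ·) (T i) (S (n - i))).Finite :=
      Set.Finite.biUnion (Finset.finite_toSet _) (fun i _ => (hfin _ _).image2 _ (hfin _ _))
    have h2 : ({w : List (ZMod q) | w.length ≤ n ∧ Al.Cut (c + 1) G w}).ncard ≤
        ∑ i ∈ range (n + 1), (Set.image2 (· ++ ·) (T i) (S (n - i))).ncard :=
      (Set.ncard_le_ncard h1 hfinU).trans (Finset.set_ncard_biUnion_le _ _)
    have h3 : ∀ i, (Set.image2 (· ++ ·) (T i) (S (n - i))).ncard ≤
        (T i).ncard * (S (n - i)).ncard := by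
      intro i
      rw [← Set.image_prod, ← Set.ncard_prod]
      exact Set.ncard_image_le ((hfin _ _).prod (hfin _ _))
    have h4 : ∀ i ∈ range (n + 1), ((Set.image2 (· ++ ·) (T i) (S (n - i))).ncard : ℝ) ≤
        K * ((((n : ℝ) + 1) * K) ^ c * Real.exp (ε * n)) := by
      intro i hi
      rw [Finset.mem_range] at hi
      have hi' : i ≤ n := by omega
      calc ((Set.image2 (· ++ ·) (T i) (S (n - i))).ncard : ℝ)
          ≤ ((T i).ncard : ℝ) * ((S (n - i)).ncard : ℝ) := by exact_mod_cast h3 i
        _ ≤ (K * Real.exp (ε * i)) *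
            (((((n - i : ℕ) : ℝ) + 1) * K) ^ c * Real.exp (ε * ((n - i : ℕ) : ℝ))) := by
            apply mul_le_mul (hG i) (ih (n - i)) (Nat.cast_nonneg _)
            positivity
        _ = K * (((((n - i : ℕ) : ℝ) + 1) * K) ^ c *
            (Real.exp (ε * i) * Real.exp (ε * ((n - i : ℕ) : ℝ)))) := by ring
        _ = K * (((((n - i : ℕ) : ℝ) + 1) * K) ^ c * Real.exp (ε * n)) := by
            rw [← Real.exp_add, ← mul_add, ← Nat.cast_add, Nat.add_sub_cancel' hi']
        _ ≤ _ := by
            apply mul_le_mul_of_nonneg_left _ (by linarith)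
            apply mul_le_mul_of_nonneg_right _ (Real.exp_pos _).le
            apply pow_le_pow_left₀ (by positivity)
            apply mul_le_mul_of_nonneg_right _ (by linarith)
            have : ((n - i : ℕ) : ℝ) ≤ n := by exact_mod_cast Nat.sub_le n i
            linarith
    calc ((Set.ncard {w : List (ZMod q) | w.length ≤ n ∧ Al.Cut (c + 1) G w} : ℕ) : ℝ)
        ≤ ∑ i ∈ range (n + 1), ((Set.image2 (· ++ ·) (T i) (S (n - i))).ncard : ℝ) := by
          exact_mod_cast h2
      _ ≤ ∑ _i ∈ range (n + 1), K * ((((n : ℝ) + 1) * K) ^ c * Real.exp (ε * n)) :=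
          Finset.sum_le_sum h4
      _ = ((n : ℝ) + 1) * (K * ((((n : ℝ) + 1) * K) ^ c * Real.exp (ε * n))) := by
          rw [Finset.sum_const, Finset.card_range, nsmul_eq_mul]
          push_cast
          ring
      _ = _ := by ring


end count

section arms

variable {D : KS L} {N : Finset L} {kk : L → ℕ} {q : ℕ}

lemma cl_some {i : L} {a : ZMod q} : cl N kk q i = some a ↔ i ∈ N ∧ -(kk i : ZMod q) = a := by
  unfold cl
  split_ifs with h
  · simp [h]
  · simp [h]

lemma mem_cs {i : L} {a : ZMod q} : i ∈ cset (cl N kk q) a ↔ i ∈ N ∧ -(kk i : ZMod q) = a := by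
  unfold cset
  rw [mem_filter, cl_some]
  simp

lemma cl_none {i : L} : cl N kk q i = none ↔ i ∉ N := by
  unfold cl
  split_ifs with h
  · simp [h]
  · simp [h]

lemma clN_eq (hq : q = kk D.o + 1) (j : ℕ) :
    clN D N kk j = cset (cl N kk q) (j : ZMod q) := by
  ext i
  rw [IsKN.mem_cl, mem_cs, ← hq, ← ZMod.natCast_eq_zero_iff]
  push_cast
  constructor
  · rintro ⟨h1, h2⟩
    exact ⟨h1, by linear_combination (-1 : ZMod q) * h2⟩
  · rintro ⟨h1, h2⟩
    exact ⟨h1, by linear_combination (-1 : ZMod q) * h2⟩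

variable (hk : IsKN D N kk) (hq : q = kk D.o + 1)

include hk hq

lemma cl_o : cl N kk q D.o = some 1 := by
  rw [cl_some]
  refine ⟨hk.oN, ?_⟩
  have : ((kk D.o + 1 : ℕ) : ZMod q) = 0 := by
    rw [← hq]; simp
  push_cast at this
  linear_combination (-1 : ZMod q) * this

lemma cl_false {i : L} (h : D.side i = false) : cl N kk q i = some 0 := by
  rw [cl_some]
  refine ⟨hk.mem i h, ?_⟩
  rw [hk.zero i h]; simp

lemma cl_true {i : L} (h : D.side i = true) : cl N kk q i = (cl N kk q (D.nxt i)).map (· - 1) := by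
  by_cases hi : i ∈ N
  · have h1 := (hk.iff i h).1 hi
    have h2 : cl N kk q (D.nxt i) = some (-(kk (D.nxt i) : ZMod q)) := cl_some.2 ⟨h1, rfl⟩
    rw [h2, Option.map_some, cl_some]
    refine ⟨hi, ?_⟩
    rw [hk.succ i hi h]
    push_cast
    ring
  · have h1 : D.nxt i ∉ N := fun h2 => hi ((hk.iff i h).2 h2)
    rw [cl_none.2 hi, cl_none.2 h1]
    rfl

lemma arm_cases [NeZero q] (a : ZMod q) : a = 1 ∨ ∃ j, 2 ≤ j ∧ j ≤ q ∧ (j : ZMod q) = a := by
  have h2 := hk.two_le
  rw [← hq] at h2
  have h3 := ZMod.val_lt a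
  have h4 : ((a.val : ℕ) : ZMod q) = a := ZMod.natCast_zmod_val a
  rcases Nat.lt_or_ge a.val 2 with h5 | h5
  · interval_cases h6 : a.val
    · right
      refine ⟨q, h2, le_rfl, ?_⟩
      rw [← h4]; simp
    · left
      rw [← h4]; simp
  · exact Or.inr ⟨a.val, h5, h3.le, h4⟩

variable {E : Finset (Finset L)} (h : Std D E)

include h

lemma arm_mem [NeZero q] {a : ZMod q} (ha : a ≠ 1) : cset (cl N kk q) a ∈ E := by
  rcases arm_cases hk hq a with h1 | ⟨j, h1, h2, rfl⟩
  · exact absurd h1 ha
  · rw [← clN_eq hq]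
    exact hk.cl_mem h h1 (by omega)

lemma one_mem : (cset (cl N kk q) (1 : ZMod q))ᶜ ∈ E := by
  have := hk.al_mem h
  rw [clN_eq hq] at this
  simpa using this

lemma arm_lp [NeZero q] {a : ZMod q} (ha : a ≠ 1) :
    (D.lp true (cset (cl N kk q) a)).Nonempty := by
  rcases arm_cases hk hq a with h1 | ⟨j, h1, h2, rfl⟩
  · exact absurd h1 ha
  · rw [← clN_eq hq]
    obtain ⟨j', rfl⟩ : ∃ j', j = j' + 1 := ⟨j - 1, by omega⟩
    rw [hk.lp_cl' (by omega) (by omega)]
    have hle : j' - 1 ≤ kk D.o := by omega
    have h4 := hk.iter_kk hk.oN hle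
    refine ⟨_, IsKN.mem_cl.2 ⟨h4.1, ?_⟩⟩
    have : kk (D.nxt^[j' - 1] D.o) + j' = kk D.o + 1 := by
      have := h4.2.1
      omega
    rw [this]

lemma compl_lp : (D.lp true (cset (cl N kk q) (1 : ZMod q))ᶜ).Nonempty := by
  have h1 := hk.lp_compl_one
  rw [clN_eq hq] at h1
  simp only [Nat.cast_one] at h1
  rw [h1]
  refine ⟨D.o, ?_⟩
  rw [mem_compl]
  exact hk.o_notMem (by omega) (by omega)

lemma mono_one : D.Mono E (cset (cl N kk q) (1 : ZMod q))ᶜ {D.o} := by
  have h1 := hk.mono_al h (Y := {D.o}) (V := clN D N kk 1) (by simp)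
    (by simpa using hk.o_mem) (Finset.Subset.refl _)
  rw [clN_eq hq] at h1
  simpa using h1

end arms

section nodes

variable (S : Setup L) (hN : NodeBasics S) {N : Finset L} {kk : L → ℕ} {q : ℕ}
  (hk : IsKN S.D N kk) (hq : q = kk S.D.o + 1)

include hN hk hq

/-- The arms have the same numbers of runs. -/
lemma tight_arms [NeZero q] : ∃ c : ℕ, ∀ W ∈ S.N 0, ∀ W', W' <:+: W → ∀ a b : ZMod q,
    runs (cset (cl N kk q) a) W' ≤ runs (cset (cl N kk q) b) W' + c ∧
    runs (cset (cl N kk q) a) W' ≤ S.D.size W' + c := by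
  have h : Std S.D S.E := ⟨S.full, hk.ho⟩
  obtain ⟨c, hc⟩ := hN.tight
  refine ⟨c + 2, fun W hW W' hW' a b => ?_⟩
  have key : ∀ a : ZMod q, ∃ A ∈ S.E, ∀ V : List L, runs (cset (cl N kk q) a) V ≤ runs A V + 1 ∧
      runs A V ≤ runs (cset (cl N kk q) a) V + 1 := by
    intro a
    by_cases ha : a = 1
    · subst ha
      refine ⟨_, one_mem hk hq h, fun V => ⟨?_, (b1p L).runs_compl _ _⟩⟩
      have := (b1p L).runs_compl (cset (cl N kk q) (1 : ZMod q))ᶜ V
      rwa [compl_compl] at this
    · exact ⟨_, arm_mem hk hq h ha, fun V => ⟨Nat.le_succ _, Nat.le_succ _⟩⟩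
  obtain ⟨A, hA, hA'⟩ := key a
  obtain ⟨B, hB, hB'⟩ := key b
  have h1 := (hA' W').1
  have h2 := (hB' W').2
  have h3 := hc W hW W' hW' A hA B hB
  have h4 := hc W hW W' hW' A hA _ S.full.base
  unfold KS.size
  omega

omit hN hk hq in
lemma blockO (o : L) : ∀ W : List L, ∃ (m : ℕ) (V : List L), W = List.replicate m o ++ V ∧
    ∀ z V', V = z :: V' → z ≠ o := by
  intro W
  induction W with
  | nil => exact ⟨0, [], rfl, by simp⟩
  | cons x W ih =>
    by_cases hx : x = o
    · obtain ⟨m, V, h1, h2⟩ := ih
      exact ⟨m + 1, V, by rw [h1, hx]; rfl, h2⟩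
    · refine ⟨0, x :: W, rfl, ?_⟩
      intro z V' h
      rw [List.cons.injEq] at h
      rw [← h.1]; exact hx

omit hN hk hq in
lemma red_rep (o : L) : ∀ n : ℕ, red (List.replicate (2 * n) o) = [] := by
  intro n
  induction n with
  | zero => rfl
  | succ n ih =>
    have h1 := (b1p L).red_cancel o [] (List.replicate (2 * n) o)
    rw [List.nil_append, List.nil_append] at h1
    rw [← ih, ← h1]
    rfl

/-- Complete runs of the arm of `o` have an odd number of letters `o`. -/
lemma hodd {k : ℕ} {P : List L} (hP : P ∈ S.N k) : Hodd S.D.o (cl N kk q) P := by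
  have h : Std S.D S.E := ⟨S.full, hk.ho⟩
  intro x R y hR hx hy hne hin
  have hmem : ∀ z, z ∈ (cset (cl N kk q) (1 : ZMod q))ᶜ ↔ cl N kk q z ≠ some 1 := by
    intro z; simp [cset]
  have hcl : cl N kk q S.D.o = some 1 := cl_o hk hq
  have hxo : x ≠ S.D.o := by rintro rfl; exact hx hcl
  have hyo : y ≠ S.D.o := by rintro rfl; exact hy hcl
  have hside1 : S.D.Side S.E (cset (cl N kk q) (1 : ZMod q))ᶜ := h.side_of_mem (one_mem hk hq h)
  have hsideo : S.D.Side S.E {S.D.o} := by
    unfold KS.Side KS.nm
    simpa using S.full.base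
  have hm := mono_one hk hq h
  have hA1 := hN.alt k P hP _ _ hm hside1
  have hA2 := hN.alt k P hP _ _ (KS.Mono.symm _ _ hm) hsideo
  have hRC := hN.rclean k P hP _ S.full.base
  -- the run contains `o`
  obtain ⟨j, hj, hjo⟩ := hA1 x R y hR ((hmem x).2 hx) ((hmem y).2 hy) hne
    (fun j hj h1 => (hmem j).1 h1 (hin j hj))
  rw [mem_singleton] at hjo
  subst hjo
  -- the block of the first `o`
  obtain ⟨R1, R2, hR12, hR1⟩ := List.eq_append_cons_of_mem hj
  obtain ⟨m, R3, hR3, hz⟩ := blockO S.D.o R2
  subst hR3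
  have hR3 : S.D.o ∉ R3 := by
    intro h1
    obtain ⟨R4, R5, h2, h3⟩ := List.eq_append_cons_of_mem h1
    subst h2
    have h4 : R4 ≠ [] := by
      rintro rfl
      exact hz _ _ rfl rfl
    have h5 : (S.D.o :: (R4 ++ [S.D.o])) <:+: P := by
      refine List.IsInfix.trans ?_ hR
      refine ⟨x :: (R1 ++ List.replicate m S.D.o), R5 ++ [y], ?_⟩
      rw [hR12]
      have e : List.replicate m S.D.o ++ [S.D.o] = S.D.o :: List.replicate m S.D.o := by
        rw [← List.replicate_succ', List.replicate_succ]
      have e2 : S.D.o :: (List.replicate m S.D.o ++ (R4 ++ S.D.o :: R5)) =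
        (S.D.o :: List.replicate m S.D.o) ++ (R4 ++ S.D.o :: R5) := rfl
      rw [e2, ← e]
      simp
    obtain ⟨j, hj, hj'⟩ := hA2 S.D.o R4 S.D.o h5 (by simp) (by simp) h4 (by
      intro j hj h6
      rw [mem_singleton] at h6
      subst h6
      exact h3 hj)
    exact (hmem j).1 hj' (hin j (by rw [hR12]; simp [hj]))
  have hcount : R.count S.D.o = m + 1 := by
    rw [hR12, List.count_append, List.count_cons_self, List.count_append,
      List.count_eq_zero.2 hR1, List.count_eq_zero.2 hR3, List.count_replicate_self]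
    omega
  rw [hcount]
  by_contra hodd
  rw [Nat.not_odd_iff_even] at hodd
  obtain ⟨n, hn⟩ := hodd
  have hred : red (List.replicate (m + 1) S.D.o) = [] := by
    rw [hn, ← two_mul]
    exact red_rep _ n
  obtain ⟨U, x', hU⟩ : ∃ U x', x :: R1 = U ++ [x'] := by
    rcases List.eq_nil_or_concat (x :: R1) with h1 | ⟨U, x', h1⟩
    · simp at h1
    · exact ⟨U, x', by rw [h1]; simp⟩
  obtain ⟨y', V, hV⟩ : ∃ y' V, R3 ++ [y] = y' :: V := by
    cases R3 with
    | nil => exact ⟨y, [], rfl⟩
    | cons z R3 => exact ⟨z, R3 ++ [y], rfl⟩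
  have hx' : x' ≠ S.D.o := by
    have h1 : x' ∈ x :: R1 := by rw [hU]; simp
    rcases List.mem_cons.1 h1 with rfl | h1
    · exact hxo
    · rintro rfl
      exact hR1 h1
  have hy' : y' ≠ S.D.o := by
    have h1 : y' ∈ R3 ++ [y] := by rw [hV]; simp
    rcases List.mem_append.1 h1 with h1 | h1
    · rintro rfl
      exact hR3 h1
    · rw [List.mem_singleton] at h1
      rw [h1]; exact hyo
  have hfac : (x' :: (List.replicate (m + 1) S.D.o ++ [y'])) <:+: P := by
    refine List.IsInfix.trans ?_ hR
    refine ⟨U, V, ?_⟩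
    have e1 : x :: (R ++ [y]) = (x :: R1) ++ (List.replicate (m + 1) S.D.o ++ (R3 ++ [y])) := by
      rw [hR12, List.replicate_succ]
      simp
    rw [e1, hU, hV]
    simp
  refine hRC x' _ y' hfac (by simp) (Or.inr ⟨?_, ?_, ?_⟩) hred
  · simpa using hx'
  · simpa using hy'
  · intro j hj
    rw [List.mem_replicate] at hj
    rw [hj.2]
    simp

omit hN in
/-- The lift at alpha. -/
lemma lift_al [NeZero q] (hN : NodeBasics S) (hL : LiftNear S) {k : ℕ} {P : List L}
    (hP : P ∈ S.N k) (s : Bool) :
    ∃ a, Near 2 (vis (cl N kk q) none (S.D.sec a P))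
      (((tk S.D.o (cl N kk q) none false P).filter fun z => z.2 == s).map fun z => z.1 - 1) := by
  classical
  have h : Std S.D S.E := ⟨S.full, hk.ho⟩
  set A : Finset L := (cset (cl N kk q) (1 : ZMod q))ᶜ with hA
  have hmemA : ∀ z, z ∈ A ↔ cl N kk q z ≠ some 1 := by
    intro z; simp [hA, cset]
  set c1 : L → Option (ZMod q) := fun x => if cl N kk q x = some 1 then none else cl N kk q x
    with hc1
  have hc1A : ∀ x, x ∉ A → c1 x = none := by
    intro x hx
    rw [hmemA, not_not] at hx
    simp [hc1, hx]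
  have hc1A' : ∀ x, x ∈ A → c1 x = cl N kk q x := by
    intro x hx
    rw [hmemA] at hx
    simp [hc1, hx]
  have hcs : ∀ b, (cset c1 b).Nonempty → b ≠ 1 ∧ cset c1 b = cset (cl N kk q) b := by
    rintro b ⟨x, hx⟩
    have hb : b ≠ 1 := by
      rintro rfl
      simp only [cset, mem_filter, mem_univ, true_and, hc1] at hx
      split_ifs at hx with h1
      exact h1 hx
    refine ⟨hb, ?_⟩
    ext z
    simp only [cset, mem_filter, mem_univ, true_and, hc1]
    split_ifs with h1
    · rw [h1]
      simp only [Option.some.injEq, false_iff]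
      exact fun h2 => hb h2.symm
    · rfl
  have hAE : A ∈ S.E := one_mem hk hq h
  have h1 := hL A true c1 P (h.o_notMem hAE) hc1A
    (hN.clean k P hP A hAE true (compl_lp hk hq h)) (by
      intro b hb
      obtain ⟨h2, h3⟩ := hcs b hb
      rw [h3]
      exact hN.clean k P hP _ (arm_mem hk hq h h2) true (arm_lp hk hq h h2)) (!s)
  refine ⟨!s, ?_⟩
  have e0 : xor (!s) true = s := by cases s <;> rfl
  rw [e0] at h1
  -- relabelling of the child
  set g2 : Option (ZMod q) → ZMod q := fun x => x.elim 0 (fun a => a - 1) with hg2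
  set g : Option (ZMod q) → ZMod q := fun x => x.elim 1 id with hg
  have hgg : ∀ x, g x - 1 = g2 x := by
    intro x
    cases x <;> simp [hg, hg2]
  have e1 : ∀ W : List L, vis (cl N kk q) none W = (vis (S.kcl true A c1) none W).map g2 := by
    intro W
    apply vis_map_none
    · intro i
      unfold Setup.kcl
      by_cases hs : S.D.side i = true
      · rw [cl_true hk hq hs]
        by_cases hi : S.D.nxt i ∈ A
        · rw [if_pos ⟨hs, hi⟩, hc1A' _ hi]
          cases cl N kk q (S.D.nxt i) <;> simp [hg2]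
        · rw [if_neg (fun h2 => hi h2.2)]
          rw [hmemA, not_not] at hi
          rw [hi]
          simp [hg2]
      · rw [cl_false hk hq (by simpa using hs), if_neg (fun h2 => hs h2.1)]
        simp [hg2]
    · have hval : ∀ x b, S.kcl true A c1 x = some (some b) → b ≠ 1 := by
        intro x b hx
        unfold Setup.kcl at hx
        split_ifs at hx with h2
        · rintro rfl
          rw [hc1A' _ h2.2] at hx
          cases h3 : cl N kk q (S.D.nxt x) with
          | none => rw [h3] at hx; simp at hx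
          | some d =>
            rw [h3] at hx
            simp only [Option.map_some, Option.some.injEq] at hx
            subst hx
            exact (hmemA _).1 h2.2 h3
        · simp at hx
      intro x y b b' hx hy hbb
      cases b with
      | none =>
        cases b' with
        | none => rfl
        | some b' =>
          exfalso
          apply hval y b' hy
          simp only [hg2, Option.elim_none, Option.elim_some] at hbb
          exact (sub_eq_zero.1 hbb.symm)
      | some b =>
        cases b' with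
        | none =>
          exfalso
          apply hval x b hx
          simp only [hg2, Option.elim_none, Option.elim_some] at hbb
          exact (sub_eq_zero.1 hbb)
        | some b' =>
          simp only [hg2, Option.elim_some, sub_left_inj] at hbb
          rw [hbb]
  -- relabelling of the tokens
  have e2 : tk S.D.o (cl N kk q) none false P =
      (tk S.D.o (glR A c1) none false P).map (Prod.map g id) := by
    have := tk_map S.D.o (c := glR A c1) (c' := cl N kk q) (e := g) (by
      intro x
      unfold glR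
      by_cases hx : x ∈ A
      · rw [if_pos hx, hc1A' _ hx]
        cases cl N kk q x <;> simp [hg]
      · rw [if_neg hx]
        rw [hmemA, not_not] at hx
        rw [hx]
        simp [hg]) (by
      have hval : ∀ x b, glR A c1 x = some (some b) → b ≠ 1 := by
        intro x b hx
        unfold glR at hx
        split_ifs at hx with h2
        · rintro rfl
          rw [hc1A' _ h2] at hx
          cases h3 : cl N kk q x with
          | none => rw [h3] at hx; simp at hx
          | some d =>
            rw [h3] at hx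
            simp only [Option.map_some, Option.some.injEq] at hx
            subst hx
            exact (hmemA _).1 h2 h3
        · simp at hx
      intro x y b b' hx hy hbb
      cases b with
      | none =>
        cases b' with
        | none => rfl
        | some b' =>
          exfalso
          apply hval y b' hy
          simpa [hg] using hbb.symm
      | some b =>
        cases b' with
        | none =>
          exfalso
          apply hval x b hx
          simpa [hg] using hbb
        | some b' =>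
          simp only [hg, Option.elim_some, id] at hbb
          rw [hbb]) P none false (by simp)
    simpa using this
  have e3 : ((tk S.D.o (cl N kk q) none false P).filter fun z => z.2 == s).map (fun z => z.1 - 1) =
      (((tk S.D.o (glR A c1) none false P).filter fun z => z.2 == s).map Prod.fst).map g2 := by
    rw [e2, List.filter_map, List.map_map, List.map_map]
    have : ((fun z : ZMod q × Bool => z.2 == s) ∘ Prod.map g id) =
        fun z : Option (ZMod q) × Bool => z.2 == s := by
      funext z; rfl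
    rw [this]
    apply List.map_congr_left
    intro z _
    simp [hgg]
  rw [e1, e3]
  obtain ⟨a, b, a', b', m, h2, h3, h4, h5, h6, h7⟩ := h1
  refine ⟨a.map g2, b.map g2, a'.map g2, b'.map g2, m.map g2, ?_, ?_, by simpa, by simpa, by simpa,
    by simpa⟩
  · rw [h2]; simp
  · rw [h3]; simp

/-- The word of the visits is a product of boundedly many good words. -/
theorem cut_nodes [NeZero q] (hL : LiftNear S) : ∃ C : ℕ, ∀ j : ℕ, ∃ c : ℕ, ∀ W ∈ S.N j,
    Al.Cut c (fun w => Al.Good C j w) (vis (cl N kk q) none W) := by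
  obtain ⟨c0, hc0⟩ := tight_arms S hN hk hq
  have hanti : ∀ j W, W ∈ S.N j → W ∈ S.N 0 := by
    intro j
    induction j with
    | zero => intro W h; exact h
    | succ j ih => intro W h; exact ih W (hN.anti j h)
  have hbal : ∀ W ∈ S.N 0, Bal (c0 + 1) (vis (cl N kk q) none W) := by
    intro W hW F hF a b
    obtain ⟨W', p', h1, rfl⟩ := vis_factor W none F hF
    rw [count_vis, count_vis]
    have e1 := (hc0 W hW W' h1 a b).1
    have e2 := B1pAux.rA_le (cset (cl N kk q) a) W'
    have e3 := B1pAux.rA_le (cset (cl N kk q) b) W'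
    unfold runs at e1
    cases decide (p' = some a) <;> cases decide (p' = some b) <;> omega
  have hshort : ∀ (j : ℕ) (w : List (ZMod q)), Al.Cut w.length (fun w => Al.Good (c0 + 1) j w) w := by
    intro j w
    induction w with
    | nil => exact Al.Cut.nil _
    | cons x w ih =>
      have h1 := (Al.Cut.one (good_short (C := c0 + 1) (by omega) j [x] (by simp))).append ih
      rw [List.length_cons]
      exact h1.mono (by omega)
  refine ⟨c0 + 1, fun j => ?_⟩
  induction j with
  | zero =>
    refine ⟨1, fun W hW => Al.Cut.one ?_⟩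
    intro u hu
    cases u with
    | nil => exact hbal W hW
    | cons b u => simp at hu
  | succ j ih =>
    obtain ⟨c, hc⟩ := ih
    refine ⟨(c + 5) + (c + 5) + 1, fun W hW => ?_⟩
    have hfc : FC (fun w : List (ZMod q) => Al.Good (c0 + 1) j w) := fc_good (c0 + 1) j
    have hkid : ∀ b, Al.Cut (c + 5) (fun w => Al.Good (c0 + 1) j w)
        (kid b (vis (cl N kk q) none W)) := by
      intro b
      obtain ⟨s, l, v, h1, h2, h3⟩ := rel_kid S.D.o (cl N kk q) (cl_o hk hq)
        (hodd S hN hk hq hW) b
      obtain ⟨a, a1, b1, a2, b2, m, h4, h5, h6, h7, h8, h9⟩ := lift_al S hk hq hN hL hW s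
      have h10 := hc _ (hN.kid j W hW a)
      rw [h4] at h10
      have h11 : Al.Cut c (fun w => Al.Good (c0 + 1) j w) m := Al.Cut.factor hfc h10 ⟨a1, b1, rfl⟩
      rw [h5] at h3
      have h12 := ((hshort j a2).append h11).append (hshort j b2)
      have h13 := Al.Cut.factor hfc h12 h3
      have h14 := (hshort j l).append h13
      rw [← h2] at h14
      exact h14.mono (by omega)
    obtain ⟨ps, h1, h2, h3⟩ := Al.kids hfc (good_short (by omega) j [] (by simp))
      (hkid true) (hkid false)
    refine ⟨ps, h1, h2, fun p hp => kg_good ?_ (h3 p hp)⟩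
    intro F hF
    refine hbal W (hanti _ W hW) F (hF.trans ?_)
    rw [← h1]
    obtain ⟨s, t, hst⟩ := List.append_of_mem hp
    rw [hst]
    exact ⟨s.flatten, t.flatten, by simp⟩

/-- The word of the visits is known. -/
theorem known_al [NeZero q] (hL : LiftNear S) (hV : VisBasics L) :
    S.Known fun W => vis (cl N kk q) none W := by
  classical
  haveI : Fintype (ZMod q) := ZMod.fintype q
  obtain ⟨C, hC⟩ := cut_nodes S hN hk hq hL
  obtain ⟨c0, hc0⟩ := tight_arms S hN hk hq
  have hanti : ∀ j W, W ∈ S.N j → W ∈ S.N 0 := by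
    intro j
    induction j with
    | zero => intro W h; exact h
    | succ j ih => intro W h; exact ih W (hN.anti j h)
  have hq0 : (0 : ℝ) < q := by
    have := NeZero.pos q
    exact_mod_cast this
  intro ε hε
  obtain ⟨j, K0, hj⟩ := alphaLemma q (C + 1) (ε / (2 * q)) (by positivity)
  obtain ⟨c, hc⟩ := hC j
  set K : ℝ := max K0 1 with hKdef
  have hK1 : 1 ≤ K := le_max_right _ _
  have hG : ∀ n : ℕ, (Set.ncard {w : List (ZMod q) | w.length ≤ n ∧ Al.Good (C + 1) j w} : ℝ)
      ≤ K * Real.exp (ε / (2 * q) * n) := by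
    intro n
    refine (hj n).trans ?_
    exact mul_le_mul_of_nonneg_right (le_max_left _ _) (Real.exp_pos _).le
  have hgood : ∀ w : List (ZMod q), Al.Good C j w → Al.Good (C + 1) j w := by
    intro w hw u hu F hF a b
    have := hw u hu F hF a b
    omega
  have hcount := cut_count' (fun w => Al.Good (C + 1) j w) (good_short (by omega) j [] (by simp)) K
    (ε / (2 * q)) hK1 (by positivity) hG c
  obtain ⟨P, hP0, hP⟩ := TB2Aux.poly_le_exp q c (ε / 2) (by positivity)
  refine ⟨j, ((q * c0 + 1 : ℕ) : ℝ) ^ c * P * K ^ c * Real.exp (ε / 2 * c0), fun n => ?_⟩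
  set n' : ℕ := q * (n + c0) with hn'
  have hsub : (fun W => vis (cl N kk q) none W) '' {W | S.D.PNode S.E S.n0 S.θ S.d j W ∧
      S.D.size W ≤ n} ⊆
      {w : List (ZMod q) | w.length ≤ n' ∧ Al.Cut c (fun w => Al.Good (C + 1) j w) w} := by
    rintro s ⟨W, ⟨hW, hWn⟩, rfl⟩
    refine ⟨?_, ?_⟩
    · change (vis (cl N kk q) none W).length ≤ n'
      rw [hV.length]
      calc ∑ b, runs (cset (cl N kk q) b) W ≤ ∑ _b : ZMod q, (n + c0) := by
            apply Finset.sum_le_sum
            intro b _
            have := (hc0 W (hanti j W hW) W List.infix_rfl b b).2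
            omega
        _ = n' := by
            rw [Finset.sum_const, Finset.card_univ, ZMod.card, smul_eq_mul]
    · obtain ⟨ps, h2, h3, h4⟩ := hc _ hW
      exact ⟨ps, h2, h3, fun p hp => hgood p (h4 p hp)⟩
  have hfin : {w : List (ZMod q) | w.length ≤ n' ∧
      Al.Cut c (fun w => Al.Good (C + 1) j w) w}.Finite :=
    (List.finite_length_le (ZMod q) n').subset (fun w hw => hw.1)
  refine ⟨hfin.subset hsub, ?_⟩
  have h1 := Set.ncard_le_ncard hsub hfin
  have e1 : ((n' : ℝ) + 1) ≤ ((q * c0 + 1 : ℕ) : ℝ) * ((q * n + 1 : ℕ) : ℝ) := by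
    have : n' + 1 ≤ (q * c0 + 1) * (q * n + 1) := by
      rw [hn']
      nlinarith [Nat.zero_le (q * c0 * (q * n))]
    exact_mod_cast this
  have e2 : ε / (2 * q) * (n' : ℝ) = ε / 2 * n + ε / 2 * c0 := by
    rw [hn']
    push_cast
    field_simp
  calc ((((fun W => vis (cl N kk q) none W) '' {W | S.D.PNode S.E S.n0 S.θ S.d j W ∧
      S.D.size W ≤ n}).ncard : ℕ) : ℝ)
      ≤ (Set.ncard {w : List (ZMod q) | w.length ≤ n' ∧
          Al.Cut c (fun w => Al.Good (C + 1) j w) w} : ℝ) := by exact_mod_cast h1
    _ ≤ (((n' : ℝ) + 1) * K) ^ c * Real.exp (ε / (2 * q) * n') := hcount n'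
    _ = ((n' : ℝ) + 1) ^ c * K ^ c * (Real.exp (ε / 2 * n) * Real.exp (ε / 2 * c0)) := by
        rw [mul_pow, e2, Real.exp_add]
    _ ≤ (((q * c0 + 1 : ℕ) : ℝ) * ((q * n + 1 : ℕ) : ℝ)) ^ c * K ^ c *
        (Real.exp (ε / 2 * n) * Real.exp (ε / 2 * c0)) := by
        apply mul_le_mul_of_nonneg_right _ (by positivity)
        apply mul_le_mul_of_nonneg_right _ (by positivity)
        exact pow_le_pow_left₀ (by positivity) e1 c
    _ = ((q * c0 + 1 : ℕ) : ℝ) ^ c * (((q * n + 1 : ℕ) : ℝ) ^ c) * K ^ c *
        (Real.exp (ε / 2 * n) * Real.exp (ε / 2 * c0)) := by rw [mul_pow]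
    _ ≤ ((q * c0 + 1 : ℕ) : ℝ) ^ c * (P * Real.exp (ε / 2 * n)) * K ^ c *
        (Real.exp (ε / 2 * n) * Real.exp (ε / 2 * c0)) := by
        apply mul_le_mul_of_nonneg_right _ (by positivity)
        apply mul_le_mul_of_nonneg_right _ (by positivity)
        exact mul_le_mul_of_nonneg_left (hP n) (by positivity)
    _ = ((q * c0 + 1 : ℕ) : ℝ) ^ c * P * K ^ c * Real.exp (ε / 2 * c0) *
        (Real.exp (ε / 2 * n) * Real.exp (ε / 2 * n)) := by ring
    _ = _ := by
        rw [← Real.exp_add]
        congr 2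
        ring

end nodes

end PRa

open PRa in
/-- PRa. The rule `alpha` of `PairRules`. -/
theorem pra {L : Type} [Fintype L] [DecidableEq L] (S : Setup L) (hN : NodeBasics S)
    (hK : KnownCalc S) (hV : VisBasics L) (hL : LiftNear S) :
    ∀ N kk, S.D.IsKk N kk → ∀ a b, ¬ a ≡ b [MOD kk S.D.o + 1] →
      S.K (N.filter fun i => kk S.D.o + 1 ∣ kk i + a)
        (N.filter fun i => kk S.D.o + 1 ∣ kk i + b) := by
  intro N kk hkk a b hab
  have hk := toKN hkk
  set q := kk S.D.o + 1 with hq
  haveI : NeZero q := ⟨by omega⟩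
  have h1 := known_al S hN hk hq hL hV
  have hX : ∀ a : ℕ, (N.filter fun i => q ∣ kk i + a) = cset (cl N kk q) (a : ZMod q) :=
    fun a => clN_eq hq a
  rw [hX, hX]
  have hne : (a : ZMod q) ≠ (b : ZMod q) := by
    intro h
    exact hab ((ZMod.natCast_eq_natCast_iff _ _ _).1 h)
  set p : ZMod q → Bool := fun z => decide (z = a ∨ z = b) with hp
  set e : ZMod q → Bool := fun z => decide (z = a) with he
  have h2 : ∀ W : List L, vis (pc (cset (cl N kk q) (a : ZMod q)) (cset (cl N kk q) (b : ZMod q)))
      none W = ((vis (cl N kk q) none W).filter p).map e := by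
    intro W
    rw [← hV.filter]
    apply vis_map_none
    · intro x
      unfold pc
      simp only [cset, mem_filter, mem_univ, true_and]
      cases hx : cl N kk q x with
      | none => simp
      | some z =>
        by_cases h3 : z = a
        · subst h3
          simp [hp, he, Option.filter]
        · by_cases h4 : z = b
          · subst h4
            simp [hp, he, Option.filter, h3]
          · simp [hp, Option.filter, h3, h4]
    · intro x y z z' hz hz' hzz
      have h5 : ∀ x z, (cl N kk q x).filter p = some z → z = a ∨ z = b := by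
        intro x z h
        rw [Option.filter_eq_some_iff] at h
        simpa [hp] using h.2
      rcases h5 x z hz with rfl | rfl
      · rcases h5 y z' hz' with rfl | rfl
        · rfl
        · simp [he, hne.symm] at hzz
      · rcases h5 y z' hz' with rfl | rfl
        · simp [he, hne.symm] at hzz
        · rfl
  unfold Setup.K
  have h3 : (fun W => vis (pc (cset (cl N kk q) (a : ZMod q)) (cset (cl N kk q) (b : ZMod q)))
      none W) = fun W => ((vis (cl N kk q) none W).filter p).map e := funext h2
  rw [h3]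
  refine hK.det _ _ h1 ⟨0, 1, fun _ => 0, fun W _ W' _ h _ => ?_⟩
  exact congrArg (fun v : List (ZMod q) => (v.filter p).map e) h

end R4
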