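import Pool.Agent.Work.MP_e3f5d9_al.P1
import Pool.Agent.Work.MP_e3f5d9_al.B2Aux
import Pool.Agent.Work.MP_e3f5d9_al.B1p
import Pool.Agent.Work.MP_e3f5d9_al_helper21.TA4

/-!
# R4, block PRa, part 1: the words of the visits and their children
-/

set_option autoImplicit false
set_option linter.unusedSectionVars false

open Finset

namespace R4

namespace PRa

section vis

variable {L β : Type} [DecidableEq β]

lemma vis_none {c : L → Option β} {x : L} (h : c x = none) (p : Option β) (w : List L) :
    vis c p (x :: w) = vis c none w := by simp [vis, h]

lemma vis_eq {c : L → Option β} {x : L} {b : β} (h : c x = some b) (w : List L) :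
    vis c (some b) (x :: w) = vis c (some b) w := by simp [vis, h]

lemma vis_ne {c : L → Option β} {x : L} {b : β} (h : c x = some b) {p : Option β}
    (hp : p ≠ some b) (w : List L) : vis c p (x :: w) = b :: vis c (some b) w := by
  simp [vis, h, hp]

/-- Relabelling. -/
lemma vis_map {γ : Type} [DecidableEq γ] {c : L → Option β} {c' : L → Option γ} {e : β → γ}
    (h : ∀ x, c' x = (c x).map e)
    (hi : ∀ x y b b', c x = some b → c y = some b' → e b = e b' → b = b') :
    ∀ (W : List L) (p : Option β), (∀ b, p = some b → ∃ y, c y = some b) →
      vis c' (p.map e) W = (vis c p W).map e := by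
  intro W
  induction W with
  | nil => intro p _; rfl
  | cons x W ih =>
    intro p hp
    cases hx : c x with
    | none =>
      have hx' : c' x = none := by rw [h, hx]; rfl
      rw [vis_none hx, vis_none hx']
      exact ih none (by simp)
    | some b =>
      have hx' : c' x = some (e b) := by rw [h, hx]; rfl
      have ih' := ih (some b) (fun b' hb' => ⟨x, by rw [hx, hb']⟩)
      rw [Option.map_some] at ih'
      by_cases hpb : p = some b
      · subst hpb
        rw [Option.map_some, vis_eq hx, vis_eq hx']
        exact ih'
      · have hpb' : p.map e ≠ some (e b) := by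
          intro h1
          cases p with
          | none => simp at h1
          | some b' =>
            rw [Option.map_some, Option.some.injEq] at h1
            obtain ⟨y, hy⟩ := hp b' rfl
            exact hpb (by rw [hi y x b' b hy hx h1])
        rw [vis_ne hx hpb, vis_ne hx' hpb', List.map_cons, ih']

lemma vis_map_none {γ : Type} [DecidableEq γ] {c : L → Option β} {c' : L → Option γ} {e : β → γ}
    (h : ∀ x, c' x = (c x).map e)
    (hi : ∀ x y b b', c x = some b → c y = some b' → e b = e b' → b = b') (W : List L) :
    vis c' none W = (vis c none W).map e := vis_map h hi W none (by simp)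

/-- The visits of a factor. -/
lemma vis_split {c : L → Option β} : ∀ (W : List L) (p : Option β) (u v : List β),
    vis c p W = u ++ v → ∃ (X Y : List L) (p' : Option β), W = X ++ Y ∧
      vis c p X = u ∧ vis c p' Y = v := by
  intro W
  induction W with
  | nil =>
    intro p u v h
    have h' : ([] : List β) = u ++ v := h
    obtain ⟨rfl, rfl⟩ := List.append_eq_nil_iff.1 h'.symm
    exact ⟨[], [], none, rfl, rfl, rfl⟩
  | cons x W ih =>
    intro p u v h
    cases u with
    | nil => exact ⟨[], x :: W, p, rfl, rfl, h⟩
    | cons a u =>
      cases hx : c x with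
      | none =>
        rw [vis_none hx] at h
        obtain ⟨X, Y, p', rfl, h2, h3⟩ := ih none (a :: u) v h
        exact ⟨x :: X, Y, p', rfl, by rw [vis_none hx]; exact h2, h3⟩
      | some b =>
        by_cases hp : p = some b
        · subst hp
          rw [vis_eq hx] at h
          obtain ⟨X, Y, p', rfl, h2, h3⟩ := ih (some b) (a :: u) v h
          exact ⟨x :: X, Y, p', rfl, by rw [vis_eq hx]; exact h2, h3⟩
        · rw [vis_ne hx hp, List.cons_append, List.cons.injEq] at h
          obtain ⟨rfl, h⟩ := h
          obtain ⟨X, Y, p', rfl, h2, h3⟩ := ih (some b) u v h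
          exact ⟨x :: X, Y, p', rfl, by rw [vis_ne hx hp, h2], h3⟩

lemma vis_factor {c : L → Option β} (W : List L) (p : Option β) (u : List β)
    (h : u <:+: vis c p W) : ∃ (W' : List L) (p' : Option β), W' <:+: W ∧ vis c p' W' = u := by
  obtain ⟨s, t, hst⟩ := h
  obtain ⟨X, Y, p', rfl, -, h2⟩ := vis_split W p s (u ++ t) (by
    rw [← List.append_assoc]; exact hst.symm)
  obtain ⟨Y', Z, p'', rfl, h3, -⟩ := vis_split Y p' u t h2
  exact ⟨Y', p', ⟨X, Z, by simp⟩, h3⟩

/-- The number of visits to a class. -/
lemma count_vis [Fintype L] [DecidableEq L] {c : L → Option β} (b : β) :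
    ∀ (W : List L) (p : Option β),
    (vis c p W).count b = runsAux (cset c b) (decide (p = some b)) W := by
  intro W
  induction W with
  | nil => intro p; simp [vis, runsAux]
  | cons x W ih =>
    intro p
    cases hx : c x with
    | none =>
      have h1 : x ∉ cset c b := by simp [cset, hx]
      rw [vis_none hx, B2Aux.runsAux_out h1, ih none]
      simp
    | some b' =>
      by_cases hb : b' = b
      · subst hb
        have h1 : x ∈ cset c b' := by simp [cset, hx]
        rw [B2Aux.runsAux_in h1]
        have ih' := ih (some b')
        simp only [decide_true] at ih'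
        by_cases hp : p = some b'
        · subst hp
          rw [vis_eq hx, ih']
          simp [B2Aux.nu]
        · rw [vis_ne hx hp, List.count_cons_self, ih']
          simp [B2Aux.nu, hp]
          omega
      · have h1 : x ∉ cset c b := by simp [cset, hx, hb]
        rw [B2Aux.runsAux_out h1]
        have ih' := ih (some b')
        have h2 : decide ((some b' : Option β) = some b) = false := by simp [hb]
        rw [h2] at ih'
        by_cases hp : p = some b'
        · subst hp
          rw [vis_eq hx, ih']
        · rw [vis_ne hx hp, List.count_cons_of_ne hb, ih']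

end vis

section tok

variable {L β : Type} [DecidableEq β] [DecidableEq L] (o : L)

lemma tk_none {c : L → Option β} {x : L} (h : c x = none) (p : Option β) (q : Bool) (w : List L) :
    tk o c p q (x :: w) = tk o c none (xor q (decide (x = o))) w := by simp [tk, h]

lemma tk_eq {c : L → Option β} {x : L} {b : β} (h : c x = some b) (q : Bool) (w : List L) :
    tk o c (some b) q (x :: w) = tk o c (some b) (xor q (decide (x = o))) w := by simp [tk, h]

lemma tk_ne {c : L → Option β} {x : L} {b : β} (h : c x = some b) {p : Option β}
    (hp : p ≠ some b) (q : Bool) (w : List L) :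
    tk o c p q (x :: w) = (b, q) :: tk o c (some b) (xor q (decide (x = o))) w := by
  simp [tk, h, hp]

/-- Relabelling. -/
lemma tk_map {γ : Type} [DecidableEq γ] {c : L → Option β} {c' : L → Option γ} {e : β → γ}
    (h : ∀ x, c' x = (c x).map e)
    (hi : ∀ x y b b', c x = some b → c y = some b' → e b = e b' → b = b') :
    ∀ (W : List L) (p : Option β) (q : Bool), (∀ b, p = some b → ∃ y, c y = some b) →
      tk o c' (p.map e) q W = (tk o c p q W).map (Prod.map e id) := by
  intro W
  induction W with
  | nil => intro p q _; rfl
  | cons x W ih =>
    intro p q hp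
    cases hx : c x with
    | none =>
      have hx' : c' x = none := by rw [h, hx]; rfl
      rw [tk_none o hx, tk_none o hx']
      exact ih none _ (by simp)
    | some b =>
      have hx' : c' x = some (e b) := by rw [h, hx]; rfl
      have ih' := ih (some b) (xor q (decide (x = o))) (fun b' hb' => ⟨x, by rw [hx, hb']⟩)
      rw [Option.map_some] at ih'
      by_cases hpb : p = some b
      · subst hpb
        rw [Option.map_some, tk_eq o hx, tk_eq o hx']
        exact ih'
      · have hpb' : p.map e ≠ some (e b) := by
          intro h1
          cases p with
          | none => simp at h1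
          | some b' =>
            rw [Option.map_some, Option.some.injEq] at h1
            obtain ⟨y, hy⟩ := hp b' rfl
            exact hpb (by rw [hi y x b' b hy hx h1])
        rw [tk_ne o hx hpb, tk_ne o hx' hpb', List.map_cons, ih']
        rfl

end tok

/-! ### Parities -/

section par

open R4.Al

variable {q : ℕ} {L : Type} [DecidableEq L] (o : L) (c : L → Option (ZMod q))

/-- Every complete run of the class `1` has an odd number of letters `o`. The state is the parity of
the current run. -/
def okr : Option Bool → List L → Prop
  | _, [] => True
  | none, x :: W => if c x = some 1 then okr (some (decide (x = o))) W else okr none W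
  | some m, x :: W => if c x = some 1 then okr (some (xor m (decide (x = o)))) W
      else m = true ∧ okr none W

variable (ho : c o = some 1)

include ho

lemma ne_o {x : L} (h : c x ≠ some 1) : x ≠ o := by
  rintro rfl
  exact h ho

/-- The tokens of one parity are the child. -/
lemma tok_kid : ∀ (W : List L) (s : Bool),
    (∀ (p : Option (ZMod q)) (r : Bool), p ≠ some 1 → okr o c none W →
      ((tk o c p r W).filter fun z => z.2 == s).map (fun z => z.1 - 1) =
        kid (r == s) (vis c p W)) ∧
    (∀ (m r : Bool), okr o c (some m) W →
      ((tk o c (some 1) r W).filter fun z => z.2 == s).map (fun z => z.1 - 1) =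
        kid ((!(xor r m)) == s) (vis c (some 1) W)) := by
  intro W s
  induction W with
  | nil =>
    refine ⟨fun p r _ _ => ?_, fun m r _ => ?_⟩
    · cases (r == s) <;> simp [tk, vis]
    · cases ((!(xor r m)) == s) <;> simp [tk, vis]
  | cons x W ih =>
    obtain ⟨ihA, ihB⟩ := ih
    by_cases hx : c x = some 1
    · refine ⟨fun p r hp hW => ?_, fun m r hW => ?_⟩
      · rw [okr, if_pos hx] at hW
        have h1 := ihB _ (xor r (decide (x = o))) hW
        rw [tk_ne o hx hp, vis_ne hx hp]
        have e1 : (!(xor (xor r (decide (x = o))) (decide (x = o)))) = !r := by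
          cases r <;> cases decide (x = o) <;> rfl
        rw [e1] at h1
        cases hrs : (r == s)
        · have e2 : ((!r) == s) = true := by
            revert hrs; cases r <;> cases s <;> decide
          rw [e2] at h1
          rw [List.filter_cons_of_neg (by simp [hrs]), h1, kid_false_cons]
          simp
        · have e2 : ((!r) == s) = false := by
            revert hrs; cases r <;> cases s <;> decide
          rw [e2] at h1
          rw [List.filter_cons_of_pos (by simp [hrs]), List.map_cons, h1, kid_true_cons]
          simp
      · rw [okr, if_pos hx] at hW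
        have h1 := ihB _ (xor r (decide (x = o))) hW
        rw [tk_eq o hx, vis_eq hx, h1]
        congr 2
        cases r <;> cases m <;> cases decide (x = o) <;> rfl
    · have hxo : decide (x = o) = false := by simpa using ne_o o c ho hx
      have key : ∀ (p : Option (ZMod q)) (r : Bool), okr o c none W →
          ((tk o c p r (x :: W)).filter fun z => z.2 == s).map (fun z => z.1 - 1) =
            kid (r == s) (vis c p (x :: W)) := by
        intro p r hW
        cases hb : c x with
        | none =>
          rw [tk_none o hb, vis_none hb, hxo, Bool.xor_false]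
          exact ihA none r (by simp) hW
        | some b =>
          have hb1 : b ≠ 1 := by
            rintro rfl
            exact hx hb
          have hb1' : (some b : Option (ZMod q)) ≠ some 1 := by simpa using hb1
          have h1 := ihA (some b) r hb1' hW
          by_cases hp : p = some b
          · subst hp
            rw [tk_eq o hb, vis_eq hb, hxo, Bool.xor_false]
            exact h1
          · rw [tk_ne o hb hp, vis_ne hb hp, hxo, Bool.xor_false]
            cases hrs : (r == s)
            · rw [hrs] at h1
              rw [List.filter_cons_of_neg (by simp [hrs]), h1, kid_false_cons]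
              simp [hb1]
            · rw [hrs] at h1
              rw [List.filter_cons_of_pos (by simp [hrs]), List.map_cons, h1, kid_true_cons]
              simp [hb1]
      refine ⟨fun p r hp hW => ?_, fun m r hW => ?_⟩
      · rw [okr, if_neg hx] at hW
        exact key p r hW
      · rw [okr, if_neg hx] at hW
        obtain ⟨rfl, hW⟩ := hW
        have := key (some 1) r hW
        rw [this]
        congr 1
        cases r <;> rfl

omit ho in
/-- Complete runs of the class `1` have an odd number of letters `o`. -/
def Hodd (P : List L) : Prop :=
  ∀ (x : L) (R : List L) (y : L), (x :: (R ++ [y])) <:+: P → c x ≠ some 1 → c y ≠ some 1 →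
    R ≠ [] → (∀ j ∈ R, c j = some 1) → Odd (R.count o)

omit ho in
lemma Hodd.fac {P P' : List L} (h : Hodd o c P) (hP : P' <:+: P) : Hodd o c P' :=
  fun x R y h1 => h x R y (h1.trans hP)

omit ho in
lemma odd_snoc (R : List L) (z : L) :
    decide (Odd ((R ++ [z]).count o)) = xor (decide (Odd (R.count o))) (decide (z = o)) := by
  rw [List.count_append, List.count_singleton]
  by_cases h : z = o
  · subst h
    by_cases h1 : Odd (R.count z) <;> simp [h1, Nat.odd_add_one]
  · simp [h]

omit ho in
lemma okr_of : ∀ (W : List L),
    (∀ x, c x ≠ some 1 → Hodd o c (x :: W) → okr o c none W) ∧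
    (∀ x R, c x ≠ some 1 → R ≠ [] → (∀ j ∈ R, c j = some 1) → Hodd o c (x :: (R ++ W)) →
      okr o c (some (decide (Odd (R.count o)))) W) := by
  intro W
  induction W with
  | nil => exact ⟨fun _ _ _ => trivial, fun _ _ _ _ _ _ => trivial⟩
  | cons z W ih =>
    obtain ⟨ihA, ihB⟩ := ih
    refine ⟨fun x hx h => ?_, fun x R hx hR hR' h => ?_⟩
    · rw [okr]
      by_cases hz : c z = some 1
      · rw [if_pos hz]
        have h1 := ihB x [z] hx (by simp) (by simpa using hz) (by simpa using h)
        have h2 := odd_snoc o ([] : List L) z
        simp only [List.nil_append] at h2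
        rw [h2] at h1
        simpa using h1
      · rw [if_neg hz]
        exact ihA z hz (h.fac o c (List.suffix_cons x (z :: W)).isInfix)
    · rw [okr]
      by_cases hz : c z = some 1
      · rw [if_pos hz, ← odd_snoc]
        refine ihB x (R ++ [z]) hx (by simp) ?_ (by simpa using h)
        intro j hj
        rcases List.mem_append.1 hj with hj | hj
        · exact hR' j hj
        · rw [List.mem_singleton] at hj
          rw [hj]; exact hz
      · rw [if_neg hz]
        refine ⟨?_, ihA z hz (h.fac o c ⟨x :: R, [], by simp⟩)⟩
        rw [decide_eq_true_iff]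
        exact h x R z ⟨[], W, by simp⟩ hx hz hR hR'

omit ho in
lemma vis_run : ∀ (R W : List L), (∀ j ∈ R, c j = some 1) →
    vis c (some 1) (R ++ W) = vis c (some 1) W := by
  intro R
  induction R with
  | nil => intro W _; rfl
  | cons x R ih =>
    intro W h
    rw [List.cons_append, vis_eq (h x List.mem_cons_self)]
    exact ih W (fun j hj => h j (List.mem_cons_of_mem _ hj))

omit ho in
lemma tk_run : ∀ (R W : List L) (r : Bool), (∀ j ∈ R, c j = some 1) →
    ∃ r', tk o c (some 1) r (R ++ W) = tk o c (some 1) r' W := by
  intro R
  induction R with
  | nil => intro W r _; exact ⟨r, rfl⟩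
  | cons x R ih =>
    intro W r h
    rw [List.cons_append, tk_eq o (h x List.mem_cons_self)]
    exact ih W _ (fun j hj => h j (List.mem_cons_of_mem _ hj))

omit ho in
lemma vis_one {W : List L} (h : ∀ x W', W = x :: W' → c x ≠ some 1) :
    vis c (some 1) W = vis c none W := by
  cases W with
  | nil => rfl
  | cons x W =>
    have hx := h x W rfl
    cases hb : c x with
    | none => rw [vis_none hb, vis_none hb]
    | some b =>
      have hb1 : (some 1 : Option (ZMod q)) ≠ some b := fun h1 => hx (by rw [hb, ← h1])
      rw [vis_ne hb hb1, vis_ne hb (by simp)]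

omit ho in
lemma tk_one {W : List L} (r : Bool) (h : ∀ x W', W = x :: W' → c x ≠ some 1) :
    tk o c (some 1) r W = tk o c none r W := by
  cases W with
  | nil => rfl
  | cons x W =>
    have hx := h x W rfl
    cases hb : c x with
    | none => rw [tk_none o hb, tk_none o hb]
    | some b =>
      have hb1 : (some 1 : Option (ZMod q)) ≠ some b := fun h1 => hx (by rw [hb, ← h1])
      rw [tk_ne o hb hb1, tk_ne o hb (by simp)]

omit ho in
/-- Splitting off the first run of the class `1`. -/
lemma first_run : ∀ P : List L, ∃ R W : List L, P = R ++ W ∧ (∀ j ∈ R, c j = some 1) ∧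
    ∀ x W', W = x :: W' → c x ≠ some 1 := by
  intro P
  induction P with
  | nil => exact ⟨[], [], rfl, by simp, by simp⟩
  | cons x P ih =>
    by_cases hx : c x = some 1
    · obtain ⟨R, W, h1, h2, h3⟩ := ih
      refine ⟨x :: R, W, by rw [h1]; rfl, ?_, h3⟩
      intro j hj
      rcases List.mem_cons.1 hj with rfl | hj
      · exact hx
      · exact h2 j hj
    · refine ⟨[], x :: P, rfl, by simp, ?_⟩
      intro y W' h
      rw [List.cons.injEq] at h
      rw [← h.1]; exact hx

/-- Every child of the word of the visits is, up to the first letter, a factor of the word of the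
visits of one parity. -/
theorem rel_kid {P : List L} (hP : Hodd o c P) (b : Bool) :
    ∃ (s : Bool) (l v : List (ZMod q)), l.length ≤ 1 ∧ kid b (vis c none P) = l ++ v ∧
      v <:+: (((tk o c none false P).filter fun z => z.2 == s).map fun z => z.1 - 1) := by
  obtain ⟨R, W, rfl, hR, hW⟩ := first_run c P
  have hok : okr o c none W := by
    cases W with
    | nil => trivial
    | cons x W =>
      have hx := hW x W rfl
      rw [okr, if_neg hx]
      exact (okr_of o c W).1 x hx (hP.fac o c (List.suffix_append _ _).isInfix)
  have hxx : ∀ r b' : Bool, (r == (r == b')) = b' := by decide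
  cases R with
  | nil =>
    refine ⟨false == b, [], kid b (vis c none W), by simp, by simp, ?_⟩
    have h1 := (tok_kid o c ho W (false == b)).1 none false (by simp) hok
    rw [hxx] at h1
    rw [List.nil_append, h1]
  | cons x R =>
    have hx := hR x List.mem_cons_self
    have hR' : ∀ j ∈ R, c j = some 1 := fun j hj => hR j (List.mem_cons_of_mem _ hj)
    obtain ⟨r', hr'⟩ := tk_run o c R W (xor false (decide (x = o))) hR'
    have e1 : vis c none (x :: R ++ W) = 1 :: vis c none W := by
      rw [List.cons_append, vis_ne hx (by simp), vis_run c R W hR', vis_one c hW]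
    have e2 : tk o c none false (x :: R ++ W) = (1, false) :: tk o c none r' W := by
      rw [List.cons_append, tk_ne o hx (by simp), hr', tk_one o c r' hW]
    have h1 := (tok_kid o c ho W (r' == !b)).1 none r' (by simp) hok
    rw [hxx] at h1
    have h2 : kid (!b) (vis c none W) <:+:
        (((tk o c none false (x :: R ++ W)).filter fun z => z.2 == (r' == !b)).map
          fun z => z.1 - 1) := by
      rw [e2, List.filter_cons]
      split_ifs with h3
      · rw [List.map_cons, h1]
        exact (List.suffix_cons _ _).isInfix
      · rw [h1]
    rw [e1]
    cases b with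
    | false =>
      refine ⟨r' == !false, [], kid true (vis c none W), by simp, ?_, h2⟩
      rw [kid_false_cons]; simp
    | true =>
      refine ⟨r' == !true, [0], kid false (vis c none W), by simp, ?_, h2⟩
      rw [kid_true_cons]; simp

end par

end PRa

end R4
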