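import Pool.Agent.Work.MP_e3f5d9_al.SOUND
import Pool.Agent.Work.MP_e3f5d9_al.PRa

/-!
# R4, block PRa: the rule alpha for every setup
-/

set_option autoImplicit false

open Finset

namespace R4

/-- PRa. -/
theorem ruleAlpha {L : Type} [Fintype L] [DecidableEq L] (S : Setup L) : RuleAlpha S :=
  pra S (pn1 S) (pn2 S (pn1 S)) (pv1 L) (pv3 S)

/-- Soundness of the pair calculus. -/
theorem soundness {L : Type} [Fintype L] [DecidableEq L] (S : Setup L) : Soundness S :=
  sound S (ruleAlpha S)

end R4
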