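import Pool.Agent.Work.MP_e3f5d9_al.P1
import Pool.Agent.Work.MP_e3f5d9_al.PN1
import Pool.Agent.Work.MP_e3f5d9_al.CY2

/-!
# R4, block PRc (rule cycle), part 1: words of visits and the owners of the blocks
-/

set_option autoImplicit false

open Finset

namespace R4

namespace PRcAux

section maps

variable {L β γ : Type} [DecidableEq β] [DecidableEq γ]

lemma vis_map (c : L → Option β) (h : β → γ)
    (hh : ∀ x y a b, c x = some a → c y = some b → h a = h b → a = b) (W : List L) :
    ∀ p : Option β, (∀ a, p = some a → ∃ x, c x = some a) →
    vis (fun x => (c x).map h) (p.map h) W = (vis c p W).map h := by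
  induction W with
  | nil => intro p _; rfl
  | cons x W ih =>
    intro p hp
    cases hx : c x with
    | none =>
      have := ih none (by simp)
      simp only [vis, hx, Option.map_none] at this ⊢
      exact this
    | some b =>
      have ih' := ih (some b) (fun a ha => ⟨x, by rw [hx, ha]⟩)
      simp only [vis, hx, Option.map_some] at ih' ⊢
      by_cases hpb : p = some b
      · subst hpb
        simpa using ih'
      · have h2 : p.map h ≠ some (h b) := by
          intro h0
          cases p with
          | none => simp at h0
          | some a =>
            simp only [Option.map_some, Option.some.injEq] at h0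
            obtain ⟨y, hy⟩ := hp a rfl
            exact hpb (congrArg some (hh y x a b hy hx h0))
        rw [if_neg h2, if_neg hpb, List.map_cons, ih']

lemma vis_mem (c : L → Option β) (W : List L) : ∀ (p : Option β), ∀ b ∈ vis c p W,
    ∃ x ∈ W, c x = some b := by
  induction W with
  | nil => intro p b hb; simp [vis] at hb
  | cons x W ih =>
    intro p b hb
    cases hx : c x with
    | none =>
      simp only [vis, hx] at hb
      obtain ⟨y, hy, h⟩ := ih _ b hb
      exact ⟨y, by simp [hy], h⟩
    | some b' =>
      simp only [vis, hx] at hb
      split_ifs at hb with hp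
      · obtain ⟨y, hy, h⟩ := ih _ b hb
        exact ⟨y, by simp [hy], h⟩
      · rcases List.mem_cons.1 hb with rfl | hb
        · exact ⟨x, by simp, hx⟩
        · obtain ⟨y, hy, h⟩ := ih _ b hb
          exact ⟨y, by simp [hy], h⟩

omit [DecidableEq β] [DecidableEq γ] in
lemma near_map {k : ℕ} {l l' : List β} (h : β → γ) (hn : Near k l l') :
    Near k (l.map h) (l'.map h) := by
  obtain ⟨a, b, a', b', m, rfl, rfl, h1, h2, h3, h4⟩ := hn
  exact ⟨a.map h, b.map h, a'.map h, b'.map h, m.map h, by simp, by simp, by simpa, by simpa,
    by simpa, by simpa⟩

omit [DecidableEq β] in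
/-- Changing at most one entry at the front. -/
lemma near_front {k : ℕ} {l e0 e1 R : List β} (h0 : e0.length ≤ 1) (h1 : e1.length ≤ 1)
    (hn : Near k l (e0 ++ R)) : Near (k + 1) l (e1 ++ R) := by
  obtain ⟨a, b, a', b', m, rfl, he, g1, g2, g3, g4⟩ := hn
  match e0, h0 with
  | [], _ =>
    refine ⟨a, b, e1 ++ a', b', m, rfl, ?_, by omega, by omega, ?_, by omega⟩
    · rw [List.nil_append] at he
      rw [he]; simp
    · simp; omega
  | [e], _ =>
    match a', g3, he with
    | e' :: a', g3, he =>
      simp only [List.cons_append, List.nil_append, List.cons.injEq] at he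
      obtain ⟨rfl, he⟩ := he
      refine ⟨a, b, e1 ++ a', b', m, rfl, ?_, by omega, by omega, ?_, by omega⟩
      · rw [he]; simp
      · simp at g3 ⊢; omega
    | [], g3, he =>
      match m, he with
      | e' :: m, he =>
        simp only [List.cons_append, List.nil_append, List.cons.injEq] at he
        obtain ⟨rfl, he⟩ := he
        refine ⟨a ++ [e], b, e1, b', m, by simp, ?_, ?_, by omega, by omega, by omega⟩
        · rw [he]; simp
        · simp; omega
      | [], he =>
        match b', g4, he with
        | e' :: b', g4, he =>
          simp only [List.cons_append, List.nil_append, List.cons.injEq] at he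
          obtain ⟨rfl, he⟩ := he
          refine ⟨a, b, e1, b', [], rfl, ?_, by omega, by omega, by omega, ?_⟩
          · rw [he]; simp
          · simp at g4; omega
        | [], g4, he => simp at he

lemma own_map (o : β) (h : β → γ) (s : Bool) : ∀ (W : List β) (B : List Bool),
    (∀ g ∈ W, h g = h o → g = o) →
    Cy.own (h o) (W.map h) B s = (Cy.own o W B s).map h := by
  intro W
  induction W with
  | nil => intro B _; rfl
  | cons g W ih =>
    intro B hW
    cases B with
    | nil => rfl
    | cons b B =>
      rw [List.map_cons, Cy.own_cons, Cy.own_cons, List.map_append]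
      have ih' := fun B => ih B (fun g' hg' => hW g' (by simp [hg']))
      have e1 : (if b = s then [h g] else []) = (if b = s then [g] else []).map h := by
        split_ifs <;> rfl
      rw [e1]
      by_cases hg : g = o
      · subst hg
        rw [if_pos rfl, if_pos rfl, ih']
      · rw [if_neg (fun e => hg (hW g (by simp) e)), if_neg hg, ih']

lemma own_xor (o : β) (t s : Bool) : ∀ (W : List β) (B : List Bool),
    Cy.own o W (B.map fun q => xor q t) s = Cy.own o W B (xor s t) := by
  intro W
  induction W with
  | nil => intro B; rfl
  | cons g W ih =>
    intro B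
    cases B with
    | nil => rfl
    | cons b B =>
      rw [List.map_cons, Cy.own_cons, Cy.own_cons, ih]
      have := ih (b :: B)
      rw [List.map_cons] at this
      rw [this]
      have e : (xor b t = s) ↔ (b = xor s t) := by cases b <;> cases t <;> cases s <;> simp
      simp only [e]

end maps

section blocks

variable {L : Type} [DecidableEq L]

/-- The parities of the blocks. `r` is the parity of the block, `q` the present parity, the flag
says whether we are outside of `A`. -/
def blA (o : L) (A : Finset L) : Bool → Bool → Bool → List L → List Bool
  | r, _, false, [] => [r]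
  | r, _, true, [] => [!r]
  | r, q, false, x :: w => if x ∈ A then blA o A r q false w
      else r :: blA o A r (xor q (decide (x = o))) true w
  | r, q, true, x :: w => if x ∈ A then blA o A q q false w
      else blA o A r (xor q (decide (x = o))) true w

lemma blA_false (o : L) (A : Finset L) (w : List L) : ∀ r q, ∃ B,
    blA o A r q false w = r :: B := by
  induction w with
  | nil => intro r q; exact ⟨[], rfl⟩
  | cons x w ih =>
    intro r q
    rw [blA]
    split_ifs
    · exact ih r q
    · exact ⟨_, rfl⟩

lemma blA_ne (o : L) (A : Finset L) (w : List L) : ∀ r q out, ∃ b B,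
    blA o A r q out w = b :: B := by
  induction w with
  | nil => intro r q out; cases out <;> exact ⟨_, [], rfl⟩
  | cons x w ih =>
    intro r q out
    cases out
    · obtain ⟨B, hB⟩ := blA_false o A (x :: w) r q
      exact ⟨r, B, hB⟩
    · rw [blA]
      split_ifs
      · exact ih _ _ _
      · exact ih _ _ _

lemma own_tk {β : Type} [DecidableEq β] (o : L) (A : Finset L) (ho : o ∉ A) (c : L → Option β)
    (s : Bool) (W : List L) : ∀ (r q out : Bool) (p : Option (Option β)),
    (out = false → r = q) → (out = true ↔ p = some none) →
    ((tk o (glR A c) p q W).filter fun z => z.2 == s).map Prod.fst =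
      Cy.own none (vis (glR A c) p W) (blA o A r q out W) s := by
  induction W with
  | nil =>
    intro r q out p h1 h2
    rfl
  | cons x W ih =>
    intro r q out p h1 h2
    by_cases hx : x ∈ A
    · have hxo : x ≠ o := fun e => ho (e ▸ hx)
      have hB : blA o A r q out (x :: W) = blA o A q q false W := by
        cases out
        · rw [blA, if_pos hx, h1 rfl]
        · rw [blA, if_pos hx]
      rw [hB]
      cases hc : c x with
      | none =>
        have hg : glR A c x = none := by simp [glR, hx, hc]
        rw [tk, vis]
        simp only [hg, hxo, decide_false, Bool.xor_false]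
        exact ih q q false none (fun _ => rfl) (by simp)
      | some b =>
        have hg : glR A c x = some (some b) := by simp [glR, hx, hc]
        rw [tk, vis]
        simp only [hg, hxo, decide_false, Bool.xor_false]
        have ih' := ih q q false (some (some b)) (fun _ => rfl) (by simp)
        by_cases hp : p = some (some b)
        · rw [if_pos hp, if_pos hp]
          exact ih'
        · rw [if_neg hp, if_neg hp]
          obtain ⟨B, hB'⟩ := blA_false o A W q q
          rw [hB', Cy.own_cons, ← hB']
          by_cases hq : q = s
          · subst hq
            simp [← ih']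
          · rw [List.filter_cons_of_neg (by simpa using hq), if_neg hq, ih']
            simp
    · have hg : glR A c x = some none := by simp [glR, hx]
      rw [tk, vis]
      simp only [hg]
      have ih' := ih r (xor q (decide (x = o))) true (some none) (by simp) (by simp)
      by_cases hp : p = some none
      · have hout := h2.2 hp
        subst hout
        rw [if_pos hp, if_pos hp, blA, if_neg hx]
        exact ih'
      · have hout : out = false := by
          cases out
          · rfl
          · exact absurd (h2.1 rfl) hp
        subst hout
        obtain rfl := h1 rfl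
        rw [if_neg hp, if_neg hp, blA, if_neg hx, Cy.own_cons]
        by_cases hq : r = s
        · subst hq
          simp [← ih']
        · rw [List.filter_cons_of_neg (by simpa using hq), if_neg hq, ih']
          simp

lemma blA_length {β : Type} [DecidableEq β] (o : L) (A : Finset L) (c : L → Option β)
    (W : List L) : ∀ (r q out : Bool) (p : Option (Option β)), (out = true ↔ p = some none) →
    (vis (glR A c) p W).count none + 1 = (blA o A r q out W).length := by
  induction W with
  | nil =>
    intro r q out p _
    cases out <;> simp [vis, blA]
  | cons x W ih =>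
    intro r q out p h2
    by_cases hx : x ∈ A
    · have hB : ∃ r', blA o A r q out (x :: W) = blA o A r' q false W := by
        cases out
        · exact ⟨r, by rw [blA, if_pos hx]⟩
        · exact ⟨q, by rw [blA, if_pos hx]⟩
      obtain ⟨r', hB⟩ := hB
      rw [hB]
      cases hc : c x with
      | none =>
        have hg : glR A c x = none := by simp [glR, hx, hc]
        rw [vis]
        simp only [hg]
        exact ih r' q false none (by simp)
      | some b =>
        have hg : glR A c x = some (some b) := by simp [glR, hx, hc]
        rw [vis]
        simp only [hg]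
        have ih' := ih r' q false (some (some b)) (by simp)
        by_cases hp : p = some (some b)
        · rw [if_pos hp]
          exact ih'
        · rw [if_neg hp, List.count_cons_of_ne (by simp)]
          exact ih'
    · have hg : glR A c x = some none := by simp [glR, hx]
      rw [vis]
      simp only [hg]
      have ih' := ih r (xor q (decide (x = o))) true (some none) (by simp)
      by_cases hp : p = some none
      · have hout := h2.2 hp
        subst hout
        rw [if_pos hp, blA, if_neg hx]
        exact ih'
      · have hout : out = false := by
          cases out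
          · rfl
          · exact absurd (h2.1 rfl) hp
        subst hout
        rw [if_neg hp, blA, if_neg hx, List.count_cons_self, List.length_cons, ih']

/-- The indicator of a cut. -/
def ind (A : Finset L) (x : L) : Option Unit := if x ∈ A then some () else none

/-- The parities of the blocks from the tokens. -/
def bT : Bool → Bool → List (Option Unit × Bool) → List Bool
  | r, false, [] => [r]
  | r, true, [] => [!r]
  | r, false, (none, _) :: T => r :: bT r true T
  | r, true, (none, _) :: T => bT r true T
  | _, _, (some _, q) :: T => bT q false T

lemma bT_some (r out : Bool) (u : Unit) (q : Bool) (T : List (Option Unit × Bool)) :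
    bT r out ((some u, q) :: T) = bT q false T := by
  cases out <;> rfl

lemma blA_bT (o : L) (A : Finset L) (ho : o ∉ A) (W : List L) :
    ∀ (r q out : Bool) (p : Option (Option Unit)),
    (out = false → r = q) → (out = true ↔ p = some none) →
    blA o A r q out W = bT r out (tk o (glR A (ind A)) p q W) := by
  induction W with
  | nil =>
    intro r q out p _ _
    cases out <;> rfl
  | cons x W ih =>
    intro r q out p h1 h2
    by_cases hx : x ∈ A
    · have hxo : x ≠ o := fun e => ho (e ▸ hx)
      have hB : blA o A r q out (x :: W) = blA o A q q false W := by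
        cases out
        · rw [blA, if_pos hx, h1 rfl]
        · rw [blA, if_pos hx]
      rw [hB]
      have hg : glR A (ind A) x = some (some ()) := by simp [glR, ind, hx]
      rw [tk]
      simp only [hg, hxo, decide_false, Bool.xor_false]
      have ih' := ih q q false (some (some ())) (fun _ => rfl) (by simp)
      by_cases hp : p = some (some ())
      · rw [if_pos hp]
        have hout : out = false := by
          cases out
          · rfl
          · rw [hp] at h2
            simp at h2
        subst hout
        rw [h1 rfl]
        exact ih'
      · rw [if_neg hp, bT_some]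
        exact ih'
    · have hg : glR A (ind A) x = some none := by simp [glR, hx]
      rw [tk]
      simp only [hg]
      have ih' := ih r (xor q (decide (x = o))) true (some none) (by simp) (by simp)
      by_cases hp : p = some none
      · have hout := h2.2 hp
        subst hout
        rw [if_pos hp, blA, if_neg hx]
        exact ih'
      · have hout : out = false := by
          cases out
          · rfl
          · exact absurd (h2.1 rfl) hp
        subst hout
        rw [if_neg hp, blA, if_neg hx, bT, ih']

/-- Change the first entry. -/
def fixB : List Bool → List Bool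
  | _ :: b :: l => (!b) :: b :: l
  | l => l

/-- The owners of the blocks. -/
def FB : List (Option Unit × Bool) → List Bool
  | (none, q) :: T => fixB (bT false false ((none, q) :: T))
  | T => bT false false T

/-- The tokens of the cut `A`. -/
def TA (o : L) (A : Finset L) (W : List L) : List (Option Unit × Bool) :=
  tk o (glR A (ind A)) none false W

/-- The first entry. -/
lemma FB_cases (o : L) (A : Finset L) (ho : o ∉ A) (W : List L) :
    (FB (TA o A W) = blA o A false false false W ∧ (∀ x w, W = x :: w → x ∈ A)) ∨
    (∃ x w, W = x :: w ∧ x ∉ A ∧ ∃ b l, blA o A false (decide (x = o)) true w = b :: l ∧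
      blA o A false false false W = false :: b :: l ∧ FB (TA o A W) = (!b) :: b :: l) := by
  cases W with
  | nil => left; exact ⟨rfl, by simp⟩
  | cons x w =>
    have hbl := blA_bT o A ho (x :: w) false false false none (fun _ => rfl) (by simp)
    by_cases hx : x ∈ A
    · left
      refine ⟨?_, by rintro y v h; cases h; exact hx⟩
      rw [hbl]
      have hg : glR A (ind A) x = some (some ()) := by simp [glR, ind, hx]
      have : TA o A (x :: w) = (some (), false) ::
          tk o (glR A (ind A)) (some (some ())) (xor false (decide (x = o))) w := by
        rw [TA, tk]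
        simp only [hg]
        rw [if_neg (by simp)]
      rw [this, FB, ← this]
      · rfl
      · simp
    · right
      refine ⟨x, w, rfl, hx, ?_⟩
      obtain ⟨b, l, hb⟩ := blA_ne o A w false (decide (x = o)) true
      refine ⟨b, l, hb, ?_, ?_⟩
      · rw [blA, if_neg hx, Bool.false_xor, hb]
      · have hg : glR A (ind A) x = some none := by simp [glR, hx]
        have h1 : TA o A (x :: w) = (none, false) ::
            tk o (glR A (ind A)) (some none) (xor false (decide (x = o))) w := by
          rw [TA, tk]
          simp only [hg]
          rw [if_neg (by simp)]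
        rw [h1, FB, ← h1]
        have : bT false false (TA o A (x :: w)) = false :: b :: l := by
          have : TA o A (x :: w) = tk o (glR A (ind A)) none false (x :: w) := rfl
          rw [this, ← hbl, blA, if_neg hx, Bool.false_xor, hb]
        rw [this]
        rfl

lemma FB_len {β : Type} [DecidableEq β] (o : L) (A : Finset L) (ho : o ∉ A) (c : L → Option β)
    (W : List L) : (vis (glR A c) none W).count none < (FB (TA o A W)).length := by
  have h := blA_length o A c W false false false none (by simp)
  rcases FB_cases o A ho W with ⟨h1, -⟩ | ⟨x, w, -, -, b, l, -, h2, h3⟩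
  · rw [h1]; omega
  · rw [h2] at h
    rw [h3]
    simp only [List.length_cons] at h ⊢
    omega

lemma FB_own {β : Type} [DecidableEq β] (o : L) (A : Finset L) (ho : o ∉ A) (c : L → Option β)
    (s : Bool) (W : List L) : ∃ e0 e1 R : List (Option β), e0.length ≤ 1 ∧ e1.length ≤ 1 ∧
    ((tk o (glR A c) none false W).filter fun z => z.2 == s).map Prod.fst = e0 ++ R ∧
    Cy.own none (vis (glR A c) none W) (FB (TA o A W)) s = e1 ++ R := by
  have h := own_tk o A ho c s W false false false none (fun _ => rfl) (by simp)
  rw [h]
  rcases FB_cases o A ho W with ⟨h1, -⟩ | ⟨x, w, rfl, hx, b, l, -, h2, h3⟩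
  · rw [h1]
    exact ⟨[], [], _, by simp, by simp, rfl, rfl⟩
  · have hg : glR A c x = some none := by simp [glR, hx]
    have hv : vis (glR A c) none (x :: w) = none :: vis (glR A c) (some none) w := by
      rw [vis]
      simp only [hg]
      rw [if_neg (by simp)]
    rw [h2, h3, hv, Cy.own_cons, Cy.own_cons, if_pos rfl]
    refine ⟨_, _, _, ?_, ?_, rfl, rfl⟩
    · split_ifs <;> simp
    · split_ifs <;> simp

end blocks

section chain

variable {L : Type} [DecidableEq L]

lemma lead' (o : L) (w : List L) : ∃ k w', w = List.replicate k o ++ w' ∧
    (w' = [] ∨ ∃ y w'', w' = y :: w'' ∧ y ≠ o) := by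
  induction w with
  | nil => exact ⟨0, [], rfl, Or.inl rfl⟩
  | cons x w ih =>
    by_cases hx : x = o
    · obtain ⟨k, w', hw, h⟩ := ih
      exact ⟨k + 1, w', by rw [hx, hw]; rfl, h⟩
    · exact ⟨0, x :: w, rfl, Or.inr ⟨x, w, rfl, hx⟩⟩

variable [Fintype L]

/-- Between two visits to `A` there is an odd number of letters `o`. -/
lemma count_odd (o : L) (A : Finset L) (ho : o ∉ A) (W : List L)
    (hR : RClean ({o}ᶜ : Finset L) W) (h1 : Alt {o} A W) (h2 : Alt A {o} W)
    (a x : L) (u : List L) (ha : a ∈ A) (hx : x ∈ A) (hu : ∀ j ∈ u, j ∉ A) (hne : u ≠ [])
    (hf : (a :: (u ++ [x])) <:+: W) : Odd (u.count o) := by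
  obtain ⟨j, hj, hjo⟩ := h2 a u x hf ha hx hne hu
  obtain rfl : j = o := by simpa using hjo
  obtain ⟨u1, t, hut, hu1⟩ := List.eq_append_cons_of_mem hj
  obtain ⟨k, t', rfl, ht'⟩ := lead' j t
  have hao : a ≠ j := fun e => ho (e ▸ ha)
  have hxo : x ≠ j := fun e => ho (e ▸ hx)
  have hjt' : j ∉ t' := by
    intro hjt
    rcases ht' with rfl | ⟨y, t'', rfl, hy⟩
    · simp at hjt
    · obtain ⟨as, bs, has, hjas⟩ := List.eq_append_cons_of_mem hjt
      have hasne : as ≠ [] := by
        rintro rfl
        simp only [List.nil_append, List.cons.injEq] at has
        exact hy has.1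
      have hfac : (j :: (as ++ [j])) <:+: W := by
        refine List.IsInfix.trans ?_ hf
        rw [hut, has]
        refine ⟨a :: u1 ++ List.replicate k j, bs ++ [x], ?_⟩
        have e : j :: (List.replicate k j ++ (as ++ j :: bs)) =
            List.replicate k j ++ (j :: (as ++ j :: bs)) := by
          have := List.replicate_succ' (n := k) (a := j)
          rw [← List.singleton_append, ← List.append_assoc, List.singleton_append,
            ← List.replicate_succ, this, List.append_assoc]
          rfl
        rw [e]
        simp
      obtain ⟨i, hi, hiA⟩ := h1 j as j hfac (by simp) (by simp) hasne (by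
        intro i hi hij
        obtain rfl : i = j := by simpa using hij
        exact hjas hi)
      refine hu i ?_ hiA
      rw [hut, has]
      simp [hi]
  have hcount : u.count j = k + 1 := by
    rw [hut, List.count_append, List.count_eq_zero.2 hu1, List.count_cons_self,
      List.count_append, List.count_replicate_self, List.count_eq_zero.2 hjt']
    omega
  rw [hcount]
  obtain ⟨init, prev, hprev⟩ : ∃ init prev, a :: u1 = init ++ [prev] :=
    ⟨(a :: u1).dropLast, (a :: u1).getLast (by simp),
      (List.dropLast_append_getLast (by simp)).symm⟩
  have hprevo : prev ≠ j := by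
    intro e
    have : prev ∈ a :: u1 := by rw [hprev]; simp
    rw [e] at this
    rcases List.mem_cons.1 this with h | h
    · exact hao h.symm
    · exact hu1 h
  obtain ⟨nx, rest, hnx⟩ : ∃ nx rest, t' ++ [x] = nx :: rest := by
    cases h : t' ++ [x] with
    | nil => simp at h
    | cons y l => exact ⟨y, l, rfl⟩
  have hnxo : nx ≠ j := by
    intro e
    have : nx ∈ t' ++ [x] := by rw [hnx]; simp
    rw [e] at this
    rcases List.mem_append.1 this with h | h
    · exact hjt' h
    · exact hxo (List.mem_singleton.1 h).symm
  have hfac : (prev :: (List.replicate (k + 1) j ++ [nx])) <:+: W := by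
    refine List.IsInfix.trans ?_ hf
    refine ⟨init, rest, ?_⟩
    rw [hut]
    have e1 : a :: (u1 ++ j :: (List.replicate k j ++ t') ++ [x]) =
        (a :: u1) ++ (List.replicate (k + 1) j ++ (t' ++ [x])) := by
      rw [List.replicate_succ]; simp
    rw [e1, hprev, hnx]
    simp
  have hred := hR prev (List.replicate (k + 1) j) nx hfac (by simp) (Or.inr ⟨by simpa using hprevo,
    by simpa using hnxo, fun i hi => by
      rw [List.eq_of_mem_replicate hi]; simp⟩)
  exact PN1Aux.red_rep j (k + 1) hred

omit [Fintype L] in
lemma xor_count (o x : L) (u : List L) (r : Bool) :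
    xor (xor r (decide (Odd (u.count o)))) (decide (x = o)) =
      xor r (decide (Odd ((u ++ [x]).count o))) := by
  rw [List.count_append]
  by_cases hx : x = o
  · subst hx
    rw [List.count_singleton_self]
    by_cases h : Odd (u.count x)
    · have h' : ¬ Odd (u.count x + 1) := by
        rw [Nat.odd_add_one]; exact fun g => g h
      simp only [h, h']
      cases r <;> simp
    · have h' : Odd (u.count x + 1) := by
        rw [Nat.odd_add_one]; exact h
      simp only [h, h']
      cases r <;> simp
  · have : List.count o [x] = 0 := by
      rw [List.count_eq_zero]; simpa using fun e => hx e.symm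
    rw [this, Nat.add_zero]
    simp [hx]

lemma chainA (o : L) (A : Finset L) (ho : o ∉ A) (W : List L)
    (hR : RClean ({o}ᶜ : Finset L) W) (h1 : Alt {o} A W) (h2 : Alt A {o} W) (w : List L) :
    (∀ a ∈ A, ∀ q, (a :: w) <:+: W → (blA o A q q false w).IsChain (· ≠ ·)) ∧
    (∀ a ∈ A, ∀ u : List L, (∀ j ∈ u, j ∉ A) → u ≠ [] → ∀ r, (a :: (u ++ w)) <:+: W →
      (r :: blA o A r (xor r (decide (Odd (u.count o)))) true w).IsChain (· ≠ ·)) := by
  induction w with
  | nil =>
    refine ⟨fun a _ q _ => List.isChain_singleton _, fun a _ u _ _ r _ => ?_⟩
    rw [blA]
    simp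
  | cons x w ih =>
    constructor
    · intro a ha q hf
      have hsub : (x :: w) <:+: W := (List.suffix_cons a (x :: w)).isInfix.trans hf
      by_cases hx : x ∈ A
      · rw [blA, if_pos hx]
        exact ih.1 x hx q hsub
      · rw [blA, if_neg hx]
        have := ih.2 a ha [x] (by simpa using hx) (by simp) q (by simpa using hf)
        have e : xor q (decide (x = o)) = xor q (decide (Odd ([x].count o))) := by
          by_cases h : x = o
          · subst h; simp
          · have : List.count o [x] = 0 := by
              rw [List.count_eq_zero]; simpa using fun e => h e.symm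
            simp [h, this]
        rw [e]
        exact this
    · intro a ha u hu hne r hf
      by_cases hx : x ∈ A
      · rw [blA, if_pos hx]
        have hodd : Odd (u.count o) := by
          apply count_odd o A ho W hR h1 h2 a x u ha hx hu hne
          refine List.IsInfix.trans ?_ hf
          exact ⟨[], w, by simp⟩
        have hq : xor r (decide (Odd (u.count o))) = !r := by simp [hodd]
        rw [hq]
        obtain ⟨B, hB⟩ := blA_false o A w (!r) (!r)
        have hch := ih.1 x hx (!r) (by
          refine List.IsInfix.trans ?_ hf
          exact ⟨a :: u, [], by simp⟩)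
        rw [hB] at hch ⊢
        refine List.isChain_cons_cons.2 ⟨by simp, hch⟩
      · rw [blA, if_neg hx, xor_count]
        refine ih.2 a ha (u ++ [x]) ?_ (by simp) r (by simpa using hf)
        intro j hj
        rcases List.mem_append.1 hj with h | h
        · exact hu j h
        · rw [List.mem_singleton.1 h]; exact hx

lemma chainB (o : L) (A : Finset L) (ho : o ∉ A) (W : List L)
    (hR : RClean ({o}ᶜ : Finset L) W) (h1 : Alt {o} A W) (h2 : Alt A {o} W) (w : List L) :
    ∀ u : List L, u ++ w = W → ∀ r q, (blA o A r q true w).IsChain (· ≠ ·) := by
  induction w with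
  | nil => intro u _ r q; exact List.isChain_singleton _
  | cons x w ih =>
    intro u hu r q
    rw [blA]
    split_ifs with hx
    · exact (chainA o A ho W hR h1 h2 w).1 x hx q ⟨u, [], by simpa using hu⟩
    · exact ih (u ++ [x]) (by simpa using hu) r _

lemma FB_chain (o : L) (A : Finset L) (ho : o ∉ A) (W : List L)
    (hR : RClean ({o}ᶜ : Finset L) W) (h1 : Alt {o} A W) (h2 : Alt A {o} W) :
    (FB (TA o A W)).IsChain (· ≠ ·) := by
  rcases FB_cases o A ho W with ⟨h3, h4⟩ | ⟨x, w, rfl, hx, b, l, hb, -, h3⟩
  · rw [h3]
    cases W with
    | nil => exact List.isChain_singleton _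
    | cons x w =>
      have hx := h4 x w rfl
      rw [blA, if_pos hx]
      exact (chainA o A ho _ hR h1 h2 w).1 x hx false (List.infix_refl _)
  · rw [h3]
    refine List.isChain_cons_cons.2 ⟨by simp, ?_⟩
    rw [← hb]
    exact chainB o A ho _ hR h1 h2 w [x] rfl _ _

end chain

end PRcAux

end R4
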