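import Pool.Agent.Work.MP_e3f5d9_al.P1

/-!
# PRg: the rule `glue` of the pair calculus
-/

set_option autoImplicit false

open Finset

namespace R4

section basics

variable {L : Type} [Fintype L] [DecidableEq L] {S : Setup L}

/-- A function of a known feature is known. -/
theorem KnownCalc.map (hN : KnownCalc S) {α β : Type} {Ψ : List L → α} (f : α → β)
    (h : S.Known Ψ) : S.Known fun W => f (Ψ W) :=
  hN.det Ψ _ h ⟨0, 1, fun _ => 0, fun W _ W' _ h1 _ => congrArg f h1⟩

/-- A feature which is, on the perfect nodes, a function of a known feature and of a bit is known. -/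
theorem KnownCalc.bit (hN : KnownCalc S) {α β : Type} {Ψ : List L → α} (f : Bool → α → β)
    (h : S.Known Ψ) (b : List L → Bool) : S.Known fun W => f (b W) (Ψ W) := by
  refine hN.det Ψ _ h ⟨0, 2, fun W => if b W then 1 else 0, fun W _ W' _ h1 h2 => ?_⟩
  have : b W = b W' := by
    cases hb : b W <;> cases hb' : b W' <;> simp_all
  beta_reduce
  rw [h1, this]

/-- Class functions with the same classes. -/
theorem KnownCalc.same (hN : KnownCalc S) (hV : VisBasics L) {β γ : Type} [DecidableEq β]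
    [DecidableEq γ] (c : L → Option β) (c' : L → Option γ) (h : SameCls c c')
    (hc : S.Known fun W => vis c none W) : S.Known fun W => vis c' none W := by
  obtain ⟨e, he⟩ := hV.same c c' h
  have := hN.map e hc
  refine hN.det _ _ this ⟨0, 1, fun _ => 0, fun W _ W' _ h1 _ => ?_⟩
  beta_reduce
  rw [he, he]
  exact h1

end basics

/-- The rule `symm`. -/
theorem prg_symm {L : Type} [Fintype L] [DecidableEq L] (S : Setup L) (hN : KnownCalc S)
    (hV : VisBasics L) : ∀ X Y, Disjoint X Y → S.K X Y → S.K Y X := by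
  intro X Y hXY h
  refine hN.same hV _ _ ⟨?_, ?_⟩ h
  · intro i
    unfold pc
    by_cases h1 : i ∈ X <;> by_cases h2 : i ∈ Y <;> simp [h1, h2]
  · intro i j
    unfold pc
    rw [Finset.disjoint_left] at hXY
    have hi := @hXY i
    have hj := @hXY j
    by_cases h1 : i ∈ X <;> by_cases h2 : i ∈ Y <;> by_cases h3 : j ∈ X <;> by_cases h4 : j ∈ Y <;>
      simp_all

/-- PRg: the rule `glue`. -/
theorem prg {L : Type} [Fintype L] [DecidableEq L] (S : Setup L) (hN : KnownCalc S)
    (hV : VisBasics L) (hG : VisGlue L) :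
    ∀ X Y A, X ⊆ Aᶜ → Y ⊆ A → S.K X A → S.K Aᶜ Y → S.K X Y := by
  intro X Y A hX hY h1 h2
  have hXA : ∀ x ∈ X, x ∉ A := fun x hx => Finset.mem_compl.1 (hX hx)
  obtain ⟨G, hG⟩ := hG A (pc X Y) (by
    intro x hx y hy hc
    unfold pc at hc ⊢
    have h3 : x ∉ X := fun h => hXA x h hx
    have h4 : y ∉ Y := fun h => hy (hY h)
    by_cases h5 : y ∈ X <;> by_cases h6 : x ∈ Y <;> simp_all)
  have k1 : S.Known fun W => vis (glL A (pc X Y)) none W := by
    refine hN.same hV _ _ ⟨?_, ?_⟩ h1
    · intro i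
      unfold glL pc
      have h3 : i ∈ X → i ∉ A := hXA i
      have h4 : i ∈ Y → i ∈ A := fun h => hY h
      by_cases h5 : i ∈ A <;> by_cases h6 : i ∈ X <;> by_cases h7 : i ∈ Y <;> simp_all
    · intro i j
      unfold glL pc
      have h3 : i ∈ X → i ∉ A := hXA i
      have h4 : i ∈ Y → i ∈ A := fun h => hY h
      have h3' : j ∈ X → j ∉ A := hXA j
      have h4' : j ∈ Y → j ∈ A := fun h => hY h
      by_cases h5 : i ∈ A <;> by_cases h6 : i ∈ X <;> by_cases h7 : i ∈ Y <;>
      by_cases h5' : j ∈ A <;> by_cases h6' : j ∈ X <;> by_cases h7' : j ∈ Y <;> simp_all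
  have k2 : S.Known fun W => vis (glR A (pc X Y)) none W := by
    refine hN.same hV _ _ ⟨?_, ?_⟩ h2
    · intro i
      unfold glR pc
      have h3 : i ∈ X → i ∉ A := hXA i
      have h4 : i ∈ Y → i ∈ A := fun h => hY h
      by_cases h5 : i ∈ A <;> by_cases h6 : i ∈ X <;> by_cases h7 : i ∈ Y <;> simp_all
    · intro i j
      unfold glR pc
      have h3 : i ∈ X → i ∉ A := hXA i
      have h4 : i ∈ Y → i ∈ A := fun h => hY h
      have h3' : j ∈ X → j ∉ A := hXA j
      have h4' : j ∈ Y → j ∈ A := fun h => hY h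
      by_cases h5 : i ∈ A <;> by_cases h6 : i ∈ X <;> by_cases h7 : i ∈ Y <;>
      by_cases h5' : j ∈ A <;> by_cases h6' : j ∈ X <;> by_cases h7' : j ∈ Y <;> simp_all
  have k3 := hN.bit (fun b z => G b z.1 z.2) (hN.prod _ _ k1 k2)
    (fun W => W.head?.elim false fun x => decide (x ∈ A))
  refine hN.det _ _ k3 ⟨0, 1, fun _ => 0, fun W _ W' _ h3 _ => ?_⟩
  beta_reduce
  rw [hG, hG]
  exact h3

end R4
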