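import Pool.Agent.Work.MP_e3f5d9_al.P1
import Pool.Agent.Work.MP_e3f5d9_al.B1p

/-!
# PRm: the rule `mono` of the pair calculus
-/

set_option autoImplicit false

open Finset

namespace R4

namespace PRmB

lemma mono_disj {L : Type} [Fintype L] [DecidableEq L] {D : KS L} {E : Finset (Finset L)}
    {X Y : Finset L} (h : D.Mono E X Y) : Disjoint X Y := by
  induction h with
  | triv X h => exact disjoint_compl_right
  | symm X Y h ih => exact ih.symm
  | image s Y Y' ho hd h ih => exact hd
  | lift s Y Y' ho hd h1 h2 h3 h4 h ih =>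
    rw [Finset.disjoint_left]
    intro x hx hx'
    rw [Finset.mem_compl] at hx
    apply hx
    simp only [KS.lp, Finset.mem_filter, Finset.mem_univ, true_and, Finset.mem_compl] at hx' ⊢
    exact ⟨hx'.1, Finset.disjoint_right.1 ih hx'.2⟩
  | glue X Y Z h1 h2 h3 h4 h5 ih1 ih2 =>
    rw [Finset.disjoint_left]
    intro x hx hx'
    have := h2 hx
    rw [Finset.mem_compl] at this
    exact this (h3 hx')
  | typeB s Y Y' h1 h2 hd h3 h4 h5 h6 h7 h8 h9 ih1 ih2 ih3 =>
    rw [Finset.disjoint_left]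
    intro x hx hx'
    simp only [KS.lp, Finset.mem_filter, Finset.mem_univ, true_and] at hx hx'
    exact Finset.disjoint_left.1 hd hx.2 hx'.2

/-- The alternating words. -/
def altw : Bool → ℕ → List Bool
  | _, 0 => []
  | b, n + 1 => b :: altw (!b) n

lemma chain_altw : ∀ (v : List Bool), v.IsChain (· ≠ ·) → ∃ b, v = altw b v.length
  | [], _ => ⟨true, rfl⟩
  | [x], _ => ⟨x, rfl⟩
  | x :: y :: t, h => by
    rw [List.isChain_cons_cons] at h
    obtain ⟨b, hb⟩ := chain_altw (y :: t) h.2
    have hy : y = b := by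
      simp only [List.length_cons, altw, List.cons.injEq] at hb
      exact hb.1
    refine ⟨x, ?_⟩
    have hx : (!x) = y := by
      have := h.1
      revert this
      cases x <;> cases y <;> decide
    rw [List.length_cons]
    show x :: y :: t = x :: altw (!x) (y :: t).length
    rw [hx, hy]
    rw [← hy]
    rw [hy] at hb ⊢
    rw [← hb]

lemma growth_lin (c : ℕ) (ε : ℝ) (hε : 0 < ε) (n : ℕ) :
    ((2 * (2 * (n + c) + 1) : ℕ) : ℝ) ≤ (4 / ε + 4 * c + 2) * Real.exp (ε * n) := by
  have h1 : (1 : ℝ) ≤ Real.exp (ε * n) := Real.one_le_exp (by positivity)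
  have h2 : ε * n ≤ Real.exp (ε * n) := by
    have := Real.add_one_le_exp (ε * (n : ℝ))
    linarith
  have h3 : (4 : ℝ) * n ≤ 4 / ε * Real.exp (ε * n) := by
    have : (4 : ℝ) * n = 4 / ε * (ε * n) := by field_simp
    rw [this]
    exact mul_le_mul_of_nonneg_left h2 (by positivity)
  have h4 : (4 * (c : ℝ) + 2) ≤ (4 * c + 2) * Real.exp (ε * n) :=
    le_mul_of_one_le_right (by positivity) h1
  push_cast
  nlinarith

end PRmB

open PRmB in
/-- PRm. -/
theorem prm {L : Type} [Fintype L] [DecidableEq L] (S : Setup L) (hN : NodeBasics S)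
    (hV : VisBasics L) :
    ∀ X Y, S.D.Mono S.E X Y → S.D.Side S.E X → S.D.Side S.E Y → S.K X Y := by
  intro X Y hm hX hY
  have hd := mono_disj hm
  obtain ⟨c, hc⟩ := hN.tight
  have hW := b1p L
  -- runs of a side
  have hside : ∀ Z, S.D.Side S.E Z → ∀ W ∈ S.N 0, runs Z W ≤ S.D.size W + (c + 1) := by
    intro Z hZ W hWN
    have hbase := S.full.base
    unfold KS.Side KS.nm at hZ
    split_ifs at hZ with ho
    · have h1 := hc W hWN W (List.infix_refl W) Zᶜ hZ _ hbase
      have h2 := hW.runs_compl Zᶜ W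
      rw [compl_compl] at h2
      unfold KS.size
      omega
    · have h1 := hc W hWN W (List.infix_refl W) Z hZ _ hbase
      unfold KS.size
      omega
  have ht : cset (pc X Y) true = X := by
    ext x
    simp only [cset, pc, Finset.mem_filter, Finset.mem_univ, true_and]
    by_cases h1 : x ∈ X
    · simp [h1]
    · by_cases h2 : x ∈ Y <;> simp [h1, h2]
  have hf : cset (pc X Y) false = Y := by
    ext x
    simp only [cset, pc, Finset.mem_filter, Finset.mem_univ, true_and]
    by_cases h1 : x ∈ X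
    · simp [h1, Finset.disjoint_left.1 hd h1]
    · by_cases h2 : x ∈ Y <;> simp [h1, h2]
  have hlen : ∀ W ∈ S.N 0, (vis (pc X Y) none W).length ≤ 2 * (S.D.size W + (c + 1)) := by
    intro W hWN
    rw [hV.length, Fintype.sum_bool, ht, hf]
    have h1 := hside X hX W hWN
    have h2 := hside Y hY W hWN
    omega
  have hchain : ∀ W ∈ S.N 0, (vis (pc X Y) none W).IsChain (· ≠ ·) := by
    intro W hWN
    exact hV.alt X Y W hd (hN.alt 0 W hWN X Y hm hX)
      (hN.alt 0 W hWN Y X (KS.Mono.symm _ _ hm) hY)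
  intro ε hε
  refine ⟨0, 4 / ε + 4 * ((c + 1 : ℕ) : ℝ) + 2, fun n => ?_⟩
  set M := 2 * (n + (c + 1)) with hM
  set f : Bool × Fin (M + 1) → List Bool := fun p => altw p.1 p.2 with hfdef
  have hsub : ((fun W => vis (pc X Y) none W) '' {W | S.D.PNode S.E S.n0 S.θ S.d 0 W ∧
      S.D.size W ≤ n}) ⊆ Set.range f := by
    rintro _ ⟨W, ⟨hW1, hW2⟩, rfl⟩
    obtain ⟨b, hb⟩ := chain_altw _ (hchain W hW1)
    have hl := hlen W hW1
    refine ⟨(b, ⟨(vis (pc X Y) none W).length, ?_⟩), ?_⟩
    · have : 2 * (S.D.size W + (c + 1)) ≤ M := by rw [hM]; omega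
      omega
    · show altw b _ = _
      exact hb.symm
  have hfin : (Set.range f).Finite := Set.finite_range f
  refine ⟨hfin.subset hsub, ?_⟩
  have h1 := Set.ncard_le_ncard hsub hfin
  have h2 : (Set.range f).ncard ≤ 2 * (2 * (n + (c + 1)) + 1) := by
    rw [← Set.image_univ]
    refine (Set.ncard_image_le (Set.finite_univ)).trans ?_
    rw [Set.ncard_univ, Nat.card_eq_fintype_card]
    simp [hM]
  calc _ ≤ ((2 * (2 * (n + (c + 1)) + 1) : ℕ) : ℝ) := by exact_mod_cast h1.trans h2
    _ ≤ _ := growth_lin (c + 1) ε hε n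

end R4
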