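import Pool.Agent.Work.MP_e3f5d9_al.P1

/-!
# Block PV1: basic facts on the words of visits
-/

set_option autoImplicit false

open Finset

namespace R4

namespace PV1

variable {L β : Type} [DecidableEq β]

lemma vis_filter (c : L → Option β) (p : β → Bool) (W : List L) : ∀ q : Option β,
    vis (fun x => (c x).filter p) (q.filter p) W = (vis c q W).filter p := by
  induction W with
  | nil => intro q; simp [vis]
  | cons x W ih =>
    intro q
    cases hcx : c x with
    | none =>
      have := ih none
      simp only [Option.filter_none] at this
      simp [vis, hcx, this]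
    | some b =>
      have ihb := ih (some b)
      cases hpb : p b with
      | true =>
        have e1 : Option.filter p (some b) = some b := by simp [hpb]
        rw [e1] at ihb
        by_cases hq : q = some b
        · subst hq
          simp [vis, hcx, e1, ihb]
        · have hq' : q.filter p ≠ some b := by
            intro h
            rw [Option.filter_eq_some_iff] at h
            exact hq h.1
          simp [vis, hcx, e1, hq, hq', ihb, hpb]
      | false =>
        have e1 : Option.filter p (some b) = none := by simp [hpb]
        rw [e1] at ihb
        by_cases hq : q = some b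
        · subst hq
          simp [vis, hcx, e1, ihb]
        · simp [vis, hcx, e1, hq, ihb, hpb]

lemma vis_same {γ : Type} [DecidableEq γ] (c : L → Option β) (c' : L → Option γ)
    (h : SameCls c c') (e : β → γ) (he : ∀ x b, c x = some b → c' x = some (e b)) (W : List L) :
    ∀ (p : Option β) (p' : Option γ),
      (∀ x, c x ≠ none → (p = c x ↔ p' = c' x)) → vis c' p' W = (vis c p W).map e := by
  induction W with
  | nil => intro p p' _; simp [vis]
  | cons x W ih =>
    intro p p' hp
    cases hcx : c x with
    | none =>
      have hc' : c' x = none := (h.1 x).1 hcx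
      have := ih none none (by
        intro y hy
        constructor
        · intro h1; exact absurd h1.symm hy
        · intro h1; exact absurd ((h.1 y).2 h1.symm) hy)
      simp [vis, hcx, hc', this]
    | some b =>
      have hc' : c' x = some (e b) := he x b hcx
      have h1 : p = some b ↔ p' = some (e b) := by
        have := hp x (by simp [hcx])
        rwa [hcx, hc'] at this
      have := ih (some b) (some (e b)) (by
        intro y hy
        rw [← hcx, ← hc']
        exact h.2 x y)
      by_cases hq : p = some b
      · have hq' := h1.1 hq
        simp [vis, hcx, hc', hq, hq', this]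
      · have hq' : ¬ p' = some (e b) := fun h2 => hq (h1.2 h2)
        simp [vis, hcx, hc', hq, hq', this]

lemma vis_chain (c : L → Option β) (hc : ∀ x, c x ≠ none) (W : List L) :
    (∀ b, (b :: vis c (some b) W).IsChain (· ≠ ·)) ∧ (vis c none W).IsChain (· ≠ ·) := by
  induction W with
  | nil => simp [vis]
  | cons x W ih =>
    obtain ⟨b', hb'⟩ := Option.ne_none_iff_exists'.1 (hc x)
    constructor
    · intro b
      by_cases h : some b = some b'
      · have : b = b' := by simpa using h
        subst this
        simp only [vis, hb', if_true]
        exact ih.1 b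
      · simp only [vis, hb', h, if_false]
        rw [List.isChain_cons_cons]
        exact ⟨fun h2 => h (by rw [h2]), ih.1 b'⟩
    · simp only [vis, hb']
      rw [if_neg (by simp)]
      exact ih.1 b'

lemma vis_length [Fintype L] [DecidableEq L] [Fintype β] (c : L → Option β) (W : List L) :
    ∀ p : Option β, (vis c p W).length = ∑ b, runsAux (cset c b) (decide (p = some b)) W := by
  induction W with
  | nil => intro p; simp [vis, runsAux]
  | cons x W ih =>
    intro p
    cases hcx : c x with
    | none =>
      have h1 : ∀ b, x ∉ cset c b := by intro b; simp [cset, hcx]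
      have := ih none
      simp only [vis, hcx, this, runsAux, h1, if_false]
      simp
    | some b0 =>
      have h1 : ∀ b, x ∈ cset c b ↔ b0 = b := by intro b; simp [cset, hcx]
      have h2 := ih (some b0)
      have h3 : ∑ b, runsAux (cset c b) (decide (p = some b)) (x :: W) =
          (if p = some b0 then 0 else 1) + ∑ b, runsAux (cset c b) (decide (some b0 = some b)) W := by
        rw [← Finset.add_sum_erase _ _ (Finset.mem_univ b0),
          ← Finset.add_sum_erase (a := b0) (s := Finset.univ)
            (f := fun b => runsAux (cset c b) (decide (some b0 = some b)) W) (Finset.mem_univ b0),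
          ← add_assoc]
        congr 1
        · simp [runsAux, h1]
        · apply Finset.sum_congr rfl
          intro b hb
          have hb' : b0 ≠ b := (Finset.ne_of_mem_erase hb).symm
          simp [runsAux, h1, hb']
      rw [h3, ← h2]
      by_cases hq : p = some b0
      · simp [vis, hcx, hq]
      · simp [vis, hcx, hq, add_comm]

lemma tk_fst [DecidableEq L] (o : L) (c : L → Option β) (W : List L) :
    ∀ (p : Option β) (q : Bool), (tk o c p q W).map Prod.fst = vis c p W := by
  induction W with
  | nil => intro p q; simp [vis, tk]
  | cons x W ih =>
    intro p q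
    cases hcx : c x with
    | none => simp [vis, tk, hcx, ih]
    | some b =>
      by_cases hq : p = some b
      · simp [vis, tk, hcx, hq, ih]
      · simp [vis, tk, hcx, hq, ih]

/-- Hypothesis of `alt` in terms of the class function. -/
def Alt' (c : L → Option Bool) (W : List L) : Prop :=
  ∀ (b : Bool) (x : L) (R : List L) (y : L), (x :: (R ++ [y])) <:+: W → c x = some b →
    c y = some b → R ≠ [] → (∀ j ∈ R, c j ≠ some b) → ∃ j ∈ R, c j = some !b

lemma Alt'.ofSub {c : L → Option Bool} {W W' : List L} (h : Alt' c W) (hW : W' <:+: W) :
    Alt' c W' := fun b x R y h1 => h b x R y (h1.trans hW)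

lemma vis_alt (c : L → Option Bool) (W : List L) :
    (Alt' c W → (vis c none W).IsChain (· ≠ ·)) ∧
    ∀ (x0 : L) (b : Bool), c x0 = some b →
      (Alt' c (x0 :: W) → (b :: vis c (some b) W).IsChain (· ≠ ·)) ∧
      ∀ R0 : List L, R0 ≠ [] → (∀ j ∈ R0, c j = none) → Alt' c (x0 :: (R0 ++ W)) →
        (b :: vis c none W).IsChain (· ≠ ·) := by
  induction W with
  | nil => simp [vis]
  | cons y W ih =>
    refine ⟨?_, ?_⟩
    · intro h
      cases hcy : c y with
      | none =>
        simp only [vis, hcy]
        exact ih.1 (h.ofSub (List.infix_cons (List.infix_refl _)))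
      | some b =>
        simp only [vis, hcy]
        rw [if_neg (by simp)]
        exact (ih.2 y b hcy).1 h
    · intro x0 b hx0
      constructor
      · intro h
        cases hcy : c y with
        | none =>
          simp only [vis, hcy]
          exact (ih.2 x0 b hx0).2 [y] (by simp) (by simpa using hcy) h
        | some b' =>
          have h' : Alt' c (y :: W) := h.ofSub (List.infix_cons (List.infix_refl _))
          by_cases hb : some b = some b'
          · have : b = b' := by simpa using hb
            subst this
            simp only [vis, hcy, if_true]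
            exact (ih.2 y b hcy).1 h'
          · simp only [vis, hcy, hb, if_false]
            rw [List.isChain_cons_cons]
            exact ⟨fun h2 => hb (by rw [h2]), (ih.2 y b' hcy).1 h'⟩
      · intro R0 hR0 hR h
        cases hcy : c y with
        | none =>
          simp only [vis, hcy]
          apply (ih.2 x0 b hx0).2 (R0 ++ [y]) (by simp)
          · intro j hj
            rcases List.mem_append.1 hj with hj | hj
            · exact hR j hj
            · rw [List.mem_singleton.1 hj]; exact hcy
          · simpa using h
        | some b' =>
          have h' : Alt' c (y :: W) := h.ofSub ⟨x0 :: R0, [], by simp⟩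
          simp only [vis, hcy]
          rw [if_neg (by simp), List.isChain_cons_cons]
          refine ⟨?_, (ih.2 y b' hcy).1 h'⟩
          intro hbb
          subst hbb
          obtain ⟨j, hj1, hj2⟩ := h b x0 R0 y ⟨[], W, by simp⟩ hx0 hcy hR0
            (fun j hj => by rw [hR j hj]; simp)
          rw [hR j hj1] at hj2
          simp at hj2

end PV1

theorem pv1_filter {L β : Type} [DecidableEq β] (c : L → Option β) (p : β → Bool) (W : List L) :
    vis (fun x => (c x).filter p) none W = (vis c none W).filter p := by
  have := PV1.vis_filter c p W none
  simpa using this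

theorem pv1_same {L β γ : Type} [DecidableEq β] [DecidableEq γ] [Nonempty γ] (c : L → Option β)
    (c' : L → Option γ) (h : SameCls c c') :
    ∃ e : β → γ, ∀ W, vis c' none W = (vis c none W).map e := by
  classical
  have hex : ∀ b : β, ∃ g : γ, ∀ x, c x = some b → c' x = some g := by
    intro b
    by_cases hb : ∃ x, c x = some b
    · obtain ⟨x, hx⟩ := hb
      have h1 : c' x ≠ none := by
        intro h2
        rw [(h.1 x).2 h2] at hx
        simp at hx
      obtain ⟨g, hg⟩ := Option.ne_none_iff_exists'.1 h1
      refine ⟨g, fun y hy => ?_⟩
      rw [← hg]
      exact (h.2 y x).1 (by rw [hx, hy])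
    · exact ⟨Classical.arbitrary γ, fun x hx => absurd ⟨x, hx⟩ hb⟩
  choose e he using hex
  refine ⟨e, fun W => ?_⟩
  apply PV1.vis_same c c' h e (fun x b hx => he b x hx) W none none
  intro x hx
  constructor
  · intro h1; exact absurd h1.symm hx
  · intro h1; exact absurd ((h.1 x).2 h1.symm) hx

theorem pv1_chain {L β : Type} [DecidableEq β] (c : L → Option β) (hc : ∀ x, c x ≠ none)
    (W : List L) : (vis c none W).IsChain (· ≠ ·) := (PV1.vis_chain c hc W).2

theorem pv1_length {L β : Type} [Fintype L] [DecidableEq L] [DecidableEq β] [Fintype β]
    (c : L → Option β) (W : List L) : (vis c none W).length = ∑ b, runs (cset c b) W := by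
  rw [PV1.vis_length c W none]
  simp [runs]

theorem pv1_alt {L : Type} [DecidableEq L] (X Y : Finset L) (W : List L) (hXY : Disjoint X Y)
    (h1 : Alt X Y W) (h2 : Alt Y X W) :
    (vis (fun x => if x ∈ X then some true else if x ∈ Y then some false else none) none
      W).IsChain (· ≠ ·) := by
  apply (PV1.vis_alt _ W).1
  have eX : ∀ x, (if x ∈ X then some true else if x ∈ Y then some false else none) = some true ↔
      x ∈ X := by
    intro x; by_cases hx : x ∈ X <;> by_cases hy : x ∈ Y <;> simp [hx, hy]
  have eY : ∀ x, (if x ∈ X then some true else if x ∈ Y then some false else none) = some false ↔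
      x ∈ Y := by
    intro x
    by_cases hx : x ∈ X
    · have : x ∉ Y := Finset.disjoint_left.1 hXY hx
      simp [hx, this]
    · by_cases hy : x ∈ Y <;> simp [hx, hy]
  intro b x R y hinf hx hy hR hj
  cases b with
  | true =>
    rw [eX] at hx hy
    obtain ⟨j, hj1, hj2⟩ := h1 x R y hinf hx hy hR (fun j hjR hjX => hj j hjR ((eX j).2 hjX))
    exact ⟨j, hj1, (eY j).2 hj2⟩
  | false =>
    rw [eY] at hx hy
    obtain ⟨j, hj1, hj2⟩ := h2 x R y hinf hx hy hR (fun j hjR hjX => hj j hjR ((eY j).2 hjX))
    exact ⟨j, hj1, (eX j).2 hj2⟩

end R4
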