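import Pool.Agent.Work.MP_e3f5d9_al.P1

/-!
# Block PV2: gluing of the visits inside and outside of a cut
-/

set_option autoImplicit false

open Finset

namespace R4

namespace PV2

variable {L β : Type} [DecidableEq β] [DecidableEq L]

/-- The merge of the word outside `A` (first list) and of the word inside `A` (second list). The
flag says whether the last letter was in `A`. -/
def mg {β : Type} : Bool → List (Option β) → List (Option β) → List β
  | false, [], _ => []
  | false, some b :: l, r => b :: mg false l r
  | false, none :: l, r => mg true l r
  | true, _, [] => []
  | true, l, some b :: r => b :: mg true l r
  | true, l, none :: r => mg false l r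
termination_by _ l r => l.length + r.length

lemma mg_vis (A : Finset L) (c : L → Option β)
    (hc : ∀ x ∈ A, ∀ y, y ∉ A → c x = c y → c x = none) (W : List L) :
    ∀ (s : Bool) (p : Option β), (∀ x, (x ∈ A ↔ s = false) → c x = p → p = none) →
      mg s (vis (glL A c) (if s then some none else p.map some) W)
        (vis (glR A c) (if s then p.map some else some none) W) = vis c p W := by
  induction W with
  | nil =>
    intro s p _
    cases s <;> simp [vis, mg]
  | cons x W ih =>
    intro s p hp
    by_cases hx : x ∈ A
    · have hL : glL A c x = some none := by simp [glL, hx]
      have hR : glR A c x = (c x).map some := by simp [glR, hx]
      have hcomp : ∀ y, (y ∈ A ↔ true = false) → c y = c x → c x = none := by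
        intro y hy hyx
        have hyA : y ∉ A := by simpa using hy
        exact hc x hx y hyA hyx.symm
      have ih' := ih true (c x) hcomp
      simp only [if_true] at ih'
      cases s with
      | false =>
        have hpx : c x ≠ none → c x ≠ p := by
          intro h1 h2
          apply h1
          rw [h2]
          exact hp x (by simp [hx]) h2
        have hne : p.map some ≠ some (none : Option β) := by cases p <;> simp
        simp only [Bool.false_eq_true, if_false]
        rw [show vis (glL A c) (p.map some) (x :: W) =
          none :: vis (glL A c) (some none) W by simp [vis, hL, hne]]
        rw [mg]
        cases hcx : c x with
        | none =>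
          rw [hcx] at ih' hR
          simp only [Option.map_none] at ih' hR
          simp only [vis, hR, hcx]
          exact ih'
        | some b =>
          rw [hcx] at ih' hR
          simp only [Option.map_some] at ih' hR
          have hpb : p ≠ some b := by
            rw [← hcx]; exact fun h => hpx (by simp [hcx]) h.symm
          simp only [vis, hR, hcx, hpb, if_false]
          rw [if_neg (by simp), mg, ih']
      | true =>
        simp only [if_true]
        rw [show vis (glL A c) (some none) (x :: W) = vis (glL A c) (some none) W by
          simp [vis, hL]]
        cases hcx : c x with
        | none =>
          rw [hcx] at ih' hR
          simp only [Option.map_none] at ih' hR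
          simp only [vis, hR, hcx]
          exact ih'
        | some b =>
          rw [hcx] at ih' hR
          simp only [Option.map_some] at ih' hR
          by_cases hpb : p = some b
          · subst hpb
            simp only [vis, hR, hcx, Option.map_some, if_true]
            exact ih'
          · have hpb' : p.map some ≠ some (some b) := by
              cases p with
              | none => simp
              | some b' => simpa using hpb
            simp only [vis, hR, hcx, hpb, hpb', if_false]
            rw [mg, ih']
    · have hL : glL A c x = (c x).map some := by simp [glL, hx]
      have hR : glR A c x = some none := by simp [glR, hx]
      have hcomp : ∀ y, (y ∈ A ↔ false = false) → c y = c x → c x = none := by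
        intro y hy hyx
        have hyA : y ∈ A := by simpa using hy
        rw [← hyx]
        exact hc y hyA x hx hyx
      have ih' := ih false (c x) hcomp
      simp only [Bool.false_eq_true, if_false] at ih'
      cases s with
      | true =>
        have hpx : c x ≠ none → c x ≠ p := by
          intro h1 h2
          apply h1
          rw [h2]
          exact hp x (by simp [hx]) h2
        have hne : p.map some ≠ some (none : Option β) := by cases p <;> simp
        simp only [if_true]
        rw [show vis (glR A c) (p.map some) (x :: W) =
          none :: vis (glR A c) (some none) W by simp [vis, hR, hne]]
        rw [mg]
        cases hcx : c x with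
        | none =>
          rw [hcx] at ih' hL
          simp only [Option.map_none] at ih' hL
          simp only [vis, hL, hcx]
          exact ih'
        | some b =>
          rw [hcx] at ih' hL
          simp only [Option.map_some] at ih' hL
          have hpb : p ≠ some b := by
            rw [← hcx]; exact fun h => hpx (by simp [hcx]) h.symm
          simp only [vis, hL, hcx, hpb, if_false]
          rw [if_neg (by simp), mg, ih']
      | false =>
        simp only [Bool.false_eq_true, if_false]
        rw [show vis (glR A c) (some none) (x :: W) = vis (glR A c) (some none) W by
          simp [vis, hR]]
        cases hcx : c x with
        | none =>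
          rw [hcx] at ih' hL
          simp only [Option.map_none] at ih' hL
          simp only [vis, hL, hcx]
          exact ih'
        | some b =>
          rw [hcx] at ih' hL
          simp only [Option.map_some] at ih' hL
          by_cases hpb : p = some b
          · subst hpb
            simp only [vis, hL, hcx, Option.map_some, if_true]
            exact ih'
          · have hpb' : p.map some ≠ some (some b) := by
              cases p with
              | none => simp
              | some b' => simpa using hpb
            simp only [vis, hL, hcx, hpb, hpb', if_false]
            rw [mg, ih']

end PV2

theorem pv2 (L : Type) [DecidableEq L] : VisGlue L := by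
  intro β _ A c hc
  refine ⟨fun s l r => match s with
    | true => PV2.mg true l.tail r
    | false => PV2.mg false l r.tail, ?_⟩
  intro W
  cases W with
  | nil => simp [vis, PV2.mg]
  | cons x W =>
    by_cases hx : x ∈ A
    · have hL : glL A c x = some none := by simp [glL, hx]
      have h := PV2.mg_vis A c hc (x :: W) true none (fun _ _ _ => rfl)
      simp only [if_true, Option.map_none] at h
      have e1 : vis (glL A c) none (x :: W) = none :: vis (glL A c) (some none) (x :: W) := by
        simp [vis, hL]
      rw [e1]
      simp only [List.head?_cons, Option.elim_some, hx, decide_true, List.tail_cons]
      exact h.symm
    · have hR : glR A c x = some none := by simp [glR, hx]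
      have h := PV2.mg_vis A c hc (x :: W) false none (fun _ _ _ => rfl)
      simp only [Bool.false_eq_true, if_false, Option.map_none] at h
      have e1 : vis (glR A c) none (x :: W) = none :: vis (glR A c) (some none) (x :: W) := by
        simp [vis, hR]
      rw [e1]
      simp only [List.head?_cons, Option.elim_some, hx, decide_false, List.tail_cons]
      exact h.symm

end R4
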