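import Pool.Agent.Work.MP_e3f5d9_al.P1

/-!
# Block PV4: the parities are determined by the visits to `A` and `o`
-/

set_option autoImplicit false

open Finset

namespace R4

namespace PV4

variable {L β : Type}

/-- Reconstruction of the tokens with parities. -/
def mk {β : Type} : Bool → Bool → List (Option β) → List Bool → List (Option β × Bool)
  | true, _, [], _ => []
  | true, q, some b :: l, m => (some b, q) :: mk true q l m
  | true, q, none :: l, m => (none, q) :: mk false q l m
  | false, _, _, [] => []
  | false, q, l, false :: m => mk false (!q) l m
  | false, q, l, true :: m => mk true q l m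
termination_by _ _ l m => l.length + m.length

variable [DecidableEq L] [DecidableEq β]

/-- Complete runs of `o` are odd. -/
def Good (o : L) (W : List L) : Prop :=
  ∀ (y : L) (m : ℕ) (x : L), (y :: (List.replicate (m + 1) o ++ [x])) <:+: W → y ≠ o → x ≠ o →
    Odd (m + 1)

/-- The first run of `o` has the right parity. -/
def Fit (o : L) (W : List L) (q qt : Bool) : Prop :=
  ∀ (m : ℕ) (x : L) (W' : List L), W = List.replicate m o ++ x :: W' → x ≠ o →
    (xor qt (decide (Odd m))) = q

lemma Good.tail {o x : L} {W : List L} (h : Good o (x :: W)) : Good o W :=
  fun y m z h1 => h y m z (h1.trans (List.infix_cons (List.infix_refl _)))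

lemma fit_of_good {o y : L} {W : List L} (h : Good o (y :: o :: W)) (hy : y ≠ o) (q : Bool) :
    Fit o W (!q) (!q) := by
  intro m x W' hW hx
  have h1 := h y m x ⟨[], W', by
    rw [hW, List.replicate_succ]; simp⟩ hy hx
  have h2 : ¬ Odd m := by
    rw [Nat.odd_add_one] at h1
    exact h1
  simp [h2]

lemma fit_tail {o : L} {W : List L} {q qt : Bool} (h : Fit o (o :: W) q qt) :
    Fit o W q (!qt) := by
  intro m x W' hW hx
  have h1 := h (m + 1) x W' (by rw [hW, List.replicate_succ]; simp) hx
  rw [← h1]
  by_cases h2 : Odd m
  · have : ¬ Odd (m + 1) := by rw [Nat.odd_add_one]; simpa using h2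
    simp [h2, this]
  · have : Odd (m + 1) := by rw [Nat.odd_add_one]; exact h2
    simp [h2, this]

lemma fit_zero {o x : L} {W : List L} {q qt : Bool} (h : Fit o (x :: W) q qt) (hx : x ≠ o) :
    qt = q := by
  have := h 0 x W (by simp) hx
  simpa using this

lemma mk_tk (o : L) (A : Finset L) (c : L → Option β) (ho : o ∉ A) (W : List L) :
    ∀ (y : L) (q qt : Bool), Good o (y :: W) → (y ≠ o → q = qt) → (y = o → Fit o W q qt) →
      mk (decide (y ∈ A)) q (vis (glR A c) (glR A c y) W) (vis (pc A {o}) (pc A {o} y) W) =
        tk o (glR A c) (glR A c y) qt W := by
  induction W with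
  | nil =>
    intro y q qt _ _ _
    by_cases hy : y ∈ A <;> simp [vis, tk, mk, hy]
  | cons x W ih =>
    intro y q qt hG hq hfit
    have hGx : Good o (x :: W) := hG.tail
    have hA : ∀ z ∈ A, z ≠ o := fun z hz h => ho (h ▸ hz)
    by_cases hy : y ∈ A
    · -- the last letter is in `A`
      have hyo : y ≠ o := hA y hy
      have hqq : q = qt := hq hyo
      subst hqq
      have hRy : glR A c y = (c y).map some := by simp [glR, hy]
      have hpy : pc A {o} y = some true := by simp [pc, hy]
      by_cases hx : x ∈ A
      · have hxo : x ≠ o := hA x hx
        have hRx : glR A c x = (c x).map some := by simp [glR, hx]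
        have hpx : pc A {o} x = some true := by simp [pc, hx]
        have ihx := ih x q q hGx (fun _ => rfl) (fun h => absurd h hxo)
        have hx' : decide (x ∈ A) = true := by simp [hx]
        have hy' : decide (y ∈ A) = true := by simp [hy]
        have hxo' : decide (x = o) = false := by simp [hxo]
        rw [hx'] at ihx
        rw [hy', show vis (pc A {o}) (pc A {o} y) (x :: W) = vis (pc A {o}) (pc A {o} x) W by
          simp [vis, hpy, hpx]]
        cases hcx : c x with
        | none =>
          rw [hcx, Option.map_none] at hRx
          simp only [vis, tk, hRx, hxo', Bool.xor_false]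
          rw [hRx] at ihx
          exact ihx
        | some b =>
          rw [hcx, Option.map_some] at hRx
          simp only [vis, tk, hRx, hxo', Bool.xor_false]
          rw [hRx] at ihx
          by_cases hb : glR A c y = some (some b)
          · rw [if_pos hb, if_pos hb]
            exact ihx
          · rw [if_neg hb, if_neg hb, mk, ihx]
      · have hRx : glR A c x = some none := by simp [glR, hx]
        have hne : glR A c y ≠ some none := by
          rw [hRy]; cases c y <;> simp
        have hx' : decide (x ∈ A) = false := by simp [hx]
        have hy' : decide (y ∈ A) = true := by simp [hy]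
        have e1 : vis (glR A c) (glR A c y) (x :: W) = none :: vis (glR A c) (glR A c x) W := by
          simp only [vis, hRx, if_neg hne]
        have e2 : tk o (glR A c) (glR A c y) q (x :: W) =
            (none, q) :: tk o (glR A c) (glR A c x) (xor q (decide (x = o))) W := by
          simp only [tk, hRx, if_neg hne]
        rw [e1, e2, hy', mk]
        congr 1
        by_cases hxo : x = o
        · subst hxo
          have hpx : pc A {x} x = some false := by simp [pc, hx]
          have ihx := ih x (!q) (!q) hGx (fun _ => rfl) (fun _ => fit_of_good hG hyo q)
          rw [hx'] at ihx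
          rw [show vis (pc A {x}) (pc A {x} y) (x :: W) = false :: vis (pc A {x}) (pc A {x} x) W by
            simp [vis, hpy, hpx], mk, ihx]
          simp
        · have hpx : pc A {o} x = none := by simp [pc, hx, hxo]
          have ihx := ih x q q hGx (fun _ => rfl) (fun h => absurd h hxo)
          rw [hx'] at ihx
          rw [show vis (pc A {o}) (pc A {o} y) (x :: W) = vis (pc A {o}) (pc A {o} x) W by
            simp [vis, hpx], ihx]
          simp [hxo]
    · -- the last letter is not in `A`
      have hRy : glR A c y = some none := by simp [glR, hy]
      have hy' : decide (y ∈ A) = false := by simp [hy]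
      by_cases hx : x ∈ A
      · have hxo : x ≠ o := hA x hx
        have hqq : q = qt := by
          by_cases hyo : y = o
          · exact (fit_zero (hfit hyo) hxo).symm
          · exact hq hyo
        subst hqq
        have hRx : glR A c x = (c x).map some := by simp [glR, hx]
        have hpx : pc A {o} x = some true := by simp [pc, hx]
        have hpy : pc A {o} y ≠ some true := by
          by_cases hyo : y = o <;> simp [pc, hy, hyo, ho]
        have ihx := ih x q q hGx (fun _ => rfl) (fun h => absurd h hxo)
        have hx' : decide (x ∈ A) = true := by simp [hx]
        have hxo' : decide (x = o) = false := by simp [hxo]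
        rw [hx'] at ihx
        rw [hy', show vis (pc A {o}) (pc A {o} y) (x :: W) =
          true :: vis (pc A {o}) (pc A {o} x) W by
            simp only [vis]
            rw [hpx]
            simp only [if_neg hpy], mk]
        cases hcx : c x with
        | none =>
          rw [hcx, Option.map_none] at hRx
          simp only [vis, tk, hRx, hxo', Bool.xor_false]
          rw [hRx] at ihx
          exact ihx
        | some b =>
          rw [hcx, Option.map_some] at hRx
          have hb : glR A c y ≠ some (some b) := by rw [hRy]; simp
          simp only [vis, tk, hRx, hxo', Bool.xor_false, if_neg hb]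
          rw [hRx] at ihx
          rw [mk, ihx]
      · have hRx : glR A c x = some none := by simp [glR, hx]
        have hx' : decide (x ∈ A) = false := by simp [hx]
        have e1 : vis (glR A c) (glR A c y) (x :: W) = vis (glR A c) (glR A c x) W := by
          simp [vis, hRx, hRy]
        have e2 : tk o (glR A c) (glR A c y) qt (x :: W) =
            tk o (glR A c) (glR A c x) (xor qt (decide (x = o))) W := by
          simp [tk, hRx, hRy]
        rw [e1, e2, hy']
        by_cases hxo : x = o
        · subst hxo
          have hpx : pc A {x} x = some false := by simp [pc, hx]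
          simp only [decide_true, Bool.xor_true]
          by_cases hyo : y = x
          · subst hyo
            have ihx := ih y q (!qt) hGx (fun h => absurd rfl h) (fun _ => fit_tail (hfit rfl))
            rw [hx'] at ihx
            rw [show vis (pc A {y}) (pc A {y} y) (y :: W) = vis (pc A {y}) (pc A {y} y) W by
              simp [vis, hpx]]
            exact ihx
          · have hqq := hq hyo
            subst hqq
            have hpy : pc A {x} y = none := by simp [pc, hy, hyo]
            have ihx := ih x (!q) (!q) hGx (fun _ => rfl) (fun _ => fit_of_good hG hyo q)
            rw [hx'] at ihx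
            rw [show vis (pc A {x}) (pc A {x} y) (x :: W) =
              false :: vis (pc A {x}) (pc A {x} x) W by simp [vis, hpy, hpx], mk]
            exact ihx
        · have hpx : pc A {o} x = none := by simp [pc, hx, hxo]
          have hqq : q = qt := by
            by_cases hyo : y = o
            · exact (fit_zero (hfit hyo) hxo).symm
            · exact hq hyo
          subst hqq
          have ihx := ih x q q hGx (fun _ => rfl) (fun h => absurd h hxo)
          rw [hx'] at ihx
          rw [show vis (pc A {o}) (pc A {o} y) (x :: W) = vis (pc A {o}) (pc A {o} x) W by
            simp [vis, hpx]]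
          simpa [hxo] using ihx

lemma red_replicate (o : L) (k : ℕ) : red (List.replicate (2 * k) o) = [] := by
  induction k with
  | zero => simp [red]
  | succ k ih =>
    rw [show 2 * (k + 1) = (2 * k + 1) + 1 by ring, List.replicate_succ, List.replicate_succ]
    simp [red, ih]

lemma good_of_rclean [Fintype L] {o : L} {W : List L} (h : RClean ({o} : Finset L)ᶜ W) :
    Good o W := by
  intro y m x hinf hy hx
  by_contra hodd
  rw [Nat.not_odd_iff_even] at hodd
  obtain ⟨k, hk⟩ := hodd
  apply h y (List.replicate (m + 1) o) x hinf (by simp)
  · right
    refine ⟨by simpa using hy, by simpa using hx, ?_⟩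
    intro j hj
    rw [List.eq_of_mem_replicate hj]
    simp
  · rw [hk, ← two_mul]
    exact red_replicate o k

end PV4

theorem pv4 {L : Type} [Fintype L] [DecidableEq L] (S : Setup L) : TkDet S := by
  intro β _ A c ho hc
  -- finite information: the first letter and the parity of the first run
  have key : ∀ W ∈ S.N 0, ∀ W' ∈ S.N 0,
      (vis (glR A c) none W, vis (pc A {S.D.o}) none W) =
        (vis (glR A c) none W', vis (pc A {S.D.o}) none W') →
      (W.head?, decide (Odd (W.takeWhile fun x => decide (x = S.D.o)).length)) =
        (W'.head?, decide (Odd (W'.takeWhile fun x => decide (x = S.D.o)).length)) →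
      tk S.D.o (glR A c) none false W = tk S.D.o (glR A c) none false W' := by
    have hgood : ∀ W ∈ S.N 0, PV4.Good S.D.o W := by
      rintro W ⟨F, u, hu, hP, rfl⟩
      exact PV4.good_of_rclean (hP.rclean u (by omega) _ S.full.base)
    -- reconstruction
    have hrec : ∀ (x0 : L) (W : List L), PV4.Good S.D.o (x0 :: W) →
        tk S.D.o (glR A c) (glR A c x0) (decide (x0 = S.D.o)) W =
          PV4.mk (decide (x0 ∈ A))
            (decide (Odd ((x0 :: W).takeWhile fun x => decide (x = S.D.o)).length))
            (vis (glR A c) (glR A c x0) W) (vis (pc A {S.D.o}) (pc A {S.D.o} x0) W) := by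
      intro x0 W hG
      symm
      apply PV4.mk_tk S.D.o A c ho W x0 _ _ hG
      · intro h
        simp [h]
      · intro h m x W' hW hx
        subst h
        have e1 : (S.D.o :: W).takeWhile (fun x => decide (x = S.D.o)) =
            List.replicate (m + 1) S.D.o := by
          rw [hW, List.replicate_succ, List.takeWhile_cons]
          simp only [decide_true, if_true]
          congr 1
          rw [List.takeWhile_append_of_pos (by
            intro j hj; rw [List.eq_of_mem_replicate hj]; simp), List.takeWhile_cons]
          simp [hx]
        rw [e1, List.length_replicate]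
        by_cases h2 : Odd m
        · have : ¬ Odd (m + 1) := by rw [Nat.odd_add_one]; simpa using h2
          simp [h2, this]
        · have : Odd (m + 1) := by rw [Nat.odd_add_one]; exact h2
          simp [h2, this]
    intro W hW W' hW' h1 h2
    rw [Prod.mk.injEq] at h1 h2
    obtain ⟨h1, h3⟩ := h1
    obtain ⟨h2, h4⟩ := h2
    cases W with
    | nil =>
      cases W' with
      | nil => rfl
      | cons y W' => simp at h2
    | cons x W =>
      cases W' with
      | nil => simp at h2
      | cons y W' =>
        have hxy : x = y := by simpa using h2
        subst hxy
        have r1 := hrec x W (hgood _ hW)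
        have r2 := hrec x W' (hgood _ hW')
        have e1 : vis (glR A c) (glR A c x) W = vis (glR A c) (glR A c x) W' := by
          cases hg : glR A c x with
          | none => simpa [vis, hg] using h1
          | some b => simpa [vis, hg] using h1
        have e2 : vis (pc A {S.D.o}) (pc A {S.D.o} x) W =
            vis (pc A {S.D.o}) (pc A {S.D.o} x) W' := by
          cases hg : pc A {S.D.o} x with
          | none => simpa [vis, hg] using h3
          | some b => simpa [vis, hg] using h3
        rw [e1, e2, h4, ← r2] at r1
        cases hg : glR A c x with
        | none =>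
          rw [hg] at r1
          simp only [tk, hg, Bool.false_xor]
          exact r1
        | some b =>
          rw [hg] at r1
          simp only [tk, hg, Bool.false_xor]
          rw [if_neg (by simp), if_neg (by simp), r1]
  let eq := Fintype.equivFin (Option L × Bool)
  refine ⟨Fintype.card (Option L × Bool), fun W =>
    eq (W.head?, decide (Odd (W.takeWhile fun x => decide (x = S.D.o)).length)), ?_⟩
  intro W hW W' hW' h1 h2
  exact key W hW W' hW' h1 (eq.injective h2)

end R4
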