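import Pool.Agent.Work.MP_e3f5d9_al.PN1
import Pool.Agent.Work.MP_e3f5d9_al.PN2
import Pool.Agent.Work.MP_e3f5d9_al.PN3
import Pool.Agent.Work.MP_e3f5d9_al.PV1
import Pool.Agent.Work.MP_e3f5d9_al.PV2
import Pool.Agent.Work.MP_e3f5d9_al.PV3
import Pool.Agent.Work.MP_e3f5d9_al.PV4
import Pool.Agent.Work.MP_e3f5d9_al.PRg
import Pool.Agent.Work.MP_e3f5d9_al.PRl
import Pool.Agent.Work.MP_e3f5d9_al.PRm
import Pool.Agent.Work.MP_e3f5d9_al.PRc
import Pool.Agent.Work.MP_e3f5d9_al.PF

/-!
# SOUND: assembly of the soundness of the pair calculus, and the end for leaves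
-/

set_option autoImplicit false

open Finset

namespace R4

/-- PV1, all fields. -/
theorem pv1 (L : Type) [Fintype L] [DecidableEq L] : VisBasics L where
  filter := fun c p W => pv1_filter c p W
  same := by
    intro β γ _ _ c c' h
    rcases isEmpty_or_nonempty γ with hγ | hγ
    · refine ⟨fun _ => [], fun W => ?_⟩
      have : ∀ l : List γ, l = [] := by
        intro l
        cases l with
        | nil => rfl
        | cons x _ => exact (hγ.false x).elim
      exact this _
    · obtain ⟨e, he⟩ := pv1_same c c' h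
      exact ⟨List.map e, he⟩
  chain := fun c hc W => pv1_chain c hc W
  length := fun c W => pv1_length c W
  tk_fst := fun o c p q W => PV1.tk_fst o c W p q
  alt := fun X Y W hXY h1 h2 => pv1_alt X Y W hXY h1 h2

/-- PRa. The rule `alpha` on perfect nodes. -/
def RuleAlpha {L : Type} [Fintype L] [DecidableEq L] (S : Setup L) : Prop :=
  ∀ N kk, S.D.IsKk N kk → ∀ a b, ¬ a ≡ b [MOD kk S.D.o + 1] →
    S.K (N.filter fun i => kk S.D.o + 1 ∣ kk i + a) (N.filter fun i => kk S.D.o + 1 ∣ kk i + b)

/-- Soundness of the pair calculus (the rule `alpha` is block PRa). -/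
theorem sound {L : Type} [Fintype L] [DecidableEq L] (S : Setup L) (ha : RuleAlpha S) :
    Soundness S := by
  have hN := pn1 S
  have hK := pn2 S hN
  have hV := pv1 L
  have hL : LiftNear S := pv3 S
  have hm := prm S hN hV
  have hO : Omit S := pn3 S hN
  have hT : TkDet S := pv4 S
  have hG : VisGlue L := pv2 L
  exact
    { symm := prg_symm S hK hV
      mono := hm
      glue := prg S hK hV hG
      lift := prl_lift S hN hK hV hL hT hm
      lift' := prl_lift' S hN hK hV hL hT
      alpha := ha
      cycle := fun C X t => prc S hN hK hO hV hL hT hm C X t }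

/-- The completeness of the pair calculus (helper92's C1 - C7). -/
def Complete {L : Type} [Fintype L] [DecidableEq L] (D : KS L) (E : Finset (Finset L)) : Prop :=
  ∀ K : Finset L → Finset L → Prop, PairRules D E K →
    (∀ A ∈ E, ∀ B ∈ E, Disjoint A B → K A B) ∧ (∀ A ∈ E, ∀ B ∈ E, A ⊂ B → K A Bᶜ)

/-- The end: if all letters are leaves, the growth is subexponential. -/
theorem leaf_end {L : Type} [Fintype L] [DecidableEq L] (D : KS L) (E : Finset (Finset L))
    (hE : D.Full E) (n0 : ℕ) (hn0 : D.Exp E n0) (hleaf : ∀ i, i ≠ D.o → {i} ∈ E)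
    (hC : Complete D E) (hR : RLPerf D) (ha : ∀ S : Setup L, S.D = D → RuleAlpha S) :
    SubexpGam D := by
  obtain ⟨d, hd, h⟩ := hR E hE n0 hn0
  apply h
  set S : Setup L := ⟨D, E, n0, 2 ^ (n0 + 2), d, hE, hn0, hd⟩ with hS
  have hs := sound S (ha S rfl)
  obtain ⟨h1, h2⟩ := hC S.K hs
  have hN := pn1 S
  refine pf S hN (pn2 S hN) (pv1 L) hleaf ?_
  -- the pairs of letters
  have ho : ∀ j, j ≠ D.o → S.K {j} {D.o} := by
    intro j hj
    by_cases hjo : ({j} : Finset L) = ({D.o} : Finset L)ᶜ
    · have hbase : D.Side E ({D.o} : Finset L)ᶜ := by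
        unfold KS.Side KS.nm
        rw [if_neg (by simp)]
        exact hE.base
      rw [hjo]
      have hm : D.Mono E ({D.o} : Finset L)ᶜ (({D.o} : Finset L)ᶜ)ᶜ := KS.Mono.triv _ hbase
      rw [compl_compl] at hm
      refine hs.mono _ _ hm hbase ?_
      unfold KS.Side KS.nm
      show (if D.o ∈ ({D.o} : Finset L) then _ else _) ∈ E
      rw [if_pos (by simp)]
      exact hE.base
    · have h3 := h2 {j} (hleaf j hj) _ hE.base
        (Finset.ssubset_iff_subset_ne.2 ⟨by simpa using Ne.symm hj, hjo⟩)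
      rwa [compl_compl] at h3
  intro i j hij
  by_cases hi : i = D.o
  · subst hi
    exact hs.symm _ _ (by simpa using hij.symm) (ho j hij.symm)
  · by_cases hj : j = D.o
    · subst hj
      exact ho i hi
    · exact h1 _ (hleaf i hi) _ (hleaf j hj) (by simpa using hij)

end R4
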