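import Pool.Agent.Work.MP_e3f5d9_al.Interface

/-!
# Interface of the general theorem: tight words with ancestors

All nodes are raw sections `D.secL u F` of a reduced top word `F` (no reduction inside).

## UT words

`UT E n0 θ k F`: the top word `F` is reduced and at every node `u` of level at most `k`, for every
factor `F'` of `F` and all cuts `A`, `B` of the class `E`, the raw `A`-runs of the node are seen,
up to `θ`, as reduced `B`-runs `n0` levels below.  `n0` is the mixing exponent and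
`θ = 2 ^ (n0 + 2)` is uniform, i.e. does not depend on `k`.

Facts (block TB0), for a node `W = D.secL u F'`, `F'` a factor of `F`, `|u| ≤ k`:
* `tot (rr B) n0 W ≤ tot (runs B) n0 W ≤ runs A W + 2 ^ (n0 + 1)` for any word `W` (path of length
  `n0` from `A` to `B`; crossing law + one complement per arrow);
* so `runs A W ≤ rr B W + θ + 2 ^ (n0 + 1)` for all `A`, `B` in `E` (raw and reduced runs of all cuts
  agree up to a uniform constant);
* factors of `D.secL u F` are `D.secL u' F'` with `F'` a factor of `F`.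

## RL

Window word `w` (block B4, `Win E w j0 (j0 + k + n0) M r`), `Q v = red (D.secL v w)`, `|v| = j0`.
For a node `u` of `Q v` and `A B ∈ E` put `def u A B X = runs A (secL u X) - tot (rr B) n0 (secL u X)`
(integers).  (a) `def ≥ - 2 ^ (n0 + 1)`; (b) `def u A B (X ++ Y) ≥ def u A B X + def (ev X u) A B Y - 1`;
(c) the sum over all `v`, all `u` of level `t` is at most `2 r + 2 ^ (j0 + t + 1)`.
Greedy: cut `Q v` as `p₁ [x₁] p₂ [x₂] ...`, `pᵢ` the maximal UT prefix of the rest (single letters are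
UT).  Every `pᵢ [xᵢ]` contains a factor that is bad (`def > θ`) for some node and some `A B`; for a
fixed node `u₀` of `Q v` and fixed `A B` the number `b` of disjoint bad factors satisfies
`b (θ - 2 ^ (n0 + 1) - 2) ≤ def u₀ A B (Q v) + 2 ^ (n0 + 1)`.  So the number of pieces is
`≤ C_k (r + 1)`.  Count: `ev w` is determined by the action on level `j0` and the `ev` of the pieces;
the lengths of the `Q v` have sum `≤ |L| n`; number of compositions by the binomial bound; take `N`
large after `k` and the constant `C` of the hypothesis.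
-/

set_option autoImplicit false

open Finset

namespace R4

namespace KS

variable {L : Type} [Fintype L] [DecidableEq L] (D : KS L)

/-- Uniformly tight words, `k` generations below. -/
def UT (E : Finset (Finset L)) (n0 θ k : ℕ) (F : List L) : Prop :=
  red F = F ∧ ∀ u : List Bool, u.length ≤ k → ∀ F' : List L, F' <:+: F →
    ∀ A ∈ E, ∀ B ∈ E, runs A (D.secL u F') ≤ D.tot (rr B) n0 (D.secL u F') + θ

/-- The mixing exponent. -/
def Exp (E : Finset (Finset L)) (n0 : ℕ) : Prop :=
  0 < n0 ∧ ∀ A ∈ E, ∀ B ∈ E, D.Path E n0 A B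

/-- Nodes with `k` tight generations above and below. -/
def Node (E : Finset (Finset L)) (n0 θ k : ℕ) (W : List L) : Prop :=
  ∃ (F : List L) (u : List Bool), D.UT E n0 θ (2 * k) F ∧ u.length = k ∧ W = D.secL u F

end KS

/-- TB0. Facts on UT words. -/
structure UTBasics {L : Type} [Fintype L] [DecidableEq L] (D : KS L) : Prop where
  low : ∀ E, D.Mixing E → ∀ n A B, D.Path E n A B → ∀ W,
    D.tot (runs B) n W ≤ runs A W + 2 ^ (n + 1)
  rr_le : ∀ (B : Finset L) n W, D.tot (rr B) n W ≤ D.tot (runs B) n W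
  unif : ∀ E, D.Mixing E → ∀ n0 θ k F, D.Exp E n0 → D.UT E n0 θ k F → ∀ u : List Bool,
    u.length ≤ k → ∀ F', F' <:+: F → ∀ A ∈ E, ∀ B ∈ E,
    runs A (D.secL u F') ≤ rr B (D.secL u F') + θ + 2 ^ (n0 + 1)
  secL_append : ∀ (u : List Bool) (X Y : List L),
    D.secL u (X ++ Y) = D.secL u X ++ D.secL (D.ev X u) Y
  factor : ∀ (u : List Bool) (F W' : List L), W' <:+: D.secL u F →
    ∃ (F' : List L) (X Y : List L), F = X ++ F' ++ Y ∧ W' = D.secL (D.ev X u) F'
  ut_factor : ∀ E n0 θ k (F F' : List L), D.UT E n0 θ k F → F' <:+: F → D.UT E n0 θ k F'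
  ut_mono : ∀ E n0 θ k k' (F : List L), k' ≤ k → D.UT E n0 θ k F → D.UT E n0 θ k' F

/-- TB1. The reduction to UT words. -/
def RL {L : Type} [Fintype L] [DecidableEq L] (D : KS L) : Prop :=
  ∀ E, D.Mixing E → ∀ n0, D.Exp E n0 →
    (∀ ε : ℝ, 0 < ε → ∃ (k : ℕ) (C : ℝ), ∀ ℓ : ℕ,
      {g : List Bool → List Bool | ∃ F : List L, D.UT E n0 (2 ^ (n0 + 2)) k F ∧ F.length ≤ ℓ ∧
        D.ev F = g}.Finite ∧
      (Set.ncard {g : List Bool → List Bool | ∃ F : List L, D.UT E n0 (2 ^ (n0 + 2)) k F ∧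
        F.length ≤ ℓ ∧ D.ev F = g} : ℝ) ≤ C * Real.exp (ε * ℓ)) →
    SubexpGam D

/-- TB2. The reduction to nodes with ancestors. -/
def RLNode {L : Type} [Fintype L] [DecidableEq L] (D : KS L) : Prop :=
  ∀ E, D.Mixing E → ∀ n0, D.Exp E n0 →
    (∀ ε : ℝ, 0 < ε → ∃ (k : ℕ) (C : ℝ), ∀ ℓ : ℕ,
      (Set.ncard {g : List Bool → List Bool | ∃ W : List L, D.Node E n0 (2 ^ (n0 + 2)) k W ∧
        W.length ≤ ℓ ∧ D.ev W = g} : ℝ) ≤ C * Real.exp (ε * ℓ)) →
    SubexpGam D

/-- TB3. The closure for nodes of UT words, uniform constants. -/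
def TClosure {L : Type} [Fintype L] [DecidableEq L] (D : KS L) : Prop :=
  ∀ E, D.Mixing E → ∀ n0 θ, D.Exp E n0 → ∀ X Y, D.Mono E X Y → (D.Side E X ∨ D.Side E Y) →
    ∃ c d : ℕ, ∀ k F, D.UT E n0 θ k F → ∀ u : List Bool, d ≤ u.length → u.length + d ≤ k →
      ∀ F', F' <:+: F → ∀ A ∈ E, runs A (D.secL u F') ≤ bb X Y (D.secL u F') + c

end R4
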