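import Pool.Agent.Work.MP_e3f5d9_al.ASM
import Pool.Agent.Work.MP_e3f5d9_al.MK1
import Pool.Agent.Work.MP_e3f5d9_al.MK2
import Pool.Agent.Work.MP_e3f5d9_al.MK3
import Pool.Agent.Work.MP_e3f5d9_al.MK4
import Pool.Agent.Work.MP_e3f5d9_al.MK5
import Pool.Agent.Work.MP_e3f5d9_al.MK6
import Pool.Agent.Work.MP_e3f5d9_al.MK7
import Pool.Agent.Work.MP_e3f5d9_al.MK8
import Pool.Agent.Work.MP_e3f5d9_al.MK9
import Pool.Agent.Work.MP_e3f5d9_al.MK11
import Pool.Agent.Work.MP_e3f5d9_al.MK12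
import Pool.Agent.Work.MP_e3f5d9_al.MK13
import Pool.Agent.Work.MP_e3f5d9_al.PB1
import Pool.Agent.Work.MP_e3f5d9_al.PB4
import Pool.Agent.Work.MP_e3f5d9_al.PB5
import Pool.Agent.Work.MP_e3f5d9_al.PB6
import Pool.Agent.Work.MP_e3f5d9_al.B1p
import Pool.Agent.Work.MP_e3f5d9_al.B2b
import Pool.Agent.Work.MP_e3f5d9_al.B2c
import Pool.Agent.Work.MP_e3f5d9_al.B2d
import Pool.Agent.Work.MP_e3f5d9_al.TB1
import Pool.Agent.Work.MP_e3f5d9_al.TB3

/-!
# TF: the general theorem on kneading groups, subexponential growth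
-/

set_option autoImplicit false

open Finset

namespace R4

variable {L : Type} [Fintype L] [DecidableEq L]

/-- The marks. -/
theorem marksThm (S : Setup L) : Mk.MarksThm S := by
  have hN := pn1 S
  have hC := pn2 S hN
  have hV := pv1 L
  have hG : VisGlue L := pv2 L
  have hT : TkDet S := pv4 S
  have hOm : Omit S := pn3 S hN
  have hVp : Mk.VispBasics L := Mk.mk1 L
  have hB : Mk.StarBasics S.D S.E := Mk.mk2 S.D S.E S.full
  have hLP : Mk.LiftP S := Mk.mk3 S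
  have hLS : Mk.LiftStep S := Mk.mk4_step S hN hVp hB hLP
  have hLPa : Mk.LiftPath S := Mk.mk4_path S hN hVp hB hLS
  have hNF : Mk.NodeFactor S := Mk.mk5 S
  have hO : Mk.Own S := Mk.mk6 S hC hV hVp hB hT hLS
  have hBl : Mk.Blk S := Mk.mk7 S hN hVp hB hNF
  have hF : Mk.Far S := Mk.mk8b S hN
  have hCo : Mk.Cont S.D S.E := Mk.mk9 S.D S.E hB
  have hCn : Mk.Cnt S.D S.E := Mk.mk10 S.D S.E hVp
  have hD : Mk.MkDet S := Mk.mk11 S hN hVp hB hLPa hBl hF hNF hCo hCn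
  have hDn : Mk.MkDown S := Mk.mk12_down S hC hCn hLS hO
  have hP : Mk.MkPer S := Mk.mk12_per S hN hC hV hVp hB hOm hO hD
  have hA : Mk.MkAll S := Mk.mk12_all S hB hP hDn
  have hFin : Mk.MkFin S := Mk.mk13 S hN hC hV hG hB
  exact Mk.marks_of hA hFin

/-- The reduction of the growth to perfect nodes. -/
theorem rlPerf (D : KS L) : RLPerf D :=
  pb6 D (tb1 D) (pb5 D
    (pb4 D (pb1 D) (tb3 D (b1 D) (b1p L) (b2b D) (b2c D) (b2d D) (b3 D) (tb0 D))))

/-- Subexponential growth. -/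
theorem subexp_full (D : KS L) (E : Finset (Finset L)) (hE : D.Full E)
    (ho : D.side D.o = true) (horb : ∀ i, ∃ n, D.nxt^[n] D.o = i) : SubexpGam D :=
  sub_of D E hE ho horb (rlPerf D) fun S _ => marksThm S

end R4
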