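import Pool.Agent.Work.MP_e3f5d9_al.P0

/-!
# The combinatorial tree: definitions and statements

Points are sequences `x : ℕ → Bool` (itineraries).  `phi s i` is the image of the letter `i` seen from a
point on the side `s`: letters on the other side are seen through `0`, hence in the direction of the
critical value `o`.  Two letters are in the same direction at `x` (`Rel x i j`) if their images
coincide after some steps.  The classes of `Rel x` are the directions (germs) at `x`; the letter
`i` at the point `kap i` is a class by itself (mark).  `dir z p` is the direction of the point `p` at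
`z`, read off at the first difference of the sequences (it may be empty if no letter lies there).
All statements below were checked by computer for all data with `m ≤ 8` and 40000 random ones.

Blocks (`D.Tame`, at least two letters; `E` with `D.Full E`):
* TR1 `TreeBasics D`;  TR2 `TreeTops D` (from TR1);  TR3 `TreeCyc D` (from TR1, TR2);
* TR5 `TreeTurns D E` (from TR1, TR2, TR3);  TR4 `TreeAcyclic D E` (from TR1, TR2, TR5);
* TR6 `TreeRec D E` (from TR1, TR2, TR4).
-/

set_option autoImplicit false

open Finset

namespace R4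

/-- Points of the tree. -/
abbrev Pt : Type := ℕ → Bool

/-- The `n`-fold shift. -/
def sh (x : Pt) (n : ℕ) : Pt := fun m => x (n + m)

/-- Prepend a digit: the preimage of `x` on the side `s`. -/
def cn (s : Bool) (x : Pt) : Pt
  | 0 => s
  | n + 1 => x n

/-- The forward orbit of `t`. -/
def cyc (t : Pt) : Set Pt := {x | ∃ n, x = sh t n}

namespace KS

variable {L : Type} [Fintype L] [DecidableEq L] (D : KS L)

/-- Image of a letter seen from the side `s`. -/
def phi (s : Bool) (i : L) : L := if D.side i = s then D.nxt i else D.o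

/-- `Phi x n` is the composition of `phi (x 0), …, phi (x (n-1))`. -/
def Phi (x : Pt) : ℕ → L → L
  | 0, i => i
  | n + 1, i => D.phi (x n) (Phi x n i)

/-- The letters `i` and `j` lie in the same direction at `x`. -/
def Rel (x : Pt) (i j : L) : Prop := ∃ n, D.Phi x n i = D.Phi x n j

open Classical in
/-- The direction of the letter `i` at `x`. -/
noncomputable def cls (x : Pt) (i : L) : Finset L := univ.filter fun j => D.Rel x i j

open Classical in
/-- Pull back of a direction to the side `s`. -/
noncomputable def pb (s : Bool) (A : Finset L) : Finset L := univ.filter fun i => D.phi s i ∈ A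

open Classical in
/-- The direction at `z` of the points that differ from `z` first at the place `n`. -/
noncomputable def dirAt (z : Pt) (n : ℕ) : Finset L :=
  univ.filter fun i => D.Rel (sh z (n + 1)) (D.Phi z (n + 1) i) D.o

open Classical in
/-- The direction of the point `p` at the point `z ≠ p`. -/
noncomputable def dir (z p : Pt) : Finset L :=
  if h : ∃ n, z n ≠ p n then D.dirAt z (Nat.find h) else ∅

/-- The direction of `0` at `x`. -/
noncomputable def zer (x : Pt) : Finset L := D.dirAt x 0

/-- Itinerary of a letter. -/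
def kap (i : L) : Pt := fun n => D.side (D.nxt^[n] i)

/-- The fixed point `α`. -/
def al : Pt := fun _ => D.side D.o

/-- Vertices: at least three directions (marks included). -/
def Vtx (x : Pt) : Prop := ∃ i j k, ¬ D.Rel x i j ∧ ¬ D.Rel x i k ∧ ¬ D.Rel x j k

/-- Kneading systems: the letters are the orbit of `o`, and have different itineraries. -/
structure Tame : Prop where
  conn : ∀ i, ∃ n, D.nxt^[n] D.o = i
  expa : ∀ i j, (∀ n, D.side (D.nxt^[n] i) = D.side (D.nxt^[n] j)) → i = j

/-! ### Axis, tops -/

/-- The point `y` lies strictly between `α` and the critical value. -/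
def Ax (y : Pt) : Prop :=
  y ≠ D.al ∧ y ≠ D.kap D.o ∧ D.dir D.al y = D.cls D.al D.o ∧ D.dir y D.al ≠ D.cls y D.o

/-- Periodic vertices. -/
def Per (y : Pt) : Prop := D.Vtx y ∧ ∃ n, 0 < n ∧ sh y n = y

/-- Characteristic points of the cycles of vertices. -/
def Top (t : Pt) : Prop :=
  D.Per t ∧ t ≠ D.al ∧ ∀ n, sh t n ≠ t → D.dir t (sh t n) ≠ D.cls t D.o

/-- The point `x` of the axis is below `y`. -/
def Below (x y : Pt) : Prop := x ≠ y ∧ D.dir x y = D.cls x D.o

/-- Directions at `y` of letters which are not at `y` (no marks). -/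
def Ger (y : Pt) (Y : Finset L) : Prop := ∃ i, y ≠ D.kap i ∧ Y = D.cls y i

/-- The vertex `v` lies strictly between `w` and the critical value. -/
def Above (v w : Pt) : Prop :=
  D.Vtx v ∧ v ≠ w ∧ D.dir v w ≠ D.cls v D.o ∧ D.dir w v = D.cls w D.o

/-- Dependency steps: the owner at `sh x 1` needs the vertical pair at `v`. -/
def VStep (E : Finset (Finset L)) (x v : Pt) : Prop :=
  D.Above v (sh x 1) ∧ ¬ D.Mono E (D.dir v (sh x 1)) (D.cls v D.o)

/-- Relations that are closed under gluing. -/
structure GlueRel (E : Finset (Finset L)) (K : Finset L → Finset L → Prop) : Prop where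
  triv : ∀ X, D.Side E X → K X Xᶜ
  glue : ∀ X Y Z, D.Side E Y → X ⊆ Yᶜ → Z ⊆ Y → K X Y → K Yᶜ Z → K X Z

end KS

/-! ### TR1: basic facts

* `rel_cn`: `Phi x (n+1) i = Phi (sh x 1) n (phi (x 0) i)`.
* `dir_class`: if `Phi_{n+1} i`, `Phi_{n+1} j` are both `~ o` at `sh z (n+1)`, then `i ~_z j`; conversely
  transport along `Rel`.
* `compat`: up to the first difference `n` the maps `Phi` of `z` and `p` agree; `phi (z n)` or
  `phi (p n)` sends `Phi_n i` to `o`.
* `between`: let `n`, `m` be the first differences of `x,y` and `x,z`.  `n < m`: then `n` is the first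
  difference of `y,z` and `z` agrees with `x` there.  `n = m` is impossible.  `n > m`: shift by `m` (the
  maps `Phi` agree), so `m = 0`: `dir y z = zer y`; `dir x y ≠ zer x` gives `o ∉ dir (sh x 1) (sh y 1)`, so
  `o ∈ dir (sh y 1) (sh x 1)` by `compat`, and `dir y x = pb (cls (sh y 1) o) = zer y`.
* `seg` (two points between `a` and `b` are comparable): from `between` only; for the open arc from `0` to the
  critical value take `a = cn (!(side o)) (kap o)`, `b = kap o`.
* `dir_kap`: `Phi^z_n i = nxt^[n] i` up to the first difference of `z` and `kap i`, then `o`.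
* `mark`: `Phi^(kap i)_n i = nxt^[n] i ≠ o` for `n > 0`; if `Phi_n j = nxt^[n] i` with `n` minimal,
  then `j` is always on the side of `i`, so `j = i` by `expa`.
* `leaf_o`: number of classes at `x` ≤ number of classes at `sh x 1` (`phi` induces an injection), so
  the number of classes at `kap o` is at most the one at `kap i` for all `i` (`conn`); choose
  `i ≠ j` with `|cls (kap j) i|` maximal; then `j` has only two classes: if `k` is in a third class,
  `dir (kap k) (kap j)` contains the complement of `cls (kap j) k`.
* `med`: majority itinerary of three letters; the minority letter goes to `o`, which is not in the image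
  of `nxt`, so the three images stay different.
* `med_unique`: `dir x z ∪ dir z x = univ`, each of them contains at most one of the three letters.
-/

/-- TR1. -/
structure TreeBasics {L : Type} [Fintype L] [DecidableEq L] (D : KS L) : Prop where
  refl : ∀ x i, D.Rel x i i
  symm : ∀ x i j, D.Rel x i j → D.Rel x j i
  trans : ∀ x i j k, D.Rel x i j → D.Rel x j k → D.Rel x i k
  rel_sh : ∀ x i j, D.Rel x i j ↔ D.Rel (sh x 1) (D.phi (x 0) i) (D.phi (x 0) j)
  cls_eq : ∀ x i j, D.cls x i = D.cls x j ↔ D.Rel x i j
  mem_cls : ∀ x i, i ∈ D.cls x i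
  dir_class : ∀ z p i, i ∈ D.dir z p → D.dir z p = D.cls z i
  dirAt_class : ∀ z n i, i ∈ D.dirAt z n → D.dirAt z n = D.cls z i
  compat : ∀ z p, z ≠ p → D.dir z p ∪ D.dir p z = univ
  dir_sh : ∀ z p, z 0 = p 0 → z ≠ p → D.dir z p = D.pb (z 0) (D.dir (sh z 1) (sh p 1))
  dir_cross : ∀ z p, z 0 ≠ p 0 → D.dir z p = D.zer z
  zer_eq : ∀ z, D.zer z = D.pb (z 0) (D.cls (sh z 1) D.o)
  between : ∀ x y z, x ≠ y → x ≠ z → D.dir x y ≠ D.dir x z → D.dir y z = D.dir y x
  seg : ∀ a b p p', p ≠ p' → p ≠ a → p ≠ b → p' ≠ a → p' ≠ b → D.dir p a ≠ D.dir p b →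
    D.dir p' a ≠ D.dir p' b → (D.dir p p' = D.dir p a ∧ D.dir p' p = D.dir p' b) ∨
      (D.dir p p' = D.dir p b ∧ D.dir p' p = D.dir p' a)
  dir_kap : ∀ z i, z ≠ D.kap i → D.dir z (D.kap i) = D.cls z i
  pb_cls : ∀ x i, D.cls x i = D.pb (x 0) (D.cls (sh x 1) (D.phi (x 0) i))
  mark : D.Tame → ∀ i, D.cls (D.kap i) i = {i}
  leaf_o : D.Tame → ∀ i j, i ≠ D.o → j ≠ D.o → D.Rel (D.kap D.o) i j
  vtx_sh : ∀ x, D.Vtx x → D.Vtx (sh x 1)
  med : ∀ i j k, i ≠ j → i ≠ k → j ≠ k → ∃ x, ¬ D.Rel x i j ∧ ¬ D.Rel x i k ∧ ¬ D.Rel x j k
  med_unique : ∀ i j k x z, ¬ D.Rel x i j → ¬ D.Rel x i k → ¬ D.Rel x j k →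
    ¬ D.Rel z i j → ¬ D.Rel z i k → ¬ D.Rel z j k → x = z
  finite : {x | D.Vtx x}.Finite

/-! ### TR2: characteristic points

All of TR2 - TR6 are to be proved for tame systems with at least two letters, e.g.
`theorem tr2 (hD : D.Tame) (h : TreeBasics D) : TreeTops D` etc.  `C` the cycle of a periodic vertex `y ≠ α`.
(a) `C` has points on both sides: otherwise `y` is constant; `y = al` is excluded; on the other side
`s`: `phi s o = o`, so `i ~_y o` unless `i` stays on the side `s` forever, i.e. `y = kap i`: at most one
letter by `expa`, so at most two classes.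
(b) an endpoint: some `y ∈ C` has only one direction to `C`: choose `y, y'` with `|dir y y'|` maximal; if
`dir y y'' ≠ dir y y'`, then `dir y'' y ⊇ (dir y y'')ᶜ ⊋ dir y y'` (`y` has three classes).
(c) there is `t ∈ C` with `cls t o ≠ dir t y` for all `y ∈ C`: otherwise the map `dir y y' ↦ dir (sh y 1) …`
(`zer y ↦ cls (sh y 1) o`) is an injection of the directions to `C` at `y` into those at `sh y 1`, so
all numbers are equal to `1`; by (a) `zer y` is the direction to `C`, so `zer y = cls y o` for all
`y ∈ C`.  Then `nxt` maps `(cls y o)ᶜ` injectively into `(cls (sh y 1) o)ᶜ`, all letters of `(cls y o)ᶜ` have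
the itinerary `y`, so there is only one, and `y` has two classes.  Contradiction.  Uniqueness: `compat`.
(d) `dir t y = zer t` for all `y ∈ C`: by (a) `zer t` is a direction to `C`; the number of directions is
nondecreasing along `t, sh t 1, …, sh t (p-1)` (the image of a direction to `C` is a direction to
`C` as long as the next point is not `t`), and one of them is `1`.
(e) `Ax t`: `zer t ≠ cls t o` by (a), (c).  If `dir al t ≠ cls al o`, then `dir t al = cls t o`, hence
`(cls t o)ᶜ ⊆ dir al t`, which contains the letters on the other side: `dir al t = zer al`, and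
`sh t 1` is in the direction `cls al o` of `al`; but all points of `C` are in the direction `dir al t` of `al`
(`between` at `t`).  So `dir al t = cls al o`, and `dir t al ≠ cls t o`, since otherwise all points of
`C` would be in the direction `cls al o` of `al`, but those on the other side are in the direction
`zer al`.  (If `zer al = cls al o`, then `α` is not a vertex and all classes coincide: excluded by (a).)
(f) order: for `x, y` on the axis, `x ≠ y`, exactly one of `Below x y`, `Below y x` holds.
-/

/-- TR2. -/
structure TreeTops {L : Type} [Fintype L] [DecidableEq L] (D : KS L) : Prop where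
  exists_top : ∀ y, D.Per y → y ≠ D.al → ∃ n, D.Top (sh y n)
  top_unique : ∀ t n, D.Top t → D.Top (sh t n) → sh t n = t
  ax : ∀ t, D.Top t → D.Ax t
  dir_top : ∀ t n, D.Top t → sh t n ≠ t → D.dir t (sh t n) = D.zer t
  zer_top : ∀ t, D.Top t → D.zer t ≠ D.cls t D.o
  sides : ∀ t, D.Top t → ∃ n, t n ≠ t 0
  below_total : ∀ x y, D.Ax x → D.Ax y → x ≠ y → D.Below x y ∨ D.Below y x
  below_asymm : ∀ x y, D.Ax x → D.Ax y → D.Below x y → ¬ D.Below y x
  below_trans : ∀ x y z, D.Ax x → D.Ax y → D.Ax z → D.Below x y → D.Below y z → D.Below x z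
  below_dir : ∀ x y, D.Ax x → D.Ax y → D.Below x y → D.dir y x = D.dir y D.al
  ax_al : ∀ x, D.Ax x → D.dir x D.al = D.zer x
  ax_cls : ∀ x y, D.Ax x → D.Ax y → D.Vtx y → D.Below x y →
    D.cls y D.o ⊂ D.cls x D.o

/-! ### TR3: germs at the points of a cycle -/

/-- Directions from `y` to the other points of the cycle of `t`. -/
def KS.KG {L : Type} [Fintype L] [DecidableEq L] (D : KS L) (t y : Pt) : Set (Finset L) :=
  {Y | ∃ p ∈ cyc t, p ≠ y ∧ D.dir y p = Y}

/-- TR3.  Germs at periodic vertices, `f_*` is the inverse of `pb`.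
`ger_pb`: the number of classes is nondecreasing under the shift, hence constant on cycles; marks correspond to
marks (`kap o` is not a vertex).  `ger_exp`: otherwise `nxt^[n]` is injective on `Y` for all `n`, with constant sides, so
all letters of `Y` have the itinerary `y`.  `kg_*`: see TR2 (c), (d); the direction `dir y p ≠ zer y` is mapped to
`dir (sh y 1) (sh p 1)`, and `zer y` to `cls (sh y 1) o`. -/
structure TreeCyc {L : Type} [Fintype L] [DecidableEq L] (D : KS L) : Prop where
  ger_pb : ∀ y Y, D.Per y → D.Ger (sh y 1) Y → D.Ger y (D.pb (y 0) Y)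
  ger_inj : ∀ y Y Y', D.Per y → D.Ger (sh y 1) Y → D.Ger (sh y 1) Y' →
    D.pb (y 0) Y = D.pb (y 0) Y' → Y = Y'
  ger_surj : ∀ y Y, D.Per y → D.Ger y Y → ∃ Y', D.Ger (sh y 1) Y' ∧ D.pb (y 0) Y' = Y
  ger_exp : ∀ y Y, D.Per y → D.Ger y Y → ∃ (n : ℕ) (Z : ℕ → Finset L), Z 0 = Y ∧
    (∀ k < n, D.Ger (sh y (k + 1)) (Z (k + 1)) ∧ D.pb (y k) (Z (k + 1)) = Z k) ∧
    Z n = D.zer (sh y n)
  ger_o : ∀ y, D.Vtx y → D.Ger y (D.cls y D.o)
  ger_zer : ∀ y, D.Per y → D.Ger y (D.zer y)
  ger_dir : ∀ y p, D.dir y p ≠ ∅ → D.Ger y (D.dir y p)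
  ger_ne : ∀ y Y Y', D.Ger y Y → D.Ger y Y' → Y ≠ Y' → Disjoint Y Y'
  per_sh : ∀ y, D.Per y → D.Per (sh y 1)
  kg_zer : ∀ t y, D.Top t → y ∈ cyc t → D.zer y ∈ D.KG t y
  kg_o : ∀ t y, D.Top t → y ∈ cyc t → y ≠ t → D.cls y D.o ∈ D.KG t y
  kg_top : ∀ t Y, D.Top t → Y ∈ D.KG t t → Y = D.zer t
  kg_f : ∀ t y Y, D.Top t → y ∈ cyc t → Y ∈ D.KG t y → sh y 1 ≠ t →
    ∃ Y' ∈ D.KG t (sh y 1), D.pb (y 0) Y' = Y
  kg_f_top : ∀ t y Y, D.Top t → y ∈ cyc t → Y ∈ D.KG t y → sh y 1 = t →
    Y = D.zer y ∨ Y = D.pb (y 0) (D.zer t)
  kg_two : ∀ t y, D.Top t → y ∈ cyc t → ∀ a ∈ D.KG t y, ∀ b ∈ D.KG t y, ∀ c ∈ D.KG t y,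
    a = b ∨ a = c ∨ b = c

/-! ### TR4: Theorem A' -/

/-- TR4.  Closed walks of steps `x → sh x 1` and `x → v`, `VStep E x v`, contain no `VStep`.
PROOF.  `M w = (zer w)ᶜ`, `D w = (cls w o)ᶜ`; `j ∈ M w ↔ side j = w 0 ∧ nxt j ∈ D (sh w 1)` (`zer_eq`).  Off-axis points:
`zer w = cls w o`, i.e. `M w = D w`; axis points: the others, except `al`.
(1) If `VStep E x v`, then the preimage `w = cn (x 0) v` lies strictly between `x` and `0`: `zer w ≠ dir w x` and
`dir x w = zer x`, so `M x ⊂ dir w x ⊆ M w`, and `Mono E (dir w x) (zer w)` is false (`image`), so `w` is a vertex.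
(2) If `x` is on the axis, so is `w`, `dir w x = cls w o`, and `TreeTurns.ru` gives `w = al`, so `v = al`; from `al` there is
only the step `al → al` (`ru` again).  So on a closed walk which is not constant `al`, every axis point makes a shift step.
(3) A closed walk without axis points and with a `VStep`: `|M x|` is nondecreasing along shift steps, and increases along
`VStep`s (`M x ⊂ M w`, `nxt` is injective from `M w` into `D v = M v`): contradiction.
(4) Otherwise cut the walk at its axis points.  Run from `l` to the next axis point `l'`.  With a `VStep` `x → v` in it, take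
the last one: `nxt^[k]` maps `M l` into the single germ `g = dir v (sh x 1)` of `v`; if `v = l'`, then `g ≠ zer l'` by `ru`;
if `v` is off the axis, the rest are shift steps, `g` goes to a germ `g'` of `l'`; `g' = zer l'` is impossible: `ru` at `l'`
and `lift` along the off-axis points (`zer = cls o` there) give `Mono E g (cls v o)`.  So `M l` is mapped into a germ of `l'`
different from `zer l'` and `cls l' o` (B-germ).  Without a `VStep` the germs of `l` other than `zer l` are mapped injectively
to germs of `l'` other than `cls l' o`: U-type if `cls l o` goes to `zer l'` (then all other germs go to B-germs),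
B-type otherwise.
(5) Let `l*` be the axis point of the walk with `M l*` minimal (the nearest to the critical value; the axis points are
linearly ordered by `seg`, `M l' ⊂ cls l o` for `l'` above `l`).  Suppose there is a `VStep`; it lies in a closed piece which meets `l*`
only at its ends; take the last run of this piece which is not of U-type, from `l₁`; `S = M l₁` if it contains a `VStep`,
`S = cls l₁ o` otherwise.  The following runs are of U-type, so `nxt^[n]` maps `S` into a B-germ of `l*`, with
constant sides.  If `l₁ ≠ l*` or `S = M l₁`, then `M l* ⊆ S`, so `nxt^[n]` maps `M l*` injectively into `M l* \ {o}`: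
contradiction.  If `l₁ = l*` and there is no `VStep` in this run, it is the first one of the piece and the others are of
U-type: no `VStep` in the piece. -/
def TreeAcyclic {L : Type} [Fintype L] [DecidableEq L] (D : KS L) (E : Finset (Finset L)) : Prop :=
  ∀ (n : ℕ) (x : ℕ → Pt), (∀ k ≤ n, D.Vtx (x k)) →
    (∀ k < n, x (k + 1) = sh (x k) 1 ∨ D.VStep E (x k) (x (k + 1))) → x n = x 0 →
    ∀ k < n, x (k + 1) = sh (x k) 1

/-- TR6.  The recursion principle (from `TreeAcyclic`, `TreeTops` and finiteness of the vertices): the strongly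
connected components of the dependency graph are the cycles of the shift. -/
def TreeRec {L : Type} [Fintype L] [DecidableEq L] (D : KS L) (E : Finset (Finset L)) : Prop :=
  ∀ P : Pt → Prop, (D.Vtx D.al → P D.al) →
    (∀ x, D.Vtx x → ¬ D.Per x → P (sh x 1) → (∀ v, D.VStep E x v → P v) → P x) →
    (∀ t, D.Top t → (∀ y ∈ cyc t, ∀ v, D.VStep E y v → P v) → ∀ y ∈ cyc t, P y) →
    ∀ x, D.Vtx x → P x

/-! ### TR5: turns -/

/-- TR5.  `E` full.
`side_cls`: choose `N` with `Phi^x_N` constant `= l` on `X = cls x i`, and let `n` be the first difference of `sh x N` and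
`kap l`; `B = {j : side (Phi^(sh x N)_n j) ≠ x (N+n)}` is the pull back of the cut at `0` (`lp t {o}ᶜ`), hence a side of `E`
(`closed`), it contains `l` and is contained in the class of `l` at `sh x N`, and `X` is the pull back of `B`.  If `sh x N = kap l`:
then `x = kap i`, or `sh x m = kap o` for some `m` with `Phi_m` mapping `X` to `o`, and `X` is the pull back of `{o}`; if
`x = kap i` is not a vertex, `X = {i}` is the complement of the other class.
`ru`: `s = side o`; `q` the length of the cycle of arms at `al`: `phi s` sends `o → nxt o → … → nxt^[q-1] o`, which is the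
first one off the side `s`, and then back to `o`.  The pair is `(zer p, cls p o)` for `p` on the axis; apply `image` with the
side `s` again and again: for `p` above `al` (arm of `o`) the pair at `cn s p` is `(zer, dir al)`, at the following points
`(outer, dir al)`, and at each of them the germ which contains `o` is one of the two; after `q` steps it is again
`(zer, cls o)` at a point above `al`.  After some steps the point has only two classes (`triv`): `phi s ^ n` maps
all letters into `{o, …, nxt^[q-1] o}`, and for a point `p ≠ al` all of them except at most one are in the direction of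
`al`.
`glue_pts`: induction on the number of letters in `dir p q ∩ dir q p`: if it is empty, then `triv`; otherwise take a
letter `l` in it, `a ∉ dir p q`, `b ∉ dir q p`, `v = med a b l`; then `dir v p = cls v a`, `dir v q = cls v b`, `dir p v = dir p q`,
`dir q v = dir q p`; induction for `p, v` and `v, q`, and `glue` twice.
`u1`: `glue_pts` for `y` and `kap o`, `leaf_o`.  `kg_mono`: `ru` at `t`, then `lift` backwards along the cycle. -/
structure TreeTurns {L : Type} [Fintype L] [DecidableEq L] (D : KS L) (E : Finset (Finset L)) :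
    Prop where
  side_cls : ∀ x i, ¬ (x = D.kap i ∧ D.Vtx x) → D.cls x i ≠ univ → D.Side E (D.cls x i)
  side_ger : ∀ x Y, D.Vtx x → D.Ger x Y → D.Side E Y
  ru : ∀ p, p ≠ D.al → D.zer p ≠ D.cls p D.o → D.Mono E (D.zer p) (D.cls p D.o)
  glue_pts : ∀ K, D.GlueRel E K → ∀ p q, p ≠ q → D.dir p q ≠ univ → D.dir q p ≠ univ →
    (∀ v, D.Vtx v → v ≠ p → v ≠ q → D.dir p v = D.dir p q → D.dir q v = D.dir q p →
      D.dir v p ≠ D.dir v q → K (D.dir v p) (D.dir v q)) →
    K (D.dir p q)ᶜ (D.dir q p)ᶜ
  u1 : ∀ y, D.Ax y ∨ y = D.al → D.Mono E (D.cls y D.o)ᶜ {D.o}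
  kg_mono : ∀ t y a b, D.Top t → y ∈ cyc t → a ∈ D.KG t y → b ∈ D.KG t y → a ≠ b →
    D.Mono E a b

end R4
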